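import Mathlib

/-! Definitions for the statistical Frey-Mazur theorem. -/

namespace Pool.Agent.P.MP_a60a76_nt.Fs

open Polynomial
open scoped NNReal

noncomputable section

/-- The curve `y^2 = x^3 + a x + b`. -/
def wc {R : Type*} [CommRing R] (a b : R) : WeierstrassCurve R := ⟨0, 0, 0, a, b⟩

/-- `4 a^3 + 27 b^2`. -/
def dsc {R : Type*} [CommRing R] (a b : R) : R := 4 * a ^ 3 + 27 * b ^ 2

/-- First coefficient of the model with invariant `n / d`. -/
def ma {R : Type*} [CommRing R] (n d : R) : R := 3 * n * (1728 * d - n)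

/-- Second coefficient of the model with invariant `n / d`. -/
def mb {R : Type*} [CommRing R] (n d : R) : R := 2 * n * (1728 * d - n) ^ 2

/-- The polynomial that vanishes on the two exceptional graphs. -/
def exc {R : Type*} [CommRing R] (A : R) (N D : R[X]) : R[X] :=
  (N * (729 * X ^ 4 - C (16 * A ^ 6)) +
      432 * D * (C (-25920 * A ^ 3) * X ^ 2 + C (2000 * A ^ 6))) ^ 2 +
    C (108 * A ^ 3) *
      (2 * N * X * (27 * X ^ 2 + C (4 * A ^ 3)) -
        432 * D * (1728 * X ^ 3 - C (1200 * A ^ 3) * X)) ^ 2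

section points

variable {K L : Type*} [Field K] [Field L]

/-- Points of `y^2 = x^3 + a x + b` over `K`. -/
def Pt (a b : K) : Type _ := (wc a b).toAffine.Point

open Classical in
instance (a b : K) : AddCommGroup (Pt a b) :=
  inferInstanceAs (AddCommGroup (wc a b).toAffine.Point)

variable {a b : K}

/-- The `x` coordinate (zero at infinity). -/
def xc : Pt a b → K
  | .zero => 0
  | .some x _ _ => x

/-- The `y` coordinate (zero at infinity). -/
def yc : Pt a b → K
  | .zero => 0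
  | .some _ y _ => y

open Classical in
/-- Projective `x` coordinate, numerator. -/
def xp (P : Pt a b) : K := if P = 0 then 1 else xc P

open Classical in
/-- Projective `x` coordinate, denominator. -/
def zp (P : Pt a b) : K := if P = 0 then 0 else 1

theorem nonsing_iff (x y : K) : (wc a b).toAffine.Nonsingular x y ↔
    y ^ 2 = x ^ 3 + a * x + b ∧ (3 * x ^ 2 + a ≠ 0 ∨ 2 * y ≠ 0) := by
  rw [WeierstrassCurve.Affine.nonsingular_iff', WeierstrassCurve.Affine.equation_iff]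
  simp only [wc, WeierstrassCurve.toAffine, zero_mul, add_zero, mul_zero, zero_sub, ne_eq,
    neg_eq_zero]

/-- The point with given coordinates. -/
def mkPt (x y : K) (h : y ^ 2 = x ^ 3 + a * x + b) (h' : 3 * x ^ 2 + a ≠ 0 ∨ 2 * y ≠ 0) :
    Pt a b := .some x y ((nonsing_iff x y).2 ⟨h, h'⟩)

@[simp] theorem xc_mkPt (x y : K) (h h') : xc (mkPt (a := a) (b := b) x y h h') = x := rfl
@[simp] theorem yc_mkPt (x y : K) (h h') : yc (mkPt (a := a) (b := b) x y h h') = y := rfl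
theorem mkPt_ne_zero (x y : K) (h h') : mkPt (a := a) (b := b) x y h h' ≠ 0 :=
  WeierstrassCurve.Affine.Point.some_ne_zero _

@[simp] theorem xc_zero : xc (0 : Pt a b) = 0 := rfl
@[simp] theorem yc_zero : yc (0 : Pt a b) = 0 := rfl
@[simp] theorem xp_zero : xp (0 : Pt a b) = 1 := by simp [xp]
@[simp] theorem zp_zero : zp (0 : Pt a b) = 0 := by simp [zp]
theorem xp_of_ne {P : Pt a b} (h : P ≠ 0) : xp P = xc P := by simp [xp, h]
theorem zp_of_ne {P : Pt a b} (h : P ≠ 0) : zp P = 1 := by simp [zp, h]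

theorem eqn {P : Pt a b} (h : P ≠ 0) : yc P ^ 2 = xc P ^ 3 + a * xc P + b := by
  rcases P with _ | ⟨x, y, h1⟩
  · exact absurd rfl h
  · exact ((nonsing_iff x y).1 h1).1

theorem nonsing {P : Pt a b} (h : P ≠ 0) : 3 * xc P ^ 2 + a ≠ 0 ∨ 2 * yc P ≠ 0 := by
  rcases P with _ | ⟨x, y, h1⟩
  · exact absurd rfl h
  · exact ((nonsing_iff x y).1 h1).2

theorem nonsing_of_dsc (hd : dsc a b ≠ 0) (h2 : (2 : K) ≠ 0) {x y : K}
    (h : y ^ 2 = x ^ 3 + a * x + b) : 3 * x ^ 2 + a ≠ 0 ∨ 2 * y ≠ 0 := by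
  by_contra hc
  push Not at hc
  obtain ⟨h1, h3⟩ := hc
  have hy : y = 0 := (mul_eq_zero.1 h3).resolve_left h2
  subst hy
  apply hd
  have ha : a = -3 * x ^ 2 := by linear_combination h1
  have hb : b = 2 * x ^ 3 := by linear_combination -h - x * h1
  rw [ha, hb, dsc]; ring

theorem pt_ext {P Q : Pt a b} (hP : P ≠ 0) (hQ : Q ≠ 0) (hx : xc P = xc Q) (hy : yc P = yc Q) :
    P = Q := by
  rcases P with _ | ⟨x, y, h1⟩
  · exact absurd rfl hP
  rcases Q with _ | ⟨x', y', h2⟩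
  · exact absurd rfl hQ
  have hx' : x = x' := hx
  have hy' : y = y' := hy
  subst hx' hy'
  rfl

@[simp] theorem xc_neg (P : Pt a b) : xc (-P) = xc P := by
  rcases P with _ | ⟨x, y, h1⟩ <;> rfl

@[simp] theorem yc_neg (P : Pt a b) : yc (-P) = -yc P := by
  rcases P with _ | ⟨x, y, h1⟩
  · change (0 : K) = -0
    simp
  · change (wc a b).toAffine.negY x y = -y
    simp [wc, WeierstrassCurve.Affine.negY]

theorem eq_or_neg_of_xc {P Q : Pt a b} (hP : P ≠ 0) (hQ : Q ≠ 0) (hx : xc P = xc Q) :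
    P = Q ∨ P = -Q := by
  have h1 := eqn hP
  have h2 := eqn hQ
  have h3 : (yc P - yc Q) * (yc P + yc Q) = 0 := by rw [hx] at h1; linear_combination h1 - h2
  rcases mul_eq_zero.1 h3 with h | h
  · exact Or.inl (pt_ext hP hQ hx (by linear_combination h))
  · exact Or.inr (pt_ext hP (neg_ne_zero.2 hQ) (by simpa using hx)
      (by rw [yc_neg]; linear_combination h))

theorem add_of_xc_ne {P Q : Pt a b} (hP : P ≠ 0) (hQ : Q ≠ 0) (hx : xc P ≠ xc Q) :
    P + Q ≠ 0 ∧
    xc (P + Q) = ((yc P - yc Q) / (xc P - xc Q)) ^ 2 - xc P - xc Q ∧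
    yc (P + Q) = -((yc P - yc Q) / (xc P - xc Q) * (xc (P + Q) - xc P) + yc P) := by
  classical
  generalize hR : P + Q = R
  rcases P with _ | ⟨x, y, h1⟩
  · exact absurd rfl hP
  rcases Q with _ | ⟨x', y', h2⟩
  · exact absurd rfl hQ
  have hx' : x ≠ x' := hx
  have e := WeierstrassCurve.Affine.Point.add_of_X_ne (h₁ := h1) (h₂ := h2) hx'
  have e' : R = _ := hR.symm.trans e
  subst e'
  refine ⟨WeierstrassCurve.Affine.Point.some_ne_zero _, ?_, ?_⟩
  · simp [xc, yc, WeierstrassCurve.Affine.slope_of_X_ne hx', WeierstrassCurve.Affine.addX, wc]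
  · simp [xc, yc, WeierstrassCurve.Affine.slope_of_X_ne hx', WeierstrassCurve.Affine.addX,
      WeierstrassCurve.Affine.addY, WeierstrassCurve.Affine.negAddY,
      WeierstrassCurve.Affine.negY, wc]

theorem add_self_of_ne {P : Pt a b} (hP : P ≠ 0) (hy : 2 * yc P ≠ 0) :
    P + P ≠ 0 ∧
    xc (P + P) = ((3 * xc P ^ 2 + a) / (2 * yc P)) ^ 2 - xc P - xc P ∧
    yc (P + P) = -((3 * xc P ^ 2 + a) / (2 * yc P) * (xc (P + P) - xc P) + yc P) := by
  classical
  generalize hR : P + P = R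
  rcases P with _ | ⟨x, y, h1⟩
  · exact absurd rfl hP
  have hy0 : 2 * y ≠ 0 := hy
  have hy' : y ≠ (wc a b).toAffine.negY x y := by
    intro h
    apply hy0
    simp [wc, WeierstrassCurve.Affine.negY] at h
    linear_combination h
  have e := WeierstrassCurve.Affine.Point.add_self_of_Y_ne (h₁ := h1) hy'
  have e' : R = _ := hR.symm.trans e
  subst e'
  have hs : (wc a b).toAffine.slope x x y y = (3 * x ^ 2 + a) / (2 * y) := by
    rw [WeierstrassCurve.Affine.slope_of_Y_ne rfl hy']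
    simp [wc, WeierstrassCurve.Affine.negY, two_mul]
  refine ⟨WeierstrassCurve.Affine.Point.some_ne_zero _, ?_, ?_⟩
  · simp only [xc, yc, hs]
    simp [WeierstrassCurve.Affine.addX, wc]
  · simp only [xc, yc, WeierstrassCurve.Affine.addY, WeierstrassCurve.Affine.negAddY, hs]
    simp [WeierstrassCurve.Affine.addX, WeierstrassCurve.Affine.negY, wc]

theorem add_self_eq_zero_iff {P : Pt a b} (hP : P ≠ 0) : P + P = 0 ↔ 2 * yc P = 0 := by
  constructor
  · intro h
    by_contra hy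
    exact (add_self_of_ne hP hy).1 h
  · intro h
    have : P = -P := pt_ext hP (neg_ne_zero.2 hP) (by simp) (by rw [yc_neg]; linear_combination h)
    exact add_eq_zero_iff_eq_neg.2 this

/-- A criterion for additivity of a map given on coordinates. -/
theorem additive_of_coords {a' b' : L} (σ : K →+* L) (u : L) (hu : u ≠ 0)
    (ha : a' = u ^ 4 * σ a) (f : Pt a b → Pt a' b') (f0 : f 0 = 0)
    (hf : ∀ P, P ≠ 0 → f P ≠ 0 ∧ xc (f P) = u ^ 2 * σ (xc P) ∧ yc (f P) = u ^ 3 * σ (yc P))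
    (P Q : Pt a b) : f (P + Q) = f P + f Q := by
  have hneg : ∀ P, f (-P) = -f P := by
    intro P
    by_cases hP : P = 0
    · simp [hP, f0]
    obtain ⟨h1, h2, h3⟩ := hf P hP
    obtain ⟨h4, h5, h6⟩ := hf (-P) (neg_ne_zero.2 hP)
    refine pt_ext h4 (neg_ne_zero.2 h1) ?_ ?_
    · rw [h5, xc_neg, xc_neg, h2]
    · rw [h6, yc_neg, yc_neg, h3, map_neg]; ring
  by_cases hP : P = 0
  · simp [hP, f0]
  by_cases hQ : Q = 0
  · simp [hQ, f0]
  obtain ⟨p1, p2, p3⟩ := hf P hP
  obtain ⟨q1, q2, q3⟩ := hf Q hQ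
  by_cases hx : xc P = xc Q
  · rcases eq_or_neg_of_xc hP hQ hx with h | h
    · subst h
      by_cases hy : 2 * yc P = 0
      · rw [(add_self_eq_zero_iff hP).2 hy, f0, (add_self_eq_zero_iff p1).2]
        have := congrArg σ hy
        rw [map_mul, map_ofNat, map_zero] at this
        rw [p3]; linear_combination u ^ 3 * this
      · have hy1 : 2 * σ (yc P) ≠ 0 := by
          intro h
          apply hy
          apply σ.injective
          rw [map_mul, map_ofNat, map_zero, h]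
        have hy' : 2 * yc (f P) ≠ 0 := by
          rw [p3, show 2 * (u ^ 3 * σ (yc P)) = u ^ 3 * (2 * σ (yc P)) by ring]
          exact mul_ne_zero (pow_ne_zero _ hu) hy1
        obtain ⟨r1, r2, r3⟩ := add_self_of_ne hP hy
        obtain ⟨s1, s2, s3⟩ := add_self_of_ne p1 hy'
        obtain ⟨t1, t2, t3⟩ := hf _ r1
        have h2 : (2 : L) ≠ 0 := left_ne_zero_of_mul hy1
        have h3 : σ (yc P) ≠ 0 := right_ne_zero_of_mul hy1
        have ex : xc (f (P + P)) = xc (f P + f P) := by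
          rw [t2, s2, r2, p2, p3, ha]
          simp only [map_sub, map_pow, map_div₀, map_add, map_mul, map_ofNat]
          field_simp
        refine pt_ext t1 s1 ex ?_
        rw [t3, s3, ← ex, t2, r3, p2, p3, ha]
        simp only [map_sub, map_pow, map_div₀, map_add, map_mul, map_ofNat, map_neg]
        field_simp
    · rw [h, neg_add_cancel, f0, hneg, neg_add_cancel]
  · have hx1 : σ (xc P) - σ (xc Q) ≠ 0 := by
      rw [← map_sub]
      exact (map_ne_zero σ).2 (sub_ne_zero.2 hx)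
    have hx' : xc (f P) ≠ xc (f Q) := by
      rw [p2, q2]
      intro h
      apply hx1
      have := mul_left_cancel₀ (pow_ne_zero 2 hu) h
      rw [this, sub_self]
    obtain ⟨r1, r2, r3⟩ := add_of_xc_ne hP hQ hx
    obtain ⟨s1, s2, s3⟩ := add_of_xc_ne p1 q1 hx'
    obtain ⟨t1, t2, t3⟩ := hf _ r1
    have hx2 : u ^ 2 * σ (xc P) - u ^ 2 * σ (xc Q) ≠ 0 := by
      rw [← mul_sub]; exact mul_ne_zero (pow_ne_zero _ hu) hx1
    have ex : xc (f (P + Q)) = xc (f P + f Q) := by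
      rw [t2, s2, r2, p2, p3, q2, q3]
      simp only [map_sub, map_pow, map_div₀]
      field_simp
    refine pt_ext t1 s1 ex ?_
    rw [t3, s3, ← ex, t2, r3, p2, p3, q2, q3]
    simp only [map_sub, map_div₀, map_add, map_mul, map_neg]
    field_simp

open Classical in
/-- The map `(x, y) ↦ (u^2 σ x, u^3 σ y)` on points. -/
def twFun (σ : K →+* L) (u : L) (hu : u ≠ 0) {a' b' : L} (ha : a' = u ^ 4 * σ a)
    (hb : b' = u ^ 6 * σ b) (P : Pt a b) : Pt a' b' :=
  if h : P = 0 then 0 else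
    mkPt (u ^ 2 * σ (xc P)) (u ^ 3 * σ (yc P))
      (by
        have := congrArg σ (eqn h)
        simp only [map_pow, map_add, map_mul] at this
        rw [ha, hb]; linear_combination u ^ 6 * this)
      (by
        rcases nonsing h with h1 | h1
        · left
          have := (map_ne_zero σ).2 h1
          simp only [map_pow, map_add, map_mul, map_ofNat] at this
          rw [ha, show 3 * (u ^ 2 * σ (xc P)) ^ 2 + u ^ 4 * σ a =
            u ^ 4 * (3 * σ (xc P) ^ 2 + σ a) by ring]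
          exact mul_ne_zero (pow_ne_zero _ hu) this
        · right
          have := (map_ne_zero σ).2 h1
          simp only [map_mul, map_ofNat] at this
          rw [show 2 * (u ^ 3 * σ (yc P)) = u ^ 3 * (2 * σ (yc P)) by ring]
          exact mul_ne_zero (pow_ne_zero _ hu) this)

theorem twFun_spec (σ : K →+* L) (u : L) (hu : u ≠ 0) {a' b' : L} (ha : a' = u ^ 4 * σ a)
    (hb : b' = u ^ 6 * σ b) (P : Pt a b) (hP : P ≠ 0) :
    twFun σ u hu ha hb P ≠ 0 ∧ xc (twFun σ u hu ha hb P) = u ^ 2 * σ (xc P) ∧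
      yc (twFun σ u hu ha hb P) = u ^ 3 * σ (yc P) := by
  simp only [twFun, dif_neg hP]
  exact ⟨mkPt_ne_zero _ _ _ _, rfl, rfl⟩

/-- The homomorphism `(x, y) ↦ (u^2 σ x, u^3 σ y)`. -/
def tw (σ : K →+* L) (u : L) (hu : u ≠ 0) {a' b' : L} (ha : a' = u ^ 4 * σ a)
    (hb : b' = u ^ 6 * σ b) : Pt a b →+ Pt a' b' :=
  AddMonoidHom.mk' (twFun σ u hu ha hb)
    (additive_of_coords σ u hu ha _ (by simp [twFun]) (twFun_spec σ u hu ha hb))

theorem tw_eq_zero_iff (σ : K →+* L) (u : L) (hu : u ≠ 0) {a' b' : L} (ha : a' = u ^ 4 * σ a)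
    (hb : b' = u ^ 6 * σ b) (P : Pt a b) : tw σ u hu ha hb P = 0 ↔ P = 0 := by
  constructor
  · intro h
    by_contra hP
    exact (twFun_spec σ u hu ha hb P hP).1 h
  · rintro rfl
    exact map_zero _

theorem tw_injective (σ : K →+* L) (u : L) (hu : u ≠ 0) {a' b' : L} (ha : a' = u ^ 4 * σ a)
    (hb : b' = u ^ 6 * σ b) : Function.Injective (tw σ u hu ha hb) :=
  (injective_iff_map_eq_zero' _).2 (tw_eq_zero_iff σ u hu ha hb)

theorem xc_tw (σ : K →+* L) (u : L) (hu : u ≠ 0) {a' b' : L} (ha : a' = u ^ 4 * σ a)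
    (hb : b' = u ^ 6 * σ b) (P : Pt a b) : xc (tw σ u hu ha hb P) = u ^ 2 * σ (xc P) := by
  by_cases hP : P = 0
  · simp [hP]
  · exact (twFun_spec σ u hu ha hb P hP).2.1

theorem yc_tw (σ : K →+* L) (u : L) (hu : u ≠ 0) {a' b' : L} (ha : a' = u ^ 4 * σ a)
    (hb : b' = u ^ 6 * σ b) (P : Pt a b) : yc (tw σ u hu ha hb P) = u ^ 3 * σ (yc P) := by
  by_cases hP : P = 0
  · simp [hP]
  · exact (twFun_spec σ u hu ha hb P hP).2.2

open Classical in
/-- The action of a field endomorphism fixing `a` and `b` on points (the identity otherwise). -/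
def galP (a b : K) (σ : K →+* K) : Pt a b →+ Pt a b :=
  if h : σ a = a ∧ σ b = b then
    tw σ 1 one_ne_zero (by simp [h.1]) (by simp [h.2]) else AddMonoidHom.id _

theorem xc_galP {σ : K →+* K} (ha : σ a = a) (hb : σ b = b) (P : Pt a b) :
    xc (galP a b σ P) = σ (xc P) := by
  simp [galP, ha, hb, xc_tw]

theorem yc_galP {σ : K →+* K} (ha : σ a = a) (hb : σ b = b) (P : Pt a b) :
    yc (galP a b σ P) = σ (yc P) := by
  simp [galP, ha, hb, yc_tw]

theorem galP_eq_zero_iff (σ : K →+* K) (P : Pt a b) : galP a b σ P = 0 ↔ P = 0 := by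
  unfold galP
  split_ifs with h
  · exact tw_eq_zero_iff _ _ _ _ _ P
  · rfl

theorem galP_id (P : Pt a b) : galP a b (RingHom.id K) P = P := by
  by_cases hP : P = 0
  · simp [hP]
  · exact pt_ext ((galP_eq_zero_iff _ _).not.2 hP) hP (xc_galP rfl rfl P) (yc_galP rfl rfl P)

theorem galP_comp {σ τ : K →+* K} (ha : σ a = a) (hb : σ b = b) (ha' : τ a = a) (hb' : τ b = b)
    (P : Pt a b) : galP a b (σ.comp τ) P = galP a b σ (galP a b τ P) := by
  by_cases hP : P = 0
  · simp [hP]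
  · have h1 : (σ.comp τ) a = a := by simp [ha, ha']
    have h2 : (σ.comp τ) b = b := by simp [hb, hb']
    refine pt_ext ((galP_eq_zero_iff _ _).not.2 hP)
      ((galP_eq_zero_iff _ _).not.2 ((galP_eq_zero_iff _ _).not.2 hP)) ?_ ?_
    · rw [xc_galP h1 h2, xc_galP ha hb, xc_galP ha' hb']; rfl
    · rw [yc_galP h1 h2, yc_galP ha hb, yc_galP ha' hb']; rfl

/-- The `m`-torsion subgroup. -/
def Tors (m : ℕ) (a b : K) : AddSubgroup (Pt a b) where
  carrier := {P | m • P = 0}
  add_mem' := by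
    intro P Q hP hQ
    simp only [Set.mem_ofPred_eq] at *
    rw [smul_add, hP, hQ, add_zero]
  zero_mem' := by simp
  neg_mem' := by
    intro P hP
    simp only [Set.mem_ofPred_eq] at *
    rw [smul_neg, hP, neg_zero]

theorem mem_tors {m : ℕ} {P : Pt a b} : P ∈ Tors m a b ↔ m • P = 0 := Iff.rfl

theorem tors_smul {m : ℕ} (P : Tors m a b) : m • P = 0 := Subtype.ext P.2

/-- Restriction of a homomorphism to the `m`-torsion. -/
def resT (m : ℕ) {a' b' : L} (f : Pt a b →+ Pt a' b') : Tors m a b →+ Tors m a' b' :=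
  (f.comp (Tors m a b).subtype).codRestrict _ (fun P => by
    rw [mem_tors, ← map_nsmul, tors_smul, map_zero])

@[simp] theorem resT_coe (m : ℕ) {a' b' : L} (f : Pt a b →+ Pt a' b') (P : Tors m a b) :
    (resT m f P : Pt a' b') = f P := rfl

/-- The action of a field endomorphism on the `m`-torsion. -/
def galT (m : ℕ) (a b : K) (σ : K →+* K) : AddMonoid.End (Tors m a b) := resT m (galP a b σ)

@[simp] theorem galT_coe (m : ℕ) (σ : K →+* K) (P : Tors m a b) :
    (galT m a b σ P : Pt a b) = galP a b σ P := rfl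

/-- The action of a field automorphism on the `m`-torsion. -/
def rho (m : ℕ) (a b : K) (σ : RingAut K) : AddMonoid.End (Tors m a b) :=
  galT m a b σ.toRingHom

/-- The action on the `m`-torsion of a group of automorphisms fixing `a` and `b`. -/
def rhoHom (m : ℕ) (a b : K) (G : Subgroup (RingAut K)) (hG : ∀ σ ∈ G, σ a = a ∧ σ b = b) :
    G →* AddMonoid.End (Tors m a b) where
  toFun σ := rho m a b σ
  map_one' := by
    ext P
    exact galP_id _
  map_mul' σ τ := by
    ext P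
    exact galP_comp (σ := (σ : RingAut K).toRingHom) (τ := (τ : RingAut K).toRingHom)
      (hG σ σ.2).1 (hG σ σ.2).2 (hG τ τ.2).1 (hG τ τ.2).2 _

@[simp] theorem rhoHom_apply (m : ℕ) (G : Subgroup (RingAut K))
    (hG : ∀ σ ∈ G, σ a = a ∧ σ b = b) (σ : G) : rhoHom m a b G hG σ = rho m a b σ := rfl

theorem rho_one (m : ℕ) : rho m a b 1 = 1 := by
  ext P
  exact galP_id _

theorem rho_mul (m : ℕ) {σ τ : RingAut K} (hσ : σ a = a ∧ σ b = b) (hτ : τ a = a ∧ τ b = b) :
    rho m a b (σ * τ) = rho m a b σ * rho m a b τ := by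
  ext P
  exact galP_comp (σ := σ.toRingHom) (τ := τ.toRingHom) hσ.1 hσ.2 hτ.1 hτ.2 _

theorem xc_rho (m : ℕ) {σ : RingAut K} (hσ : σ a = a ∧ σ b = b) (P : Tors m a b) :
    xc (rho m a b σ P : Pt a b) = σ (xc (P : Pt a b)) :=
  xc_galP (σ := σ.toRingHom) hσ.1 hσ.2 _

theorem yc_rho (m : ℕ) {σ : RingAut K} (hσ : σ a = a ∧ σ b = b) (P : Tors m a b) :
    yc (rho m a b σ P : Pt a b) = σ (yc (P : Pt a b)) :=
  yc_galP (σ := σ.toRingHom) hσ.1 hσ.2 _

end points

section groups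

variable {V W : Type*} [AddCommGroup V] [AddCommGroup W]

/-- `f` is plus or minus the identity. -/
def PM (f : AddMonoid.End V) : Prop := (∀ v, f v = v) ∨ (∀ v, f v = -v)

/-- `f` is multiplication by an integer. -/
def Sc (f : AddMonoid.End V) : Prop := ∃ n : ℤ, ∀ v, f v = n • v

/-- Two isomorphisms agree up to sign. -/
def PMeq (ψ ψ' : V ≃+ W) : Prop := (∀ v, ψ v = ψ' v) ∨ (∀ v, ψ v = -ψ' v)

/-- `ψ` intertwines `f` and `g` up to sign. -/
def Eqv (f : AddMonoid.End V) (g : AddMonoid.End W) (ψ : V ≃+ W) : Prop :=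
  (∀ v, ψ (f v) = g (ψ v)) ∨ (∀ v, ψ (f v) = -g (ψ v))

/-- `V` is a plane over the field with `m` elements. -/
def Plane (m : ℕ) (V : Type*) [AddCommGroup V] : Prop :=
  Nat.card V = m ^ 2 ∧ ∀ v : V, m • v = 0

end groups

section fields

variable {K L : Type*} [Field K] [Field L]

/-- The relation between the projective `x` coordinates of `P`, `Q`, `P + Q`, `P - Q`. -/
def ASrel (a b x1 z1 x2 z2 x3 z3 x4 z4 : K) : Prop :=
  ∃ t : K, t ≠ 0 ∧ (x1 * z2 - x2 * z1) ^ 2 = t * (z3 * z4) ∧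
    2 * (x1 * z2 + x2 * z1) * (x1 * x2 + a * z1 * z2) + 4 * b * z1 ^ 2 * z2 ^ 2 =
      t * (x3 * z4 + x4 * z3) ∧
    (x1 * x2 - a * z1 * z2) ^ 2 - 4 * b * z1 * z2 * (x1 * z2 + x2 * z1) = t * (x3 * x4)

/-- The invariant of an isomorphism of torsion groups. -/
def tau (m s : ℕ) {a1 b1 a2 b2 : K} (ψ : Tors m a1 b1 ≃+ Tors m a2 b2) : K :=
  ∑ᶠ P : Tors m a1 b1,
    (∑ i ∈ Finset.range (m ^ 2), ((s : K) * xc (P : Pt a1 b1)) ^ i) * xc (ψ P : Pt a2 b2)

/-- `tau m s` separates isomorphisms up to sign. -/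
def Sepa (m s : ℕ) (a1 b1 a2 b2 : K) : Prop :=
  ∀ ψ ψ' : Tors m a1 b1 ≃+ Tors m a2 b2, tau m s ψ = tau m s ψ' → PMeq ψ ψ'

/-- A specialisation: a ring homomorphism on a subring, as a total function. -/
structure Spec (K L : Type*) [Field K] [Field L] where
  S : Subring K
  f : K → L
  map_one : f 1 = 1
  map_add : ∀ x ∈ S, ∀ y ∈ S, f (x + y) = f x + f y
  map_mul : ∀ x ∈ S, ∀ y ∈ S, f (x * y) = f x * f y

/-- The ring homomorphism of a specialisation. -/
def Spec.hom (g : Spec K L) : g.S →+* L where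
  toFun x := g.f x
  map_one' := g.map_one
  map_mul' x y := g.map_mul x x.2 y y.2
  map_zero' := by
    have := g.map_add 0 g.S.zero_mem 0 g.S.zero_mem
    simpa using this
  map_add' x y := g.map_add x x.2 y y.2

open Classical in
/-- The specialisation of a ring homomorphism on a subring. -/
def Spec.ofHom (S : Subring K) (φ : S →+* L) : Spec K L where
  S := S
  f x := if h : x ∈ S then φ ⟨x, h⟩ else 0
  map_one := by
    rw [dif_pos S.one_mem]
    exact φ.map_one
  map_add x hx y hy := by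
    rw [dif_pos hx, dif_pos hy, dif_pos (S.add_mem hx hy), ← φ.map_add]; rfl
  map_mul x hx y hy := by
    rw [dif_pos hx, dif_pos hy, dif_pos (S.mul_mem hx hy), ← φ.map_mul]; rfl

/-- `f` is the reduction of the `m`-torsion along `g`. -/
def IsRed (g : Spec K L) {m : ℕ} {a b : K} {a' b' : L} (f : Tors m a b → Tors m a' b') : Prop :=
  ∀ P : Tors m a b, xc (P : Pt a b) ∈ g.S ∧ yc (P : Pt a b) ∈ g.S ∧
    xc (f P : Pt a' b') = g.f (xc (P : Pt a b)) ∧ yc (f P : Pt a' b') = g.f (yc (P : Pt a b))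

/-- An endomorphism is given by rational functions. -/
def IsRat {a b : K} (α : Pt a b →+ Pt a b) : Prop :=
  α = 0 ∨ ∃ N D N' D' : K[X], D ≠ 0 ∧ D' ≠ 0 ∧
    {P : Pt a b | ¬ (α P ≠ 0 ∧ xc (α P) * D.eval (xc P) = N.eval (xc P) ∧
      yc (α P) * D'.eval (xc P) = yc P * N'.eval (xc P))}.Finite

/-- `N / D` in lowest terms gives the `x` coordinate of `α P`. -/
def XRep {a b : K} (α : Pt a b →+ Pt a b) (N D : K[X]) : Prop :=
  IsCoprime N D ∧ {P : Pt a b | ¬ ∃ t : K, t ≠ 0 ∧ xp (α P) = t * N.eval (xc P) ∧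
    zp (α P) = t * D.eval (xc P)}.Finite

/-- The degree of an endomorphism. -/
def dg {a b : K} (α : Pt a b →+ Pt a b) : ℕ :=
  sInf {n | ∃ N D, XRep α N D ∧ n = max N.natDegree D.natDegree}

/-- The scaling at a place of multiplicative reduction. -/
def cc (a b : K) : K := -3 * b / (2 * a)

/-- The parameter `1 / (1 - j / 1728)`. -/
def eps (a b : K) : K := dsc a b / (27 * b ^ 2)

/-- The coordinate centred at the node. -/
def zz {a b : K} (P : Pt a b) : K := xc P / cc a b - 1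

open Classical in
/-- The component of a point at a place of multiplicative reduction. -/
def dl (v : Valuation K ℝ≥0) {a b : K} (P : Pt a b) : ℝ≥0 :=
  if P = 0 then 1 else max (v (zz P) ^ 2) (v (eps a b))

end fields

/-- A place of multiplicative reduction of residue characteristic prime to `6 m`. -/
structure Mult {K : Type*} [Field K] (v : Valuation K ℝ≥0) (m : ℕ) (a b : K) : Prop where
  two : v 2 = 1
  three : v 3 = 1
  vm : v (m : K) = 1
  a0 : a ≠ 0
  b0 : b ≠ 0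
  d0 : dsc a b ≠ 0
  lt : v (eps a b) < 1

section base

variable {R Ω : Type*} [CommRing R] [Field Ω]

/-- Automorphisms of `Ω` fixing the image of `ι`. -/
def Aut (ι : R →+* Ω) : Subgroup (RingAut Ω) where
  carrier := {σ | ∀ r, σ (ι r) = ι r}
  mul_mem' := by
    intro σ τ hσ hτ r
    change σ (τ (ι r)) = ι r
    rw [hτ r, hσ r]
  one_mem' := fun _ => rfl
  inv_mem' := by
    intro σ hσ r
    apply σ.injective
    change σ (σ.symm (ι r)) = _
    rw [σ.apply_symm_apply, hσ r]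

theorem mem_aut {ι : R →+* Ω} {σ : RingAut Ω} : σ ∈ Aut ι ↔ ∀ r, σ (ι r) = ι r := Iff.rfl

/-- The field generated by the image of `ι`. -/
def K0 (ι : R →+* Ω) : Subfield Ω := Subfield.closure (Set.range ι)

/-- The elements separable over the field generated by the image of `ι`. -/
def sepF (ι : R →+* Ω) : Subfield Ω := (separableClosure (K0 ι) Ω).toSubfield

/-- `Ω` is an algebraic closure of the fraction field of `R`. -/
structure Clos (ι : R →+* Ω) : Prop where
  closed : IsAlgClosed Ω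
  inj : Function.Injective ι
  alg : ∀ z : Ω, ∃ p : R[X], p ≠ 0 ∧ p.eval₂ ι z = 0

/-- A place with its decomposition group. -/
structure Loc (ι : R →+* Ω) where
  v : Valuation Ω ℝ≥0
  D : Subgroup (RingAut Ω)
  le : D ≤ Aut ι
  inv : ∀ σ ∈ D, ∀ z, v (σ z) = v z
  fix : ∀ z ∈ sepF ι, z ≠ 0 → (∀ σ ∈ D, σ z = z) → ∃ n : ℤ, v z = (1 / 2 : ℝ≥0) ^ n

/-- A place of a function field with algebraically closed constants. -/
structure GLoc {k : Type*} [Field k] (ι : k[X] →+* Ω) extends Loc ι where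
  const : ∀ c : k, c ≠ 0 → v (ι (C c)) = 1
  res : ∀ z, v z ≤ 1 → ∃ c : k, v (z - ι (C c)) < 1
  unif : ∃ z, (∀ σ ∈ D, σ z = z) ∧ v z = 1 / 2

/-- Large monodromy: an element of order `m` and no stable line. -/
def Mon (ι : R →+* Ω) (m : ℕ) (a b : Ω) : Prop :=
  (∃ σ ∈ Aut ι, rho m a b σ ≠ 1 ∧ rho m a b σ ^ m = 1) ∧
    ∀ H : AddSubgroup (Tors m a b), Nat.card H = m → ∃ σ ∈ Aut ι, ∃ P ∈ H, rho m a b σ P ∉ H

/-- Some automorphism is not scalar on the first curve and a sign on the second. -/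
def Mis (ι : R →+* Ω) (m : ℕ) (a1 b1 a2 b2 : Ω) : Prop :=
  ∃ σ ∈ Aut ι, ¬ Sc (rho m a1 b1 σ) ∧ PM (rho m a2 b2 σ)

/-- `d` automorphisms move every isomorphism to `d` different ones up to sign. -/
def Big (ι : R →+* Ω) (m : ℕ) (a1 b1 a2 b2 : Ω) (d : ℕ) : Prop :=
  ∃ S : Finset (RingAut Ω), (∀ σ ∈ S, σ ∈ Aut ι) ∧ d ≤ S.card ∧
    ∀ σ ∈ S, ∀ σ' ∈ S, σ ≠ σ' → ∀ ψ : Tors m a1 b1 ≃+ Tors m a2 b2,
      ¬ Eqv (rho m a1 b1 (σ⁻¹ * σ')) (rho m a2 b2 (σ⁻¹ * σ')) ψ

/-- The standing assumptions on a pair of curves over `R`. -/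
structure Pair (ι : R →+* Ω) (m : ℕ) (a1 b1 a2 b2 : R) : Prop where
  clos : Clos ι
  two : (2 : Ω) ≠ 0
  prime : m.Prime
  five : 5 ≤ m
  unit : IsUnit (m : R)
  d1 : dsc a1 b1 ≠ 0
  d2 : dsc a2 b2 ≠ 0

/-- `T` is the set of values of `tau m s`. -/
def IsVals (m s : ℕ) (a1 b1 a2 b2 : Ω) (T : Finset Ω) : Prop :=
  ∀ t, t ∈ T ↔ ∃ ψ : Tors m a1 b1 ≃+ Tors m a2 b2, tau m s ψ = t

end base

section frob

/-- The algebraic closure of the field with `l` elements. -/
abbrev Fb (l : ℕ) [Fact l.Prime] := AlgebraicClosure (ZMod l)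

/-- The inclusion of the prime field. -/
abbrev up (l : ℕ) [Fact l.Prime] : ZMod l →+* Fb l := algebraMap (ZMod l) (Fb l)

/-- The Frobenius on points. -/
def frobP (l : ℕ) [Fact l.Prime] (a b : Fb l) : Pt a b →+ Pt a b := galP a b (frobenius (Fb l) l)

/-- The Frobenius on the `m`-torsion of a curve over the prime field. -/
def frobT (l : ℕ) [Fact l.Prime] (m : ℕ) (a b : ZMod l) :
    AddMonoid.End (Tors m (up l a) (up l b)) :=
  galT m (up l a) (up l b) (frobenius (Fb l) l)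

/-- The quadratic relation of Frobenius. -/
def FrobRel (l : ℕ) [Fact l.Prime] (a b : Fb l) (t : ℤ) : Prop :=
  ∀ P : Pt a b, frobP l a b (frobP l a b P) - t • frobP l a b P + l • P = 0

open Classical in
/-- The trace of Frobenius. -/
def tr (l : ℕ) [Fact l.Prime] (a b : ZMod l) : ℤ :=
  if h : ∃ t, FrobRel l (up l a) (up l b) t then h.choose else 0

/-- Equal traces up to sign. -/
def Mat (l : ℕ) [Fact l.Prime] (a1 b1 a2 b2 : ZMod l) : Prop :=
  tr l a1 b1 = tr l a2 b2 ∨ tr l a1 b1 = -tr l a2 b2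

end frob

section poly

/-- Degree in the inner variable. -/
def dX {R : Type*} [CommRing R] (f : R[X][X]) : ℕ := (Polynomial.Bivariate.swap f).natDegree

/-- Weighted degree at most `w`, the outer variable having weight `δ`. -/
def Wt {R : Type*} [CommRing R] (δ w : ℕ) (f : R[X][X]) : Prop :=
  ∀ i, f.coeff i ≠ 0 → (f.coeff i).natDegree + δ * i ≤ w

/-- Derivative in the inner variable. -/
def dIn {R : Type*} [CommRing R] (f : R[X][X]) : R[X][X] :=
  f.sum fun i c => monomial i (derivative c)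

/-- The derivation along the curve `G = 0`. -/
def DD {R : Type*} [CommRing R] (G f : R[X][X]) : R[X][X] :=
  derivative G * dIn f - dIn G * derivative f

/-- Evaluation of a polynomial in three variables. -/
def ev3 {R : Type*} [CommRing R] (F : R[X][X][X]) (x j t : R) : R :=
  (F.map (evalEvalRingHom x j)).eval t

/-- Degrees at most `n1` in the first and `n2` in the second variable. -/
def DegB {R : Type*} [CommRing R] (n1 n2 : ℕ) (F : R[X][X][X]) : Prop :=
  ∀ i, dX (F.coeff i) ≤ n1 ∧ (F.coeff i).natDegree ≤ n2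

/-- Change of coefficients in three variables. -/
def map3 {R S : Type*} [CommRing R] [CommRing S] (φ : R →+* S) (F : R[X][X][X]) : S[X][X][X] :=
  F.map (mapRingHom (mapRingHom φ))

/-- The invariant of the curve `a`, `b` is a non-constant function of degree less than `m`. -/
def JDeg {k : Type*} [Field k] (m : ℕ) (a b : k[X]) : Prop :=
  a ≠ 0 ∧ b ≠ 0 ∧ dsc a b ≠ 0 ∧ ∃ N D : k[X], IsCoprime N D ∧ N * dsc a b = 6912 * a ^ 3 * D ∧
    0 < max N.natDegree D.natDegree ∧ max N.natDegree D.natDegree < m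

/-- The height of a rational number. -/
def hgt (t : ℚ) : ℕ := max t.num.natAbs t.den

/-- Reduction of a rational number. -/
def redQ (l : ℕ) (t : ℚ) : ZMod l := (t.num : ZMod l) * (t.den : ZMod l)⁻¹

/-- The points of `T` lie on `G = 0` and reduce to one smooth point modulo `l`. -/
def IsCls (l : ℕ) (G : ℤ[X][X][X]) (T : Finset (ℤ × ℚ × ℚ)) : Prop :=
  ∃ x0 j0 t0 : ZMod l, ev3 (map3 (Int.castRingHom (ZMod l)) (derivative G)) x0 j0 t0 ≠ 0 ∧
    ∀ s ∈ T, ¬ l ∣ s.2.1.den ∧ ¬ l ∣ s.2.2.den ∧ (s.1 : ZMod l) = x0 ∧ redQ l s.2.1 = j0 ∧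
      redQ l s.2.2 = t0 ∧ ev3 (map3 (Int.castRingHom ℚ) G) s.1 s.2.1 s.2.2 = 0

end poly

section arith

/-- The algebraic closure of the rationals. -/
abbrev Qb := AlgebraicClosure ℚ

/-- Congruence up to sign of two curves over the rationals. -/
def PMC (m : ℕ) (a1 b1 a2 b2 : ℚ) : Prop :=
  ∃ ψ : Tors m (a1 : Qb) (b1 : Qb) ≃+ Tors m (a2 : Qb) (b2 : Qb),
    ∀ σ : RingAut Qb, Eqv (rho m (a1 : Qb) (b1 : Qb) σ) (rho m (a2 : Qb) (b2 : Qb) σ) ψ

/-- Congruence of two curves over the rationals. -/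
def Cong (m : ℕ) (a1 b1 a2 b2 : ℚ) : Prop :=
  ∃ ψ : Tors m (a1 : Qb) (b1 : Qb) ≃+ Tors m (a2 : Qb) (b2 : Qb),
    ∀ (σ : RingAut Qb) P, ψ (rho m (a1 : Qb) (b1 : Qb) σ P) = rho m (a2 : Qb) (b2 : Qb) σ (ψ P)

/-- Two primes divide the discriminant exactly once. -/
def Good0 (A B : ℤ) : Prop :=
  ∃ q1 q2 : ℕ, q1.Prime ∧ q2.Prime ∧ 5 ≤ q1 ∧ 5 ≤ q2 ∧ q1 ≠ q2 ∧
    padicValInt q1 (dsc A B) = 1 ∧ padicValInt q2 (dsc A B) = 1

/-- `j` is the invariant of a curve congruent up to sign to the curve `A`, `B`. -/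
def Par (p : ℕ) (A B : ℤ) (j : ℚ) : Prop :=
  dsc A B ≠ 0 ∧ j ≠ 0 ∧ j ≠ 1728 ∧ j * (dsc A B : ℤ) ≠ 6912 * (A : ℚ) ^ 3 ∧
    PMC p A B (ma j 1) (mb j 1)

/-- Pairs of naive height at most `X`. -/
def box (X : ℝ) : Set (ℤ × ℤ) :=
  {c | 4 * |(c.1 : ℝ)| ^ 3 ≤ X ∧ 27 * (c.2 : ℝ) ^ 2 ≤ X}

end arith

end

end Pool.Agent.P.MP_a60a76_nt.Fs
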