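import Pool.Agent.P.MP_a60a76_nt.Fs.Defs

namespace Pool.Agent.P.MP_a60a76_nt.Fs

open Polynomial
open scoped NNReal

variable {K : Type*} [Field K]

/-- The relation for a pair with equal `x` coordinate, in terms of the double. -/
theorem as_rel_double {a b : K} (P : Pt a b) (hP : P ≠ 0) :
    ∃ t : K, t ≠ 0 ∧
      2 * (xc P + xc P) * (xc P * xc P + a) + 4 * b = t * zp (P + P) ∧
      (xc P * xc P - a) ^ 2 - 4 * b * (xc P + xc P) = t * xp (P + P) := by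
  have he := eqn hP
  by_cases hy : 2 * yc P = 0
  · have h0 : P + P = 0 := (add_self_eq_zero_iff hP).2 hy
    have hn : 3 * xc P ^ 2 + a ≠ 0 := (nonsing hP).resolve_right (not_not.2 hy)
    refine ⟨(3 * xc P ^ 2 + a) ^ 2, pow_ne_zero 2 hn, ?_, ?_⟩
    · rw [h0, zp_zero]
      linear_combination (2 * yc P) * hy - 4 * he
    · rw [h0, xp_zero]
      linear_combination (-4 * xc P * yc P) * hy + 8 * xc P * he
  · obtain ⟨h1, h2, -⟩ := add_self_of_ne hP hy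
    refine ⟨(2 * yc P) ^ 2, pow_ne_zero 2 hy, ?_, ?_⟩
    · rw [zp_of_ne h1]
      linear_combination -4 * he
    · rw [xp_of_ne h1, h2]
      have h3 : (2 * yc P) ^ 2 * ((3 * xc P ^ 2 + a) / (2 * yc P)) ^ 2 =
          (3 * xc P ^ 2 + a) ^ 2 := by
        rw [← mul_pow, mul_div_cancel₀ _ hy]
      linear_combination 8 * xc P * he - h3

theorem as_rel {a b : K} (h2 : (2 : K) ≠ 0) (P Q : Pt a b) :
    ASrel a b (xp P) (zp P) (xp Q) (zp Q) (xp (P + Q)) (zp (P + Q)) (xp (P - Q)) (zp (P - Q)) := by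
  have hxn : ∀ R : Pt a b, xp (-R) = xp R := by
    intro R
    by_cases hR : R = 0
    · simp [hR]
    · rw [xp_of_ne hR, xp_of_ne (neg_ne_zero.2 hR), xc_neg]
  have hzn : ∀ R : Pt a b, zp (-R) = zp R := by
    intro R
    by_cases hR : R = 0
    · simp [hR]
    · rw [zp_of_ne hR, zp_of_ne (neg_ne_zero.2 hR)]
  by_cases hP : P = 0
  · subst hP
    refine ⟨1, one_ne_zero, ?_, ?_, ?_⟩ <;>
      simp only [zero_add, zero_sub, hxn, hzn, xp_zero, zp_zero] <;> ring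
  by_cases hQ : Q = 0
  · subst hQ
    refine ⟨1, one_ne_zero, ?_, ?_, ?_⟩ <;>
      simp only [add_zero, sub_zero, xp_zero, zp_zero] <;> ring
  rw [xp_of_ne hP, zp_of_ne hP, xp_of_ne hQ, zp_of_ne hQ]
  by_cases hx : xc P = xc Q
  · obtain ⟨t, ht, h1, h3⟩ := as_rel_double P hP
    rcases eq_or_neg_of_xc hP hQ hx with h | h
    · subst h
      rw [sub_self, xp_zero, zp_zero]
      refine ⟨t, ht, ?_, ?_, ?_⟩
      · ring
      · linear_combination h1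
      · linear_combination h3
    · have hQ' : Q = -P := by rw [h, neg_neg]
      subst hQ'
      rw [add_neg_cancel, sub_neg_eq_add, xc_neg, xp_zero, zp_zero]
      refine ⟨t, ht, ?_, ?_, ?_⟩
      · ring
      · linear_combination h1
      · linear_combination h3
  · have hx' : xc P ≠ xc (-Q) := by rwa [xc_neg]
    obtain ⟨a1, a2, -⟩ := add_of_xc_ne hP hQ hx
    obtain ⟨b1, b2, -⟩ := add_of_xc_ne hP (neg_ne_zero.2 hQ) hx'
    rw [xc_neg, yc_neg] at b2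
    rw [← sub_eq_add_neg] at b1 b2
    have hd : xc P - xc Q ≠ 0 := sub_ne_zero.2 hx
    have e1 := eqn hP
    have e2 := eqn hQ
    rw [xp_of_ne a1, zp_of_ne a1, xp_of_ne b1, zp_of_ne b1]
    have c1 : (xc P - xc Q) ^ 2 * xc (P + Q) =
        (yc P - yc Q) ^ 2 - (xc P + xc Q) * (xc P - xc Q) ^ 2 := by
      rw [a2]; field_simp; ring
    have c2 : (xc P - xc Q) ^ 2 * xc (P - Q) =
        (yc P + yc Q) ^ 2 - (xc P + xc Q) * (xc P - xc Q) ^ 2 := by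
      rw [b2]; field_simp; ring
    refine ⟨(xc P - xc Q) ^ 2, pow_ne_zero 2 hd, by ring, ?_, ?_⟩
    · linear_combination -c1 - c2 - 2 * e1 - 2 * e2
    · apply mul_left_cancel₀ (pow_ne_zero 2 hd)
      have c3 : (xc P - xc Q) ^ 2 * ((xc P - xc Q) ^ 2 * (xc (P + Q) * xc (P - Q))) =
          ((yc P - yc Q) ^ 2 - (xc P + xc Q) * (xc P - xc Q) ^ 2) *
            ((yc P + yc Q) ^ 2 - (xc P + xc Q) * (xc P - xc Q) ^ 2) := by
        rw [← c1, ← c2]; ring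
      rw [c3]
      have c4 : ((yc P - yc Q) ^ 2 - (xc P + xc Q) * (xc P - xc Q) ^ 2) *
            ((yc P + yc Q) ^ 2 - (xc P + xc Q) * (xc P - xc Q) ^ 2) =
          (yc P ^ 2 + yc Q ^ 2 - (xc P + xc Q) * (xc P - xc Q) ^ 2) ^ 2 -
            4 * yc P ^ 2 * yc Q ^ 2 := by ring
      rw [c4, e1, e2]
      ring

theorem as_cert {R : Type*} [CommRing R] (I : Ideal R) (a b s t u : R)
    (h0 : t ^ 2 - 4 * s * u ∈ I) (h1 : 2 * t * (s + a * u) + 4 * b * u ^ 2 ∈ I)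
    (h2 : (s - a * u) ^ 2 - 4 * b * u * t ∈ I) :
    16 * dsc a b * s ^ 4 ∈ I ∧ 16 * dsc a b * t ^ 4 ∈ I ∧ 16 * dsc a b * u ^ 4 ∈ I := by
  have key : ∀ c2 c1 c0 z : R,
      z + (c2 * ((s - a * u) ^ 2 - 4 * b * u * t) + c1 * (2 * t * (s + a * u) + 4 * b * u ^ 2) +
        c0 * (t ^ 2 - 4 * s * u)) = 0 → z ∈ I := by
    intro c2 c1 c0 z hz
    rw [eq_neg_of_add_eq_zero_left hz]
    exact I.neg_mem (I.add_mem (I.add_mem (I.mul_mem_left _ h2) (I.mul_mem_left _ h1))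
      (I.mul_mem_left _ h0))
  obtain ⟨b4, hb4⟩ : ∃ x, x = 2 * a := ⟨_, rfl⟩
  obtain ⟨b6, hb6⟩ : ∃ x, x = 4 * b := ⟨_, rfl⟩
  obtain ⟨b8, hb8⟩ : ∃ x, x = -a ^ 2 := ⟨_, rfl⟩
  refine ⟨key ((-8 * b4 ^ 3 - 27 * b6 ^ 2) * s ^ 2 + (-2 * b4 ^ 2 * b6 - 10 * b6 * b8) * s * t +
        (b4 * b6 ^ 2) * s * u + (3 * b4 ^ 2 * b8 - 3 * b4 * b6 ^ 2) * t ^ 2 +
        (3 * b4 * b6 * b8 - 3 * b6 ^ 3) * t * u)
      ((b4 ^ 2 * b6 + 5 * b6 * b8) * s ^ 2 + (-2 * b4 * b6 ^ 2 - 10 * b8 ^ 2) * s * t +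
        (b4 * b6 * b8) * s * u + (3 * b4 * b6 * b8 - 3 * b6 ^ 3) * t ^ 2 +
        (3 * b4 * b8 ^ 2 - 3 * b6 ^ 2 * b8) * t * u)
      ((-8 * b4 ^ 2 * b8 + 7 * b4 * b6 ^ 2) * s ^ 2 + (-6 * b4 * b6 * b8 + 6 * b6 ^ 3) * s * t +
        (-8 * b4 * b8 ^ 2 + 8 * b6 ^ 2 * b8) * s * u) _ ?_,
    key ((96 * b6) * s * t + (-64 * b8) * t ^ 2 + (16 * b4 * b6) * t * u)
      ((-48 * b6) * s ^ 2 + (32 * b8) * s * t + (16 * b4 * b6) * t ^ 2 + (16 * b4 * b8) * t * u)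
      ((-32 * b4 * b6) * s * t + (-12 * b6 ^ 2) * s * u + (-8 * b4 ^ 3 - 27 * b6 ^ 2) * t ^ 2)
      _ ?_,
    key ((-12) * t ^ 2 + (-32 * b4) * u ^ 2)
      (6 * s * t + (-5 * b4) * t * u + (-27 * b6) * u ^ 2)
      ((-8 * b4) * s * u + (-12 * b6) * t * u + (b4 ^ 2 - 28 * b8) * u ^ 2) _ ?_⟩ <;>
    subst hb4 hb6 hb8 <;> unfold dsc <;> ring

end Pool.Agent.P.MP_a60a76_nt.Fs
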