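import Pool.Agent.P.MP_a60a76_nt.Fs.Defs

namespace Pool.Agent.P.MP_a60a76_nt.Fs

open Polynomial
open scoped NNReal

variable {K : Type*} [Field K] {a b : K}

theorem exists_pt [IsSepClosed K] (h2 : (2 : K) ≠ 0) (hd : dsc a b ≠ 0) (x : K) :
    ∃ P : Pt a b, P ≠ 0 ∧ xc P = x := by
  have : NeZero ((2 : ℕ) : K) := ⟨by exact_mod_cast h2⟩
  obtain ⟨y, hy⟩ := IsSepClosed.exists_pow_nat_eq (x ^ 3 + a * x + b) 2
  exact ⟨mkPt x y hy (nonsing_of_dsc hd h2 hy), mkPt_ne_zero _ _ _ _, rfl⟩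

theorem finite_fibre (x : K) : {P : Pt a b | xc P = x}.Finite := by
  by_cases h : ∃ Q : Pt a b, Q ≠ 0 ∧ xc Q = x
  · obtain ⟨Q, hQ, rfl⟩ := h
    refine (Set.toFinite ({0, Q, -Q} : Set (Pt a b))).subset fun P hP => ?_
    by_cases h0 : P = 0
    · exact Or.inl h0
    · exact Or.inr (eq_or_neg_of_xc h0 hQ hP)
  · refine (Set.finite_singleton (0 : Pt a b)).subset fun P hP => ?_
    by_contra h0
    exact h ⟨P, h0, hP⟩

theorem finite_roots {f : K[X]} (hf : f ≠ 0) : {P : Pt a b | f.eval (xc P) = 0}.Finite :=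
  ((f.finite_setOfPred_isRoot hf).biUnion fun x _ => finite_fibre (a := a) (b := b) x).subset
    fun P hP => Set.mem_biUnion (x := xc P) hP rfl

theorem ratMaps_field [IsSepClosed K] : Infinite K := by
  apply Infinite.of_not_fintype
  intro hfin
  set n := Fintype.card K
  set f := (X : K[X]) ^ (n + 1) - 1
  have hfsep : Separable f := separable_X_pow_sub_C 1 (by simp [n]) one_ne_zero
  apply Nat.not_succ_le_self (Fintype.card K)
  have hroot : n.succ = Fintype.card (f.rootSet K) := by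
    rw [card_rootSet_eq_natDegree hfsep (IsSepClosed.splits_domain _ hfsep)]
    unfold f
    rw [← C_1, natDegree_X_pow_sub_C]
  rw [hroot]
  exact Fintype.card_le_of_injective _ Subtype.coe_injective

theorem ratMaps_infinite [IsSepClosed K] (h2 : (2 : K) ≠ 0) (hd : dsc a b ≠ 0) :
    Infinite (Pt a b) :=
  have : Infinite K := ratMaps_field
  Infinite.of_surjective (xc : Pt a b → K) fun x =>
    let ⟨P, _, hP⟩ := exists_pt h2 hd x
    ⟨P, hP⟩

theorem poly_eq_zero [IsSepClosed K] (h2 : (2 : K) ≠ 0) (hd : dsc a b ≠ 0) {f : K[X]}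
    (h : {P : Pt a b | f.eval (xc P) ≠ 0}.Finite) : f = 0 := by
  by_contra hf
  have := ratMaps_infinite h2 hd
  refine Set.infinite_univ ((h.union (finite_roots hf)).subset fun P _ => ?_)
  exact (em _).symm

theorem eq_of_cofinite [IsSepClosed K] (h2 : (2 : K) ≠ 0) (hd : dsc a b ≠ 0) {M : Type*}
    [AddCommGroup M] (α β : Pt a b →+ M) (h : {P | α P ≠ β P}.Finite) : α = β := by
  have := ratMaps_infinite h2 hd
  ext P
  have h1 : {Q | α (P + Q) ≠ β (P + Q)}.Finite :=
    h.preimage (f := fun Q => P + Q) (add_right_injective P).injOn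
  obtain ⟨Q, hQ⟩ := (h.union h1).exists_notMem
  simp only [Set.mem_union, Set.mem_ofPred_eq, not_or, not_not, map_add] at hQ
  have h3 := hQ.2
  rwa [hQ.1, add_left_inj] at h3

theorem xrep_zero : XRep (0 : Pt a b →+ Pt a b) 1 0 := by
  refine ⟨isCoprime_one_left, Set.finite_empty.subset fun P hP => hP ⟨1, one_ne_zero, ?_, ?_⟩⟩ <;>
    simp

theorem xrep_id : XRep (AddMonoidHom.id (Pt a b)) X 1 := by
  refine ⟨isCoprime_one_right, (Set.finite_singleton 0).subset fun P hP => ?_⟩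
  by_contra h0
  exact hP ⟨1, one_ne_zero, by simp [xp_of_ne h0], by simp [zp_of_ne h0]⟩

theorem isRat_id : IsRat (AddMonoidHom.id (Pt a b)) := by
  refine Or.inr ⟨X, 1, 1, 1, one_ne_zero, one_ne_zero,
    (Set.finite_singleton 0).subset fun P hP => ?_⟩
  by_contra h0
  exact hP ⟨h0, by simp, by simp⟩

theorem isRat_neg {α : Pt a b →+ Pt a b} (h : IsRat α) : IsRat (-α) := by
  rcases h with rfl | ⟨N, D, N', D', hD, hD', h⟩
  · exact Or.inl neg_zero
  · refine Or.inr ⟨N, D, -N', D', hD, hD', h.subset fun P hP hP' => hP ⟨?_, ?_, ?_⟩⟩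
    · exact neg_ne_zero.2 hP'.1
    · rw [AddMonoidHom.neg_apply, xc_neg]; exact hP'.2.1
    · rw [AddMonoidHom.neg_apply, yc_neg, eval_neg]; linear_combination -hP'.2.2

open Filter

/-- functions that are rational in the first coordinate off a finite set -/
def RatMapsFn (g : Pt a b → K) : Prop :=
  ∃ N D : K[X], D ≠ 0 ∧ ∀ᶠ P in cofinite, g P * D.eval (xc P) = N.eval (xc P)

theorem ratMaps_ne {f : K[X]} (hf : f ≠ 0) : ∀ᶠ P : Pt a b in cofinite, f.eval (xc P) ≠ 0 :=
  eventually_cofinite.2 ((finite_roots hf).subset fun _ hP => not_not.1 hP)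

theorem ratMaps_ne_zero : ∀ᶠ P : Pt a b in cofinite, P ≠ 0 := eventually_cofinite_ne 0

theorem ratMaps_y : ∀ᶠ P : Pt a b in cofinite, yc P ≠ 0 := by
  have hf : (X ^ 3 + C a * X + C b : K[X]) ≠ 0 := by
    intro h
    have := congrArg (coeff · 3) h
    simp at this
  filter_upwards [ratMaps_ne (a := a) (b := b) hf, ratMaps_ne_zero] with P h1 h2 h3
  apply h1
  have := eqn h2
  simp only [eval_add, eval_pow, eval_X, eval_mul, eval_C]
  rw [← this, h3]; ring

namespace RatMapsFn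

variable {g h : Pt a b → K}

theorem poly (f : K[X]) : RatMapsFn fun P : Pt a b => f.eval (xc P) :=
  ⟨f, 1, one_ne_zero, Eventually.of_forall fun P => by simp⟩

theorem const (c : K) : RatMapsFn fun _ : Pt a b => c :=
  ⟨C c, 1, one_ne_zero, Eventually.of_forall fun P => by simp⟩

theorem congr (hg : RatMapsFn g) (e : ∀ᶠ P in cofinite, h P = g P) : RatMapsFn h := by
  obtain ⟨N, D, hD, hg⟩ := hg
  refine ⟨N, D, hD, ?_⟩
  filter_upwards [hg, e] with P h1 h2
  rw [h2, h1]

theorem add (hg : RatMapsFn g) (hh : RatMapsFn h) : RatMapsFn fun P => g P + h P := by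
  obtain ⟨N, D, hD, hg⟩ := hg
  obtain ⟨N', D', hD', hh⟩ := hh
  refine ⟨N * D' + N' * D, D * D', mul_ne_zero hD hD', ?_⟩
  filter_upwards [hg, hh] with P h1 h2
  simp only [eval_add, eval_mul, ← h1, ← h2]; ring

theorem mul (hg : RatMapsFn g) (hh : RatMapsFn h) : RatMapsFn fun P => g P * h P := by
  obtain ⟨N, D, hD, hg⟩ := hg
  obtain ⟨N', D', hD', hh⟩ := hh
  refine ⟨N * N', D * D', mul_ne_zero hD hD', ?_⟩
  filter_upwards [hg, hh] with P h1 h2
  simp only [eval_mul, ← h1, ← h2]; ring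

theorem neg (hg : RatMapsFn g) : RatMapsFn fun P => -g P :=
  ((const (-1)).mul hg).congr (Eventually.of_forall fun P => by ring)

theorem sub (hg : RatMapsFn g) (hh : RatMapsFn h) : RatMapsFn fun P => g P - h P :=
  (hg.add hh.neg).congr (Eventually.of_forall fun P => by ring)

theorem dich (hg : RatMapsFn g) :
    (∀ᶠ P in cofinite, g P = 0) ∨ ∀ᶠ P in cofinite, g P ≠ 0 := by
  obtain ⟨N, D, hD, hg⟩ := hg
  by_cases hN : N = 0
  · left
    filter_upwards [hg, ratMaps_ne hD] with P h1 h2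
    rw [hN, eval_zero] at h1
    exact (mul_eq_zero.1 h1).resolve_right h2
  · right
    filter_upwards [hg, ratMaps_ne hN] with P h1 h2 h3
    rw [h3, zero_mul] at h1
    exact h2 h1.symm

theorem inv (hg : RatMapsFn g) : RatMapsFn fun P => (g P)⁻¹ := by
  rcases hg.dich with h0 | h0
  · refine (const 0).congr ?_
    filter_upwards [h0] with P h1
    rw [h1, inv_zero]
  · obtain ⟨N, D, hD, hg⟩ := hg
    by_cases hN : N = 0
    · refine (const 0).congr ?_
      filter_upwards [hg, ratMaps_ne hD, h0] with P h1 h2 h3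
      rw [hN, eval_zero] at h1
      exact absurd h1 (mul_ne_zero h3 h2)
    · refine ⟨D, N, hN, ?_⟩
      filter_upwards [hg, h0] with P h1 h3
      rw [← h1, inv_mul_cancel_left₀ h3]

theorem div (hg : RatMapsFn g) (hh : RatMapsFn h) : RatMapsFn fun P => g P / h P :=
  (hg.mul hh.inv).congr (Eventually.of_forall fun _ => div_eq_mul_inv _ _)

end RatMapsFn

theorem ratMaps_of {α : Pt a b →+ Pt a b} {r s : Pt a b → K} (hr : RatMapsFn r)
    (hs : RatMapsFn s)
    (h : ∀ᶠ P in cofinite, α P ≠ 0 ∧ xc (α P) = r P ∧ yc (α P) = yc P * s P) : IsRat α := by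
  obtain ⟨N, D, hD, hr⟩ := hr
  obtain ⟨N', D', hD', hs⟩ := hs
  refine Or.inr ⟨N, D, N', D', hD, hD', eventually_cofinite.1 ?_⟩
  filter_upwards [hr, hs, h] with P h1 h2 h3
  refine ⟨h3.1, by rw [h3.2.1, h1], by rw [h3.2.2, mul_assoc, h2]⟩

theorem ratMaps_to {α : Pt a b →+ Pt a b} (h : IsRat α) : α = 0 ∨ ∃ r s : Pt a b → K,
    RatMapsFn r ∧ RatMapsFn s ∧
      ∀ᶠ P in cofinite, α P ≠ 0 ∧ xc (α P) = r P ∧ yc (α P) = yc P * s P := by
  rcases h with h | ⟨N, D, N', D', hD, hD', h⟩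
  · exact Or.inl h
  · refine Or.inr ⟨_, _, (RatMapsFn.poly N).div (.poly D), (RatMapsFn.poly N').div (.poly D'), ?_⟩
    filter_upwards [eventually_cofinite.2 h, ratMaps_ne hD, ratMaps_ne hD'] with P h1 h2 h3
    refine ⟨h1.1, eq_div_of_mul_eq h2 h1.2.1, ?_⟩
    rw [← mul_div_assoc]
    exact eq_div_of_mul_eq h3 h1.2.2

theorem isRat_add [IsSepClosed K] (h2 : (2 : K) ≠ 0) (hd : dsc a b ≠ 0) {α β : Pt a b →+ Pt a b}
    (hα : IsRat α) (hβ : IsRat β) : IsRat (α + β) := by
  rcases ratMaps_to hα with rfl | ⟨r1, s1, hr1, hs1, h1⟩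
  · rwa [zero_add]
  rcases ratMaps_to hβ with rfl | ⟨r2, s2, hr2, hs2, h3⟩
  · rwa [add_zero]
  have hz : (∀ᶠ P in cofinite, α P + β P = 0) → IsRat (α + β) := fun h =>
    Or.inl (eq_of_cofinite h2 hd _ _ (eventually_cofinite.1 h))
  have hf : RatMapsFn fun P : Pt a b => xc P ^ 3 + a * xc P + b :=
    (RatMapsFn.poly (X ^ 3 + C a * X + C b)).congr (Eventually.of_forall fun P => by simp)
  have key : ∀ l : Pt a b → K, RatMapsFn l → (∀ᶠ P in cofinite, α P + β P ≠ 0 ∧
      xc (α P + β P) = (yc P * l P) ^ 2 - r1 P - r2 P ∧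
      yc (α P + β P) = -(yc P * l P * (xc (α P + β P) - r1 P) + yc P * s1 P)) →
      IsRat (α + β) := by
    intro l hl h
    have hx := ((hf.mul (hl.mul hl)).sub hr1).sub hr2
    refine ratMaps_of hx (((hl.mul (hx.sub hr1)).add hs1).neg) ?_
    filter_upwards [h, ratMaps_ne_zero] with P h4 h5
    have h6 : xc (α P + β P) = (xc P ^ 3 + a * xc P + b) * (l P * l P) - r1 P - r2 P := by
      rw [h4.2.1, ← eqn h5]; ring
    refine ⟨h4.1, h6, ?_⟩
    rw [AddMonoidHom.add_apply, h4.2.2, h6]; ring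
  rcases (hr1.sub hr2).dich with hx | hx
  · rcases (hs1.sub hs2).dich with hy | hy
    · rcases hs1.dich with h0 | h0
      · apply hz
        filter_upwards [h1, h3, hx, hy, h0] with P p1 p2 p3 p4 p5
        have e : β P = α P := pt_ext p2.1 p1.1 (by rw [p2.2.1, p1.2.1]; linear_combination -p3)
          (by rw [p2.2.2, p1.2.2]; linear_combination -yc P * p4)
        rw [e, add_self_eq_zero_iff p1.1, p1.2.2, p5, mul_zero, mul_zero]
      · refine key _ ((((RatMapsFn.const 3).mul (hr1.mul hr1)).add (.const a)).div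
          ((RatMapsFn.const 2).mul (hf.mul hs1))) ?_
        filter_upwards [h1, h3, hx, hy, h0, ratMaps_y, ratMaps_ne_zero] with P p1 p2 p3 p4 p5 p6 p7
        have e : β P = α P := pt_ext p2.1 p1.1 (by rw [p2.2.1, p1.2.1]; linear_combination -p3)
          (by rw [p2.2.2, p1.2.2]; linear_combination -yc P * p4)
        have e2 : r2 P = r1 P := by linear_combination -p3
        have h4 := add_self_of_ne p1.1 (by
          rw [p1.2.2]; exact mul_ne_zero h2 (mul_ne_zero p6 p5))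
        have e3 : (3 * xc (α P) ^ 2 + a) / (2 * yc (α P))
            = yc P * ((3 * (r1 P * r1 P) + a) / (2 * ((xc P ^ 3 + a * xc P + b) * s1 P))) := by
          rw [p1.2.1, p1.2.2, ← eqn p7]
          field_simp
        rw [e3, p1.2.1, p1.2.2] at h4
        rw [e, e2]
        exact h4
    · apply hz
      filter_upwards [h1, h3, hx, hy, ratMaps_y] with P p1 p2 p3 p4 p6
      rcases eq_or_neg_of_xc p1.1 p2.1 (by rw [p2.2.1, p1.2.1]; linear_combination p3) with e | e
      · exfalso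
        apply mul_ne_zero p6 p4
        have := p1.2.2
        rw [e, p2.2.2] at this
        linear_combination -this
      · rw [e, neg_add_cancel]
  · refine key _ ((hs1.sub hs2).div (hr1.sub hr2)) ?_
    filter_upwards [h1, h3, hx] with P p1 p2 p3
    have h4 := add_of_xc_ne p1.1 p2.1 (by rw [p1.2.1, p2.2.1]; exact sub_ne_zero.1 p3)
    rw [p1.2.1, p1.2.2, p2.2.1, p2.2.2, ← mul_sub, mul_div_assoc] at h4
    exact h4

theorem isRat_zsmul [IsSepClosed K] (h2 : (2 : K) ≠ 0) (hd : dsc a b ≠ 0) {α : Pt a b →+ Pt a b}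
    (hα : IsRat α) (n : ℤ) : IsRat (n • α) := by
  induction n using Int.induction_on with
  | zero => exact Or.inl (zero_smul _ _)
  | succ n ih => rw [add_smul, one_smul]; exact isRat_add h2 hd ih hα
  | pred n ih => rw [sub_smul, one_smul, sub_eq_add_neg]; exact isRat_add h2 hd ih (isRat_neg hα)

theorem exists_xrep {α : Pt a b →+ Pt a b} (hα : IsRat α) : ∃ N D, XRep α N D := by
  classical
  rcases hα with rfl | ⟨N, D, N', D', hD, -, h⟩
  · exact ⟨1, 0, xrep_zero⟩
  obtain ⟨N0, D0, h1, h3, h4⟩ := extract_gcd N D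
  refine ⟨N0, D0, (gcd_isUnit_iff _ _).1 h4, eventually_cofinite.1 ?_⟩
  filter_upwards [eventually_cofinite.2 h, ratMaps_ne hD] with P p1 p2
  have e1 := congrArg (eval (xc P)) h1
  have e2 := congrArg (eval (xc P)) h3
  rw [eval_mul] at e1 e2
  rw [e2] at p2
  have p3 := left_ne_zero_of_mul p2
  have p4 := right_ne_zero_of_mul p2
  refine ⟨(D0.eval (xc P))⁻¹, inv_ne_zero p4, ?_, ?_⟩
  · rw [xp_of_ne p1.1, eq_inv_mul_iff_mul_eq₀ p4]
    apply mul_left_cancel₀ p3
    rw [← e1, ← p1.2.1, ← mul_assoc, ← e2, mul_comm]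
  · rw [zp_of_ne p1.1, inv_mul_cancel₀ p4]

end Pool.Agent.P.MP_a60a76_nt.Fs
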