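import Pool.Agent.P.MP_a60a76_nt.Fs.Defs
import Pool.Agent.P.MP_a60a76_nt.Fs.AS
import Pool.Agent.P.MP_a60a76_nt.Fs.RatMaps

namespace Pool.Agent.P.MP_a60a76_nt.Fs

open Polynomial
open scoped NNReal

variable {K : Type*} [Field K] {a b : K}

theorem paral_cop {R : Type*} [CommRing R] {N D N' D' : R} (h : IsCoprime N D)
    (h' : IsCoprime N' D') :
    ∃ p q r : R, p * (D * D') + q * (N * D' + N' * D) + r * (N * N') = 1 := by
  obtain ⟨u, v, e⟩ := h
  obtain ⟨u', v', e'⟩ := h'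
  refine ⟨v * v' * (u * u' * (N * N') + v * v' * (D * D') +
      2 * (u * v' * (N * D') + v * u' * (N' * D))),
    u ^ 2 * v' ^ 2 * (N * D') + v ^ 2 * u' ^ 2 * (N' * D),
    u * u' * (u * u' * (N * N') + v * v' * (D * D') +
      2 * (u * v' * (N * D') + v * u' * (N' * D))) +
      (2 * u * u' * v * v' - u ^ 2 * v' ^ 2 - v ^ 2 * u' ^ 2) * (D * D'), ?_⟩
  calc _ = ((u * N + v * D) * (u' * N' + v' * D')) ^ 2 := by ring
    _ = 1 := by rw [e, e']; ring

theorem paral_top {R : Type*} [CommRing R] (I : Ideal R) (a b : R) {N D N' D' : R}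
    (hu : IsUnit (16 * dsc a b)) (h : IsCoprime N D) (h' : IsCoprime N' D')
    (h0 : (N * D' - N' * D) ^ 2 ∈ I)
    (h1 : 2 * (N * D' + N' * D) * (N * N' + a * D * D') + 4 * b * D ^ 2 * D' ^ 2 ∈ I)
    (h2 : (N * N' - a * D * D') ^ 2 - 4 * b * D * D' * (N * D' + N' * D) ∈ I) : I = ⊤ := by
  obtain ⟨c1, c2, c3⟩ := as_cert I a b (N * N') (N * D' + N' * D) (D * D')
    (by convert h0 using 1; ring) (by convert h1 using 1; ring) (by convert h2 using 1; ring)
  obtain ⟨p, q, r, e⟩ := paral_cop h h'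
  rw [← Ideal.radical_eq_top, Ideal.eq_top_iff_one, ← e]
  have k : ∀ z : R, 16 * dsc a b * z ^ 4 ∈ I → z ∈ I.radical := fun z hz =>
    ⟨4, (Ideal.unit_mul_mem_iff_mem I hu).1 hz⟩
  exact add_mem (add_mem (Ideal.mul_mem_left _ _ (k _ c3)) (Ideal.mul_mem_left _ _ (k _ c2)))
    (Ideal.mul_mem_left _ _ (k _ c1))

theorem paral_unit (h2 : (2 : K) ≠ 0) (hd : dsc a b ≠ 0) : (16 * dsc a b : K) ≠ 0 := by
  refine mul_ne_zero ?_ hd
  rw [show (16 : K) = 2 ^ 4 by norm_num]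
  exact pow_ne_zero _ h2

theorem paral_rep [IsSepClosed K] (h2 : (2 : K) ≠ 0) (hd : dsc a b ≠ 0) {α : Pt a b →+ Pt a b}
    {N D N' D' : K[X]} (h : XRep α N D) (h' : XRep α N' D') :
    ∃ c : K, c ≠ 0 ∧ N' = C c * N ∧ D' = C c * D := by
  have e : N * D' - N' * D = 0 := by
    refine poly_eq_zero h2 hd ((h.2.union h'.2).subset fun P hP => ?_)
    by_contra hc
    simp only [Set.mem_union, Set.mem_ofPred_eq, not_or, not_not] at hc
    obtain ⟨⟨t, ht, e1, e2⟩, ⟨s, hs, e3, e4⟩⟩ := hc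
    apply hP
    simp only [eval_sub, eval_mul]
    refine mul_left_cancel₀ (mul_ne_zero ht hs) ?_
    linear_combination (-(s * eval (xc P) D')) * e1 + (t * eval (xc P) D) * e3 -
      xp (α P) * e4 + xp (α P) * e2
  obtain ⟨u, v, e1⟩ := h.1
  obtain ⟨u', v', e2⟩ := h'.1
  have k1 : N' = (u * N' + v * D') * N := by linear_combination (-N') * e1 - v * e
  have k2 : D' = (u * N' + v * D') * D := by linear_combination (-D') * e1 + u * e
  have hw : IsUnit (u * N' + v * D') := by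
    refine IsUnit.of_mul_eq_one (u' * N + v' * D) ?_
    linear_combination e2 - u' * k1 - v' * k2
  obtain ⟨c, hc, hc'⟩ := Polynomial.isUnit_iff.1 hw
  exact ⟨c, hc.ne_zero, by rw [hc']; exact k1, by rw [hc']; exact k2⟩

theorem dg_eq [IsSepClosed K] (h2 : (2 : K) ≠ 0) (hd : dsc a b ≠ 0) {α : Pt a b →+ Pt a b}
    {N D : K[X]} (h : XRep α N D) : dg α = max N.natDegree D.natDegree := by
  have e : {n | ∃ N D, XRep α N D ∧ n = max N.natDegree D.natDegree}
      = {max N.natDegree D.natDegree} := by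
    ext n
    constructor
    · rintro ⟨N', D', h', rfl⟩
      obtain ⟨c, hc, rfl, rfl⟩ := paral_rep h2 hd h h'
      rw [natDegree_C_mul hc, natDegree_C_mul hc]
      rfl
    · rintro rfl
      exact ⟨N, D, h, rfl⟩
  rw [dg, e, csInf_singleton]

theorem as_poly [IsSepClosed K] (h2 : (2 : K) ≠ 0) (hd : dsc a b ≠ 0) {α β : Pt a b →+ Pt a b}
    {N1 D1 N2 D2 N3 D3 N4 D4 : K[X]} (h1 : XRep α N1 D1) (h2' : XRep β N2 D2)
    (h3 : XRep (α + β) N3 D3) (h4 : XRep (α - β) N4 D4) :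
    ∃ t : K, t ≠ 0 ∧ (N1 * D2 - N2 * D1) ^ 2 = C t * (D3 * D4) ∧
      2 * (N1 * D2 + N2 * D1) * (N1 * N2 + C a * D1 * D2) + 4 * C b * D1 ^ 2 * D2 ^ 2 =
        C t * (N3 * D4 + N4 * D3) ∧
      (N1 * N2 - C a * D1 * D2) ^ 2 - 4 * C b * D1 * D2 * (N1 * D2 + N2 * D1) =
        C t * (N3 * N4) := by
  have htop := fun I => paral_top I (C a) (C b) (N := N1) (D := D1) (N' := N2) (D' := D2)
    (by
      have e : (16 * dsc (C a) (C b) : K[X]) = C (16 * dsc a b) := by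
        simp only [dsc, map_mul, map_add, map_pow, map_ofNat]
      rw [e]
      exact isUnit_C.2 (paral_unit h2 hd).isUnit) h1.1 h2'.1
  generalize hs0 : (N1 * D2 - N2 * D1) ^ 2 = s0 at htop ⊢
  generalize hs1 : 2 * (N1 * D2 + N2 * D1) * (N1 * N2 + C a * D1 * D2) +
    4 * C b * D1 ^ 2 * D2 ^ 2 = s1 at htop ⊢
  generalize hs2 : (N1 * N2 - C a * D1 * D2) ^ 2 - 4 * C b * D1 * D2 * (N1 * D2 + N2 * D1) = s2
    at htop ⊢
  obtain ⟨p, q, r, e⟩ := paral_cop h3.1 h4.1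
  obtain ⟨E, hfin, H⟩ : ∃ E : Set (Pt a b), E.Finite ∧ ∀ P, P ∉ E → ∃ l : K,
      s0.eval (xc P) = l * (D3 * D4).eval (xc P) ∧
      s1.eval (xc P) = l * (N3 * D4 + N4 * D3).eval (xc P) ∧
      s2.eval (xc P) = l * (N3 * N4).eval (xc P) := by
    refine ⟨_, ((h1.2.union h2'.2).union h3.2).union h4.2, fun P hP => ?_⟩
    simp only [Set.mem_union, Set.mem_ofPred_eq, not_or, not_not] at hP
    obtain ⟨⟨⟨⟨t1, ht1, a1, b1⟩, ⟨t2, ht2, a2, b2⟩⟩, ⟨t3, -, a3, b3⟩⟩, ⟨t4, -, a4, b4⟩⟩ := hP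
    obtain ⟨t, -, r0, r1, r2⟩ := as_rel h2 (α P) (β P)
    rw [AddMonoidHom.add_apply] at a3 b3
    rw [AddMonoidHom.sub_apply] at a4 b4
    rw [a1, a2, b1, b2, b3, b4] at r0
    rw [a1, a2, b1, b2, a3, a4, b3, b4] at r1
    rw [a1, a2, b1, b2, a3, a4] at r2
    refine ⟨t * t3 * t4 / (t1 * t2) ^ 2, ?_, ?_, ?_⟩
    · rw [← hs0]
      simp only [eval_sub, eval_mul, eval_pow]
      field_simp
      linear_combination r0
    · rw [← hs1]
      simp only [eval_add, eval_mul, eval_pow, eval_C, eval_ofNat]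
      field_simp
      linear_combination r1
    · rw [← hs2]
      simp only [eval_sub, eval_add, eval_mul, eval_pow, eval_C, eval_ofNat]
      field_simp
      linear_combination r2
  generalize D3 * D4 = u0 at e H ⊢
  generalize N3 * D4 + N4 * D3 = u1 at e H ⊢
  generalize N3 * N4 = u2 at e H ⊢
  have key : ∀ s u : K[X], (∀ P : Pt a b, P ∉ E → ∀ l : K,
      s0.eval (xc P) = l * u0.eval (xc P) → s1.eval (xc P) = l * u1.eval (xc P) →
      s2.eval (xc P) = l * u2.eval (xc P) → s.eval (xc P) = l * u.eval (xc P)) →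
      s = (p * s0 + q * s1 + r * s2) * u := by
    intro s u hs
    refine sub_eq_zero.1 (poly_eq_zero h2 hd (hfin.subset fun P hP => ?_))
    by_contra hc
    obtain ⟨l, l0, l1, l2⟩ := H P hc
    have l3 := hs P hc l l0 l1 l2
    have e' := congrArg (eval (xc P)) e
    apply hP
    simp only [eval_sub, eval_add, eval_mul, eval_one] at e' ⊢
    rw [l3, l0, l1, l2]
    linear_combination (-(l * eval (xc P) u)) * e'
  have k0 := key s0 u0 fun _ _ _ h _ _ => h
  have k1 := key s1 u1 fun _ _ _ _ h _ => h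
  have k2 := key s2 u2 fun _ _ _ _ _ h => h
  generalize p * s0 + q * s1 + r * s2 = w at k0 k1 k2
  have hw : IsUnit w := Ideal.span_singleton_eq_top.1 (htop (Ideal.span {w})
    (Ideal.mem_span_singleton.2 ⟨_, k0⟩) (Ideal.mem_span_singleton.2 ⟨_, k1⟩)
    (Ideal.mem_span_singleton.2 ⟨_, k2⟩))
  obtain ⟨c, hc, rfl⟩ := Polynomial.isUnit_iff.1 hw
  exact ⟨c, hc.ne_zero, k0, k1, k2⟩

/-- degree at most `n` and coefficient `c` in degree `n` -/
def paralT (f : K[X]) (n : ℕ) (c : K) : Prop := f.natDegree ≤ n ∧ f.coeff n = c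

theorem paralT.mul {f g : K[X]} {n m : ℕ} {c d : K} (h : paralT f n c) (h' : paralT g m d) :
    paralT (f * g) (n + m) (c * d) :=
  ⟨natDegree_mul_le.trans (add_le_add h.1 h'.1),
    by rw [coeff_mul_add_eq_of_natDegree_le h.1 h'.1, h.2, h'.2]⟩

theorem paralT.add {f g : K[X]} {n : ℕ} {c d : K} (h : paralT f n c) (h' : paralT g n d) :
    paralT (f + g) n (c + d) :=
  ⟨(natDegree_add_le _ _).trans (max_le h.1 h'.1), by rw [coeff_add, h.2, h'.2]⟩

theorem paralT.cmul {f : K[X]} {n : ℕ} {c : K} (d : K) (h : paralT f n c) :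
    paralT (C d * f) n (d * c) :=
  ⟨(natDegree_C_mul_le _ _).trans h.1, by rw [coeff_C_mul, h.2]⟩

theorem paralT.cast {f g : K[X]} {n : ℕ} {c d : K} (h : paralT f n c) (e : f = g) (e' : c = d) :
    paralT g n d := e ▸ e' ▸ h

theorem paralT.le {f : K[X]} {n m : ℕ} {c d : K} (h : paralT f n c) (h' : paralT f m d)
    (hc : c ≠ 0) : n ≤ m :=
  (le_natDegree_of_ne_zero (by rw [h.2]; exact hc)).trans h'.1

theorem paral_pair {N D : K[X]} (h : IsCoprime N D) :
    ∃ c d : K, IsCoprime c d ∧ paralT N (max N.natDegree D.natDegree) c ∧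
      paralT D (max N.natDegree D.natDegree) d := by
  refine ⟨_, _, ?_, ⟨le_max_left _ _, rfl⟩, ⟨le_max_right _ _, rfl⟩⟩
  rw [Semifield.isCoprime_iff]
  by_contra hc
  push Not at hc
  obtain ⟨h1, h2⟩ := hc
  have hN : ∀ {f g : K[X]}, g.natDegree ≤ f.natDegree → f.coeff f.natDegree = 0 →
      g.coeff f.natDegree = 0 → f = 0 ∧ g = 0 := by
    intro f g hle e1 e2
    have hf : f = 0 := leadingCoeff_eq_zero.1 e1
    subst hf
    rw [natDegree_zero] at hle e2
    refine ⟨rfl, leadingCoeff_eq_zero.1 ?_⟩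
    rw [leadingCoeff, Nat.le_zero.1 hle, e2]
  rcases le_total D.natDegree N.natDegree with hle | hle
  · rw [max_eq_left hle] at h1 h2
    obtain ⟨rfl, rfl⟩ := hN hle h1 h2
    exact not_isCoprime_zero_zero h
  · rw [max_eq_right hle] at h1 h2
    obtain ⟨rfl, rfl⟩ := hN hle h2 h1
    exact not_isCoprime_zero_zero h

theorem paral [IsSepClosed K] (h2 : (2 : K) ≠ 0) (hd : dsc a b ≠ 0) {α β : Pt a b →+ Pt a b}
    (hα : IsRat α) (hβ : IsRat β) : dg (α + β) + dg (α - β) = 2 * dg α + 2 * dg β := by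
  obtain ⟨N1, D1, h1⟩ := exists_xrep hα
  obtain ⟨N2, D2, h2'⟩ := exists_xrep hβ
  obtain ⟨N3, D3, h3⟩ := exists_xrep (isRat_add h2 hd hα hβ)
  obtain ⟨N4, D4, h4⟩ := exists_xrep (isRat_add h2 hd hα (isRat_neg hβ))
  rw [← sub_eq_add_neg] at h4
  obtain ⟨t, ht, e0, e1, e2⟩ := as_poly h2 hd h1 h2' h3 h4
  rw [dg_eq h2 hd h1, dg_eq h2 hd h2', dg_eq h2 hd h3, dg_eq h2 hd h4]
  obtain ⟨x1, z1, c1, p1, q1⟩ := paral_pair h1.1
  obtain ⟨x2, z2, c2, p2, q2⟩ := paral_pair h2'.1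
  obtain ⟨x3, z3, c3, p3, q3⟩ := paral_pair h3.1
  obtain ⟨x4, z4, c4, p4, q4⟩ := paral_pair h4.1
  generalize max N1.natDegree D1.natDegree = n1 at *
  generalize max N2.natDegree D2.natDegree = n2 at *
  generalize max N3.natDegree D3.natDegree = n3 at *
  generalize max N4.natDegree D4.natDegree = n4 at *
  have hS := p1.mul p2
  have hU := q1.mul q2
  have hA := p1.mul q2
  have hB := q1.mul p2
  have hT := hA.add hB
  have hM := hA.add (hB.cmul (-1))
  have s0 := (hM.mul hM).cast (g := C t * (D3 * D4)) (d := (x1 * z2 - x2 * z1) ^ 2)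
    (by rw [← e0, map_neg, map_one]; ring) (by ring)
  have s1 := (((hT.mul (hS.add (hU.cmul a))).cmul 2).add ((hU.mul hU).cmul (4 * b))).cast
    (g := C t * (N3 * D4 + N4 * D3))
    (d := 2 * (x1 * z2 + x2 * z1) * (x1 * x2 + a * z1 * z2) + 4 * b * z1 ^ 2 * z2 ^ 2)
    (by rw [← e1, map_mul, map_ofNat, map_ofNat]; ring) (by ring)
  have hV := hS.add (hU.cmul (-a))
  have s2 := ((hV.mul hV).add ((hU.mul hT).cmul (-(4 * b)))).cast (g := C t * (N3 * N4))
    (d := (x1 * x2 - a * z1 * z2) ^ 2 - 4 * b * z1 * z2 * (x1 * z2 + x2 * z1))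
    (by rw [← e2, map_neg, map_neg, map_mul, map_ofNat]; ring) (by ring)
  have u0 := (q3.mul q4).cmul t
  have u1 := (((p3.mul q4).add (q3.mul p4)).cmul t).cast (g := C t * (N3 * D4 + N4 * D3))
    (d := t * (x3 * z4 + x4 * z3)) (by ring) (by ring)
  have u2 := (p3.mul p4).cmul t
  have l1 : n3 + n4 ≤ n1 + n2 + (n1 + n2) := by
    by_contra hc
    have k0 : t * (z3 * z4) = 0 := by_contra fun h => hc (u0.le s0 h)
    have k1 : t * (x3 * z4 + x4 * z3) = 0 := by_contra fun h => hc (u1.le s1 h)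
    have k2 : t * (x3 * x4) = 0 := by_contra fun h => hc (u2.le s2 h)
    obtain ⟨p, q, r, e⟩ := paral_cop c3 c4
    apply ht
    linear_combination (-t) * e + p * k0 + q * k1 + r * k2
  have l2 : n1 + n2 + (n1 + n2) ≤ n3 + n4 := by
    by_contra hc
    have := paral_top (⊥ : Ideal K) a b (paral_unit h2 hd).isUnit c1 c2
      (by_contra fun h => hc (s0.le u0 h)) (by_contra fun h => hc (s1.le u1 h))
      (by_contra fun h => hc (s2.le u2 h))
    exact bot_ne_top this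
  omega

end Pool.Agent.P.MP_a60a76_nt.Fs
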