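import Pool.Agent.P.MP_a60a76_nt.Fs.Defs
import Pool.Agent.P.MP_a60a76_nt.Fs.Paral

namespace Pool.Agent.P.MP_a60a76_nt.Fs

open Polynomial
open scoped NNReal

variable {K : Type*} [Field K] {a b : K}

theorem kernel_infinite_pt [IsSepClosed K] (h2 : (2 : K) ≠ 0) (hd : dsc a b ≠ 0) :
    (Set.univ : Set (Pt a b)).Infinite := fun h =>
  one_ne_zero (poly_eq_zero h2 hd (f := 1) (h.subset (Set.subset_univ _)))

theorem kernel_infinite_field [IsSepClosed K] (h2 : (2 : K) ≠ 0) (hd : dsc a b ≠ 0) :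
    (Set.univ : Set K).Infinite := fun h =>
  kernel_infinite_pt h2 hd (Set.Finite.of_finite_fibers xc (h.subset (Set.subset_univ _))
    fun x _ => (finite_fibre x).subset fun _ hP => hP.2)

/-- the exceptional set of a representation -/
def kernelE (α : Pt a b →+ Pt a b) (N D : K[X]) : Set (Pt a b) :=
  {P : Pt a b | ¬ ∃ t : K, t ≠ 0 ∧ xp (α P) = t * N.eval (xc P) ∧ zp (α P) = t * D.eval (xc P)}

theorem kernel_ne_iff {α : Pt a b →+ Pt a b} {N D : K[X]} {P : Pt a b} (hP : P ∉ kernelE α N D) :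
    α P ≠ 0 ↔ D.eval (xc P) ≠ 0 := by
  obtain ⟨t, ht, -, h2⟩ := not_not.1 hP
  constructor
  · intro h h'
    rw [zp_of_ne h, h', mul_zero] at h2
    exact one_ne_zero h2
  · intro h h'
    rw [h', zp_zero] at h2
    exact mul_ne_zero ht h h2.symm

theorem kernel_xc {α : Pt a b →+ Pt a b} {N D : K[X]} {P : Pt a b} (hP : P ∉ kernelE α N D)
    (h : α P ≠ 0) : N.eval (xc P) = xc (α P) * D.eval (xc P) := by
  obtain ⟨t, -, h1, h2⟩ := not_not.1 hP
  rw [xp_of_ne h] at h1
  rw [zp_of_ne h] at h2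
  rw [h1]
  linear_combination N.eval (xc P) * h2

theorem kernel_zero [IsSepClosed K] (h2 : (2 : K) ≠ 0) (hd : dsc a b ≠ 0)
    {α : Pt a b →+ Pt a b} {N : K[X]} (h : XRep α N 0) : α = 0 := by
  refine eq_of_cofinite h2 hd α 0 (Set.Finite.subset h.2 fun P hP => ?_)
  by_contra hc
  exact (kernel_ne_iff (N := N) (D := 0) hc).1 hP (by simp)

theorem kernel_fin {α : Pt a b →+ Pt a b} {N D : K[X]} (h : XRep α N D) (hD : D ≠ 0) :
    {P | α P = 0}.Finite := by
  refine (Set.Finite.union h.2 (finite_roots hD)).subset fun P hP => ?_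
  by_cases hE : P ∈ kernelE α N D
  · exact Or.inl hE
  · refine Or.inr ?_
    by_contra hc
    exact (kernel_ne_iff hE).2 hc hP

theorem kernel_range [IsSepClosed K] (h2 : (2 : K) ≠ 0) (hd : dsc a b ≠ 0)
    {α : Pt a b →+ Pt a b} {N D : K[X]} (h : XRep α N D) (hD : D ≠ 0) :
    (Set.range α).Infinite := by
  intro hf
  refine kernel_infinite_pt h2 hd (Set.Finite.of_finite_fibers α (by rwa [Set.image_univ]) ?_)
  rintro _ ⟨P₀, -, rfl⟩
  refine ((kernel_fin h hD).image fun P => P + P₀).subset fun P hP => ⟨P - P₀, ?_, by simp⟩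
  have h1 : α P = α P₀ := hP.2
  simp [h1]

theorem kernel_nonconst [IsSepClosed K] (h2 : (2 : K) ≠ 0) (hd : dsc a b ≠ 0)
    {α : Pt a b →+ Pt a b} {N D : K[X]} (h : XRep α N D) (hD : D ≠ 0) (c : K) :
    N - C c * D ≠ 0 := by
  intro hc
  refine kernel_range h2 hd h hD ?_
  refine (((Set.Finite.image α h.2).union (finite_fibre c)).union
    (Set.finite_singleton 0)).subset ?_
  rintro _ ⟨P, rfl⟩
  by_cases hE : P ∈ kernelE α N D
  · exact Or.inl (Or.inl ⟨P, hE, rfl⟩)
  by_cases h0 : α P = 0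
  · exact Or.inr h0
  refine Or.inl (Or.inr ?_)
  have h1 := kernel_xc hE h0
  have h3 := congrArg (eval (xc P)) hc
  simp only [eval_sub, eval_mul, eval_C, eval_zero] at h3
  exact mul_right_cancel₀ ((kernel_ne_iff hE).1 h0) (by linear_combination h3 - h1)

theorem kernel_two (h2 : (2 : K) ≠ 0) : {Q : Pt a b | Q + Q = 0}.Finite := by
  have hf : (X ^ 3 + C a * X + C b : K[X]) ≠ 0 := by
    have : (X ^ 3 + C a * X + C b : K[X]).Monic := by monicity!
    exact this.ne_zero
  refine ((finite_roots hf).union (Set.finite_singleton 0)).subset fun Q hQ => ?_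
  by_cases h0 : Q = 0
  · exact Or.inr h0
  refine Or.inl ?_
  have h1 : yc Q = 0 := (mul_eq_zero.1 ((add_self_eq_zero_iff h0).1 hQ)).resolve_left h2
  have h3 := eqn h0
  rw [h1] at h3
  simp only [Set.mem_ofPred_eq, eval_add, eval_pow, eval_X, eval_mul, eval_C]
  linear_combination -h3

theorem kernel_deg_le (N D : K[X]) (c : K) :
    (N - C c * D).natDegree ≤ max N.natDegree D.natDegree :=
  (natDegree_sub_le _ _).trans (max_le_max le_rfl (natDegree_C_mul_le _ _))

theorem kernel_le [IsSepClosed K] (h2 : (2 : K) ≠ 0) (hd : dsc a b ≠ 0)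
    {α : Pt a b →+ Pt a b} {N D : K[X]} (h : XRep α N D) (hD : D ≠ 0) :
    Finite α.ker ∧ Nat.card α.ker ≤ max N.natDegree D.natDegree := by
  classical
  refine ⟨(kernel_fin h hD).to_subtype, ?_⟩
  obtain ⟨_, ⟨P₀, rfl⟩, hQ⟩ := (kernel_range h2 hd h hD).exists_notMem_finite
    ((Set.Finite.image α h.2).union (kernel_two h2))
  have hQ2 : α P₀ + α P₀ ≠ 0 := fun e => hQ (Or.inr e)
  have hQ0 : α P₀ ≠ 0 := fun e => hQ2 (by rw [e, add_zero])
  have hf := kernel_nonconst h2 hd h hD (xc (α P₀))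
  have hα : ∀ P : α.ker, α (P.1 + P₀) = α P₀ := fun P => by
    rw [map_add, AddMonoidHom.mem_ker.1 P.2, zero_add]
  have hne : ∀ P : α.ker, P.1 + P₀ ≠ 0 := fun P e => hQ0 (by rw [← hα P, e, map_zero])
  have hmem : ∀ P : α.ker, xc (P.1 + P₀) ∈ (N - C (xc (α P₀)) * D).roots.toFinset := fun P => by
    have hE : P.1 + P₀ ∉ kernelE α N D := fun e => hQ (Or.inl ⟨_, e, hα P⟩)
    have h1 := kernel_xc hE (by rw [hα P]; exact hQ0)
    rw [hα P] at h1
    rw [Multiset.mem_toFinset, mem_roots hf, IsRoot.def]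
    simp only [eval_sub, eval_mul, eval_C]
    linear_combination h1
  have hinj : Function.Injective fun P : α.ker =>
      (⟨xc (P.1 + P₀), hmem P⟩ : (N - C (xc (α P₀)) * D).roots.toFinset) := by
    intro P P' e
    rcases eq_or_neg_of_xc (hne P) (hne P') (congrArg Subtype.val e) with h1 | h1
    · exact Subtype.ext (add_right_cancel h1)
    · have h3 := congrArg α h1
      rw [map_neg, hα, hα] at h3
      exact absurd (add_eq_zero_iff_eq_neg.2 h3) hQ2
  refine (Nat.card_le_card_of_injective _ hinj).trans ?_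
  rw [Nat.card_eq_fintype_card, Fintype.card_coe]
  exact ((Multiset.toFinset_card_le _).trans (card_roots' _)).trans (kernel_deg_le N D _)

theorem eq_zero_of_dg [IsSepClosed K] (h2 : (2 : K) ≠ 0) (hd : dsc a b ≠ 0)
    {α : Pt a b →+ Pt a b} (hα : IsRat α) (h : dg α = 0) : α = 0 := by
  obtain ⟨N, D, hx⟩ := exists_xrep hα
  by_cases hD : D = 0
  · subst hD
    exact kernel_zero h2 hd hx
  · obtain ⟨h3, h4⟩ := kernel_le h2 hd hx hD
    rw [← dg_eq h2 hd hx, h] at h4
    have := Nat.card_pos (α := α.ker)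
    omega

theorem card_ker_le [IsSepClosed K] (h2 : (2 : K) ≠ 0) (hd : dsc a b ≠ 0)
    {α : Pt a b →+ Pt a b} (hα : IsRat α) (h0 : α ≠ 0) :
    Finite α.ker ∧ Nat.card α.ker ≤ dg α := by
  obtain ⟨N, D, hx⟩ := exists_xrep hα
  have hD : D ≠ 0 := by
    rintro rfl
    exact h0 (kernel_zero h2 hd hx)
  rw [dg_eq h2 hd hx]
  exact kernel_le h2 hd hx hD

theorem kernel_deg_eq {N D : K[X]} (hD : D ≠ 0) {c : K}
    (hc : c ≠ N.coeff (max N.natDegree D.natDegree) / D.coeff (max N.natDegree D.natDegree)) :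
    (N - C c * D).natDegree = max N.natDegree D.natDegree := by
  refine le_antisymm (kernel_deg_le N D c) (le_natDegree_of_ne_zero ?_)
  rw [coeff_sub, coeff_C_mul]
  by_cases h : N.natDegree ≤ D.natDegree
  · rw [max_eq_right h] at hc ⊢
    have h1 : D.coeff D.natDegree ≠ 0 := leadingCoeff_ne_zero.2 hD
    intro e
    exact hc (by rw [eq_div_iff h1]; linear_combination -e)
  · push Not at h
    rw [max_eq_left h.le, coeff_eq_zero_of_natDegree_lt h, mul_zero, sub_zero]
    refine leadingCoeff_ne_zero.2 ?_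
    rintro rfl
    simp at h

theorem kernel_sep {N D : K[X]} (hc : IsCoprime N D) (hw : wronskian N D ≠ 0) :
    {c : K | ¬ (N - C c * D).Separable}.Finite := by
  have hf : ((fun r => aeval r N / aeval r D) ''
      (wronskian N D).rootSet (AlgebraicClosure K)).Finite := (rootSet_finite _ _).image _
  refine (hf.preimage (algebraMap K (AlgebraicClosure K)).injective.injOn).subset fun c h => ?_
  simp only [Set.mem_ofPred_eq, separable_def,
    isCoprime_iff_aeval_ne_zero_of_isAlgClosed K (AlgebraicClosure K)] at h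
  push Not at h
  obtain ⟨r, h1, h2⟩ := h
  simp only [derivative_mul, derivative_C, zero_mul, zero_add, map_sub, map_mul,
    aeval_C] at h1 h2
  have hD : aeval r D ≠ 0 := by
    intro e
    rcases (isCoprime_iff_aeval_ne_zero_of_isAlgClosed K (AlgebraicClosure K) N D).1 hc r with
      h3 | h3
    · rw [e, mul_zero, sub_zero] at h1
      exact h3 h1
    · exact h3 e
  refine ⟨r, ?_, ?_⟩
  · rw [mem_rootSet_of_ne hw, wronskian]
    simp only [map_sub, map_mul]
    linear_combination aeval r (derivative D) * h1 - aeval r D * h2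
  · simp only
    rw [div_eq_iff hD]
    linear_combination h1

theorem card_ker_eq [IsSepClosed K] (h2 : (2 : K) ≠ 0) (hd : dsc a b ≠ 0)
    {α : Pt a b →+ Pt a b} {N D : K[X]} (h : XRep α N D) (hw : wronskian N D ≠ 0) :
    Nat.card α.ker = dg α := by
  classical
  have hD : D ≠ 0 := by
    rintro rfl
    exact hw (wronskian_zero_right N)
  obtain ⟨hfin, hle⟩ := kernel_le h2 hd h hD
  rw [dg_eq h2 hd h]
  refine le_antisymm hle ?_
  obtain ⟨c, -, hc⟩ := (kernel_infinite_field h2 hd).exists_notMem_finite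
    (((kernel_sep h.1 hw).union (Set.Finite.image
      (fun P : Pt a b => N.eval (xc P) / D.eval (xc P)) h.2)).union (Set.finite_singleton
      (N.coeff (max N.natDegree D.natDegree) / D.coeff (max N.natDegree D.natDegree))))
  have hsep : (N - C c * D).Separable := by
    by_contra e
    exact hc (Or.inl (Or.inl e))
  have hdeg := kernel_deg_eq (N := N) hD (c := c) fun e => hc (Or.inr e)
  have hf := kernel_nonconst h2 hd h hD c
  obtain ⟨Q, hQ, hQc⟩ := exists_pt h2 hd c
  have key : ∀ r : (N - C c * D).roots.toFinset, ∃ P : Pt a b, xc P = r.1 ∧ α P = Q := by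
    intro r
    have hr := r.2
    rw [Multiset.mem_toFinset, mem_roots hf, IsRoot.def] at hr
    simp only [eval_sub, eval_mul, eval_C] at hr
    have hDr : D.eval r.1 ≠ 0 := by
      intro e
      rw [e, mul_zero, sub_zero] at hr
      obtain ⟨u, v, huv⟩ := h.1
      have h3 := congrArg (eval r.1) huv
      simp [hr, e] at h3
    obtain ⟨P, -, hP⟩ := exists_pt h2 hd r.1
    have hE : P ∉ kernelE α N D := fun e => hc (Or.inl (Or.inr ⟨P, e, by
      simp only
      rw [hP, div_eq_iff hDr]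
      linear_combination hr⟩))
    have h0 : α P ≠ 0 := (kernel_ne_iff hE).2 (by rwa [hP])
    have h1 := kernel_xc hE h0
    rw [hP] at h1
    have h3 : xc (α P) = xc Q := by
      rw [hQc]
      exact mul_right_cancel₀ hDr (by linear_combination hr - h1)
    rcases eq_or_neg_of_xc h0 hQ h3 with h4 | h4
    · exact ⟨P, hP, h4⟩
    · exact ⟨-P, by rw [xc_neg, hP], by rw [map_neg, h4, neg_neg]⟩
  choose g hg hg' using key
  have hcard : Nat.card (N - C c * D).roots.toFinset = max N.natDegree D.natDegree := by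
    rw [Nat.card_eq_fintype_card, Fintype.card_coe, Multiset.toFinset_card_of_nodup
      (nodup_roots hsep), ← hdeg,
      (IsSepClosed.splits_of_separable _ hsep).natDegree_eq_card_roots]
  rw [← hcard]
  rcases isEmpty_or_nonempty (N - C c * D).roots.toFinset with h0 | ⟨⟨r₀⟩⟩
  · rw [Nat.card_of_isEmpty]
    exact Nat.zero_le _
  refine Nat.card_le_card_of_injective (fun r => (⟨g r - g r₀, ?_⟩ : α.ker)) fun r r' e => ?_
  · rw [AddMonoidHom.mem_ker, map_sub, hg', hg', sub_self]
  · have h1 : g r = g r' := sub_left_injective (congrArg Subtype.val e)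
    exact Subtype.ext (by rw [← hg r, ← hg r', h1])

end Pool.Agent.P.MP_a60a76_nt.Fs
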