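import Pool.Agent.P.MP_a60a76_nt.Fs.Defs
import Pool.Agent.P.MP_a60a76_nt.Fs.Kernel

namespace Pool.Agent.P.MP_a60a76_nt.Fs

open Polynomial
open scoped NNReal

variable {K : Type*} [Field K] {a b : K}

/-- the form of degree `n` attached to a polynomial -/
noncomputable def compH {A : Type*} [CommRing A] [Algebra K A] (n : ℕ) (f : K[X]) (m e : A) : A :=
  ∑ i ∈ Finset.range (n + 1), algebraMap K A (f.coeff i) * (m ^ i * e ^ (n - i))

theorem compH_map {A B : Type*} [CommRing A] [Algebra K A] [CommRing B] [Algebra K B]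
    (ψ : A →ₐ[K] B) (n : ℕ) (f : K[X]) (m e : A) :
    ψ (compH n f m e) = compH n f (ψ m) (ψ e) := by
  simp [compH]

theorem compH_eq {A : Type*} [CommRing A] [Algebra K A] {n : ℕ} {f : K[X]} (hf : f.natDegree ≤ n)
    {x m e : A} (h : x * e = m) : compH n f m e = aeval x f * e ^ n := by
  rw [aeval_eq_sum_range' (Nat.lt_succ_of_le hf), Finset.sum_mul, compH]
  refine Finset.sum_congr rfl fun i hi => ?_
  have hi' : i ≤ n := Nat.lt_succ_iff.1 (Finset.mem_range.1 hi)
  rw [← h, Algebra.smul_def, mul_pow, mul_assoc, mul_assoc, ← pow_add, Nat.add_sub_cancel' hi']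

theorem compH_zero {A : Type*} [CommRing A] [Algebra K A] (n : ℕ) (f : K[X]) (m : A) :
    compH n f m 0 = algebraMap K A (f.coeff n) * m ^ n := by
  rw [compH, Finset.sum_range_succ, Finset.sum_eq_zero, zero_add, Nat.sub_self, pow_zero, mul_one]
  intro i hi
  rw [zero_pow (Nat.sub_ne_zero_of_lt (Finset.mem_range.1 hi)), mul_zero, mul_zero]

theorem compH_eval {n : ℕ} {f M E : K[X]} (hf : f.natDegree ≤ n) {x x' : K}
    (h : x' * E.eval x = M.eval x) : (compH n f M E).eval x = f.eval x' * E.eval x ^ n := by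
  have := compH_map (aeval x : K[X] →ₐ[K] K) n f M E
  simp only [coe_aeval_eq_eval] at this
  rw [this, compH_eq hf h, coe_aeval_eq_eval]

theorem comp_top {N D : K[X]} (h : IsCoprime N D) :
    N.coeff (max N.natDegree D.natDegree) ≠ 0 ∨ D.coeff (max N.natDegree D.natDegree) ≠ 0 := by
  by_cases hN : N = 0
  · have hD : D ≠ 0 := by
      rintro rfl
      exact not_isCoprime_zero_zero (hN ▸ h)
    right
    rw [hN, natDegree_zero, Nat.zero_max]
    exact leadingCoeff_ne_zero.2 hD
  by_cases hD : D = 0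
  · left
    rw [hD, natDegree_zero, Nat.max_zero]
    exact leadingCoeff_ne_zero.2 hN
  rcases le_total N.natDegree D.natDegree with h | h
  · right; rw [max_eq_right h]; exact leadingCoeff_ne_zero.2 hD
  · left; rw [max_eq_left h]; exact leadingCoeff_ne_zero.2 hN

theorem compH_ne {L : Type*} [Field L] [Algebra K L] {N D : K[X]} (h : IsCoprime N D) {m e : L}
    (hme : m ≠ 0 ∨ e ≠ 0) : compH (max N.natDegree D.natDegree) N m e ≠ 0 ∨
      compH (max N.natDegree D.natDegree) D m e ≠ 0 := by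
  by_cases he : e = 0
  · have hm : m ≠ 0 := hme.resolve_right (not_not.2 he)
    rw [he, compH_zero, compH_zero]
    exact (comp_top h).imp
      (fun h => mul_ne_zero ((_root_.map_ne_zero _).2 h) (pow_ne_zero _ hm))
      fun h => mul_ne_zero ((_root_.map_ne_zero _).2 h) (pow_ne_zero _ hm)
  · have hx : m / e * e = m := div_mul_cancel₀ m he
    rw [compH_eq (le_max_left _ _) hx, compH_eq (le_max_right _ _) hx]
    exact (aeval_ne_zero_of_isCoprime h (m / e)).imp
      (fun h => mul_ne_zero h (pow_ne_zero _ he)) fun h => mul_ne_zero h (pow_ne_zero _ he)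

theorem compH_coprime {N D M E : K[X]} (h : IsCoprime N D) (h' : IsCoprime M E) :
    IsCoprime (compH (max N.natDegree D.natDegree) N M E)
      (compH (max N.natDegree D.natDegree) D M E) := by
  refine (isCoprime_iff_aeval_ne_zero_of_isAlgClosed K (AlgebraicClosure K) _ _).2 fun z => ?_
  rw [compH_map, compH_map]
  exact compH_ne h (aeval_ne_zero_of_isCoprime h' z)

theorem compH_deg (n : ℕ) (f : K[X]) {M E : K[X]} {k : ℕ} (hM : M.natDegree ≤ k)
    (hE : E.natDegree ≤ k) : (compH n f M E).natDegree ≤ n * k ∧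
      (compH n f M E).coeff (n * k) = compH n f (M.coeff k) (E.coeff k) := by
  have e : ∀ i ∈ Finset.range (n + 1), n * k = i * k + (n - i) * k := fun i hi => by
    rw [← add_mul, Nat.add_sub_cancel' (Nat.lt_succ_iff.1 (Finset.mem_range.1 hi))]
  constructor
  · refine natDegree_sum_le_of_forall_le _ _ fun i hi => ?_
    rw [algebraMap_eq, e i hi]
    exact (natDegree_C_mul_le _ _).trans (natDegree_mul_le_of_le (natDegree_pow_le_of_le _ hM)
      (natDegree_pow_le_of_le _ hE))
  · rw [compH, compH, finsetSum_coeff]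
    refine Finset.sum_congr rfl fun i hi => ?_
    rw [algebraMap_eq, coeff_C_mul, e i hi, coeff_mul_add_eq_of_natDegree_le
      (natDegree_pow_le_of_le _ hM) (natDegree_pow_le_of_le _ hE), coeff_pow_of_natDegree_le hM,
      coeff_pow_of_natDegree_le hE]
    rfl

theorem comp_preimage [IsSepClosed K] (h2 : (2 : K) ≠ 0) (hd : dsc a b ≠ 0)
    {β : Pt a b →+ Pt a b} (hβ : IsRat β) (h0 : β ≠ 0) {S : Set (Pt a b)} (hS : S.Finite) :
    (β ⁻¹' S).Finite := by
  have hk : (β.ker : Set (Pt a b)).Finite := Set.finite_coe_iff.1 (card_ker_le h2 hd hβ h0).1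
  refine hS.preimage' fun Q _ => ?_
  rcases (β ⁻¹' {Q}).eq_empty_or_nonempty with h | ⟨P₀, hP₀⟩
  · rw [h]; exact Set.finite_empty
  · refine (hk.image fun R => P₀ + R).subset fun P hP => ⟨P - P₀, ?_, by simp⟩
    have h1 : β P = Q := hP
    have h3 : β P₀ = Q := hP₀
    simp [h1, h3]

theorem comp_infinite [IsSepClosed K] (h2 : (2 : K) ≠ 0) (hd : dsc a b ≠ 0) {S : Set (Pt a b)}
    (hS : S.Finite) : ∃ P, P ∉ S := by
  by_contra hc
  push Not at hc
  exact one_ne_zero (poly_eq_zero h2 hd (f := 1) (hS.subset fun P _ => hc P))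

theorem isRat_comp [IsSepClosed K] (h2 : (2 : K) ≠ 0) (hd : dsc a b ≠ 0) {α β : Pt a b →+ Pt a b}
    (hα : IsRat α) (hβ : IsRat β) : IsRat (α.comp β) := by
  by_cases h0 : β = 0
  · exact Or.inl (by rw [h0, AddMonoidHom.comp_zero])
  rcases hα with hα | ⟨N, D, N', D', hD, hD', hf⟩
  · exact Or.inl (by rw [hα, AddMonoidHom.zero_comp])
  obtain ⟨M, E, M', E', hE, hE', hg⟩ := hβ.resolve_left h0
  have hne : ∀ {f : K[X]} {n : ℕ}, f ≠ 0 → f.natDegree ≤ n → compH n f M E ≠ 0 := by
    intro f n hf0 hfn hc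
    obtain ⟨P, hP⟩ := comp_infinite h2 hd ((hg.union (finite_roots hE)).union
      (comp_preimage h2 hd hβ h0 (finite_roots hf0)))
    simp only [Set.mem_union, Set.mem_ofPred_eq, Set.mem_preimage, not_or, not_not] at hP
    have := compH_eval hfn hP.1.1.2.1
    rw [hc, eval_zero] at this
    exact mul_ne_zero hP.2 (pow_ne_zero _ hP.1.2) this.symm
  refine Or.inr ⟨compH (max N.natDegree D.natDegree) N M E,
    compH (max N.natDegree D.natDegree) D M E, compH (max N'.natDegree D'.natDegree) N' M E * M',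
    compH (max N'.natDegree D'.natDegree) D' M E * E', hne hD (le_max_right _ _),
    mul_ne_zero (hne hD' (le_max_right _ _)) hE',
    (hg.union (comp_preimage h2 hd hβ h0 hf)).subset fun P hP => ?_⟩
  by_contra hc
  simp only [Set.mem_union, Set.mem_ofPred_eq, Set.mem_preimage, not_or, not_not] at hc
  obtain ⟨⟨-, p2, p3⟩, q1, q2, q3⟩ := hc
  refine hP ⟨q1, ?_, ?_⟩
  · rw [compH_eval (le_max_left _ _) p2, compH_eval (le_max_right _ _) p2, ← q2, mul_assoc]
    rfl
  · rw [eval_mul, eval_mul, compH_eval (le_max_left _ _) p2, compH_eval (le_max_right _ _) p2,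
      AddMonoidHom.comp_apply]
    linear_combination (E.eval (xc P) ^ max N'.natDegree D'.natDegree * E'.eval (xc P)) * q3
      + (E.eval (xc P) ^ max N'.natDegree D'.natDegree * N'.eval (xc (β P))) * p3

theorem comp_xrep [IsSepClosed K] (h2 : (2 : K) ≠ 0) (hd : dsc a b ≠ 0) {α β : Pt a b →+ Pt a b}
    (hβ : IsRat β) (h0 : β ≠ 0) {N D M E : K[X]} (h : XRep α N D) (h' : XRep β M E) :
    XRep (α.comp β) (compH (max N.natDegree D.natDegree) N M E)
      (compH (max N.natDegree D.natDegree) D M E) := by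
  refine ⟨compH_coprime h.1 h'.1, ((h'.2.union (comp_preimage h2 hd hβ h0 h.2)).union
    (comp_preimage h2 hd hβ h0 (Set.finite_singleton 0))).subset fun P hP => ?_⟩
  by_contra hc
  simp only [Set.mem_union, Set.mem_ofPred_eq, Set.mem_preimage, not_or, not_not,
    Set.mem_singleton_iff] at hc
  obtain ⟨⟨⟨s, -, s1, s2⟩, t, t0, t1, t2⟩, h3⟩ := hc
  rw [xp_of_ne h3] at s1
  rw [zp_of_ne h3] at s2
  have hE : E.eval (xc P) ≠ 0 := right_ne_zero_of_mul (s2 ▸ one_ne_zero)
  have hx : xc (β P) * E.eval (xc P) = M.eval (xc P) := by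
    linear_combination E.eval (xc P) * s1 - M.eval (xc P) * s2
  have hE' := pow_ne_zero (max N.natDegree D.natDegree) hE
  refine hP ⟨t / E.eval (xc P) ^ max N.natDegree D.natDegree, div_ne_zero t0 hE', ?_, ?_⟩
  · rw [compH_eval (le_max_left _ _) hx, AddMonoidHom.comp_apply, t1]
    field_simp
  · rw [compH_eval (le_max_right _ _) hx, AddMonoidHom.comp_apply, t2]
    field_simp

theorem dg_comp [IsSepClosed K] (h2 : (2 : K) ≠ 0) (hd : dsc a b ≠ 0) {α β : Pt a b →+ Pt a b}
    (hα : IsRat α) (hβ : IsRat β) : dg (α.comp β) = dg α * dg β := by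
  by_cases h0 : β = 0
  · rw [h0, AddMonoidHom.comp_zero, dg_eq h2 hd xrep_zero]
    simp
  obtain ⟨N, D, h⟩ := exists_xrep hα
  obtain ⟨M, E, h'⟩ := exists_xrep hβ
  rw [dg_eq h2 hd (comp_xrep h2 hd hβ h0 h h'), dg_eq h2 hd h, dg_eq h2 hd h']
  obtain ⟨d1, c1⟩ := compH_deg (max N.natDegree D.natDegree) N
    (le_max_left M.natDegree E.natDegree) (le_max_right M.natDegree E.natDegree)
  obtain ⟨d2, c2⟩ := compH_deg (max N.natDegree D.natDegree) D
    (le_max_left M.natDegree E.natDegree) (le_max_right M.natDegree E.natDegree)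
  refine le_antisymm (max_le d1 d2) ?_
  rcases compH_ne (L := K) h.1 (comp_top h'.1) with h1 | h1
  · exact le_max_of_le_left (le_natDegree_of_ne_zero (c1 ▸ h1))
  · exact le_max_of_le_right (le_natDegree_of_ne_zero (c2 ▸ h1))

end Pool.Agent.P.MP_a60a76_nt.Fs
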