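import Pool.Agent.P.MP_a60a76_nt.Fs.Defs
import Pool.Agent.P.MP_a60a76_nt.Fs.Paral

namespace Pool.Agent.P.MP_a60a76_nt.Fs

open Polynomial
open scoped NNReal

theorem quad_bilin {M : Type*} [AddCommGroup M] (q : M → ℤ)
    (h : ∀ x y, q (x + y) + q (x - y) = 2 * q x + 2 * q y) :
    ∃ B : M →+ M →+ ℤ, (∀ x y, B x y = q (x + y) - q x - q y) ∧ ∀ x, B x x = 2 * q x := by
  have h0 : q 0 = 0 := by
    have := h 0 0
    simp only [add_zero, sub_zero] at this
    omega
  have hneg : ∀ x, q (-x) = q x := by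
    intro x
    have := h 0 x
    simp only [zero_add, zero_sub, h0] at this
    omega
  have h3 : ∀ x y z, q (x + y + z) + q x + q y + q z = q (x + y) + q (y + z) + q (x + z) := by
    intro x y z
    have e1 := h (x + y) z
    have e2 := h (x + z) y
    have e3 := h x (y - z)
    have e4 := h y z
    have r1 : x + z + y = x + y + z := by abel
    have r2 : x + (y - z) = x + y - z := by abel
    have r3 : x - (y - z) = x + z - y := by abel
    rw [r1] at e2
    rw [r2, r3] at e3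
    omega
  refine ⟨AddMonoidHom.mk' (fun x => AddMonoidHom.mk' (fun y => q (x + y) - q x - q y) ?_) ?_,
    fun _ _ => rfl, ?_⟩
  · intro y z
    have e := h3 x y z
    rw [add_assoc x y z] at e
    change q (x + (y + z)) - q x - q (y + z) = (q (x + y) - q x - q y) + (q (x + z) - q x - q z)
    linarith
  · intro x y
    ext z
    have e := h3 x y z
    change q (x + y + z) - q (x + y) - q z = (q (x + z) - q x - q z) + (q (y + z) - q y - q z)
    omega
  · intro x
    have e := h x x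
    rw [sub_self, h0] at e
    change q (x + x) - q x - q x = 2 * q x
    omega

theorem quad_three {M : Type*} [AddCommGroup M] (q : M → ℤ)
    (h : ∀ x y, q (x + y) + q (x - y) = 2 * q x + 2 * q y) (x y z : M) (r s t : ℤ) :
    q (r • x + s • y + t • z) =
      r ^ 2 * q x + s ^ 2 * q y + t ^ 2 * q z + r * s * (q (x + y) - q x - q y) +
        r * t * (q (x + z) - q x - q z) + s * t * (q (y + z) - q y - q z) := by
  obtain ⟨B, hB, hq⟩ := quad_bilin q h
  have hs : ∀ u v, B u v = B v u := by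
    intro u v
    rw [hB, hB, add_comm u v]; ring
  have e := hq (r • x + s • y + t • z)
  simp only [map_add, map_zsmul, AddMonoidHom.add_apply, AddMonoidHom.smul_apply,
    smul_eq_mul] at e
  rw [hs y x, hs z x, hs z y, hq x, hq y, hq z] at e
  rw [← hB x y, ← hB x z, ← hB y z]
  apply mul_left_cancel₀ (two_ne_zero : (2 : ℤ) ≠ 0)
  linear_combination -e

variable {K : Type*} [Field K] {a b : K}

/-- The group of rational endomorphisms. -/
def quadSub [IsSepClosed K] (h2 : (2 : K) ≠ 0) (hd : dsc a b ≠ 0) :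
    AddSubgroup (Pt a b →+ Pt a b) where
  carrier := {α | IsRat α}
  add_mem' := fun hα hβ => isRat_add h2 hd hα hβ
  zero_mem' := Or.inl rfl
  neg_mem' := fun hα => isRat_neg hα

theorem quad_dg [IsSepClosed K] (h2 : (2 : K) ≠ 0) (hd : dsc a b ≠ 0) {α β γ : Pt a b →+ Pt a b}
    (hα : IsRat α) (hβ : IsRat β) (hγ : IsRat γ) (r s t : ℤ) :
    (dg (r • α + s • β + t • γ) : ℤ) =
      r ^ 2 * dg α + s ^ 2 * dg β + t ^ 2 * dg γ + r * s * ((dg (α + β) : ℤ) - dg α - dg β) +
        r * t * ((dg (α + γ) : ℤ) - dg α - dg γ) + s * t * ((dg (β + γ) : ℤ) - dg β - dg γ) := by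
  have key := quad_three (M := quadSub h2 hd) (fun x => (dg (x : Pt a b →+ Pt a b) : ℤ))
    (fun x y => by
      have := paral h2 hd x.2 y.2
      simp only [AddSubgroup.coe_add, AddSubgroup.coe_sub]
      exact_mod_cast this) ⟨α, hα⟩ ⟨β, hβ⟩ ⟨γ, hγ⟩ r s t
  exact key

theorem dg_lin2 [IsSepClosed K] (h2 : (2 : K) ≠ 0) (hd : dsc a b ≠ 0) {α β : Pt a b →+ Pt a b}
    (hα : IsRat α) (hβ : IsRat β) (r s : ℤ) :
    (dg (r • α + s • β) : ℤ) =
      r ^ 2 * dg α + s ^ 2 * dg β + r * s * ((dg (α + β) : ℤ) - dg α - dg β) := by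
  have key := quad_dg h2 hd hα hβ hβ r s 0
  rw [zero_smul, add_zero] at key
  rw [key]; ring

theorem dg_lin3 [IsSepClosed K] (h2 : (2 : K) ≠ 0) (hd : dsc a b ≠ 0) {α β γ : Pt a b →+ Pt a b}
    (hα : IsRat α) (hβ : IsRat β) (hγ : IsRat γ) (r s t : ℤ) :
    (dg (r • α + s • β + t • γ) : ℤ) =
      r ^ 2 * dg α + s ^ 2 * dg β + t ^ 2 * dg γ + r * s * ((dg (α + β) : ℤ) - dg α - dg β) +
        r * t * ((dg (α + γ) : ℤ) - dg α - dg γ) + s * t * ((dg (β + γ) : ℤ) - dg β - dg γ) :=
  quad_dg h2 hd hα hβ hγ r s t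

end Pool.Agent.P.MP_a60a76_nt.Fs
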