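import Pool.Agent.P.MP_a60a76_nt.Fs.Defs
import Pool.Agent.P.MP_a60a76_nt.Fs.AS

namespace Pool.Agent.P.MP_a60a76_nt.Fs

open Polynomial
open scoped NNReal

variable {K Γ : Type*} [Field K] [LinearOrderedCommGroupWithZero Γ]

theorem seq_nat_le (v : Valuation K Γ) (n : ℕ) : v (n : K) ≤ 1 :=
  (Valuation.mem_integer_iff v _).1 (natCast_mem v.integer n)

theorem seq_step (v : Valuation K Γ) {a b w w' : K} (ha : v a ≤ 1) (hb : v b ≤ 1)
    (hw : v w ≤ v w') (hw' : v w' < 1) :
    v ((1 - a * w * w') ^ 2 - 4 * b * w * w' * (w + w')) = 1 ∧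
    v (2 * (w + w') * (1 + a * w * w') + 4 * b * (w * w') ^ 2 -
      2 * (w + w') * ((1 - a * w * w') ^ 2 - 4 * b * w * w' * (w + w'))) ≤ v w' ^ 3 := by
  obtain ⟨u, hu, rfl⟩ : ∃ u : K, v u ≤ 1 ∧ w = u * w' := by
    by_cases h0 : w' = 0
    · refine ⟨0, by simp, ?_⟩
      rw [h0, map_zero, le_zero_iff, Valuation.zero_iff] at hw
      simp [hw]
    · refine ⟨w / w', ?_, by field_simp⟩
      rw [map_div₀]
      exact div_le_one_of_le₀ hw zero_le
  lift a to v.integer using (Valuation.mem_integer_iff v _).2 ha with A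
  lift b to v.integer using (Valuation.mem_integer_iff v _).2 hb with B
  lift u to v.integer using (Valuation.mem_integer_iff v _).2 hu with U
  lift w' to v.integer using (Valuation.mem_integer_iff v _).2 hw'.le with W
  have key : ∀ r : v.integer, v (r : K) ≤ 1 := fun r => (Valuation.mem_integer_iff v _).1 r.2
  have c2 : ((2 : v.integer) : K) = 2 := rfl
  have c3 : ((3 : v.integer) : K) = 3 := rfl
  have c4 : ((4 : v.integer) : K) = 4 := rfl
  constructor
  · have e : ((1 - (A : K) * (U * W) * W) ^ 2 - 4 * B * (U * W) * W * (U * W + W)) =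
        1 + (W : K) * ((W * (-2 * A * U + A ^ 2 * U ^ 2 * W ^ 2 - 4 * B * U * W * (U + 1)) :
          v.integer) : K) := by
      push_cast; rw [c2, c4]; ring
    rw [e]
    apply Valuation.map_one_add_of_lt
    rw [map_mul]
    exact lt_of_le_of_lt (mul_le_of_le_one_right' (key _)) hw'
  · have e : 2 * ((U : K) * W + W) * (1 + (A : K) * (U * W) * W) + 4 * B * (U * W * W) ^ 2 -
        2 * (U * W + W) * ((1 - A * (U * W) * W) ^ 2 - 4 * B * (U * W) * W * (U * W + W)) =
        (W : K) ^ 3 * ((2 * (U + 1) * (3 * A * U - A ^ 2 * U ^ 2 * W ^ 2 +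
          4 * B * U * W * (U + 1)) + 4 * B * U ^ 2 * W : v.integer) : K) := by
      push_cast; rw [c2, c3, c4]; ring
    rw [e, map_mul, map_pow]
    exact mul_le_of_le_one_right' (key _)

theorem seq_bound (v : Valuation K Γ) {a b c : K} (hc : c ≠ 0) (ha : v a ≤ v c ^ 2)
    (hb : v b ≤ v c ^ 3) (X Z : ℕ → K) (hX0 : X 0 ≠ 0) (hZ0 : Z 0 = 0) (hX1 : X 1 ≠ 0)
    (h1 : v (c * Z 1 / X 1) < 1)
    (hrec : ∀ k, ASrel a b (X (k + 1)) (Z (k + 1)) (X 1) (Z 1) (X (k + 2)) (Z (k + 2)) (X k) (Z k))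
    (k : ℕ) :
    X k ≠ 0 ∧ v (c * Z k / X k - (k : K) ^ 2 * (c * Z 1 / X 1)) ≤ v (c * Z 1 / X 1) ^ 3 := by
  have ha' : v (a / c ^ 2) ≤ 1 := by
    rw [map_div₀, map_pow]; exact div_le_one_of_le₀ ha zero_le
  have hb' : v (b / c ^ 3) ≤ 1 := by
    rw [map_div₀, map_pow]; exact div_le_one_of_le₀ hb zero_le
  set w' := c * Z 1 / X 1 with hw'
  have h3 : v w' ^ 3 ≤ v w' := by
    calc v w' ^ 3 = v w' * v w' ^ 2 := by rw [pow_succ']
      _ ≤ v w' := mul_le_of_le_one_right' (pow_le_one' h1.le 2)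
  have main : ∀ k : ℕ, (X k ≠ 0 ∧ v (c * Z k / X k - (k : K) ^ 2 * w') ≤ v w' ^ 3) ∧
      (X (k + 1) ≠ 0 ∧ v (c * Z (k + 1) / X (k + 1) - ((k + 1 : ℕ) : K) ^ 2 * w') ≤ v w' ^ 3) := by
    intro k
    induction k with
    | zero =>
      refine ⟨⟨hX0, by simp [hZ0]⟩, hX1, ?_⟩
      simp [hw']
    | succ k ih =>
      obtain ⟨⟨hk0, hk⟩, hk1, hk'⟩ := ih
      refine ⟨⟨hk1, hk'⟩, ?_⟩
      set w := c * Z (k + 1) / X (k + 1) with hw
      have hvw : v w ≤ v w' := by
        have e : w = (w - ((k + 1 : ℕ) : K) ^ 2 * w') + ((k + 1 : ℕ) : K) ^ 2 * w' := by ring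
        rw [e]
        refine Valuation.map_add_le v (hk'.trans h3) ?_
        rw [map_mul, map_pow]
        exact mul_le_of_le_one_left' (pow_le_one' (seq_nat_le v _) 2)
      obtain ⟨hd, hn⟩ := seq_step v ha' hb' hvw h1
      obtain ⟨t, ht, -, r2, r3⟩ := hrec k
      set den := (1 - a / c ^ 2 * w * w') ^ 2 - 4 * (b / c ^ 3) * w * w' * (w + w') with hden
      set num := 2 * (w + w') * (1 + a / c ^ 2 * w * w') + 4 * (b / c ^ 3) * (w * w') ^ 2
        with hnum
      have e3 : den * (X (k + 1) * X 1) ^ 2 = t * (X (k + 2) * X k) := by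
        rw [← r3, hden, hw, hw']; field_simp; ring
      have e2 : num * (X (k + 1) * X 1) ^ 2 = c * (t * (X (k + 2) * Z k + X k * Z (k + 2))) := by
        rw [← r2, hnum, hw, hw']; field_simp; ring
      have hd0 : den ≠ 0 := by
        intro h; rw [h, map_zero] at hd; exact zero_ne_one hd
      have hk2 : X (k + 2) ≠ 0 := by
        intro h
        rw [h, zero_mul, mul_zero] at e3
        exact (mul_ne_zero hd0 (pow_ne_zero 2 (mul_ne_zero hk1 hX1))) e3
      refine ⟨hk2, ?_⟩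
      have e4 : (c * Z (k + 2) / X (k + 2) + c * Z k / X k) * den = num := by
        apply mul_right_cancel₀ (pow_ne_zero 2 (mul_ne_zero hk1 hX1))
        rw [mul_assoc, e3, e2]; field_simp; ring
      have h5 : v (c * Z (k + 2) / X (k + 2) + c * Z k / X k - 2 * (w + w')) ≤ v w' ^ 3 := by
        rw [← e4, ← sub_mul, map_mul, hd, mul_one] at hn
        exact hn
      have e6 : c * Z (k + 1 + 1) / X (k + 1 + 1) - ((k + 1 + 1 : ℕ) : K) ^ 2 * w' =
          (c * Z (k + 2) / X (k + 2) + c * Z k / X k - 2 * (w + w')) -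
            (c * Z k / X k - (k : K) ^ 2 * w') +
            ((2 : ℕ) : K) * (w - ((k + 1 : ℕ) : K) ^ 2 * w') := by
        push_cast; ring
      rw [e6]
      refine Valuation.map_add_le v (Valuation.map_sub_le v h5 hk) ?_
      rw [map_mul]
      exact (mul_le_of_le_one_left' (seq_nat_le v 2)).trans hk'
  exact (main k).1

theorem tors_int (v : Valuation K Γ) (h2 : (2 : K) ≠ 0) {a b c : K} (hc : c ≠ 0)
    (ha : v a ≤ v c ^ 2) (hb : v b ≤ v c ^ 3) {m : ℕ} {P : Pt a b} (hP : P ∈ Tors m a b) :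
    v ((m : K) * xc P) ≤ v c := by
  rw [map_mul]
  by_cases hx : v (xc P) ≤ v c
  · exact (mul_le_of_le_one_left' (seq_nat_le v m)).trans hx
  push Not at hx
  have hP0 : P ≠ 0 := by
    rintro rfl
    simp at hx
  have hx0 : xc P ≠ 0 := by
    intro h; rw [h, map_zero] at hx; exact not_lt_zero hx
  have hvx : v (xc P) ≠ 0 := by rwa [Ne, Valuation.zero_iff]
  have hvc : v c ≠ 0 := by rwa [Ne, Valuation.zero_iff]
  have hw : v (c / xc P) < 1 := by
    rw [map_div₀]; exact (div_lt_one₀ (zero_lt_iff.2 hvx)).2 hx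
  have hb1 := (seq_bound v hc ha hb (fun k => xp (k • P)) (fun k => zp (k • P)) (by simp)
    (by simp) (by simpa [xp_of_ne hP0] using hx0)
    (by simpa [xp_of_ne hP0, zp_of_ne hP0] using hw)
    (fun k => by
      have h := as_rel h2 ((k + 1) • P) P
      have e1 : (k + 1) • P + P = (k + 2) • P := (succ_nsmul P (k + 1)).symm
      have e2 : (k + 1) • P - P = k • P := by rw [succ_nsmul]; abel
      rw [e1, e2] at h
      simpa only [one_smul] using h) m).2
  simp only [mem_tors.1 hP, zp_zero, xp_zero, one_smul, xp_of_ne hP0, zp_of_ne hP0, mul_zero,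
    zero_div, zero_sub, mul_one, Valuation.map_neg, map_mul, map_pow] at hb1
  have hw0 : v (c / xc P) ≠ 0 := by rw [map_div₀]; exact div_ne_zero hvc hvx
  have h4 : v (m : K) ^ 2 ≤ v (c / xc P) ^ 2 := by
    rw [pow_succ (v (c / xc P)) 2] at hb1
    exact le_of_mul_le_mul_right hb1 (zero_lt_iff.2 hw0)
  have h5 : v (m : K) ≤ v (c / xc P) := (pow_le_pow_iff_left₀ zero_le zero_le two_ne_zero).1 h4
  calc v (m : K) * v (xc P) ≤ v (c / xc P) * v (xc P) := mul_le_mul_left h5 _
    _ = v c := by rw [map_div₀, div_mul_cancel₀ _ hvx]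

theorem seq_integral_of_val {R : Type*} [CommRing R] (ι : R →+* K) (x : K)
    (h : ∀ V : ValuationSubring K, (∀ r, ι r ∈ V) → x ∈ V) : ι.IsIntegralElem x := by
  have h1 : x ∈ (integralClosure (Subring.closure (Set.range ι)) K).toSubring := by
    rw [← iInf_valuationSubring_superset, Subring.mem_iInf]
    intro V
    exact h V.1 (fun r => V.2 ⟨r, rfl⟩)
  have e : Subring.closure (Set.range ι) = ι.range := by
    rw [← RingHom.coe_range, Subring.closure_eq]
  have h2 : IsIntegral (Subring.closure (Set.range ι)) x := h1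
  rw [e] at h2
  obtain ⟨p, hp, hp0⟩ := h2
  have hs : Function.Surjective ι.rangeRestrict := ι.rangeRestrict_surjective
  obtain ⟨q, hq, -, hqm⟩ := Polynomial.lifts_and_degree_eq_and_monic
    (Polynomial.mem_lifts_of_surjective hs p) hp
  refine ⟨q, hqm, ?_⟩
  rw [← hq, Polynomial.eval₂_map] at hp0
  exact hp0

theorem tors_integral {R : Type*} [CommRing R] (ι : R →+* K) (h2 : (2 : K) ≠ 0) (a b : R) {m : ℕ}
    {P : Pt (ι a) (ι b)} (hP : P ∈ Tors m (ι a) (ι b)) : ι.IsIntegralElem ((m : K) * xc P) := by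
  refine seq_integral_of_val ι _ (fun V hV => ?_)
  have h := tors_int V.valuation h2 (c := 1) one_ne_zero
    (by simpa using (V.valuation_le_one_iff _).2 (hV a))
    (by simpa using (V.valuation_le_one_iff _).2 (hV b)) hP
  rw [map_one] at h
  exact (V.valuation_le_one_iff _).1 h

theorem tors_integral_unit {R : Type*} [CommRing R] (ι : R →+* K) (h2 : (2 : K) ≠ 0) (a b : R)
    {m : ℕ} (hm : IsUnit (m : R)) {P : Pt (ι a) (ι b)} (hP : P ∈ Tors m (ι a) (ι b)) :
    ι.IsIntegralElem (xc P) ∧ ι.IsIntegralElem (yc P) := by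
  have hx : ∀ V : ValuationSubring K, (∀ r, ι r ∈ V) → xc P ∈ V := by
    intro V hV
    have h := tors_int V.valuation h2 (c := 1) one_ne_zero
      (by simpa using (V.valuation_le_one_iff _).2 (hV a))
      (by simpa using (V.valuation_le_one_iff _).2 (hV b)) hP
    rw [map_one] at h
    obtain ⟨u, hu⟩ := hm.exists_left_inv
    have e : xc P = ι u * ((m : K) * xc P) := by
      rw [← mul_assoc, ← map_natCast ι m, ← map_mul, hu, map_one, one_mul]
    rw [e]
    exact V.mul_mem _ _ (hV u) ((V.valuation_le_one_iff _).1 h)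
  refine ⟨seq_integral_of_val ι _ hx, seq_integral_of_val ι _ (fun V hV => ?_)⟩
  by_cases hP0 : P = 0
  · rw [hP0, yc_zero]; exact V.zero_mem
  have h1 : yc P ^ 2 ∈ V := by
    rw [eqn hP0]
    exact V.add_mem _ _ (V.add_mem _ _ (pow_mem (hx V hV) 3) (V.mul_mem _ _ (hV a) (hx V hV)))
      (hV b)
  rw [← V.valuation_le_one_iff] at h1 ⊢
  rw [map_pow] at h1
  exact (pow_le_one_iff two_ne_zero).1 h1

end Pool.Agent.P.MP_a60a76_nt.Fs
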