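import Pool.Agent.P.MP_a60a76_nt.Fs.Defs
import Pool.Agent.P.MP_a60a76_nt.Fs.Seq
import Pool.Agent.P.MP_a60a76_nt.Fs.Quad
import Pool.Agent.P.MP_a60a76_nt.Fs.Kernel

namespace Pool.Agent.P.MP_a60a76_nt.Fs

open Polynomial
open scoped NNReal

variable {K : Type*} [Field K] {a b : K}

theorem count_dg [IsSepClosed K] (h2 : (2 : K) ≠ 0) (hd : dsc a b ≠ 0) (m : ℕ) :
    dg ((m : ℤ) • AddMonoidHom.id (Pt a b)) = m ^ 2 := by
  have h1 : dg (AddMonoidHom.id (Pt a b)) = 1 := by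
    rw [dg_eq h2 hd xrep_id]
    simp
  have h := dg_lin2 h2 hd (isRat_id (a := a) (b := b)) isRat_id m 0
  rw [zero_smul, add_zero, h1] at h
  have h3 : (dg ((m : ℤ) • AddMonoidHom.id (Pt a b)) : ℤ) = ((m ^ 2 : ℕ) : ℤ) := by
    rw [h]; push_cast; ring
  exact_mod_cast h3

theorem count_xrep [IsSepClosed K] (h2 : (2 : K) ≠ 0) (hd : dsc a b ≠ 0) (m : ℕ) :
    ∃ N D : K[X], XRep ((m : ℤ) • AddMonoidHom.id (Pt a b)) N D ∧ N ≠ 0 ∧
      D.natDegree ≤ N.natDegree := by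
  classical
  have hex : ∀ k : ℕ, ∃ N D : K[X], XRep ((k : ℤ) • AddMonoidHom.id (Pt a b)) N D ∧
      (k = 0 → N = 1 ∧ D = 0) ∧ (k = 1 → N = X ∧ D = 1) := by
    intro k
    rcases k with _ | _ | k
    · exact ⟨1, 0, by simpa using xrep_zero, fun _ => ⟨rfl, rfl⟩, fun h => absurd h (by omega)⟩
    · exact ⟨X, 1, by simpa using xrep_id, fun h => absurd h (by omega), fun _ => ⟨rfl, rfl⟩⟩
    · obtain ⟨N, D, h⟩ := exists_xrep (isRat_zsmul h2 hd (isRat_id (a := a) (b := b))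
        ((k + 1 + 1 : ℕ) : ℤ))
      exact ⟨N, D, h, fun h => absurd h (by omega), fun h => absurd h (by omega)⟩
  choose N D hx h0 h1 using hex
  let φ : K[X] →+* RatFunc K := algebraMap K[X] (RatFunc K)
  have hφ : Function.Injective φ := RatFunc.algebraMap_injective K
  let v := RatFunc.inftyValuation K
  have hC : ∀ c : K, v (φ (C c)) ≤ 1 := fun c => by
    by_cases hc : c = 0
    · simp [hc]
    · exact (RatFunc.inftyValuation.C K hc).le
  have hw : v (1 * φ (D 1) / φ (N 1)) < 1 := by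
    rw [(h1 1 rfl).1, (h1 1 rfl).2, map_one, one_mul]
    refine (RatFunc.inftyValuation.X_inv K).trans_lt ?_
    rw [← WithZero.exp_zero, WithZero.exp_lt_exp]
    norm_num
  obtain ⟨hN, hv⟩ := seq_bound v (a := φ (C a)) (b := φ (C b)) one_ne_zero
    (by simpa using hC a) (by simpa using hC b) (fun k => φ (N k)) (fun k => φ (D k))
    (by rw [(h0 0 rfl).1, map_one]; exact one_ne_zero) (by rw [(h0 0 rfl).2, map_zero])
    (by rw [(h1 1 rfl).1]; exact (map_ne_zero_iff φ hφ).2 X_ne_zero) hw (fun k => by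
      have e1 : ((k + 2 : ℕ) : ℤ) • AddMonoidHom.id (Pt a b)
          = ((k + 1 : ℕ) : ℤ) • AddMonoidHom.id (Pt a b) + ((1 : ℕ) : ℤ) • AddMonoidHom.id _ := by
        rw [← add_smul]; push_cast; ring_nf
      have e2 : (k : ℤ) • AddMonoidHom.id (Pt a b)
          = ((k + 1 : ℕ) : ℤ) • AddMonoidHom.id (Pt a b) - ((1 : ℕ) : ℤ) • AddMonoidHom.id _ := by
        rw [← sub_smul]; push_cast; ring_nf
      obtain ⟨t, ht, r1, r2, r3⟩ := as_poly h2 hd (hx (k + 1)) (hx 1) (e1 ▸ hx (k + 2))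
        (e2 ▸ hx k)
      refine ⟨φ (C t), (map_ne_zero_iff φ hφ).2 (C_ne_zero.2 ht), ?_, ?_, ?_⟩
      · simpa only [map_pow, map_sub, map_mul] using congrArg φ r1
      · simpa only [map_pow, map_add, map_mul, map_ofNat] using congrArg φ r2
      · simpa only [map_pow, map_sub, map_add, map_mul, map_ofNat] using congrArg φ r3) m
  have hN0 : N m ≠ 0 := fun h => hN (by rw [h, map_zero])
  refine ⟨N m, D m, hx m, hN0, ?_⟩
  by_cases hD0 : D m = 0
  · simp [hD0]
  have hm : v (((m : RatFunc K)) ^ 2 * (1 * φ (D 1) / φ (N 1))) ≤ 1 := by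
    have : (m : RatFunc K) = φ (C (m : K)) := by simp
    rw [map_mul, map_pow, this]
    exact mul_le_one' (pow_le_one' (hC _) 2) hw.le
  have hle : v (1 * φ (D m) / φ (N m)) ≤ 1 := by
    have := v.map_add_le (hv.trans (pow_le_one' hw.le 3)) hm
    rwa [sub_add_cancel] at this
  have e1 : v (φ (D m)) = WithZero.exp ((D m).natDegree : ℤ) :=
    RatFunc.inftyValuation.polynomial K hD0
  have e2 : v (φ (N m)) = WithZero.exp ((N m).natDegree : ℤ) :=
    RatFunc.inftyValuation.polynomial K hN0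
  rw [one_mul, map_div₀, e1, e2, ← WithZero.exp_sub, ← WithZero.exp_zero,
    WithZero.exp_le_exp] at hle
  omega

theorem card_tors [IsSepClosed K] (h2 : (2 : K) ≠ 0) (hd : dsc a b ≠ 0) {m : ℕ}
    (hm : (m : K) ≠ 0) : Nat.card (Tors m a b) = m ^ 2 := by
  obtain ⟨N, D, hx, hN, hle⟩ := count_xrep h2 hd m
  have hdg := count_dg h2 hd m
  have hdeg : N.natDegree = m ^ 2 := by rw [← hdg, dg_eq h2 hd hx, max_eq_left hle]
  have hm0 : m ≠ 0 := by rintro rfl; exact hm Nat.cast_zero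
  have hw : wronskian N D ≠ 0 := by
    intro h
    have h1 := (hx.1.wronskian_eq_zero_iff.1 h).1
    obtain ⟨n, hn⟩ : ∃ n, N.natDegree = n + 1 :=
      Nat.exists_eq_succ_of_ne_zero (by rw [hdeg]; positivity)
    have h3 := congrArg (coeff · n) h1
    simp only [coeff_derivative, coeff_zero] at h3
    have h4 : ((n : K) + 1) = (m : K) ^ 2 := by exact_mod_cast congrArg (Nat.cast : ℕ → K) (hn.symm.trans hdeg)
    rw [h4, ← hn] at h3
    exact mul_ne_zero (leadingCoeff_ne_zero.2 hN) (pow_ne_zero 2 hm) h3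
  have hk : Tors m a b = ((m : ℤ) • AddMonoidHom.id (Pt a b)).ker := by
    ext P
    simp [mem_tors]
  rw [hk, card_ker_eq h2 hd hx hw, hdg]

theorem plane_tors [IsSepClosed K] (h2 : (2 : K) ≠ 0) (hd : dsc a b ≠ 0) {m : ℕ}
    (hm : (m : K) ≠ 0) : Plane m (Tors m a b) :=
  ⟨card_tors h2 hd hm, tors_smul⟩

theorem finite_tors [IsSepClosed K] (h2 : (2 : K) ≠ 0) (hd : dsc a b ≠ 0) {m : ℕ}
    (hm : (m : K) ≠ 0) : Finite (Tors m a b) := by
  have hm0 : m ≠ 0 := by rintro rfl; exact hm Nat.cast_zero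
  exact Nat.finite_of_card_ne_zero (by rw [card_tors h2 hd hm]; positivity)

/-- Scaling and extension of scalars give isomorphisms of torsion groups. -/
theorem tw_equiv {L : Type*} [Field L] [IsSepClosed K] [IsSepClosed L] (h2 : (2 : K) ≠ 0)
    (hd : dsc a b ≠ 0) {m : ℕ} (hm : (m : K) ≠ 0) (σ : K →+* L) (u : L) (hu : u ≠ 0) {a' b' : L}
    (ha : a' = u ^ 4 * σ a) (hb : b' = u ^ 6 * σ b) :
    ∃ e : Tors m a b ≃+ Tors m a' b', ∀ P : Tors m a b,
      xc (e P : Pt a' b') = u ^ 2 * σ (xc (P : Pt a b)) ∧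
      yc (e P : Pt a' b') = u ^ 3 * σ (yc (P : Pt a b)) := by
  have h2' : (2 : L) ≠ 0 := by
    rw [← map_ofNat σ 2]; exact (map_ne_zero σ).2 h2
  have hm' : (m : L) ≠ 0 := by
    rw [← map_natCast σ m]; exact (map_ne_zero σ).2 hm
  have hd' : dsc a' b' ≠ 0 := by
    have : dsc a' b' = u ^ 12 * σ (dsc a b) := by
      simp only [dsc, ha, hb, map_add, map_mul, map_pow, map_ofNat]; ring
    rw [this]
    exact mul_ne_zero (pow_ne_zero _ hu) ((map_ne_zero σ).2 hd)
  have := finite_tors h2' hd' hm'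
  have hinj : Function.Injective (resT m (tw σ u hu ha hb)) := fun P Q h =>
    Subtype.ext (tw_injective σ u hu ha hb (congrArg Subtype.val h))
  have hbij := hinj.bijective_of_nat_card_le (by rw [card_tors h2 hd hm, card_tors h2' hd' hm'])
  exact ⟨AddEquiv.ofBijective _ hbij, fun P => ⟨xc_tw σ u hu ha hb P, yc_tw σ u hu ha hb P⟩⟩

end Pool.Agent.P.MP_a60a76_nt.Fs
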