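import Pool.Agent.P.MP_a60a76_nt.Fs.Defs
import Pool.Agent.P.MP_a60a76_nt.Fs.Quad
import Pool.Agent.P.MP_a60a76_nt.Fs.Comp

namespace Pool.Agent.P.MP_a60a76_nt.Fs

open Polynomial
open scoped NNReal

theorem Frob_core {K : Type*} [Field K] [IsSepClosed K] {a b : K} (h2 : (2 : K) ≠ 0)
    (hd : dsc a b ≠ 0) {π : Pt a b →+ Pt a b} (hπ : IsRat π) (l : ℕ) (hl : dg π = l) :
    ∃ t : ℤ, |t| ≤ l + 1 ∧ ∀ P : Pt a b, π (π P) - t • π P + l • P = 0 := by
  have hI : IsRat (AddMonoidHom.id (Pt a b)) := isRat_id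
  have dI : dg (AddMonoidHom.id (Pt a b)) = 1 := by
    rw [dg_eq h2 hd xrep_id, natDegree_X, natDegree_one]
    rfl
  have hid : ∀ P : Pt a b, AddMonoidHom.id (Pt a b) P = P := fun P => rfl
  generalize AddMonoidHom.id (Pt a b) = I at hI dI hid
  have hπ2 : IsRat (π.comp π) := isRat_comp h2 hd hπ hπ
  have d2 : dg (π.comp π) = l * l := by rw [dg_comp h2 hd hπ hπ, hl]
  have hp : IsRat (I + π) := isRat_add h2 hd hI hπ
  have hm : IsRat ((1 : ℤ) • I + (-1 : ℤ) • π) :=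
    isRat_add h2 hd (isRat_zsmul h2 hd hI 1) (isRat_zsmul h2 hd hπ (-1))
  have e1 := dg_lin2 h2 hd hI hπ 1 (-1)
  have e2 : dg (π + π.comp π) = l * dg (I + π) := by
    have : π + π.comp π = π.comp (I + π) := by
      ext P
      simp only [AddMonoidHom.add_apply, AddMonoidHom.comp_apply, map_add, hid]
    rw [this, dg_comp h2 hd hπ hp, hl]
  have e3 : dg ((1 : ℤ) • I + (-1 : ℤ) • π.comp π)
      = dg (I + π) * dg ((1 : ℤ) • I + (-1 : ℤ) • π) := by
    have : (1 : ℤ) • I + (-1 : ℤ) • π.comp π = (I + π).comp ((1 : ℤ) • I + (-1 : ℤ) • π) := by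
      ext P
      simp only [AddMonoidHom.add_apply, AddMonoidHom.comp_apply, map_add, hid,
        AddMonoidHom.smul_apply, one_smul, neg_smul, map_neg, AddMonoidHom.neg_apply]
      abel
    rw [this, dg_comp h2 hd hp hm]
  have e4 := dg_lin2 h2 hd hI hπ2 1 (-1)
  have e5 := dg_lin3 h2 hd hI hπ hπ2 (l : ℤ) (-((dg (I + π) : ℤ) - 1 - l)) 1
  have hc : IsRat ((l : ℤ) • I + (-((dg (I + π) : ℤ) - 1 - l)) • π + (1 : ℤ) • π.comp π) :=
    isRat_add h2 hd (isRat_add h2 hd (isRat_zsmul h2 hd hI _) (isRat_zsmul h2 hd hπ _))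
      (isRat_zsmul h2 hd hπ2 _)
  rw [e3] at e4
  rw [e2] at e5
  rw [dI, hl] at e1
  rw [dI, d2] at e4
  rw [dI, d2, hl] at e5
  push_cast at e1 e4 e5
  have e6 : (dg ((l : ℤ) • I + (-((dg (I + π) : ℤ) - 1 - l)) • π + (1 : ℤ) • π.comp π) : ℤ) = 0 := by
    rw [e5]
    rw [e1] at e4
    linear_combination (l : ℤ) * e4
  have e7 := eq_zero_of_dg h2 hd hc (by exact_mod_cast e6)
  refine ⟨(dg (I + π) : ℤ) - 1 - l, ?_, ?_⟩
  · have n1 : (0 : ℤ) ≤ (dg (I + π) : ℤ) := Int.natCast_nonneg _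
    have n2 : (0 : ℤ) ≤ (dg ((1 : ℤ) • I + (-1 : ℤ) • π) : ℤ) := Int.natCast_nonneg _
    rw [abs_le]
    constructor <;> linarith
  · intro P
    have := DFunLike.congr_fun e7 P
    simp only [AddMonoidHom.add_apply, AddMonoidHom.comp_apply, hid,
      AddMonoidHom.smul_apply, one_smul, neg_smul, AddMonoidHom.neg_apply,
      AddMonoidHom.zero_apply, natCast_zsmul] at this
    rw [← this]
    abel

theorem frob_rel (l : ℕ) [Fact l.Prime] (hl : 5 ≤ l) {a b : Fb l} (ha : a ^ l = a) (hb : b ^ l = b)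
    (hd : dsc a b ≠ 0) : ∃ t : ℤ, |t| ≤ l + 1 ∧ FrobRel l a b t := by
  have hp : l.Prime := Fact.out
  have h2 : (2 : Fb l) ≠ 0 := by
    intro h
    have h' : ((2 : ℕ) : Fb l) = 0 := by exact_mod_cast h
    rw [CharP.cast_eq_zero_iff (Fb l) l] at h'
    have := Nat.le_of_dvd (by norm_num) h'
    omega
  have ha' : frobenius (Fb l) l a = a := ha
  have hb' : frobenius (Fb l) l b = b := hb
  have hx : ∀ P : Pt a b, xc (frobP l a b P) = xc P ^ l := fun P => xc_galP ha' hb' P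
  have hy : ∀ P : Pt a b, yc (frobP l a b P) = yc P ^ l := fun P => yc_galP ha' hb' P
  have h0 : ∀ P : Pt a b, P ≠ 0 → frobP l a b P ≠ 0 := fun P hP =>
    (galP_eq_zero_iff _ P).not.2 hP
  obtain ⟨k, hk⟩ : Odd l := hp.odd_of_ne_two (by omega)
  have hr : IsRat (frobP l a b) := by
    right
    refine ⟨X ^ l, 1, (X ^ 3 + C a * X + C b) ^ k, 1, one_ne_zero, one_ne_zero, ?_⟩
    refine (Set.finite_singleton (0 : Pt a b)).subset ?_
    intro P hP
    by_contra hP0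
    have hP1 : P ≠ 0 := hP0
    apply hP
    refine ⟨h0 P hP1, ?_, ?_⟩
    · rw [hx]; simp
    · rw [hy]
      simp only [eval_one, mul_one, eval_pow, eval_add, eval_mul, eval_X, eval_C]
      rw [← eqn hP1, ← pow_mul, ← pow_succ', ← hk]
  have hX : XRep (frobP l a b) (X ^ l) 1 := by
    refine ⟨isCoprime_one_right, ?_⟩
    refine (Set.finite_singleton (0 : Pt a b)).subset ?_
    intro P hP
    by_contra hP0
    have hP1 : P ≠ 0 := hP0
    apply hP
    refine ⟨1, one_ne_zero, ?_, ?_⟩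
    · rw [xp_of_ne (h0 P hP1), hx]; simp
    · rw [zp_of_ne (h0 P hP1)]; simp
  have hdg : dg (frobP l a b) = l := by
    rw [dg_eq h2 hd hX, natDegree_X_pow, natDegree_one]
    exact max_eq_left (Nat.zero_le _)
  exact Frob_core h2 hd hr l hdg

end Pool.Agent.P.MP_a60a76_nt.Fs
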