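import Pool.Agent.P.MP_a60a76_nt.Fs.Defs
import Pool.Agent.P.MP_a60a76_nt.Fs.Seq

namespace Pool.Agent.P.MP_a60a76_nt.Fs

open Polynomial
open scoped NNReal

variable {K Γ : Type*} [Field K] [LinearOrderedCommGroupWithZero Γ]

/-- The elements of value less than one. -/
def intGood_ideal (v : Valuation K Γ) : Ideal v.integer where
  carrier := {z | v (z : K) < 1}
  add_mem' := by
    intro x y hx hy
    exact v.map_add_lt hx hy
  zero_mem' := by
    change v ((0 : v.integer) : K) < 1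
    simp
  smul_mem' := by
    intro r x hx
    change v ((r : K) * (x : K)) < 1
    rw [map_mul]
    exact mul_lt_one_of_nonneg_of_lt_one_right r.2 zero_le hx

theorem intGood_core1 (v : Valuation K Γ) {a b x y : K} (ha : v a ≤ 1) (hb : v b ≤ 1)
    (hd : v (dsc a b) = 1) (h2 : v 2 = 1) (hx : v x ≤ 1) (hy : v y ≤ 1)
    (h0 : v ((x - y) ^ 2) < 1) (h1 : v (2 * (x + y) * (x * y + a) + 4 * b) < 1)
    (h3 : v ((x * y - a) ^ 2 - 4 * b * (x + y)) < 1) : False := by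
  let a' : v.integer := ⟨a, ha⟩
  let b' : v.integer := ⟨b, hb⟩
  let x' : v.integer := ⟨x, hx⟩
  let y' : v.integer := ⟨y, hy⟩
  have key := (as_cert (intGood_ideal v) a' b' (x' * y') (x' + y') 1 ?_ ?_ ?_).2.2
  · have e : ((16 * dsc a' b' * 1 ^ 4 : v.integer) : K) = 2 ^ 4 * dsc a b := by
      have e1 : (16 * dsc a' b' * 1 ^ 4 : v.integer) = 2 ^ 4 * (4 * a' ^ 3 + 27 * b' ^ 2) := by
        unfold dsc; ring
      rw [e1]
      unfold dsc
      push_cast
      rfl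
    have key' : v ((16 * dsc a' b' * 1 ^ 4 : v.integer) : K) < 1 := key
    rw [e, map_mul, map_pow, h2, hd, one_pow, one_mul] at key'
    exact lt_irrefl _ key'
  · have e : ((x' + y') ^ 2 - 4 * (x' * y') * 1 : v.integer) = (x' - y') ^ 2 := by ring
    rw [e]
    exact h0
  · have e : (2 * (x' + y') * (x' * y' + a' * 1) + 4 * b' * 1 ^ 2 : v.integer) =
        2 * (x' + y') * (x' * y' + a') + 4 * b' := by ring
    rw [e]
    exact h1
  · have e : ((x' * y' - a' * 1) ^ 2 - 4 * b' * 1 * (x' + y') : v.integer) =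
        (x' * y' - a') ^ 2 - 4 * b' * (x' + y') := by ring
    rw [e]
    exact h3

theorem intGood_core (v : Valuation K Γ) {a b c x y : K} (hc : c ≠ 0) (ha : v a ≤ v c ^ 2)
    (hb : v b ≤ v c ^ 3) (hd : v (dsc a b) = v c ^ 6) (h2 : v 2 = 1) (hx : v x ≤ v c)
    (hy : v y ≤ v c) (h0 : v ((x - y) ^ 2) < v c ^ 2)
    (h1 : v (2 * (x + y) * (x * y + a) + 4 * b) < v c ^ 3)
    (h3 : v ((x * y - a) ^ 2 - 4 * b * (x + y)) < v c ^ 4) : False := by
  have hv : 0 < v c := zero_lt_iff.2 ((Valuation.ne_zero_iff v).2 hc)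
  have le : ∀ (z : K) (n : ℕ), v z ≤ v c ^ n → v (z / c ^ n) ≤ 1 := by
    intro z n h
    rw [map_div₀, map_pow]
    exact (div_le_one₀ (pow_pos hv n)).2 h
  have lt : ∀ (z : K) (n : ℕ), v z < v c ^ n → v (z / c ^ n) < 1 := by
    intro z n h
    rw [map_div₀, map_pow]
    exact (div_lt_one₀ (pow_pos hv n)).2 h
  refine intGood_core1 v (a := a / c ^ 2) (b := b / c ^ 3) (x := x / c ^ 1) (y := y / c ^ 1)
    (le _ _ ha) (le _ _ hb) ?_ h2 (le _ _ (by rwa [pow_one])) (le _ _ (by rwa [pow_one]))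
    ?_ ?_ ?_
  · have e : dsc (a / c ^ 2) (b / c ^ 3) = dsc a b / c ^ 6 := by
      unfold dsc; field_simp
    rw [e, map_div₀, map_pow, hd, div_self (pow_pos hv 6).ne']
  · have e : (x / c ^ 1 - y / c ^ 1) ^ 2 = (x - y) ^ 2 / c ^ 2 := by field_simp
    rw [e]
    exact lt _ _ h0
  · have e : 2 * (x / c ^ 1 + y / c ^ 1) * (x / c ^ 1 * (y / c ^ 1) + a / c ^ 2) +
        4 * (b / c ^ 3) = (2 * (x + y) * (x * y + a) + 4 * b) / c ^ 3 := by field_simp
    rw [e]
    exact lt _ _ h1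
  · have e : (x / c ^ 1 * (y / c ^ 1) - a / c ^ 2) ^ 2 - 4 * (b / c ^ 3) * (x / c ^ 1 + y / c ^ 1) =
        ((x * y - a) ^ 2 - 4 * b * (x + y)) / c ^ 4 := by field_simp
    rw [e]
    exact lt _ _ h3

theorem intGood_x (v : Valuation K Γ) {a b c : K} (hc : c ≠ 0) (ha : v a ≤ v c ^ 2)
    (hb : v b ≤ v c ^ 3) (h2 : v 2 = 1) {m : ℕ} (hm : v (m : K) = 1) {P : Pt a b}
    (hP : P ∈ Tors m a b) : v (xc P) ≤ v c := by
  have h2' : (2 : K) ≠ 0 := by
    intro h
    rw [h, map_zero] at h2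
    exact zero_ne_one h2
  have := tors_int v h2' hc ha hb hP
  rwa [map_mul, hm, one_mul] at this

theorem unit_diff (v : Valuation K Γ) {a b c : K} (hc : c ≠ 0) (ha : v a ≤ v c ^ 2)
    (hb : v b ≤ v c ^ 3) (hd : v (dsc a b) = v c ^ 6) (h2 : v 2 = 1) {m : ℕ} (hm : v (m : K) = 1)
    {P Q : Pt a b} (hP : P ∈ Tors m a b) (hQ : Q ∈ Tors m a b) (hP0 : P ≠ 0) (hQ0 : Q ≠ 0)
    (h1 : P ≠ Q) (h1' : P ≠ -Q) : v (xc P - xc Q) = v c := by
  have h2' : (2 : K) ≠ 0 := by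
    intro h
    rw [h, map_zero] at h2
    exact zero_ne_one h2
  have hv : 0 < v c := zero_lt_iff.2 ((Valuation.ne_zero_iff v).2 hc)
  have hx := intGood_x v hc ha hb h2 hm hP
  have hy := intGood_x v hc ha hb h2 hm hQ
  have h3 := intGood_x v hc ha hb h2 hm ((Tors m a b).add_mem hP hQ)
  have h4 := intGood_x v hc ha hb h2 hm ((Tors m a b).sub_mem hP hQ)
  have n3 : P + Q ≠ 0 := fun h => h1' (eq_neg_of_add_eq_zero_left h)
  have n4 : P - Q ≠ 0 := sub_ne_zero.2 h1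
  refine le_antisymm (v.map_sub_le hx hy) (not_lt.1 fun hlt => ?_)
  obtain ⟨t, -, e0, e1, e2⟩ := as_rel h2' P Q
  rw [xp_of_ne hP0, zp_of_ne hP0, xp_of_ne hQ0, zp_of_ne hQ0] at e0 e1 e2
  rw [zp_of_ne n3, zp_of_ne n4] at e0 e1
  rw [xp_of_ne n3, xp_of_ne n4] at e1 e2
  have et : (xc P - xc Q) ^ 2 = t := by linear_combination e0
  have ht : v t < v c ^ 2 := by
    rw [← et, map_pow]
    exact pow_lt_pow_left₀ hlt zero_le two_ne_zero
  refine intGood_core v hc ha hb hd h2 hx hy (by rwa [et]) ?_ ?_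
  · have e : 2 * (xc P + xc Q) * (xc P * xc Q + a) + 4 * b = t * (xc (P + Q) + xc (P - Q)) := by
      linear_combination e1
    rw [e, map_mul, pow_succ]
    exact mul_lt_mul_of_lt_of_le_of_nonneg_of_pos ht (v.map_add_le h3 h4) zero_le hv
  · have e : (xc P * xc Q - a) ^ 2 - 4 * b * (xc P + xc Q) = t * (xc (P + Q) * xc (P - Q)) := by
      linear_combination e2
    have e4 : v c ^ 4 = v c ^ 2 * (v c * v c) := by
      rw [← pow_two, ← pow_add]
    rw [e, map_mul, map_mul, e4]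
    exact mul_lt_mul_of_lt_of_le_of_nonneg_of_pos ht (mul_le_mul' h3 h4) zero_le (mul_pos hv hv)

theorem unit_y (v : Valuation K Γ) {a b c : K} (hc : c ≠ 0) (ha : v a ≤ v c ^ 2)
    (hb : v b ≤ v c ^ 3) (hd : v (dsc a b) = v c ^ 6) (h2 : v 2 = 1) {m : ℕ} (hm : v (m : K) = 1)
    (hodd : Odd m) {P : Pt a b} (hP : P ∈ Tors m a b) (hP0 : P ≠ 0) : v (yc P) ^ 2 = v c ^ 3 := by
  have hv : 0 < v c := zero_lt_iff.2 ((Valuation.ne_zero_iff v).2 hc)
  have hx := intGood_x v hc ha hb h2 hm hP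
  have h3 := intGood_x v hc ha hb h2 hm ((Tors m a b).add_mem hP hP)
  have he := eqn hP0
  have n3 : P + P ≠ 0 := by
    intro h
    obtain ⟨k, hk⟩ := hodd
    have h5 : m • P = 0 := hP
    rw [hk, add_nsmul, one_nsmul, mul_nsmul, two_nsmul, h, nsmul_zero, zero_add] at h5
    exact hP0 h5
  have hle : v (yc P) ^ 2 ≤ v c ^ 3 := by
    rw [← map_pow, he]
    refine v.map_add_le (v.map_add_le ?_ ?_) hb
    · rw [map_pow]
      exact pow_le_pow_left₀ zero_le hx 3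
    · rw [map_mul, pow_succ]
      exact mul_le_mul' ha hx
  refine le_antisymm hle (not_lt.1 fun hlt => ?_)
  obtain ⟨t, -, e1, e2⟩ := as_rel_double P hP0
  rw [zp_of_ne n3, mul_one] at e1
  rw [xp_of_ne n3] at e2
  have et : t = 2 ^ 2 * yc P ^ 2 := by linear_combination -e1 - 4 * he
  have ht : v t < v c ^ 3 := by
    rw [et, map_mul, map_pow, map_pow, h2, one_pow, one_mul]
    exact hlt
  refine intGood_core v hc ha hb hd h2 hx hx ?_ (by rwa [e1]) ?_
  · rw [sub_self, zero_pow two_ne_zero, map_zero]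
    exact pow_pos hv 2
  · rw [e2, map_mul, pow_succ]
    exact mul_lt_mul_of_lt_of_le_of_nonneg_of_pos ht h3 zero_le hv

end Pool.Agent.P.MP_a60a76_nt.Fs
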