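import Pool.Agent.P.MP_a60a76_nt.Fs.Defs
import Pool.Agent.P.MP_a60a76_nt.Fs.IntGood
import Pool.Agent.P.MP_a60a76_nt.Fs.Count

namespace Pool.Agent.P.MP_a60a76_nt.Fs

open Polynomial
open scoped NNReal

variable {K L Γ : Type*} [Field K] [Field L] [LinearOrderedCommGroupWithZero Γ]

theorem red_zero (g : Spec K L) : g.f 0 = 0 := map_zero g.hom

theorem red_neg (g : Spec K L) {x : K} (hx : x ∈ g.S) : g.f (-x) = -g.f x :=
  map_neg g.hom ⟨x, hx⟩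

theorem red_sub (g : Spec K L) {x y : K} (hx : x ∈ g.S) (hy : y ∈ g.S) :
    g.f (x - y) = g.f x - g.f y :=
  map_sub g.hom ⟨x, hx⟩ ⟨y, hy⟩

theorem red_nat (g : Spec K L) (n : ℕ) : g.f (n : K) = (n : L) := by
  have := map_natCast g.hom n
  have e : g.hom (n : g.S) = g.f ((n : g.S) : K) := rfl
  rw [e] at this
  simpa using this

theorem red_two (g : Spec K L) : g.f (2 : K) = (2 : L) := by
  simpa using red_nat g 2

theorem red_two_mem (g : Spec K L) : (2 : K) ∈ g.S := by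
  simp

theorem red_eqn (g : Spec K L) {a b x y : K} (ha : a ∈ g.S) (hb : b ∈ g.S) (hx : x ∈ g.S)
    (hy : y ∈ g.S) (h : y ^ 2 = x ^ 3 + a * x + b) :
    g.f y ^ 2 = g.f x ^ 3 + g.f a * g.f x + g.f b := by
  have e : (⟨y, hy⟩ : g.S) ^ 2 = ⟨x, hx⟩ ^ 3 + ⟨a, ha⟩ * ⟨x, hx⟩ + ⟨b, hb⟩ :=
    Subtype.ext (by simpa using h)
  have := congrArg g.hom e
  simp only [map_pow, map_add, map_mul] at this
  exact this

theorem red_dsc (g : Spec K L) {a b : K} (ha : a ∈ g.S) (hb : b ∈ g.S) :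
    dsc a b ∈ g.S ∧ g.f (dsc a b) = dsc (g.f a) (g.f b) := by
  have e : ((dsc (⟨a, ha⟩ : g.S) ⟨b, hb⟩ : g.S) : K) = dsc a b := by
    simp only [dsc]
    push_cast
    rfl
  refine ⟨e ▸ (dsc (⟨a, ha⟩ : g.S) ⟨b, hb⟩).2, ?_⟩
  rw [← e]
  have : g.hom (dsc (⟨a, ha⟩ : g.S) ⟨b, hb⟩) = dsc (g.hom ⟨a, ha⟩) (g.hom ⟨b, hb⟩) := by
    simp only [dsc, map_add, map_mul, map_pow, map_ofNat]
  exact this

theorem red_chord (g : Spec K L) {x1 y1 x2 y2 x3 y3 : K} (h1 : x1 ∈ g.S) (k1 : y1 ∈ g.S)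
    (h2 : x2 ∈ g.S) (k2 : y2 ∈ g.S) (h3 : x3 ∈ g.S) (k3 : y3 ∈ g.S)
    (hne : g.f x1 ≠ g.f x2) (hne' : x1 ≠ x2)
    (ex : x3 = ((y1 - y2) / (x1 - x2)) ^ 2 - x1 - x2)
    (ey : y3 = -((y1 - y2) / (x1 - x2) * (x3 - x1) + y1)) :
    g.f x3 = ((g.f y1 - g.f y2) / (g.f x1 - g.f x2)) ^ 2 - g.f x1 - g.f x2 ∧
    g.f y3 = -((g.f y1 - g.f y2) / (g.f x1 - g.f x2) * (g.f x3 - g.f x1) + g.f y1) := by
  have hd : x1 - x2 ≠ 0 := sub_ne_zero.2 hne'
  have hd' : g.f x1 - g.f x2 ≠ 0 := sub_ne_zero.2 hne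
  have fx : (x3 + x1 + x2) * (x1 - x2) ^ 2 = (y1 - y2) ^ 2 := by
    rw [ex]; field_simp; ring
  have fy : (y3 + y1) * (x1 - x2) = -((y1 - y2) * (x3 - x1)) := by
    rw [ey]; field_simp; ring
  have e1 : ((⟨x3, h3⟩ : g.S) + ⟨x1, h1⟩ + ⟨x2, h2⟩) * (⟨x1, h1⟩ - ⟨x2, h2⟩) ^ 2 =
      (⟨y1, k1⟩ - ⟨y2, k2⟩) ^ 2 := Subtype.ext (by simpa using fx)
  have e2 : ((⟨y3, k3⟩ : g.S) + ⟨y1, k1⟩) * (⟨x1, h1⟩ - ⟨x2, h2⟩) =
      -((⟨y1, k1⟩ - ⟨y2, k2⟩) * (⟨x3, h3⟩ - ⟨x1, h1⟩)) := Subtype.ext (by simpa using fy)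
  have g1 := congrArg g.hom e1
  have g2 := congrArg g.hom e2
  simp only [map_pow, map_add, map_mul, map_sub, map_neg] at g1 g2
  have g1' : (g.f x3 + g.f x1 + g.f x2) * (g.f x1 - g.f x2) ^ 2 = (g.f y1 - g.f y2) ^ 2 := g1
  have g2' : (g.f y3 + g.f y1) * (g.f x1 - g.f x2) =
      -((g.f y1 - g.f y2) * (g.f x3 - g.f x1)) := g2
  constructor
  · field_simp
    linear_combination g1'
  · field_simp
    linear_combination g2'

theorem red_tangent (g : Spec K L) {a x1 y1 x3 y3 : K} (ha : a ∈ g.S) (h1 : x1 ∈ g.S)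
    (k1 : y1 ∈ g.S) (h3 : x3 ∈ g.S) (k3 : y3 ∈ g.S)
    (hne : 2 * g.f y1 ≠ 0) (hne' : 2 * y1 ≠ 0)
    (ex : x3 = ((3 * x1 ^ 2 + a) / (2 * y1)) ^ 2 - x1 - x1)
    (ey : y3 = -((3 * x1 ^ 2 + a) / (2 * y1) * (x3 - x1) + y1)) :
    g.f x3 = ((3 * g.f x1 ^ 2 + g.f a) / (2 * g.f y1)) ^ 2 - g.f x1 - g.f x1 ∧
    g.f y3 = -((3 * g.f x1 ^ 2 + g.f a) / (2 * g.f y1) * (g.f x3 - g.f x1) + g.f y1) := by
  have a1 : (2 : K) ≠ 0 := left_ne_zero_of_mul hne'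
  have a2 : y1 ≠ 0 := right_ne_zero_of_mul hne'
  have a3 : (2 : L) ≠ 0 := left_ne_zero_of_mul hne
  have a4 : g.f y1 ≠ 0 := right_ne_zero_of_mul hne
  have fx : (x3 + x1 + x1) * (2 * y1) ^ 2 = (3 * x1 ^ 2 + a) ^ 2 := by
    rw [ex]; field_simp; ring
  have fy : (y3 + y1) * (2 * y1) = -((3 * x1 ^ 2 + a) * (x3 - x1)) := by
    rw [ey]; field_simp; ring
  have e1 : ((⟨x3, h3⟩ : g.S) + ⟨x1, h1⟩ + ⟨x1, h1⟩) * (2 * ⟨y1, k1⟩) ^ 2 =
      (3 * ⟨x1, h1⟩ ^ 2 + ⟨a, ha⟩) ^ 2 := Subtype.ext (by push_cast; exact fx)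
  have e2 : ((⟨y3, k3⟩ : g.S) + ⟨y1, k1⟩) * (2 * ⟨y1, k1⟩) =
      -((3 * ⟨x1, h1⟩ ^ 2 + ⟨a, ha⟩) * (⟨x3, h3⟩ - ⟨x1, h1⟩)) :=
    Subtype.ext (by push_cast; exact fy)
  have g1 := congrArg g.hom e1
  have g2 := congrArg g.hom e2
  simp only [map_pow, map_add, map_mul, map_sub, map_neg, map_ofNat] at g1 g2
  have g1' : (g.f x3 + g.f x1 + g.f x1) * (2 * g.f y1) ^ 2 = (3 * g.f x1 ^ 2 + g.f a) ^ 2 := g1
  have g2' : (g.f y3 + g.f y1) * (2 * g.f y1) =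
      -((3 * g.f x1 ^ 2 + g.f a) * (g.f x3 - g.f x1)) := g2
  constructor
  · field_simp
    linear_combination g1'
  · field_simp
    linear_combination g2'

theorem red_exists (g : Spec K L) {a b : K} {a' b' : L} (ha : a ∈ g.S) (hb : b ∈ g.S)
    (ha' : g.f a = a') (hb' : g.f b = b') (h2 : (2 : L) ≠ 0) (hd : dsc a' b' ≠ 0) {m : ℕ}
    (hodd : Odd m)
    (hS : ∀ P : Tors m a b, xc (P : Pt a b) ∈ g.S ∧ yc (P : Pt a b) ∈ g.S)
    (hx : ∀ P Q : Tors m a b, P ≠ 0 → Q ≠ 0 → P ≠ Q → P ≠ -Q →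
      g.f (xc (P : Pt a b)) ≠ g.f (xc (Q : Pt a b)))
    (hy : ∀ P : Tors m a b, P ≠ 0 → g.f (yc (P : Pt a b)) ≠ 0) :
    ∃ f : Tors m a b →+ Tors m a' b', Function.Injective f ∧ IsRed g f := by
  classical
  subst ha' hb'
  have hne : ∀ P : Tors m a b, P ≠ 0 → (P : Pt a b) ≠ 0 := fun P hP h => hP (Subtype.ext h)
  have heq : ∀ P : Tors m a b, P ≠ 0 → g.f (yc (P : Pt a b)) ^ 2 =
      g.f (xc (P : Pt a b)) ^ 3 + g.f a * g.f (xc (P : Pt a b)) + g.f b := fun P hP =>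
    red_eqn g ha hb (hS P).1 (hS P).2 (eqn (hne P hP))
  let f0 : Tors m a b → Pt (g.f a) (g.f b) := fun P =>
    if h : P = 0 then 0 else
      mkPt (g.f (xc (P : Pt a b))) (g.f (yc (P : Pt a b))) (heq P h)
        (nonsing_of_dsc hd h2 (heq P h))
  have f00 : f0 0 = 0 := by simp [f0]
  have hf : ∀ P : Tors m a b, P ≠ 0 → f0 P ≠ 0 ∧ xc (f0 P) = g.f (xc (P : Pt a b)) ∧
      yc (f0 P) = g.f (yc (P : Pt a b)) := by
    intro P hP
    simp only [f0, dif_neg hP]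
    exact ⟨mkPt_ne_zero _ _ _ _, rfl, rfl⟩
  have hneg : ∀ P, f0 (-P) = -f0 P := by
    intro P
    by_cases hP : P = 0
    · simp [hP, f00]
    obtain ⟨h1, h3, h4⟩ := hf P hP
    obtain ⟨h5, h6, h7⟩ := hf (-P) (neg_ne_zero.2 hP)
    refine pt_ext h5 (neg_ne_zero.2 h1) ?_ ?_
    · rw [h6, xc_neg, h3, AddSubgroup.coe_neg, xc_neg]
    · rw [h7, yc_neg, h4, AddSubgroup.coe_neg, yc_neg, red_neg g (hS P).2]
  have hadd : ∀ P Q, f0 (P + Q) = f0 P + f0 Q := by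
    intro P Q
    by_cases hP : P = 0
    · simp [hP, f00]
    by_cases hQ : Q = 0
    · simp [hQ, f00]
    by_cases hPQ' : P = -Q
    · rw [hPQ', neg_add_cancel, f00, hneg, neg_add_cancel]
    obtain ⟨p1, p2, p3⟩ := hf P hP
    obtain ⟨q1, q2, q3⟩ := hf Q hQ
    have hsum : P + Q ≠ 0 := fun h => hPQ' (eq_neg_of_add_eq_zero_left h)
    obtain ⟨t1, t2, t3⟩ := hf _ hsum
    by_cases hPQ : P = Q
    · subst hPQ
      have y1 : 2 * g.f (yc (P : Pt a b)) ≠ 0 := mul_ne_zero h2 (hy P hP)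
      have y2 : 2 * yc (P : Pt a b) ≠ 0 := by
        intro h
        apply y1
        rw [← red_two g, ← g.map_mul _ (red_two_mem g) _ (hS P).2, h, red_zero]
      have y3 : 2 * yc (f0 P) ≠ 0 := by rw [p3]; exact y1
      obtain ⟨_, r2, r3⟩ := add_self_of_ne (hne P hP) y2
      obtain ⟨s1, s2, s3⟩ := add_self_of_ne p1 y3
      obtain ⟨u1, u2⟩ := red_tangent g ha (hS P).1 (hS P).2 (hS (P + P)).1 (hS (P + P)).2 y1 y2
        r2 r3
      have ex : xc (f0 (P + P)) = xc (f0 P + f0 P) := by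
        rw [t2, s2, p2, p3]; exact u1
      refine pt_ext t1 s1 ex ?_
      rw [t3, s3, ← ex, t2, p2, p3]; exact u2
    · have x1 := hx P Q hP hQ hPQ hPQ'
      have x2 : xc (P : Pt a b) ≠ xc (Q : Pt a b) := fun h => x1 (by rw [h])
      have x3 : xc (f0 P) ≠ xc (f0 Q) := by rw [p2, q2]; exact x1
      obtain ⟨_, r2, r3⟩ := add_of_xc_ne (hne P hP) (hne Q hQ) x2
      obtain ⟨s1, s2, s3⟩ := add_of_xc_ne p1 q1 x3
      obtain ⟨u1, u2⟩ := red_chord g (hS P).1 (hS P).2 (hS Q).1 (hS Q).2 (hS (P + Q)).1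
        (hS (P + Q)).2 x1 x2 r2 r3
      have ex : xc (f0 (P + Q)) = xc (f0 P + f0 Q) := by
        rw [t2, s2, p2, p3, q2, q3]; exact u1
      refine pt_ext t1 s1 ex ?_
      rw [t3, s3, ← ex, t2, p2, p3, q2, q3]; exact u2
  let f1 : Tors m a b →+ Pt (g.f a) (g.f b) := AddMonoidHom.mk' f0 hadd
  refine ⟨f1.codRestrict _ (fun P => by
    rw [mem_tors, ← map_nsmul, tors_smul, map_zero]), ?_, ?_⟩
  · rw [injective_iff_map_eq_zero]
    intro P h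
    by_contra hP
    exact (hf P hP).1 (congrArg Subtype.val h)
  · intro P
    refine ⟨(hS P).1, (hS P).2, ?_, ?_⟩
    · change xc (f0 P) = _
      by_cases hP : P = 0
      · subst hP
        rw [f00]
        simp [red_zero]
      · exact (hf P hP).2.1
    · change yc (f0 P) = _
      by_cases hP : P = 0
      · subst hP
        rw [f00]
        simp [red_zero]
      · exact (hf P hP).2.2

theorem red_equiv [IsAlgClosed K] [IsAlgClosed L] (g : Spec K L) (v : Valuation K Γ)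
    (hv : ∀ z ∈ g.S, v z ≤ 1 ∧ (g.f z ≠ 0 ↔ v z = 1)) {a b : K} {a' b' : L} (ha : a ∈ g.S)
    (hb : b ∈ g.S) (ha' : g.f a = a') (hb' : g.f b = b') (h2 : (2 : L) ≠ 0) (hd : dsc a' b' ≠ 0)
    {m : ℕ} (hm : (m : L) ≠ 0) (hodd : Odd m)
    (hS : ∀ P : Tors m a b, xc (P : Pt a b) ∈ g.S ∧ yc (P : Pt a b) ∈ g.S) :
    ∃ f : Tors m a b ≃+ Tors m a' b', IsRed g f := by
  have v2 : v 2 = 1 := (hv 2 (red_two_mem g)).2.1 (by rw [red_two]; exact h2)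
  have vm : v (m : K) = 1 := (hv m (natCast_mem g.S m)).2.1 (by rw [red_nat]; exact hm)
  have vd : v (dsc a b) = 1 := (hv _ (red_dsc g ha hb).1).2.1
    (by rw [(red_dsc g ha hb).2, ha', hb']; exact hd)
  have va : v a ≤ v 1 ^ 2 := by simpa using (hv a ha).1
  have vb : v b ≤ v 1 ^ 3 := by simpa using (hv b hb).1
  have vd' : v (dsc a b) = v 1 ^ 6 := by simpa using vd
  have hne : ∀ P : Tors m a b, P ≠ 0 → (P : Pt a b) ≠ 0 := fun P hP h => hP (Subtype.ext h)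
  obtain ⟨f, hinj, hred⟩ := red_exists g ha hb ha' hb' h2 hd hodd hS
    (by
      intro P Q hP hQ h1 h1' h
      have := unit_diff v one_ne_zero va vb vd' v2 vm P.2 Q.2 (hne P hP) (hne Q hQ)
        (fun e => h1 (Subtype.ext e)) (fun e => h1' (Subtype.ext e))
      rw [map_one] at this
      have h3 := (hv _ (g.S.sub_mem (hS P).1 (hS Q).1)).2.2 this
      rw [red_sub g (hS P).1 (hS Q).1, h, sub_self] at h3
      exact h3 rfl)
    (by
      intro P hP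
      have := unit_y v one_ne_zero va vb vd' v2 vm hodd P.2 (hne P hP)
      rw [map_one, one_pow] at this
      refine (hv _ (hS P).2).2.2 ?_
      by_contra hne1
      have hlt : v (yc (P : Pt a b)) < 1 := lt_of_le_of_ne (hv _ (hS P).2).1 hne1
      exact absurd this (pow_lt_one₀ zero_le hlt two_ne_zero).ne)
  have k2 : (2 : K) ≠ 0 := by
    intro h
    rw [h, map_zero] at v2
    exact zero_ne_one v2
  have km : (m : K) ≠ 0 := by
    intro h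
    rw [h, map_zero] at vm
    exact zero_ne_one vm
  have kd : dsc a b ≠ 0 := by
    intro h
    rw [h, map_zero] at vd
    exact zero_ne_one vd
  have := finite_tors h2 hd hm
  have hbij : Function.Bijective f :=
    hinj.bijective_of_nat_card_le (by rw [card_tors h2 hd hm, card_tors k2 kd km])
  exact ⟨AddEquiv.ofBijective f hbij, hred⟩

end Pool.Agent.P.MP_a60a76_nt.Fs
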