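import Pool.Agent.P.MP_a60a76_nt.Fs.Defs

namespace Pool.Agent.P.MP_a60a76_nt.Fs

open Polynomial
open scoped NNReal

theorem specEx_hom {R S L : Type*} [CommRing R] [CommRing S] [IsDomain S] [Field L] [IsAlgClosed L]
    [Algebra R S] [Algebra.IsIntegral R S] (hi : Function.Injective (algebraMap R S))
    (ev : R →+* L) : ∃ φ : S →+* L, ∀ r, φ (algebraMap R S r) = ev r := by
  have hp : (RingHom.ker ev).IsPrime := RingHom.ker_isPrime ev
  obtain ⟨P, hP, hPp⟩ := Ideal.exists_ideal_over_prime_of_isIntegral_of_isDomain (S := S)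
    (RingHom.ker ev) (by rw [(RingHom.injective_iff_ker_eq_bot _).1 hi]; exact bot_le)
  have : P.LiesOver (RingHom.ker ev) := ⟨hPp.symm⟩
  letI : Algebra (R ⧸ RingHom.ker ev) L := (RingHom.kerLift ev).toAlgebra
  have : FaithfulSMul (R ⧸ RingHom.ker ev) L :=
    (faithfulSMul_iff_algebraMap_injective _ _).2 (RingHom.kerLift_injective ev)
  let ψ : (S ⧸ P) →ₐ[R ⧸ RingHom.ker ev] L := IsAlgClosed.lift
  refine ⟨ψ.toRingHom.comp (Ideal.Quotient.mk P), fun r => ?_⟩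
  exact ψ.commutes (Ideal.Quotient.mk _ r)

theorem specEx_val {Ω : Type*} [Field Ω] (S : Subring Ω) (P : Ideal S) [P.IsPrime] :
    ∃ O : ValuationSubring Ω, ∀ z : S, O.valuation z ≤ 1 ∧ (z ∉ P ↔ O.valuation z = 1) := by
  obtain ⟨O, h1, h2⟩ := (LocalSubring.ofPrime S P).exists_le_valuationSubring
  refine ⟨O, fun z => ?_⟩
  have hz : (z : Ω) ∈ O := h1 (LocalSubring.le_ofPrime S P z.2)
  refine ⟨(O.valuation_le_one_iff _).2 hz, ?_⟩
  refine Iff.trans ?_ (O.valuation_eq_one_iff ⟨z, hz⟩)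
  refine Iff.trans (IsLocalization.AtPrime.isUnit_to_map_iff
    (LocalSubring.ofPrime S P).toSubring P z).symm ?_
  exact (isUnit_map_iff (Subring.inclusion h1) _).symm

theorem exists_spec {R Ω L : Type*} [CommRing R] [IsDomain R] [Field Ω] [Field L] [IsAlgClosed L]
    {ι : R →+* Ω} (hι : Clos ι) (ev : R →+* L) :
    ∃ (g : Spec Ω L) (O : ValuationSubring Ω), (∀ z, z ∈ g.S ↔ ι.IsIntegralElem z) ∧
      (∀ r, g.f (ι r) = ev r) ∧
      ∀ z ∈ g.S, O.valuation z ≤ 1 ∧ (g.f z ≠ 0 ↔ O.valuation z = 1) := by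
  letI := ι.toAlgebra
  obtain ⟨φ, hφ⟩ := specEx_hom (S := integralClosure R Ω)
    (fun r s h => hι.inj (congrArg Subtype.val h)) ev
  let S : Subring Ω := (integralClosure R Ω).toSubring
  let φ' : S →+* L := φ
  have hp : (RingHom.ker φ').IsPrime := RingHom.ker_isPrime φ'
  obtain ⟨O, hO⟩ := specEx_val S (RingHom.ker φ')
  have hf : ∀ z (hz : z ∈ S), (Spec.ofHom S φ').f z = φ' ⟨z, hz⟩ := fun z hz => dif_pos hz
  refine ⟨Spec.ofHom S φ', O, fun z => Iff.rfl, fun r => ?_, fun z hz => ?_⟩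
  · rw [hf (ι r) ((integralClosure R Ω).algebraMap_mem r)]
    exact hφ r
  · rw [hf z hz]
    exact hO ⟨z, hz⟩

end Pool.Agent.P.MP_a60a76_nt.Fs
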