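import Pool.Agent.P.MP_a60a76_nt.Fs.Defs
import Pool.Agent.P.MP_a60a76_nt.Fs.AS

namespace Pool.Agent.P.MP_a60a76_nt.Fs

open Polynomial
open scoped NNReal

theorem arch_small {ε B : ℝ} (hε : 0 ≤ ε) (hB : 1 ≤ B) (h : ε * B ^ 2 ≤ 1 / 16) :
    ε ≤ 1 / 16 ∧ ε * B ≤ 1 / 16 := by
  have h1 : B ≤ B ^ 2 := by nlinarith
  have h2 : ε * B ≤ ε * B ^ 2 := mul_le_mul_of_nonneg_left h1 hε
  have h3 : ε * 1 ≤ ε * B := mul_le_mul_of_nonneg_left hB hε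
  constructor <;> linarith

theorem arch_den {α β u : ℂ} {ε B : ℝ} (hε : 0 ≤ ε) (hB : 1 ≤ B) (h : ε * B ^ 2 ≤ 1 / 16)
    (ha : ‖α‖ ≤ ε ^ 2) (hb : ‖β‖ ≤ ε ^ 3) (hu : ‖u‖ ≤ B) :
    ‖(1 - α * u) ^ 2 - 4 * β * u * (1 + u) - 1‖ ≤ 11 * (ε * B) ^ 2 := by
  obtain ⟨e1, e2⟩ := arch_small hε hB h
  have hB0 : 0 ≤ B := by linarith
  have h1 : ‖α * u‖ ≤ (ε * B) ^ 2 := by
    rw [norm_mul]
    calc ‖α‖ * ‖u‖ ≤ ε ^ 2 * B := mul_le_mul ha hu (norm_nonneg _) (by positivity)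
      _ ≤ ε ^ 2 * B ^ 2 := mul_le_mul_of_nonneg_left (by nlinarith) (by positivity)
      _ = (ε * B) ^ 2 := by ring
  have h0 : 0 ≤ ε * B := mul_nonneg hε hB0
  have hs : (ε * B) ^ 2 ≤ 1 := by nlinarith
  have h2 : ‖(α * u) ^ 2‖ ≤ (ε * B) ^ 2 := by
    rw [norm_pow]
    have := norm_nonneg (α * u)
    nlinarith
  have h3 : ‖1 + u‖ ≤ 2 * B := by
    calc ‖1 + u‖ ≤ ‖(1 : ℂ)‖ + ‖u‖ := norm_add_le _ _
      _ ≤ 2 * B := by rw [norm_one]; linarith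
  have h4 : ‖4 * β * u * (1 + u)‖ ≤ 8 * (ε * B) ^ 2 := by
    rw [norm_mul, norm_mul, norm_mul]
    have e4 : ‖(4 : ℂ)‖ = 4 := by simp
    rw [e4]
    have h5 : ‖β‖ ≤ ε ^ 2 := by
      refine hb.trans ?_
      have : ε ^ 3 = ε ^ 2 * ε := by ring
      rw [this]
      exact mul_le_of_le_one_right (by positivity) (by linarith)
    calc 4 * ‖β‖ * ‖u‖ * ‖1 + u‖ ≤ 4 * ε ^ 2 * B * (2 * B) := by gcongr
      _ = 8 * (ε * B) ^ 2 := by ring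
  have e : (1 - α * u) ^ 2 - 4 * β * u * (1 + u) - 1 =
      (α * u) ^ 2 - 2 * (α * u) - 4 * β * u * (1 + u) := by ring
  rw [e]
  have h6 : ‖2 * (α * u)‖ ≤ 2 * (ε * B) ^ 2 := by
    rw [norm_mul]
    have e2 : ‖(2 : ℂ)‖ = 2 := by simp
    rw [e2]; linarith
  calc ‖(α * u) ^ 2 - 2 * (α * u) - 4 * β * u * (1 + u)‖
      ≤ ‖(α * u) ^ 2 - 2 * (α * u)‖ + ‖4 * β * u * (1 + u)‖ := norm_sub_le _ _
    _ ≤ ‖(α * u) ^ 2‖ + ‖2 * (α * u)‖ + ‖4 * β * u * (1 + u)‖ := by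
        gcongr; exact norm_sub_le _ _
    _ ≤ 11 * (ε * B) ^ 2 := by linarith

theorem arch_den_ge {α β u : ℂ} {ε B : ℝ} (hε : 0 ≤ ε) (hB : 1 ≤ B) (h : ε * B ^ 2 ≤ 1 / 16)
    (ha : ‖α‖ ≤ ε ^ 2) (hb : ‖β‖ ≤ ε ^ 3) (hu : ‖u‖ ≤ B) :
    1 / 2 ≤ ‖(1 - α * u) ^ 2 - 4 * β * u * (1 + u)‖ := by
  have h1 := arch_den hε hB h ha hb hu
  obtain ⟨e1, e2⟩ := arch_small hε hB h
  have h0 : 0 ≤ ε * B := mul_nonneg hε (by linarith)
  have h2 : (ε * B) ^ 2 ≤ 1 / 256 := by nlinarith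
  set d := (1 - α * u) ^ 2 - 4 * β * u * (1 + u)
  have h3 : ‖(1 : ℂ)‖ ≤ ‖d‖ + ‖d - 1‖ := by
    calc ‖(1 : ℂ)‖ = ‖d - (d - 1)‖ := by congr 1; ring
      _ ≤ ‖d‖ + ‖d - 1‖ := norm_sub_le _ _
  rw [norm_one] at h3
  linarith

theorem arch_err {α β u s : ℂ} {ε B : ℝ} (hε : 0 ≤ ε) (hB : 1 ≤ B) (h : ε * B ^ 2 ≤ 1 / 16)
    (ha : ‖α‖ ≤ ε ^ 2) (hb : ‖β‖ ≤ ε ^ 3) (hu : ‖u‖ ≤ B)
    (hs : s * ((1 - α * u) ^ 2 - 4 * β * u * (1 + u)) =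
      2 * (1 + u) * (1 + α * u) + 4 * β * u ^ 2) :
    ‖s - 2 * (1 + u)‖ ≤ 104 * B ^ 3 * ε ^ 2 := by
  have h1 := arch_den hε hB h ha hb hu
  have h2 := arch_den_ge hε hB h ha hb hu
  obtain ⟨e1, e2⟩ := arch_small hε hB h
  have hB0 : 0 ≤ B := by linarith
  set d := (1 - α * u) ^ 2 - 4 * β * u * (1 + u) with hd
  have e : (s - 2 * (1 + u)) * d =
      2 * (1 + u) * (α * u) + 4 * β * u ^ 2 - 2 * (1 + u) * (d - 1) := by
    linear_combination hs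
  have h3 : ‖2 * (1 + u)‖ ≤ 4 * B := by
    rw [norm_mul]
    have e2 : ‖(2 : ℂ)‖ = 2 := by simp
    have : ‖1 + u‖ ≤ 2 * B := by
      calc ‖1 + u‖ ≤ ‖(1 : ℂ)‖ + ‖u‖ := norm_add_le _ _
        _ ≤ 2 * B := by rw [norm_one]; linarith
    rw [e2]; linarith
  have h4 : ‖2 * (1 + u) * (α * u)‖ ≤ 4 * (ε * B) ^ 2 := by
    rw [norm_mul, norm_mul α]
    calc ‖2 * (1 + u)‖ * (‖α‖ * ‖u‖) ≤ 4 * B * (ε ^ 2 * B) := by gcongr
      _ = 4 * (ε * B) ^ 2 := by ring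
  have h5 : ‖4 * β * u ^ 2‖ ≤ 4 * (ε * B) ^ 2 := by
    rw [norm_mul, norm_mul, norm_pow]
    have e4 : ‖(4 : ℂ)‖ = 4 := by simp
    rw [e4]
    have h5 : ‖β‖ ≤ ε ^ 2 := by
      refine hb.trans ?_
      have : ε ^ 3 = ε ^ 2 * ε := by ring
      rw [this]
      exact mul_le_of_le_one_right (by positivity) (by linarith)
    calc 4 * ‖β‖ * ‖u‖ ^ 2 ≤ 4 * ε ^ 2 * B ^ 2 := by gcongr
      _ = 4 * (ε * B) ^ 2 := by ring
  have h6 : ‖2 * (1 + u) * (d - 1)‖ ≤ 44 * B * (ε * B) ^ 2 := by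
    rw [norm_mul]
    calc ‖2 * (1 + u)‖ * ‖d - 1‖ ≤ 4 * B * (11 * (ε * B) ^ 2) := by gcongr
      _ = 44 * B * (ε * B) ^ 2 := by ring
  have h7 : ‖s - 2 * (1 + u)‖ * ‖d‖ ≤ 52 * B * (ε * B) ^ 2 := by
    rw [← norm_mul, e]
    have h8 : (ε * B) ^ 2 ≤ B * (ε * B) ^ 2 := le_mul_of_one_le_left (by positivity) hB
    calc ‖2 * (1 + u) * (α * u) + 4 * β * u ^ 2 - 2 * (1 + u) * (d - 1)‖
        ≤ ‖2 * (1 + u) * (α * u) + 4 * β * u ^ 2‖ + ‖2 * (1 + u) * (d - 1)‖ := norm_sub_le _ _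
      _ ≤ ‖2 * (1 + u) * (α * u)‖ + ‖4 * β * u ^ 2‖ + ‖2 * (1 + u) * (d - 1)‖ := by
          gcongr; exact norm_add_le _ _
      _ ≤ 52 * B * (ε * B) ^ 2 := by linarith
  have h9 : ‖s - 2 * (1 + u)‖ * (1 / 2) ≤ ‖s - 2 * (1 + u)‖ * ‖d‖ :=
    mul_le_mul_of_nonneg_left h2 (norm_nonneg _)
  have e9 : 104 * B ^ 3 * ε ^ 2 = 2 * (52 * B * (ε * B) ^ 2) := by ring
  rw [e9]
  linarith

theorem arch_sq_le (k : ℕ) : ((k : ℝ)) ^ 2 + 1 ≤ 4 ^ k := by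
  induction k with
  | zero => simp
  | succ n ih =>
    have h0 : (0 : ℝ) ≤ n := Nat.cast_nonneg n
    have h1 : (n : ℝ) ≤ (n : ℝ) ^ 2 + 1 := by nlinarith
    push_cast
    rw [pow_succ (4 : ℝ) n]
    nlinarith

theorem arch_step {a b x x1 z1 x3 z3 x4 z4 : ℂ} (hx : x ≠ 0) (h1 : x1 ≠ 0) (h4 : x4 ≠ 0)
    (hr : ASrel a b x1 z1 x 1 x3 z3 x4 z4)
    (hd : (1 - a / x ^ 2 * (x * z1 / x1)) ^ 2 -
      4 * (b / x ^ 3) * (x * z1 / x1) * (1 + x * z1 / x1) ≠ 0) :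
    x3 ≠ 0 ∧ (x * z3 / x3 + x * z4 / x4) * ((1 - a / x ^ 2 * (x * z1 / x1)) ^ 2 -
      4 * (b / x ^ 3) * (x * z1 / x1) * (1 + x * z1 / x1)) =
      2 * (1 + x * z1 / x1) * (1 + a / x ^ 2 * (x * z1 / x1)) +
        4 * (b / x ^ 3) * (x * z1 / x1) ^ 2 := by
  obtain ⟨t, -, -, r2, r3⟩ := hr
  have e : (1 - a / x ^ 2 * (x * z1 / x1)) ^ 2 -
      4 * (b / x ^ 3) * (x * z1 / x1) * (1 + x * z1 / x1) = t * (x3 * x4) / (x1 * x) ^ 2 := by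
    rw [← r3]
    field_simp
  have h3 : x3 ≠ 0 := by
    intro h
    apply hd
    rw [e, h]
    simp
  refine ⟨h3, ?_⟩
  rw [e]
  have e2 : (x * z3 / x3 + x * z4 / x4) * (t * (x3 * x4) / (x1 * x) ^ 2) =
      x * (t * (x3 * z4 + x4 * z3)) / (x1 * x) ^ 2 := by
    field_simp
    ring
  rw [e2, ← r2]
  field_simp

theorem arch : ∃ c : ℝ, 1 ≤ c ∧ ∀ (m : ℕ) (a b : ℂ) (M : ℝ), 0 < m → 0 < M → ‖a‖ ≤ M ^ 2 →
    ‖b‖ ≤ M ^ 3 → ∀ P : Pt a b, P ∈ Tors m a b → ‖xc P‖ ≤ c ^ m * M := by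
  refine ⟨256, by norm_num, ?_⟩
  intro m a b M hm hM ha hb P hP
  by_contra hc
  push Not at hc
  have hpos : 0 < (256 : ℝ) ^ m * M := by positivity
  have hxn : 0 < ‖xc P‖ := hpos.trans hc
  have hx : xc P ≠ 0 := norm_pos_iff.1 hxn
  have hP0 : P ≠ 0 := by
    rintro rfl
    exact hx rfl
  set x := xc P with hxdef
  set ε : ℝ := M / ‖x‖ with hεdef
  set B : ℝ := 4 ^ m with hBdef
  have hε : 0 ≤ ε := by positivity
  have hB : 1 ≤ B := one_le_pow₀ (by norm_num)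
  have h16 : (16 : ℝ) ≤ 16 ^ m := by
    calc (16 : ℝ) = 16 ^ 1 := by norm_num
      _ ≤ 16 ^ m := pow_le_pow_right₀ (by norm_num) hm
  have hB2 : B ^ 2 = 16 ^ m := by
    rw [hBdef, ← pow_mul, mul_comm, pow_mul]; norm_num
  have h256 : (256 : ℝ) ^ m = 16 ^ m * 16 ^ m := by rw [← mul_pow]; norm_num
  have hεB : ε * B ^ 2 ≤ 1 / 16 := by
    rw [hB2, hεdef, div_mul_eq_mul_div, div_le_div_iff₀ hxn (by norm_num)]
    have h1 : M * 16 ^ m * 16 ≤ M * 16 ^ m * 16 ^ m :=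
      mul_le_mul_of_nonneg_left h16 (by positivity)
    have h2 : M * 16 ^ m * 16 ^ m = 256 ^ m * M := by rw [h256]; ring
    linarith
  have hα : ‖a / x ^ 2‖ ≤ ε ^ 2 := by
    rw [norm_div, norm_pow, hεdef, div_pow]
    gcongr
  have hβ : ‖b / x ^ 3‖ ≤ ε ^ 3 := by
    rw [norm_div, norm_pow, hεdef, div_pow]
    gcongr
  set η : ℝ := 104 * B ^ 3 * ε ^ 2 with hη
  have hη0 : 0 ≤ η := by positivity
  have hηB : B * η ≤ 1 / 2 := by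
    have h0 : 0 ≤ ε * B ^ 2 := by positivity
    have : B * η = 104 * (ε * B ^ 2) ^ 2 := by rw [hη]; ring
    rw [this]
    nlinarith
  have h3B : ∀ k, k ≤ m → (3 : ℝ) ^ k * η ≤ 1 / 2 := by
    intro k hk
    refine le_trans (mul_le_mul_of_nonneg_right ?_ hη0) hηB
    calc (3 : ℝ) ^ k ≤ 4 ^ k := by gcongr; norm_num
      _ ≤ 4 ^ m := pow_le_pow_right₀ (by norm_num) hk
  let Y : ℕ → ℂ := fun k => xp (k • P)
  let u : ℕ → ℂ := fun k => x * zp (k • P) / xp (k • P)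
  have key : ∀ k, k + 1 ≤ m → Y k ≠ 0 ∧ Y (k + 1) ≠ 0 ∧ ‖u k - (k : ℂ) ^ 2‖ ≤ 3 ^ k * η ∧
      ‖u (k + 1) - ((k + 1 : ℕ) : ℂ) ^ 2‖ ≤ 3 ^ (k + 1) * η := by
    intro k
    induction k with
    | zero =>
      intro _
      refine ⟨by simp [Y], ?_, ?_, ?_⟩
      · simp only [Y, zero_add, one_smul, xp_of_ne hP0]
        exact hx
      · simp only [u, zero_smul, zp_zero, mul_zero, zero_div, Nat.cast_zero]
        simpa using hη0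
      · have : u (0 + 1) = 1 := by
          simp only [u, zero_add, one_smul, xp_of_ne hP0, zp_of_ne hP0, mul_one]
          exact div_self hx
        rw [this]
        simp only [zero_add, Nat.cast_one, one_pow, sub_self, norm_zero]
        positivity
    | succ k ih =>
      intro hk
      obtain ⟨i1, i2, i3, i4⟩ := ih (by omega)
      have hu : ‖u (k + 1)‖ ≤ B := by
        have h1 := h3B (k + 1) (by omega)
        have h2 : ‖u (k + 1)‖ ≤ ‖u (k + 1) - ((k + 1 : ℕ) : ℂ) ^ 2‖ +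
            ‖((k + 1 : ℕ) : ℂ) ^ 2‖ := by
          calc ‖u (k + 1)‖ = ‖u (k + 1) - ((k + 1 : ℕ) : ℂ) ^ 2 + ((k + 1 : ℕ) : ℂ) ^ 2‖ := by
                congr 1; ring
            _ ≤ _ := norm_add_le _ _
        rw [norm_pow, Complex.norm_natCast] at h2
        have h3 := arch_sq_le (k + 1)
        have h4 : (4 : ℝ) ^ (k + 1) ≤ B := pow_le_pow_right₀ (by norm_num) (by omega)
        linarith
      have hr := as_rel (two_ne_zero : (2 : ℂ) ≠ 0) ((k + 1) • P) P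
      have e1 : (k + 1) • P + P = (k + 1 + 1) • P := (succ_nsmul P (k + 1)).symm
      have e2 : (k + 1) • P - P = k • P := by rw [succ_nsmul]; abel
      rw [e1, e2, xp_of_ne hP0, zp_of_ne hP0] at hr
      have hd := arch_den_ge hε hB hεB hα hβ hu
      have hd' : (1 - a / x ^ 2 * u (k + 1)) ^ 2 -
          4 * (b / x ^ 3) * u (k + 1) * (1 + u (k + 1)) ≠ 0 := by
        intro h
        rw [h, norm_zero] at hd
        norm_num at hd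
      obtain ⟨j1, j2⟩ := arch_step hx i2 i1 hr hd'
      have j3 := arch_err (s := u (k + 1 + 1) + u k) hε hB hεB hα hβ hu j2
      refine ⟨i2, j1, i4, ?_⟩
      have e3 : u (k + 1 + 1) - ((k + 1 + 1 : ℕ) : ℂ) ^ 2 =
          (u (k + 1 + 1) + u k - 2 * (1 + u (k + 1))) +
            2 * (u (k + 1) - ((k + 1 : ℕ) : ℂ) ^ 2) - (u k - (k : ℂ) ^ 2) := by
        push_cast; ring
      rw [e3]
      have e4 : ‖2 * (u (k + 1) - ((k + 1 : ℕ) : ℂ) ^ 2)‖ ≤ 2 * (3 ^ (k + 1) * η) := by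
        rw [norm_mul]
        have e2 : ‖(2 : ℂ)‖ = 2 := by simp
        rw [e2]; linarith
      have h1 : η ≤ 3 ^ k * η := le_mul_of_one_le_left hη0 (one_le_pow₀ (by norm_num))
      have h2 : (0 : ℝ) ≤ 3 ^ k * η := by positivity
      calc ‖(u (k + 1 + 1) + u k - 2 * (1 + u (k + 1))) +
            2 * (u (k + 1) - ((k + 1 : ℕ) : ℂ) ^ 2) - (u k - (k : ℂ) ^ 2)‖
          ≤ ‖(u (k + 1 + 1) + u k - 2 * (1 + u (k + 1))) +
            2 * (u (k + 1) - ((k + 1 : ℕ) : ℂ) ^ 2)‖ + ‖u k - (k : ℂ) ^ 2‖ := norm_sub_le _ _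
        _ ≤ ‖u (k + 1 + 1) + u k - 2 * (1 + u (k + 1))‖ +
            ‖2 * (u (k + 1) - ((k + 1 : ℕ) : ℂ) ^ 2)‖ + ‖u k - (k : ℂ) ^ 2‖ := by
            gcongr; exact norm_add_le _ _
        _ ≤ η + 2 * (3 ^ (k + 1) * η) + 3 ^ k * η := by linarith
        _ ≤ 3 ^ (k + 1 + 1) * η := by
            rw [pow_succ, pow_succ, pow_succ]; linarith
  obtain ⟨n, rfl⟩ : ∃ n, m = n + 1 := ⟨m - 1, by omega⟩
  obtain ⟨-, -, -, i4⟩ := key n le_rfl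
  have h0 : u (n + 1) = 0 := by
    have : (n + 1) • P = 0 := hP
    simp only [u, this, zp_zero, mul_zero, zero_div]
  rw [h0, zero_sub, norm_neg, norm_pow, Complex.norm_natCast] at i4
  have h1 := h3B (n + 1) le_rfl
  have h2 : (1 : ℝ) ≤ ((n + 1 : ℕ) : ℝ) := by exact_mod_cast Nat.succ_pos n
  nlinarith

end Pool.Agent.P.MP_a60a76_nt.Fs
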