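import Pool.Agent.P.MP_a60a76_nt.Fs.Defs
import Pool.Agent.P.MP_a60a76_nt.Fs.Seq

namespace Pool.Agent.P.MP_a60a76_nt.Fs

open Polynomial
open scoped NNReal

variable {K : Type*} [Field K]

theorem fold_tail {e p d s : ℝ} (he : 0 < e) (hp : 0 < p) (hd : 0 ≤ d) (hs : d * p = s)
    (h1 : s ≤ max (p ^ 2) e) (h2 : e < p ^ 2 → s = p ^ 2) (h3 : p ^ 2 < e → s = e) :
    max (d ^ 2) e = max (p ^ 2) (e ^ 2 / p ^ 2) := by
  have hp2 : 0 < p ^ 2 := by positivity
  rcases lt_trichotomy e (p ^ 2) with h | h | h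
  · have h4 : d = p := by
      have h5 := h2 h
      apply mul_right_cancel₀ hp.ne'
      rw [hs, h5, sq]
    have h6 : e ^ 2 / p ^ 2 ≤ p ^ 2 := by
      rw [div_le_iff₀ hp2]
      nlinarith
    rw [h4, max_eq_left h.le, max_eq_left h6]
  · have h4 : d ≤ p := by
      rw [← h, max_self, ← hs, h, sq] at h1
      exact le_of_mul_le_mul_right h1 hp
    have h5 : d ^ 2 ≤ e := by
      rw [h]
      exact pow_le_pow_left₀ hd h4 2
    have h6 : e ^ 2 / p ^ 2 = e := by
      rw [← h, sq, mul_div_assoc, div_self he.ne', mul_one]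
    rw [max_eq_right h5, h6, ← h, max_self]
  · have h4 : d ^ 2 = e ^ 2 / p ^ 2 := by
      rw [eq_div_iff hp2.ne', ← mul_pow, hs, h3 h]
    have h5 : e ≤ e ^ 2 / p ^ 2 := by
      rw [le_div_iff₀ hp2]
      nlinarith
    rw [h4, max_eq_left h5, max_eq_right (h.le.trans h5)]

theorem fold_units {t g d u : ℝ} (hu : 0 < u) (ht : t ≤ u) (hd : 0 ≤ d) (hdg : d ≤ g)
    (hg : g ≤ 1) (h : t * g * d = u) : g = 1 ∧ d = 1 := by
  have hg0 : 0 ≤ g := hd.trans hdg
  have h1 : u * 1 ≤ u * (g * d) := by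
    rw [mul_one]
    calc u = t * (g * d) := by rw [← h, mul_assoc]
      _ ≤ u * (g * d) := mul_le_mul_of_nonneg_right ht (mul_nonneg hg0 hd)
  have h2 : 1 ≤ g * d := le_of_mul_le_mul_left h1 hu
  have h3 : 1 ≤ d := by nlinarith
  constructor <;> linarith

theorem fold_core {e α β g d t s1 s2 : ℝ} (he : 0 < e) (he1 : e < 1) (hβ : 0 ≤ β) (hβα : β ≤ α)
    (hα : α ≤ 1) (hd : 0 ≤ d) (hdg : d ≤ g) (hg : g ≤ 1)
    (r1 : s1 ≤ t * g) (r1' : d < g → s1 = t * g) (r2 : s2 = t * g * d)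
    (f0 : t ≤ max (α ^ 2) e) (f0' : β < α → t = α ^ 2)
    (f1 : s1 ≤ max (α * β) e) (f1' : α < 1 → e < α * β → s1 = α * β)
    (f2 : s2 ≤ max ((α * β) ^ 2) e) (f2' : e < (α * β) ^ 2 → s2 = (α * β) ^ 2)
    (f2'' : α < 1 → (α * β) ^ 2 < e → s2 = e) :
    max (g ^ 2) e = max (β ^ 2) e / max (α ^ 2) e ∧
      max (d ^ 2) e = max (max (α ^ 2) e * max (β ^ 2) e)
        (e ^ 2 / (max (α ^ 2) e * max (β ^ 2) e)) := by
  have hg0 : 0 ≤ g := hd.trans hdg
  have he2 : e ^ 2 ≤ e := by nlinarith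
  rcases hα.eq_or_lt with rfl | hα1
  · rw [one_pow, max_eq_left he1.le] at f0 ⊢
    rw [div_one, one_mul]
    simp only [one_mul] at f1 f2 f2'
    have hmx : max (max (β ^ 2) e) (e ^ 2 / max (β ^ 2) e) = max (β ^ 2) e := by
      apply max_eq_left
      have h1 : e ≤ max (β ^ 2) e := le_max_right _ _
      rw [div_le_iff₀ (he.trans_le h1)]
      nlinarith
    rw [hmx]
    rcases hβα.eq_or_lt with rfl | hβ1
    · have h1 : s2 = 1 := by
        have := f2' (by rw [one_pow]; exact he1)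
        rwa [one_pow] at this
      obtain ⟨h2, h3⟩ := fold_units one_pos f0 hd hdg hg (r2.symm.trans h1)
      rw [h2, h3]
      exact ⟨rfl, rfl⟩
    · have ht : t = 1 := by
        have := f0' hβ1
        rwa [one_pow] at this
      rw [ht, one_mul] at r1' r2
      by_cases hb : e < β ^ 2
      · have h1 : g * d = β ^ 2 := r2.symm.trans (f2' hb)
        have h2 : e ≤ β := by nlinarith
        rw [max_eq_left h2] at f1
        have h3 : d = g := by
          by_contra hne
          have h4 : d < g := lt_of_le_of_ne hdg hne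
          have h5 : g ≤ β := by
            rw [← r1' h4]
            exact f1
          have h6 : 0 < g := hd.trans_lt h4
          nlinarith
        rw [h3] at h1 ⊢
        rw [sq g, h1]
        exact ⟨rfl, rfl⟩
      · have hb' : β ^ 2 ≤ e := not_lt.1 hb
        rw [max_eq_right hb'] at f2 ⊢
        have h1 : g ^ 2 ≤ e := by
          rcases hdg.eq_or_lt with h4 | h4
          · rw [r2, h4] at f2
            rw [sq]
            exact f2
          · rw [r1' h4] at f1
            rcases le_max_iff.1 f1 with h5 | h5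
            · exact (pow_le_pow_left₀ hg0 h5 2).trans hb'
            · exact (pow_le_pow_left₀ hg0 h5 2).trans he2
        exact ⟨max_eq_right h1, max_eq_right ((pow_le_pow_left₀ hd hdg 2).trans h1)⟩
  · have hα0 : 0 ≤ α := hβ.trans hβα
    have hα2 : α ^ 2 < 1 := by nlinarith
    have hβα2 : β ^ 2 ≤ α ^ 2 := pow_le_pow_left₀ hβ hβα 2
    by_cases hb : e < β ^ 2
    · have ha : e < α ^ 2 := hb.trans_le hβα2
      have hβ0 : 0 < β := by
        rcases hβ.eq_or_lt with h | h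
        · rw [← h] at hb
          norm_num at hb
          linarith
        · exact h
      have hαp : 0 < α := hβ0.trans_le hβα
      have hp : 0 < α * β := mul_pos hαp hβ0
      have hab : β ^ 2 ≤ α * β := by nlinarith
      rw [max_eq_left ha.le] at f0 ⊢
      rw [max_eq_left hb.le]
      have h1 : s1 = α * β := f1' hα1 (hb.trans_le hab)
      have key : t * g = α * β ∧ g * α = β := by
        rcases hβα.eq_or_lt with h | h
        · have h2 : α ^ 2 ≤ t * g := by
            rw [h1, h] at r1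
            rw [sq]
            exact r1
          have h3 : t * g ≤ α ^ 2 * g := mul_le_mul_of_nonneg_right f0 hg0
          have h4 : α ^ 2 * 1 ≤ α ^ 2 * g := by linarith
          have h5 : g = 1 := le_antisymm hg (le_of_mul_le_mul_left h4 (by positivity))
          rw [h5, mul_one] at h2 h3
          rw [h5, h, mul_one, one_mul, ← sq]
          exact ⟨le_antisymm f0 h2, rfl⟩
        · have ht := f0' h
          have h2 : β ≤ g * α := by
            have h3 : α * β ≤ α * (g * α) := by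
              rw [h1, ht] at r1
              nlinarith
            exact le_of_mul_le_mul_left h3 hαp
          have h4 : d < g := by
            by_contra hne
            have h5 : d = g := le_antisymm hdg (not_lt.1 hne)
            have h6 : β ^ 2 ≤ s2 := by
              rw [r2, h5, ht]
              nlinarith [pow_le_pow_left₀ hβ h2 2]
            have h7 : (α * β) ^ 2 < β ^ 2 := by
              have h8 : 0 < β ^ 2 := by positivity
              nlinarith
            exact absurd (h6.trans f2) (not_le.2 (max_lt h7 hb))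
          have h5 : t * g = α * β := (r1' h4).symm.trans h1
          refine ⟨h5, mul_left_cancel₀ hαp.ne' ?_⟩
          rw [← h5, ht]
          ring
      constructor
      · have h2 : g ^ 2 = β ^ 2 / α ^ 2 := by
          rw [eq_div_iff (by positivity), ← mul_pow, key.2]
        have h3 : β ^ 2 ≤ β ^ 2 / α ^ 2 := by
          rw [le_div_iff₀ (by positivity)]
          nlinarith
        rw [h2]
        exact max_eq_left (hb.le.trans h3)
      · rw [← mul_pow]
        exact fold_tail he hp hd (by rw [r2, key.1, mul_comm]) f2 f2' (f2'' hα1)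
    · have hb' : β ^ 2 ≤ e := not_lt.1 hb
      have h0 : (α * β) ^ 2 < e := by
        have h1 : α ^ 2 * β ^ 2 ≤ α ^ 2 * e := mul_le_mul_of_nonneg_left hb' (sq_nonneg α)
        nlinarith
      have h1 : t * g * d = e := r2.symm.trans (f2'' hα1 h0)
      rw [max_eq_right hb']
      by_cases ha : e < α ^ 2
      · have hβα' : β < α := by
          by_contra hne
          have h2 : β = α := le_antisymm hβα (not_lt.1 hne)
          rw [h2] at hb
          exact hb ha
        have ht := f0' hβα'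
        have hp2 : 0 < α ^ 2 := he.trans ha
        rw [max_eq_left ha.le]
        have h2 : d = g := by
          by_contra hne
          have h4 : d < g := lt_of_le_of_ne hdg hne
          have h5 : 0 < g := hd.trans_lt h4
          have h6 : e < α ^ 2 * g ^ 2 := by
            rw [← h1, ht]
            nlinarith [mul_pos hp2 h5]
          rw [r1' h4, ht] at f1
          have h7 : 0 ≤ α ^ 2 * g := by positivity
          have h8 : (α ^ 2 * g) ^ 2 ≤ α ^ 2 * e := by
            rcases le_max_iff.1 f1 with h9 | h9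
            · refine (pow_le_pow_left₀ h7 h9 2).trans ?_
              rw [mul_pow]
              exact mul_le_mul_of_nonneg_left hb' (sq_nonneg α)
            · refine (pow_le_pow_left₀ h7 h9 2).trans ?_
              nlinarith
          nlinarith
        have h3 : g ^ 2 = e / α ^ 2 := by
          rw [eq_div_iff hp2.ne', ← h1, h2, ht]
          ring
        have h4 : e ≤ e / α ^ 2 := by
          rw [le_div_iff₀ hp2]
          nlinarith
        have h5 : e ^ 2 / (α ^ 2 * e) = e / α ^ 2 := by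
          field_simp
        have h6 : α ^ 2 * e ≤ e := by nlinarith
        rw [h2, h3, h5, max_eq_left h4, max_eq_right (h6.trans h4)]
        exact ⟨rfl, rfl⟩
      · rw [max_eq_right (not_lt.1 ha)] at f0 ⊢
        obtain ⟨h2, h3⟩ := fold_units he f0 hd hdg hg h1
        have h4 : e * e ≤ 1 := by nlinarith
        rw [h2, h3, one_pow, max_eq_left he1.le, div_self he.ne', ← sq,
          div_self (pow_pos he 2).ne', sq, max_eq_right h4]
        exact ⟨rfl, rfl⟩

theorem fold_cc_ne {v : Valuation K ℝ≥0} {m : ℕ} {a b : K} (h : Mult v m a b) :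
    (2 : K) ≠ 0 ∧ (3 : K) ≠ 0 ∧ cc a b ≠ 0 := by
  have h2 : (2 : K) ≠ 0 := fun h0 => by
    have := h.two
    rw [h0, map_zero] at this
    exact zero_ne_one this
  have h3 : (3 : K) ≠ 0 := fun h0 => by
    have := h.three
    rw [h0, map_zero] at this
    exact zero_ne_one this
  exact ⟨h2, h3, div_ne_zero (mul_ne_zero (neg_ne_zero.2 h3) h.b0) (mul_ne_zero h2 h.a0)⟩

theorem fold_ab {v : Valuation K ℝ≥0} {m : ℕ} {a b : K} (h : Mult v m a b) :
    a = 3 * cc a b ^ 2 * (eps a b - 1) ∧ b = -2 * cc a b ^ 3 * (eps a b - 1) := by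
  obtain ⟨h2, h3, -⟩ := fold_cc_ne h
  have ha := h.a0
  have hb := h.b0
  have h27 : (27 : K) ≠ 0 := by
    have : (27 : K) = 3 ^ 3 := by norm_num
    rw [this]
    exact pow_ne_zero _ h3
  unfold cc eps dsc
  constructor
  · field_simp
    ring
  · field_simp
    ring

theorem fold_eps_pos {v : Valuation K ℝ≥0} {m : ℕ} {a b : K} (h : Mult v m a b) :
    0 < v (eps a b) := by
  obtain ⟨-, h3, -⟩ := fold_cc_ne h
  have h27 : (27 : K) ≠ 0 := by
    have : (27 : K) = 3 ^ 3 := by norm_num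
    rw [this]
    exact pow_ne_zero _ h3
  exact (Valuation.pos_iff v).2 (div_ne_zero h.d0 (mul_ne_zero h27 (pow_ne_zero _ h.b0)))

theorem zz_le_one {v : Valuation K ℝ≥0} {m : ℕ} {a b : K} (h : Mult v m a b) {P : Pt a b}
    (hP : P ∈ Tors m a b) : v (zz P) ≤ 1 := by
  obtain ⟨h2, -, hc⟩ := fold_cc_ne h
  obtain ⟨ha, hb⟩ := fold_ab h
  have h1 : v (eps a b - 1) ≤ 1 := v.map_sub_le h.lt.le v.map_one.le
  have hva : v a ≤ v (cc a b) ^ 2 := by
    conv_lhs => rw [ha]
    rw [map_mul, map_mul, h.three, one_mul, map_pow]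
    exact mul_le_of_le_one_right' h1
  have hvb : v b ≤ v (cc a b) ^ 3 := by
    conv_lhs => rw [hb]
    rw [map_mul, map_mul, v.map_neg, h.two, one_mul, map_pow]
    exact mul_le_of_le_one_right' h1
  have h4 := tors_int v h2 hc hva hvb hP
  rw [map_mul, h.vm, one_mul] at h4
  refine v.map_sub_le ?_ v.map_one.le
  rw [map_div₀]
  exact div_le_one_of_le₀ h4 zero_le

theorem fold_dl_neg (v : Valuation K ℝ≥0) {a b : K} (P : Pt a b) : dl v (-P) = dl v P := by
  unfold dl zz
  rw [xc_neg]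
  by_cases hP : P = 0
  · rw [if_pos hP, if_pos (by rw [hP]; exact _root_.neg_zero)]
  · rw [if_neg hP, if_neg (_root_.neg_ne_zero.2 hP)]

theorem fold_dl_of_ne (v : Valuation K ℝ≥0) {a b : K} {P : Pt a b} (hP : P ≠ 0) :
    dl v P = max (v (zz P) ^ 2) (v (eps a b)) := by
  unfold dl
  rw [if_neg hP]

theorem fold_dl_zero (v : Valuation K ℝ≥0) {a b : K} : dl v (0 : Pt a b) = 1 := by
  unfold dl
  rw [if_pos rfl]

theorem fold_dl_bd {v : Valuation K ℝ≥0} {m : ℕ} {a b : K} (h : Mult v m a b) {P : Pt a b}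
    (hP : P ∈ Tors m a b) : v (eps a b) ≤ dl v P ∧ dl v P ≤ 1 := by
  by_cases h0 : P = 0
  · rw [h0, fold_dl_zero]
    exact ⟨h.lt.le, le_rfl⟩
  · rw [fold_dl_of_ne v h0]
    exact ⟨le_max_right _ _, max_le (pow_le_one₀ zero_le (zz_le_one h hP)) h.lt.le⟩

/-- The relation in the coordinate centred at the node. -/
theorem fold_rel {c e z1 z2 x3 u3 x4 u4 : K} (hc : c ≠ 0)
    (h : ASrel (3 * c ^ 2 * (e - 1)) (-2 * c ^ 3 * (e - 1)) (c * (z1 + 1)) 1 (c * (z2 + 1)) 1
      x3 u3 x4 u4) :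
    ∃ t : K, t ≠ 0 ∧ (z1 - z2) ^ 2 = t * (u3 * u4) ∧
      z1 * z2 * (2 * z1 + 2 * z2 + 12) + e * (6 * z1 + 6 * z2 + 4)
        = t * ((x3 / c - u3) * u4 + (x4 / c - u4) * u3) ∧
      (z1 * z2) ^ 2 + e * (-(6 * (z1 * z2)) - 4 * z1 - 4 * z2 + 9 * e - 12)
        = t * (x3 / c - u3) * (x4 / c - u4) := by
  obtain ⟨t, ht, h0, h1, h2⟩ := h
  refine ⟨t / c ^ 2, div_ne_zero ht (pow_ne_zero _ hc), ?_, ?_, ?_⟩
  · field_simp
    linear_combination h0
  · field_simp
    linear_combination h1 - 2 * c * h0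
  · field_simp
    linear_combination h2 - c * h1 + c ^ 2 * h0

theorem fold_vals (v : Valuation K ℝ≥0) (h2 : v 2 = 1) (h3 : v 3 = 1) {e z1 z2 : K}
    (he : v e < 1) (h21 : v z2 ≤ v z1) (h1 : v z1 ≤ 1) :
    (v (z1 * z2 * (2 * z1 + 2 * z2 + 12) + e * (6 * z1 + 6 * z2 + 4)) ≤ max (v z1 * v z2) (v e) ∧
      (v z1 < 1 → v e < v z1 * v z2 →
        v (z1 * z2 * (2 * z1 + 2 * z2 + 12) + e * (6 * z1 + 6 * z2 + 4)) = v z1 * v z2)) ∧
    v ((z1 * z2) ^ 2 + e * (-(6 * (z1 * z2)) - 4 * z1 - 4 * z2 + 9 * e - 12))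
      ≤ max ((v z1 * v z2) ^ 2) (v e) ∧
    (v e < (v z1 * v z2) ^ 2 →
      v ((z1 * z2) ^ 2 + e * (-(6 * (z1 * z2)) - 4 * z1 - 4 * z2 + 9 * e - 12))
        = (v z1 * v z2) ^ 2) ∧
    (v z1 < 1 → (v z1 * v z2) ^ 2 < v e →
      v ((z1 * z2) ^ 2 + e * (-(6 * (z1 * z2)) - 4 * z1 - 4 * z2 + 9 * e - 12)) = v e) := by
  have h4 : v 4 = 1 := by
    rw [show (4 : K) = 2 * 2 by norm_num, map_mul, h2, one_mul]
  have h6 : v 6 = 1 := by
    rw [show (6 : K) = 2 * 3 by norm_num, map_mul, h2, h3, one_mul]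
  have h9 : v 9 = 1 := by
    rw [show (9 : K) = 3 * 3 by norm_num, map_mul, h3, one_mul]
  have h12 : v 12 = 1 := by
    rw [show (12 : K) = 2 * 6 by norm_num, map_mul, h2, h6, one_mul]
  have a1 : v (2 * z1 + 2 * z2) ≤ v z1 :=
    v.map_add_le (by rw [map_mul, h2, one_mul]) (by rw [map_mul, h2, one_mul]; exact h21)
  have a2 : v (6 * z1 + 6 * z2) ≤ v z1 :=
    v.map_add_le (by rw [map_mul, h6, one_mul]) (by rw [map_mul, h6, one_mul]; exact h21)
  have a3 : v (-(6 * (z1 * z2)) - 4 * z1 - 4 * z2) ≤ v z1 :=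
    v.map_sub_le (v.map_sub_le (by
      rw [v.map_neg, map_mul, h6, one_mul, map_mul]
      exact mul_le_of_le_one_right' (h21.trans h1)) (by rw [map_mul, h4, one_mul]))
      (by rw [map_mul, h4, one_mul]; exact h21)
  have a4 : v (9 * e) < 1 := by
    rw [map_mul, h9, one_mul]
    exact he
  have b1 : v (2 * z1 + 2 * z2 + 12) ≤ 1 := v.map_add_le (a1.trans h1) h12.le
  have b2 : v (e * (6 * z1 + 6 * z2 + 4)) ≤ v e := by
    rw [map_mul]
    exact mul_le_of_le_one_right' (v.map_add_le (a2.trans h1) h4.le)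
  have b3 : v (e * (-(6 * (z1 * z2)) - 4 * z1 - 4 * z2 + 9 * e - 12)) ≤ v e := by
    rw [map_mul]
    exact mul_le_of_le_one_right' (v.map_sub_le (v.map_add_le (a3.trans h1) a4.le) h12.le)
  have c1 : v ((z1 * z2) ^ 2) = (v z1 * v z2) ^ 2 := by rw [map_pow, map_mul]
  refine ⟨⟨?_, fun hlt hlt' => ?_⟩, ?_, fun hlt => ?_, fun hlt hlt' => ?_⟩
  · refine v.map_add_le (le_max_of_le_left ?_) (le_max_of_le_right b2)
    rw [map_mul, map_mul]
    exact mul_le_of_le_one_right' b1
  · have d1 : v (2 * z1 + 2 * z2 + 12) = 1 := by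
      rw [v.map_add_eq_of_lt_right (by rw [h12]; exact a1.trans_lt hlt), h12]
    have d2 : v (z1 * z2 * (2 * z1 + 2 * z2 + 12)) = v z1 * v z2 := by
      rw [map_mul, map_mul, d1, mul_one]
    rw [v.map_add_eq_of_lt_left (by rw [d2]; exact b2.trans_lt hlt'), d2]
  · exact v.map_add_le (le_max_of_le_left c1.le) (le_max_of_le_right b3)
  · rw [v.map_add_eq_of_lt_left (by rw [c1]; exact b3.trans_lt hlt), c1]
  · have d1 : v (-(6 * (z1 * z2)) - 4 * z1 - 4 * z2 + 9 * e - 12) = 1 := by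
      rw [v.map_sub_eq_of_lt_right (by
        rw [h12]
        exact v.map_add_lt (a3.trans_lt hlt) a4), h12]
    have d2 : v (e * (-(6 * (z1 * z2)) - 4 * z1 - 4 * z2 + 9 * e - 12)) = v e := by
      rw [map_mul, d1, mul_one]
    rw [v.map_add_eq_of_lt_right (by rw [d2, c1]; exact hlt'), d2]

theorem fold_core' {e α β g d t s1 s2 : ℝ≥0} (he : 0 < e) (he1 : e < 1) (hβα : β ≤ α)
    (hα : α ≤ 1) (hdg : d ≤ g) (hg : g ≤ 1)
    (r1 : s1 ≤ t * g) (r1' : d < g → s1 = t * g) (r2 : s2 = t * g * d)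
    (f0 : t ≤ max (α ^ 2) e) (f0' : β < α → t = α ^ 2)
    (f1 : s1 ≤ max (α * β) e ∧ (α < 1 → e < α * β → s1 = α * β))
    (f2 : s2 ≤ max ((α * β) ^ 2) e ∧ (e < (α * β) ^ 2 → s2 = (α * β) ^ 2) ∧
      (α < 1 → (α * β) ^ 2 < e → s2 = e)) :
    max (g ^ 2) e = min (max (α ^ 2) e) (max (β ^ 2) e) / max (max (α ^ 2) e) (max (β ^ 2) e) ∧
      max (d ^ 2) e = max (max (α ^ 2) e * max (β ^ 2) e)
        (e ^ 2 / (max (α ^ 2) e * max (β ^ 2) e)) := by
  have hle : max (β ^ 2) e ≤ max (α ^ 2) e := max_le_max (pow_le_pow_left₀ zero_le hβα 2) le_rfl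
  rw [min_eq_right hle, max_eq_left hle]
  have h := fold_core (e := e) (α := α) (β := β) (g := g) (d := d) (t := t) (s1 := s1) (s2 := s2)
    (by exact_mod_cast he) (by exact_mod_cast he1) β.2 (by exact_mod_cast hβα)
    (by exact_mod_cast hα) d.2 (by exact_mod_cast hdg) (by exact_mod_cast hg)
    (by exact_mod_cast r1) (by exact_mod_cast r1') (by exact_mod_cast r2) (by exact_mod_cast f0)
    (by exact_mod_cast f0') (by exact_mod_cast f1.1) (by exact_mod_cast f1.2)
    (by exact_mod_cast f2.1) (by exact_mod_cast f2.2.1) (by exact_mod_cast f2.2.2)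
  exact_mod_cast h

/-- The law for two points `R`, `S` in the roles of the sum and the difference. -/
theorem fold_main {v : Valuation K ℝ≥0} {m : ℕ} {a b : K} (h : Mult v m a b)
    {P Q R S : Pt a b} (hP : P ∈ Tors m a b) (hR : R ∈ Tors m a b) (hS : S ∈ Tors m a b)
    (hP0 : P ≠ 0) (hQ0 : Q ≠ 0) (hS0 : S ≠ 0) (hPQ : v (zz Q) ≤ v (zz P))
    (hRS : R = 0 ∨ v (zz S) ≤ v (zz R))
    (hrel : ASrel a b (xp P) (zp P) (xp Q) (zp Q) (xp R) (zp R) (xp S) (zp S)) :
    dl v R = min (dl v P) (dl v Q) / max (dl v P) (dl v Q) ∧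
      dl v S = max (dl v P * dl v Q) (v (eps a b) ^ 2 / (dl v P * dl v Q)) := by
  obtain ⟨-, -, hc⟩ := fold_cc_ne h
  obtain ⟨ha, hb⟩ := fold_ab h
  have hx : ∀ T : Pt a b, xc T = cc a b * (zz T + 1) := fun T => by
    rw [zz, sub_add_cancel, mul_div_cancel₀ _ hc]
  rw [xp_of_ne hP0, xp_of_ne hQ0, zp_of_ne hP0, zp_of_ne hQ0, xp_of_ne hS0, zp_of_ne hS0, hx P,
    hx Q] at hrel
  obtain ⟨t, ht, h0, h1, h2⟩ := fold_rel (e := eps a b) hc (by rw [← ha, ← hb]; exact hrel)
  obtain ⟨f1, f2⟩ := fold_vals v h.two h.three h.lt hPQ (zz_le_one h hP)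
  have hz : xc S / cc a b - 1 = zz S := rfl
  rw [hz] at h1 h2
  rw [fold_dl_of_ne v hP0, fold_dl_of_ne v hQ0, fold_dl_of_ne v hS0]
  by_cases hR0 : R = 0
  · rw [hR0, zp_zero] at h0 h1 h2
    have h3 : zz P = zz Q := by
      rw [zero_mul, mul_zero] at h0
      exact sub_eq_zero.1 (pow_eq_zero_iff two_ne_zero |>.1 h0)
    rw [mul_zero, add_zero, mul_one] at h1
    have h4 := fold_core' (g := 1) (d := v (zz S)) (t := v (t * (xp (0 : Pt a b) / cc a b - 0)))
      (fold_eps_pos h) h.lt hPQ (zz_le_one h hP) (zz_le_one h hS) le_rfl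
      (by rw [h1, mul_one]) (fun _ => by rw [h1, mul_one]) (by rw [h2, mul_one, map_mul])
      (by
        rw [← h1]
        refine f1.1.trans ?_
        rw [← h3, sq])
      (fun hlt => by
        rw [h3] at hlt
        exact absurd hlt (lt_irrefl _)) f1 f2
    rw [one_pow, max_eq_left h.lt.le] at h4
    rw [hR0, fold_dl_zero]
    exact h4
  · have hle := hRS.resolve_left hR0
    have hz' : xc R / cc a b - 1 = zz R := rfl
    rw [zp_of_ne hR0] at h0 h1 h2
    rw [xp_of_ne hR0, hz'] at h1 h2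
    simp only [mul_one] at h0 h1
    rw [fold_dl_of_ne v hR0]
    refine fold_core' (t := v t) (fold_eps_pos h) h.lt hPQ (zz_le_one h hP) hle (zz_le_one h hR)
      ?_ (fun hlt => ?_) ?_ ?_ (fun hlt => ?_) f1 f2
    · rw [h1, map_mul]
      exact mul_le_mul_right (v.map_add_le le_rfl hle) _
    · rw [h1, map_mul, v.map_add_eq_of_lt_left hlt]
    · rw [h2, map_mul, map_mul]
    · rw [← h0, map_pow]
      exact le_max_of_le_left (pow_le_pow_left₀ zero_le (v.map_sub_le le_rfl hPQ) 2)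
    · rw [← h0, map_pow, v.map_sub_eq_of_lt_left hlt]

theorem fold_rel_swap {a b x1 z1 x2 z2 x3 z3 x4 z4 : K} (h : ASrel a b x1 z1 x2 z2 x3 z3 x4 z4) :
    ASrel a b x1 z1 x2 z2 x4 z4 x3 z3 := by
  obtain ⟨t, ht, h0, h1, h2⟩ := h
  exact ⟨t, ht, by linear_combination h0, by linear_combination h1, by linear_combination h2⟩

theorem fold_law_le {v : Valuation K ℝ≥0} {m : ℕ} {a b : K} (h : Mult v m a b) (hodd : Odd m)
    {P Q : Pt a b} (hP : P ∈ Tors m a b) (hQ : Q ∈ Tors m a b) (hP0 : P ≠ 0) (hQ0 : Q ≠ 0)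
    (hPQ : v (zz Q) ≤ v (zz P)) :
    (dl v (P + Q) = min (dl v P) (dl v Q) / max (dl v P) (dl v Q) ∧
      dl v (P - Q) = max (dl v P * dl v Q) (v (eps a b) ^ 2 / (dl v P * dl v Q))) ∨
    (dl v (P - Q) = min (dl v P) (dl v Q) / max (dl v P) (dl v Q) ∧
      dl v (P + Q) = max (dl v P * dl v Q) (v (eps a b) ^ 2 / (dl v P * dl v Q))) := by
  have hrel := as_rel (fold_cc_ne h).1 P Q
  have hR := (Tors m a b).add_mem hP hQ
  have hS := (Tors m a b).sub_mem hP hQ
  have hnot : P + Q = 0 → P - Q ≠ 0 := by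
    intro h1 h2
    obtain ⟨k, hk⟩ := hodd
    have h3 : 2 • P = 0 := by
      rw [two_nsmul]
      have h4 : P + P = P + Q + (P - Q) := by abel
      rw [h4, h1, h2, add_zero]
    have h5 := mem_tors.1 hP
    rw [hk, add_nsmul, mul_nsmul, h3, nsmul_zero, zero_add, one_nsmul] at h5
    exact hP0 h5
  by_cases h1 : P + Q = 0
  · exact Or.inl (fold_main h hP hR hS hP0 hQ0 (hnot h1) hPQ (Or.inl h1) hrel)
  by_cases h2 : P - Q = 0
  · exact Or.inr (fold_main h hP hS hR hP0 hQ0 h1 hPQ (Or.inl h2) (fold_rel_swap hrel))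
  rcases le_total (v (zz (P - Q))) (v (zz (P + Q))) with h3 | h3
  · exact Or.inl (fold_main h hP hR hS hP0 hQ0 h2 hPQ (Or.inr h3) hrel)
  · exact Or.inr (fold_main h hP hS hR hP0 hQ0 h1 hPQ (Or.inr h3) (fold_rel_swap hrel))

theorem fold_triv {e d : ℝ≥0} (he : 0 < e) (h1 : e ≤ d) : d = max d (e ^ 2 / d) := by
  refine (max_eq_left ?_).symm
  rw [div_le_iff₀ (he.trans_le h1), sq]
  exact mul_le_mul' h1 h1

theorem fold_law {v : Valuation K ℝ≥0} {m : ℕ} {a b : K} (h : Mult v m a b) (hodd : Odd m)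
    {P Q : Pt a b} (hP : P ∈ Tors m a b) (hQ : Q ∈ Tors m a b) :
    (dl v (P + Q) = min (dl v P) (dl v Q) / max (dl v P) (dl v Q) ∧
      dl v (P - Q) = max (dl v P * dl v Q) (v (eps a b) ^ 2 / (dl v P * dl v Q))) ∨
    (dl v (P - Q) = min (dl v P) (dl v Q) / max (dl v P) (dl v Q) ∧
      dl v (P + Q) = max (dl v P * dl v Q) (v (eps a b) ^ 2 / (dl v P * dl v Q))) := by
  by_cases hP0 : P = 0
  · obtain ⟨h1, h2⟩ := fold_dl_bd h hQ
    left
    rw [hP0, zero_add, zero_sub, fold_dl_neg, fold_dl_zero, min_eq_right h2, max_eq_left h2,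
      div_one, one_mul]
    exact ⟨rfl, fold_triv (fold_eps_pos h) h1⟩
  by_cases hQ0 : Q = 0
  · obtain ⟨h1, h2⟩ := fold_dl_bd h hP
    left
    rw [hQ0, add_zero, sub_zero, fold_dl_zero, min_eq_left h2, max_eq_right h2,
      div_one, mul_one]
    exact ⟨rfl, fold_triv (fold_eps_pos h) h1⟩
  rcases le_total (v (zz Q)) (v (zz P)) with h1 | h1
  · exact fold_law_le h hodd hP hQ hP0 hQ0 h1
  · have h2 := fold_law_le h hodd hQ hP hQ0 hP0 h1
    rw [add_comm Q P, ← neg_sub P Q, fold_dl_neg, min_comm, max_comm (dl v Q),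
      mul_comm (dl v Q)] at h2
    exact h2

end Pool.Agent.P.MP_a60a76_nt.Fs
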