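import Pool.Agent.P.MP_a60a76_nt.Fs.Defs
import Pool.Agent.P.MP_a60a76_nt.Fs.Fold

namespace Pool.Agent.P.MP_a60a76_nt.Fs

open Polynomial
open scoped NNReal

variable {K : Type*} [Field K]

theorem foldPow_cos {e x y : ℝ≥0} (he0 : 0 < e) (he1 : e < 1) (hx : 0 < x) (hy : 0 < y) :
    Real.cos (Real.pi * Real.log ((min x y / max x y : ℝ≥0) : ℝ) / Real.log e) +
      Real.cos (Real.pi * Real.log ((max (x * y) (e ^ 2 / (x * y)) : ℝ≥0) : ℝ) / Real.log e) =
    2 * Real.cos (Real.pi * Real.log x / Real.log e) *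
      Real.cos (Real.pi * Real.log y / Real.log e) := by
  have hl : Real.log e ≠ 0 := (Real.log_neg (by exact_mod_cast he0) (by exact_mod_cast he1)).ne
  have hx' : (x : ℝ) ≠ 0 := by exact_mod_cast hx.ne'
  have hy' : (y : ℝ) ≠ 0 := by exact_mod_cast hy.ne'
  have he' : (e : ℝ) ≠ 0 := by exact_mod_cast he0.ne'
  set a := Real.pi * Real.log x / Real.log e with ha
  set b := Real.pi * Real.log y / Real.log e with hb
  have h1 : Real.cos (Real.pi * Real.log ((min x y / max x y : ℝ≥0) : ℝ) / Real.log e) =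
      Real.cos (a - b) := by
    rcases le_total x y with h | h
    · rw [min_eq_left h, max_eq_right h, NNReal.coe_div, Real.log_div hx' hy']
      congr 1
      rw [ha, hb]; ring
    · rw [min_eq_right h, max_eq_left h, NNReal.coe_div, Real.log_div hy' hx', ← Real.cos_neg]
      congr 1
      rw [ha, hb]; ring
  have h2 : Real.cos (Real.pi * Real.log ((max (x * y) (e ^ 2 / (x * y)) : ℝ≥0) : ℝ) /
      Real.log e) = Real.cos (a + b) := by
    rcases le_total (x * y) (e ^ 2 / (x * y)) with h | h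
    · rw [max_eq_right h, NNReal.coe_div, NNReal.coe_pow, NNReal.coe_mul,
        Real.log_div (pow_ne_zero _ he') (mul_ne_zero hx' hy'), Real.log_mul hx' hy',
        Real.log_pow, ← Real.cos_two_pi_sub (a + b)]
      congr 1
      rw [ha, hb]; field_simp; push_cast; ring
    · rw [max_eq_left h, NNReal.coe_mul, Real.log_mul hx' hy']
      congr 1
      rw [ha, hb]; ring
  rw [h1, h2, Real.cos_add, Real.cos_sub]
  ring

theorem dl_pow {v : Valuation K ℝ≥0} {m : ℕ} {a b : K} (h : Mult v m a b) (hm : m.Prime)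
    (h3 : 3 ≤ m) {P : Pt a b} (hP : P ∈ Tors m a b) (hP0 : P ≠ 0) (hz : v (zz P) < 1) :
    ∃ i : ℕ, 0 < i ∧ i < m ∧ v (zz P) ^ m = v (eps a b) ^ i := by
  have hodd : Odd m := hm.odd_of_ne_two (by omega)
  set e := v (eps a b) with he
  have he1 : e < 1 := h.lt
  have he0 : 0 < e := by
    have h27 : (27 : K) ≠ 0 := by
      have h3' : (3 : K) ≠ 0 := fun h0 => by simpa [h0] using h.three
      rw [show (27 : K) = 3 ^ 3 by norm_num]
      exact pow_ne_zero _ h3'
    refine pos_iff_ne_zero.2 ((Valuation.ne_zero_iff v).2 ?_)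
    exact div_ne_zero h.d0 (mul_ne_zero h27 (pow_ne_zero _ h.b0))
  have hpos : ∀ R : Pt a b, 0 < dl v R := fun R => by
    unfold dl
    split_ifs
    · exact one_pos
    · exact lt_max_of_lt_right he0
  have hl : Real.log e < 0 := Real.log_neg (by exact_mod_cast he0) (by exact_mod_cast he1)
  set α := Real.pi * Real.log (dl v P) / Real.log e with hα
  have hc : ∀ k : ℕ, Real.cos (Real.pi * Real.log (dl v (k • P)) / Real.log e) =
      Real.cos (k * α) := by
    intro k
    induction k using Nat.twoStepInduction with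
    | zero => simp [dl]
    | one => simp [hα]
    | more k ih1 ih2 =>
      have h1 := foldPow_cos he0 he1 (hpos ((k + 1) • P)) (hpos P)
      have h2 : (k + 1) • P + P = (k + 2) • P := (succ_nsmul P (k + 1)).symm
      have h3 : (k + 1) • P - P = k • P := by rw [succ_nsmul, add_sub_cancel_right]
      have h4 := fold_law h hodd (AddSubgroup.nsmul_mem _ hP (k + 1)) hP
      rw [h2, h3] at h4
      have h5 : Real.cos (((k + 2 : ℕ) : ℝ) * α) + Real.cos (k * α) =
          2 * Real.cos (((k + 1 : ℕ) : ℝ) * α) * Real.cos α := by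
        rw [show ((k + 2 : ℕ) : ℝ) * α = ((k + 1 : ℕ) : ℝ) * α + α by push_cast; ring,
          show (k : ℝ) * α = ((k + 1 : ℕ) : ℝ) * α - α by push_cast; ring, Real.cos_add,
          Real.cos_sub]
        ring
      rw [ih2, ← hα] at h1
      rcases h4 with ⟨h6, h7⟩ | ⟨h6, h7⟩
      · rw [← h6, ← h7, ih1] at h1; linarith
      · rw [← h6, ← h7, ih1] at h1; linarith
  have h1 := hc m
  rw [mem_tors.1 hP] at h1
  simp only [dl, if_true, NNReal.coe_one, Real.log_one, mul_zero, zero_div, Real.cos_zero] at h1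
  obtain ⟨n, hn⟩ := (Real.cos_eq_one_iff _).1 h1.symm
  have hD : dl v P = max (v (zz P) ^ 2) e := by simp [dl, hP0, he]
  have hD1 : dl v P < 1 := by
    rw [hD]
    exact max_lt (pow_lt_one₀ zero_le hz two_ne_zero) he1
  have hDe : e ≤ dl v P := hD ▸ le_max_right _ _
  have hDl : Real.log (dl v P) < 0 :=
    Real.log_neg (by exact_mod_cast hpos P) (by exact_mod_cast hD1)
  have hDl2 : Real.log e ≤ Real.log (dl v P) :=
    Real.log_le_log (by exact_mod_cast he0) (by exact_mod_cast hDe)
  have hkey : (m : ℝ) * Real.log (dl v P) = 2 * n * Real.log e := by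
    have h2 : (n : ℝ) * (2 * Real.pi) * Real.log e = m * (Real.pi * Real.log (dl v P)) := by
      rw [hn, hα, mul_assoc, div_mul_cancel₀ _ hl.ne]
    refine mul_left_cancel₀ Real.pi_pos.ne' ?_
    linarith
  have hm0 : (0 : ℝ) < m := by exact_mod_cast hm.pos
  have hn0 : 0 < n := by
    have : (0 : ℝ) < n := by nlinarith [mul_neg_of_pos_of_neg hm0 hDl]
    exact_mod_cast this
  have hn1 : 2 * n < m := by
    have h2 : (2 * n : ℝ) ≤ m := by nlinarith [mul_le_mul_of_nonneg_left hDl2 hm0.le]
    have h4 : 2 * n ≤ m := by exact_mod_cast h2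
    obtain ⟨j, hj⟩ := hodd
    omega
  obtain ⟨i, rfl⟩ := Int.eq_ofNat_of_zero_le hn0.le
  have hpow : dl v P ^ m = e ^ (2 * i) := by
    refine NNReal.coe_injective (Real.log_injOn_pos ?_ ?_ ?_)
    · exact Set.mem_Ioi.2 (by exact_mod_cast pow_pos (hpos P) m)
    · exact Set.mem_Ioi.2 (by exact_mod_cast pow_pos he0 _)
    · push_cast
      rw [Real.log_pow, Real.log_pow, hkey]
      push_cast
      ring
  refine ⟨i, by omega, by omega, ?_⟩
  rcases le_total (v (zz P) ^ 2) e with h5 | h5
  · rw [hD, max_eq_right h5] at hpow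
    have := pow_right_injective₀ he0 he1.ne hpow
    omega
  · rw [hD, max_eq_left h5, ← pow_mul, mul_comm 2 m, mul_comm 2 i, pow_mul, pow_mul] at hpow
    exact (pow_left_inj₀ zero_le zero_le two_ne_zero).1 hpow

end Pool.Agent.P.MP_a60a76_nt.Fs
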