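import Pool.Agent.P.MP_a60a76_nt.Fs.Defs

namespace Pool.Agent.P.MP_a60a76_nt.Fs

open Polynomial
open scoped NNReal

variable {V : Type*} [AddCommGroup V]

theorem cauchy_orbit {G : Type*} [Group G] [Finite V] (ρ : G →* AddMonoid.End V) {m : ℕ}
    (hm : m.Prime) (P : V) (h : m ∣ Nat.card {Q | ∃ σ, ρ σ P = Q}) :
    ∃ σ, ρ σ ≠ 1 ∧ ρ σ ^ m = 1 := by
  have : Fact m.Prime := ⟨hm⟩
  have hfin : Finite (AddMonoid.End V) :=
    Finite.of_injective (fun f : AddMonoid.End V => (f : V → V)) DFunLike.coe_injective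
  let H : Subgroup (AddMonoid.End V)ˣ := ρ.toHomUnits.range
  have horb : MulAction.orbit H P = {Q | ∃ σ, ρ σ P = Q} := by
    ext Q
    constructor
    · rintro ⟨⟨_, σ, rfl⟩, rfl⟩
      exact ⟨σ, rfl⟩
    · rintro ⟨σ, rfl⟩
      exact ⟨⟨_, σ, rfl⟩, rfl⟩
  have h1 : m ∣ Nat.card H := by
    refine h.trans ?_
    rw [← horb, Nat.card_coe_set_eq, ← MulAction.index_stabilizer]
    exact Subgroup.index_dvd_card _
  obtain ⟨⟨_, σ, rfl⟩, hx⟩ := exists_prime_orderOf_dvd_card' m h1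
  have h2 : orderOf (ρ σ) = m := by
    rw [← hx, ← Subgroup.orderOf_coe, ← orderOf_units]
    rfl
  refine ⟨σ, fun h0 => ?_, ?_⟩
  · rw [h0, orderOf_one] at h2
    exact hm.one_lt.ne h2
  · rw [← h2]
    exact pow_orderOf_eq_one _

theorem unip_pow {m : ℕ} {u : AddMonoid.End V} (h1 : u ≠ 1) (hu : u ^ m = 1) {k : ℕ}
    (hk : Nat.Coprime k m) : u ^ k ≠ 1 ∧ (u ^ k) ^ m = 1 := by
  refine ⟨fun h => h1 ?_, by rw [← pow_mul, mul_comm, pow_mul, hu, one_pow]⟩
  have := (pow_gcd_eq_one (a := u)).mpr ⟨h, hu⟩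
  rwa [hk.gcd_eq_one, pow_one] at this

theorem grpA_mul_apply (f g : AddMonoid.End V) (x : V) : (f * g) x = f (g x) := rfl

theorem grpA_tf {m : ℕ} [Fact m.Prime] [Module (ZMod m) V] {c : ZMod m} {x : V} (h : c • x = 0) :
    c = 0 ∨ x = 0 := smul_eq_zero.mp h

theorem grpA_sc_pow {u : AddMonoid.End V} {n : ℤ} (h : ∀ v, u v = n • v) (k : ℕ) (v : V) :
    (u ^ k) v = n ^ k • v := by
  induction k with
  | zero => simp
  | succ k ih => rw [pow_succ', grpA_mul_apply, ih, h, smul_smul, pow_succ']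

theorem not_sc_of_unip {m : ℕ} (hm : m.Prime) (hV : Plane m V) {u : AddMonoid.End V} (h1 : u ≠ 1)
    (hu : u ^ m = 1) : ¬ Sc u := by
  have : Fact m.Prime := ⟨hm⟩
  rintro ⟨n, hn⟩
  apply h1
  ext v
  have h2 := grpA_sc_pow hn m v
  rw [hu] at h2
  have h3 : (m : ℤ) ∣ n ^ m - n := by
    rw [← ZMod.intCast_zmod_eq_zero_iff_dvd]
    push_cast
    rw [ZMod.pow_card, sub_self]
  obtain ⟨c, hc⟩ := h3
  have h4 : (n ^ m - n) • v = 0 := by
    rw [hc, mul_comm, mul_smul, natCast_zsmul, hV.2, smul_zero]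
  rw [sub_smul, sub_eq_zero] at h4
  rw [hn, ← h4, ← h2]

theorem sc_of_pm_pow {u : AddMonoid.End V} {m : ℕ} (hm : m.Prime) (hV : Plane m V) {i k : ℕ}
    (hik : Nat.Coprime i k) (hi : PM (u ^ i)) (hi0 : 0 < i) (hk : Sc (u ^ k)) : Sc u := by
  have hs : ∃ e : ℤ, e * e = 1 ∧ ∀ v, (u ^ i) v = e • v := by
    rcases hi with h | h
    · exact ⟨1, by simp, fun v => by rw [h, one_smul]⟩
    · exact ⟨-1, by simp, fun v => by rw [h, neg_smul, one_smul]⟩
  obtain ⟨e, he, hev⟩ := hs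
  rcases Nat.lt_or_ge 1 i with h1 | h1
  · obtain ⟨n, hn⟩ := hk
    obtain ⟨a, -, ha⟩ := Nat.exists_mul_mod_eq_one_of_coprime hik.symm h1
    have hb : k * a = i * (k * a / i) + 1 := by
      have := Nat.div_add_mod (k * a) i
      omega
    refine ⟨e ^ (k * a / i) * n ^ a, fun v => ?_⟩
    have h2 := grpA_sc_pow hn a v
    rw [← pow_mul, hb, pow_succ, pow_mul, grpA_mul_apply, grpA_sc_pow hev] at h2
    rw [mul_smul, ← h2, smul_smul, ← mul_pow, he, one_pow, one_smul]
  · have : i = 1 := by omega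
    subst this
    exact ⟨e, by simpa using hev⟩

/-- structure of the commutant of a nontrivial unipotent element -/
theorem grpA_core {m : ℕ} [Fact m.Prime] [Module (ZMod m) V] (hV : Plane m V)
    {u : AddMonoid.End V} (h1 : u ≠ 1) (hu : u ^ m = 1) :
    (∃ v, (u - 1) v ≠ 0) ∧ (∀ w, (u - 1) ((u - 1) w) = 0) ∧
      ∀ g : AddMonoid.End V, g * u = u * g →
        ∃ a b : ZMod m, ∀ w, g w = a • w + b • (u - 1) w := by
  have hm : m.Prime := Fact.out
  have : Nontrivial (AddMonoid.End V) := ⟨⟨u, 1, h1⟩⟩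
  have hm0 : ((m : ℕ) : AddMonoid.End V) = 0 := by
    ext v
    rw [AddMonoid.End.natCast_apply, hV.2]
    rfl
  have : CharP (AddMonoid.End V) m := (CharP.charP_iff_prime_eq_zero hm).mpr hm0
  set N := u - 1 with hN
  have hN0 : N ≠ 0 := sub_ne_zero.mpr h1
  have hNm : N ^ m = 0 := by
    rw [hN, sub_pow_char_of_commute _ (Commute.one_right u), hu, one_pow, sub_self]
  have hv : ∃ v, N v ≠ 0 ∧ N (N v) = 0 := by
    by_contra hcon
    push Not at hcon
    have hex : ∃ x, N x ≠ 0 := by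
      by_contra h
      push Not at h
      exact hN0 (by ext x; exact h x)
    obtain ⟨x, hx⟩ := hex
    have : ∀ j : ℕ, N ((N ^ j) x) ≠ 0 := by
      intro j
      induction j with
      | zero => simpa using hx
      | succ j ih =>
        rw [pow_succ', grpA_mul_apply]
        exact hcon _ ih
    apply this m
    rw [hNm]
    simp
  obtain ⟨v, hv1, hv2⟩ := hv
  have hlin : ∀ (f : AddMonoid.End V) (c : ZMod m) (x : V), f (c • x) = c • f x :=
    fun f c x => ZMod.map_smul f c x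
  let φ : ZMod m × ZMod m →+ V :=
    { toFun := fun p => p.1 • v + p.2 • N v
      map_zero' := by simp
      map_add' := fun p q => by simp only [Prod.fst_add, Prod.snd_add, add_smul]; abel }
  have hinj : Function.Injective φ := by
    rw [injective_iff_map_eq_zero]
    rintro ⟨a, b⟩ hab
    change a • v + b • N v = 0 at hab
    have h2 := congrArg N hab
    rw [map_add, hlin, hlin, hv2, smul_zero, add_zero, map_zero] at h2
    have ha : a = 0 := (smul_eq_zero.mp h2).resolve_right hv1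
    rw [ha, zero_smul, zero_add] at hab
    have hb : b = 0 := (smul_eq_zero.mp hab).resolve_right hv1
    rw [ha, hb]
    rfl
  have hfin : Finite V := Nat.finite_of_card_ne_zero (by rw [hV.1]; exact pow_ne_zero _ hm.ne_zero)
  have hbij : Function.Bijective φ := by
    refine hinj.bijective_of_nat_card_le ?_
    rw [hV.1, Nat.card_prod, Nat.card_zmod, sq]
  have hsur : ∀ w, ∃ a b : ZMod m, w = a • v + b • N v := by
    intro w
    obtain ⟨⟨a, b⟩, hab⟩ := hbij.2 w
    exact ⟨a, b, hab.symm⟩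
  refine ⟨⟨v, hv1⟩, fun w => ?_, fun g hg => ?_⟩
  · obtain ⟨a, b, rfl⟩ := hsur w
    simp only [map_add, hlin, hv2, smul_zero, add_zero]
  · have hgN : ∀ x, g (N x) = N (g x) := by
      intro x
      have : g * N = N * g := by rw [hN, mul_sub, sub_mul, hg, mul_one, one_mul]
      exact congrArg (fun f : AddMonoid.End V => f x) this
    obtain ⟨a, b, hab⟩ := hsur (g v)
    refine ⟨a, b, fun w => ?_⟩
    obtain ⟨c, d, rfl⟩ := hsur w
    simp only [map_add, hlin, hgN, hab, hv2, smul_zero, add_zero]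
    module

theorem grpA_pow {m : ℕ} [Module (ZMod m) V] {N g : AddMonoid.End V} (hN : ∀ w, N (N w) = 0)
    {a b : ZMod m} (hg : ∀ w, g w = a • w + b • N w) (n : ℕ) (w : V) :
    (g ^ (n + 1)) w = a ^ (n + 1) • w + (((n + 1 : ℕ) : ZMod m) * a ^ n * b) • N w := by
  have hlin : ∀ (c : ZMod m) (x : V), N (c • x) = c • N x := fun c x => ZMod.map_smul N c x
  induction n with
  | zero => simp [hg]
  | succ n ih =>
    rw [pow_succ' g, grpA_mul_apply, ih, hg]
    simp only [map_add, hlin, hN, smul_zero, add_zero]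
    push_cast
    module

theorem sc_of_comm {m : ℕ} (hm : m.Prime) (h5 : 5 ≤ m) (hV : Plane m V) {u g : AddMonoid.End V}
    (h1 : u ≠ 1) (hu : u ^ m = 1) (hc : g * u = u * g) (hg : g ^ 12 = 1) : Sc g := by
  have : Fact m.Prime := ⟨hm⟩
  let _ : Module (ZMod m) V := AddCommGroup.zmodModule hV.2
  obtain ⟨⟨v, hv⟩, hN, hcom⟩ := grpA_core hV h1 hu
  obtain ⟨a, b, hab⟩ := hcom g hc
  have hp := grpA_pow hN hab 11
  rw [show 11 + 1 = 12 from rfl, hg] at hp
  have h2 := hp ((u - 1) v)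
  rw [hN, smul_zero, add_zero, AddMonoid.End.one_apply] at h2
  have ha : a ^ 12 = 1 := by
    have : (a ^ 12 - 1) • (u - 1) v = 0 := by rw [sub_smul, ← h2, one_smul, sub_self]
    exact sub_eq_zero.mp ((grpA_tf this).resolve_right hv)
  have ha0 : a ≠ 0 := by
    rintro rfl
    simp at ha
  have h12 : ((12 : ℕ) : ZMod m) ≠ 0 := by
    rw [Ne, ZMod.natCast_eq_zero_iff]
    intro hd
    have h3 : m ∣ 2 ^ 2 * 3 := hd
    rcases (Nat.Prime.dvd_mul hm).mp h3 with h | h
    · have := Nat.le_of_dvd (by norm_num) (hm.dvd_of_dvd_pow h)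
      omega
    · have := Nat.le_of_dvd (by norm_num) h
      omega
  have h3 := hp v
  rw [ha, one_smul, AddMonoid.End.one_apply, left_eq_add] at h3
  have hb : b = 0 := by
    have := (grpA_tf h3).resolve_right hv
    exact (mul_eq_zero.mp this).resolve_left (mul_ne_zero h12 (pow_ne_zero _ ha0))
  obtain ⟨n, rfl⟩ := ZMod.intCast_surjective a
  refine ⟨n, fun w => ?_⟩
  rw [hab, hb, zero_smul, add_zero, Int.cast_smul_eq_zsmul]

theorem grpA_anti {f g : AddMonoid.End V} (h : ∀ v, f (g v) = -g (f v)) (k : ℕ) (v : V) :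
    f ((g ^ k) v) = (-1 : ℤ) ^ k • (g ^ k) (f v) := by
  induction k with
  | zero => simp
  | succ k ih =>
    rw [pow_succ' g, grpA_mul_apply, grpA_mul_apply, h, ih, map_zsmul, pow_succ,
      mul_smul, neg_smul, one_smul, smul_neg]

theorem twist_trivial {G : Type*} [Group G] (ρ : G →* AddMonoid.End V) {m : ℕ} (hm : m.Prime)
    (h3 : 3 ≤ m) (hV : Plane m V) (ψ : V ≃+ V) (σ0 : G) (h1 : ρ σ0 ≠ 1) (hu : ρ σ0 ^ m = 1)
    (h : ∀ σ, Eqv (ρ σ) (ρ σ) ψ) (σ : G) (v : V) : ψ (ρ σ v) = ρ σ (ψ v) := by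
  have : Fact m.Prime := ⟨hm⟩
  let _ : Module (ZMod m) V := AddCommGroup.zmodModule hV.2
  have hodd : Odd m := hm.odd_of_ne_two (by omega)
  have h2 : (2 : ZMod m) ≠ 0 := by
    have : ((2 : ℕ) : ZMod m) ≠ 0 := by
      rw [Ne, ZMod.natCast_eq_zero_iff]
      intro hd
      have := Nat.le_of_dvd (by norm_num) hd
      omega
    simpa using this
  have hneg : ∀ x : V, x = -x → x = 0 := by
    intro x hx
    have : (2 : ZMod m) • x = 0 := by
      rw [two_smul]
      exact eq_neg_iff_add_eq_zero.mp hx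
    exact (grpA_tf this).resolve_left h2
  obtain ⟨⟨w, hw⟩, hN, hcom⟩ := grpA_core hV h1 hu
  let g : AddMonoid.End V := ψ.toAddMonoidHom
  have hg : ∀ x, g x = ψ x := fun _ => rfl
  have hc : g * ρ σ0 = ρ σ0 * g := by
    rcases h σ0 with h0 | h0
    · ext x
      exact h0 x
    · exfalso
      have h4 := grpA_anti (f := g) (g := ρ σ0) h0 m ((ρ σ0 - 1) w)
      rw [hu, hodd.neg_one_pow, neg_smul, one_smul, AddMonoid.End.one_apply,
        AddMonoid.End.one_apply] at h4
      have h5 := hneg _ h4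
      rw [hg] at h5
      exact hw (ψ.map_eq_zero_iff.mp h5)
  obtain ⟨a, b, hab⟩ := hcom g hc
  have ha0 : a ≠ 0 := by
    rintro rfl
    have := hab ((ρ σ0 - 1) w)
    rw [hN, zero_smul, smul_zero, add_zero, hg] at this
    exact hw (ψ.map_eq_zero_iff.mp this)
  have hgm : ∀ x, (g ^ m) x = a ^ m • x := by
    intro x
    obtain ⟨n, hn⟩ : ∃ n, m = n + 1 := ⟨m - 1, by omega⟩
    have := grpA_pow hN hab n x
    rw [← hn, ZMod.natCast_self, zero_mul, zero_mul, zero_smul, add_zero] at this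
    exact this
  rcases h σ with h0 | h0
  · exact h0 v
  · have hz : ∀ x, ρ σ x = 0 := by
      intro x
      have h4 := grpA_anti (f := ρ σ) (g := g) (fun y => by rw [hg, hg, h0, neg_neg]) m x
      rw [hodd.neg_one_pow, neg_smul, one_smul, hgm, hgm, ZMod.map_smul] at h4
      exact (grpA_tf (hneg _ h4)).resolve_left (pow_ne_zero _ ha0)
    rw [hz, hz, map_zero]

end Pool.Agent.P.MP_a60a76_nt.Fs
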