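import Pool.Agent.P.MP_a60a76_nt.Fs.Defs
import Pool.Agent.P.MP_a60a76_nt.Fs.Count

namespace Pool.Agent.P.MP_a60a76_nt.Fs

open Polynomial
open scoped NNReal

variable {R Ω : Type*} [CommRing R] [Field Ω] {ι : R →+* Ω}

theorem mem_K0_iff (z : Ω) : z ∈ K0 ι ↔ ∃ r s : R, z = ι r / ι s := by
  have h : Subring.closure (Set.range ι) = ι.range := Subring.closure_eq ι.range
  rw [K0, Subfield.mem_closure_iff, h]
  constructor
  · rintro ⟨_, ⟨r, rfl⟩, _, ⟨s, rfl⟩, rfl⟩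
    exact ⟨r, s, rfl⟩
  · rintro ⟨r, s, rfl⟩
    exact ⟨_, ⟨r, rfl⟩, _, ⟨s, rfl⟩, rfl⟩

theorem inv_range_mem_K0 (r : R) : ι r ∈ K0 ι := Subfield.subset_closure ⟨r, rfl⟩

theorem range_mem_sepF (r : R) : ι r ∈ sepF ι :=
  (separableClosure (K0 ι) Ω).algebraMap_mem ⟨ι r, inv_range_mem_K0 r⟩

theorem mem_sepF_of_pow {z : Ω} {n : ℕ} (hn : (n : Ω) ≠ 0) (h : z ^ n ∈ sepF ι) : z ∈ sepF ι := by
  by_cases hz : z = 0
  · rw [hz]; exact zero_mem _
  let c : separableClosure (K0 ι) Ω := ⟨z ^ n, h⟩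
  have hc : c ≠ 0 := fun h0 => pow_ne_zero n hz (congrArg Subtype.val h0)
  have hn' : (n : separableClosure (K0 ι) Ω) ≠ 0 := fun h0 =>
    hn (by simpa using congrArg (algebraMap (separableClosure (K0 ι) Ω) Ω) h0)
  have hs : IsSeparable (separableClosure (K0 ι) Ω) z :=
    (separable_X_pow_sub_C c hn' hc).of_dvd (minpoly.dvd _ z (by simp [c]))
  exact IsSeparable.of_algebra_isSeparable_of_isSeparable (K0 ι) hs

theorem inv_isAlgebraic (hι : Clos ι) : Algebra.IsAlgebraic (K0 ι) Ω := by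
  refine ⟨fun z => ?_⟩
  obtain ⟨p, hp, hz⟩ := hι.alg z
  let φ : R →+* K0 ι := ι.codRestrict (K0 ι) inv_range_mem_K0
  have hφ : Function.Injective φ := fun x y h => hι.inj (congrArg Subtype.val h)
  refine ⟨p.map φ, (Polynomial.map_ne_zero_iff hφ).2 hp, ?_⟩
  rw [aeval_def, eval₂_map]
  exact hz

theorem mem_K0_of_fixed (hι : Clos ι) {z : Ω} (hz : z ∈ sepF ι) (h : ∀ σ ∈ Aut ι, σ z = z) :
    z ∈ K0 ι := by
  have := hι.closed
  have := inv_isAlgebraic hι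
  have : IsAlgClosure (K0 ι) Ω := ⟨inferInstance, inferInstance⟩
  have hs : (minpoly (K0 ι) z).Separable := hz
  have ha : IsAlgebraic (K0 ι) z := Algebra.IsAlgebraic.isAlgebraic z
  have h1 : ∀ y ∈ ((minpoly (K0 ι) z).map (algebraMap (K0 ι) Ω)).roots, y = z := by
    intro y hy
    obtain ⟨σ, hσ⟩ := minpoly.exists_algEquiv_of_root' ha (mem_aroots.1 hy).2
    rw [← hσ]
    exact h σ.toRingEquiv fun r => σ.commutes ⟨ι r, inv_range_mem_K0 r⟩
  have h2 := nodup_roots (hs.map (f := algebraMap (K0 ι) Ω))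
  have h3 : ((minpoly (K0 ι) z).map (algebraMap (K0 ι) Ω)).roots ≤ {z} :=
    (Multiset.le_iff_subset h2).2 fun y hy => Multiset.mem_singleton.2 (h1 y hy)
  have h4 := Multiset.card_le_card h3
  rw [← (IsAlgClosed.splits _).natDegree_eq_card_roots, natDegree_map, Multiset.card_singleton]
    at h4
  obtain ⟨w, rfl⟩ := minpoly.natDegree_eq_one_iff.1
    (le_antisymm h4 (minpoly.natDegree_pos ha.isIntegral))
  exact w.2

theorem mem_range_of_integral [IsDomain R] [IsIntegrallyClosed R] (hι : Clos ι) {z : Ω}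
    (hz : z ∈ K0 ι) (hi : ι.IsIntegralElem z) : z ∈ Set.range ι := by
  obtain ⟨r, s, rfl⟩ := (mem_K0_iff z).1 hz
  let φ : FractionRing R →+* Ω := IsFractionRing.lift hι.inj
  have hφ : ∀ x, φ (algebraMap R (FractionRing R) x) = ι x := IsFractionRing.lift_algebraMap hι.inj
  have e : φ (algebraMap R _ r / algebraMap R _ s) = ι r / ι s := by rw [map_div₀, hφ, hφ]
  obtain ⟨p, hp, h0⟩ := hi
  have h1 : IsIntegral R (algebraMap R (FractionRing R) r / algebraMap R _ s) := by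
    refine ⟨p, hp, φ.injective ?_⟩
    rw [hom_eval₂, e, map_zero, ← h0]
    congr 1
    exact RingHom.ext hφ
  obtain ⟨y, hy⟩ := IsIntegrallyClosed.isIntegral_iff.1 h1
  exact ⟨y, by rw [← hφ, hy, e]⟩

theorem tors_sep (hι : Clos ι) (h2 : (2 : Ω) ≠ 0) {a b : R} (hd : dsc a b ≠ 0) {m : ℕ}
    (hm : (m : Ω) ≠ 0) {P : Pt (ι a) (ι b)} (hP : P ∈ Tors m (ι a) (ι b)) :
    xc P ∈ sepF ι ∧ yc P ∈ sepF ι := by
  have := hι.closed
  have : IsSepClosed (separableClosure (K0 ι) Ω) := IsSepClosure.sep_closed (K0 ι)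
  let σ := algebraMap (separableClosure (K0 ι) Ω) Ω
  let a' : separableClosure (K0 ι) Ω := ⟨ι a, range_mem_sepF a⟩
  let b' : separableClosure (K0 ι) Ω := ⟨ι b, range_mem_sepF b⟩
  have h2' : (2 : separableClosure (K0 ι) Ω) ≠ 0 := fun h0 =>
    h2 (by simpa only [map_ofNat, map_zero] using congrArg σ h0)
  have hm' : (m : separableClosure (K0 ι) Ω) ≠ 0 := fun h0 =>
    hm (by simpa only [map_natCast, map_zero] using congrArg σ h0)
  have hd' : dsc a' b' ≠ 0 := fun h0 => hd (hι.inj (by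
    have := congrArg σ h0
    simp only [dsc, map_add, map_mul, map_pow, map_ofNat, map_zero] at this ⊢
    exact this))
  obtain ⟨e, he⟩ := tw_equiv h2' hd' hm' σ 1 one_ne_zero (a' := ι a) (b' := ι b)
    (by rw [one_pow, one_mul]; rfl) (by rw [one_pow, one_mul]; rfl)
  obtain ⟨Q, hQ⟩ := e.surjective ⟨P, hP⟩
  have h := he Q
  rw [hQ, one_pow, one_pow, one_mul, one_mul] at h
  exact ⟨h.1 ▸ (xc (Q : Pt a' b')).2, h.2 ▸ (yc (Q : Pt a' b')).2⟩

end Pool.Agent.P.MP_a60a76_nt.Fs
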