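import Pool.Agent.P.MP_a60a76_nt.Fs.Defs
import Pool.Agent.P.MP_a60a76_nt.Fs.Fold

namespace Pool.Agent.P.MP_a60a76_nt.Fs

open Polynomial
open scoped NNReal

variable {K : Type*} [Field K]

theorem Node_hom {c e U1 Z1 U2 Z2 U3 Z3 U4 Z4 : K} (hc : c ≠ 0)
    (h : ASrel (3 * c ^ 2 * (e - 1)) (-2 * c ^ 3 * (e - 1)) (c * (U1 + Z1)) Z1 (c * (U2 + Z2)) Z2
      (c * (U3 + Z3)) Z3 (c * (U4 + Z4)) Z4) :
    ∃ t : K, (U1 * Z2 - U2 * Z1) ^ 2 = t * (Z3 * Z4) ∧
      U1 * U2 * (2 * U1 * Z2 + 2 * U2 * Z1 + 12 * Z1 * Z2) +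
        e * Z1 * Z2 * (6 * U1 * Z2 + 6 * U2 * Z1 + 4 * Z1 * Z2) = t * (U3 * Z4 + U4 * Z3) ∧
      U1 ^ 2 * U2 ^ 2 - e * (6 * U1 * U2 * Z1 * Z2 + 4 * Z1 * Z2 * (U1 * Z2 + U2 * Z1) +
        12 * Z1 ^ 2 * Z2 ^ 2 - 9 * e * Z1 ^ 2 * Z2 ^ 2) = t * (U3 * U4) := by
  obtain ⟨t, -, h0, h1, h2⟩ := h
  obtain ⟨s, rfl⟩ : ∃ s, t = c ^ 2 * s := ⟨t / c ^ 2, by field_simp⟩
  refine ⟨s, ?_, ?_, ?_⟩
  · apply mul_left_cancel₀ (pow_ne_zero 2 hc)
    linear_combination h0
  · apply mul_left_cancel₀ (pow_ne_zero 3 hc)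
    linear_combination h1 - 2 * c * h0
  · apply mul_left_cancel₀ (pow_ne_zero 4 hc)
    linear_combination h2 - c * h1 + c ^ 2 * h0

theorem Node_two {v : Valuation K ℝ≥0} {m : ℕ} {a b : K} (h : Mult v m a b) : (2 : K) ≠ 0 := by
  intro h0
  have := h.two
  rw [h0, map_zero] at this
  exact zero_ne_one this

theorem Node_three {v : Valuation K ℝ≥0} {m : ℕ} {a b : K} (h : Mult v m a b) : (3 : K) ≠ 0 := by
  intro h0
  have := h.three
  rw [h0, map_zero] at this
  exact zero_ne_one this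

theorem Node_cc {v : Valuation K ℝ≥0} {m : ℕ} {a b : K} (h : Mult v m a b) : cc a b ≠ 0 :=
  div_ne_zero (mul_ne_zero (neg_ne_zero.2 (Node_three h)) h.b0) (mul_ne_zero (Node_two h) h.a0)

/-- The homogeneous coordinate centred at the node. -/
noncomputable def NodeU {a b : K} (P : Pt a b) : K := xp P / cc a b - zp P

theorem NodeU_of_ne {a b : K} {P : Pt a b} (hP : P ≠ 0) : NodeU P = zz P := by
  rw [NodeU, xp_of_ne hP, zp_of_ne hP, zz]

theorem Node_rel {v : Valuation K ℝ≥0} {m : ℕ} {a b : K} (h : Mult v m a b) (P Q : Pt a b) :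
    ∃ t : K, (NodeU P * zp Q - NodeU Q * zp P) ^ 2 = t * (zp (P + Q) * zp (P - Q)) ∧
      NodeU P * NodeU Q * (2 * NodeU P * zp Q + 2 * NodeU Q * zp P + 12 * zp P * zp Q) +
        eps a b * zp P * zp Q * (6 * NodeU P * zp Q + 6 * NodeU Q * zp P + 4 * zp P * zp Q) =
          t * (NodeU (P + Q) * zp (P - Q) + NodeU (P - Q) * zp (P + Q)) ∧
      NodeU P ^ 2 * NodeU Q ^ 2 - eps a b * (6 * NodeU P * NodeU Q * zp P * zp Q +
        4 * zp P * zp Q * (NodeU P * zp Q + NodeU Q * zp P) +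
        12 * zp P ^ 2 * zp Q ^ 2 - 9 * eps a b * zp P ^ 2 * zp Q ^ 2) =
          t * (NodeU (P + Q) * NodeU (P - Q)) := by
  have h2 := Node_two h
  have h3 := Node_three h
  have ha := h.a0
  have hb := h.b0
  have hc := Node_cc h
  have h27 : (27 : K) ≠ 0 := by
    rw [show (27 : K) = 3 ^ 3 by norm_num]
    exact pow_ne_zero _ h3
  have e1 : 3 * cc a b ^ 2 * (eps a b - 1) = a := by
    simp only [cc, eps, dsc]
    field_simp
    ring
  have e2 : -2 * cc a b ^ 3 * (eps a b - 1) = b := by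
    simp only [cc, eps, dsc]
    field_simp
    ring
  have e3 : ∀ R : Pt a b, cc a b * (NodeU R + zp R) = xp R := by
    intro R
    rw [NodeU]
    field_simp
    ring
  refine Node_hom hc ?_
  rw [e1, e2, e3, e3, e3, e3]
  exact as_rel h2 P Q

theorem unit_diff_node {v : Valuation K ℝ≥0} {m : ℕ} {a b : K} (h : Mult v m a b)
    {P Q : Pt a b} (hP : P ∈ Tors m a b) (hQ : Q ∈ Tors m a b) (hP0 : P ≠ 0) (hQ0 : Q ≠ 0)
    (h1 : P ≠ Q) (h1' : P ≠ -Q) (hzP : v (zz P) = 1) (hzQ : v (zz Q) = 1) :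
    v (xc P - xc Q) = v (cc a b) := by
  have hA : P + Q ≠ 0 := fun h0 => h1' (add_eq_zero_iff_eq_neg.1 h0)
  have hS : P - Q ≠ 0 := sub_ne_zero.2 h1
  obtain ⟨t, e0, -, e2⟩ := Node_rel h P Q
  simp only [NodeU_of_ne hP0, NodeU_of_ne hQ0, NodeU_of_ne hA, NodeU_of_ne hS, zp_of_ne hP0,
    zp_of_ne hQ0, zp_of_ne hA, zp_of_ne hS, mul_one, one_pow] at e0 e2
  have hP1 : zz P ∈ v.integer := hzP.le
  have hQ1 : zz Q ∈ v.integer := hzQ.le
  have he : eps a b ∈ v.integer := h.lt.le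
  have hn : ∀ n : ℕ, (n : K) ∈ v.integer := fun n => natCast_mem _ n
  have hw : v (6 * zz P * zz Q + 4 * (zz P + zz Q) + 12 - 9 * eps a b) ≤ 1 := by
    change _ ∈ v.integer
    exact sub_mem (add_mem (add_mem (mul_mem (mul_mem (hn 6) hP1) hQ1)
      (mul_mem (hn 4) (add_mem hP1 hQ1))) (hn 12)) (mul_mem (hn 9) he)
  have hs : v (t * (zz (P + Q) * zz (P - Q))) = 1 := by
    have h5 : v (zz P ^ 2 * zz Q ^ 2) = 1 := by
      rw [map_mul, map_pow, map_pow, hzP, hzQ, one_pow, one_mul]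
    rw [← e2, ← h5]
    refine Valuation.map_sub_eq_of_lt_left _ ?_
    rw [h5, map_mul]
    exact (mul_le_of_le_one_right' hw).trans_lt h.lt
  have h6 : 1 ≤ v t := by
    rw [← hs, map_mul, map_mul]
    exact mul_le_of_le_one_right'
      (mul_le_one' (zz_le_one h (add_mem hP hQ)) (zz_le_one h (sub_mem hP hQ)))
  have h7 : v (zz P - zz Q) = 1 := by
    refine le_antisymm (sub_mem hP1 hQ1 : zz P - zz Q ∈ v.integer) ?_
    rw [← e0, map_pow] at h6
    exact (one_le_pow_iff_of_nonneg zero_le two_ne_zero).1 h6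
  have h8 : xc P - xc Q = cc a b * (zz P - zz Q) := by
    have := Node_cc h
    simp only [zz]
    field_simp
    ring
  rw [h8, map_mul, h7, mul_one]

theorem Node_cheb {k : Type*} [CommRing k] [Nontrivial k] (n : ℕ) :
    (Chebyshev.C k (n + 1 : ℕ)).Monic ∧ (Chebyshev.C k (n + 1 : ℕ)).natDegree = n + 1 ∧
      (Chebyshev.C k (n : ℕ)).natDegree ≤ n := by
  induction n with
  | zero =>
    simp only [Nat.zero_add, Nat.cast_one, Nat.cast_zero, Chebyshev.C_one, Chebyshev.C_zero]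
    exact ⟨monic_X, natDegree_X, (natDegree_ofNat 2).le⟩
  | succ n ih =>
    obtain ⟨h1, h2, h3⟩ := ih
    have e : Chebyshev.C k (n + 1 + 1 : ℕ) = X * Chebyshev.C k (n + 1 : ℕ) - Chebyshev.C k (n : ℕ) := by
      push_cast
      rw [add_assoc, one_add_one_eq_two, Chebyshev.C_add_two]
    have h4 : (X * Chebyshev.C k (n + 1 : ℕ)).Monic := monic_X.mul h1
    have h5 : (X * Chebyshev.C k (n + 1 : ℕ)).natDegree = n + 1 + 1 := by
      rw [monic_X.natDegree_mul h1, natDegree_X, h2, add_comm]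
    have h6 : (Chebyshev.C k (n : ℕ)).natDegree < (X * Chebyshev.C k (n + 1 : ℕ)).natDegree := by
      omega
    rw [e]
    exact ⟨h4.sub_of_left (degree_lt_degree h6), by rw [natDegree_sub_eq_left_of_natDegree_lt h6, h5],
      h2.le⟩

theorem exists_node {v : Valuation K ℝ≥0} {m : ℕ} {a b : K} (h : Mult v m a b) (hodd : Odd m)
    (h3 : 3 ≤ m) (hc : Nat.card (Tors m a b) = m ^ 2) :
    ∃ P ∈ Tors m a b, P ≠ 0 ∧ v (zz P) < 1 := by
  classical
  have _ := hodd
  by_contra hcon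
  have hone : ∀ P ∈ Tors m a b, P ≠ 0 → v (zz P) = 1 := by
    intro P hP hP0
    refine le_antisymm (zz_le_one h hP) (not_lt.1 fun hlt => hcon ⟨P, hP, hP0, hlt⟩)
  have hU : ∀ P ∈ Tors m a b, NodeU P ≠ 0 := by
    intro P hP
    by_cases hP0 : P = 0
    · rw [hP0, NodeU, xp_zero, zp_zero, sub_zero]
      exact one_div_ne_zero (Node_cc h)
    · rw [NodeU_of_ne hP0]
      intro h0
      have := hone P hP hP0
      rw [h0, map_zero] at this
      exact zero_ne_one this
  have hw : ∀ P : Tors m a b, zp (P : Pt a b) / NodeU (P : Pt a b) ∈ v.valuationSubring := by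
    intro P
    rw [Valuation.mem_valuationSubring_iff]
    by_cases hP0 : (P : Pt a b) = 0
    · rw [hP0, zp_zero, zero_div, map_zero]
      exact zero_le
    · rw [NodeU_of_ne hP0, zp_of_ne hP0, map_div₀, hone _ P.2 hP0, map_one, div_one]
  let W : Tors m a b → v.valuationSubring := fun P => ⟨_, hw P⟩
  let E : v.valuationSubring := ⟨eps a b, h.lt.le⟩
  let r := IsLocalRing.residue v.valuationSubring
  have hr : ∀ x : v.valuationSubring, r x = 0 ↔ v x < 1 := fun x => by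
    rw [IsLocalRing.residue_eq_zero_iff, Valuation.mem_maximalIdeal_iff]
  have hE : r E = 0 := (hr E).2 h.lt
  have hrel : ∀ P Q : Tors m a b,
      (1 - E * (6 * W P * W Q + 4 * W P * W Q * (W P + W Q) + 12 * W P ^ 2 * W Q ^ 2 -
        9 * E * W P ^ 2 * W Q ^ 2)) * (W (P + Q) + W (P - Q)) =
      2 * W P + 2 * W Q + 12 * W P * W Q +
        E * W P * W Q * (6 * W P + 6 * W Q + 4 * W P * W Q) := by
    intro P Q
    obtain ⟨t, -, e1, e2⟩ := Node_rel h (P : Pt a b) (Q : Pt a b)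
    have u1 := hU _ P.2
    have u2 := hU _ Q.2
    have u3 : NodeU ((P : Pt a b) + (Q : Pt a b)) ≠ 0 := hU _ (P + Q).2
    have u4 : NodeU ((P : Pt a b) - (Q : Pt a b)) ≠ 0 := hU _ (P - Q).2
    apply Subtype.ext
    change (1 - eps a b * (6 * (zp (P : Pt a b) / NodeU (P : Pt a b)) *
        (zp (Q : Pt a b) / NodeU (Q : Pt a b)) +
        4 * (zp (P : Pt a b) / NodeU (P : Pt a b)) * (zp (Q : Pt a b) / NodeU (Q : Pt a b)) *
          (zp (P : Pt a b) / NodeU (P : Pt a b) + zp (Q : Pt a b) / NodeU (Q : Pt a b)) +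
        12 * (zp (P : Pt a b) / NodeU (P : Pt a b)) ^ 2 *
          (zp (Q : Pt a b) / NodeU (Q : Pt a b)) ^ 2 -
        9 * eps a b * (zp (P : Pt a b) / NodeU (P : Pt a b)) ^ 2 *
          (zp (Q : Pt a b) / NodeU (Q : Pt a b)) ^ 2)) *
        (zp ((P : Pt a b) + (Q : Pt a b)) / NodeU ((P : Pt a b) + (Q : Pt a b)) +
          zp ((P : Pt a b) - (Q : Pt a b)) / NodeU ((P : Pt a b) - (Q : Pt a b))) =
      2 * (zp (P : Pt a b) / NodeU (P : Pt a b)) + 2 * (zp (Q : Pt a b) / NodeU (Q : Pt a b)) +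
        12 * (zp (P : Pt a b) / NodeU (P : Pt a b)) * (zp (Q : Pt a b) / NodeU (Q : Pt a b)) +
        eps a b * (zp (P : Pt a b) / NodeU (P : Pt a b)) * (zp (Q : Pt a b) / NodeU (Q : Pt a b)) *
          (6 * (zp (P : Pt a b) / NodeU (P : Pt a b)) + 6 * (zp (Q : Pt a b) / NodeU (Q : Pt a b)) +
            4 * (zp (P : Pt a b) / NodeU (P : Pt a b)) * (zp (Q : Pt a b) / NodeU (Q : Pt a b)))
    generalize NodeU (P : Pt a b) = U1 at *
    generalize NodeU (Q : Pt a b) = U2 at *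
    generalize NodeU ((P : Pt a b) + (Q : Pt a b)) = U3 at *
    generalize NodeU ((P : Pt a b) - (Q : Pt a b)) = U4 at *
    generalize zp (P : Pt a b) = Z1 at *
    generalize zp (Q : Pt a b) = Z2 at *
    generalize zp ((P : Pt a b) + (Q : Pt a b)) = Z3 at *
    generalize zp ((P : Pt a b) - (Q : Pt a b)) = Z4 at *
    field_simp
    linear_combination (U3 * Z4 + U4 * Z3) * e2 - (U3 * U4) * e1
  let c : Tors m a b → IsLocalRing.ResidueField v.valuationSubring := fun P => 12 * r (W P) + 2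
  have hc0 : c 0 = 2 := by
    have : W 0 = 0 := Subtype.ext (by simp [W])
    simp only [c, this, map_zero, mul_zero, zero_add]
  have hcr : ∀ P Q, c (P + Q) + c (P - Q) = c P * c Q := by
    intro P Q
    have := congrArg r (hrel P Q)
    simp only [map_mul, map_add, map_sub, map_one, map_pow, map_ofNat, hE] at this
    simp only [c]
    linear_combination 12 * this
  have hch : ∀ (P : Tors m a b) (n : ℕ), c (n • P) = (Chebyshev.C _ (n : ℕ)).eval (c P) ∧
      c ((n + 1) • P) = (Chebyshev.C _ (n + 1 : ℕ)).eval (c P) := by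
    intro P n
    induction n with
    | zero => simp [hc0]
    | succ n ih =>
      refine ⟨ih.2, ?_⟩
      have e := hcr ((n + 1) • P) P
      rw [← succ_nsmul, succ_nsmul P n, add_sub_cancel_right, ← succ_nsmul, ih.1, ih.2] at e
      have e2 : ((n + 1 + 1 : ℕ) : ℤ) = (n : ℤ) + 2 := by push_cast; ring
      rw [e2, Chebyshev.C_add_two, eval_sub, eval_mul, eval_X]
      rw [Nat.cast_add_one] at e
      linear_combination e
  obtain ⟨n, rfl⟩ : ∃ n, m = n + 1 := ⟨m - 1, by omega⟩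
  obtain ⟨hm1, hm2, -⟩ := Node_cheb (k := IsLocalRing.ResidueField v.valuationSubring) n
  set F := Chebyshev.C (IsLocalRing.ResidueField v.valuationSubring) (n + 1 : ℕ) - C 2 with hF
  have hFd : F.natDegree = n + 1 := by rw [hF, natDegree_sub_C, hm2]
  have hF0 : F ≠ 0 := by
    intro h0
    rw [h0, natDegree_zero] at hFd
    omega
  have : Finite (Tors (n + 1) a b) := Nat.finite_of_card_ne_zero (by rw [hc]; positivity)
  have := Fintype.ofFinite (Tors (n + 1) a b)
  have hcount := Finset.card_le_mul_card_image_of_maps_to (f := c)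
    (s := (Finset.univ : Finset (Tors (n + 1) a b)).erase 0) (t := F.roots.toFinset) ?_ 2 ?_
  · rw [Finset.card_erase_of_mem (Finset.mem_univ _), Finset.card_univ, ← Nat.card_eq_fintype_card,
      hc] at hcount
    have h4 : F.roots.toFinset.card ≤ n + 1 :=
      (Multiset.toFinset_card_le _).trans (hFd ▸ card_roots' F)
    have h5 : (n + 1) ^ 2 ≤ 2 * (n + 1) + 1 := by omega
    nlinarith
  · intro P _
    rw [Multiset.mem_toFinset, mem_roots hF0, IsRoot, hF, eval_sub, eval_C, ← (hch P (n + 1)).1,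
      tors_smul, hc0, sub_self]
  · intro y _
    rcases (Finset.filter (fun P => c P = y)
      ((Finset.univ : Finset (Tors (n + 1) a b)).erase 0)).eq_empty_or_nonempty with he | ⟨Q, hQ⟩
    · rw [he]
      simp
    refine le_trans (Finset.card_le_card (t := {Q, -Q}) ?_) Finset.card_le_two
    intro P hP
    rw [Finset.mem_filter, Finset.mem_erase] at hP hQ
    have hP0 : (P : Pt a b) ≠ 0 := fun h0 => hP.1.1 (Subtype.ext h0)
    have hQ0 : (Q : Pt a b) ≠ 0 := fun h0 => hQ.1.1 (Subtype.ext h0)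
    by_contra hne
    rw [Finset.mem_insert, Finset.mem_singleton, not_or] at hne
    have zP := hone _ P.2 hP0
    have zQ := hone _ Q.2 hQ0
    have h5 := unit_diff_node h P.2 Q.2 hP0 hQ0 (fun e => hne.1 (Subtype.ext e))
      (fun e => hne.2 (Subtype.ext e)) zP zQ
    have h6 : r (12 * (W P - W Q)) = 0 := by
      have := hP.2.trans hQ.2.symm
      simp only [c] at this
      rw [map_mul, map_sub, map_ofNat]
      linear_combination this
    rw [hr] at h6
    have zP0 : zz (P : Pt a b) ≠ 0 := NodeU_of_ne hP0 ▸ hU _ P.2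
    have zQ0 : zz (Q : Pt a b) ≠ 0 := NodeU_of_ne hQ0 ▸ hU _ Q.2
    have h7 : xc (P : Pt a b) - xc (Q : Pt a b) = cc a b * (zz (P : Pt a b) - zz (Q : Pt a b)) := by
      have := Node_cc h
      simp only [zz]
      field_simp
      ring
    have h8 : ((12 * (W P - W Q) : v.valuationSubring) : K) * (zz (P : Pt a b) * zz (Q : Pt a b)) *
        cc a b = -(2 ^ 2 * 3 * (xc (P : Pt a b) - xc (Q : Pt a b))) := by
      change 12 * (zp (P : Pt a b) / NodeU (P : Pt a b) - zp (Q : Pt a b) / NodeU (Q : Pt a b)) *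
        _ * _ = _
      rw [NodeU_of_ne hP0, NodeU_of_ne hQ0, zp_of_ne hP0, zp_of_ne hQ0, h7]
      field_simp
      ring
    have h9 := congrArg v h8
    rw [Valuation.map_neg, map_mul, map_mul, map_mul, map_mul, map_mul, map_pow, zP, zQ, h.two,
      h.three, h5, one_pow, mul_one, mul_one] at h9
    exact h6.ne (mul_right_cancel₀ ((Valuation.ne_zero_iff v).2 (Node_cc h)) h9)

end Pool.Agent.P.MP_a60a76_nt.Fs
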