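import Pool.Agent.P.MP_a60a76_nt.Fs.Defs
import Pool.Agent.P.MP_a60a76_nt.Fs.FoldPow
import Pool.Agent.P.MP_a60a76_nt.Fs.Node
import Pool.Agent.P.MP_a60a76_nt.Fs.Inv
import Pool.Agent.P.MP_a60a76_nt.Fs.GrpA

namespace Pool.Agent.P.MP_a60a76_nt.Fs

open Polynomial
open scoped NNReal

variable {R Ω : Type*} [CommRing R] [Field Ω]

theorem orbit_zz {m : ℕ} {a b : Ω} {σ : RingAut Ω} (hσ : σ a = a ∧ σ b = b) (Q : Tors m a b) :
    zz (rho m a b σ Q : Pt a b) = σ (zz (Q : Pt a b)) := by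
  simp only [zz, cc, xc_rho m hσ, map_sub, map_div₀, map_mul, map_neg, map_ofNat, map_one, hσ.1,
    hσ.2]

theorem orbit_dvd {ι : R →+* Ω} (hι : Clos ι) (L : Loc ι) {m : ℕ} {a b : R}
    (h : Mult L.v m (ι a) (ι b)) (hm : m.Prime) (h3 : 3 ≤ m) {N : ℕ}
    (hN : L.v (eps (ι a) (ι b)) = (1 / 2 : ℝ≥0) ^ N) (hmN : ¬ m ∣ N) (P : Tors m (ι a) (ι b))
    (hP0 : P ≠ 0) (hz : L.v (zz (P : Pt (ι a) (ι b))) < 1) :
    m ∣ Nat.card {Q | ∃ σ ∈ L.D, rho m (ι a) (ι b) σ P = Q} := by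
  classical
  have := hι.closed
  have h2 : (2 : Ω) ≠ 0 := fun e => by simpa [e] using h.two
  have hm0 : (m : Ω) ≠ 0 := fun e => by simpa [e] using h.vm
  have hd : dsc a b ≠ 0 := fun e => h.d0 (by
    have := congrArg ι e
    simpa [dsc, map_ofNat] using this)
  have := finite_tors h2 h.d0 hm0
  have hfix : ∀ σ ∈ L.D, σ (ι a) = ι a ∧ σ (ι b) = ι b := fun σ hσ => ⟨L.le hσ a, L.le hσ b⟩
  set O := {Q | ∃ σ ∈ L.D, rho m (ι a) (ι b) σ P = Q} with hO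
  have hf : O.Finite := O.toFinite
  have hmem : ∀ σ ∈ L.D, ∀ Q ∈ hf.toFinset, rho m (ι a) (ι b) σ Q ∈ hf.toFinset := by
    intro σ hσ Q hQ
    obtain ⟨τ, hτ, rfl⟩ := hf.mem_toFinset.1 hQ
    exact hf.mem_toFinset.2 ⟨σ * τ, L.D.mul_mem hσ hτ, by
      rw [rho_mul m (hfix σ hσ) (hfix τ hτ)]; rfl⟩
  have hinv : ∀ σ ∈ L.D, ∀ τ ∈ L.D, σ * τ = 1 → ∀ Q,
      rho m (ι a) (ι b) σ (rho m (ι a) (ι b) τ Q) = Q := by
    intro σ hσ τ hτ e Q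
    have := rho_mul m (hfix σ hσ) (hfix τ hτ)
    rw [e, rho_one] at this
    exact (DFunLike.congr_fun this Q).symm
  obtain ⟨i, hi0, him, hi⟩ := dl_pow h hm h3 P.2 (fun e => hP0 (Subtype.ext e)) hz
  have hv : L.v (∏ Q ∈ hf.toFinset, zz (Q : Pt (ι a) (ι b))) =
      L.v (zz (P : Pt (ι a) (ι b))) ^ hf.toFinset.card := by
    rw [map_prod, ← Finset.prod_const]
    refine Finset.prod_congr rfl fun Q hQ => ?_
    obtain ⟨τ, hτ, rfl⟩ := hf.mem_toFinset.1 hQ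
    rw [orbit_zz (hfix τ hτ), L.inv τ hτ]
  have hv' : L.v (∏ Q ∈ hf.toFinset, zz (Q : Pt (ι a) (ι b))) ^ m =
      (1 / 2 : ℝ≥0) ^ (N * i * hf.toFinset.card) := by
    rw [hv, ← pow_mul, mul_comm, pow_mul, hi, hN, ← pow_mul, ← pow_mul, mul_assoc]
  obtain ⟨n, hn⟩ := L.fix (∏ Q ∈ hf.toFinset, zz (Q : Pt (ι a) (ι b)))
    (Subfield.prod_mem _ fun Q _ => sub_mem (div_mem (tors_sep hι h2 hd hm0 Q.2).1
      (div_mem (mul_mem (neg_mem (ofNat_mem _ 3)) (range_mem_sepF b))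
        (mul_mem (ofNat_mem _ 2) (range_mem_sepF a)))) (one_mem _))
    (fun e => by
      rw [e, map_zero, zero_pow hm.ne_zero] at hv'
      exact absurd hv'.symm (pow_ne_zero _ (by norm_num)))
    (fun σ hσ => by
      rw [map_prod]
      exact Finset.prod_nbij' (fun Q => rho m (ι a) (ι b) σ Q) (fun Q => rho m (ι a) (ι b) σ⁻¹ Q)
        (hmem σ hσ) (hmem _ (L.D.inv_mem hσ))
        (fun Q _ => hinv _ (L.D.inv_mem hσ) _ hσ (inv_mul_cancel σ) Q)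
        (fun Q _ => hinv _ hσ _ (L.D.inv_mem hσ) (mul_inv_cancel σ) Q)
        fun Q _ => (orbit_zz (hfix σ hσ) Q).symm)
  rw [hn, ← zpow_natCast, ← zpow_mul, ← zpow_natCast] at hv'
  have e := zpow_right_injective₀ (by norm_num) (by norm_num) hv'
  have hdvd : m ∣ N * i * hf.toFinset.card := Int.natCast_dvd_natCast.1 ⟨n, by rw [← e, mul_comm]⟩
  rw [Nat.card_coe_set_eq, Set.ncard_eq_toFinset_card O hf]
  refine ((hm.dvd_mul.1 hdvd).resolve_left fun h1 => ?_)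
  exact (hm.dvd_mul.1 h1).elim hmN (Nat.not_dvd_of_pos_of_lt hi0 him)

theorem exists_unip {ι : R →+* Ω} (hι : Clos ι) (L : Loc ι) {m : ℕ} {a b : R}
    (h : Mult L.v m (ι a) (ι b)) (hm : m.Prime) (h3 : 3 ≤ m) {N : ℕ}
    (hN : L.v (eps (ι a) (ι b)) = (1 / 2 : ℝ≥0) ^ N) (hmN : ¬ m ∣ N) :
    ∃ σ ∈ L.D, rho m (ι a) (ι b) σ ≠ 1 ∧ rho m (ι a) (ι b) σ ^ m = 1 := by
  have := hι.closed
  have h2 : (2 : Ω) ≠ 0 := fun e => by simpa [e] using h.two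
  have hm0 : (m : Ω) ≠ 0 := fun e => by simpa [e] using h.vm
  have := finite_tors h2 h.d0 hm0
  obtain ⟨P, hP, hP0, hz⟩ := exists_node h (hm.odd_of_ne_two (by omega)) h3 (card_tors h2 h.d0 hm0)
  have h1 := orbit_dvd hι L h hm h3 hN hmN ⟨P, hP⟩ (fun e => hP0 (congrArg Subtype.val e)) hz
  obtain ⟨σ, hσ⟩ := cauchy_orbit
    (rhoHom m (ι a) (ι b) L.D fun σ hσ => ⟨L.le hσ a, L.le hσ b⟩) hm ⟨P, hP⟩
    (by simpa using h1)
  exact ⟨σ, σ.2, hσ⟩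

end Pool.Agent.P.MP_a60a76_nt.Fs
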