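import Pool.Agent.P.MP_a60a76_nt.Fs.Defs

namespace Pool.Agent.P.MP_a60a76_nt.Fs

open Polynomial
open scoped NNReal

theorem placeExt_core {F Ω K : Type*} [Field F] [Field Ω] [Algebra F Ω] [IsAlgClosure F Ω]
    [NontriviallyNormedField K] [IsUltrametricDist K] [CompleteSpace K] [Algebra F K]
    (w : Valuation F ℝ≥0) (h1 : ∀ x, ‖algebraMap F K x‖ = w x)
    (h2 : ∀ k : K, ∃ x, ‖k‖ = w x) :
    ∃ (v : Valuation Ω ℝ≥0) (D : Subgroup (Ω ≃ₐ[F] Ω)), (∀ x, v (algebraMap F Ω x) = w x) ∧
      (∀ σ ∈ D, ∀ z, v (σ z) = v z) ∧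
      ∀ z, IsSeparable F z → (∀ σ ∈ D, σ z = z) → ∃ x, v z = w x := by
  let L := AlgebraicClosure K
  have : Algebra.IsAlgebraic F Ω := IsAlgClosure.isAlgebraic
  have : IsAlgClosed Ω := IsAlgClosure.isAlgClosed F
  let e : Ω →ₐ[F] L := IsAlgClosed.lift
  let n : L → ℝ≥0 := fun z => ⟨spectralNorm K L z, spectralNorm_nonneg z⟩
  let v : Valuation Ω ℝ≥0 :=
    { toFun := fun z => n (e z)
      map_zero' := by
        apply NNReal.eq
        change spectralNorm K L (e 0) = 0
        rw [map_zero, spectralNorm_zero]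
      map_one' := by
        apply NNReal.eq
        change spectralNorm K L (e 1) = 1
        rw [map_one, spectralNorm_one]
      map_mul' := fun x y => by
        apply NNReal.eq
        change spectralNorm K L (e (x * y)) = spectralNorm K L (e x) * spectralNorm K L (e y)
        rw [map_mul]
        exact spectralAlgNorm_mul (K := K) (e x) (e y)
      map_add_le_max' := fun x y => by
        rw [← NNReal.coe_le_coe, NNReal.coe_max]
        change spectralNorm K L (e (x + y)) ≤ max (spectralNorm K L (e x)) (spectralNorm K L (e y))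
        rw [map_add]
        exact isNonarchimedean_spectralNorm (e x) (e y) }
  have hv : ∀ z, (v z : ℝ) = spectralNorm K L (e z) := fun _ => rfl
  let D : Subgroup (Ω ≃ₐ[F] Ω) :=
    { carrier := {σ | ∃ τ : L ≃ₐ[K] L, ∀ z, e (σ z) = τ (e z)}
      one_mem' := ⟨1, fun _ => rfl⟩
      mul_mem' := by
        rintro σ σ' ⟨τ, h⟩ ⟨τ', h'⟩
        exact ⟨τ * τ', fun z => by rw [AlgEquiv.mul_apply, AlgEquiv.mul_apply, h, h']⟩
      inv_mem' := by
        rintro σ ⟨τ, h⟩
        refine ⟨τ⁻¹, fun z => τ.injective ?_⟩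
        rw [← h, ← AlgEquiv.mul_apply, ← AlgEquiv.mul_apply, mul_inv_cancel, mul_inv_cancel]
        rfl }
  refine ⟨v, D, fun x => ?_, ?_, fun z hz hD => ?_⟩
  · apply NNReal.eq
    rw [hv, e.commutes, IsScalarTower.algebraMap_apply F K L, spectralNorm_extends, h1]
  · rintro σ ⟨τ, h⟩ z
    apply NNReal.eq
    rw [hv, hv, h, ← spectralNorm_eq_of_equiv]
  · let _ : Algebra Ω L := e.toRingHom.toAlgebra
    have : IsScalarTower F Ω L := IsScalarTower.of_algebraMap_eq fun x => (e.commutes x).symm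
    have hfix : ∀ τ : L ≃ₐ[K] L, τ (e z) = e z := fun τ => by
      have hc : ∀ y, e ((τ.restrictScalars F).restrictNormal Ω y) = τ (e y) := fun y =>
        AlgEquiv.restrictNormal_commutes (τ.restrictScalars F) Ω y
      rw [← hc, hD _ ⟨τ, hc⟩]
    have hs : IsSeparable K (e z) := IsSeparable.tower_top K (hz.map e e.injective)
    have hm : e z ∈ (⊥ : Subalgebra K L) := by
      by_contra hn
      obtain ⟨y, hy, hc⟩ := (notMem_iff_exists_ne_and_isConjRoot hs (IsAlgClosed.splits _)).mp hn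
      obtain ⟨τ, hτ⟩ := hc.symm.exists_algEquiv
      exact hy ((hfix τ).symm.trans hτ)
    obtain ⟨k, hk⟩ := Algebra.mem_bot.mp hm
    obtain ⟨x, hx⟩ := h2 k
    refine ⟨x, NNReal.eq ?_⟩
    rw [hv, ← hk, spectralNorm_extends, hx]

/-- The absolute value of a valuation. -/
noncomputable def placeExtAbs {F : Type*} [Field F] (w : Valuation F ℝ≥0) : AbsoluteValue F ℝ where
  toFun x := w x
  map_mul' x y := by rw [map_mul, NNReal.coe_mul]
  nonneg' x := (w x).2
  eq_zero' x := by rw [NNReal.coe_eq_zero, map_eq_zero]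
  add_le' x y := by
    rw [← NNReal.coe_add, NNReal.coe_le_coe]
    exact (w.map_add x y).trans (max_le le_self_add le_add_self)

theorem exists_ext {F Ω : Type*} [Field F] [Field Ω] [Algebra F Ω] [IsAlgClosure F Ω]
    (w : Valuation F ℝ≥0) (hw : ∃ x, w x ≠ 0 ∧ w x ≠ 1) :
    ∃ (v : Valuation Ω ℝ≥0) (D : Subgroup (Ω ≃ₐ[F] Ω)), (∀ x, v (algebraMap F Ω x) = w x) ∧
      (∀ σ ∈ D, ∀ z, v (σ z) = v z) ∧
      ∀ z, IsSeparable F z → (∀ σ ∈ D, σ z = z) → ∃ x, v z = w x := by
  let K := (placeExtAbs w).Completion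
  have hn : ∀ x : WithAbs (placeExtAbs w), ‖x‖ = w x.ofAbs := fun _ => rfl
  have h1 : ∀ x : F, ‖algebraMap F K x‖ = w x := fun x =>
    UniformSpace.Completion.norm_coe (WithAbs.toAbs (placeExtAbs w) x)
  have hu : IsUltrametricDist K := by
    refine IsUltrametricDist.isUltrametricDist_of_forall_norm_add_le_max_norm fun x y => ?_
    refine UniformSpace.Completion.induction_on₂ x y (isClosed_le (by fun_prop) (by fun_prop))
      fun a b => ?_
    rw [← UniformSpace.Completion.coe_add, UniformSpace.Completion.norm_coe,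
      UniformSpace.Completion.norm_coe, UniformSpace.Completion.norm_coe, hn, hn, hn,
      ← NNReal.coe_max, NNReal.coe_le_coe]
    exact w.map_add _ _
  let _ : NontriviallyNormedField K := NontriviallyNormedField.ofNormNeOne (by
    obtain ⟨x, h0, hx⟩ := hw
    refine ⟨algebraMap F K x, fun h => h0 ?_, ?_⟩
    · rw [← NNReal.coe_eq_zero, ← h1, h, norm_zero]
    · rw [h1]
      exact_mod_cast hx)
  refine placeExt_core (K := K) w h1 fun k => ?_
  by_cases hk : k = 0
  · exact ⟨0, by simp [hk]⟩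
  obtain ⟨x, hx⟩ := Metric.denseRange_iff.mp UniformSpace.Completion.denseRange_coe k ‖k‖
    (norm_pos_iff.mpr hk)
  refine ⟨x.ofAbs, ?_⟩
  rw [← hn, ← UniformSpace.Completion.norm_coe x]
  rw [dist_eq_norm] at hx
  have := IsUltrametricDist.norm_add_eq_max_of_norm_ne_norm (x := k) (y := -(k - x))
    (by rw [norm_neg]; exact hx.ne')
  rw [norm_neg, max_eq_left hx.le] at this
  rw [← this]
  congr 1
  ring

end Pool.Agent.P.MP_a60a76_nt.Fs
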