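import Pool.Agent.P.MP_a60a76_nt.Fs.Defs
import Pool.Agent.P.MP_a60a76_nt.Fs.PlaceExt

namespace Pool.Agent.P.MP_a60a76_nt.Fs

open Polynomial
open scoped NNReal

theorem place_mem_K0 {R Ω : Type*} [CommRing R] [Field Ω] {ι : R →+* Ω} (z : Ω) (hz : z ∈ K0 ι) :
    ∃ r s : R, z = ι r / ι s := by
  obtain ⟨y, hy, t, ht, rfl⟩ := Subfield.mem_closure_iff.1 hz
  have e : Subring.closure (Set.range ι) = ι.range := by
    rw [← RingHom.coe_range, Subring.closure_eq]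
  rw [e] at hy ht
  obtain ⟨r, rfl⟩ := hy
  obtain ⟨s, rfl⟩ := ht
  exact ⟨r, s, rfl⟩

open Classical in
/-- The valuation of an order function. -/
noncomputable def placeVal {R : Type*} [CommRing R] [IsDomain R]
    (ord : R → ℤ) (hmul : ∀ x y, x ≠ 0 → y ≠ 0 → ord (x * y) = ord x + ord y)
    (hadd : ∀ x y, x ≠ 0 → y ≠ 0 → x + y ≠ 0 → min (ord x) (ord y) ≤ ord (x + y)) :
    Valuation R ℝ≥0 where
  toFun x := if x = 0 then 0 else (1 / 2 : ℝ≥0) ^ ord x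
  map_zero' := by simp
  map_one' := by
    have h := hmul 1 1 one_ne_zero one_ne_zero
    rw [mul_one] at h
    have h0 : ord 1 = 0 := by omega
    simp [h0]
  map_mul' x y := by
    by_cases hx : x = 0
    · simp [hx]
    by_cases hy : y = 0
    · simp [hy]
    rw [if_neg (mul_ne_zero hx hy), if_neg hx, if_neg hy, hmul x y hx hy,
      zpow_add₀ (by norm_num)]
  map_add_le_max' x y := by
    by_cases hx : x = 0
    · simp [hx]
    by_cases hy : y = 0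
    · simp [hy]
    by_cases hxy : x + y = 0
    · simp [hxy]
    rw [if_neg hxy, if_neg hx, if_neg hy]
    have h := hadd x y hx hy hxy
    have h1 : (0 : ℝ≥0) < 1 / 2 := by norm_num
    have h2 : (1 / 2 : ℝ≥0) ≤ 1 := by
      rw [div_le_one (by norm_num)]
      norm_num
    rcases min_le_iff.1 h with h | h
    · exact le_max_of_le_left (zpow_le_zpow_right_of_le_one₀ h1 h2 h)
    · exact le_max_of_le_right (zpow_le_zpow_right_of_le_one₀ h1 h2 h)

theorem placeVal_apply {R : Type*} [CommRing R] [IsDomain R]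
    (ord : R → ℤ) (hmul : ∀ x y, x ≠ 0 → y ≠ 0 → ord (x * y) = ord x + ord y)
    (hadd : ∀ x y, x ≠ 0 → y ≠ 0 → x + y ≠ 0 → min (ord x) (ord y) ≤ ord (x + y))
    {x : R} (hx : x ≠ 0) : placeVal ord hmul hadd x = (1 / 2 : ℝ≥0) ^ ord x := by
  classical
  exact if_neg hx

theorem exists_loc {R Ω : Type*} [CommRing R] [IsDomain R] [Field Ω] {ι : R →+* Ω} (hι : Clos ι)
    (ord : R → ℤ) (hmul : ∀ x y, x ≠ 0 → y ≠ 0 → ord (x * y) = ord x + ord y)
    (hadd : ∀ x y, x ≠ 0 → y ≠ 0 → x + y ≠ 0 → min (ord x) (ord y) ≤ ord (x + y))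
    (hnt : ∃ x, x ≠ 0 ∧ ord x ≠ 0) :
    ∃ L : Loc ι, ∀ x, x ≠ 0 → L.v (ι x) = (1 / 2 : ℝ≥0) ^ ord x := by
  let j : R →+* K0 ι := ι.codRestrict (K0 ι) (fun r => Subfield.subset_closure ⟨r, rfl⟩)
  have hj : ∀ r, ((j r : K0 ι) : Ω) = ι r := fun _ => rfl
  have hjinj : Function.Injective j := fun x y h => hι.inj (by rw [← hj, ← hj, h])
  let _ : Algebra R (K0 ι) := j.toAlgebra
  have hal : ∀ r, algebraMap R (K0 ι) r = j r := fun _ => rfl
  have : FaithfulSMul R (K0 ι) := (faithfulSMul_iff_algebraMap_injective R (K0 ι)).2 hjinj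
  have hsurj : ∀ z : K0 ι, ∃ x y, z = algebraMap R (K0 ι) x / algebraMap R (K0 ι) y := by
    intro z
    obtain ⟨r, s, h⟩ := place_mem_K0 (z : Ω) z.2
    exact ⟨r, s, Subtype.ext (by simpa [hal, hj] using h)⟩
  have : IsFractionRing R (K0 ι) := IsFractionRing.of_field R (K0 ι) hsurj
  have hcl : IsAlgClosure (K0 ι) Ω := by
    refine ⟨hι.closed, ⟨fun z => ?_⟩⟩
    obtain ⟨p, hp, hz⟩ := hι.alg z
    refine ⟨p.map j, (Polynomial.map_ne_zero_iff hjinj).2 hp, ?_⟩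
    rw [aeval_def, eval₂_map]
    exact hz
  let w0 := placeVal ord hmul hadd
  have hw0 : ∀ x, x ≠ 0 → w0 x = (1 / 2 : ℝ≥0) ^ ord x := fun x hx =>
    placeVal_apply ord hmul hadd hx
  have hS : nonZeroDivisors R ≤ w0.supp.primeCompl := by
    intro x hx h
    have h1 : w0 x = 0 := h
    rw [hw0 x (nonZeroDivisors.ne_zero hx)] at h1
    exact zpow_ne_zero _ (by norm_num) h1
  let w : Valuation (K0 ι) ℝ≥0 := w0.extendToLocalization hS (K0 ι)
  have hw : ∀ x, w (j x) = w0 x := fun x =>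
    Valuation.extendToLocalization_apply_map_apply w0 hS (K0 ι) x
  have hwnt : ∃ x, w x ≠ 0 ∧ w x ≠ 1 := by
    obtain ⟨x, hx, h⟩ := hnt
    refine ⟨j x, ?_, ?_⟩
    · rw [hw, hw0 x hx]
      exact zpow_ne_zero _ (by norm_num)
    · rw [hw, hw0 x hx]
      intro h1
      apply h
      have h2 : (1 / 2 : ℝ≥0) ≠ 1 := by norm_num
      exact (zpow_eq_one_iff_right₀ (by norm_num) h2).1 h1
  obtain ⟨v, D, h1, h2, h3⟩ := exists_ext (F := K0 ι) (Ω := Ω) w hwnt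
  let φ : (Ω ≃ₐ[K0 ι] Ω) →* RingAut Ω :=
    { toFun := fun σ => σ.toRingEquiv
      map_one' := rfl
      map_mul' := fun _ _ => rfl }
  refine ⟨⟨v, D.map φ, ?_, ?_, ?_⟩, fun x hx => ?_⟩
  · rintro _ ⟨σ, -, rfl⟩ r
    exact σ.commutes (j r)
  · rintro _ ⟨σ, hσ, rfl⟩ z
    exact h2 σ hσ z
  · intro z hz hz0 hfix
    obtain ⟨x, hx⟩ := h3 z (mem_separableClosure_iff.1 hz) (fun σ hσ => hfix (φ σ) ⟨σ, hσ, rfl⟩)
    obtain ⟨r, s, rfl⟩ := hsurj x
    have hv0 : v z ≠ 0 := (Valuation.ne_zero_iff v).2 hz0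
    rw [map_div₀, hal, hal, hw, hw] at hx
    have hr : r ≠ 0 := by
      rintro rfl
      simp [hx] at hv0
    have hs : s ≠ 0 := by
      rintro rfl
      simp [hx] at hv0
    refine ⟨ord r - ord s, ?_⟩
    rw [hx, hw0 r hr, hw0 s hs, zpow_sub₀ (by norm_num)]
  · change v (ι x) = _
    rw [← hw0 x hx, ← hw, ← h1]
    rfl

end Pool.Agent.P.MP_a60a76_nt.Fs
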