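import Pool.Agent.P.MP_a60a76_nt.Fs.Defs
import Pool.Agent.P.MP_a60a76_nt.Fs.Count
import Pool.Agent.P.MP_a60a76_nt.Fs.GrpA

namespace Pool.Agent.P.MP_a60a76_nt.Fs

open Polynomial
open scoped NNReal

theorem tower_clos_of_alg {R Ω : Type*} [CommRing R] [Field Ω] [Algebra R Ω] [IsAlgClosed Ω]
    (hinj : Function.Injective (algebraMap R Ω)) (halg : Algebra.IsAlgebraic R Ω) :
    Clos (algebraMap R Ω) :=
  ⟨inferInstance, hinj, fun z => by
    obtain ⟨p, hp, h⟩ := halg.isAlgebraic z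
    exact ⟨p, hp, by rwa [aeval_def] at h⟩⟩

theorem tower_map_dsc {R S : Type*} [CommRing R] [CommRing S] (φ : R →+* S) (a b : R) :
    dsc (φ a) (φ b) = φ (dsc a b) := by
  simp only [dsc, map_add, map_mul, map_pow, map_ofNat]

theorem exists_clos (k : Type*) [Field k] :
    ∃ ι : k[X] →+* AlgebraicClosure (RatFunc k), Clos ι := by
  refine ⟨algebraMap k[X] (AlgebraicClosure (RatFunc k)), tower_clos_of_alg ?_ ?_⟩
  · rw [IsScalarTower.algebraMap_eq k[X] (RatFunc k) (AlgebraicClosure (RatFunc k))]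
    exact (algebraMap (RatFunc k) (AlgebraicClosure (RatFunc k))).injective.comp
      (IsFractionRing.injective k[X] (RatFunc k))
  · exact (IsFractionRing.comap_isAlgebraic_iff (K := RatFunc k)).2 inferInstance

theorem clos_comp {B k Ω : Type*} [CommRing B] [IsDomain B] [Field k] [Field Ω] {φ : B →+* k}
    (hφ : Clos φ) {ι : k[X] →+* Ω} (hι : Clos ι) : Clos (ι.comp (mapRingHom φ)) := by
  let i1 : Algebra B k := φ.toAlgebra
  let i2 : Algebra B[X] k[X] := Polynomial.algebra B k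
  let i3 : Algebra k[X] Ω := ι.toAlgebra
  let i4 : Algebra B[X] Ω := (ι.comp (mapRingHom φ)).toAlgebra
  have t : IsScalarTower B[X] k[X] Ω := IsScalarTower.of_algebraMap_eq fun _ => rfl
  have a1 : Algebra.IsAlgebraic B k := ⟨fun z => by
    obtain ⟨p, hp, h⟩ := hφ.alg z
    exact ⟨p, hp, by rw [aeval_def]; exact h⟩⟩
  have a2 : Algebra.IsAlgebraic B[X] k[X] := inferInstance
  have a3 : Algebra.IsAlgebraic k[X] Ω := ⟨fun z => by
    obtain ⟨p, hp, h⟩ := hι.alg z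
    exact ⟨p, hp, by rw [aeval_def]; exact h⟩⟩
  have a4 : Algebra.IsAlgebraic B[X] Ω := Algebra.IsAlgebraic.trans B[X] k[X] Ω
  refine ⟨hι.closed, hι.inj.comp (Polynomial.map_injective φ hφ.inj), fun z => ?_⟩
  obtain ⟨p, hp, h⟩ := a4.isAlgebraic z
  exact ⟨p, hp, by rw [aeval_def] at h; exact h⟩

theorem clos_Fb (l : ℕ) [Fact l.Prime] : Clos (up l) :=
  tower_clos_of_alg (algebraMap (ZMod l) (Fb l)).injective inferInstance

theorem clos_rat : Clos (algebraMap ℚ Qb) :=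
  tower_clos_of_alg (algebraMap ℚ Qb).injective (AlgebraicClosure.isAlgebraic ℚ)

theorem clos_int : Clos (Int.castRingHom Qb) := by
  have h : Int.castRingHom Qb = algebraMap ℤ Qb := RingHom.ext_int _ _
  rw [h]
  refine tower_clos_of_alg ?_ ?_
  · rw [← h]
    exact Int.cast_injective
  · exact (IsFractionRing.comap_isAlgebraic_iff (K := ℚ)).2 (AlgebraicClosure.isAlgebraic ℚ)

theorem rho_const {k Ω : Type*} [Field k] [IsAlgClosed k] [Field Ω] {ι : k[X] →+* Ω}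
    (hι : Clos ι) (h2 : (2 : k) ≠ 0) {m : ℕ} (hmk : (m : k) ≠ 0) {a b : k} (hd : dsc a b ≠ 0)
    {σ : RingAut Ω} (hσ : σ ∈ Aut ι) : rho m (ι (C a)) (ι (C b)) σ = 1 := by
  have := hι.closed
  obtain ⟨e, he⟩ := tw_equiv h2 hd hmk (ι.comp C) 1 one_ne_zero (a' := ι (C a)) (b' := ι (C b))
    (by simp) (by simp)
  have hfix : σ (ι (C a)) = ι (C a) ∧ σ (ι (C b)) = ι (C b) := ⟨hσ _, hσ _⟩
  refine AddMonoidHom.ext fun Q => ?_
  obtain ⟨P, rfl⟩ := e.surjective Q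
  change rho m (ι (C a)) (ι (C b)) σ (e P) = e P
  by_cases h0 : e P = 0
  · rw [h0, map_zero]
  · have h1 : (e P : Pt (ι (C a)) (ι (C b))) ≠ 0 := fun h => h0 (Subtype.ext h)
    refine Subtype.ext (pt_ext ?_ h1 ?_ ?_)
    · exact (galP_eq_zero_iff σ.toRingHom _).not.2 h1
    · rw [xc_rho m hfix, (he P).1, one_pow, one_mul]
      exact hσ _
    · rw [yc_rho m hfix, (he P).2, one_pow, one_mul]
      exact hσ _

theorem mis_const {k Ω : Type*} [Field k] [IsAlgClosed k] [Field Ω] {ι : k[X] →+* Ω}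
    (hι : Clos ι) (h2 : (2 : k) ≠ 0) {m : ℕ} (hm : m.Prime) (hmk : (m : k) ≠ 0) {a b : k[X]}
    (hd : dsc a b ≠ 0) (hM : Mon ι m (ι a) (ι b)) {a0 b0 : k} (hd0 : dsc a0 b0 ≠ 0) :
    Mis ι m (ι a) (ι b) (ι (C a0)) (ι (C b0)) := by
  have := hι.closed
  obtain ⟨σ, hσ, h1, hu⟩ := hM.1
  have h2' : (2 : Ω) ≠ 0 := by
    have := (map_ne_zero (ι.comp C)).2 h2
    rwa [map_ofNat] at this
  have hm' : (m : Ω) ≠ 0 := by
    have := (map_ne_zero (ι.comp C)).2 hmk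
    rwa [map_natCast] at this
  have hd' : dsc (ι a) (ι b) ≠ 0 := by
    rw [tower_map_dsc]
    exact (map_ne_zero_iff ι hι.inj).2 hd
  refine ⟨σ, hσ, not_sc_of_unip hm (plane_tors h2' hd' hm') h1 hu, Or.inl fun v => ?_⟩
  rw [rho_const hι h2 hmk hd0 hσ]
  rfl

theorem jdeg_map {k k' : Type*} [Field k] [Field k'] (φ : k →+* k') {m : ℕ} {a b : k[X]}
    (h : JDeg m a b) : JDeg m (a.map φ) (b.map φ) := by
  obtain ⟨ha, hb, hd, N, D, hc, he, h0, hlt⟩ := h
  have e : dsc (a.map φ) (b.map φ) = (dsc a b).map φ := tower_map_dsc (mapRingHom φ) a b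
  refine ⟨Polynomial.map_ne_zero ha, Polynomial.map_ne_zero hb, ?_, N.map φ, D.map φ,
    hc.map (mapRingHom φ), ?_, ?_, ?_⟩
  · rw [e]
    exact Polynomial.map_ne_zero hd
  · have := congrArg (Polynomial.map φ) he
    rw [e]
    simpa only [Polynomial.map_mul, Polynomial.map_pow, Polynomial.map_ofNat] using this
  · rwa [natDegree_map, natDegree_map]
  · rwa [natDegree_map, natDegree_map]

theorem tower_ne_zero {k : Type*} [Field k] (h2 : (2 : k) ≠ 0) (h3 : (3 : k) ≠ 0) (i j : ℕ) :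
    (2 : k[X]) ^ i * 3 ^ j ≠ 0 := by
  have e2 : (2 : k[X]) ≠ 0 := by
    have := (C_ne_zero (R := k)).2 h2
    rwa [map_ofNat] at this
  have e3 : (3 : k[X]) ≠ 0 := by
    have := (C_ne_zero (R := k)).2 h3
    rwa [map_ofNat] at this
  exact mul_ne_zero (pow_ne_zero _ e2) (pow_ne_zero _ e3)

theorem jdeg_one {k : Type*} [Field k] (h2 : (2 : k) ≠ 0) (h3 : (3 : k) ≠ 0) {m : ℕ} (hm : 3 ≤ m)
    {A : k} (hA : A ≠ 0) : JDeg m (C A) X := by
  have h27 : (27 : k) ≠ 0 := by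
    rw [show (27 : k) = 3 ^ 3 by norm_num]
    exact pow_ne_zero _ h3
  have h6912 : (6912 : k) * A ^ 3 ≠ 0 := by
    rw [show (6912 : k) = 2 ^ 8 * 3 ^ 3 by norm_num]
    exact mul_ne_zero (mul_ne_zero (pow_ne_zero _ h2) (pow_ne_zero _ h3)) (pow_ne_zero _ hA)
  have e : dsc (C A) (X : k[X]) = C 27 * X ^ 2 + C (4 * A ^ 3) := by
    simp only [dsc, map_mul, map_pow, map_ofNat]
    ring
  have hdeg : (dsc (C A) (X : k[X])).natDegree = 2 := by
    rw [e, natDegree_add_C, natDegree_C_mul_X_pow _ _ h27]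
  refine ⟨C_ne_zero.2 hA, X_ne_zero, ?_, C (6912 * A ^ 3), dsc (C A) X, ?_, ?_, ?_, ?_⟩
  · intro h
    rw [h, natDegree_zero] at hdeg
    omega
  · exact ⟨C (6912 * A ^ 3)⁻¹, 0, by rw [← C_mul, inv_mul_cancel₀ h6912]; simp⟩
  · simp only [map_mul, map_pow, map_ofNat]
  · rw [hdeg, natDegree_C]
    norm_num
  · rw [hdeg, natDegree_C]
    omega

theorem jdeg_model {k : Type*} [Field k] (h2 : (2 : k) ≠ 0) (h3 : (3 : k) ≠ 0) {m : ℕ}
    {N D : k[X]} (hc : IsCoprime N D) (hN : N ≠ 0) (hD : D ≠ 0) (hM : 1728 * D - N ≠ 0)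
    (h0 : 0 < max N.natDegree D.natDegree) (hlt : max N.natDegree D.natDegree < m) :
    JDeg m (ma N D) (mb N D) := by
  refine ⟨?_, ?_, ?_, N, D, hc, ?_, h0, hlt⟩
  · have e : ma N D = (2 ^ 0 * 3 ^ 1) * (N * (1728 * D - N)) := by
      unfold ma
      ring
    rw [e]
    exact mul_ne_zero (tower_ne_zero h2 h3 _ _) (mul_ne_zero hN hM)
  · have e : mb N D = (2 ^ 1 * 3 ^ 0) * (N * (1728 * D - N) ^ 2) := by
      unfold mb
      ring
    rw [e]
    exact mul_ne_zero (tower_ne_zero h2 h3 _ _) (mul_ne_zero hN (pow_ne_zero _ hM))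
  · have e : dsc (ma N D) (mb N D) = (2 ^ 8 * 3 ^ 6) * (N ^ 2 * (1728 * D - N) ^ 3 * D) := by
      unfold dsc ma mb
      ring
    rw [e]
    exact mul_ne_zero (tower_ne_zero h2 h3 _ _)
      (mul_ne_zero (mul_ne_zero (pow_ne_zero _ hN) (pow_ne_zero _ hM)) hD)
  · unfold dsc ma mb
    ring

end Pool.Agent.P.MP_a60a76_nt.Fs
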