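import Pool.Agent.P.MP_a60a76_nt.Fs.Defs
import Pool.Agent.P.MP_a60a76_nt.Fs.Orbit
import Pool.Agent.P.MP_a60a76_nt.Fs.Place
import Pool.Agent.P.MP_a60a76_nt.Fs.Tower

namespace Pool.Agent.P.MP_a60a76_nt.Fs

open Polynomial
open scoped NNReal

theorem unip_not_dvd {q : ℕ} (hq : q.Prime) (h5 : 5 ≤ q) {A B : ℤ}
    (h : padicValInt q (dsc A B) = 1) : dsc A B ≠ 0 ∧ ¬ (q : ℤ) ∣ A ∧ ¬ (q : ℤ) ∣ B := by
  have := Fact.mk hq
  have hq' : Prime (q : ℤ) := Nat.prime_iff_prime_int.1 hq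
  have hd : dsc A B ≠ 0 := by
    intro h0
    rw [h0, padicValInt.zero] at h
    exact zero_ne_one h
  have h1 : (q : ℤ) ∣ dsc A B := by
    have := (padicValInt_dvd_iff (p := q) 1 (dsc A B)).2 (Or.inr h.ge)
    rwa [pow_one] at this
  have h2 : ¬ (q : ℤ) ^ 2 ∣ dsc A B := by
    rw [padicValInt_dvd_iff, h]
    rintro (h | h)
    · exact hd h
    · omega
  have n2 : ¬ (q : ℤ) ∣ 2 := fun hh => by
    have := Int.le_of_dvd (by norm_num) hh
    omega
  have n3 : ¬ (q : ℤ) ∣ 3 := fun hh => by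
    have := Int.le_of_dvd (by norm_num) hh
    omega
  have k : ¬ ((q : ℤ) ∣ A ∧ (q : ℤ) ∣ B) := by
    rintro ⟨⟨c, rfl⟩, ⟨e, rfl⟩⟩
    exact h2 ⟨4 * q * c ^ 3 + 27 * e ^ 2, by rw [dsc]; ring⟩
  refine ⟨hd, fun hA => k ⟨hA, ?_⟩, fun hB => k ⟨?_, hB⟩⟩
  · have h3 : (q : ℤ) ∣ 3 ^ 3 * B ^ 2 := by
      have := dvd_sub h1 (hA.mul_right (4 * A ^ 2))
      rwa [show dsc A B - A * (4 * A ^ 2) = 3 ^ 3 * B ^ 2 by rw [dsc]; ring] at this
    rcases hq'.dvd_or_dvd h3 with h4 | h4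
    · exact absurd (hq'.dvd_of_dvd_pow h4) n3
    · exact hq'.dvd_of_dvd_pow h4
  · have h3 : (q : ℤ) ∣ 2 ^ 2 * A ^ 3 := by
      have := dvd_sub h1 (hB.mul_right (27 * B))
      rwa [show dsc A B - B * (27 * B) = 2 ^ 2 * A ^ 3 by rw [dsc]; ring] at this
    rcases hq'.dvd_or_dvd h3 with h4 | h4
    · exact absurd (hq'.dvd_of_dvd_pow h4) n2
    · exact hq'.dvd_of_dvd_pow h4

theorem exists_unip_arith {p q : ℕ} (hp : p.Prime) (hq : q.Prime) (h3 : 3 ≤ p) (h5 : 5 ≤ q)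
    (hpq : p ≠ q) {A B : ℤ} (h : padicValInt q (dsc A B) = 1) :
    A ≠ 0 ∧ B ≠ 0 ∧ ∃ σ : RingAut Qb, rho p ((A : ℚ) : Qb) ((B : ℚ) : Qb) σ ≠ 1 ∧
      rho p ((A : ℚ) : Qb) ((B : ℚ) : Qb) σ ^ p = 1 := by
  have := Fact.mk hq
  obtain ⟨hd, hA, hB⟩ := unip_not_dvd hq h5 h
  have hA0 : A ≠ 0 := fun h0 => hA (h0 ▸ dvd_zero _)
  have hB0 : B ≠ 0 := fun h0 => hB (h0 ▸ dvd_zero _)
  refine ⟨hA0, hB0, ?_⟩
  obtain ⟨L, hL⟩ := exists_loc clos_int (fun x => (padicValInt q x : ℤ))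
    (fun x y hx hy => by rw [padicValInt.mul hx hy, Nat.cast_add])
    (fun x y hx hy hxy => by
      rw [← Nat.cast_min, Nat.cast_le]
      refine ((padicValInt_dvd_iff (p := q) _ _).1 (dvd_add ?_ ?_)).resolve_left hxy
      · exact (padicValInt_dvd_iff _ _).2 (Or.inr (min_le_left _ _))
      · exact (padicValInt_dvd_iff _ _).2 (Or.inr (min_le_right _ _)))
    ⟨dsc A B, hd, by simp [h]⟩
  have hu : ∀ x : ℤ, ¬ (q : ℤ) ∣ x → L.v (x : Qb) = 1 := by
    intro x hx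
    have := hL x fun h0 => hx (h0 ▸ dvd_zero _)
    rw [padicValInt.eq_zero_of_not_dvd hx] at this
    simpa using this
  have hs : ∀ n : ℕ, 0 < n → n < 5 → L.v (n : Qb) = 1 := by
    intro n h0 hn
    have := hu n fun hh => by
      have := Int.le_of_dvd (by exact_mod_cast h0) hh
      omega
    simpa using this
  have v2 : L.v 2 = 1 := by simpa using hs 2 (by norm_num) (by norm_num)
  have v3 : L.v 3 = 1 := by simpa using hs 3 (by norm_num) (by norm_num)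
  have ed : dsc (Int.castRingHom Qb A) (Int.castRingHom Qb B) = Int.castRingHom Qb (dsc A B) := by
    simp [dsc]
  have ve : L.v (eps (Int.castRingHom Qb A) (Int.castRingHom Qb B)) = (1 / 2 : ℝ≥0) ^ 1 := by
    rw [eps, map_div₀, ed, hL _ hd, h, show (27 : Qb) = 3 ^ 3 by norm_num, map_mul, map_pow,
      map_pow, v3, eq_intCast, hu B hB]
    simp
  have hM : Mult L.v p (Int.castRingHom Qb A) (Int.castRingHom Qb B) :=
    { two := v2
      three := v3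
      vm := by
        have := hu p fun hh => hpq ((Nat.prime_dvd_prime_iff_eq hq hp).1
          (Int.natCast_dvd_natCast.1 hh)).symm
        simpa using this
      a0 := by simpa using hA0
      b0 := by simpa using hB0
      d0 := by rw [ed]; simpa using hd
      lt := by rw [ve]; norm_num }
  obtain ⟨σ, -, h1, h2⟩ := exists_unip clos_int L hM hp h3 ve
    (fun hh => hp.one_lt.ne' (Nat.dvd_one.1 hh))
  have eA : Int.castRingHom Qb A = ((A : ℚ) : Qb) := by simp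
  have eB : Int.castRingHom Qb B = ((B : ℚ) : Qb) := by simp
  rw [← eA, ← eB]
  exact ⟨σ, h1, h2⟩

end Pool.Agent.P.MP_a60a76_nt.Fs
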