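import Pool.Agent.P.MP_a60a76_nt.Fs.Defs
import Pool.Agent.P.MP_a60a76_nt.Fs.Quad
import Pool.Agent.P.MP_a60a76_nt.Fs.Kernel
import Pool.Agent.P.MP_a60a76_nt.Fs.Count

namespace Pool.Agent.P.MP_a60a76_nt.Fs

open Polynomial
open scoped NNReal

theorem zeta_scalar {K : Type*} [Field K] [IsAlgClosed K] {a b : K} (h2 : (2 : K) ≠ 0)
    (hd : dsc a b ≠ 0) {m : ℕ} (hm : m.Prime) (h5 : 5 ≤ m) (hm0 : (m : K) ≠ 0) {ζ : K}
    (hζ : ζ ≠ 0) (ha : ζ ^ 4 * a = a) (hb : ζ ^ 6 * b = b) (f : AddMonoid.End (Tors m a b))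
    (hf : ∀ P : Tors m a b, xc (f P : Pt a b) = ζ ^ 2 * xc (P : Pt a b) ∧
      yc (f P : Pt a b) = ζ ^ 3 * yc (P : Pt a b))
    (h : Sc f) : ζ ^ 2 = 1 := by
  obtain ⟨φ, hφ0, hφx, hφy⟩ : ∃ φ : Pt a b →+ Pt a b, (∀ P, φ P = 0 ↔ P = 0) ∧
      (∀ P, xc (φ P) = ζ ^ 2 * xc P) ∧ ∀ P, yc (φ P) = ζ ^ 3 * yc P :=
    ⟨tw (RingHom.id K) ζ hζ ha.symm hb.symm, tw_eq_zero_iff _ _ _ _ _, xc_tw _ _ _ _ _,
      yc_tw _ _ _ _ _⟩
  have hrat : IsRat φ := by
    refine Or.inr ⟨C (ζ ^ 2) * X, 1, C (ζ ^ 3), 1, one_ne_zero, one_ne_zero,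
      (Set.finite_singleton 0).subset fun P hP => ?_⟩
    by_contra hP0
    refine hP ⟨(hφ0 P).not.2 hP0, ?_, ?_⟩
    · simp [hφx]
    · simp [hφy, mul_comm]
  have hrep : XRep φ (C (ζ ^ 2) * X) 1 := by
    refine ⟨isCoprime_one_right, (Set.finite_singleton 0).subset fun P hP => ?_⟩
    by_contra hP0
    have h1 : φ P ≠ 0 := (hφ0 P).not.2 hP0
    exact hP ⟨1, one_ne_zero, by simp [xp_of_ne h1, hφx], by simp [zp_of_ne h1]⟩
  have hdφ : dg φ = 1 := by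
    rw [dg_eq h2 hd hrep, natDegree_C_mul_X _ (pow_ne_zero 2 hζ)]
    simp
  have hd1 : dg (AddMonoidHom.id (Pt a b)) = 1 := by
    rw [dg_eq h2 hd xrep_id]
    simp
  have hodd : m % 2 = 1 := hm.eq_two_or_odd.resolve_left (by omega)
  have hfφ : ∀ P : Tors m a b, (f P : Pt a b) = φ P := by
    intro P
    by_cases hP : (P : Pt a b) = 0
    · have : P = 0 := Subtype.ext hP
      rw [this]
      simp
    have h1 : (f P : Pt a b) ≠ 0 := by
      intro e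
      have h3 := (hf P).2
      rw [e, yc_zero] at h3
      have h4 : yc (P : Pt a b) = 0 := (mul_eq_zero.1 h3.symm).resolve_left (pow_ne_zero 3 hζ)
      have h6 : (P : Pt a b) + P = 0 := (add_self_eq_zero_iff hP).2 (by rw [h4, mul_zero])
      have h7 : (2 * (m / 2) + 1) • (P : Pt a b) = 0 := by
        rw [show 2 * (m / 2) + 1 = m by omega]
        exact P.2
      rw [ add_nsmul, mul_nsmul, two_nsmul, h6, nsmul_zero, zero_add,
        one_nsmul] at h7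
      exact hP h7
    exact pt_ext h1 ((hφ0 P).not.2 hP) (by rw [(hf P).1, hφx]) (by rw [(hf P).2, hφy])
  obtain ⟨n, hn⟩ := h
  obtain ⟨r, k, hr, hr1, hr2⟩ : ∃ r k : ℤ, r = -n + k * m ∧ -(m : ℤ) ≤ 2 * r ∧ 2 * r ≤ m := by
    have h0 : (0 : ℤ) < m := by omega
    have e1 := Int.emod_nonneg (-n) h0.ne'
    have e2 := Int.emod_lt_of_pos (-n) h0
    have e3 := Int.emod_add_mul_ediv (-n) m
    by_cases hc : 2 * (-n % m) ≤ m
    · exact ⟨-n % m, -(-n / m), by linear_combination e3, by omega, hc⟩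
    · exact ⟨-n % m - m, -(-n / m) - 1, by linear_combination e3, by omega, by omega⟩
  have hl := fun r s : ℤ => dg_lin2 h2 hd isRat_id hrat r s
  simp only [hdφ, hd1, Nat.cast_one, mul_one] at hl
  obtain ⟨B, hB⟩ : ∃ B : ℤ, B = (dg (AddMonoidHom.id (Pt a b) + φ) : ℤ) - 1 - 1 := ⟨_, rfl⟩
  simp only [← hB] at hl
  have hB1 : -2 ≤ B := by omega
  have hB2 : B ≤ 2 := by
    have := hl 1 (-1)
    omega
  have hα : r • AddMonoidHom.id (Pt a b) + (1 : ℤ) • φ = 0 := by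
    by_contra h0
    obtain ⟨hfin, hle⟩ := card_ker_le h2 hd
      (isRat_add h2 hd (isRat_zsmul h2 hd isRat_id r) (isRat_zsmul h2 hd hrat 1)) h0
    have hsub : Tors m a b ≤ (r • AddMonoidHom.id (Pt a b) + (1 : ℤ) • φ).ker := by
      intro P hP
      have h1 := hfφ ⟨P, hP⟩
      rw [hn] at h1
      have h3 : φ P = n • P := h1.symm
      have h4 : m • P = 0 := hP
      rw [AddMonoidHom.mem_ker, AddMonoidHom.add_apply, one_smul, h3, hr]
      simp [add_smul, mul_smul, h4]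
    have h1 := AddSubgroup.card_le_of_le hsub
    rw [card_tors h2 hd hm0] at h1
    have h3 : ((m ^ 2 : ℕ) : ℤ) ≤ r ^ 2 + 1 ^ 2 + r * 1 * B := by
      rw [← hl r 1]
      exact_mod_cast h1.trans hle
    push_cast at h3
    have h6 : (5 : ℤ) ≤ m := by exact_mod_cast h5
    nlinarith [mul_nonneg (sub_nonneg.2 hr1) (sub_nonneg.2 hr2),
      mul_nonneg (sub_nonneg.2 hr1) (sub_nonneg.2 hB2),
      mul_nonneg (sub_nonneg.2 hr2) (sub_nonneg.2 hB1)]
  have h0 := hl r 1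
  rw [hα, dg_eq h2 hd xrep_zero] at h0
  simp only [natDegree_one, natDegree_zero, max_self, Nat.cast_zero] at h0
  have hu : r = 1 ∨ r = -1 :=
    Int.eq_one_or_neg_one_of_mul_eq_one (v := -r - B) (by linear_combination h0)
  obtain ⟨P, -, hP⟩ := exists_pt h2 hd (1 : K)
  have h1 := DFunLike.congr_fun hα P
  rw [AddMonoidHom.add_apply, one_smul, AddMonoidHom.zero_apply, add_comm,
    add_eq_zero_iff_eq_neg] at h1
  have h3 := hφx P
  rw [h1, xc_neg, hP, mul_one] at h3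
  rcases hu with rfl | rfl
  · simpa [hP] using h3.symm
  · simpa [hP] using h3.symm

end Pool.Agent.P.MP_a60a76_nt.Fs
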