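import Pool.Agent.P.MP_a60a76_nt.Fs.Defs
import Pool.Agent.P.MP_a60a76_nt.Fs.Unip
import Pool.Agent.P.MP_a60a76_nt.Fs.Zeta

namespace Pool.Agent.P.MP_a60a76_nt.Fs

open Polynomial
open scoped NNReal

theorem arith_ext {K : Type*} [Field K] {m : ℕ} {a b : K} {P Q : Tors m a b} (h0 : P = 0 ↔ Q = 0)
    (hx : xc (P : Pt a b) = xc (Q : Pt a b)) (hy : yc (P : Pt a b) = yc (Q : Pt a b)) :
    P = Q := by
  by_cases hP : P = 0
  · rw [hP, h0.1 hP]
  · have hQ : Q ≠ 0 := fun h => hP (h0.2 h)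
    exact Subtype.ext (pt_ext (fun h => hP (Subtype.ext h)) (fun h => hQ (Subtype.ext h)) hx hy)

theorem arith_rho_zero {K : Type*} [Field K] {m : ℕ} {a b : K} (σ : RingAut K)
    (P : Tors m a b) : rho m a b σ P = 0 ↔ P = 0 := by
  rw [Subtype.ext_iff, Subtype.ext_iff]
  exact galP_eq_zero_iff _ _

theorem arith_fix (σ : RingAut Qb) (a b : ℚ) : σ (a : Qb) = a ∧ σ (b : Qb) = b :=
  ⟨map_ratCast σ a, map_ratCast σ b⟩

theorem arith_dsc {a b : ℚ} (hd : dsc a b ≠ 0) : dsc (a : Qb) (b : Qb) ≠ 0 := by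
  have : dsc (a : Qb) (b : Qb) = ((dsc a b : ℚ) : Qb) := by
    simp only [dsc]
    push_cast
    rfl
  rw [this]
  exact_mod_cast hd

theorem scale_eqv {m : ℕ} (hm : m ≠ 0) {a b a' b' u : ℚ} (hd : dsc a b ≠ 0) (hu : u ≠ 0)
    (ha : a' = u ^ 2 * a) (hb : b' = u ^ 3 * b) :
    ∃ (e : Tors m (a : Qb) (b : Qb) ≃+ Tors m (a' : Qb) (b' : Qb)) (w : Qb), w ^ 2 = u ∧
      (∀ P, xc (e P : Pt (a' : Qb) (b' : Qb)) = u * xc (P : Pt (a : Qb) (b : Qb))) ∧
      ∀ σ : RingAut Qb, (σ w = w → ∀ P, e (rho m _ _ σ P) = rho m _ _ σ (e P)) ∧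
        (σ w = -w → ∀ P, e (rho m _ _ σ P) = -rho m _ _ σ (e P)) := by
  obtain ⟨w, hw⟩ := IsAlgClosed.exists_pow_nat_eq (u : Qb) (n := 2) two_pos
  have hw0 : w ≠ 0 := by
    rintro rfl
    apply hu
    have : ((u : ℚ) : Qb) = 0 := by rw [← hw]; simp
    exact_mod_cast this
  have ha' : (a' : Qb) = w ^ 4 * RingHom.id Qb (a : Qb) := by
    rw [ha, show w ^ 4 = (w ^ 2) ^ 2 by ring, hw]
    push_cast
    rfl
  have hb' : (b' : Qb) = w ^ 6 * RingHom.id Qb (b : Qb) := by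
    rw [hb, show w ^ 6 = (w ^ 2) ^ 3 by ring, hw]
    push_cast
    rfl
  obtain ⟨e, he⟩ := tw_equiv (two_ne_zero) (arith_dsc hd) (m := m) (Nat.cast_ne_zero.2 hm)
    (RingHom.id Qb) w hw0 ha' hb'
  simp only [RingHom.id_apply] at he
  refine ⟨e, w, hw, fun P => by rw [(he P).1, hw], fun σ => ⟨fun hσ P => ?_, fun hσ P => ?_⟩⟩
  · refine arith_ext ?_ ?_ ?_
    · rw [arith_rho_zero, e.map_eq_zero_iff, e.map_eq_zero_iff, arith_rho_zero]
    · rw [(he _).1, xc_rho m (arith_fix σ a b), xc_rho m (arith_fix σ a' b'), (he _).1, map_mul,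
        map_pow, hσ]
    · rw [(he _).2, yc_rho m (arith_fix σ a b), yc_rho m (arith_fix σ a' b'), (he _).2, map_mul,
        map_pow, hσ]
  · refine arith_ext ?_ ?_ ?_
    · rw [neg_eq_zero, arith_rho_zero, e.map_eq_zero_iff, e.map_eq_zero_iff, arith_rho_zero]
    · rw [AddSubgroup.coe_neg, xc_neg, (he _).1, xc_rho m (arith_fix σ a b),
        xc_rho m (arith_fix σ a' b'), (he _).1, map_mul, map_pow, hσ]
      ring
    · rw [AddSubgroup.coe_neg, yc_neg, (he _).2, yc_rho m (arith_fix σ a b),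
        yc_rho m (arith_fix σ a' b'), (he _).2, map_mul, map_pow, hσ]
      ring

theorem arith_cm {p : ℕ} (hp : p.Prime) (h5 : 5 ≤ p) {a b : ℚ} (hd : dsc a b ≠ 0)
    {σ : RingAut Qb} (h1 : rho p (a : Qb) (b : Qb) σ ≠ 1) (hu : rho p (a : Qb) (b : Qb) σ ^ p = 1)
    {ζ : Qb} (h12 : ζ ^ 12 = 1) (ha : ζ ^ 4 * a = a) (hb : ζ ^ 6 * b = b) (hσ : σ (σ ζ) = ζ) :
    ζ ^ 2 = 1 := by
  have hζ : ζ ≠ 0 := by
    rintro rfl
    simp at h12
  have hp0 : (p : Qb) ≠ 0 := Nat.cast_ne_zero.2 hp.ne_zero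
  have hd' := arith_dsc hd
  let f : AddMonoid.End (Tors p (a : Qb) (b : Qb)) :=
    resT p (tw (RingHom.id Qb) ζ hζ ha.symm hb.symm)
  have hf : ∀ P : Tors p (a : Qb) (b : Qb), xc (f P : Pt (a : Qb) (b : Qb)) =
      ζ ^ 2 * xc (P : Pt (a : Qb) (b : Qb)) ∧
      yc (f P : Pt (a : Qb) (b : Qb)) = ζ ^ 3 * yc (P : Pt (a : Qb) (b : Qb)) := fun P =>
    ⟨xc_tw (RingHom.id Qb) ζ hζ ha.symm hb.symm _, yc_tw (RingHom.id Qb) ζ hζ ha.symm hb.symm _⟩
  have hf0 : ∀ P : Tors p (a : Qb) (b : Qb), f P = 0 ↔ P = 0 := by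
    intro P
    rw [Subtype.ext_iff, Subtype.ext_iff]
    exact tw_eq_zero_iff (RingHom.id Qb) ζ hζ ha.symm hb.symm _
  have hpow : ∀ (n : ℕ) (P : Tors p (a : Qb) (b : Qb)), ((f ^ n) P = 0 ↔ P = 0) ∧
      xc ((f ^ n) P : Pt (a : Qb) (b : Qb)) = ζ ^ (2 * n) * xc (P : Pt (a : Qb) (b : Qb)) ∧
      yc ((f ^ n) P : Pt (a : Qb) (b : Qb)) = ζ ^ (3 * n) * yc (P : Pt (a : Qb) (b : Qb)) := by
    intro n
    induction n with
    | zero => intro P; simp
    | succ n ih =>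
      intro P
      obtain ⟨i1, i2, i3⟩ := ih P
      have e : (f ^ (n + 1)) P = f ((f ^ n) P) := by rw [pow_succ']; rfl
      rw [e, hf0, (hf _).1, (hf _).2, i2, i3]
      exact ⟨i1, by ring, by ring⟩
  have hf12 : f ^ 12 = 1 := by
    refine AddMonoidHom.ext fun P => ?_
    obtain ⟨i1, i2, i3⟩ := hpow 12 P
    refine arith_ext i1 ?_ ?_
    · change xc ((f ^ 12) P : Pt (a : Qb) (b : Qb)) = xc (P : Pt (a : Qb) (b : Qb))
      rw [i2, show ζ ^ (2 * 12) = (ζ ^ 12) ^ 2 by ring, h12]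
      ring
    · change yc ((f ^ 12) P : Pt (a : Qb) (b : Qb)) = yc (P : Pt (a : Qb) (b : Qb))
      rw [i3, show ζ ^ (3 * 12) = (ζ ^ 12) ^ 3 by ring, h12]
      ring
  have hcop : Nat.Coprime 2 p := (Nat.coprime_primes Nat.prime_two hp).2 (by omega)
  obtain ⟨k1, k2⟩ := unip_pow h1 hu hcop
  have hsq : rho p (a : Qb) (b : Qb) σ ^ 2 = rho p (a : Qb) (b : Qb) (σ * σ) := by
    rw [rho_mul p (arith_fix σ a b) (arith_fix σ a b), pow_two]
  have hσ2 : (σ * σ) ζ = ζ := hσ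
  have hc : f * rho p (a : Qb) (b : Qb) σ ^ 2 = rho p (a : Qb) (b : Qb) σ ^ 2 * f := by
    rw [hsq]
    refine AddMonoidHom.ext fun P => ?_
    change f (rho p (a : Qb) (b : Qb) (σ * σ) P) = rho p (a : Qb) (b : Qb) (σ * σ) (f P)
    refine arith_ext ?_ ?_ ?_
    · rw [hf0, arith_rho_zero, arith_rho_zero, hf0]
    · rw [(hf _).1, xc_rho p (arith_fix _ a b), xc_rho p (arith_fix _ a b), (hf _).1, map_mul,
        map_pow, hσ2]
    · rw [(hf _).2, yc_rho p (arith_fix _ a b), yc_rho p (arith_fix _ a b), (hf _).2, map_mul,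
        map_pow, hσ2]
  exact zeta_scalar two_ne_zero hd' hp h5 hp0 hζ ha hb f hf
    (sc_of_comm hp h5 (plane_tors two_ne_zero hd' hp0) k1 k2 hc hf12)

theorem arith_sign (σ : RingAut Qb) {w : Qb} {u : ℚ} (hw : w ^ 2 = u) : σ w = w ∨ σ w = -w := by
  apply sq_eq_sq_iff_eq_or_eq_neg.1
  rw [← map_pow, hw, map_ratCast]

theorem par_of_cong {p : ℕ} (hp : p.Prime) (h5 : 5 ≤ p) {A B : ℤ} (hG : Good0 A B) {a b : ℚ}
    (hd : dsc a b ≠ 0) (hc : Cong p A B a b)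
    (hn : ¬ ∃ u : ℚ, u ≠ 0 ∧ a = u ^ 4 * A ∧ b = u ^ 6 * B) :
    Par p A B (6912 * a ^ 3 / dsc a b) := by
  obtain ⟨q, hq, hq5, hpq, hv⟩ : ∃ q : ℕ, q.Prime ∧ 5 ≤ q ∧ p ≠ q ∧
      padicValInt q (dsc A B) = 1 := by
    obtain ⟨q1, q2, p1, p2, f1, f2, hne, v1, v2⟩ := hG
    by_cases h : p = q1
    · exact ⟨q2, p2, f2, h ▸ hne, v2⟩
    · exact ⟨q1, p1, f1, h, v1⟩
  obtain ⟨hA, hB, σ0, h1, hu⟩ := exists_unip_arith hp hq (by omega) hq5 hpq hv
  have hD : dsc A B ≠ 0 := by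
    intro h
    rw [h] at hv
    simp at hv
  have hDq : ((dsc A B : ℤ) : ℚ) = dsc (A : ℚ) (B : ℚ) := by
    simp only [dsc]
    push_cast
    rfl
  have hD' : dsc (A : ℚ) (B : ℚ) ≠ 0 := by
    rw [← hDq]
    exact_mod_cast hD
  have hA' : (A : ℚ) ≠ 0 := by exact_mod_cast hA
  have hB' : (B : ℚ) ≠ 0 := by exact_mod_cast hB
  have hp0 : (p : Qb) ≠ 0 := Nat.cast_ne_zero.2 hp.ne_zero
  obtain ⟨ψ, hψ⟩ := hc
  have hψn : ∀ (n : ℕ) P, ψ ((rho p ((A : ℚ) : Qb) ((B : ℚ) : Qb) σ0 ^ n) P) =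
      (rho p (a : Qb) (b : Qb) σ0 ^ n) (ψ P) := by
    intro n
    induction n with
    | zero => intro P; rfl
    | succ n ih =>
      intro P
      rw [pow_succ', pow_succ']
      change ψ (rho p _ _ σ0 ((rho p _ _ σ0 ^ n) P)) = rho p _ _ σ0 ((rho p _ _ σ0 ^ n) (ψ P))
      rw [hψ, ih]
  have h1' : rho p (a : Qb) (b : Qb) σ0 ≠ 1 := by
    intro h
    apply h1
    refine AddMonoidHom.ext fun P => ψ.injective ?_
    change ψ (rho p _ _ σ0 P) = ψ P
    rw [hψ, h]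
    rfl
  have hu' : rho p (a : Qb) (b : Qb) σ0 ^ p = 1 := by
    refine AddMonoidHom.ext fun Q => ?_
    obtain ⟨P, rfl⟩ := ψ.surjective Q
    change (rho p (a : Qb) (b : Qb) σ0 ^ p) (ψ P) = ψ P
    rw [← hψn, hu]
    rfl
  have ha0 : a ≠ 0 := by
    rintro rfl
    obtain ⟨s, hs⟩ := IsAlgClosed.exists_pow_nat_eq (((-3 : ℚ)) : Qb) (n := 2) two_pos
    have hs' : s ^ 2 = -3 := by rw [hs]; push_cast; rfl
    have h3 : ((-1 + s) / 2) ^ 3 = 1 := by
      field_simp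
      linear_combination (s - 3) * hs'
    have h2 := arith_cm hp h5 hd h1' hu' (ζ := (-1 + s) / 2)
      (by rw [show (12 : ℕ) = 3 * 4 by rfl, pow_mul, h3, one_pow]) (by simp)
      (by rw [show (6 : ℕ) = 3 * 2 by rfl, pow_mul, h3, one_pow, one_mul])
      (by
        rcases arith_sign σ0 hs with h | h <;>
          simp only [map_div₀, map_add, map_neg, map_one, map_ofNat, h, neg_neg])
    field_simp at h2
    have h4 : s = -3 := by linear_combination (-1 / 2) * h2 + (1 / 2) * hs'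
    rw [h4] at hs'
    norm_num at hs'
  have hb0 : b ≠ 0 := by
    rintro rfl
    obtain ⟨s, hs⟩ := IsAlgClosed.exists_pow_nat_eq (((-1 : ℚ)) : Qb) (n := 2) two_pos
    have hs' : s ^ 2 = -1 := by rw [hs]; push_cast; rfl
    have h4 : s ^ 4 = 1 := by linear_combination (s ^ 2 - 1) * hs'
    have h2 := arith_cm hp h5 hd h1' hu' (ζ := s)
      (by rw [show (12 : ℕ) = 4 * 3 by rfl, pow_mul, h4, one_pow]) (by rw [h4, one_mul]) (by simp)
      (by
        rcases arith_sign σ0 hs with h | h <;> simp only [map_neg, h, neg_neg])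
    rw [h2] at hs'
    norm_num at hs'
  have hj0 : 6912 * a ^ 3 / dsc a b ≠ 0 :=
    div_ne_zero (mul_ne_zero (by norm_num) (pow_ne_zero _ ha0)) hd
  have hj1 : 1728 - 6912 * a ^ 3 / dsc a b = 46656 * b ^ 2 / dsc a b := by
    field_simp
    simp only [dsc]
    ring
  have hj2 : 1728 - 6912 * a ^ 3 / dsc a b ≠ 0 := by
    rw [hj1]
    exact div_ne_zero (mul_ne_zero (by norm_num) (pow_ne_zero _ hb0)) hd
  refine ⟨hD, hj0, fun h => hj2 (by rw [h, sub_self]), ?_, ?_⟩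
  · intro h
    rw [hDq] at h
    have key : a ^ 3 * (B : ℚ) ^ 2 = (A : ℚ) ^ 3 * b ^ 2 := by
      field_simp at h
      simp only [dsc] at h
      linear_combination (1 / 27) * h
    have hl : b * A / (a * B) ≠ 0 := div_ne_zero (mul_ne_zero hb0 hA') (mul_ne_zero ha0 hB')
    have e1 : a = (b * A / (a * B)) ^ 2 * A := by
      field_simp
      linear_combination key
    have e2 : b = (b * A / (a * B)) ^ 3 * B := by
      field_simp
      linear_combination key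
    generalize b * A / (a * B) = l at hl e1 e2
    obtain ⟨e, w, hw, -, he⟩ := scale_eqv hp.ne_zero hD' hl e1 e2
    let ρ : RingAut Qb →* AddMonoid.End (Tors p ((A : ℚ) : Qb) ((B : ℚ) : Qb)) :=
      { toFun := rho p ((A : ℚ) : Qb) ((B : ℚ) : Qb)
        map_one' := rho_one p
        map_mul' := fun σ τ => rho_mul p (arith_fix σ _ _) (arith_fix τ _ _) }
    have hρ : ∀ σ, ρ σ = rho p ((A : ℚ) : Qb) ((B : ℚ) : Qb) σ := fun _ => rfl
    have hpos : ∀ σ : RingAut Qb, σ w = w → ∀ v, (ψ.trans e.symm) (ρ σ v) =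
        ρ σ ((ψ.trans e.symm) v) := by
      intro σ hσ v
      apply e.injective
      rw [hρ, (he σ).1 hσ]
      simp [hψ]
    have hneg : ∀ σ : RingAut Qb, σ w = -w → ∀ v, (ψ.trans e.symm) (ρ σ v) =
        -ρ σ ((ψ.trans e.symm) v) := by
      intro σ hσ v
      apply e.injective
      rw [hρ, map_neg, (he σ).2 hσ]
      simp [hψ]
    have hpl := plane_tors (two_ne_zero) (arith_dsc hD') hp0
    have htw := twist_trivial ρ hp (by omega) hpl (ψ.trans e.symm) σ0 h1 hu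
      (fun σ => (arith_sign σ hw).imp (hpos σ) (hneg σ))
    have hfix : ∀ σ : RingAut Qb, σ w = w := by
      intro σ
      rcases arith_sign σ hw with h | h
      · exact h
      exfalso
      apply h1
      refine AddMonoidHom.ext fun P => ?_
      have hz : ∀ P : Tors p ((A : ℚ) : Qb) ((B : ℚ) : Qb), P = 0 := by
        intro P
        obtain ⟨v, rfl⟩ := (ψ.trans e.symm).surjective P
        have k1 := (htw σ v).symm.trans (hneg σ h v)
        rw [← arith_rho_zero σ, ← hρ]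
        generalize ρ σ ((ψ.trans e.symm) v) = R at k1
        have k2 : 2 • R = 0 := by rw [two_nsmul]; exact add_eq_zero_iff_eq_neg.2 k1
        have k3 : p • R = 0 := tors_smul R
        obtain ⟨k, hk⟩ := hp.odd_of_ne_two (by omega)
        have k4 : (2 * k + 1) • R = 0 := by rw [← hk]; exact k3
        rw [add_nsmul, mul_nsmul, k2, nsmul_zero, zero_add, one_nsmul] at k4
        exact k4
      exact (hz _).trans (hz _).symm
    have hsep : w ∈ sepF (algebraMap ℚ Qb) :=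
      mem_sepF_of_pow (n := 2) (by norm_num) (by rw [hw]; exact range_mem_sepF l)
    obtain ⟨r, s, hrs⟩ := (mem_K0_iff w).1
      (mem_K0_of_fixed clos_rat hsep (fun σ _ => hfix σ))
    have hw' : w = ((r / s : ℚ) : Qb) := by
      rw [hrs]
      simp
    have hl2 : (r / s) ^ 2 = l := by
      rw [hw'] at hw
      exact_mod_cast hw
    refine hn ⟨r / s, ?_, ?_, ?_⟩
    · intro h0
      rw [h0] at hl2
      exact hl (by rw [← hl2]; simp)
    · rw [e1, ← hl2]; ring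
    · rw [e2, ← hl2]; ring
  · have hμ : 2 / 3 * (1728 - 6912 * a ^ 3 / dsc a b) * a / b ≠ 0 :=
      div_ne_zero (mul_ne_zero (mul_ne_zero (by norm_num) hj2) ha0) hb0
    have e1 : ma (6912 * a ^ 3 / dsc a b) 1 =
        (2 / 3 * (1728 - 6912 * a ^ 3 / dsc a b) * a / b) ^ 2 * a := by
      simp only [ma, mul_one]
      rw [hj1]
      field_simp
      ring
    have e2 : mb (6912 * a ^ 3 / dsc a b) 1 =
        (2 / 3 * (1728 - 6912 * a ^ 3 / dsc a b) * a / b) ^ 3 * b := by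
      simp only [mb, mul_one]
      rw [hj1]
      field_simp
      ring
    obtain ⟨e, w, hw, -, he⟩ := scale_eqv hp.ne_zero hd hμ e1 e2
    refine ⟨ψ.trans e, fun σ => (arith_sign σ hw).imp (fun h v => ?_) (fun h v => ?_)⟩
    · simp only [AddEquiv.trans_apply]
      rw [hψ, (he σ).1 h]
    · simp only [AddEquiv.trans_apply]
      rw [hψ, (he σ).2 h]

end Pool.Agent.P.MP_a60a76_nt.Fs
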