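import Pool.Agent.P.MP_a60a76_nt.Fs.Defs

namespace Pool.Agent.P.MP_a60a76_nt.Fs

open Polynomial
open scoped NNReal

theorem MasonB_pow {k : Type*} [Field k] [IsAlgClosed k] {M : k[X]} {e : ℕ}
    (h : ∀ α, e ∣ rootMultiplicity α M) :
    ∃ g : k[X], g.Monic ∧ M = C M.leadingCoeff * g ^ e := by
  classical
  refine ⟨∏ a ∈ M.roots.toFinset, (X - C a) ^ (rootMultiplicity a M / e), ?_, ?_⟩
  · exact monic_prod_of_monic _ _ fun a _ => (monic_X_sub_C a).pow _
  · rw [← Finset.prod_pow]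
    have e1 : ∏ a ∈ M.roots.toFinset, ((X - C a) ^ (rootMultiplicity a M / e)) ^ e
        = ∏ a ∈ M.roots.toFinset, (X - C a) ^ rootMultiplicity a M :=
      Finset.prod_congr rfl fun a _ => by rw [← pow_mul, Nat.div_mul_cancel (h a)]
    rw [e1, ← prod_multiset_root_eq_finset_root,
      C_leadingCoeff_mul_prod_multiset_X_sub_C IsAlgClosed.card_roots_eq_natDegree]

theorem MasonB_deg {k : Type*} [Field k] {M g : k[X]} {e : ℕ} (hM : M ≠ 0) (hg : g.Monic)
    (h : M = C M.leadingCoeff * g ^ e) : M.natDegree = e * g.natDegree := by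
  have h1 := congrArg natDegree h
  rwa [natDegree_C_mul (leadingCoeff_ne_zero.2 hM), hg.natDegree_pow] at h1

theorem MasonB_split {k : Type*} [Field k] {p : k[X]} {n : ℕ} (hp : p.natDegree = n + 1) {r : k}
    (hr : p.eval r = 0) : ∃ q : k[X], p = (X - C r) * q ∧ q.natDegree = n ∧ q ≠ 0 := by
  obtain ⟨q, hq⟩ := dvd_iff_isRoot.2 hr
  have hq0 : q ≠ 0 := by
    rintro rfl
    rw [hq, mul_zero, natDegree_zero] at hp
    omega
  refine ⟨q, hq, ?_, hq0⟩
  rw [hq, natDegree_mul (X_sub_C_ne_zero r) hq0, natDegree_X_sub_C] at hp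
  omega

theorem MasonB_root {k : Type*} [Field k] [IsAlgClosed k] {p : k[X]} {n : ℕ}
    (hp : p.natDegree = n + 1) : ∃ r, p.eval r = 0 :=
  IsAlgClosed.exists_root p (natDegree_pos_iff_degree_pos.1 (by omega)).ne'

theorem MasonB_coeffs {k : Type*} [Field k] [Infinite k] {a0 a1 a2 a3 : k}
    (h : ∀ x : k, a0 + a1 * x + a2 * x ^ 2 + a3 * x ^ 3 = 0) :
    a0 = 0 ∧ a1 = 0 ∧ a2 = 0 ∧ a3 = 0 := by
  have e : C a0 + C a1 * X + C a2 * X ^ 2 + C a3 * X ^ 3 = (0 : k[X]) :=
    Polynomial.funext fun x => by simpa using h x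
  refine ⟨?_, ?_, ?_, ?_⟩
  · simpa using congrArg (coeff · 0) e
  · simpa [coeff_X, coeff_C, coeff_X_pow] using congrArg (coeff · 1) e
  · simpa [coeff_X, coeff_C, coeff_X_pow] using congrArg (coeff · 2) e
  · simpa [coeff_X, coeff_C, coeff_X_pow] using congrArg (coeff · 3) e

theorem MasonB_exc {R : Type*} [CommRing R] {A β : R} (h : 4 * A ^ 3 + 27 * β ^ 2 = 0)
    (N D : R[X]) : exc A N D = 729 ^ 2 *
      ((N * ((X - C β) * (X + C β) ^ 3) - 432 * C β * (4 * X - 5 * C β) ^ 3 * D) *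
        (N * ((X + C β) * (X - C β) ^ 3) + 432 * C β * (4 * X + 5 * C β) ^ 3 * D)) := by
  have e1 : 16 * A ^ 6 = 729 * β ^ 4 := by linear_combination (4 * A ^ 3 - 27 * β ^ 2) * h
  have e2 : -25920 * A ^ 3 = 174960 * β ^ 2 := by linear_combination (-6480) * h
  have e3 : 2000 * A ^ 6 = 91125 * β ^ 4 := by
    linear_combination 125 * (4 * A ^ 3 - 27 * β ^ 2) * h
  have e4 : 108 * A ^ 3 = -(729 * β ^ 2) := by linear_combination 27 * h
  have e5 : 4 * A ^ 3 = -(27 * β ^ 2) := by linear_combination h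
  have e6 : 1200 * A ^ 3 = -(8100 * β ^ 2) := by linear_combination 300 * h
  rw [exc, e1, e2, e3, e4, e5, e6]
  simp only [map_mul, map_pow, map_neg, map_ofNat]
  ring

theorem MasonB_mid {k : Type*} [Field k] [Infinite k] (h2 : (2 : k) ≠ 0) {β α ν p q : k}
    (hν : ν ≠ 0)
    (h : ∀ x : k, (x - β) * (x + β) * (x - β) * (x + β) - ν * (x - α) ^ 3
      = (x ^ 2 + p * x + q) ^ 2) : (α - β) * (α + β) = 0 := by
  obtain ⟨a0, ha0⟩ : ∃ a0, a0 = -p * α - β ^ 2 - q := ⟨_, rfl⟩
  obtain ⟨b0, hb0⟩ : ∃ b0, b0 = 2 * α ^ 2 + p * α + q - β ^ 2 := ⟨_, rfl⟩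
  obtain ⟨b1, hb1⟩ : ∃ b1, b1 = 4 * α + p := ⟨_, rfl⟩
  obtain ⟨e0, e1, e2, e3⟩ := MasonB_coeffs (a0 := a0 * b0) (a1 := a0 * b1 - p * b0)
    (a2 := 2 * a0 - p * b1) (a3 := -2 * p - ν) fun x => by
      rw [ha0, hb0, hb1]; linear_combination h (x + α)
  have hp : p ≠ 0 := by
    rintro rfl
    exact hν (by linear_combination -e3)
  have ha : a0 = 0 := by
    by_contra ha
    have hb : b0 = 0 := (mul_eq_zero.1 e0).resolve_left ha
    have hb' : b1 = 0 := (mul_eq_zero.1 (by linear_combination e1 + p * hb : a0 * b1 = 0)).resolve_left ha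
    exact mul_ne_zero h2 ha (by linear_combination e2 + p * hb')
  have hb : b0 = 0 :=
    (mul_eq_zero.1 (by linear_combination -e1 + b1 * ha : p * b0 = 0)).resolve_left hp
  exact (mul_eq_zero.1 (by linear_combination ha + hb - ha0 - hb0 :
    2 * ((α - β) * (α + β)) = 0)).resolve_left h2

theorem MasonB_side {k : Type*} [Field k] [Infinite k] (h2 : (2 : k) ≠ 0) (h3 : (3 : k) ≠ 0)
    {β α ν p q : k} (hν : ν ≠ 0) (hα : α + β ≠ 0)
    (h : ∀ x : k, (x - β) * (x + β) ^ 3 - ν * (x - α) ^ 3 = (x ^ 2 + p * x + q) ^ 2) :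
    4 * α = 5 * β ∧ ν = 16 * β := by
  obtain ⟨a, ha⟩ : ∃ a, a = α + β := ⟨_, rfl⟩
  obtain ⟨P, hP⟩ : ∃ P, P = p - 2 * β := ⟨_, rfl⟩
  obtain ⟨Q, hQ⟩ : ∃ Q, Q = β ^ 2 - p * β + q := ⟨_, rfl⟩
  obtain ⟨e0, e1, e2, e3⟩ := MasonB_coeffs (a0 := ν * a ^ 3 - Q ^ 2)
    (a1 := -3 * ν * a ^ 2 - 2 * P * Q) (a2 := 3 * ν * a - P ^ 2 - 2 * Q)
    (a3 := -2 * β - ν - 2 * P) fun x => by
      rw [ha, hP, hQ]; linear_combination h (x - β)
  have ha0 : a ≠ 0 := ha ▸ hα
  have hQ0 : Q ≠ 0 := by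
    rintro rfl
    exact mul_ne_zero hν (pow_ne_zero 3 ha0) (by linear_combination e0)
  have f1 : 2 * P * a + 3 * Q = 0 :=
    (mul_eq_zero.1 (by linear_combination -a * e1 - 3 * e0 :
      Q * (2 * P * a + 3 * Q) = 0)).resolve_left hQ0
  have f2 : P + 4 * a = 0 :=
    (mul_eq_zero.1 (by linear_combination -2 * e1 - 2 * a * e2 - P * f1 :
      Q * (P + 4 * a) = 0)).resolve_left hQ0
  have f3 : 9 * ν = 64 * a :=
    sub_eq_zero.1 ((mul_eq_zero.1 (by
      linear_combination 3 * e2 + 2 * f1 + (3 * P - 16 * a) * f2 :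
      a * (9 * ν - 64 * a) = 0)).resolve_left ha0)
  have f4 : 4 * a = 9 * β :=
    sub_eq_zero.1 ((mul_eq_zero.1 (by linear_combination 9 * e3 + f3 + 18 * f2 :
      2 * (4 * a - 9 * β) = 0)).resolve_left h2)
  refine ⟨by linear_combination f4 - 4 * ha, ?_⟩
  have h9 : (9 : k) ≠ 0 := by
    rw [show (9 : k) = 3 * 3 by norm_num]; exact mul_ne_zero h3 h3
  exact mul_left_cancel₀ h9 (by linear_combination f3 + 16 * f4)

theorem MasonB_graph {k : Type*} [Field k] [Infinite k] (h2 : (2 : k) ≠ 0) (h3 : (3 : k) ≠ 0)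
    {β α n c p q : k} (hn : n ≠ 0) (hc : c ≠ 0) (hα : α + β ≠ 0) {N D : k[X]}
    (hN : N = C n * (X - C α) ^ 3) (hD : D = C c * ((X - C β) * (X + C β) ^ 3))
    (hM : 1728 * D - N = C (1728 * c) * (X ^ 2 + C p * X + C q) ^ 2) :
    N * ((X - C β) * (X + C β) ^ 3) - 432 * C β * (4 * X - 5 * C β) ^ 3 * D = 0 := by
  have h1728 : (1728 : k) ≠ 0 := by
    rw [show (1728 : k) = 2 ^ 6 * 3 ^ 3 by norm_num]
    exact mul_ne_zero (pow_ne_zero _ h2) (pow_ne_zero _ h3)
  have hc' : 1728 * c ≠ 0 := mul_ne_zero h1728 hc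
  obtain ⟨e1, e2⟩ := MasonB_side h2 h3 (β := β) (α := α) (ν := n / (1728 * c)) (p := p) (q := q)
    (div_ne_zero hn hc') hα fun x => by
      have e := congrArg (eval x) hM
      rw [hN, hD] at e
      simp only [eval_sub, eval_mul, eval_pow, eval_add, eval_C, eval_X, eval_ofNat] at e
      refine mul_left_cancel₀ hc' ?_
      rw [mul_sub, ← mul_assoc (1728 * c) (n / _), mul_div_cancel₀ _ hc']
      linear_combination e
  rw [div_eq_iff hc'] at e2
  have e3 : (5 : k[X]) * C β = 4 * C α := by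
    have := congrArg C e1
    simp only [map_mul, map_ofNat] at this
    exact this.symm
  have e4 : C n = (16 : k[X]) * C β * (1728 * C c) := by
    have := congrArg C e2
    simpa only [map_mul, map_ofNat] using this
  rw [hN, hD, e3, e4]
  ring

theorem mason_small {k : Type*} [Field k] [IsAlgClosed k] (h2 : (2 : k) ≠ 0) (h3 : (3 : k) ≠ 0)
    {A : k} (hA : A ≠ 0) {N D : k[X]} (hc : IsCoprime N D) (hN : N ≠ 0) (hD : D ≠ 0)
    (hfin : ∀ α : k, dsc A α ≠ 0 → 3 ∣ rootMultiplicity α N ∧ 2 ∣ rootMultiplicity α (1728 * D - N))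
    (hroot : ∀ α : k, dsc A α = 0 ↔ D.eval α = 0)
    (hdeg : (D.natDegree = 2 ∧ N.natDegree = 0) ∨ (D.natDegree = 4 ∧ N.natDegree = 3)) :
    N * dsc (C A) X = C (6912 * A ^ 3) * D ∨ exc A N D = 0 := by
  have h27 : (27 : k) ≠ 0 := by
    rw [show (27 : k) = 3 ^ 3 by norm_num]; exact pow_ne_zero _ h3
  have h1728 : (1728 : k) ≠ 0 := by
    rw [show (1728 : k) = 2 ^ 6 * 3 ^ 3 by norm_num]
    exact mul_ne_zero (pow_ne_zero _ h2) (pow_ne_zero _ h3)
  obtain ⟨β, hβ⟩ := IsAlgClosed.exists_pow_nat_eq (-4 * A ^ 3 / 27) two_pos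
  have hAβ : 4 * A ^ 3 + 27 * β ^ 2 = 0 := by
    rw [hβ]; field_simp; ring
  have hβ0 : β ≠ 0 := by
    rintro rfl
    refine mul_ne_zero (mul_ne_zero h2 h2) (pow_ne_zero 3 hA) ?_
    linear_combination hAβ
  have hd : ∀ x : k, D.eval x = 0 ↔ x = β ∨ x = -β := fun x => by
    rw [← hroot, show dsc A x = 27 * ((x - β) * (x + β)) by rw [dsc]; linear_combination hAβ,
      mul_eq_zero, mul_eq_zero, sub_eq_zero, add_eq_zero_iff_eq_neg, or_iff_right h27]
  have hND : ∀ x : k, D.eval x = 0 → N.eval x ≠ 0 := fun x hx hx' => by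
    obtain ⟨u, v, huv⟩ := hc
    have := congrArg (eval x) huv
    simp [hx, hx'] at this
  have hcube : ∀ α, 3 ∣ rootMultiplicity α N := fun α => by
    by_cases h : dsc A α = 0
    · rw [rootMultiplicity_eq_zero (hND α ((hroot α).1 h))]; exact dvd_zero _
    · exact (hfin α h).1
  have hsq : ∀ α, 2 ∣ rootMultiplicity α (1728 * D - N) := fun α => by
    by_cases h : dsc A α = 0
    · have h1 := (hroot α).1 h
      rw [rootMultiplicity_eq_zero]
      · exact dvd_zero _
      · intro h'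
        apply hND α h1
        simpa [h1] using h'
    · exact (hfin α h).2
  have hlt : N.natDegree < D.natDegree := by omega
  have hD' : (1728 * D : k[X]) = C 1728 * D := rfl
  have hlt' : N.natDegree < (1728 * D : k[X]).natDegree := by
    rwa [hD', natDegree_C_mul h1728]
  have hMd : (1728 * D - N).natDegree = D.natDegree := by
    rw [natDegree_sub_eq_left_of_natDegree_lt hlt', hD', natDegree_C_mul h1728]
  have hMl : (1728 * D - N).leadingCoeff = 1728 * D.leadingCoeff := by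
    rw [leadingCoeff_sub_of_degree_lt (degree_lt_degree hlt'), hD', leadingCoeff_mul,
      leadingCoeff_C]
  have hM0 : 1728 * D - N ≠ 0 := by
    intro h
    rw [h, natDegree_zero] at hMd
    omega
  obtain ⟨g, hg, eM⟩ := MasonB_pow hsq
  have hgd := MasonB_deg hM0 hg eM
  rw [hMl] at eM
  rw [hMd] at hgd
  have hlc : D.leadingCoeff ≠ 0 := leadingCoeff_ne_zero.2 hD
  have two : ∀ n, D.natDegree = n + 2 →
      ∃ E : k[X], D = (X - C β) * ((X + C β) * E) ∧ E.natDegree = n ∧ E ≠ 0 := fun n hn => by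
    obtain ⟨D1, e1, d1, -⟩ := MasonB_split (n := n + 1) hn ((hd β).2 (Or.inl rfl))
    have h1 : D1.eval (-β) = 0 := by
      have := (hd (-β)).2 (Or.inr rfl)
      rw [e1, eval_mul, eval_sub, eval_X, eval_C] at this
      refine (mul_eq_zero.1 this).resolve_left fun h => mul_ne_zero h2 hβ0 ?_
      linear_combination -h
    obtain ⟨E, e2, d2, n2⟩ := MasonB_split d1 h1
    exact ⟨E, by rw [e1, e2, map_neg, sub_neg_eq_add], d2, n2⟩
  rcases hdeg with ⟨d1, d2⟩ | ⟨d1, d2⟩
  · left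
    obtain ⟨E, eD, dE, -⟩ := two 0 d1
    obtain ⟨c, rfl⟩ := natDegree_eq_zero.1 dE
    obtain ⟨n, rfl⟩ := natDegree_eq_zero.1 d2
    have eg := hg.eq_X_add_C (by omega)
    generalize g.coeff 0 = p at eg
    generalize D.leadingCoeff = l at eM hlc
    obtain ⟨e0, e1, e2, -⟩ := MasonB_coeffs (a0 := -1728 * c * β ^ 2 - n - 1728 * l * p ^ 2)
      (a1 := -1728 * l * (2 * p)) (a2 := 1728 * c - 1728 * l) (a3 := 0) fun x => by
        have e := congrArg (eval x) eM
        rw [eD, eg] at e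
        simp only [eval_sub, eval_mul, eval_pow, eval_add, eval_C, eval_X, eval_ofNat] at e
        linear_combination e
    have hp : p = 0 := by
      have := (mul_eq_zero.1 e1).resolve_left (mul_ne_zero (neg_ne_zero.2 h1728) hlc)
      exact (mul_eq_zero.1 this).resolve_left h2
    refine Polynomial.funext fun x => ?_
    rw [eD, dsc]
    simp only [eval_sub, eval_mul, eval_pow, eval_add, eval_C, eval_X, eval_ofNat]
    have hn : n = -1728 * c * β ^ 2 := by rw [hp] at e0; linear_combination -e0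
    rw [hn]
    linear_combination (-1728 * c * x ^ 2) * hAβ
  · right
    obtain ⟨E, eD, dE, -⟩ := two 2 d1
    obtain ⟨r, hr⟩ := MasonB_root dE
    obtain ⟨E1, eE, dE1, -⟩ := MasonB_split dE hr
    obtain ⟨s, hs⟩ := MasonB_root dE1
    obtain ⟨E2, eE1, dE2, nE2⟩ := MasonB_split dE1 hs
    obtain ⟨c, rfl⟩ := natDegree_eq_zero.1 dE2
    have hc0 : c ≠ 0 := fun h => nE2 (by rw [h, map_zero])
    have eD' : D = C c * ((X - C β) * (X + C β) * (X - C r) * (X - C s)) := by
      rw [eD, eE, eE1]; ring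
    have hl : D.leadingCoeff = c := by
      rw [eD', leadingCoeff_mul, leadingCoeff_C,
        (((((monic_X_sub_C β).mul (monic_X_add_C β)).mul (monic_X_sub_C r)).mul
          (monic_X_sub_C s))).leadingCoeff, mul_one]
    rw [hl] at eM
    obtain ⟨p, q, eg⟩ := isMonicOfDegree_two_iff.1 (⟨by omega, hg⟩ : IsMonicOfDegree g 2)
    rw [eg] at eM
    obtain ⟨L, hL, eN⟩ := MasonB_pow hcube
    have hLd := MasonB_deg hN hL eN
    have eL := hL.eq_X_add_C (by omega)
    have hn : N.leadingCoeff ≠ 0 := leadingCoeff_ne_zero.2 hN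
    generalize N.leadingCoeff = n at eN hn
    obtain ⟨α, hα⟩ : ∃ α, L.coeff 0 = -α := ⟨-L.coeff 0, (neg_neg _).symm⟩
    rw [hα, map_neg, ← sub_eq_add_neg] at eL
    rw [eL] at eN
    have hαD : ¬ (α = β ∨ α = -β) := fun h => hND α ((hd α).2 h) (by rw [eN]; simp)
    have hα1 : α + -β ≠ 0 := fun h => hαD (Or.inl (by linear_combination h))
    have hα2 : α + β ≠ 0 := fun h => hαD (Or.inr (by linear_combination h))
    have mid : D ≠ C c * ((X - C β) * (X + C β) * (X - C β) * (X + C β)) := fun e => by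
      have hc' : 1728 * c ≠ 0 := mul_ne_zero h1728 hc0
      have := MasonB_mid h2 (β := β) (α := α) (ν := n / (1728 * c)) (p := p) (q := q)
        (div_ne_zero hn hc') fun x => by
          have e' := congrArg (eval x) eM
          rw [eN, e] at e'
          simp only [eval_sub, eval_mul, eval_pow, eval_add, eval_C, eval_X, eval_ofNat] at e'
          refine mul_left_cancel₀ hc' ?_
          rw [mul_sub, ← mul_assoc (1728 * c) (n / _), mul_div_cancel₀ _ hc']
          linear_combination e'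
      exact mul_ne_zero hα1 hα2 (by linear_combination this)
    have hr' : r = β ∨ r = -β := (hd r).1 (by rw [eD']; simp)
    have hs' : s = β ∨ s = -β := (hd s).1 (by rw [eD']; simp)
    rw [MasonB_exc hAβ]
    rcases hr' with hr' | hr' <;> rcases hs' with hs' | hs' <;> rw [hr', hs'] at eD'
    · have := MasonB_graph h2 h3 (β := -β) hn hc0 hα1 eN
        (by rw [eD', map_neg]; ring) eM
      rw [map_neg] at this
      refine mul_eq_zero_of_right _ (mul_eq_zero_of_right _ ?_)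
      linear_combination this
    · exact absurd (by rw [eD', map_neg]; ring) mid
    · exact absurd (by rw [eD', map_neg]; ring) mid
    · have := MasonB_graph h2 h3 (β := β) hn hc0 hα2 eN
        (by rw [eD', map_neg]; ring) eM
      exact mul_eq_zero_of_right _ (mul_eq_zero_of_left this _)

theorem exc_map {R S : Type*} [CommRing R] [CommRing S] (φ : R →+* S) (A : R) (N D : R[X]) :
    (exc A N D).map φ = exc (φ A) (N.map φ) (D.map φ) := by
  simp only [exc, Polynomial.map_add, Polynomial.map_sub, Polynomial.map_mul, Polynomial.map_pow,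
    Polynomial.map_C, Polynomial.map_X, Polynomial.map_ofNat, map_mul, map_pow, map_neg,
    map_ofNat, Polynomial.map_neg]

theorem exc_mul {R : Type*} [CommRing R] (A : R) (g N D : R[X]) :
    exc A (g * N) (g * D) = g ^ 2 * exc A N D := by
  simp only [exc]
  ring

theorem exc_ne_zero {A : ℤ} (hA : ¬ IsSquare (-3 * A)) (P Q : ℤ[X]) (hQ : Q ≠ 0) :
    exc A P Q ≠ 0 := by
  intro h
  have hA0 : A ≠ 0 := by
    rintro rfl
    exact hA ⟨0, by simp⟩
  rw [exc] at h
  generalize h0 : P * (729 * X ^ 4 - C (16 * A ^ 6)) +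
    432 * Q * (C (-25920 * A ^ 3) * X ^ 2 + C (2000 * A ^ 6)) = U0 at h
  generalize h1 : 2 * P * X * (27 * X ^ 2 + C (4 * A ^ 3)) -
    432 * Q * (1728 * X ^ 3 - C (1200 * A ^ 3) * X) = U1 at h
  by_cases hU : U1 = 0
  · rw [hU] at h h1
    have hU0 : U0 = 0 := by simpa using h
    rw [hU0] at h0
    simp only [map_mul, map_pow, map_neg, map_ofNat] at h0 h1
    have e : 432 * Q * X * (46656 * X ^ 4 - 91152 * C A ^ 3 * X ^ 2 + 8800 * C A ^ 6) = 0 := by
      linear_combination 2 * X * h0 - (27 * X ^ 2 - 4 * C A ^ 3) * h1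
    refine mul_ne_zero (mul_ne_zero (mul_ne_zero ?_ hQ) X_ne_zero) ?_ e
    · intro h'
      simpa using congrArg (eval 0) h'
    · intro h'
      have := congrArg (eval 0) h'
      simp at this
      exact hA0 this
  · have e : U0 ^ 2 = C (-(108 * A ^ 3)) * U1 ^ 2 := by
      rw [map_neg]; linear_combination h
    have e' := congrArg leadingCoeff e
    rw [leadingCoeff_mul, leadingCoeff_C, leadingCoeff_pow, leadingCoeff_pow] at e'
    have hu : U1.leadingCoeff ≠ 0 := leadingCoeff_ne_zero.2 hU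
    generalize U0.leadingCoeff = w at e'
    generalize U1.leadingCoeff = u at e' hu
    have hdvd : (6 * A * u) ^ 2 ∣ w ^ 2 := ⟨-3 * A, by linear_combination e'⟩
    obtain ⟨t, rfl⟩ := (Int.pow_dvd_pow_iff two_ne_zero).1 hdvd
    have hne : (6 * A * u) ^ 2 ≠ 0 :=
      pow_ne_zero _ (mul_ne_zero (mul_ne_zero (by norm_num) hA0) hu)
    exact hA ⟨t, mul_left_cancel₀ hne (by linear_combination -e')⟩

end Pool.Agent.P.MP_a60a76_nt.Fs
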