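import Pool.Agent.P.MP_a60a76_nt.Fs.Defs
import Pool.Agent.P.MP_a60a76_nt.Fs.MasonB

namespace Pool.Agent.P.MP_a60a76_nt.Fs

open Polynomial
open scoped NNReal

theorem badInt_mv (F : MvPolynomial (Fin 4) ℤ) : ∃ K : ℕ, ∀ (H : ℝ) (v : Fin 4 → ℤ), 2 ≤ H →
    (∀ i, |(v i : ℝ)| ≤ H) → |((MvPolynomial.eval v F : ℤ) : ℝ)| ≤ H ^ K := by
  induction F using MvPolynomial.induction_on with
  | C a =>
    refine ⟨a.natAbs, fun H v hH _ => ?_⟩
    rw [MvPolynomial.eval_C, ← Int.cast_abs, ← Int.natCast_natAbs, Int.cast_natCast]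
    calc (a.natAbs : ℝ) ≤ ((2 ^ a.natAbs : ℕ) : ℝ) := by exact_mod_cast Nat.lt_two_pow_self.le
      _ = 2 ^ a.natAbs := by push_cast; rfl
      _ ≤ H ^ a.natAbs := pow_le_pow_left₀ (by norm_num) hH _
  | add p q hp hq =>
    obtain ⟨K1, h1⟩ := hp
    obtain ⟨K2, h2⟩ := hq
    refine ⟨K1 + K2 + 1, fun H v hH hv => ?_⟩
    have h3 : H ^ K1 ≤ H ^ (K1 + K2) := pow_le_pow_right₀ (by linarith) (by omega)
    have h4 : H ^ K2 ≤ H ^ (K1 + K2) := pow_le_pow_right₀ (by linarith) (by omega)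
    have h5 : 0 ≤ H ^ (K1 + K2) := pow_nonneg (by linarith) _
    rw [map_add, Int.cast_add, pow_succ]
    have := abs_add_le ((MvPolynomial.eval v p : ℤ) : ℝ) ((MvPolynomial.eval v q : ℤ) : ℝ)
    nlinarith [h1 H v hH hv, h2 H v hH hv]
  | mul_X p i hp =>
    obtain ⟨K, h⟩ := hp
    refine ⟨K + 1, fun H v hH hv => ?_⟩
    rw [map_mul, MvPolynomial.eval_X, Int.cast_mul, abs_mul, pow_succ]
    exact mul_le_mul (h H v hH hv) (hv i) (abs_nonneg _) (pow_nonneg (by linarith) _)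

theorem badInt_eval {e D : ℕ} {P : ℤ[X]} {H : ℝ} (hH : 2 ≤ H) (hP : P.natDegree ≤ e)
    (hc : ∀ i, (|P.coeff i| : ℝ) ≤ H) {x : ℕ} (hx : x ≤ D) :
    |((P.eval (x : ℤ) : ℤ) : ℝ)| ≤ H ^ (e + 1 + D * e + 1) := by
  have h1 : (1 : ℝ) ≤ H := by linarith
  have two : ∀ n : ℕ, (n : ℝ) ≤ H ^ n := fun n =>
    calc (n : ℝ) ≤ ((2 ^ n : ℕ) : ℝ) := by exact_mod_cast Nat.lt_two_pow_self.le
      _ = 2 ^ n := by push_cast; rfl
      _ ≤ H ^ n := pow_le_pow_left₀ (by norm_num) hH _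
  rw [eval_eq_sum_range' (Nat.lt_succ_of_le hP)]
  push_cast
  refine (Finset.abs_sum_le_sum_abs _ _).trans ?_
  have h2 : ∀ i ∈ Finset.range (e + 1), |(P.coeff i : ℝ) * (x : ℝ) ^ i| ≤ H ^ (D * e + 1) := by
    intro i hi
    have hi' : i ≤ e := Nat.lt_succ_iff.1 (Finset.mem_range.1 hi)
    have h3 : (x : ℝ) ^ i ≤ H ^ (D * e) := by
      calc (x : ℝ) ^ i ≤ (H ^ D) ^ i :=
            pow_le_pow_left₀ (Nat.cast_nonneg _)
              ((two x).trans (pow_le_pow_right₀ h1 hx)) _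
        _ = H ^ (D * i) := (pow_mul _ _ _).symm
        _ ≤ _ := pow_le_pow_right₀ h1 (Nat.mul_le_mul_left _ hi')
    rw [abs_mul, abs_pow, Nat.abs_cast, pow_succ']
    exact mul_le_mul (hc i) h3 (pow_nonneg (Nat.cast_nonneg x) i) (by linarith)
  refine (Finset.sum_le_card_nsmul _ _ _ h2).trans ?_
  rw [Finset.card_range, nsmul_eq_mul, add_assoc (e + 1), pow_add H (e + 1)]
  exact mul_le_mul_of_nonneg_right (two _) (pow_nonneg (by linarith) _)

theorem badInt_root {f : ℤ[X]} (hf : f ≠ 0) {D : ℕ} (hD : f.natDegree ≤ D) :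
    ∃ x : ℕ, x ≤ D ∧ f.eval (x : ℤ) ≠ 0 := by
  by_contra h
  push Not at h
  refine hf (eq_zero_of_natDegree_lt_card_of_eval_eq_zero' f
    ((Finset.range (D + 1)).image fun x : ℕ => (x : ℤ)) (fun z hz => ?_) ?_)
  · obtain ⟨x, hx, rfl⟩ := Finset.mem_image.1 hz
    exact h x (Nat.lt_succ_iff.1 (Finset.mem_range.1 hx))
  · rw [Finset.card_image_of_injective _ Nat.cast_injective, Finset.card_range]
    omega

theorem badInt_deg {e : ℕ} (A : ℤ) {P Q : ℤ[X]} (hP : P.natDegree ≤ e) (hQ : Q.natDegree ≤ e) :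
    (P * Q * (1728 * Q - P) * (P * dsc (C A) X - C (6912 * A ^ 3) * Q) * exc A P Q).natDegree ≤
      6 * e + 10 := by
  have h1 : (1728 * Q - P).natDegree ≤ e := by
    compute_degree
    omega
  have h2 : (P * dsc (C A) X - C (6912 * A ^ 3) * Q).natDegree ≤ e + 2 := by
    unfold dsc
    compute_degree
    omega
  have h3 : (exc A P Q).natDegree ≤ 2 * e + 8 := by
    unfold exc
    compute_degree
    omega
  refine (natDegree_mul_le_of_le (natDegree_mul_le_of_le (natDegree_mul_le_of_le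
    (natDegree_mul_le_of_le hP hQ) h1) h2) h3).trans ?_
  omega

/-- The integer whose prime factors are the bad primes of a graph. -/
theorem exists_bad (e : ℕ) : ∃ K : ℕ, ∀ (A : ℤ) (P Q : ℤ[X]) (H : ℝ), 2 ≤ H → |(A : ℝ)| ≤ H →
    ¬ IsSquare (-3 * A) → P.natDegree ≤ e → Q.natDegree ≤ e →
    (∀ i, (|P.coeff i| : ℝ) ≤ H ∧ (|Q.coeff i| : ℝ) ≤ H) → P ≠ 0 → Q ≠ 0 → 1728 * Q - P ≠ 0 →
    P * dsc (C A) X ≠ C (6912 * A ^ 3) * Q →
    ∃ R : ℤ, R ≠ 0 ∧ |(R : ℝ)| ≤ H ^ K ∧ ∀ l : ℕ, ¬ (l : ℤ) ∣ R →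
      (A : ZMod l) ≠ 0 ∧ P.map (Int.castRingHom (ZMod l)) ≠ 0 ∧
      Q.map (Int.castRingHom (ZMod l)) ≠ 0 ∧
      1728 * Q.map (Int.castRingHom (ZMod l)) - P.map (Int.castRingHom (ZMod l)) ≠ 0 ∧
      P.map (Int.castRingHom (ZMod l)) * dsc (C (A : ZMod l)) X ≠
        C (6912 * (A : ZMod l) ^ 3) * Q.map (Int.castRingHom (ZMod l)) ∧
      exc (A : ZMod l) (P.map (Int.castRingHom (ZMod l))) (Q.map (Int.castRingHom (ZMod l))) ≠ 0 := by
  let a : MvPolynomial (Fin 4) ℤ := MvPolynomial.X 0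
  let t : MvPolynomial (Fin 4) ℤ := MvPolynomial.X 1
  let p : MvPolynomial (Fin 4) ℤ := MvPolynomial.X 2
  let q : MvPolynomial (Fin 4) ℤ := MvPolynomial.X 3
  obtain ⟨K, hK⟩ := badInt_mv (a * (p * q * (1728 * q - p) *
    (p * (4 * a ^ 3 + 27 * t ^ 2) - 6912 * a ^ 3 * q) *
    ((p * (729 * t ^ 4 - 16 * a ^ 6) + 432 * q * (-25920 * a ^ 3 * t ^ 2 + 2000 * a ^ 6)) ^ 2 +
      108 * a ^ 3 * (2 * p * t * (27 * t ^ 2 + 4 * a ^ 3) -
        432 * q * (1728 * t ^ 3 - 1200 * a ^ 3 * t)) ^ 2)))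
  set D := 6 * e + 10 with hD
  set M := e + 1 + D * e + 1 + D with hM
  refine ⟨M * K, fun A P Q H hH hA hsq hP hQ hc P0 Q0 h1 h2 => ?_⟩
  have A0 : A ≠ 0 := fun h => hsq (by rw [h]; exact ⟨0, rfl⟩)
  have H1 : (1 : ℝ) ≤ H := by linarith
  obtain ⟨x, hx, hne⟩ := badInt_root (mul_ne_zero (mul_ne_zero (mul_ne_zero (mul_ne_zero P0 Q0) h1)
    (sub_ne_zero.2 h2)) (exc_ne_zero hsq P Q Q0)) (badInt_deg A hP hQ)
  refine ⟨A * _, mul_ne_zero A0 hne, ?_, fun l hl => ?_⟩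
  · have hHM : H ≤ H ^ M := le_self_pow₀ H1 (by omega)
    have := hK (H ^ M) ![A, x, P.eval (x : ℤ), Q.eval (x : ℤ)] (hH.trans hHM) fun i => by
      fin_cases i
      · exact hA.trans hHM
      · change |((x : ℤ) : ℝ)| ≤ _
        rw [Int.cast_natCast, Nat.abs_cast]
        calc (x : ℝ) ≤ ((2 ^ x : ℕ) : ℝ) := by exact_mod_cast Nat.lt_two_pow_self.le
          _ = 2 ^ x := by push_cast; rfl
          _ ≤ H ^ x := pow_le_pow_left₀ (by norm_num) hH _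
          _ ≤ _ := pow_le_pow_right₀ H1 (by omega)
      · exact (badInt_eval hH hP (fun i => (hc i).1) hx).trans
          (pow_le_pow_right₀ H1 (Nat.le_add_right _ _))
      · exact (badInt_eval hH hQ (fun i => (hc i).2) hx).trans
          (pow_le_pow_right₀ H1 (Nat.le_add_right _ _))
    rw [← pow_mul] at this
    refine le_of_eq_of_le ?_ this
    congr 2
    simp [a, t, p, q, exc, dsc]
  · have key : ∀ f g : ℤ[X], f.map (Int.castRingHom (ZMod l)) = 0 →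
        (l : ℤ) ∣ A * (f * g).eval (x : ℤ) := fun f g h => by
      refine Dvd.dvd.mul_left ?_ _
      rw [eval_mul]
      refine Dvd.dvd.mul_right ?_ _
      rw [← ZMod.intCast_zmod_eq_zero_iff_dvd]
      have := congrArg (eval ((x : ℤ) : ZMod l)) h
      rwa [eval_intCast_map, eval_zero] at this
    refine ⟨fun h => hl (Dvd.dvd.mul_right ((ZMod.intCast_zmod_eq_zero_iff_dvd _ _).1 h) _),
      fun h => hl ?_, fun h => hl ?_, fun h => hl ?_, fun h => hl ?_, fun h => hl ?_⟩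
    · rw [mul_assoc, mul_assoc, mul_assoc]
      exact key _ _ h
    · rw [mul_comm P Q, mul_assoc, mul_assoc, mul_assoc]
      exact key _ _ h
    · rw [mul_comm (P * Q), mul_assoc, mul_assoc]
      refine key _ _ ?_
      rw [← h]
      simp
    · rw [mul_comm (P * Q * _), mul_assoc]
      refine key _ _ ?_
      rw [← sub_eq_zero] at h
      rw [← h]
      simp [dsc, map_ofNat]
    · rw [mul_comm _ (exc A P Q)]
      refine key _ _ ?_
      rw [exc_map]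
      exact h

end Pool.Agent.P.MP_a60a76_nt.Fs
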