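import Pool.Agent.P.MP_a60a76_nt.Fs.Defs

namespace Pool.Agent.P.MP_a60a76_nt.Fs

open Polynomial
open scoped NNReal

variable {V W : Type*} [AddCommGroup V] [AddCommGroup W]

theorem grpB_finrank {m : ℕ} [Fact m.Prime] [Module (ZMod m) V] (hV : Plane m V) :
    Finite V ∧ Module.finrank (ZMod m) V = 2 := by
  have hm : m.Prime := Fact.out
  have hf : Finite V := Nat.finite_of_card_ne_zero (by rw [hV.1]; exact pow_ne_zero _ hm.ne_zero)
  refine ⟨hf, ?_⟩
  have h := Module.natCard_eq_pow_finrank (K := ZMod m) (V := V)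
  rw [hV.1, Nat.card_zmod] at h
  exact (Nat.pow_right_injective hm.two_le h).symm

theorem grpB_plane {m : ℕ} [Fact m.Prime] [Module (ZMod m) V] (hV : Plane m V) :
    Nonempty (V ≃+ (Fin 2 → ZMod m)) := by
  obtain ⟨hf, h2⟩ := grpB_finrank hV
  exact ⟨(Module.finBasisOfFinrankEq (ZMod m) V h2).equivFun.toAddEquiv⟩

theorem plane_equiv {m : ℕ} [Fact m.Prime] (hV : Plane m V) :
    Nonempty (V ≃+ (Fin 2 → ZMod m)) :=
  @grpB_plane V _ m _ (AddCommGroup.zmodModule hV.2) hV

/-- Additive isomorphisms are linear. -/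
def grpBLin (m : ℕ) [Module (ZMod m) V] [Module (ZMod m) W] : (V ≃+ W) ≃ (V ≃ₗ[ZMod m] W) where
  toFun e := { e with map_smul' := ZMod.map_smul e }
  invFun e := e.toAddEquiv
  left_inv _ := rfl
  right_inv _ := rfl

theorem card_iso {m : ℕ} (hm : m.Prime) (hV : Plane m V) (hW : Plane m W) :
    Nat.card (V ≃+ W) = (m ^ 2 - 1) * (m ^ 2 - m) := by
  have := Fact.mk hm
  obtain ⟨e⟩ := plane_equiv hV
  obtain ⟨e'⟩ := plane_equiv hW
  let E : (V ≃+ W) ≃ ((Fin 2 → ZMod m) ≃+ (Fin 2 → ZMod m)) :=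
    { toFun := fun ψ => (e.symm.trans ψ).trans e'
      invFun := fun φ => (e.trans φ).trans e'.symm
      left_inv := fun ψ => by ext v; simp
      right_inv := fun φ => by ext v; simp }
  rw [Nat.card_congr ((E.trans (grpBLin m)).trans
    (Matrix.GeneralLinearGroup.toLin.trans
      (LinearMap.GeneralLinearGroup.generalLinearEquiv (ZMod m) (Fin 2 → ZMod m))).toEquiv.symm),
    Matrix.card_GL_field]
  simp [Fin.prod_univ_two]

theorem grpB_count {F : Type*} [Field F] [Fintype F] (t l : F) :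
    (Fintype.card F - 1) ^ 2 ≤
      Nat.card {p : F × F // p.1 ^ 2 + t * p.1 * p.2 + l * p.2 ^ 2 ≠ 0} := by
  classical
  set q := Fintype.card F with hq
  have hq1 : 1 < q := Fintype.one_lt_card
  set P : F[X] := X ^ 2 + C t * X + C l with hP
  have hd : P.natDegree = 2 := by
    rw [hP]
    compute_degree!
  have hP0 : P ≠ 0 := by
    intro h
    rw [h] at hd
    simp at hd
  have hR : P.roots.toFinset.card ≤ 2 :=
    (Multiset.toFinset_card_le _).trans ((card_roots' P).trans hd.le)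
  have hsub : (Finset.univ.filter fun p : F × F => p.1 ^ 2 + t * p.1 * p.2 + l * p.2 ^ 2 = 0) ⊆
      insert (0, 0) ((P.roots.toFinset ×ˢ (Finset.univ.erase (0 : F))).image
        fun p => (p.1 * p.2, p.2)) := by
    rintro ⟨a, b⟩ h
    have h1 : a ^ 2 + t * a * b + l * b ^ 2 = 0 := (Finset.mem_filter.1 h).2
    by_cases hb : b = 0
    · subst hb
      have : a = 0 := by simpa using h1
      simp [this]
    · refine Finset.mem_insert_of_mem (Finset.mem_image.2 ⟨(a / b, b), ?_, ?_⟩)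
      · simp only [Finset.mem_product, Multiset.mem_toFinset, mem_roots hP0, IsRoot.def,
          Finset.mem_erase, Finset.mem_univ, and_true]
        refine ⟨?_, hb⟩
        simp only [hP, eval_add, eval_pow, eval_X, eval_mul, eval_C]
        field_simp
        linear_combination h1
      · simp [hb]
  have hz := (Finset.card_le_card hsub).trans ((Finset.card_insert_le _ _).trans
    (Nat.add_le_add_right Finset.card_image_le 1))
  rw [Finset.card_product, Finset.card_erase_of_mem (Finset.mem_univ _), Finset.card_univ,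
    ← hq] at hz
  have hsum := Finset.card_filter_add_card_filter_not (s := Finset.univ)
    (fun p : F × F => p.1 ^ 2 + t * p.1 * p.2 + l * p.2 ^ 2 = 0)
  rw [Finset.card_univ, Fintype.card_prod, ← hq] at hsum
  rw [Nat.card_eq_fintype_card, Fintype.card_subtype]
  obtain ⟨n, hn⟩ : ∃ n, q = n + 1 := ⟨q - 1, by omega⟩
  rw [hn] at hz hsum ⊢
  simp only [Nat.add_sub_cancel, ne_eq] at hz ⊢
  nlinarith

theorem grpB_intertw {F : Type*} [Field F] [Module F V] [Module F W]
    (hV : Module.finrank F V = 2) (hW : Module.finrank F W = 2) (f : V →ₗ[F] V) (g : W →ₗ[F] W)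
    (t l : F) (hf : ∀ v, f (f v) = t • f v - l • v) (hg : ∀ w, g (g w) = t • g w - l • w)
    (hf' : ¬ ∃ a : F, f = a • 1) (hg' : ¬ ∃ a : F, g = a • 1) :
    ∃ ψ : V ≃ₗ[F] W, ∀ v, ψ (f v) = g (ψ v) := by
  obtain ⟨v, hv⟩ := not_forall.1 fun h =>
    hf' (LinearMap.exists_eq_smul_id_of_forall_notLinearIndependent h)
  obtain ⟨w, hw⟩ := not_forall.1 fun h =>
    hg' (LinearMap.exists_eq_smul_id_of_forall_notLinearIndependent h)
  rw [not_not] at hv hw
  let bV := basisOfLinearIndependentOfCardEqFinrank hv (by simp [hV])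
  let bW := basisOfLinearIndependentOfCardEqFinrank hw (by simp [hW])
  have e0 : bV.equiv bW (Equiv.refl _) v = w := by
    simpa [bV, bW] using bV.equiv_apply 0 bW (Equiv.refl _)
  have e1 : bV.equiv bW (Equiv.refl _) (f v) = g w := by
    simpa [bV, bW] using bV.equiv_apply 1 bW (Equiv.refl _)
  refine ⟨bV.equiv bW (Equiv.refl _), fun x => ?_⟩
  have : (bV.equiv bW (Equiv.refl _)).toLinearMap ∘ₗ f =
      g ∘ₗ (bV.equiv bW (Equiv.refl _)).toLinearMap := by
    refine bV.ext fun i => ?_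
    fin_cases i
    · simp [bV, e0, e1]
    · simp [bV, hf, hg, e0, e1]
  exact congrArg (fun φ : V →ₗ[F] W => φ x) this

theorem grpB_card {m : ℕ} [Fact m.Prime] [Module (ZMod m) V] [Module (ZMod m) W]
    (hV : Plane m V) (hW : Plane m W)
    (f : AddMonoid.End V) (g : AddMonoid.End W) (t l : ℤ)
    (hf : ∀ v, f (f v) - t • f v + l • v = 0) (hg : ∀ w, g (g w) - t • g w + l • w = 0)
    (hf' : ¬ Sc f) (hg' : ¬ Sc g) :
    (m - 1) ^ 2 ≤ Nat.card {ψ : V ≃+ W // ∀ v, ψ (f v) = g (ψ v)} := by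
  obtain ⟨hfV, h2V⟩ := grpB_finrank hV
  obtain ⟨hfW, h2W⟩ := grpB_finrank hW
  let F : V →ₗ[ZMod m] V := AddMonoidHom.toZModLinearMap m f
  let G : W →ₗ[ZMod m] W := AddMonoidHom.toZModLinearMap m g
  have hF : ∀ v, F (F v) = (t : ZMod m) • F v - (l : ZMod m) • v := fun v => by
    rw [Int.cast_smul_eq_zsmul, Int.cast_smul_eq_zsmul]
    exact eq_sub_of_add_eq (by
      have := hf v
      change f (f v) + l • v = t • f v
      rw [← sub_eq_zero, ← this]
      abel)
  have hG : ∀ w, G (G w) = (t : ZMod m) • G w - (l : ZMod m) • w := fun w => by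
    rw [Int.cast_smul_eq_zsmul, Int.cast_smul_eq_zsmul]
    exact eq_sub_of_add_eq (by
      have := hg w
      change g (g w) + l • w = t • g w
      rw [← sub_eq_zero, ← this]
      abel)
  have hF' : ¬ ∃ a : ZMod m, F = a • 1 := by
    rintro ⟨a, ha⟩
    obtain ⟨n, rfl⟩ := ZMod.intCast_surjective a
    exact hf' ⟨n, fun v => by
      have := congrArg (fun φ : V →ₗ[ZMod m] V => φ v) ha
      exact (this.trans (by simp [Int.cast_smul_eq_zsmul]) : F v = n • v)⟩
  have hG' : ¬ ∃ a : ZMod m, G = a • 1 := by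
    rintro ⟨a, ha⟩
    obtain ⟨n, rfl⟩ := ZMod.intCast_surjective a
    exact hg' ⟨n, fun v => by
      have := congrArg (fun φ : W →ₗ[ZMod m] W => φ v) ha
      exact (this.trans (by simp [Int.cast_smul_eq_zsmul]) : G v = n • v)⟩
  obtain ⟨ψ, hψ⟩ := grpB_intertw h2V h2W F G t l hF hG hF' hG'
  have hinj : ∀ a b : ZMod m, a ^ 2 + t * a * b + l * b ^ 2 ≠ 0 →
      Function.Bijective ⇑(a • (1 : V →ₗ[ZMod m] V) + b • F) := by
    intro a b h
    refine Finite.injective_iff_bijective.1 ((injective_iff_map_eq_zero _).2 fun v hv => ?_)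
    have h1 : a • v + b • F v = 0 := by simpa using hv
    have h2 : a • F v + b • ((t : ZMod m) • F v - (l : ZMod m) • v) = 0 := by
      rw [← hF]
      simpa using congrArg F h1
    have h3 : (a ^ 2 + t * a * b + l * b ^ 2) • v = 0 := by
      linear_combination (norm := module) (a + b * t) • h1 - b • h2
    exact (smul_eq_zero.1 h3).resolve_left h
  let Φ : {p : ZMod m × ZMod m // p.1 ^ 2 + t * p.1 * p.2 + l * p.2 ^ 2 ≠ 0} →
      {ψ : V ≃+ W // ∀ v, ψ (f v) = g (ψ v)} := fun p =>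
    ⟨((LinearEquiv.ofBijective _ (hinj _ _ p.2)).trans ψ).toAddEquiv, fun v => by
      change ψ (p.1.1 • F v + p.1.2 • F (F v)) = G (ψ (p.1.1 • v + p.1.2 • F v))
      rw [← hψ, map_add F, map_smul F, map_smul F]⟩
  have hΦ : Function.Injective Φ := by
    rintro ⟨⟨a, b⟩, h⟩ ⟨⟨a', b'⟩, h'⟩ e
    have e1 : ∀ v, a • v + b • F v = a' • v + b' • F v := fun v =>
      ψ.injective (congrArg (fun φ : {ψ : V ≃+ W // ∀ v, ψ (f v) = g (ψ v)} => φ.1 v) e)
    have hb : b = b' := by
      by_contra hb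
      refine hF' ⟨(a' - a) / (b - b'), LinearMap.ext fun v => ?_⟩
      have hb' : b - b' ≠ 0 := sub_ne_zero.2 hb
      apply smul_right_injective V hb'
      change (b - b') • F v = (b - b') • ((a' - a) / (b - b')) • v
      rw [smul_smul, mul_div_cancel₀ _ hb']
      linear_combination (norm := module) e1 v
    subst hb
    have ha : a = a' := by
      have : Nontrivial V := Module.nontrivial_of_finrank_pos (R := ZMod m) (by omega)
      obtain ⟨v, hv⟩ := exists_ne (0 : V)
      exact smul_left_injective (ZMod m) hv (add_right_cancel (e1 v))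
    subst ha
    rfl
  have : Finite (V ≃+ W) := Finite.of_injective (fun e : V ≃+ W => (e : V → W))
    DFunLike.coe_injective
  have h1 := grpB_count (t : ZMod m) (l : ZMod m)
  rw [ZMod.card] at h1
  exact h1.trans (Nat.card_le_card_of_injective Φ hΦ)

theorem card_intertw {m : ℕ} (hm : m.Prime) (hV : Plane m V) (hW : Plane m W)
    (f : AddMonoid.End V) (g : AddMonoid.End W) (t l : ℤ)
    (hf : ∀ v, f (f v) - t • f v + l • v = 0) (hg : ∀ w, g (g w) - t • g w + l • w = 0)
    (hf' : ¬ Sc f) (hg' : ¬ Sc g) :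
    (m - 1) ^ 2 ≤ Nat.card {ψ : V ≃+ W // ∀ v, ψ (f v) = g (ψ v)} :=
  @grpB_card V W _ _ m ⟨hm⟩ (AddCommGroup.zmodModule hV.2) (AddCommGroup.zmodModule hW.2)
    hV hW f g t l hf hg hf' hg'

end Pool.Agent.P.MP_a60a76_nt.Fs
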