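import Pool.Agent.P.MP_a60a76_nt.Fs.Defs

namespace Pool.Agent.P.MP_a60a76_nt.Fs

open Polynomial
open scoped NNReal

theorem grpNorm_two_ne (m : ℕ) [Fact m.Prime] (h3 : 3 ≤ m) : (2 : ZMod m) ≠ 0 := by
  intro h
  have h2 : ((2 : ℕ) : ZMod m) = 0 := by exact_mod_cast h
  rw [ZMod.natCast_eq_zero_iff] at h2
  have := Nat.le_of_dvd (by norm_num) h2
  omega

theorem grpNorm_center {F : Type*} [Field F] (z : Matrix.SpecialLinearGroup (Fin 2) F)
    (hz : z ∈ Subgroup.center (Matrix.SpecialLinearGroup (Fin 2) F)) :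
    (z : Matrix (Fin 2) (Fin 2) F) = 1 ∨ (z : Matrix (Fin 2) (Fin 2) F) = -1 := by
  obtain ⟨r, hr, hr'⟩ := Matrix.SpecialLinearGroup.mem_center_iff.1 hz
  rw [Fintype.card_fin] at hr
  have h : (r - 1) * (r + 1) = 0 := by linear_combination hr
  rcases mul_eq_zero.1 h with h | h
  · left
    have : r = 1 := by linear_combination h
    rw [← hr', this, map_one]
  · right
    have : r = -1 := by linear_combination h
    rw [← hr', this, map_neg, map_one]

theorem normal_sl2 (m : ℕ) [Fact m.Prime] (h5 : 5 ≤ m) (N : Subgroup (GL (Fin 2) (ZMod m)))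
    (hN : ∀ n ∈ N, ∀ h : GL (Fin 2) (ZMod m), (h : Matrix (Fin 2) (Fin 2) (ZMod m)).det = 1 →
      h * n * h⁻¹ ∈ N)
    (g : GL (Fin 2) (ZMod m)) (hg : g ∈ N)
    (hns : ∀ c : ZMod m, (g : Matrix (Fin 2) (Fin 2) (ZMod m)) ≠ c • 1)
    (s : GL (Fin 2) (ZMod m)) (hs : (s : Matrix (Fin 2) (Fin 2) (ZMod m)).det = 1) :
    s ∈ N ∨ -s ∈ N := by
  classical
  have h2 : (2 : ZMod m) ≠ 0 := grpNorm_two_ne m (by omega)
  let N0 : Subgroup (Matrix.SpecialLinearGroup (Fin 2) (ZMod m)) :=
    N.comap Matrix.SpecialLinearGroup.toGL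
  have hN0 : N0.Normal := ⟨fun n hn h => by
    have := hN _ hn (Matrix.SpecialLinearGroup.toGL h) h.2
    simpa [N0, Subgroup.mem_comap] using this⟩
  have hsimple : IsSimpleGroup (Matrix.ProjectiveSpecialLinearGroup (Fin 2) (ZMod m)) :=
    Matrix.ProjectiveSpecialLinearGroup.rank_two_simple (by rw [Nat.card_zmod]; omega)
  let π : Matrix.SpecialLinearGroup (Fin 2) (ZMod m) →*
      Matrix.ProjectiveSpecialLinearGroup (Fin 2) (ZMod m) :=
    QuotientGroup.mk' (Subgroup.center _)
  have hπ : Function.Surjective π := QuotientGroup.mk'_surjective _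
  have hN1 : (N0.map π).Normal := hN0.map π hπ
  rcases hsimple.eq_bot_or_eq_top_of_normal _ hN1 with hb | ht
  · exfalso
    have hdet : (g : Matrix (Fin 2) (Fin 2) (ZMod m)).det ≠ 0 :=
      ((Matrix.isUnit_iff_isUnit_det _).1 g.isUnit).ne_zero
    have key : ∀ h : Matrix.SpecialLinearGroup (Fin 2) (ZMod m),
        (g : Matrix (Fin 2) (Fin 2) (ZMod m)) * h = h * g ∨
        (g : Matrix (Fin 2) (Fin 2) (ZMod m)) * h = -(h * g) := by
      intro h
      let c : GL (Fin 2) (ZMod m) :=
        g * (Matrix.SpecialLinearGroup.toGL h * g⁻¹ * (Matrix.SpecialLinearGroup.toGL h)⁻¹)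
      have hc : c ∈ N := N.mul_mem hg (hN _ (N.inv_mem hg) _ h.2)
      have hcd : (c : Matrix (Fin 2) (Fin 2) (ZMod m)).det = 1 := by
        have : Matrix.GeneralLinearGroup.det c = 1 := by
          simp only [c, map_mul, map_inv]
          rw [mul_comm (Matrix.GeneralLinearGroup.det (Matrix.SpecialLinearGroup.toGL h)),
            mul_assoc, mul_inv_cancel, mul_one, mul_inv_cancel]
        have := congrArg Units.val this
        simpa using this
      let c0 : Matrix.SpecialLinearGroup (Fin 2) (ZMod m) := ⟨c, hcd⟩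
      have hc0 : c0 ∈ N0 := by
        have : Matrix.SpecialLinearGroup.toGL c0 = c := Units.ext rfl
        simpa [N0, Subgroup.mem_comap, this] using hc
      have h1 : π c0 ∈ N0.map π := Subgroup.mem_map_of_mem π hc0
      rw [hb, Subgroup.mem_bot] at h1
      have hz : c0 ∈ Subgroup.center _ := (QuotientGroup.eq_one_iff c0).1 h1
      have e : c * (Matrix.SpecialLinearGroup.toGL h * g) =
          g * Matrix.SpecialLinearGroup.toGL h := by
        simp only [c]; group
      have e' : (c : Matrix (Fin 2) (Fin 2) (ZMod m)) *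
          ((h : Matrix (Fin 2) (Fin 2) (ZMod m)) * g) = g * h := by
        have := congrArg Units.val e
        simpa using this
      rcases grpNorm_center c0 hz with h3 | h3
      · left
        have h4 : (c : Matrix (Fin 2) (Fin 2) (ZMod m)) = 1 := h3
        rw [← e', h4, one_mul]
      · right
        have h4 : (c : Matrix (Fin 2) (Fin 2) (ZMod m)) = -1 := h3
        rw [← e', h4, neg_one_mul]
    rw [Matrix.det_fin_two] at hdet
    generalize (g : Matrix (Fin 2) (Fin 2) (ZMod m)) = G at key hdet hns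
    have hU : G 1 0 = 0 ∧ G 0 0 = G 1 1 := by
      rcases key ⟨!![1, 1; 0, 1], by simp [Matrix.det_fin_two]⟩ with h | h
      · have a1 := congrFun (congrFun h 0) 0
        have a2 := congrFun (congrFun h 0) 1
        simp [Matrix.mul_apply, Fin.sum_univ_two, Matrix.vecMul, dotProduct] at a1 a2
        exact ⟨a1, by linear_combination a2⟩
      · exfalso
        have a1 := congrFun (congrFun h 0) 0
        have a2 := congrFun (congrFun h 1) 0
        simp [Matrix.mul_apply, Fin.sum_univ_two, Matrix.vecMul, dotProduct] at a1 a2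
        have b1 : G 1 0 = 0 := by
          apply mul_left_cancel₀ h2
          linear_combination a2
        have b2 : G 0 0 = 0 := by
          apply mul_left_cancel₀ h2
          linear_combination a1 - b1
        apply hdet
        rw [b1, b2]; ring
    have hL : G 0 1 = 0 := by
      rcases key ⟨!![1, 0; 1, 1], by simp [Matrix.det_fin_two]⟩ with h | h
      · have a1 := congrFun (congrFun h 0) 0
        simp [Matrix.mul_apply, Fin.sum_univ_two, Matrix.vecMul, dotProduct] at a1
        exact a1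
      · have a2 := congrFun (congrFun h 0) 1
        simp [Matrix.mul_apply, Fin.sum_univ_two, Matrix.vecMul, dotProduct] at a2
        apply mul_left_cancel₀ h2
        linear_combination a2
    apply hns (G 0 0)
    ext i j
    fin_cases i <;> fin_cases j <;> simp [hU.1, hU.2, hL]
  · let s0 : Matrix.SpecialLinearGroup (Fin 2) (ZMod m) := ⟨s, hs⟩
    have h1 : π s0 ∈ N0.map π := by rw [ht]; exact Subgroup.mem_top _
    obtain ⟨n, hn, hns0⟩ := Subgroup.mem_map.1 h1
    have hz : n⁻¹ * s0 ∈ Subgroup.center _ := QuotientGroup.eq.1 hns0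
    have hnN : Matrix.SpecialLinearGroup.toGL n ∈ N := hn
    have e : (s : Matrix (Fin 2) (Fin 2) (ZMod m)) =
        (n : Matrix (Fin 2) (Fin 2) (ZMod m)) *
          ((n⁻¹ * s0 : Matrix.SpecialLinearGroup (Fin 2) (ZMod m)) :
            Matrix (Fin 2) (Fin 2) (ZMod m)) := by
      rw [← Matrix.SpecialLinearGroup.coe_mul, mul_inv_cancel_left]
    rcases grpNorm_center _ hz with h3 | h3
    · left
      have : s = Matrix.SpecialLinearGroup.toGL n := Units.ext (by rw [e, h3, mul_one]; rfl)
      rw [this]; exact hnN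
    · right
      have : -s = Matrix.SpecialLinearGroup.toGL n :=
        Units.ext (by rw [Units.val_neg, e, h3, mul_neg, mul_one, neg_neg]; rfl)
      rw [this]; exact hnN

theorem exists_psl2_reps (m : ℕ) [Fact m.Prime] (h3 : 3 ≤ m) :
    ∃ S : Finset (GL (Fin 2) (ZMod m)), m * (m ^ 2 - 1) / 2 ≤ S.card ∧
      (∀ s ∈ S, (s : Matrix (Fin 2) (Fin 2) (ZMod m)).det = 1) ∧
      ∀ s ∈ S, ∀ s' ∈ S, s ≠ s' → s ≠ -s' := by
  classical
  have hfin : Finite (GL (Fin 2) (ZMod m)) := inferInstance
  let _ : Fintype (GL (Fin 2) (ZMod m)) := Fintype.ofFinite _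
  let K : Subgroup (GL (Fin 2) (ZMod m)) :=
    (Matrix.GeneralLinearGroup.det : GL (Fin 2) (ZMod m) →* (ZMod m)ˣ).ker
  have hK : m * (m ^ 2 - 1) ≤ Nat.card K := by
    have h1 := K.card_mul_index
    have h2 : K.index ≤ m - 1 := by
      rw [Subgroup.index_ker]
      have := Subgroup.card_le_card_group
        (Matrix.GeneralLinearGroup.det : GL (Fin 2) (ZMod m) →* (ZMod m)ˣ).range
      rw [Nat.card_units, Nat.card_zmod] at this
      exact this
    rw [Matrix.card_GL_field, Fin.prod_univ_two, ZMod.card] at h1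
    have h4 : m ^ 2 - m ^ ((1 : Fin 2) : ℕ) = m * (m - 1) := by
      rw [Nat.mul_sub, mul_one, Fin.val_one, pow_one, sq]
    have h5 : m ^ 2 - m ^ ((0 : Fin 2) : ℕ) = m ^ 2 - 1 := by simp
    rw [h4, h5] at h1
    have h6 : m * (m ^ 2 - 1) * (m - 1) ≤ Nat.card K * (m - 1) := by
      calc m * (m ^ 2 - 1) * (m - 1) = (m ^ 2 - 1) * (m * (m - 1)) := by ring
        _ = Nat.card K * K.index := h1.symm
        _ ≤ Nat.card K * (m - 1) := Nat.mul_le_mul_left _ h2
    exact Nat.le_of_mul_le_mul_right h6 (by omega)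
  let T : Finset (GL (Fin 2) (ZMod m)) := Finset.univ.filter (fun s => s ∈ K)
  have hT : T.card = Nat.card K := by
    rw [Nat.card_eq_fintype_card, Fintype.card_subtype]
  have hmem : ∀ s : GL (Fin 2) (ZMod m),
      s ∈ T ↔ (s : Matrix (Fin 2) (Fin 2) (ZMod m)).det = 1 := by
    intro s
    simp only [T, K, Finset.mem_filter, Finset.mem_univ, true_and, MonoidHom.mem_ker]
    rw [← Units.val_eq_one]
    rfl
  let e := Fintype.equivFin (GL (Fin 2) (ZMod m))
  let S := T.filter (fun s => e s ≤ e (-s))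
  refine ⟨S, ?_, fun s hs => (hmem s).1 (Finset.mem_filter.1 hs).1, ?_⟩
  · have hsub : T ⊆ S ∪ S.image (fun s => -s) := by
      intro s hs
      rcases le_total (e s) (e (-s)) with h | h
      · exact Finset.mem_union_left _ (Finset.mem_filter.2 ⟨hs, h⟩)
      · refine Finset.mem_union_right _ (Finset.mem_image.2 ⟨-s, Finset.mem_filter.2 ⟨?_, ?_⟩,
          neg_neg s⟩)
        · rw [hmem] at hs ⊢
          rw [Units.val_neg, Matrix.det_neg, hs]
          simp
        · rw [neg_neg]; exact h
    have h7 := Finset.card_le_card hsub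
    have h8 := Finset.card_union_le S (S.image (fun s => -s))
    have h9 : (S.image (fun s => -s)).card ≤ S.card := Finset.card_image_le
    omega
  · intro s hs s' hs' hne h
    have a1 := (Finset.mem_filter.1 hs).2
    have a2 := (Finset.mem_filter.1 hs').2
    rw [← h] at a2
    rw [h, neg_neg, ← h] at a1
    exact hne (e.injective (le_antisymm a1 a2))

end Pool.Agent.P.MP_a60a76_nt.Fs
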