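import Pool.Agent.P.MP_a60a76_nt.Fs.Defs

namespace Pool.Agent.P.MP_a60a76_nt.Fs

open Polynomial
open scoped NNReal

theorem GrpSL_mul {F : Type*} [Field F] (K : Subgroup (GL (Fin 2) F))
    {A B : Matrix (Fin 2) (Fin 2) F}
    (hA : ∃ h ∈ K, (h : Matrix (Fin 2) (Fin 2) F) = A)
    (hB : ∃ h ∈ K, (h : Matrix (Fin 2) (Fin 2) F) = B) :
    ∃ h ∈ K, (h : Matrix (Fin 2) (Fin 2) F) = A * B := by
  obtain ⟨a, ha, rfl⟩ := hA
  obtain ⟨b, hb, rfl⟩ := hB
  exact ⟨a * b, K.mul_mem ha hb, Units.val_mul a b⟩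

theorem GrpSL_up (m : ℕ) [Fact m.Prime] (K : Subgroup (GL (Fin 2) (ZMod m))) (t : ZMod m)
    (ht : t ≠ 0) (hx : ∃ h ∈ K, (h : Matrix (Fin 2) (Fin 2) (ZMod m)) = !![1, t; 0, 1])
    (c : ZMod m) : ∃ h ∈ K, (h : Matrix (Fin 2) (Fin 2) (ZMod m)) = !![1, c; 0, 1] := by
  have key : ∀ n : ℕ, ∃ h ∈ K, (h : Matrix (Fin 2) (Fin 2) (ZMod m)) = !![1, (n : ZMod m) * t; 0, 1] := by
    intro n
    induction n with
    | zero =>
      refine ⟨1, K.one_mem, ?_⟩
      rw [Units.val_one, Matrix.one_fin_two]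
      simp
    | succ n ih =>
      obtain ⟨h, hh, e⟩ := GrpSL_mul K ih hx
      refine ⟨h, hh, ?_⟩
      rw [e, Matrix.mul_fin_two]
      have : (1 : ZMod m) * t + (n : ZMod m) * t * 1 = ((n + 1 : ℕ) : ZMod m) * t := by
        push_cast; ring
      rw [this]
      simp
  obtain ⟨h, hh, e⟩ := key (c / t).val
  refine ⟨h, hh, ?_⟩
  rw [e, ZMod.natCast_zmod_val, div_mul_cancel₀ c ht]

theorem GrpSL_low (m : ℕ) [Fact m.Prime] (K : Subgroup (GL (Fin 2) (ZMod m))) (t : ZMod m)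
    (ht : t ≠ 0) (hx : ∃ h ∈ K, (h : Matrix (Fin 2) (Fin 2) (ZMod m)) = !![1, 0; t, 1])
    (c : ZMod m) : ∃ h ∈ K, (h : Matrix (Fin 2) (Fin 2) (ZMod m)) = !![1, 0; c, 1] := by
  have key : ∀ n : ℕ, ∃ h ∈ K, (h : Matrix (Fin 2) (Fin 2) (ZMod m)) = !![1, 0; (n : ZMod m) * t, 1] := by
    intro n
    induction n with
    | zero =>
      refine ⟨1, K.one_mem, ?_⟩
      rw [Units.val_one, Matrix.one_fin_two]
      simp
    | succ n ih =>
      obtain ⟨h, hh, e⟩ := GrpSL_mul K ih hx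
      refine ⟨h, hh, ?_⟩
      rw [e, Matrix.mul_fin_two]
      have : (n : ZMod m) * t * 1 + 1 * t = ((n + 1 : ℕ) : ZMod m) * t := by
        push_cast; ring
      rw [this]
      simp
  obtain ⟨h, hh, e⟩ := key (c / t).val
  refine ⟨h, hh, ?_⟩
  rw [e, ZMod.natCast_zmod_val, div_mul_cancel₀ c ht]

theorem GrpSL_ne {F : Type*} [Field F] (K : Subgroup (GL (Fin 2) F))
    (hU : ∀ c : F, ∃ h ∈ K, (h : Matrix (Fin 2) (Fin 2) F) = !![1, c; 0, 1])
    (hL : ∀ c : F, ∃ h ∈ K, (h : Matrix (Fin 2) (Fin 2) F) = !![1, 0; c, 1])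
    (a b c d : F) (hd : a * d - b * c = 1) (hc : c ≠ 0) :
    ∃ h ∈ K, (h : Matrix (Fin 2) (Fin 2) F) = !![a, b; c, d] := by
  obtain ⟨h, hh, e⟩ := GrpSL_mul K (GrpSL_mul K (hU ((a - 1) / c)) (hL c)) (hU ((d - 1) / c))
  refine ⟨h, hh, ?_⟩
  rw [e, Matrix.mul_fin_two, Matrix.mul_fin_two]
  have e1 : (1 * 1 + (a - 1) / c * c) * 1 + (1 * 0 + (a - 1) / c * 1) * 0 = a := by
    field_simp; ring
  have e2 : (1 * 1 + (a - 1) / c * c) * ((d - 1) / c) + (1 * 0 + (a - 1) / c * 1) * 1 = b := by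
    field_simp; linear_combination hd
  have e3 : (0 * 1 + 1 * c) * 1 + (0 * 0 + 1 * 1) * 0 = c := by ring
  have e4 : (0 * 1 + 1 * c) * ((d - 1) / c) + (0 * 0 + 1 * 1) * 1 = d := by
    field_simp; ring
  rw [e1, e2, e3, e4]

theorem GrpSL_all {F : Type*} [Field F] (K : Subgroup (GL (Fin 2) F))
    (hU : ∀ c : F, ∃ h ∈ K, (h : Matrix (Fin 2) (Fin 2) F) = !![1, c; 0, 1])
    (hL : ∀ c : F, ∃ h ∈ K, (h : Matrix (Fin 2) (Fin 2) F) = !![1, 0; c, 1])
    (g : GL (Fin 2) F) (hg : (g : Matrix (Fin 2) (Fin 2) F).det = 1) : g ∈ K := by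
  have hA : ∃ h ∈ K, (h : Matrix (Fin 2) (Fin 2) F) = (g : Matrix (Fin 2) (Fin 2) F) := by
    generalize (g : Matrix (Fin 2) (Fin 2) F) = A at hg
    rw [Matrix.det_fin_two] at hg
    rw [Matrix.eta_fin_two A]
    generalize A 0 0 = a at hg
    generalize A 0 1 = b at hg
    generalize A 1 0 = c at hg
    generalize A 1 1 = d at hg
    by_cases hc : c = 0
    · subst hc
      have ha : a ≠ 0 := by
        rintro rfl
        simp at hg
      obtain ⟨h, hh, e⟩ := GrpSL_mul K (hL (-1))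
        (GrpSL_ne K hU hL a b a (b + d) (by linear_combination hg) ha)
      refine ⟨h, hh, ?_⟩
      rw [e, Matrix.mul_fin_two]
      simp
    · exact GrpSL_ne K hU hL a b c d hg hc
  obtain ⟨h, hh, e⟩ := hA
  have : h = g := Units.ext e
  exact this ▸ hh

theorem GrpSL_conj_fix {F : Type*} [Field F] (P u : GL (Fin 2) F) (i : Fin 2)
    (hu : (u : Matrix (Fin 2) (Fin 2) F).mulVec (fun j => (P : Matrix (Fin 2) (Fin 2) F) j i)
      = fun j => (P : Matrix (Fin 2) (Fin 2) F) j i) (j : Fin 2) :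
    ((P⁻¹ * u * P : GL (Fin 2) F) : Matrix (Fin 2) (Fin 2) F) j i = (1 : Matrix (Fin 2) (Fin 2) F) j i := by
  have h1 : ∀ k, ((u * P : GL (Fin 2) F) : Matrix (Fin 2) (Fin 2) F) k i
      = (P : Matrix (Fin 2) (Fin 2) F) k i := by
    intro k
    have := congrFun hu k
    rw [Units.val_mul, Matrix.mul_apply]
    exact this
  rw [mul_assoc, Units.val_mul, Matrix.mul_apply]
  simp only [h1]
  rw [← Matrix.mul_apply, ← Units.val_mul, inv_mul_cancel, Units.val_one]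

theorem GrpSL_det_conj {F : Type*} [Field F] (P u : GL (Fin 2) F) :
    ((P⁻¹ * u * P : GL (Fin 2) F) : Matrix (Fin 2) (Fin 2) F).det
      = (u : Matrix (Fin 2) (Fin 2) F).det := by
  have h : ((P⁻¹ : GL (Fin 2) F) : Matrix (Fin 2) (Fin 2) F).det
      * (P : Matrix (Fin 2) (Fin 2) F).det = 1 := by
    rw [← Matrix.det_mul, ← Units.val_mul, inv_mul_cancel, Units.val_one, Matrix.det_one]
  rw [Units.val_mul, Units.val_mul, Matrix.det_mul, Matrix.det_mul]
  linear_combination (u : Matrix (Fin 2) (Fin 2) F).det * h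

theorem sl2_le (m : ℕ) [Fact m.Prime] (H : Subgroup (GL (Fin 2) (ZMod m)))
    (h1 : ∃ u ∈ H, u ≠ 1 ∧ u ^ m = 1)
    (h2 : ∀ w : Fin 2 → ZMod m, w ≠ 0 → ∃ g ∈ H, ∀ c : ZMod m,
      (g : Matrix (Fin 2) (Fin 2) (ZMod m)).mulVec w ≠ c • w)
    (g : GL (Fin 2) (ZMod m)) (hg : (g : Matrix (Fin 2) (Fin 2) (ZMod m)).det = 1) : g ∈ H := by
  obtain ⟨u, huH, hu1, hum⟩ := h1
  have hp : m.Prime := Fact.out
  have hum' : (u : Matrix (Fin 2) (Fin 2) (ZMod m)) ^ m = 1 := by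
    rw [← Units.val_pow_eq_pow_val, hum, Units.val_one]
  have hdet : (u : Matrix (Fin 2) (Fin 2) (ZMod m)).det = 1 := by
    have := congrArg Matrix.det hum'
    rwa [Matrix.det_pow, ZMod.pow_card, Matrix.det_one] at this
  have hN : ((u : Matrix (Fin 2) (Fin 2) (ZMod m)) - 1) ^ m = 0 := by
    rw [sub_pow_char_of_commute m (Commute.one_right _), hum', one_pow, sub_self]
  have hN0 : ((u : Matrix (Fin 2) (Fin 2) (ZMod m)) - 1).det = 0 := by
    have := congrArg Matrix.det hN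
    rwa [Matrix.det_pow, ZMod.pow_card, Matrix.det_zero] at this
  obtain ⟨w, hw0, hw⟩ := Matrix.exists_mulVec_eq_zero_iff.mpr hN0
  have hfix : (u : Matrix (Fin 2) (Fin 2) (ZMod m)).mulVec w = w := by
    rw [Matrix.sub_mulVec, Matrix.one_mulVec, sub_eq_zero] at hw
    exact hw
  obtain ⟨k, hkH, hk⟩ := h2 w hw0
  set v : Fin 2 → ZMod m := (k : Matrix (Fin 2) (Fin 2) (ZMod m)).mulVec w with hv
  have hD : (!![w 0, v 0; w 1, v 1] : Matrix (Fin 2) (Fin 2) (ZMod m)).det ≠ 0 := by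
    rw [Matrix.det_fin_two_of]
    intro h0
    by_cases hw1 : w 0 = 0
    · have hw2 : w 1 ≠ 0 := by
        intro h
        apply hw0
        funext i
        fin_cases i
        · exact hw1
        · exact h
      apply hk (v 1 / w 1)
      funext i
      fin_cases i
      · show v 0 = v 1 / w 1 * w 0
        field_simp
        linear_combination -h0
      · show v 1 = v 1 / w 1 * w 1
        field_simp
    · apply hk (v 0 / w 0)
      funext i
      fin_cases i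
      · show v 0 = v 0 / w 0 * w 0
        field_simp
      · show v 1 = v 0 / w 0 * w 1
        field_simp
        linear_combination h0
  let P : GL (Fin 2) (ZMod m) := Matrix.GeneralLinearGroup.mkOfDetNeZero _ hD
  have hP : (P : Matrix (Fin 2) (Fin 2) (ZMod m)) = !![w 0, v 0; w 1, v 1] := rfl
  have hP0 : (fun j => (P : Matrix (Fin 2) (Fin 2) (ZMod m)) j 0) = w := by
    funext j
    fin_cases j <;> simp [hP]
  have hP1 : (fun j => (P : Matrix (Fin 2) (Fin 2) (ZMod m)) j 1) = v := by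
    funext j
    fin_cases j <;> simp [hP]
  let K : Subgroup (GL (Fin 2) (ZMod m)) := H.comap (MulAut.conj P).toMonoidHom
  have hK : ∀ x : GL (Fin 2) (ZMod m), x ∈ H → P⁻¹ * x * P ∈ K := by
    intro x hx
    show P * (P⁻¹ * x * P) * P⁻¹ ∈ H
    have : P * (P⁻¹ * x * P) * P⁻¹ = x := by group
    rw [this]
    exact hx
  have hne : ∀ x : GL (Fin 2) (ZMod m), x ≠ 1 →
      ((P⁻¹ * x * P : GL (Fin 2) (ZMod m)) : Matrix (Fin 2) (Fin 2) (ZMod m)) ≠ 1 := by
    intro x hx h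
    apply hx
    have h' : P⁻¹ * x * P = 1 := Units.ext h
    have : x = P * (P⁻¹ * x * P) * P⁻¹ := by group
    rw [this, h']
    group
  have hU : ∀ c : ZMod m, ∃ h ∈ K, (h : Matrix (Fin 2) (Fin 2) (ZMod m)) = !![1, c; 0, 1] := by
    have f := GrpSL_conj_fix P u 0 (by rw [hP0]; exact hfix)
    have d := (GrpSL_det_conj P u).trans hdet
    have n := hne u hu1
    have hm := hK u huH
    generalize P⁻¹ * u * P = x at f d n hm
    have f0 := f 0
    have f1 := f 1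
    rw [Matrix.one_apply_eq] at f0
    rw [Matrix.one_apply_ne (by decide)] at f1
    rw [Matrix.det_fin_two, f0, f1, mul_zero, sub_zero, one_mul] at d
    have e : (x : Matrix (Fin 2) (Fin 2) (ZMod m))
        = !![1, (x : Matrix (Fin 2) (Fin 2) (ZMod m)) 0 1; 0, 1] := by
      conv_lhs => rw [Matrix.eta_fin_two (x : Matrix (Fin 2) (Fin 2) (ZMod m)), f0, f1, d]
    refine GrpSL_up m K _ ?_ ⟨x, hm, e⟩
    intro h0
    apply n
    rw [e, h0, Matrix.one_fin_two]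
  have hL : ∀ c : ZMod m, ∃ h ∈ K, (h : Matrix (Fin 2) (Fin 2) (ZMod m)) = !![1, 0; c, 1] := by
    have hfix' : ((k * u * k⁻¹ : GL (Fin 2) (ZMod m)) : Matrix (Fin 2) (Fin 2) (ZMod m)).mulVec v = v := by
      rw [hv, Matrix.mulVec_mulVec, ← Units.val_mul, inv_mul_cancel_right, Units.val_mul,
        ← Matrix.mulVec_mulVec, hfix]
    have hdet' : ((k * u * k⁻¹ : GL (Fin 2) (ZMod m)) : Matrix (Fin 2) (Fin 2) (ZMod m)).det = 1 := by
      have := GrpSL_det_conj k⁻¹ u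
      rw [inv_inv] at this
      exact this.trans hdet
    have hu1' : k * u * k⁻¹ ≠ 1 := by
      intro h
      apply hu1
      have : u = k⁻¹ * (k * u * k⁻¹) * k := by group
      rw [this, h]
      group
    have f := GrpSL_conj_fix P (k * u * k⁻¹) 1 (by rw [hP1]; exact hfix')
    have d := (GrpSL_det_conj P (k * u * k⁻¹)).trans hdet'
    have n := hne _ hu1'
    have hm := hK _ (H.mul_mem (H.mul_mem hkH huH) (H.inv_mem hkH))
    generalize P⁻¹ * (k * u * k⁻¹) * P = x at f d n hm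
    have f0 := f 0
    have f1 := f 1
    rw [Matrix.one_apply_eq] at f1
    rw [Matrix.one_apply_ne (by decide)] at f0
    rw [Matrix.det_fin_two, f0, f1, zero_mul, sub_zero, mul_one] at d
    have e : (x : Matrix (Fin 2) (Fin 2) (ZMod m))
        = !![1, 0; (x : Matrix (Fin 2) (Fin 2) (ZMod m)) 1 0, 1] := by
      conv_lhs => rw [Matrix.eta_fin_two (x : Matrix (Fin 2) (Fin 2) (ZMod m)), f0, f1, d]
    refine GrpSL_low m K _ ?_ ⟨x, hm, e⟩
    intro h0
    apply n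
    rw [e, h0, Matrix.one_fin_two]
  have hfin : P⁻¹ * g * P ∈ K := GrpSL_all K hU hL _ ((GrpSL_det_conj P g).trans hg)
  have h3 : P * (P⁻¹ * g * P) * P⁻¹ ∈ H := hfin
  have : P * (P⁻¹ * g * P) * P⁻¹ = g := by group
  rwa [this] at h3

end Pool.Agent.P.MP_a60a76_nt.Fs
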