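import Pool.Agent.P.MP_a60a76_nt.Fs.Defs
import Pool.Agent.P.MP_a60a76_nt.Fs.GrpB
import Pool.Agent.P.MP_a60a76_nt.Fs.GrpSL
import Pool.Agent.P.MP_a60a76_nt.Fs.GrpNorm

namespace Pool.Agent.P.MP_a60a76_nt.Fs

open Polynomial
open scoped NNReal

theorem grpOrb_ext {V : Type*} [AddCommGroup V] {m : ℕ} (e : V ≃+ (Fin 2 → ZMod m))
    {A B : Matrix (Fin 2) (Fin 2) (ZMod m)} (h : ∀ v, A.mulVec (e v) = B.mulVec (e v)) :
    A = B := by
  apply Matrix.toLin'.injective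
  refine LinearMap.ext fun w => ?_
  have := h (e.symm w)
  rwa [e.apply_symm_apply] at this

theorem grpOrb_hom {G V : Type*} [Group G] [AddCommGroup V] (ρ : G →* AddMonoid.End V) {m : ℕ}
    (e : V ≃+ (Fin 2 → ZMod m)) :
    ∃ φ : G →* GL (Fin 2) (ZMod m), ∀ σ v,
      (φ σ : Matrix (Fin 2) (Fin 2) (ZMod m)).mulVec (e v) = e (ρ σ v) := by
  have key : ∀ σ, ∃ A : Matrix (Fin 2) (Fin 2) (ZMod m), ∀ v, A.mulVec (e v) = e (ρ σ v) := by
    intro σ
    refine ⟨LinearMap.toMatrix' (AddMonoidHom.toZModLinearMap m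
      (e.toAddMonoidHom.comp ((ρ σ : V →+ V).comp e.symm.toAddMonoidHom))), fun v => ?_⟩
    rw [LinearMap.toMatrix'_mulVec]
    change e (ρ σ (e.symm (e v))) = _
    rw [e.symm_apply_apply]
  choose A hA using key
  let Φ : G →* Matrix (Fin 2) (Fin 2) (ZMod m) :=
    { toFun := A
      map_one' := grpOrb_ext e fun v => by
        rw [hA, map_one, Matrix.one_mulVec]
        rfl
      map_mul' := fun σ τ => grpOrb_ext e fun v => by
        rw [← Matrix.mulVec_mulVec, hA, hA, hA, map_mul]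
        rfl }
  exact ⟨Φ.toHomUnits, hA⟩

/-- The elements acting by a sign. -/
def grpOrbSub {G W : Type*} [Group G] [AddCommGroup W] (ρ : G →* AddMonoid.End W) :
    Subgroup G where
  carrier := {σ | PM (ρ σ)}
  one_mem' := Or.inl fun v => by rw [map_one]; rfl
  mul_mem' := by
    intro σ τ hσ hτ
    have e : ∀ v, ρ (σ * τ) v = ρ σ (ρ τ v) := fun v => by rw [map_mul]; rfl
    rcases hσ with hσ | hσ <;> rcases hτ with hτ | hτ
    · exact Or.inl fun v => by rw [e, hσ, hτ]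
    · exact Or.inr fun v => by rw [e, hσ, hτ]
    · exact Or.inr fun v => by rw [e, hσ, hτ]
    · exact Or.inl fun v => by rw [e, hσ, hτ, neg_neg]
  inv_mem' := by
    intro σ hσ
    have e : ∀ v, ρ σ (ρ σ⁻¹ v) = v := fun v => by
      have : ρ (σ * σ⁻¹) v = ρ σ (ρ σ⁻¹ v) := by rw [map_mul]; rfl
      rw [← this, mul_inv_cancel, map_one]
      rfl
    rcases hσ with hσ | hσ
    · exact Or.inl fun v => by rw [← hσ (ρ σ⁻¹ v), e]
    · exact Or.inr fun v => by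
        have := e v
        rw [hσ] at this
        exact neg_eq_iff_eq_neg.1 this

theorem grpOrbSub_conj {G W : Type*} [Group G] [AddCommGroup W] (ρ : G →* AddMonoid.End W)
    {σ : G} (hσ : σ ∈ grpOrbSub ρ) (τ : G) : τ * σ * τ⁻¹ ∈ grpOrbSub ρ := by
  have e : ∀ v, ρ (τ * σ * τ⁻¹) v = ρ τ (ρ σ (ρ τ⁻¹ v)) := fun v => by
    rw [map_mul, map_mul]; rfl
  have e' : ∀ v, ρ τ (ρ τ⁻¹ v) = v := fun v => by
    have : ρ (τ * τ⁻¹) v = ρ τ (ρ τ⁻¹ v) := by rw [map_mul]; rfl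
    rw [← this, mul_inv_cancel, map_one]
    rfl
  rcases hσ with hσ | hσ
  · exact Or.inl fun v => by rw [e, hσ, e']
  · exact Or.inr fun v => by rw [e, hσ, map_neg, e']

theorem grpOrb_smul {m : ℕ} [NeZero m] (c : ZMod m) (w : Fin 2 → ZMod m) :
    c • w = (c.val : ℤ) • w := by
  rw [← Int.cast_smul_eq_zsmul (ZMod m), Int.cast_natCast, ZMod.natCast_zmod_val]

theorem orb_big {G V W : Type*} [Group G] [AddCommGroup V] [AddCommGroup W]
    (ρ1 : G →* AddMonoid.End V) (ρ2 : G →* AddMonoid.End W) {m : ℕ} (hm : m.Prime) (h5 : 5 ≤ m)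
    (hV : Plane m V) (h1 : ∃ σ, ρ1 σ ≠ 1 ∧ ρ1 σ ^ m = 1)
    (h2 : ∀ H : AddSubgroup V, Nat.card H = m → ∃ σ, ∃ P ∈ H, ρ1 σ P ∉ H)
    (h3 : ∃ σ, ¬ Sc (ρ1 σ) ∧ PM (ρ2 σ)) :
    ∃ S : Finset G, m * (m ^ 2 - 1) / 2 ≤ S.card ∧ (∀ σ ∈ S, PM (ρ2 σ)) ∧
      ∀ σ ∈ S, ∀ σ' ∈ S, σ ≠ σ' → ¬ PM (ρ1 (σ⁻¹ * σ')) := by
  classical
  have : Fact m.Prime := ⟨hm⟩
  obtain ⟨e⟩ := plane_equiv hV
  obtain ⟨φ, hφ⟩ := grpOrb_hom ρ1 e
  have hSL : ∀ g : GL (Fin 2) (ZMod m), (g : Matrix (Fin 2) (Fin 2) (ZMod m)).det = 1 →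
      g ∈ φ.range := by
    refine sl2_le m φ.range ?_ ?_
    · obtain ⟨σ, hσ, hu⟩ := h1
      refine ⟨φ σ, ⟨σ, rfl⟩, fun h => hσ ?_, ?_⟩
      · refine AddMonoidHom.ext fun v => e.injective ?_
        have := hφ σ v
        rw [h, Units.val_one, Matrix.one_mulVec] at this
        exact this.symm
      · rw [← map_pow]
        refine Units.ext (grpOrb_ext e fun v => ?_)
        rw [hφ, map_pow, hu, Units.val_one, Matrix.one_mulVec]
        rfl
    · intro w hw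
      have hw0 : e.symm w ≠ 0 := fun h => hw (by simpa using h)
      obtain ⟨σ, P, hP, hσ⟩ := h2 (AddSubgroup.zmultiples (e.symm w)) (by
        rw [Nat.card_zmultiples]
        exact addOrderOf_eq_prime (hV.2 _) hw0)
      refine ⟨φ σ, ⟨σ, rfl⟩, fun c hc => hσ ?_⟩
      obtain ⟨n, rfl⟩ := AddSubgroup.mem_zmultiples_iff.1 hP
      have h := hφ σ (e.symm w)
      rw [e.apply_symm_apply, hc, grpOrb_smul] at h
      have h' : ρ1 σ (e.symm w) = (c.val : ℤ) • e.symm w := by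
        apply e.injective
        rw [← h, map_zsmul, e.apply_symm_apply]
      rw [map_zsmul, h']
      exact AddSubgroup.zsmul_mem _ (AddSubgroup.zsmul_mem _ (AddSubgroup.mem_zmultiples _) _) _
  obtain ⟨σ0, hs0, hp0⟩ := h3
  have hN := normal_sl2 m h5 ((grpOrbSub ρ2).map φ)
    (by
      rintro _ ⟨σ, hσ, rfl⟩ h hh
      obtain ⟨τ, rfl⟩ := hSL h hh
      exact ⟨τ * σ * τ⁻¹, grpOrbSub_conj ρ2 hσ τ, by rw [map_mul, map_mul, map_inv]⟩)
    (φ σ0) ⟨σ0, hp0, rfl⟩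
    (fun c hc => hs0 ⟨c.val, fun v => e.injective (by
      rw [← hφ, hc, Matrix.smul_mulVec, Matrix.one_mulVec, grpOrb_smul, map_zsmul])⟩)
  obtain ⟨S0, hcard, hdet, hS0⟩ := exists_psl2_reps m (by omega)
  have key : ∀ s : GL (Fin 2) (ZMod m), ∃ σ : G, s ∈ S0 → PM (ρ2 σ) ∧ (φ σ = s ∨ φ σ = -s) := by
    intro s
    by_cases hs : s ∈ S0
    · rcases hN s (hdet s hs) with ⟨σ, hσ, h⟩ | ⟨σ, hσ, h⟩
      · exact ⟨σ, fun _ => ⟨hσ, Or.inl h⟩⟩
      · exact ⟨σ, fun _ => ⟨hσ, Or.inr h⟩⟩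
    · exact ⟨1, fun h => absurd h hs⟩
  choose f hf using key
  have hsep : ∀ s ∈ S0, ∀ s' ∈ S0, s ≠ s' → ¬ PM (ρ1 ((f s)⁻¹ * f s')) := by
    intro s hs s' hs' hne hPM
    have hne' := hS0 s hs s' hs' hne
    have h : φ (f s') = φ (f s) ∨ φ (f s') = -φ (f s) := by
      rcases hPM with h | h
      · left
        have : φ ((f s)⁻¹ * f s') = 1 := Units.ext (grpOrb_ext e fun v => by
          rw [hφ, h, Units.val_one, Matrix.one_mulVec])
        rw [map_mul, map_inv, inv_mul_eq_one] at this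
        exact this.symm
      · right
        have : φ ((f s)⁻¹ * f s') = -1 := Units.ext (grpOrb_ext e fun v => by
          rw [hφ, h, Units.val_neg, Units.val_one, Matrix.neg_mulVec, Matrix.one_mulVec, map_neg])
        rw [map_mul, map_inv, inv_mul_eq_iff_eq_mul, mul_neg, mul_one] at this
        exact this
    rcases (hf s hs).2 with a | a <;> rcases (hf s' hs').2 with b | b <;> rw [a, b] at h <;>
      rcases h with h | h
    · exact hne h.symm
    · exact hne' (by rw [h, neg_neg])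
    · exact hne' h.symm
    · exact hne (neg_injective h).symm
    · exact hne' (by rw [h, neg_neg])
    · exact hne (by rw [h, neg_neg])
    · exact hne (neg_injective h).symm
    · exact hne' (by rw [h, neg_neg])
  refine ⟨S0.image f, ?_, ?_, ?_⟩
  · rw [Finset.card_image_of_injOn]
    · exact hcard
    · intro s hs s' hs' h
      by_contra hne
      refine hsep s hs s' hs' hne ?_
      rw [h, inv_mul_cancel, map_one]
      exact Or.inl fun _ => rfl
  · intro σ hσ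
    obtain ⟨s, hs, rfl⟩ := Finset.mem_image.1 hσ
    exact (hf s hs).1
  · intro σ hσ σ' hσ' hne
    obtain ⟨s, hs, rfl⟩ := Finset.mem_image.1 hσ
    obtain ⟨s', hs', rfl⟩ := Finset.mem_image.1 hσ'
    exact hsep s hs s' hs' fun h => hne (by rw [h])

end Pool.Agent.P.MP_a60a76_nt.Fs
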