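import Pool.Agent.P.MP_a60a76_nt.Fs.Defs
import Pool.Agent.P.MP_a60a76_nt.Fs.GrpB

namespace Pool.Agent.P.MP_a60a76_nt.Fs

open Polynomial
open scoped NNReal

variable {K L Γ : Type*} [Field K] [Field L] [LinearOrderedCommGroupWithZero Γ]
  {a1 b1 a2 b2 : K} {a1' b1' a2' b2' : L} {m : ℕ}

theorem tau_of_pmeq (s : ℕ) {ψ ψ' : Tors m a1 b1 ≃+ Tors m a2 b2} (h : PMeq ψ ψ') :
    tau m s ψ = tau m s ψ' := by
  unfold tau
  refine finsum_congr fun P => ?_
  rcases h with h | h
  · rw [h]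
  · rw [h, AddSubgroup.coe_neg, xc_neg]

theorem tau_pm_of_xc (ψ ψ' : Tors m a1 b1 ≃+ Tors m a2 b2)
    (h : ∀ P, xc (ψ P : Pt a2 b2) = xc (ψ' P : Pt a2 b2)) : PMeq ψ ψ' := by
  have h1 : ∀ P, ψ P = ψ' P ∨ ψ P = -ψ' P := by
    intro P
    by_cases hP : P = 0
    · left; rw [hP, map_zero, map_zero]
    have a1 : (ψ P : Pt a2 b2) ≠ 0 := fun e => hP (ψ.injective (by
      rw [map_zero]; exact Subtype.ext e))
    have a2 : (ψ' P : Pt a2 b2) ≠ 0 := fun e => hP (ψ'.injective (by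
      rw [map_zero]; exact Subtype.ext e))
    rcases eq_or_neg_of_xc a1 a2 (h P) with e | e
    · exact Or.inl (Subtype.ext e)
    · exact Or.inr (Subtype.ext e)
  by_contra hc
  unfold PMeq at hc
  push Not at hc
  obtain ⟨⟨u, hu⟩, ⟨v, hv⟩⟩ := hc
  have hu' := (h1 u).resolve_left hu
  have hv' := (h1 v).resolve_right hv
  rcases h1 (u + v) with e | e
  · rw [map_add, map_add, hv'] at e
    exact hu (add_right_cancel e)
  · rw [map_add, map_add, hu', neg_add] at e
    exact hv (add_left_cancel e)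

theorem tau_poly [Fintype (Tors m a1 b1)] (h2 : (2 : K) ≠ 0)
    (hc : Nat.card (Tors m a1 b1) = m ^ 2) (ψ ψ' : Tors m a1 b1 ≃+ Tors m a2 b2)
    (hp : ¬ PMeq ψ ψ') :
    ∃ q : K[X], q ≠ 0 ∧ q.natDegree ≤ m ^ 2 ∧ ∀ s : ℕ, q.eval (s : K) = tau m s ψ - tau m s ψ' := by
  classical
  set d : Tors m a1 b1 → K := fun P => xc (ψ P : Pt a2 b2) - xc (ψ' P : Pt a2 b2) with hd
  set x : Tors m a1 b1 → K := fun P => xc (P : Pt a1 b1) with hx
  refine ⟨∑ i ∈ Finset.range (m ^ 2), monomial i (∑ P, x P ^ i * d P), ?_, ?_, ?_⟩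
  · intro h0
    apply hp
    have hco : ∀ i < m ^ 2, ∑ P, x P ^ i * d P = 0 := by
      intro i hi
      have := congrArg (fun q : K[X] => q.coeff i) h0
      simp only [finsetSum_coeff, coeff_monomial, coeff_zero] at this
      rw [Finset.sum_ite_eq' (Finset.range (m ^ 2)) i, if_pos (Finset.mem_range.2 hi)] at this
      exact this
    have hf : ∀ f : K[X], f.natDegree < m ^ 2 → ∑ P, f.eval (x P) * d P = 0 := by
      intro f hf
      simp_rw [eval_eq_sum_range' hf, Finset.sum_mul]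
      rw [Finset.sum_comm]
      refine Finset.sum_eq_zero fun i hi => ?_
      simp_rw [mul_assoc]
      rw [← Finset.mul_sum, hco i (Finset.mem_range.1 hi), mul_zero]
    apply tau_pm_of_xc
    intro P0
    by_cases hP0 : P0 = 0
    · rw [hP0, map_zero, map_zero]
    set Y : Finset K := (Finset.univ.image x).erase (x P0) with hY
    have hYc : Y.card < m ^ 2 := by
      have c1 : Y.card < (Finset.univ.image x).card :=
        Finset.card_erase_lt_of_mem (Finset.mem_image_of_mem _ (Finset.mem_univ _))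
      have c2 : (Finset.univ.image x).card ≤ (Finset.univ : Finset (Tors m a1 b1)).card :=
        Finset.card_image_le
      rw [Finset.card_univ, ← Nat.card_eq_fintype_card, hc] at c2
      omega
    have h3 := hf (∏ y ∈ Y, (X - C y)) (by rw [natDegree_finsetProd_X_sub_C_eq_card]; exact hYc)
    have hne : (∏ y ∈ Y, (X - C y) : K[X]).eval (x P0) ≠ 0 := by
      rw [eval_prod, Finset.prod_ne_zero_iff]
      intro y hy
      simp only [eval_sub, eval_X, eval_C]
      exact sub_ne_zero.2 (Finset.ne_of_mem_erase hy).symm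
    have hz : ∀ P, P ∉ ({P0, -P0} : Finset (Tors m a1 b1)) →
        (∏ y ∈ Y, (X - C y) : K[X]).eval (x P) * d P = 0 := by
      intro P hP
      by_cases hP' : P = 0
      · simp [hP', hd]
      have : x P ≠ x P0 := by
        intro e
        apply hP
        rcases eq_or_neg_of_xc (fun e => hP' (Subtype.ext e)) (fun e => hP0 (Subtype.ext e)) e
          with e | e
        · simp [show P = P0 from Subtype.ext e]
        · simp [show P = -P0 from Subtype.ext e]
      rw [eval_prod, Finset.prod_eq_zero (i := x P)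
        (Finset.mem_erase.2 ⟨this, Finset.mem_image_of_mem _ (Finset.mem_univ _)⟩) (by simp),
        zero_mul]
    rw [← Finset.sum_subset (Finset.subset_univ ({P0, -P0} : Finset (Tors m a1 b1)))
      (fun P _ hP => hz P hP)] at h3
    have hd0 : d P0 = 0 := by
      by_cases he : P0 = -P0
      · rw [← he, Finset.pair_eq_singleton, Finset.sum_singleton] at h3
        exact (mul_eq_zero.1 h3).resolve_left hne
      · rw [Finset.sum_pair he] at h3
        have e1 : x (-P0) = x P0 := by simp [hx]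
        have e2 : d (-P0) = d P0 := by simp [hd]
        rw [e1, e2, ← two_mul] at h3
        exact (mul_eq_zero.1 ((mul_eq_zero.1 h3).resolve_left h2)).resolve_left hne
    exact sub_eq_zero.1 hd0
  · refine natDegree_sum_le_of_forall_le _ _ fun i hi => ?_
    exact (natDegree_monomial_le _).trans (Finset.mem_range.1 hi).le
  · intro s
    unfold tau
    rw [finsum_eq_sum_of_fintype, finsum_eq_sum_of_fintype, ← Finset.sum_sub_distrib, eval_finsetSum]
    simp_rw [eval_monomial, Finset.sum_mul]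
    rw [Finset.sum_comm]
    refine Finset.sum_congr rfl fun P _ => ?_
    rw [← Finset.sum_sub_distrib]
    refine Finset.sum_congr rfl fun i _ => ?_
    simp only [hx, hd]
    ring

/-- The action of an automorphism on torsion as an isomorphism. -/
noncomputable def tauRhoEquiv (m : ℕ) {a b : K} (σ : RingAut K) (h : σ a = a ∧ σ b = b) :
    Tors m a b ≃+ Tors m a b :=
  have h' : σ⁻¹ a = a ∧ σ⁻¹ b = b :=
    ⟨σ.injective (by rw [h.1]; exact σ.apply_symm_apply a),
      σ.injective (by rw [h.2]; exact σ.apply_symm_apply b)⟩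
  { toFun := rho m a b σ
    invFun := rho m a b σ⁻¹
    left_inv := fun P => by
      change (rho m a b σ⁻¹ * rho m a b σ) P = P
      rw [← rho_mul m h' h, inv_mul_cancel, rho_one]; rfl
    right_inv := fun P => by
      change (rho m a b σ * rho m a b σ⁻¹) P = P
      rw [← rho_mul m h h', mul_inv_cancel, rho_one]; rfl
    map_add' := map_add _ }

theorem exists_sepa (h2 : (2 : K) ≠ 0) (hm : m.Prime) (h1 : Plane m (Tors m a1 b1))
    (h1' : Plane m (Tors m a2 b2)) (hK : ∀ n : ℕ, 0 < n → n ≤ m ^ 10 → (n : K) ≠ 0) :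
    ∃ s ≤ m ^ 10, Sepa m s a1 b1 a2 b2 := by
  classical
  have hm0 : m ^ 2 ≠ 0 := pow_ne_zero _ hm.ne_zero
  have : Finite (Tors m a1 b1) := Nat.finite_of_card_ne_zero (by rw [h1.1]; exact hm0)
  let : Fintype (Tors m a1 b1) := Fintype.ofFinite _
  have hc := card_iso hm h1 h1'
  have hm2 := hm.two_le
  have hlt : m < m ^ 2 := by nlinarith
  have : Finite (Tors m a1 b1 ≃+ Tors m a2 b2) := Nat.finite_of_card_ne_zero (by
    rw [hc]; exact mul_ne_zero (by omega) (by omega))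
  let : Fintype (Tors m a1 b1 ≃+ Tors m a2 b2) := Fintype.ofFinite _
  have hinj : Set.InjOn (fun n : ℕ => (n : K)) (Finset.range (m ^ 10 + 1) : Set ℕ) := by
    have key : ∀ x y : ℕ, x < y → y ≤ m ^ 10 → (x : K) ≠ y := by
      intro x y hxy hy e
      apply hK (y - x) (by omega) (by omega)
      rw [Nat.cast_sub hxy.le, e, sub_self]
    intro x hx y hy e
    simp only [Finset.coe_range, Set.mem_Iio] at hx hy
    rcases lt_trichotomy x y with h | h | h
    · exact absurd e (key x y h (by omega))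
    · exact h
    · exact absurd e.symm (key y x h (by omega))
  have hbad : ∀ p : (Tors m a1 b1 ≃+ Tors m a2 b2) × (Tors m a1 b1 ≃+ Tors m a2 b2),
      ((Finset.range (m ^ 10 + 1)).filter
        (fun s => tau m s p.1 = tau m s p.2 ∧ ¬ PMeq p.1 p.2)).card ≤ m ^ 2 := by
    rintro ⟨ψ, ψ'⟩
    by_cases hp : PMeq ψ ψ'
    · simp [hp]
    obtain ⟨q, hq0, hqd, hqe⟩ := tau_poly h2 h1.1 ψ ψ' hp
    calc _ ≤ q.roots.toFinset.card := by
          apply Finset.card_le_card_of_injOn (fun n : ℕ => (n : K))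
          · intro s hs
            simp only [Finset.coe_filter, Set.mem_ofPred_eq] at hs
            simp only [Finset.mem_coe, Multiset.mem_toFinset, mem_roots hq0, IsRoot.def]
            rw [hqe, hs.2.1, sub_self]
          · exact hinj.mono (by
              intro s hs
              simp only [Finset.coe_filter, Set.mem_ofPred_eq] at hs
              exact Finset.mem_coe.2 hs.1)
      _ ≤ q.roots.card := Multiset.toFinset_card_le _
      _ ≤ q.natDegree := card_roots' q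
      _ ≤ m ^ 2 := hqd
  by_contra hcon
  push Not at hcon
  have hsub : Finset.range (m ^ 10 + 1) ⊆ Finset.univ.biUnion
      (fun p : (Tors m a1 b1 ≃+ Tors m a2 b2) × (Tors m a1 b1 ≃+ Tors m a2 b2) =>
        (Finset.range (m ^ 10 + 1)).filter
          (fun s => tau m s p.1 = tau m s p.2 ∧ ¬ PMeq p.1 p.2)) := by
    intro s hs
    have := hcon s (by simpa [Nat.lt_succ_iff] using hs)
    unfold Sepa at this
    push Not at this
    obtain ⟨ψ, ψ', e, hne⟩ := this
    exact Finset.mem_biUnion.2 ⟨(ψ, ψ'), Finset.mem_univ _, Finset.mem_filter.2 ⟨hs, e, hne⟩⟩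
  have h3 := (Finset.card_le_card hsub).trans (Finset.card_biUnion_le_card_mul _ _ _
    fun p _ => hbad p)
  rw [Finset.card_range, Finset.card_univ, Fintype.card_prod, ← Nat.card_eq_fintype_card, hc] at h3
  have h4 : (m ^ 2 - 1) * (m ^ 2 - m) ≤ m ^ 4 :=
    calc _ ≤ m ^ 2 * m ^ 2 := Nat.mul_le_mul (Nat.sub_le _ _) (Nat.sub_le _ _)
      _ = m ^ 4 := by ring
  have h5 : (m ^ 2 - 1) * (m ^ 2 - m) * ((m ^ 2 - 1) * (m ^ 2 - m)) * m ^ 2 ≤ m ^ 10 :=
    calc _ ≤ m ^ 4 * m ^ 4 * m ^ 2 := Nat.mul_le_mul_right _ (Nat.mul_le_mul h4 h4)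
      _ = m ^ 10 := by ring
  omega

theorem tau_map [Finite (Tors m a1 b1)] (g : Spec K L) (s : ℕ)
    (f1 : Tors m a1 b1 ≃+ Tors m a1' b1') (ψ : Tors m a1 b1 ≃+ Tors m a2 b2)
    (ψ' : Tors m a1' b1' ≃+ Tors m a2' b2') (c : L)
    (h1 : ∀ P : Tors m a1 b1, xc (P : Pt a1 b1) ∈ g.S ∧
      xc (f1 P : Pt a1' b1') = g.f (xc (P : Pt a1 b1)))
    (h2 : ∀ P : Tors m a1 b1, xc (ψ P : Pt a2 b2) ∈ g.S ∧
      xc (ψ' (f1 P) : Pt a2' b2') = c * g.f (xc (ψ P : Pt a2 b2))) :
    tau m s ψ ∈ g.S ∧ tau m s ψ' = c * g.f (tau m s ψ) := by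
  classical
  let : Fintype (Tors m a1 b1) := Fintype.ofFinite _
  have e : tau m s ψ = ((∑ P : Tors m a1 b1, (∑ i ∈ Finset.range (m ^ 2),
      ((s : g.S) * ⟨xc (P : Pt a1 b1), (h1 P).1⟩) ^ i) * ⟨xc (ψ P : Pt a2 b2), (h2 P).1⟩ : g.S) :
        K) := by
    unfold tau
    rw [finsum_eq_sum_of_fintype]
    push_cast
    rfl
  refine ⟨e ▸ Subtype.property _, ?_⟩
  rw [e]
  change _ = c * g.hom _
  unfold tau
  rw [← finsum_comp_equiv f1.toEquiv, finsum_eq_sum_of_fintype, map_sum, Finset.mul_sum]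
  refine Finset.sum_congr rfl fun P _ => ?_
  change (∑ i ∈ Finset.range (m ^ 2), ((s : L) * xc (f1 P : Pt a1' b1')) ^ i) *
    xc (ψ' (f1 P) : Pt a2' b2') = _
  rw [map_mul, map_sum]
  simp only [map_pow, map_mul, map_natCast]
  change _ = c * ((∑ i ∈ Finset.range (m ^ 2), ((s : L) * g.f (xc (P : Pt a1 b1))) ^ i) *
    g.f (xc (ψ P : Pt a2 b2)))
  rw [(h1 P).2, (h2 P).2]
  ring

theorem tau_scale [Finite (Tors m a1 b1)] {a3 b3 : K} (s : ℕ) (ψ : Tors m a1 b1 ≃+ Tors m a2 b2)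
    (e : Tors m a2 b2 ≃+ Tors m a3 b3) (c : K)
    (he : ∀ Q : Tors m a2 b2, xc (e Q : Pt a3 b3) = c * xc (Q : Pt a2 b2)) :
    tau m s (ψ.trans e) = c * tau m s ψ := by
  classical
  let : Fintype (Tors m a1 b1) := Fintype.ofFinite _
  unfold tau
  rw [finsum_eq_sum_of_fintype, finsum_eq_sum_of_fintype, Finset.mul_sum]
  refine Finset.sum_congr rfl fun P _ => ?_
  rw [AddEquiv.trans_apply, he]
  ring

theorem tau_gal [Finite (Tors m a1 b1)] (s : ℕ) (σ : K →+* K) (h1 : σ a1 = a1 ∧ σ b1 = b1)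
    (h2 : σ a2 = a2 ∧ σ b2 = b2) (ψ ψ' : Tors m a1 b1 ≃+ Tors m a2 b2)
    (h : (∀ P, ψ' (galT m a1 b1 σ P) = galT m a2 b2 σ (ψ P)) ∨
      (∀ P, ψ' (galT m a1 b1 σ P) = -galT m a2 b2 σ (ψ P))) :
    tau m s ψ' = σ (tau m s ψ) := by
  classical
  let : Fintype (Tors m a1 b1) := Fintype.ofFinite _
  have hinj : Function.Injective (galT m a1 b1 σ) := by
    rw [injective_iff_map_eq_zero]
    intro P hP
    apply Subtype.ext
    have := congrArg Subtype.val hP
    exact (galP_eq_zero_iff σ _).1 this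
  have hbij : Function.Bijective (galT m a1 b1 σ) := Finite.injective_iff_bijective.1 hinj
  unfold tau
  rw [finsum_eq_sum_of_fintype, finsum_eq_sum_of_fintype, map_sum, ← hbij.sum_comp]
  refine Finset.sum_congr rfl fun P _ => ?_
  have e : xc (ψ' (galT m a1 b1 σ P) : Pt a2 b2) = σ (xc (ψ P : Pt a2 b2)) := by
    rcases h with h | h
    · rw [h, galT_coe, xc_galP h2.1 h2.2]
    · rw [h, AddSubgroup.coe_neg, xc_neg, galT_coe, xc_galP h2.1 h2.2]
  rw [e, galT_coe, xc_galP h1.1 h1.2, map_mul, map_sum]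
  simp only [map_pow, map_mul, map_natCast]

theorem exists_conj (σ : RingAut K) (h1 : σ a1 = a1 ∧ σ b1 = b1) (h2 : σ a2 = a2 ∧ σ b2 = b2)
    (ψ : Tors m a1 b1 ≃+ Tors m a2 b2) :
    ∃ ψ' : Tors m a1 b1 ≃+ Tors m a2 b2, ∀ P, ψ' (rho m a1 b1 σ P) = rho m a2 b2 σ (ψ P) := by
  refine ⟨((tauRhoEquiv m σ h1).symm.trans ψ).trans (tauRhoEquiv m σ h2), fun P => ?_⟩
  change rho m a2 b2 σ (ψ ((tauRhoEquiv m σ h1).symm (tauRhoEquiv m σ h1 P))) = _
  rw [AddEquiv.symm_apply_apply]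

theorem tau_val [Finite (Tors m a1 b1)] (v : Valuation K Γ) (s : ℕ) (c1 c2 : Γ) (hc : 1 ≤ c1)
    (h1 : ∀ P : Tors m a1 b1, v (xc (P : Pt a1 b1)) ≤ c1)
    (h2 : ∀ Q : Tors m a2 b2, v (xc (Q : Pt a2 b2)) ≤ c2) (ψ : Tors m a1 b1 ≃+ Tors m a2 b2) :
    v (tau m s ψ) ≤ c1 ^ (m ^ 2) * c2 := by
  classical
  let : Fintype (Tors m a1 b1) := Fintype.ofFinite _
  unfold tau
  rw [finsum_eq_sum_of_fintype]
  refine Valuation.map_sum_le v fun P _ => ?_
  rw [map_mul]
  refine mul_le_mul' (Valuation.map_sum_le v fun i hi => ?_) (h2 _)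
  have hs : v (s : K) ≤ 1 := by
    induction s with
    | zero => simp
    | succ s ih =>
      rw [Nat.cast_succ]
      exact Valuation.map_add_le v ih (by simp)
  rw [map_pow, map_mul]
  calc _ ≤ c1 ^ i := pow_le_pow_left' ((mul_le_mul' hs (h1 P)).trans (one_mul _).le) _
    _ ≤ _ := pow_le_pow_right' hc (Finset.mem_range.1 hi).le

theorem tau_mem [Finite (Tors m a1 b1)] (S : Subring K) (s : ℕ)
    (h1 : ∀ P : Tors m a1 b1, xc (P : Pt a1 b1) ∈ S)
    (h2 : ∀ Q : Tors m a2 b2, xc (Q : Pt a2 b2) ∈ S) (ψ : Tors m a1 b1 ≃+ Tors m a2 b2) :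
    tau m s ψ ∈ S := by
  classical
  let : Fintype (Tors m a1 b1) := Fintype.ofFinite _
  unfold tau
  rw [finsum_eq_sum_of_fintype]
  exact S.sum_mem fun P _ => S.mul_mem
    (S.sum_mem fun i _ => S.pow_mem (S.mul_mem (natCast_mem S s) (h1 P)) i) (h2 _)

end Pool.Agent.P.MP_a60a76_nt.Fs
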