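import Pool.Agent.P.MP_a60a76_nt.Fs.Defs
import Pool.Agent.P.MP_a60a76_nt.Fs.GrpOrb
import Pool.Agent.P.MP_a60a76_nt.Fs.Tau
import Pool.Agent.P.MP_a60a76_nt.Fs.Count

namespace Pool.Agent.P.MP_a60a76_nt.Fs

open Polynomial
open scoped NNReal

section aux

variable {V W : Type*} [AddCommGroup V] [AddCommGroup W]

theorem big_pm_left {f : AddMonoid.End V} {g : AddMonoid.End W} {ψ : V ≃+ W}
    (h : Eqv f g ψ) (hg : PM g) : PM f := by
  rcases h with h | h <;> rcases hg with hg | hg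
  · exact Or.inl fun v => ψ.injective (by rw [h, hg])
  · exact Or.inr fun v => ψ.injective (by rw [h, hg, map_neg])
  · exact Or.inr fun v => ψ.injective (by rw [h, hg, map_neg])
  · exact Or.inl fun v => ψ.injective (by rw [h, hg, neg_neg])

theorem big_pm_right {f : AddMonoid.End V} {g : AddMonoid.End W} {ψ : V ≃+ W}
    (h : Eqv f g ψ) (hf : PM f) : PM g := by
  rcases h with h | h <;> rcases hf with hf | hf
  · refine Or.inl fun w => ?_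
    obtain ⟨v, rfl⟩ := ψ.surjective w
    rw [← h, hf]
  · refine Or.inr fun w => ?_
    obtain ⟨v, rfl⟩ := ψ.surjective w
    rw [← h, hf, map_neg]
  · refine Or.inr fun w => ?_
    obtain ⟨v, rfl⟩ := ψ.surjective w
    have := h v
    rw [hf] at this
    exact neg_eq_iff_eq_neg.1 this.symm
  · refine Or.inl fun w => ?_
    obtain ⟨v, rfl⟩ := ψ.surjective w
    have := h v
    rw [hf, map_neg] at this
    exact (neg_injective this).symm

theorem big_sc_of_pm {f : AddMonoid.End V} (h : PM f) : Sc f := by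
  rcases h with h | h
  · exact ⟨1, fun v => by rw [h, one_smul]⟩
  · exact ⟨-1, fun v => by rw [h, neg_smul, one_smul]⟩

theorem big_apply_mul {G : Type*} [Group G] (ρ : G →* AddMonoid.End V) (σ τ : G) (v : V) :
    ρ (σ * τ) v = ρ σ (ρ τ v) := by
  rw [map_mul]; rfl

theorem big_apply_inv {G : Type*} [Group G] (ρ : G →* AddMonoid.End V) (σ : G) (v : V) :
    ρ σ⁻¹ (ρ σ v) = v := by
  rw [← big_apply_mul, inv_mul_cancel, map_one]; rfl

theorem big_pm_inv {G : Type*} [Group G] (ρ : G →* AddMonoid.End V) {σ : G} (h : PM (ρ σ)) :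
    PM (ρ σ⁻¹) := by
  rcases h with h | h
  · refine Or.inl fun v => ?_
    have := big_apply_inv ρ σ v
    rwa [h] at this
  · refine Or.inr fun v => ?_
    have := big_apply_inv ρ σ v
    rw [h, map_neg] at this
    exact neg_eq_iff_eq_neg.1 this

theorem big_pm_mul {G : Type*} [Group G] (ρ : G →* AddMonoid.End V) {σ τ : G} (h : PM (ρ σ))
    (h' : PM (ρ τ)) : PM (ρ (σ * τ)) := by
  rcases h with h | h <;> rcases h' with h' | h'
  · exact Or.inl fun v => by rw [big_apply_mul, h, h']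
  · exact Or.inr fun v => by rw [big_apply_mul, h, h']
  · exact Or.inr fun v => by rw [big_apply_mul, h, h']
  · exact Or.inl fun v => by rw [big_apply_mul, h, h', neg_neg]

end aux

variable {R Ω : Type*} [CommRing R] [Field Ω] {ι : R →+* Ω} {m : ℕ}

/-- The torsion representation of the group of automorphisms over the base. -/
noncomputable def bigRho (ι : R →+* Ω) (m : ℕ) (a b : R) :
    Aut ι →* AddMonoid.End (Tors m (ι a) (ι b)) :=
  rhoHom m (ι a) (ι b) (Aut ι) (fun _ hσ => ⟨hσ a, hσ b⟩)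

theorem bigRho_apply (a b : R) (σ : Aut ι) : bigRho ι m a b σ = rho m (ι a) (ι b) σ := rfl

theorem big_of_set {a1 b1 a2 b2 : R} {d : ℕ} (S : Finset (Aut ι)) (hd : d ≤ S.card)
    (h2 : ∀ σ ∈ S, PM (bigRho ι m a2 b2 σ))
    (h1 : ∀ σ ∈ S, ∀ σ' ∈ S, σ ≠ σ' → ¬ PM (bigRho ι m a1 b1 (σ⁻¹ * σ'))) :
    Big ι m (ι a1) (ι b1) (ι a2) (ι b2) d ∧ Big ι m (ι a2) (ι b2) (ι a1) (ι b1) d := by
  have hmem : ∀ σ ∈ S.map (Function.Embedding.subtype _), σ ∈ Aut ι := by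
    intro σ hσ
    obtain ⟨σ0, _, rfl⟩ := Finset.mem_map.1 hσ
    exact σ0.2
  have hcard : d ≤ (S.map (Function.Embedding.subtype _)).card := by
    rwa [Finset.card_map]
  constructor
  · refine ⟨_, hmem, hcard, ?_⟩
    intro σ hσ σ' hσ' hne ψ hE
    obtain ⟨σ0, hσ0, rfl⟩ := Finset.mem_map.1 hσ
    obtain ⟨σ1, hσ1, rfl⟩ := Finset.mem_map.1 hσ'
    refine h1 σ0 hσ0 σ1 hσ1 (fun h => hne (by rw [h])) ?_
    exact big_pm_left hE (big_pm_mul _ (big_pm_inv _ (h2 σ0 hσ0)) (h2 σ1 hσ1))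
  · refine ⟨_, hmem, hcard, ?_⟩
    intro σ hσ σ' hσ' hne ψ hE
    obtain ⟨σ0, hσ0, rfl⟩ := Finset.mem_map.1 hσ
    obtain ⟨σ1, hσ1, rfl⟩ := Finset.mem_map.1 hσ'
    refine h1 σ0 hσ0 σ1 hσ1 (fun h => hne (by rw [h])) ?_
    exact big_pm_right hE (big_pm_mul _ (big_pm_inv _ (h2 σ0 hσ0)) (h2 σ1 hσ1))

theorem big_of_mon {a1 b1 a2 b2 : R} (hm : m.Prime) (h5 : 5 ≤ m)
    (h1 : Plane m (Tors m (ι a1) (ι b1))) (hM : Mon ι m (ι a1) (ι b1))
    (h : Mis ι m (ι a1) (ι b1) (ι a2) (ι b2)) :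
    Big ι m (ι a1) (ι b1) (ι a2) (ι b2) (m * (m ^ 2 - 1) / 2) ∧
      Big ι m (ι a2) (ι b2) (ι a1) (ι b1) (m * (m ^ 2 - 1) / 2) := by
  obtain ⟨⟨σ, hσ, hσ1, hσ2⟩, hM2⟩ := hM
  obtain ⟨τ, hτ, hτ1, hτ2⟩ := h
  obtain ⟨S, hS, hS2, hS1⟩ := orb_big (bigRho ι m a1 b1) (bigRho ι m a2 b2) hm h5 h1
    ⟨⟨σ, hσ⟩, hσ1, hσ2⟩
    (fun H hH => by
      obtain ⟨σ', hσ', P, hP, hP'⟩ := hM2 H hH
      exact ⟨⟨σ', hσ'⟩, P, hP, hP'⟩)
    ⟨⟨τ, hτ⟩, hτ1, hτ2⟩
  exact big_of_set S hS hS2 hS1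

theorem big_two {a1 b1 a2 b2 : R} (h : Mis ι m (ι a1) (ι b1) (ι a2) (ι b2)) :
    Big ι m (ι a1) (ι b1) (ι a2) (ι b2) 2 ∧ Big ι m (ι a2) (ι b2) (ι a1) (ι b1) 2 := by
  classical
  obtain ⟨τ, hτ, hτ1, hτ2⟩ := h
  let t : Aut ι := ⟨τ, hτ⟩
  have hone : ∀ a b : R, PM (bigRho ι m a b 1) := fun a b =>
    Or.inl fun v => by rw [map_one]; rfl
  have ht : ¬ PM (bigRho ι m a1 b1 t) := fun h => hτ1 (big_sc_of_pm h)
  have hne : (1 : Aut ι) ≠ t := fun h => ht (h ▸ hone a1 b1)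
  refine big_of_set {1, t} (by rw [Finset.card_pair hne]) ?_ ?_
  · intro σ hσ
    rcases Finset.mem_insert.1 hσ with rfl | hσ
    · exact hone a2 b2
    · rw [Finset.mem_singleton.1 hσ]; exact hτ2
  · intro σ hσ σ' hσ' hn
    simp only [Finset.mem_insert, Finset.mem_singleton] at hσ hσ'
    rcases hσ with rfl | rfl <;> rcases hσ' with rfl | rfl
    · exact absurd rfl hn
    · rwa [inv_one, one_mul]
    · rw [mul_one]
      intro h
      have := big_pm_inv _ h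
      rw [inv_inv] at this
      exact ht this
    · exact absurd rfl hn

theorem big_comp {R' : Type*} [CommRing R'] (φ : R' →+* R) {a1 b1 a2 b2 : Ω} {d : ℕ}
    (h : Big ι m a1 b1 a2 b2 d) : Big (ι.comp φ) m a1 b1 a2 b2 d := by
  obtain ⟨S, h1, h2, h3⟩ := h
  exact ⟨S, fun σ hσ r => h1 σ hσ (φ r), h2, h3⟩

theorem eval_tau_ne_zero [IsDomain R] {a1 b1 a2 b2 : R} (h : Pair ι m a1 b1 a2 b2) {s d : ℕ}
    (hB : Big ι m (ι a1) (ι b1) (ι a2) (ι b2) d) (hs : Sepa m s (ι a1) (ι b1) (ι a2) (ι b2))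
    {F : R[X]} (hF : F ≠ 0) (hd : F.natDegree < d)
    (ψ : Tors m (ι a1) (ι b1) ≃+ Tors m (ι a2) (ι b2)) : F.eval₂ ι (tau m s ψ) ≠ 0 := by
  classical
  intro h0
  obtain ⟨S, hS, hcard, hE⟩ := hB
  have := h.clos.closed
  have hd1 : dsc (ι a1) (ι b1) ≠ 0 := by
    have e : dsc (ι a1) (ι b1) = ι (dsc a1 b1) := by simp [dsc, map_ofNat]
    rw [e]
    exact (map_ne_zero_iff ι h.clos.inj).2 h.d1
  have hm : (m : Ω) ≠ 0 := by
    have := h.unit.map ι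
    rw [map_natCast] at this
    exact this.ne_zero
  have hfin : Finite (Tors m (ι a1) (ι b1)) := finite_tors h.two hd1 hm
  have hFm : F.map ι ≠ 0 := (Polynomial.map_ne_zero_iff h.clos.inj).2 hF
  have hroot : ∀ σ ∈ S, σ (tau m s ψ) ∈ (F.map ι).roots.toFinset := by
    intro σ hσ
    rw [Multiset.mem_toFinset, mem_roots hFm, IsRoot.def, eval_map]
    have e : σ.toRingHom.comp ι = ι := RingHom.ext fun r => hS σ hσ r
    have := Polynomial.hom_eval₂ F ι σ.toRingHom (tau m s ψ)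
    rw [h0, map_zero, e] at this
    exact this.symm
  have hinj : Set.InjOn (fun σ : RingAut Ω => σ (tau m s ψ)) S := by
    intro σ hσ σ' hσ' heq
    by_contra hne
    have hσA : σ ∈ Aut ι := hS σ hσ
    have hσA' : σ' ∈ Aut ι := hS σ' hσ'
    obtain ⟨ψ1, hψ1⟩ := exists_conj σ ⟨hσA a1, hσA b1⟩ ⟨hσA a2, hσA b2⟩ ψ
    obtain ⟨ψ2, hψ2⟩ := exists_conj σ' ⟨hσA' a1, hσA' b1⟩ ⟨hσA' a2, hσA' b2⟩ ψ
    have t1 : tau m s ψ1 = σ (tau m s ψ) :=
      tau_gal s σ.toRingHom ⟨hσA a1, hσA b1⟩ ⟨hσA a2, hσA b2⟩ ψ ψ1 (Or.inl hψ1)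
    have t2 : tau m s ψ2 = σ' (tau m s ψ) :=
      tau_gal s σ'.toRingHom ⟨hσA' a1, hσA' b1⟩ ⟨hσA' a2, hσA' b2⟩ ψ ψ2 (Or.inl hψ2)
    have hpm : PMeq ψ1 ψ2 := hs ψ1 ψ2 (by rw [t1, t2]; exact heq)
    let x : Aut ι := ⟨σ, hσA⟩
    let y : Aut ι := ⟨σ', hσA'⟩
    have k1 : ∀ P, ψ1 (bigRho ι m a1 b1 x P) = bigRho ι m a2 b2 x (ψ P) := hψ1
    have k2 : ∀ P, ψ2 (bigRho ι m a1 b1 y P) = bigRho ι m a2 b2 y (ψ P) := hψ2
    have k3 : ∀ P, ψ (bigRho ι m a1 b1 (x⁻¹ * y) P) =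
        bigRho ι m a2 b2 x⁻¹ (ψ1 (bigRho ι m a1 b1 y P)) := by
      intro P
      rw [← big_apply_inv (bigRho ι m a2 b2) x (ψ (bigRho ι m a1 b1 (x⁻¹ * y) P)), ← k1,
        ← big_apply_mul (bigRho ι m a1 b1) x, mul_inv_cancel_left]
    have k4 : Eqv (bigRho ι m a1 b1 (x⁻¹ * y)) (bigRho ι m a2 b2 (x⁻¹ * y)) ψ := by
      rcases hpm with hp | hp
      · exact Or.inl fun P => by rw [k3, hp, k2, big_apply_mul]
      · exact Or.inr fun P => by rw [k3, hp, k2, big_apply_mul, map_neg]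
    exact hE σ hσ σ' hσ' hne ψ k4
  have h1 : S.card ≤ (F.map ι).roots.toFinset.card :=
    Finset.card_le_card_of_injOn _ (fun σ hσ => hroot σ hσ) hinj
  have h2 := Multiset.toFinset_card_le (F.map ι).roots
  have h3 := card_roots' (F.map ι)
  have h4 : (F.map ι).natDegree ≤ F.natDegree := natDegree_map_le
  omega

end Pool.Agent.P.MP_a60a76_nt.Fs
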