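import Pool.Agent.P.MP_a60a76_nt.Fs.Defs

namespace Pool.Agent.P.MP_a60a76_nt.Fs

open Polynomial
open scoped NNReal

variable {F : Type*} [Field F] {δ : ℕ}

theorem weight_coeff_swap (g : F[X][X]) (i j : ℕ) :
    ((Polynomial.Bivariate.swap g).coeff j).coeff i = (g.coeff i).coeff j := by
  induction g using Polynomial.induction_on' with
  | add p q hp hq => simp only [map_add, coeff_add, hp, hq]
  | monomial n f =>
    rw [Polynomial.Bivariate.swap_monomial, coeff_mul_C, coeff_map, coeff_C_mul, coeff_X_pow,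
      coeff_monomial]
    by_cases h : n = i
    · subst h; simp
    · have h' : ¬ i = n := fun e => h e.symm
      simp [h, h']

/-- The substitution turning the weight into a degree. -/
noncomputable def weightPhi (δ : ℕ) (f : F[X][X]) : F[X][X] :=
  Polynomial.Bivariate.swap (f.comp (C (X ^ δ) * X))

theorem weightPhi_mul (f g : F[X][X]) :
    weightPhi δ (f * g) = weightPhi δ f * weightPhi δ g := by
  simp only [weightPhi, mul_comp, map_mul]

theorem weightPhi_coeff (f : F[X][X]) (i j : ℕ) :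
    ((weightPhi δ f).coeff j).coeff i = (f.coeff i * X ^ (δ * i)).coeff j := by
  rw [weightPhi, weight_coeff_swap, comp_C_mul_X_coeff, ← pow_mul]

theorem weight_iff {w : ℕ} {f : F[X][X]} : Wt δ w f ↔ (weightPhi δ f).natDegree ≤ w := by
  constructor
  · intro h
    rw [natDegree_le_iff_coeff_eq_zero]
    intro N hN
    ext i
    rw [weightPhi_coeff, coeff_zero]
    by_cases h0 : f.coeff i = 0
    · simp [h0]
    · apply coeff_eq_zero_of_natDegree_lt
      rw [natDegree_mul_X_pow _ h0]
      have := h i h0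
      omega
  · intro h i h0
    have h1 : f.coeff i * X ^ (δ * i) ≠ 0 := mul_ne_zero h0 (pow_ne_zero _ X_ne_zero)
    have h2 : (weightPhi δ f).coeff (f.coeff i * X ^ (δ * i)).natDegree ≠ 0 := by
      intro e
      have h3 := weightPhi_coeff (δ := δ) f i (f.coeff i * X ^ (δ * i)).natDegree
      rw [e, coeff_zero] at h3
      exact leadingCoeff_ne_zero.2 h1 h3.symm
    have h4 := le_natDegree_of_ne_zero h2
    rw [natDegree_mul_X_pow _ h0] at h4
    omega

theorem weightPhi_ne_zero {f : F[X][X]} (hf : f ≠ 0) : weightPhi δ f ≠ 0 := by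
  intro e
  apply hf
  ext1 i
  have h1 : f.coeff i * X ^ (δ * i) = 0 := by
    ext j
    rw [← weightPhi_coeff, e]
    simp
  rw [coeff_zero]
  exact (mul_eq_zero.1 h1).resolve_right (pow_ne_zero _ X_ne_zero)

theorem weight_monic_le {w : ℕ} {G : F[X][X]} (hG : G.Monic) (h : Wt δ w G) :
    δ * G.natDegree ≤ w := by
  have := h G.natDegree (leadingCoeff_ne_zero.2 hG.ne_zero)
  omega

theorem wt_mul {w w' : ℕ} {f g : F[X][X]} (hf : Wt δ w f) (hg : Wt δ w' g) :
    Wt δ (w + w') (f * g) := by
  rw [weight_iff] at *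
  rw [weightPhi_mul]
  exact natDegree_mul_le.trans (add_le_add hf hg)

theorem wt_add {w : ℕ} {f g : F[X][X]} (hf : Wt δ w f) (hg : Wt δ w g) : Wt δ w (f + g) := by
  intro i hi
  rw [coeff_add] at hi ⊢
  by_cases h1 : f.coeff i = 0
  · rw [h1, zero_add] at hi ⊢
    exact hg i hi
  by_cases h2 : g.coeff i = 0
  · rw [h2, add_zero] at hi ⊢
    exact hf i hi
  have h3 := hf i h1
  have h4 := hg i h2
  have h5 := natDegree_add_le (f.coeff i) (g.coeff i)
  omega

theorem weight_neg {w : ℕ} {f : F[X][X]} (hf : Wt δ w f) : Wt δ w (-f) := by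
  intro i hi
  rw [coeff_neg] at hi ⊢
  rw [natDegree_neg]
  exact hf i (neg_ne_zero.1 hi)

theorem weight_sub {w : ℕ} {f g : F[X][X]} (hf : Wt δ w f) (hg : Wt δ w g) : Wt δ w (f - g) := by
  rw [sub_eq_add_neg]
  exact wt_add hf (weight_neg hg)

theorem wt_mono {w w' : ℕ} {f : F[X][X]} (hf : Wt δ w f) (h : w ≤ w') : Wt δ w' f :=
  fun i hi => (hf i hi).trans h

theorem wt_modByMonic {n w : ℕ} {G f : F[X][X]} (hG : G.Monic) (hn : G.natDegree = n)
    (hW : Wt δ (δ * n) G) (hf : Wt δ w f) : Wt δ w (f %ₘ G) := by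
  induction f using Polynomial.degree_lt_wf.induction with
  | _ f ih =>
  by_cases hlt : f.degree < G.degree
  · rw [(modByMonic_eq_self_iff hG).2 hlt]
    exact hf
  have hle : G.degree ≤ f.degree := not_lt.1 hlt
  have hf0 : f ≠ 0 := by
    rintro rfl
    rw [degree_zero, le_bot_iff, degree_eq_bot] at hle
    exact hG.ne_zero hle
  have hnd : n ≤ f.natDegree := hn ▸ natDegree_le_natDegree hle
  have hlc : f.leadingCoeff ≠ 0 := leadingCoeff_ne_zero.2 hf0
  have h1 : f.leadingCoeff.natDegree + δ * f.natDegree ≤ w := hf _ hlc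
  set q : F[X][X] := C f.leadingCoeff * X ^ (f.natDegree - n) with hq
  have hsplit : δ * f.natDegree = δ * (f.natDegree - n) + δ * n := by
    rw [← mul_add]; congr 1; omega
  have hqw : Wt δ (w - δ * n) q := by
    intro i hi
    rw [hq, coeff_C_mul, coeff_X_pow] at hi ⊢
    by_cases h : i = f.natDegree - n
    · rw [if_pos h, mul_one, h]
      omega
    · rw [if_neg h, mul_zero] at hi
      exact absurd rfl hi
  have h2 : Wt δ w (G * q) := by
    have := wt_mul hW hqw
    refine wt_mono this ?_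
    omega
  have hdeg : (f - G * q).degree < f.degree := by
    have := div_wf_lemma (p := f) (q := G) ⟨hle, hf0⟩ hG
    rw [hn] at this
    exact this
  have h3 := ih _ hdeg (weight_sub hf h2)
  have h4 : (f - G * q) %ₘ G = f %ₘ G := by
    rw [sub_modByMonic, (modByMonic_eq_zero_iff_dvd hG).2 (dvd_mul_right G q), sub_zero]
  rw [← h4]
  exact h3

theorem weight_dIn_coeff {R : Type*} [CommRing R] (f : R[X][X]) (i : ℕ) :
    (dIn f).coeff i = derivative (f.coeff i) := by
  rw [dIn, sum_def, finsetSum_coeff, Finset.sum_eq_single i]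
  · rw [coeff_monomial, if_pos rfl]
  · intro j _ hj
    rw [coeff_monomial, if_neg hj]
  · intro hi
    rw [notMem_support_iff.1 hi]
    simp

theorem weight_dIn {w : ℕ} {f : F[X][X]} (hf : Wt δ w f) : Wt δ w (dIn f) := by
  intro i hi
  rw [weight_dIn_coeff] at hi ⊢
  have h0 : f.coeff i ≠ 0 := by
    intro e
    rw [e, derivative_zero] at hi
    exact hi rfl
  have h1 := hf i h0
  have h2 := natDegree_derivative_le (f.coeff i)
  omega

theorem weight_derivative {w : ℕ} {f : F[X][X]} (hf : Wt δ w f) : Wt δ w (derivative f) := by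
  intro i hi
  rw [coeff_derivative] at hi ⊢
  have h0 : f.coeff (i + 1) ≠ 0 := left_ne_zero_of_mul hi
  have h1 := hf _ h0
  have h2 : (f.coeff (i + 1) * ((i : F[X]) + 1)).natDegree ≤ (f.coeff (i + 1)).natDegree := by
    refine natDegree_mul_le.trans ?_
    have : ((i : F[X]) + 1) = ((i + 1 : ℕ) : F[X]) := by push_cast; rfl
    rw [this, natDegree_natCast, add_zero]
  have h3 : δ * i ≤ δ * (i + 1) := Nat.mul_le_mul_left _ (Nat.le_succ i)
  omega

theorem wt_DD {n w : ℕ} {G f : F[X][X]} (hW : Wt δ (δ * n) G) (hf : Wt δ w f) :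
    Wt δ (w + δ * n) (DD G f) := by
  rw [DD, add_comm]
  exact weight_sub (wt_mul (weight_derivative hW) (weight_dIn hf))
    (wt_mul (weight_dIn hW) (weight_derivative hf))

theorem wt_of_dvd {G H : F[X][X]} (hG : G.Monic) (hH : H.Monic) (hW : Wt δ (δ * H.natDegree) H)
    (hdvd : G ∣ H) : Wt δ (δ * G.natDegree) G := by
  obtain ⟨K, rfl⟩ := hdvd
  have hK : K.Monic := hG.of_mul_monic_left hH
  rw [weight_iff, weightPhi_mul, natDegree_mul (weightPhi_ne_zero hG.ne_zero)
    (weightPhi_ne_zero hK.ne_zero), hG.natDegree_mul hK, mul_add] at hW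
  have h1 : δ * K.natDegree ≤ (weightPhi δ K).natDegree :=
    weight_monic_le hK (weight_iff.2 le_rfl)
  rw [weight_iff]
  omega

theorem weight_dIn_add {R : Type*} [CommRing R] (f g : R[X][X]) :
    dIn (f + g) = dIn f + dIn g := by
  ext1 i
  simp only [weight_dIn_coeff, coeff_add, derivative_add]

theorem weight_dIn_mul {R : Type*} [CommRing R] (f g : R[X][X]) :
    dIn (f * g) = dIn f * g + f * dIn g := by
  ext1 i
  simp only [weight_dIn_coeff, coeff_add, coeff_mul, map_sum, derivative_mul,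
    Finset.sum_add_distrib]

theorem weight_dIn_C {R : Type*} [CommRing R] (c : R[X]) : dIn (C c) = C (derivative c) := by
  ext1 i
  rw [weight_dIn_coeff, coeff_C, coeff_C]
  split_ifs <;> simp

theorem DD_add (G f g : F[X][X]) : DD G (f + g) = DD G f + DD G g := by
  simp only [DD, weight_dIn_add, derivative_add]
  ring

theorem DD_mul (G f g : F[X][X]) : DD G (f * g) = f * DD G g + g * DD G f := by
  simp only [DD, weight_dIn_mul, derivative_mul]
  ring

theorem DD_CC (G : F[X][X]) (c : F) : DD G (C (C c)) = 0 := by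
  simp [DD, weight_dIn_C]

theorem DD_self (G : F[X][X]) : DD G G = 0 := by
  rw [DD, mul_comm, sub_self]

theorem DD_CX (G : F[X][X]) : DD G (C X) = derivative G := by
  simp [DD, weight_dIn_C]

end Pool.Agent.P.MP_a60a76_nt.Fs
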