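import Pool.Agent.P.MP_a60a76_nt.Fs.Defs
import Pool.Agent.P.MP_a60a76_nt.Fs.Weight

namespace Pool.Agent.P.MP_a60a76_nt.Fs

open Polynomial
open scoped NNReal

section aux

variable {F : Type*} [Field F] (G : F[X][X])

theorem zero_DD_zero : DD G 0 = 0 := by simpa using DD_CC G 0

theorem zero_it_zero (k : ℕ) : (DD G)^[k] 0 = 0 := Function.iterate_fixed (zero_DD_zero G) k

theorem zero_gen_add {A : Type*} [Add A] {D : A → A} (h : ∀ a b, D (a + b) = D a + D b) (k : ℕ)
    (f g : A) : D^[k] (f + g) = D^[k] f + D^[k] g := by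
  induction k generalizing f g with
  | zero => rfl
  | succ k ih => simp only [Function.iterate_succ_apply, h, ih]

theorem zero_gen_mul {A : Type*} [Mul A] {D : A → A} {c : A} (h : ∀ a, D (c * a) = c * D a) (k : ℕ)
    (f : A) : D^[k] (c * f) = c * D^[k] f := by
  induction k generalizing f with
  | zero => rfl
  | succ k ih => simp only [Function.iterate_succ_apply, h, ih]

theorem zero_it_add (k : ℕ) (f g : F[X][X]) :
    (DD G)^[k] (f + g) = (DD G)^[k] f + (DD G)^[k] g := zero_gen_add (DD_add G) k f g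

theorem zero_it_smul (k : ℕ) (c : F) (f : F[X][X]) :
    (DD G)^[k] (C (C c) * f) = C (C c) * (DD G)^[k] f :=
  zero_gen_mul (fun a => by rw [DD_mul, DD_CC, mul_zero, add_zero]) k f

theorem zero_it_sum {ι : Type*} (s : Finset ι) (k : ℕ) (f : ι → F[X][X]) :
    (DD G)^[k] (∑ i ∈ s, f i) = ∑ i ∈ s, (DD G)^[k] (f i) := by
  classical
  induction s using Finset.induction_on with
  | empty => simpa using zero_it_zero G k
  | insert a s ha ih => rw [Finset.sum_insert ha, Finset.sum_insert ha, zero_it_add, ih]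

theorem zero_DD_pow (g : F[X][X]) (a : ℕ) :
    DD G (g ^ (a + 1)) = ((a + 1 : ℕ) : F[X][X]) * g ^ a * DD G g := by
  induction a with
  | zero => simp
  | succ a ih => rw [pow_succ, DD_mul, ih]; push_cast; ring

theorem zero_DD_pow_mul (g r : F[X][X]) (a : ℕ) : DD G (g ^ (a + 1) * r)
    = g ^ a * (((a + 1 : ℕ) : F[X][X]) * DD G g * r + g * DD G r) := by
  rw [DD_mul, zero_DD_pow]; ring

variable {x t : F}

theorem zero_low {g : F[X][X]} (hg : g.evalEval x t = 0) (j : ℕ) : ∀ (a : ℕ) (r : F[X][X]),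
    j < a → ((DD G)^[j] (g ^ a * r)).evalEval x t = 0 := by
  induction j with
  | zero =>
    intro a r ha
    simp [evalEval_mul, evalEval_pow, hg, ha.ne']
  | succ j ih =>
    intro a r ha
    obtain ⟨a, rfl⟩ : ∃ b, a = b + 1 := ⟨a - 1, by omega⟩
    rw [Function.iterate_succ_apply, zero_DD_pow_mul]
    exact ih _ _ (by omega)

theorem zero_top {g : F[X][X]} (hg : g.evalEval x t = 0) (k : ℕ) : ∀ r : F[X][X],
    ((DD G)^[k] (g ^ k * r)).evalEval x t
      = (k.factorial : F) * (DD G g).evalEval x t ^ k * r.evalEval x t := by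
  induction k with
  | zero => intro r; simp
  | succ k ih =>
    intro r
    rw [Function.iterate_succ_apply, zero_DD_pow_mul, ih, Nat.factorial_succ]
    simp only [evalEval_add, evalEval_mul, hg, evalEval_natCast]
    push_cast; ring

theorem zero_mul_left (k : ℕ) : ∀ h b : F[X][X], (∀ j ≤ k, ((DD G)^[j] h).evalEval x t = 0) →
    ((DD G)^[k] (b * h)).evalEval x t = 0 := by
  induction k with
  | zero =>
    intro h b H
    have := H 0 le_rfl
    simp only [Function.iterate_zero, id] at this ⊢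
    rw [evalEval_mul, this, mul_zero]
  | succ k ih =>
    intro h b H
    rw [Function.iterate_succ_apply, DD_mul, zero_it_add, evalEval_add, mul_comm h,
      ih (DD G h) b fun j hj => H (j + 1) (by omega), ih h _ fun j hj => H j (by omega), add_zero]

theorem zero_self (hG : G.evalEval x t = 0) (j : ℕ) : ((DD G)^[j] G).evalEval x t = 0 := by
  cases j with
  | zero => exact hG
  | succ j => rw [Function.iterate_succ_apply, DD_self, zero_it_zero, evalEval_zero]

theorem zero_sep (p q : F × F) : ∃ l : F[X][X], l.evalEval p.1 p.2 ≠ 0 ∧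
    (q ≠ p → l.evalEval q.1 q.2 = 0) := by
  by_cases h1 : p.1 = q.1
  · by_cases h2 : p.2 = q.2
    · exact ⟨1, by simp, fun h => absurd (Prod.ext h1.symm h2.symm) h⟩
    · exact ⟨X - C (C q.2), by simpa [evalEval_sub, sub_eq_zero] using h2,
        fun _ => by simp [evalEval_sub]⟩
  · exact ⟨C (X - C q.1), by simpa [evalEval_C, sub_eq_zero] using h1,
      fun _ => by simp [evalEval_C]⟩

theorem zero_idem (S : Finset (F × F)) (p : F × F) : ∃ e : F[X][X], e.evalEval p.1 p.2 ≠ 0 ∧
    ∀ q ∈ S, q ≠ p → e.evalEval q.1 q.2 = 0 := by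
  choose l h1 h2 using zero_sep p
  refine ⟨∏ q ∈ S, l q, ?_, fun q hq hqp => ?_⟩
  · rw [evalEval_prod]; exact Finset.prod_ne_zero_iff.2 fun q _ => h1 q
  · rw [evalEval_prod]; exact Finset.prod_eq_zero hq (h2 q hqp)

variable {G}

theorem zero_norm_deg {δ n w : ℕ} {f : F[X][X]} (hG : G.Monic) (hn : G.natDegree = n)
    (hW : Wt δ (δ * n) G) (hf : Wt δ w f) :
    (Algebra.norm F[X] (AdjoinRoot.mk G f)).natDegree ≤ n * w := by
  classical
  subst hn
  rw [Algebra.norm_eq_matrix_det (AdjoinRoot.powerBasis' hG).basis, Matrix.det_apply]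
  set A := Algebra.leftMulMatrix (AdjoinRoot.powerBasis' hG).basis (AdjoinRoot.mk G f) with hA
  have key : ∀ i j, A i j ≠ 0 → (A i j).natDegree + δ * i ≤ w + δ * j := by
    intro i j
    have e : A i j = ((f * X ^ (j : ℕ)) %ₘ G).coeff i := by
      rw [hA, Algebra.leftMulMatrix_eq_repr_mul, PowerBasis.basis_eq_pow]
      have : AdjoinRoot.mk G f * (AdjoinRoot.powerBasis' hG).gen ^ (j : ℕ)
          = AdjoinRoot.mk G (f * X ^ (j : ℕ)) := by
        rw [map_mul, map_pow, AdjoinRoot.mk_X]; rfl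
      rw [this]
      exact (AdjoinRoot.powerBasisAux'_repr_apply_to_fun hG _ i).trans
        (by rw [AdjoinRoot.modByMonicHom_mk])
    rw [e]
    refine wt_modByMonic hG rfl hW (wt_mul hf fun k hk => ?_) i
    rw [coeff_X_pow] at hk ⊢
    split_ifs at hk ⊢ with h
    · simp [h]
    · exact absurd rfl hk
  refine natDegree_sum_le_of_forall_le _ _ fun σ _ => (natDegree_smul_le _ _).trans ?_
  by_cases h0 : ∃ j, A (σ j) j = 0
  · obtain ⟨j, hj⟩ := h0
    rw [Finset.prod_eq_zero (f := fun i => A (σ i) i) (Finset.mem_univ j) hj]; simp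
  · push Not at h0
    refine (natDegree_prod_le _ _).trans ?_
    have h1 := Finset.sum_le_sum fun j (_ : j ∈ Finset.univ) => key _ _ (h0 j)
    rw [Finset.sum_add_distrib, Finset.sum_add_distrib,
      Equiv.sum_comp σ fun i => δ * (i : ℕ)] at h1
    simpa using h1

theorem zero_dim {ι : Type*} [Fintype ι] {f : F[X][X]} (hG : G.Monic) (hp : Prime G)
    (hnd : ¬ G ∣ f) (h : ι → F[X][X]) (H : ∀ (c : ι → F) (r s : F[X][X]),
      ∑ i, C (C (c i)) * h i = r * G + s * f → ∀ i, c i = 0) :
    Fintype.card ι ≤ (Algebra.norm F[X] (AdjoinRoot.mk G f)).natDegree := by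
  classical
  have : IsDomain (AdjoinRoot G) := AdjoinRoot.isDomain_of_prime hp
  have hf0 : AdjoinRoot.mk G f ≠ 0 := fun h => hnd (AdjoinRoot.mk_eq_zero.1 h)
  have hI := Ideal.span_singleton_eq_bot.not.2 hf0
  rw [← finrank_quotient_span_eq_natDegree_norm (AdjoinRoot.powerBasis' hG).basis hf0]
  have : Module.Finite F (AdjoinRoot G ⧸ Ideal.span {AdjoinRoot.mk G f}) :=
    Module.Finite.equiv
      (Ideal.quotientEquivDirectSum F (AdjoinRoot.powerBasis' hG).basis hI).symm
  refine LinearIndependent.fintype_card_le_finrank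
    (b := fun i => Ideal.Quotient.mk (Ideal.span {AdjoinRoot.mk G f}) (AdjoinRoot.mk G (h i))) ?_
  rw [Fintype.linearIndependent_iff]
  intro c hc
  have h1 : Ideal.Quotient.mk (Ideal.span {AdjoinRoot.mk G f})
      (AdjoinRoot.mk G (∑ i, C (C (c i)) * h i)) = 0 := by
    rw [← hc, map_sum, map_sum]
    refine Finset.sum_congr rfl fun i _ => ?_
    rw [Algebra.smul_def, map_mul, map_mul, IsScalarTower.algebraMap_apply F (AdjoinRoot G),
      IsScalarTower.algebraMap_apply F F[X], Ideal.Quotient.algebraMap_eq,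
      AdjoinRoot.algebraMap_eq, AdjoinRoot.mk_C, algebraMap_eq]
  obtain ⟨s, hs⟩ := Ideal.mem_span_singleton'.1 (Ideal.Quotient.eq_zero_iff_mem.1 h1)
  obtain ⟨s, rfl⟩ := AdjoinRoot.mk_surjective s
  rw [← map_mul, eq_comm, AdjoinRoot.mk_eq_mk] at hs
  obtain ⟨r, hr⟩ := hs
  exact H c r s (by rw [mul_comm r, ← hr, sub_add_cancel])

end aux

theorem zero_count {F : Type*} [Field F] {δ n w M : ℕ} {G f : F[X][X]} (hG : G.Monic)
    (hn : G.natDegree = n) (hW : Wt δ (δ * n) G) (hp : Prime G) (hf : Wt δ w f) (hnd : ¬ G ∣ f)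
    (hM : ∀ k : ℕ, 0 < k → k < M → (k : F) ≠ 0) (S : Finset (F × F))
    (hS : ∀ p ∈ S, G.evalEval p.1 p.2 = 0 ∧ (derivative G).evalEval p.1 p.2 ≠ 0 ∧
      ∀ k < M, ((DD G)^[k] f).evalEval p.1 p.2 = 0) : M * S.card ≤ n * w := by
  classical
  refine le_trans ?_ (zero_norm_deg hG hn hW hf)
  choose e he1 he2 using zero_idem S
  obtain ⟨u, hu, hDu⟩ : ∃ u : F × F → F[X][X], (∀ p, (u p).evalEval p.1 p.2 = 0) ∧
      ∀ p, DD G (u p) = derivative G := by
    refine ⟨fun p => C X - C (C p.1), fun p => by simp [evalEval_sub, evalEval_C], fun p => ?_⟩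
    have h1 := DD_add G (C X - C (C p.1)) (C (C p.1))
    rw [DD_CC, add_zero, sub_add_cancel, DD_CX] at h1
    exact h1.symm
  have key := zero_dim hG hp hnd (fun i : Fin M × S => u i.2 ^ (i.1 : ℕ) * e i.2 ^ M) ?_
  · simpa using key
  intro c r s hr
  have h2 : ∀ (p : S) (j : Fin M), ∑ i : Fin M × S,
      c i * ((DD G)^[j] (u i.2 ^ (i.1 : ℕ) * e i.2 ^ M)).evalEval p.1.1 p.1.2 = 0 := by
    intro p j
    have h3 : ((DD G)^[j] (r * G + s * f)).evalEval p.1.1 p.1.2 = 0 := by
      rw [zero_it_add, evalEval_add,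
        zero_mul_left G j G r fun i _ => zero_self G (hS p p.2).1 i,
        zero_mul_left G j f s fun i hi => (hS p p.2).2.2 i (hi.trans_lt j.2), add_zero]
    rw [← hr, zero_it_sum, evalEval_finsetSum] at h3
    simpa only [zero_it_smul, evalEval_mul, evalEval_CC] using h3
  have h4 : ∀ (p : S) (m : ℕ) (j : Fin M), (j : ℕ) = m → c (j, p) = 0 := by
    intro p m
    induction m using Nat.strong_induction_on with
    | _ m ih =>
      intro j hj
      have h5 := h2 p j
      rw [Finset.sum_eq_single (j, p)] at h5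
      · rw [zero_top G (hu p), hDu, evalEval_pow] at h5
        refine (mul_eq_zero.1 h5).resolve_right (mul_ne_zero (mul_ne_zero ?_
          (pow_ne_zero _ (hS p p.2).2.1)) (pow_ne_zero _ (he1 p)))
        rw [← Finset.prod_range_add_one_eq_factorial, Nat.cast_prod]
        exact Finset.prod_ne_zero_iff.2 fun i hi => hM _ (Nat.succ_pos i)
          (lt_of_le_of_lt (Finset.mem_range.1 hi) j.2)
      · rintro ⟨k, q⟩ - hne
        by_cases hq : p = q
        · subst hq
          rcases lt_trichotomy (k : ℕ) j with hk | hk | hk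
          · rw [ih k (hj ▸ hk) k rfl, zero_mul]
          · exact absurd (by rw [Fin.ext hk]) hne
          · rw [zero_low G (hu p) _ _ _ hk, mul_zero]
        · rw [mul_comm (u _ ^ _),
            zero_low G (he2 q p p.2 fun h => hq (Subtype.ext h)) _ _ _ j.2, mul_zero]
      · simp
  exact fun i => h4 i.2 _ i.1 rfl

end Pool.Agent.P.MP_a60a76_nt.Fs
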