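import Pool.Agent.P.MP_a60a76_nt.Fs.Defs
import Pool.Agent.P.MP_a60a76_nt.Fs.Zero

namespace Pool.Agent.P.MP_a60a76_nt.Fs

open Polynomial
open scoped NNReal

section aux

variable {F : Type*} [Field F] {δ : ℕ}

theorem step_smul_eq (c : F) (f : F[X][X]) : c • f = C (C c) * f := by
  rw [← smul_eq_C_mul, ← algebraMap_smul (A := F[X]) c f, algebraMap_eq]

theorem step_DD_smul (G : F[X][X]) (c : F) (f : F[X][X]) : DD G (c • f) = c • DD G f := by
  rw [step_smul_eq, step_smul_eq, DD_mul, DD_CC, mul_zero, add_zero]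

/-- The derivation along the curve as a linear map. -/
noncomputable def stepL (G : F[X][X]) : F[X][X] →ₗ[F] F[X][X] where
  toFun := DD G
  map_add' := DD_add G
  map_smul' := step_DD_smul G

theorem step_iter (G : F[X][X]) (k : ℕ) (f : F[X][X]) : (DD G)^[k] f = (stepL G ^ k) f := by
  rw [Module.End.pow_apply]; rfl

theorem step_iter_sum {I : Type*} [Fintype I] (G : F[X][X]) (k : ℕ) (c : I → F)
    (v : I → F[X][X]) : (DD G)^[k] (∑ i, c i • v i) = ∑ i, c i • (DD G)^[k] (v i) := by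
  simp only [step_iter, map_sum, map_smul]

theorem step_iter_mul {I : Type*} [Fintype I] (G : F[X][X]) (k : ℕ) (v z : I → F[X][X])
    (hz : ∀ i, DD G (z i) = 0) :
    (DD G)^[k] (∑ i, v i * z i) = ∑ i, (DD G)^[k] (v i) * z i := by
  induction k with
  | zero => rfl
  | succ k ih =>
    rw [Function.iterate_succ_apply', ih]
    change stepL G _ = _
    rw [map_sum]
    refine Finset.sum_congr rfl fun i _ => ?_
    change DD G _ = _
    rw [DD_mul, hz, mul_zero, zero_add, Function.iterate_succ_apply', mul_comm]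

theorem step_DD_pow (G g : F[X][X]) (m : ℕ) :
    DD G (g ^ (m + 1)) = ((m + 1 : ℕ) : F[X][X]) * g ^ m * DD G g := by
  induction m with
  | zero => simp
  | succ m ih => rw [pow_succ, DD_mul, ih]; push_cast; ring

theorem step_dvd_iter {G f : F[X][X]} (h : G ∣ f) (k : ℕ) : G ∣ (DD G)^[k] f := by
  induction k with
  | zero => exact h
  | succ k ih =>
    obtain ⟨q, hq⟩ := ih
    rw [Function.iterate_succ_apply', hq, DD_mul, DD_self, mul_zero, add_zero]
    exact dvd_mul_right _ _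

theorem step_wt_zero (w : ℕ) : Wt δ w (0 : F[X][X]) := fun i h => absurd (coeff_zero i) h

theorem step_wt_sum {I : Type*} (s : Finset I) {w : ℕ} {f : I → F[X][X]}
    (h : ∀ i, Wt δ w (f i)) : Wt δ w (∑ i ∈ s, f i) := by
  classical
  induction s using Finset.induction_on with
  | empty => simpa using step_wt_zero w
  | insert a s ha ih => rw [Finset.sum_insert ha]; exact wt_add (h a) ih

theorem step_wt_smul {w : ℕ} {f : F[X][X]} (c : F) (h : Wt δ w f) : Wt δ w (c • f) := by
  intro i hi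
  rw [coeff_smul] at hi ⊢
  have h0 : f.coeff i ≠ 0 := by
    intro h0
    rw [h0, smul_zero] at hi
    exact hi rfl
  have h1 := natDegree_smul_le c (f.coeff i)
  have h2 := h i h0
  omega

theorem step_wt_one : Wt δ 0 (1 : F[X][X]) := by
  intro i hi
  rw [coeff_one] at hi ⊢
  split_ifs at hi ⊢ with h
  · simp [h]
  · exact absurd rfl hi

theorem step_wt_pow {w : ℕ} {f : F[X][X]} (h : Wt δ w f) (m : ℕ) : Wt δ (m * w) (f ^ m) := by
  induction m with
  | zero => simpa using step_wt_one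
  | succ m ih => rw [pow_succ, Nat.succ_mul]; exact wt_mul ih h

theorem step_wt_iter {n w : ℕ} {G f : F[X][X]} (hW : Wt δ (δ * n) G) (hf : Wt δ w f) (k : ℕ) :
    Wt δ (w + k * (δ * n)) ((DD G)^[k] f) := by
  induction k with
  | zero => simpa using hf
  | succ k ih =>
    rw [Function.iterate_succ_apply', Nat.succ_mul, ← add_assoc]
    exact wt_DD hW ih

variable (F) in
/-- Monomials in a box. -/
noncomputable def stepM {A n : ℕ} (i : Fin A × Fin n) : F[X][X] :=
  monomial (i.2 : ℕ) (monomial (i.1 : ℕ) 1)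

theorem step_wt_mon {A n : ℕ} (i : Fin A × Fin n) : Wt δ (A + δ * n) (stepM F i) := by
  intro k hk
  unfold stepM at hk ⊢
  rw [coeff_monomial] at hk ⊢
  split_ifs at hk ⊢ with h
  · have h1 := natDegree_monomial_le (1 : F) (m := (i.1 : ℕ))
    have h2 := i.1.2
    have h3 : δ * k ≤ δ * n := Nat.mul_le_mul_left _ (by have := i.2.2; omega)
    omega
  · exact absurd rfl hk

theorem step_box {A n : ℕ} {G : F[X][X]} (hG : G.Monic) (hn : G.natDegree = n)
    (c : Fin A × Fin n → F) (h : G ∣ ∑ i, c i • stepM F i) : c = 0 := by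
  have hco : ∀ (a k : ℕ), ((∑ i, c i • stepM F i).coeff k).coeff a
      = ∑ i, if (i.2 : ℕ) = k ∧ (i.1 : ℕ) = a then c i else 0 := by
    intro a k
    rw [finsetSum_coeff, finsetSum_coeff]
    refine Finset.sum_congr rfl fun i _ => ?_
    unfold stepM
    rw [coeff_smul, coeff_smul, coeff_monomial]
    by_cases h1 : (i.2 : ℕ) = k <;> by_cases h2 : (i.1 : ℕ) = a <;> simp [h1, h2, coeff_monomial]
  have h0 : ∑ i, c i • stepM F i = 0 := by
    refine eq_zero_of_dvd_of_degree_lt h ?_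
    rw [degree_eq_natDegree hG.ne_zero, hn, degree_lt_iff_coeff_zero]
    intro k hk
    ext a
    rw [hco, coeff_zero]
    refine Finset.sum_eq_zero fun i _ => if_neg fun h => ?_
    have := i.2.2
    omega
  funext i
  have h1 := hco i.1 i.2
  rw [h0, coeff_zero, coeff_zero, Finset.sum_eq_single i] at h1
  · simpa using h1.symm
  · intro j _ hj
    refine if_neg fun h => hj (Prod.ext (Fin.ext h.2) (Fin.ext h.1))
  · intro h; exact absurd (Finset.mem_univ i) h

/-- Linear algebra: a nonzero solution of the vanishing conditions. -/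
theorem step_exists {I : Type*} [Fintype I] {n w M : ℕ} {G : F[X][X]} (hG : G.Monic)
    (hn : G.natDegree = n) (hW : Wt δ (δ * n) G) (u : Fin M → I → F[X][X])
    (hu : ∀ k i, Wt δ w (u k i)) (hc : M * n * (w + 1) < Fintype.card I) :
    ∃ c : I → F, c ≠ 0 ∧ ∀ k, G ∣ ∑ i, c i • u k i := by
  let Φ : (I → F) →ₗ[F] (Fin M × Fin n × Fin (w + 1) → F) := LinearMap.pi fun q =>
    (lcoeff F (q.2.2 : ℕ)) ∘ₗ ((lcoeff F[X] (q.2.1 : ℕ)).restrictScalars F) ∘ₗ
      ((modByMonicHom G).restrictScalars F) ∘ₗ Fintype.linearCombination F (u q.1)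
  have hker : LinearMap.ker Φ ≠ ⊥ := by
    refine LinearMap.ker_ne_bot_of_finrank_lt ?_
    simp only [Module.finrank_fintype_fun_eq_card, Fintype.card_prod, Fintype.card_fin]
    rwa [← mul_assoc]
  obtain ⟨c, hc1, hc0⟩ := (Submodule.ne_bot_iff _).1 hker
  refine ⟨c, hc0, fun k => ?_⟩
  rw [← modByMonic_eq_zero_iff_dvd hG]
  have hwt : Wt δ w ((∑ i, c i • u k i) %ₘ G) :=
    wt_modByMonic hG hn hW (step_wt_sum _ fun i => step_wt_smul _ (hu k i))
  ext t d
  rw [coeff_zero, coeff_zero]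
  by_cases ht : t < n
  · by_cases hd : d < w + 1
    · exact congrFun (LinearMap.mem_ker.1 hc1) (k, ⟨t, ht⟩, ⟨d, hd⟩)
    · by_cases h0 : ((∑ i, c i • u k i) %ₘ G).coeff t = 0
      · rw [h0, coeff_zero]
      · have := hwt t h0
        exact coeff_eq_zero_of_natDegree_lt (by omega)
  · have h1 := degree_modByMonic_lt (∑ i, c i • u k i) hG
    rw [degree_eq_natDegree hG.ne_zero, hn, degree_lt_iff_coeff_zero] at h1
    rw [h1 t (by omega), coeff_zero]

/-- Independence over the constants of the derivation. -/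
theorem step_indep {I K : Type*} [Fintype I] [Fintype K] {G : F[X][X]} (hp : Prime G) {x y : F}
    (h0 : G.evalEval x y = 0) (u : K → I → F[X][X])
    (hinj : ∀ a : I → F, (∀ k, ∑ i, a i * (u k i).evalEval x y = 0) → a = 0)
    (z : I → F[X][X]) (hz : ∀ k, G ∣ ∑ i, u k i * z i) (i : I) : G ∣ z i := by
  classical
  let E : Matrix K I F := Matrix.of fun k i => (u k i).evalEval x y
  have hker : LinearMap.ker (Matrix.toLin' E) = ⊥ := by
    rw [LinearMap.ker_eq_bot']
    intro a ha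
    refine hinj a fun k => ?_
    have h1 := congrFun ha k
    simp only [Matrix.toLin'_apply, Matrix.mulVec, dotProduct, E, Matrix.of_apply,
      Pi.zero_apply] at h1
    rw [← h1]
    exact Finset.sum_congr rfl fun i _ => mul_comm _ _
  obtain ⟨g, hg⟩ := LinearMap.exists_leftInverse_of_injective _ hker
  have hΛ : LinearMap.toMatrix' g * E = 1 := by
    have h1 := congrArg LinearMap.toMatrix' hg
    rwa [LinearMap.toMatrix'_comp, LinearMap.toMatrix'_toLin', LinearMap.toMatrix'_id] at h1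
  let N : Matrix I I F[X][X] := Matrix.of fun i' i => ∑ k, LinearMap.toMatrix' g i' k • u k i
  have hN : (evalEvalRingHom x y).mapMatrix N = 1 := by
    rw [← hΛ]
    ext i' i
    simp only [RingHom.mapMatrix_apply, Matrix.map_apply, N, Matrix.of_apply,
      Matrix.mul_apply, E, coe_evalEvalRingHom, evalEval_finsetSum, evalEval_smul, smul_eq_mul]
  have hdet : ¬ G ∣ N.det := by
    intro h
    have h1 := evalEval_dvd x y h
    have h2 : N.det.evalEval x y = 1 := by
      rw [← coe_evalEvalRingHom, RingHom.map_det, hN, Matrix.det_one]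
    rw [h0, h2, zero_dvd_iff] at h1
    exact one_ne_zero h1
  have hNz : ∀ i', G ∣ (N.mulVec z) i' := by
    intro i'
    have e : (N.mulVec z) i' = ∑ k, C (C (LinearMap.toMatrix' g i' k)) * ∑ i, u k i * z i := by
      simp only [Matrix.mulVec, dotProduct, N, Matrix.of_apply, Finset.sum_mul, Finset.mul_sum,
        step_smul_eq, mul_assoc]
      exact Finset.sum_comm
    rw [e]
    exact Finset.dvd_sum fun k _ => (hz k).mul_left _
  have h3 : N.det * z i = (N.adjugate.mulVec (N.mulVec z)) i := by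
    rw [Matrix.mulVec_mulVec, Matrix.adjugate_mul, Matrix.smul_mulVec, Matrix.one_mulVec,
      Pi.smul_apply, smul_eq_mul]
  have h4 : G ∣ N.det * z i := by
    rw [h3]
    exact Finset.dvd_sum fun j _ => (hNz j).mul_left _
  exact (hp.dvd_or_dvd h4).resolve_left hdet

end aux

theorem stepanov (l : ℕ) [Fact l.Prime] {δ n : ℕ} {G : (ZMod l)[X][X]} (hδ : 0 < δ) (hG : G.Monic)
    (hn : G.natDegree = n) (hW : Wt δ (δ * n) G) (hp : Prime G) (hl : 3 * δ ^ 2 * n ^ 4 < l)
    (S : Finset (ZMod l × ZMod l))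
    (hS : ∀ p ∈ S, G.evalEval p.1 p.2 = 0 ∧ (derivative G).evalEval p.1 p.2 ≠ 0) :
    S.card ≤ 9 * l := by
  rcases S.eq_empty_or_nonempty with rfl | ⟨p0, hp0⟩
  · simp
  have hn0 : 0 < n := by
    rcases Nat.eq_zero_or_pos n with h | h
    · exact absurd (hG.natDegree_eq_zero.1 (hn.trans h) ▸ isUnit_one) hp.not_isUnit
    · exact h
  have hcast : ∀ k : ℕ, 0 < k → k < l → (k : ZMod l) ≠ 0 := fun k h1 h2 h =>
    absurd (Nat.le_of_dvd h1 ((ZMod.natCast_eq_zero_iff k l).1 h)) (by omega)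
  obtain ⟨e, rfl⟩ : ∃ e, δ = e + 1 := ⟨δ - 1, by omega⟩
  obtain ⟨m, rfl⟩ : ∃ m, n = m + 1 := ⟨n - 1, by omega⟩
  generalize hδe : e + 1 = δ at *
  generalize hnm : m + 1 = n at *
  have hδn : δ * n ≤ δ ^ 2 * n ^ 3 :=
    Nat.mul_le_mul (Nat.le_self_pow (by norm_num) δ) (Nat.le_self_pow (by norm_num) n)
  have hone : 1 ≤ δ * n := Nat.mul_pos hδ hn0
  have hM : δ * n ^ 2 ≤ δ ^ 2 * n ^ 4 :=
    Nat.mul_le_mul (Nat.le_self_pow (by norm_num) δ) (Nat.pow_le_pow_right hn0 (by norm_num))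
  have hv : ∀ i : Fin (2 * δ ^ 2 * n ^ 3) × Fin n,
      Wt δ (3 * δ ^ 2 * n ^ 3) (stepM (ZMod l) i) := fun i =>
    wt_mono (step_wt_mon i) (by nlinarith)
  have hw : ∀ j : Fin (7 * δ * n) × Fin n, Wt δ (8 * δ * n) (stepM (ZMod l) j) := fun j =>
    wt_mono (step_wt_mon j) (by nlinarith)
  obtain ⟨c, hc0, hc⟩ := step_exists (M := δ * n ^ 2)
    (w := 3 * δ ^ 2 * n ^ 3 + δ * n ^ 2 * (δ * n) + 8 * δ * n) hG hn hW
    (fun k (q : (Fin (2 * δ ^ 2 * n ^ 3) × Fin n) × (Fin (7 * δ * n) × Fin n)) =>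
      (DD G)^[k] (stepM (ZMod l) q.1) * stepM (ZMod l) q.2)
    (fun k q => wt_mul (wt_mono (step_wt_iter hW (hv q.1) k)
      (Nat.add_le_add_left (Nat.mul_le_mul_right _ k.2.le) _)) (hw q.2))
    (by
      simp only [Fintype.card_prod, Fintype.card_fin]
      have h1 : 3 * δ ^ 2 * n ^ 3 + δ * n ^ 2 * (δ * n) + 8 * δ * n + 1
          ≤ 13 * (δ ^ 2 * n ^ 3) := by nlinarith
      have h2 : 0 < δ * n ^ 2 * n * (δ ^ 2 * n ^ 3) := by positivity
      calc _ ≤ δ * n ^ 2 * n * (13 * (δ ^ 2 * n ^ 3)) := Nat.mul_le_mul_left _ h1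
        _ = 13 * (δ * n ^ 2 * n * (δ ^ 2 * n ^ 3)) := by ring
        _ < 14 * (δ * n ^ 2 * n * (δ ^ 2 * n ^ 3)) := by omega
        _ = _ := by ring)
  let y : Fin (2 * δ ^ 2 * n ^ 3) × Fin n → (ZMod l)[X][X] := fun i =>
    ∑ j, c (i, j) • stepM (ZMod l) j
  have hy : ∀ i, Wt δ (8 * δ * n) (y i) := fun i =>
    step_wt_sum _ fun j => step_wt_smul _ (hw j)
  have hpow : ∀ i, DD G (y i ^ l) = 0 := by
    intro i
    have hl0 : l = l - 1 + 1 := by omega
    have h1 := step_DD_pow G (y i) (l - 1)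
    rw [← hl0, CharP.cast_eq_zero, zero_mul, zero_mul] at h1
    exact h1
  have hh : Wt δ (3 * δ ^ 2 * n ^ 3 + l * (8 * δ * n)) (∑ i, stepM (ZMod l) i * y i ^ l) :=
    step_wt_sum _ fun i => wt_mul (hv i) (step_wt_pow (hy i) l)
  have hnd : ¬ G ∣ ∑ i, stepM (ZMod l) i * y i ^ l := by
    intro hd
    apply hc0
    funext ⟨i, j⟩
    have h1 : G ∣ y i ^ l := by
      refine step_indep (K := Fin (n * (3 * δ ^ 2 * n ^ 3) + 1)) hp (hS p0 hp0).1
        (fun k i => (DD G)^[k] (stepM (ZMod l) i)) (fun a ha => ?_) (fun i => y i ^ l)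
        (fun k => ?_) i
      · refine step_box hG hn a ?_
        by_contra hna
        have h2 := zero_count (M := n * (3 * δ ^ 2 * n ^ 3) + 1) hG hn hW hp
          (step_wt_sum _ fun i => step_wt_smul (a i) (hv i)) hna
          (fun k h1 h2 => hcast k h1 (by nlinarith)) {p0} (by
            intro p hp
            rw [Finset.mem_singleton.1 hp]
            refine ⟨(hS p0 hp0).1, (hS p0 hp0).2, fun k hk => ?_⟩
            rw [step_iter_sum, evalEval_finsetSum, ← ha ⟨k, hk⟩]
            refine Finset.sum_congr rfl fun i _ => ?_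
            rw [evalEval_smul, smul_eq_mul])
        rw [Finset.card_singleton] at h2
        omega
      · rw [← step_iter_mul G k _ _ hpow]
        exact step_dvd_iter hd k
    exact congrFun (step_box hG hn (fun j => c (i, j)) (hp.dvd_of_dvd_pow h1)) j
  have hz := zero_count (M := δ * n ^ 2) hG hn hW hp hh hnd
    (fun k h1 h2 => hcast k h1 (by nlinarith)) S (by
      intro p hp
      refine ⟨(hS p hp).1, (hS p hp).2, fun k hk => ?_⟩
      have h1 := evalEval_dvd p.1 p.2 (hc ⟨k, hk⟩)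
      rw [(hS p hp).1, zero_dvd_iff] at h1
      rw [Fintype.sum_prod_type, evalEval_finsetSum] at h1
      rw [step_iter_mul G k _ _ hpow, evalEval_finsetSum]
      refine Eq.trans ?_ h1
      refine Finset.sum_congr rfl fun i _ => ?_
      rw [evalEval_mul, evalEval_pow, ZMod.pow_card, ← evalEval_mul, Finset.mul_sum]
      simp only [mul_smul_comm])
  have hpos : 0 < δ * n ^ 2 := by positivity
  refine Nat.le_of_mul_le_mul_left (hz.trans ?_) hpos
  have h1 : l ≤ δ * n ^ 2 * l := Nat.le_mul_of_pos_left _ hpos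
  nlinarith

end Pool.Agent.P.MP_a60a76_nt.Fs
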