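import Pool.Agent.P.MP_a60a76_nt.Fs.Defs
import Pool.Agent.P.MP_a60a76_nt.Fs.Step

namespace Pool.Agent.P.MP_a60a76_nt.Fs

open Polynomial
open scoped NNReal

theorem cnt_factor {R : Type*} [CommRing R] [IsDomain R] [WfDvdMonoid R] {F : R[X]} (hF : F.Monic)
    (h : F.natDegree ≠ 0) : ∃ G H : R[X], G.Monic ∧ H.Monic ∧ Irreducible G ∧ F = G * H := by
  obtain ⟨g, hg, hd⟩ := exists_irreducible_of_natDegree_ne_zero h
  obtain ⟨u, hu⟩ := hF.isUnit_leadingCoeff_of_dvd hd
  have hm : (C (↑u⁻¹ : R) * g).Monic := monic_C_mul_of_mul_leadingCoeff_eq_one (by simp [← hu])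
  have hun : IsUnit (C (↑u⁻¹ : R) : R[X]) := isUnit_C.2 u⁻¹.isUnit
  obtain ⟨H, hH⟩ := hun.mul_left_dvd.2 hd
  exact ⟨_, H, hm, hm.of_mul_monic_left (hH ▸ hF), (irreducible_isUnit_mul hun).2 hg, hH⟩

theorem cnt (l : ℕ) [Fact l.Prime] {δ n ρ : ℕ} {F : (ZMod l)[X][X]} (hδ : 0 < δ) (hF : F.Monic)
    (hn : F.natDegree = n) (hW : Wt δ (δ * n) F)
    (hirr : ∀ G : (ZMod l)[X][X], Irreducible G → G ∣ F → ρ ≤ G.natDegree)
    (hl : 3 * δ ^ 2 * n ^ 4 < l) (S : Finset (ZMod l × ZMod l))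
    (hS : ∀ p ∈ S, F.evalEval p.1 p.2 = 0 ∧ (derivative F).evalEval p.1 p.2 ≠ 0) :
    ρ * S.card ≤ 9 * n * l := by
  induction n using Nat.strong_induction_on generalizing F S with
  | _ n ih =>
    by_cases h0 : F.natDegree = 0
    · have : S = ∅ := Finset.eq_empty_of_forall_notMem fun p hp => by
        have := (hS p hp).1
        rw [eq_one_of_monic_natDegree_zero hF h0, evalEval_one] at this
        exact one_ne_zero this
      simp [this]
    obtain ⟨G, H, hG, hH, hi, rfl⟩ := cnt_factor hF h0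
    subst hn
    have hdeg := hG.natDegree_mul hH
    have hG0 : G.natDegree ≠ 0 := fun h =>
      hi.not_isUnit (eq_one_of_monic_natDegree_zero hG h ▸ isUnit_one)
    have hb : ∀ k ≤ (G * H).natDegree, 3 * δ ^ 2 * k ^ 4 < l := fun k hk =>
      (Nat.mul_le_mul_left _ (Nat.pow_le_pow_left hk 4)).trans_lt hl
    have a1 := stepanov l hδ hG rfl (wt_of_dvd hG hF hW (dvd_mul_right G H)) hi.prime
      (hb _ (by omega)) (S.filter fun p => G.evalEval p.1 p.2 = 0) fun p hp => by
        obtain ⟨hp, h1⟩ := Finset.mem_filter.1 hp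
        refine ⟨h1, fun h2 => (hS p hp).2 ?_⟩
        rw [derivative_mul, evalEval_add, evalEval_mul, evalEval_mul, h1, h2, zero_mul, zero_mul,
          add_zero]
    have a2 := ih H.natDegree (by omega) hH rfl (wt_of_dvd hH hF hW (dvd_mul_left H G))
      (fun K hK hd => hirr K hK (hd.mul_left G)) (hb _ (by omega))
      (S.filter fun p => ¬ G.evalEval p.1 p.2 = 0) fun p hp => by
        obtain ⟨hp, h1⟩ := Finset.mem_filter.1 hp
        have h3 := (hS p hp).1
        rw [evalEval_mul] at h3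
        have h4 := (mul_eq_zero.1 h3).resolve_left h1
        refine ⟨h4, fun h2 => (hS p hp).2 ?_⟩
        rw [derivative_mul, evalEval_add, evalEval_mul, evalEval_mul, h4, h2, mul_zero, mul_zero,
          add_zero]
    have a3 := Nat.mul_le_mul (hirr G hi (dvd_mul_right G H)) a1
    rw [← Finset.card_filter_add_card_filter_not (s := S) fun p => G.evalEval p.1 p.2 = 0,
      mul_add, hdeg]
    calc _ ≤ G.natDegree * (9 * l) + 9 * H.natDegree * l := Nat.add_le_add a3 a2
      _ = _ := by ring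

end Pool.Agent.P.MP_a60a76_nt.Fs
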