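import Pool.Agent.P.MP_a60a76_nt.Fs.Defs
import Pool.Agent.P.MP_a60a76_nt.Fs.Place
import Pool.Agent.P.MP_a60a76_nt.Fs.Seq
import Pool.Agent.P.MP_a60a76_nt.Fs.Tau
import Pool.Agent.P.MP_a60a76_nt.Fs.Count

namespace Pool.Agent.P.MP_a60a76_nt.Fs

open Polynomial
open scoped NNReal

theorem degBound_coeff {Ω : Type*} [Field Ω] (v : Valuation Ω ℝ≥0) {B : ℝ≥0} (T : Finset Ω)
    (hT : ∀ t ∈ T, v t ≤ B) (i : ℕ) :
    v ((∏ t ∈ T, (X - C t)).coeff i) * B ^ i ≤ B ^ T.card := by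
  classical
  induction T using Finset.induction_on generalizing i with
  | empty =>
    rcases i with _ | i
    · simp
    · simp [coeff_one]
  | insert t T ht ih =>
    have ih' := ih fun u hu => hT u (Finset.mem_insert_of_mem hu)
    have h1 := hT t (Finset.mem_insert_self _ _)
    have h2 : ∀ j, v (t * (∏ u ∈ T, (X - C u)).coeff j) * B ^ j ≤ B ^ (T.card + 1) := fun j => by
      rw [map_mul, mul_assoc, pow_succ']
      exact mul_le_mul' h1 (ih' j)
    rw [Finset.prod_insert ht, Finset.card_insert_of_notMem ht, sub_mul, coeff_sub, coeff_C_mul]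
    rcases i with _ | i
    · rw [coeff_X_mul_zero, zero_sub, Valuation.map_neg]
      exact h2 0
    · rw [coeff_X_mul]
      refine (mul_le_mul_left (v.map_sub _ _) _).trans ?_
      rw [max_mul]
      refine max_le ?_ (h2 _)
      rw [pow_succ, ← mul_assoc, pow_succ]
      exact mul_le_mul_left (ih' i) _

theorem deg_bounds {R Ω : Type*} [CommRing R] [IsDomain R] [Field Ω] {ι : R →+* Ω} {m : ℕ}
    {a1 b1 a2 b2 : R} (h : Pair ι m a1 b1 a2 b2) (d : R → ℕ) (h0 : d 0 = 0)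
    (hmul : ∀ x y, x ≠ 0 → y ≠ 0 → d (x * y) = d x + d y)
    (hadd : ∀ x y, d (x + y) ≤ max (d x) (d y)) (x0 : R) (hx0 : d x0 = 1) {δ : ℕ}
    (ha1 : d a1 ≤ 2 * δ) (hb1 : d b1 ≤ 3 * δ) (ha2 : d a2 ≤ 2 * δ) (hb2 : d b2 ≤ 3 * δ)
    {s : ℕ} {T : Finset Ω} (hT : IsVals m s (ι a1) (ι b1) (ι a2) (ι b2) T) :
    (∀ F : R[X], F.map ι = ∏ t ∈ T, (X - C t) → ∀ i, F.coeff i ≠ 0 →
      d (F.coeff i) + δ * (m ^ 2 + 1) * i ≤ δ * (m ^ 2 + 1) * T.card) ∧
    (∀ (F : R[X]) (n : R) (e : ℕ), (∀ i, d (F.coeff i) ≤ e) → ι n = ∏ t ∈ T, F.eval₂ ι t →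
      d n ≤ T.card * (e + δ * (m ^ 2 + 1) * F.natDegree)) ∧
    (∀ n : R, ι n = ∏ p ∈ T.offDiag, (p.1 - p.2) → d n ≤ T.card ^ 2 * (δ * (m ^ 2 + 1))) := by
  have hd1 : d 1 = 0 := by
    have := hmul 1 1 one_ne_zero one_ne_zero
    rw [mul_one] at this
    omega
  have hx : x0 ≠ 0 := by
    rintro rfl
    omega
  obtain ⟨L, hL⟩ := exists_loc h.clos (fun x => -(d x : ℤ))
    (fun x y hx hy => by rw [hmul x y hx hy]; push_cast; ring)
    (fun x y _ _ _ => by have := hadd x y; omega) ⟨x0, hx, by omega⟩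
  set v := L.v
  have hv : ∀ x, x ≠ 0 → v (ι x) = 2 ^ d x := fun x hx => by
    rw [hL x hx, one_div, inv_zpow', neg_neg, zpow_natCast]
  have hle : ∀ x n, d x ≤ n → v (ι x) ≤ 2 ^ n := fun x n hn => by
    by_cases hx : x = 0
    · simp [hx]
    · rw [hv x hx]
      exact pow_le_pow_right₀ one_le_two hn
  have hge : ∀ x n, v (ι x) ≤ 2 ^ n → d x ≤ n := fun x n hn => by
    by_cases hx : x = 0
    · rw [hx, h0]
      exact Nat.zero_le _
    · rw [hv x hx] at hn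
      exact (pow_le_pow_iff_right₀ one_lt_two).mp hn
  obtain ⟨u, hu⟩ := h.unit
  have hm : v (m : Ω) = 1 := by
    have := hmul u (u⁻¹ : Rˣ) u.ne_zero (u⁻¹).ne_zero
    rw [u.mul_inv, hd1] at this
    rw [← map_natCast ι, ← hu, hv _ u.ne_zero, show d u = 0 by omega, pow_zero]
  have hm0 : (m : Ω) ≠ 0 := by
    intro h'
    rw [h', map_zero] at hm
    exact zero_ne_one hm
  have hc : v (ι x0 ^ δ) = 2 ^ δ := by rw [map_pow, hv _ hx, hx0, pow_one]
  have hc0 : ι x0 ^ δ ≠ 0 := pow_ne_zero _ ((map_ne_zero_iff ι h.clos.inj).mpr hx)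
  have htor : ∀ a b : R, d a ≤ 2 * δ → d b ≤ 3 * δ → ∀ P : Tors m (ι a) (ι b),
      v (xc (P : Pt (ι a) (ι b))) ≤ 2 ^ δ := fun a b ha hb P => by
    have := tors_int v h.two hc0 (a := ι a) (b := ι b)
      (by rw [hc, ← pow_mul, mul_comm]; exact hle _ _ ha)
      (by rw [hc, ← pow_mul, mul_comm]; exact hle _ _ hb) P.2
    rwa [map_mul, hm, one_mul, hc] at this
  have := h.clos.closed
  have : Finite (Tors m (ι a1) (ι b1)) := by
    refine finite_tors h.two ?_ hm0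
    have : dsc (ι a1) (ι b1) = ι (dsc a1 b1) := by simp [dsc, map_ofNat]
    rw [this]
    exact (map_ne_zero_iff ι h.clos.inj).mpr h.d1
  have hB : ∀ t ∈ T, v t ≤ 2 ^ (δ * (m ^ 2 + 1)) := fun t ht => by
    obtain ⟨ψ, rfl⟩ := (hT t).mp ht
    refine (tau_val v s _ _ (one_le_pow₀ one_le_two) (htor _ _ ha1 hb1) (htor _ _ ha2 hb2) ψ).trans
      (le_of_eq ?_)
    rw [← pow_mul, ← pow_add, mul_add, mul_one]
  generalize δ * (m ^ 2 + 1) = N at hB ⊢
  refine ⟨fun F hF i hi => ?_, fun F n e he hn => hge _ _ ?_, fun n hn => hge _ _ ?_⟩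
  · have := degBound_coeff v T hB i
    rw [← hF, coeff_map, hv _ hi, ← pow_mul, ← pow_mul, ← pow_add] at this
    exact (pow_le_pow_iff_right₀ one_lt_two).mp this
  · rw [hn, map_prod, mul_comm, pow_mul]
    refine Finset.prod_le_pow_card _ _ _ fun t ht => ?_
    rw [eval₂_eq_sum_range]
    refine v.map_sum_le fun i hi => ?_
    rw [map_mul, map_pow, pow_add, pow_mul]
    refine mul_le_mul' (hle _ _ (he i)) ((pow_le_pow_left' (hB t ht) i).trans ?_)
    exact pow_le_pow_right₀ (one_le_pow₀ one_le_two) (Nat.lt_succ_iff.mp (Finset.mem_range.mp hi))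
  · rw [hn, map_prod, mul_comm, pow_mul]
    refine (Finset.prod_le_pow_card _ _ ((2 : ℝ≥0) ^ N) fun p hp => ?_).trans ?_
    · obtain ⟨h1, h2, -⟩ := Finset.mem_offDiag.mp hp
      exact (v.map_sub _ _).trans (max_le (hB _ h1) (hB _ h2))
    · refine pow_le_pow_right₀ (one_le_pow₀ one_le_two) ?_
      rw [Finset.offDiag_card, sq]
      exact Nat.sub_le _ _

theorem dX_zero {R : Type*} [CommRing R] : dX (0 : R[X][X]) = 0 := by
  rw [dX, map_zero, natDegree_zero]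

theorem dX_mul {R : Type*} [CommRing R] [IsDomain R] (x y : R[X][X]) (hx : x ≠ 0) (hy : y ≠ 0) :
    dX (x * y) = dX x + dX y := by
  rw [dX, dX, dX, map_mul]
  exact natDegree_mul ((map_ne_zero_iff _ Polynomial.Bivariate.swap.injective).mpr hx)
    ((map_ne_zero_iff _ Polynomial.Bivariate.swap.injective).mpr hy)

theorem dX_add {R : Type*} [CommRing R] (x y : R[X][X]) : dX (x + y) ≤ max (dX x) (dX y) := by
  rw [dX, dX, dX, map_add]
  exact natDegree_add_le _ _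

end Pool.Agent.P.MP_a60a76_nt.Fs
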