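import Pool.Agent.P.MP_a60a76_nt.Fs.Defs
import Pool.Agent.P.MP_a60a76_nt.Fs.Inv
import Pool.Agent.P.MP_a60a76_nt.Fs.Tau
import Pool.Agent.P.MP_a60a76_nt.Fs.Seq

namespace Pool.Agent.P.MP_a60a76_nt.Fs

open Polynomial
open scoped NNReal

variable {R Ω : Type*} [CommRing R] [IsDomain R] [IsIntegrallyClosed R] [Field Ω] {ι : R →+* Ω}
  {m : ℕ} {a1 b1 a2 b2 : R}

omit [IsDomain R] [IsIntegrallyClosed R] in
theorem norm_basic (h : Pair ι m a1 b1 a2 b2) : (m : Ω) ≠ 0 ∧ Plane m (Tors m (ι a1) (ι b1)) ∧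
    Plane m (Tors m (ι a2) (ι b2)) ∧ Finite (Tors m (ι a1) (ι b1)) := by
  haveI := h.clos.closed
  have hm : (m : Ω) ≠ 0 := by simpa using (h.unit.map ι).ne_zero
  have hd : ∀ a b : R, dsc a b ≠ 0 → dsc (ι a) (ι b) ≠ 0 := fun a b hab e => hab (h.clos.inj (by
    rw [map_zero, ← e]
    simp only [dsc, map_add, map_mul, map_pow, map_ofNat]))
  exact ⟨hm, plane_tors h.two (hd _ _ h.d1) hm, plane_tors h.two (hd _ _ h.d2) hm,
    finite_tors h.two (hd _ _ h.d1) hm⟩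

theorem norm_key (h : Pair ι m a1 b1 a2 b2) {s : ℕ} {T : Finset Ω}
    (hT : IsVals m s (ι a1) (ι b1) (ι a2) (ι b2) T) : ∃ S : Subring Ω, (∀ r, ι r ∈ S) ∧
      (∀ t ∈ T, t ∈ S) ∧ (∀ z ∈ S, (∀ σ ∈ Aut ι, σ z = z) → z ∈ Set.range ι) ∧
      ∀ σ ∈ Aut ι, ∀ t, t ∈ T ↔ σ t ∈ T := by
  obtain ⟨hm, -, -, _⟩ := norm_basic h
  letI := ι.toAlgebra
  have h1 : ∀ σ ∈ Aut ι, ∀ t ∈ T, σ t ∈ T := fun σ hσ t ht => by
    obtain ⟨ψ, rfl⟩ := (hT t).1 ht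
    obtain ⟨ψ', h'⟩ := exists_conj σ ⟨hσ _, hσ _⟩ ⟨hσ _, hσ _⟩ ψ
    exact (hT _).2 ⟨ψ', tau_gal s σ.toRingHom ⟨hσ _, hσ _⟩ ⟨hσ _, hσ _⟩ ψ ψ' (.inl h')⟩
  refine ⟨(integralClosure R Ω).toSubring ⊓ (sepF ι).toSubring, fun r =>
    ⟨isIntegral_algebraMap (x := r), range_mem_sepF r⟩, fun t ht => ?_, fun z hz hσ =>
    mem_range_of_integral h.clos (mem_K0_of_fixed h.clos hz.2 hσ) hz.1,
    fun σ hσ t => ⟨h1 σ hσ t, fun ht => ?_⟩⟩
  · obtain ⟨ψ, rfl⟩ := (hT t).1 ht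
    refine tau_mem _ s (fun P => ?_) (fun P => ?_) ψ
    · exact ⟨(tors_integral_unit ι h.two _ _ h.unit P.2).1, (tors_sep h.clos h.two h.d1 hm P.2).1⟩
    · exact ⟨(tors_integral_unit ι h.two _ _ h.unit P.2).1, (tors_sep h.clos h.two h.d2 hm P.2).1⟩
  · have := h1 σ⁻¹ (inv_mem hσ) _ ht
    rwa [show σ⁻¹ (σ t) = t from σ.symm_apply_apply t] at this

theorem exists_vals (h : Pair ι m a1 b1 a2 b2) (s : ℕ) :
    ∃ T : Finset Ω, IsVals m s (ι a1) (ι b1) (ι a2) (ι b2) T ∧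
      2 * T.card ≤ (m ^ 2 - 1) * (m ^ 2 - m) := by
  classical
  obtain ⟨-, h1, h2, _⟩ := norm_basic h
  have h5 := h.five
  haveI : Finite (Tors m (ι a2) (ι b2)) := Nat.finite_of_card_ne_zero (by rw [h2.1]; positivity)
  haveI : Finite (Tors m (ι a1) (ι b1) ≃+ Tors m (ι a2) (ι b2)) :=
    Finite.of_injective _ DFunLike.coe_injective
  letI := Fintype.ofFinite (Tors m (ι a1) (ι b1) ≃+ Tors m (ι a2) (ι b2))
  refine ⟨(Finset.univ : Finset (Tors m (ι a1) (ι b1) ≃+ Tors m (ι a2) (ι b2))).image (tau m s),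
    fun t => by simp, ?_⟩
  rw [← card_iso h.prime h1 h2, Nat.card_eq_fintype_card, ← Finset.card_univ]
  refine Finset.mul_card_image_le_card _ _ fun t ht => ?_
  obtain ⟨ψ, -, rfl⟩ := Finset.mem_image.1 ht
  refine Finset.one_lt_card.2 ⟨ψ, by simp, ψ.trans (AddEquiv.neg _), by
    simpa using (tau_of_pmeq s (ψ' := ψ.trans (AddEquiv.neg _)) (.inr fun v => by simp)).symm,
    fun e => ?_⟩
  haveI : Nontrivial (Tors m (ι a1) (ι b1)) := Finite.one_lt_card_iff_nontrivial.1 (by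
    rw [h1.1]; nlinarith)
  obtain ⟨v, hv⟩ := exists_ne (0 : Tors m (ι a1) (ι b1))
  have h3 : 2 • ψ v = 0 := by
    rw [two_nsmul]
    exact add_eq_zero_iff_eq_neg.2 (DFunLike.congr_fun e v)
  obtain ⟨k, hk⟩ := h.prime.odd_of_ne_two (by omega)
  have h4 := h2.2 (ψ v)
  rw [congrArg (· • ψ v) hk, add_nsmul, mul_nsmul, h3, nsmul_zero, zero_add, one_nsmul] at h4
  exact hv (ψ.map_eq_zero_iff.1 h4)

theorem exists_minF (h : Pair ι m a1 b1 a2 b2) {s : ℕ} {T : Finset Ω}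
    (hT : IsVals m s (ι a1) (ι b1) (ι a2) (ι b2) T) :
    ∃ F : R[X], F.Monic ∧ F.map ι = ∏ t ∈ T, (X - C t) := by
  obtain ⟨S, -, h2, h3, h4⟩ := norm_key h hT
  have h5 : (∏ t ∈ T, (X - C t)) ∈ lifts ι := by
    refine (lifts_iff_coeff_lifts _).2 fun n => h3 _ ?_ fun σ hσ => ?_
    · have : (∏ t ∈ T, (X - C t)) ∈ lifts S.subtype := prod_mem fun t ht =>
        ⟨X - C ⟨t, h2 t ht⟩, by simp⟩
      obtain ⟨x, hx⟩ := (lifts_iff_coeff_lifts _).1 this n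
      exact hx ▸ x.2
    · have : (∏ t ∈ T, (X - C t)).map σ.toRingHom = ∏ t ∈ T, (X - C t) := by
        rw [Polynomial.map_prod]
        exact Finset.prod_equiv σ.toEquiv (h4 σ hσ) fun t _ => by simp
      conv_rhs => rw [← this, coeff_map]
      rfl
  obtain ⟨F, hF, -, hF'⟩ := lifts_and_natDegree_eq_and_monic h5
    (monic_prod_of_monic _ _ fun t _ => monic_X_sub_C t)
  exact ⟨F, hF', hF⟩

theorem exists_norm (h : Pair ι m a1 b1 a2 b2) {s : ℕ} {T : Finset Ω}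
    (hT : IsVals m s (ι a1) (ι b1) (ι a2) (ι b2) T) (F : R[X]) :
    ∃ n : R, ι n = ∏ t ∈ T, F.eval₂ ι t := by
  obtain ⟨S, h1, h2, h3, h4⟩ := norm_key h hT
  refine h3 _ (prod_mem fun t ht => ?_) fun σ hσ => ?_
  · rw [eval₂_eq_sum_range]
    exact sum_mem fun i _ => mul_mem (h1 _) (pow_mem (h2 t ht) _)
  · rw [map_prod]
    refine Finset.prod_equiv σ.toEquiv (h4 σ hσ) fun t _ => ?_
    rw [eval₂_eq_sum_range, eval₂_eq_sum_range, map_sum]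
    exact Finset.sum_congr rfl fun i _ => by rw [map_mul, map_pow, hσ]; rfl

theorem exists_disc (h : Pair ι m a1 b1 a2 b2) {s : ℕ} {T : Finset Ω}
    (hT : IsVals m s (ι a1) (ι b1) (ι a2) (ι b2) T) :
    ∃ n : R, n ≠ 0 ∧ ι n = ∏ p ∈ T.offDiag, (p.1 - p.2) := by
  obtain ⟨S, -, h2, h3, h4⟩ := norm_key h hT
  obtain ⟨n, hn⟩ := h3 (∏ p ∈ T.offDiag, (p.1 - p.2)) (prod_mem fun p hp =>
    sub_mem (h2 _ (Finset.mem_offDiag.1 hp).1) (h2 _ (Finset.mem_offDiag.1 hp).2.1))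
    fun σ hσ => by
      rw [map_prod]
      refine Finset.prod_equiv (σ.toEquiv.prodCongr σ.toEquiv) (fun p => ?_)
        fun p _ => map_sub σ _ _
      rw [Finset.mem_offDiag, Finset.mem_offDiag, h4 σ hσ p.1, h4 σ hσ p.2]
      exact and_congr_right' (and_congr_right' σ.injective.ne_iff.symm)
  refine ⟨n, fun e => ?_, hn⟩
  rw [e, map_zero, eq_comm, Finset.prod_eq_zero_iff] at hn
  obtain ⟨p, hp, hn⟩ := hn
  exact (Finset.mem_offDiag.1 hp).2.2 (sub_eq_zero.1 hn)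

end Pool.Agent.P.MP_a60a76_nt.Fs
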