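import Pool.Agent.P.MP_a60a76_nt.Fs.Defs
import Pool.Agent.P.MP_a60a76_nt.Fs.SpecEx
import Pool.Agent.P.MP_a60a76_nt.Fs.Red
import Pool.Agent.P.MP_a60a76_nt.Fs.Tau

namespace Pool.Agent.P.MP_a60a76_nt.Fs

open Polynomial
open scoped NNReal

theorem special_zero {K L : Type*} [Field K] [Field L] (g : Spec K L) : g.f 0 = 0 :=
  g.hom.map_zero

theorem special_sub {K L : Type*} [Field K] [Field L] (g : Spec K L) {x y : K} (hx : x ∈ g.S)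
    (hy : y ∈ g.S) : g.f (x - y) = g.f x - g.f y :=
  g.hom.map_sub ⟨x, hx⟩ ⟨y, hy⟩

theorem special_prod {K L α : Type*} [Field K] [Field L] (g : Spec K L) (s : Finset α)
    (f : α → K) (h : ∀ i ∈ s, f i ∈ g.S) : g.f (∏ i ∈ s, f i) = ∏ i ∈ s, g.f (f i) := by
  classical
  induction s using Finset.induction_on with
  | empty => simpa using g.map_one
  | insert a s ha ih =>
    have h' : ∀ i ∈ s, f i ∈ g.S := fun i hi => h i (Finset.mem_insert_of_mem hi)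
    rw [Finset.prod_insert ha, Finset.prod_insert ha,
      g.map_mul _ (h a (Finset.mem_insert_self a s)) _ (g.S.prod_mem h'), ih h']

theorem special_eval {R K L : Type*} [CommRing R] [Field K] [Field L] (g : Spec K L)
    {ι : R →+* K} {ev : R →+* L} (hS : ∀ r, ι r ∈ g.S) (hg : ∀ r, g.f (ι r) = ev r) (F : R[X])
    {t : K} (ht : t ∈ g.S) : F.eval₂ ι t ∈ g.S ∧ g.f (F.eval₂ ι t) = F.eval₂ ev (g.f t) := by
  have e1 : F.eval₂ ι t = (F.eval₂ (ι.codRestrict g.S hS) ⟨t, ht⟩ : g.S) :=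
    (hom_eval₂ F (ι.codRestrict g.S hS) g.S.subtype ⟨t, ht⟩).symm
  have e2 : g.hom.comp (ι.codRestrict g.S hS) = ev := RingHom.ext hg
  refine ⟨e1 ▸ Subtype.property _, ?_⟩
  have e3 := hom_eval₂ F (ι.codRestrict g.S hS) g.hom ⟨t, ht⟩
  rw [e2] at e3
  rw [e1]
  exact e3

variable {R Ω L : Type*} [CommRing R] [IsDomain R] [Field Ω] [Field L] [IsAlgClosed L]
  {ι : R →+* Ω} {m : ℕ} {a1 b1 a2 b2 : R} {a1' b1' a2' b2' : L}

theorem lift_iso (h : Pair ι m a1 b1 a2 b2) (ev : R →+* L) (h2 : (2 : L) ≠ 0)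
    (e1 : ev a1 = a1') (e2 : ev b1 = b1') (e3 : ev a2 = a2') (e4 : ev b2 = b2')
    (hd1 : dsc a1' b1' ≠ 0) (hd2 : dsc a2' b2' ≠ 0) :
    ∃ g : Spec Ω L, (∀ z, z ∈ g.S ↔ ι.IsIntegralElem z) ∧ (∀ r, g.f (ι r) = ev r) ∧
      ∃ Λ : (Tors m a1' b1' ≃+ Tors m a2' b2') ≃ (Tors m (ι a1) (ι b1) ≃+ Tors m (ι a2) (ι b2)),
        (∀ s ψ, tau m s (Λ ψ) ∈ g.S ∧ g.f (tau m s (Λ ψ)) = tau m s ψ) ∧
        ∀ ψ ψ', PMeq (Λ ψ) (Λ ψ') → PMeq ψ ψ' := by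
  obtain ⟨g, O, hS, hg, hv⟩ := exists_spec h.clos ev
  have := h.clos.closed
  have hι : ∀ r, ι r ∈ g.S := fun r => (hS _).2 ι.isIntegralElem_map
  have hm : (m : L) ≠ 0 := by
    have := (h.unit.map ev).ne_zero
    rwa [map_natCast] at this
  have hm' : (m : Ω) ≠ 0 := by
    have := (h.unit.map ι).ne_zero
    rwa [map_natCast] at this
  have hodd : Odd m := h.prime.odd_of_ne_two (by have := h.five; omega)
  have hT : ∀ (a b : R) (P : Tors m (ι a) (ι b)),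
      xc (P : Pt (ι a) (ι b)) ∈ g.S ∧ yc (P : Pt (ι a) (ι b)) ∈ g.S := fun a b P =>
    ⟨(hS _).2 (tors_integral_unit ι h.two a b h.unit P.2).1,
      (hS _).2 (tors_integral_unit ι h.two a b h.unit P.2).2⟩
  obtain ⟨f1, r1⟩ := red_equiv g O.valuation hv (hι a1) (hι b1) ((hg _).trans e1)
    ((hg _).trans e2) h2 hd1 hm hodd (hT a1 b1)
  obtain ⟨f2, r2⟩ := red_equiv g O.valuation hv (hι a2) (hι b2) ((hg _).trans e3)
    ((hg _).trans e4) h2 hd2 hm hodd (hT a2 b2)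
  have hd : dsc (ι a1) (ι b1) ≠ 0 := by
    have e : dsc (ι a1) (ι b1) = ι (dsc a1 b1) := by
      simp only [dsc, map_add, map_mul, map_pow, map_ofNat]
    rw [e]
    exact (map_ne_zero_iff ι h.clos.inj).2 h.d1
  have := finite_tors h.two hd hm'
  refine ⟨g, hS, hg, ⟨fun ψ => f1.trans (ψ.trans f2.symm), fun φ => f1.symm.trans (φ.trans f2),
    fun ψ => AddEquiv.ext fun P => by simp, fun φ => AddEquiv.ext fun P => by simp⟩,
    fun s ψ => ?_, fun ψ ψ' hψ => ?_⟩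
  · obtain ⟨t1, t2⟩ := tau_map g s f1 (f1.trans (ψ.trans f2.symm)) ψ 1
      (fun P => ⟨(r1 P).1, (r1 P).2.2.1⟩) (fun P => by
        have := r2 (f1.trans (ψ.trans f2.symm) P)
        refine ⟨this.1, ?_⟩
        rw [one_mul, ← this.2.2.1]
        simp)
    exact ⟨t1, (t2.trans (one_mul _)).symm⟩
  · rcases hψ with hψ | hψ
    · exact Or.inl fun P => by simpa using congrArg f2 (hψ (f1.symm P))
    · exact Or.inr fun P => by simpa using congrArg f2 (hψ (f1.symm P))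

theorem spec_root (h : Pair ι m a1 b1 a2 b2) (ev : R →+* L) (h2 : (2 : L) ≠ 0)
    (e1 : ev a1 = a1') (e2 : ev b1 = b1') (e3 : ev a2 = a2') (e4 : ev b2 = b2')
    (hd1 : dsc a1' b1' ≠ 0) (hd2 : dsc a2' b2' ≠ 0) {s : ℕ} {T : Finset Ω}
    (hT : IsVals m s (ι a1) (ι b1) (ι a2) (ι b2) T) {F : R[X]}
    (hF : F.map ι = ∏ t ∈ T, (X - C t)) (ψ : Tors m a1' b1' ≃+ Tors m a2' b2') :
    F.eval₂ ev (tau m s ψ) = 0 := by
  obtain ⟨g, hS, hg, Λ, hΛ, -⟩ := lift_iso h ev h2 e1 e2 e3 e4 hd1 hd2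
  have hι : ∀ r, ι r ∈ g.S := fun r => (hS _).2 ι.isIntegralElem_map
  rw [← (hΛ s ψ).2, ← (special_eval g hι hg F (hΛ s ψ).1).2, eval₂_eq_eval_map, hF, eval_prod,
    Finset.prod_eq_zero ((hT _).2 ⟨Λ ψ, rfl⟩) (by simp), special_zero]

theorem spec_norm (h : Pair ι m a1 b1 a2 b2) (ev : R →+* L) (h2 : (2 : L) ≠ 0)
    (e1 : ev a1 = a1') (e2 : ev b1 = b1') (e3 : ev a2 = a2') (e4 : ev b2 = b2')
    (hd1 : dsc a1' b1' ≠ 0) (hd2 : dsc a2' b2' ≠ 0) {s : ℕ} {T : Finset Ω}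
    (hT : IsVals m s (ι a1) (ι b1) (ι a2) (ι b2) T) {F : R[X]} {n : R}
    (hn : ι n = ∏ t ∈ T, F.eval₂ ι t) (ψ : Tors m a1' b1' ≃+ Tors m a2' b2')
    (h0 : F.eval₂ ev (tau m s ψ) = 0) : ev n = 0 := by
  obtain ⟨g, hS, hg, Λ, hΛ, -⟩ := lift_iso h ev h2 e1 e2 e3 e4 hd1 hd2
  have hι : ∀ r, ι r ∈ g.S := fun r => (hS _).2 ι.isIntegralElem_map
  have hTS : ∀ t ∈ T, t ∈ g.S := fun t ht => by
    obtain ⟨φ, rfl⟩ := (hT t).1 ht
    obtain ⟨φ', rfl⟩ := Λ.surjective φ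
    exact (hΛ s φ').1
  rw [← hg, hn, special_prod g _ _ fun t ht => (special_eval g hι hg F (hTS t ht)).1]
  refine Finset.prod_eq_zero ((hT _).2 ⟨Λ ψ, rfl⟩) ?_
  rw [(special_eval g hι hg F (hΛ s ψ).1).2, (hΛ s ψ).2, h0]

theorem spec_sepa (h : Pair ι m a1 b1 a2 b2) (ev : R →+* L) (h2 : (2 : L) ≠ 0)
    (e1 : ev a1 = a1') (e2 : ev b1 = b1') (e3 : ev a2 = a2') (e4 : ev b2 = b2')
    (hd1 : dsc a1' b1' ≠ 0) (hd2 : dsc a2' b2' ≠ 0) {s : ℕ} {T : Finset Ω}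
    (hT : IsVals m s (ι a1) (ι b1) (ι a2) (ι b2) T) (hs : Sepa m s (ι a1) (ι b1) (ι a2) (ι b2))
    {F : R[X]} (hF : F.map ι = ∏ t ∈ T, (X - C t)) {n : R}
    (hn : ι n = ∏ p ∈ T.offDiag, (p.1 - p.2)) (h0 : ev n ≠ 0) :
    Sepa m s a1' b1' a2' b2' ∧
      ∀ ψ : Tors m a1' b1' ≃+ Tors m a2' b2', (derivative F).eval₂ ev (tau m s ψ) ≠ 0 := by
  classical
  obtain ⟨g, hS, hg, Λ, hΛ, hP⟩ := lift_iso h ev h2 e1 e2 e3 e4 hd1 hd2
  have hι : ∀ r, ι r ∈ g.S := fun r => (hS _).2 ι.isIntegralElem_map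
  have hTS : ∀ t ∈ T, t ∈ g.S := fun t ht => by
    obtain ⟨φ, rfl⟩ := (hT t).1 ht
    obtain ⟨φ', rfl⟩ := Λ.surjective φ
    exact (hΛ s φ').1
  have hinj : ∀ t ∈ T, ∀ t' ∈ T, t ≠ t' → g.f (t - t') ≠ 0 := fun t ht t' ht' hne hz => by
    apply h0
    rw [← hg, hn, special_prod g _ _ fun p hp => g.S.sub_mem (hTS _ (Finset.mem_offDiag.1 hp).1)
      (hTS _ (Finset.mem_offDiag.1 hp).2.1)]
    exact Finset.prod_eq_zero (i := (t, t')) (Finset.mem_offDiag.2 ⟨ht, ht', hne⟩) hz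
  refine ⟨fun ψ ψ' he => hP ψ ψ' (hs _ _ ?_), fun ψ => ?_⟩
  · by_contra hne
    refine hinj _ ((hT _).2 ⟨Λ ψ, rfl⟩) _ ((hT _).2 ⟨Λ ψ', rfl⟩) hne ?_
    rw [special_sub g (hΛ s ψ).1 (hΛ s ψ').1, (hΛ s ψ).2, (hΛ s ψ').2, he, sub_self]
  · have ht : tau m s (Λ ψ) ∈ T := (hT _).2 ⟨Λ ψ, rfl⟩
    have e : (derivative F).eval₂ ι (tau m s (Λ ψ))
        = ∏ t ∈ T.erase (tau m s (Λ ψ)), (tau m s (Λ ψ) - t) := by
      rw [eval₂_eq_eval_map, ← derivative_map, hF, ← Finset.mul_prod_erase T _ ht, derivative_mul]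
      simp [eval_prod]
    rw [← (hΛ s ψ).2, ← (special_eval g hι hg _ (hΛ s ψ).1).2, e, special_prod g _ _
      fun t h' => g.S.sub_mem (hΛ s ψ).1 (hTS t (Finset.mem_of_mem_erase h'))]
    exact Finset.prod_ne_zero_iff.2 fun t h' =>
      hinj _ ht _ (Finset.mem_of_mem_erase h') (Finset.ne_of_mem_erase h').symm

end Pool.Agent.P.MP_a60a76_nt.Fs
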