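import Pool.Agent.P.MP_a60a76_nt.Fs.Defs
import Pool.Agent.P.MP_a60a76_nt.Fs.Cnt
import Pool.Agent.P.MP_a60a76_nt.Fs.Norm
import Pool.Agent.P.MP_a60a76_nt.Fs.Special
import Pool.Agent.P.MP_a60a76_nt.Fs.DegBound
import Pool.Agent.P.MP_a60a76_nt.Fs.Big

namespace Pool.Agent.P.MP_a60a76_nt.Fs

open Polynomial
open scoped NNReal

theorem chCore_two {Ψ β : Type*} (f : Ψ → β) (s : Finset β) (hf : ∀ ψ, f ψ ∈ s)
    (h : ∀ ψ0 ψ ψ', f ψ = f ψ0 → f ψ' = f ψ0 → ψ ≠ ψ0 → ψ' ≠ ψ0 → ψ = ψ') :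
    Nat.card Ψ ≤ 2 * s.card := by
  classical
  let r : Ψ → Ψ := fun ψ => (⟨ψ, rfl⟩ : ∃ ψ0, f ψ0 = f ψ).choose
  have hr : ∀ ψ, f (r ψ) = f ψ := fun ψ => (⟨ψ, rfl⟩ : ∃ ψ0, f ψ0 = f ψ).choose_spec
  have hr' : ∀ ψ ψ', f ψ = f ψ' → r ψ = r ψ' := fun ψ ψ' e => by simp only [r, e]
  let g : Ψ → Bool × s := fun ψ => (decide (ψ = r ψ), ⟨f ψ, hf ψ⟩)
  have hg : Function.Injective g := by
    intro ψ ψ' e
    have e1 : f ψ = f ψ' := congrArg (fun x : Bool × s => x.2.1) e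
    have e2 : ψ = r ψ ↔ ψ' = r ψ' := decide_eq_decide.1 (congrArg Prod.fst e)
    by_cases h0 : ψ = r ψ
    · exact h0.trans ((hr' ψ ψ' e1).trans (e2.1 h0).symm)
    · refine h (r ψ) ψ ψ' (hr ψ).symm (e1.symm.trans (hr ψ).symm) h0 fun h1 => h0 (e2.2 ?_)
      rw [← hr' ψ ψ' e1]; exact h1
  simpa using Nat.card_le_card_of_injective g hg

theorem chCore_dsc {R R' : Type*} [CommRing R] [CommRing R'] (φ : R →+* R') (a b : R) :
    dsc (φ a) (φ b) = φ (dsc a b) := by simp [dsc, map_ofNat]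

theorem chCore_num {m n δ l : ℕ} (h5 : 5 ≤ m) (hn : 2 * n ≤ (m ^ 2 - 1) * (m ^ 2 - m))
    (hl : δ ^ 2 * m ^ 21 < l) :
    3 * (δ * (m ^ 2 + 1)) ^ 2 * n ^ 4 < l ∧ n ^ 2 * (δ * (m ^ 2 + 1)) ≤ δ * m ^ 11 := by
  have h1 : n ≤ m ^ 4 := by
    have : (m ^ 2 - 1) * (m ^ 2 - m) ≤ m ^ 2 * m ^ 2 :=
      Nat.mul_le_mul (Nat.sub_le _ _) (Nat.sub_le _ _)
    nlinarith
  have h1' : 2 * n ≤ m ^ 4 := by
    have : (m ^ 2 - 1) * (m ^ 2 - m) ≤ m ^ 2 * m ^ 2 :=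
      Nat.mul_le_mul (Nat.sub_le _ _) (Nat.sub_le _ _)
    nlinarith
  have h2 : m ^ 2 + 1 ≤ 2 * m ^ 2 := by nlinarith
  have h3 : m ^ 2 + 1 ≤ m ^ 3 := by nlinarith
  constructor
  · refine lt_of_le_of_lt ?_ hl
    have a1 : (2 * n) ^ 4 ≤ (m ^ 4) ^ 4 := Nat.pow_le_pow_left h1' 4
    have a2 : (δ * (m ^ 2 + 1)) ^ 2 ≤ (δ * (2 * m ^ 2)) ^ 2 :=
      Nat.pow_le_pow_left (Nat.mul_le_mul_left _ h2) 2
    have a3 := Nat.mul_le_mul a2 a1
    have a4 : δ ^ 2 * m ^ 20 * 5 ≤ δ ^ 2 * m ^ 20 * m := Nat.mul_le_mul_left _ h5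
    have e1 : (δ * (m ^ 2 + 1)) ^ 2 * (2 * n) ^ 4 = 16 * ((δ * (m ^ 2 + 1)) ^ 2 * n ^ 4) := by ring
    have e2 : (δ * (2 * m ^ 2)) ^ 2 * (m ^ 4) ^ 4 = 4 * (δ ^ 2 * m ^ 20) := by ring
    have e3 : δ ^ 2 * m ^ 20 * m = δ ^ 2 * m ^ 21 := by ring
    rw [mul_assoc]
    omega
  · calc n ^ 2 * (δ * (m ^ 2 + 1)) ≤ (m ^ 4) ^ 2 * (δ * m ^ 3) :=
          Nat.mul_le_mul (Nat.pow_le_pow_left h1 2) (Nat.mul_le_mul_left _ h3)
      _ = δ * m ^ 11 := by ring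

theorem chCore_rho {m n l N : ℕ} (h5 : 5 ≤ m) (hn : 2 * n ≤ (m ^ 2 - 1) * (m ^ 2 - m))
    (h : m * (m ^ 2 - 1) / 2 * N ≤ 9 * n * l) : N ≤ 9 * m * l := by
  obtain ⟨k, rfl⟩ : ∃ k, m = k + 1 := ⟨m - 1, by omega⟩
  have e1 : (k + 1) ^ 2 - 1 = k * (k + 2) := by
    rw [Nat.sub_eq_iff_eq_add (Nat.one_le_pow _ _ (by omega))]; ring
  have e2 : (k + 1) ^ 2 - (k + 1) = (k + 1) * k := by
    rw [Nat.sub_eq_iff_eq_add (by nlinarith)]; ring
  rw [e1, e2] at hn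
  rw [e1] at h
  obtain ⟨q, hq⟩ : 2 ∣ (k + 1) * (k * (k + 2)) := by
    have := (Nat.even_mul_succ_self k).two_dvd
    exact this.trans ⟨k + 2, by ring⟩
  rw [hq, Nat.mul_div_cancel_left _ two_pos] at h
  have hq0 : 0 < q := by
    have : 0 < (k + 1) * (k * (k + 2)) := by have : 0 < k := by omega
                                             positivity
    omega
  have h1 : n ≤ q * k := by nlinarith
  refine Nat.le_of_mul_le_mul_left (h.trans ?_) hq0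
  calc 9 * n * l ≤ 9 * (q * (k + 1)) * l :=
        Nat.mul_le_mul_right _ (Nat.mul_le_mul_left _ (h1.trans (Nat.mul_le_mul_left _ k.le_succ)))
    _ = q * (9 * (k + 1) * l) := by ring

theorem ch_core (l : ℕ) [Fact l.Prime] {Ω : Type*} [Field Ω] {ι : (ZMod l)[X] →+* Ω} (hι : Clos ι)
    {m δ w : ℕ} (hm : m.Prime) (h5 : 5 ≤ m) (hδ : 0 < δ) (hl : δ ^ 2 * m ^ 21 < l)
    {a1 b1 a2 b2 : (ZMod l)[X]} (ha1 : a1.natDegree ≤ 2 * δ) (hb1 : b1.natDegree ≤ 3 * δ)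
    (ha2 : a2.natDegree ≤ 2 * δ) (hb2 : b2.natDegree ≤ 3 * δ) (hd1 : dsc a1 b1 ≠ 0)
    (hd2 : dsc a2 b2 ≠ 0) (hB : Big ι m (ι a1) (ι b1) (ι a2) (ι b2) (m * (m ^ 2 - 1) / 2))
    (S : Finset (ZMod l))
    (hS : ∀ c ∈ S, dsc (a1.eval c) (b1.eval c) ≠ 0 ∧ dsc (a2.eval c) (b2.eval c) ≠ 0 ∧
      w ≤ Nat.card {ψ : Tors m (up l (a1.eval c)) (up l (b1.eval c)) ≃+
          Tors m (up l (a2.eval c)) (up l (b2.eval c)) //
        Eqv (frobT l m (a1.eval c) (b1.eval c)) (frobT l m (a2.eval c) (b2.eval c)) ψ}) :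
    w * S.card ≤ 18 * m * l + w * (δ * m ^ 11) := by
  classical
  have := hι.closed
  have : CharP Ω l := charP_of_injective_ringHom hι.inj l
  have hl' : m ^ 21 < l := lt_of_le_of_lt (Nat.le_mul_of_pos_left _ (by positivity)) hl
  have hl10 : m ^ 10 < l := lt_of_le_of_lt (Nat.pow_le_pow_right hm.pos (by norm_num)) hl'
  have hml : m < l := lt_of_le_of_lt (Nat.le_self_pow (by norm_num) m) hl10
  have hne : ∀ (K : Type _) [Field K] [CharP K l] (n : ℕ), 0 < n → n < l → (n : K) ≠ 0 :=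
    fun K _ _ n h0 hn h => absurd (Nat.le_of_dvd h0 ((CharP.cast_eq_zero_iff K l n).1 h)) hn.not_ge
  have hneΩ : ∀ n : ℕ, 0 < n → n < l → (n : Ω) ≠ 0 :=
    fun n h0 hn h => absurd (Nat.le_of_dvd h0 ((CharP.cast_eq_zero_iff Ω l n).1 h)) hn.not_ge
  have h2Ω : (2 : Ω) ≠ 0 := by exact_mod_cast hneΩ 2 two_pos (by omega)
  have hmΩ : (m : Ω) ≠ 0 := hneΩ m hm.pos hml
  have h2F : (2 : Fb l) ≠ 0 := by exact_mod_cast hne (Fb l) 2 two_pos (by omega)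
  have hP : Pair ι m a1 b1 a2 b2 :=
    ⟨hι, h2Ω, hm, h5, by
      simpa using (IsUnit.mk0 _ (hne (ZMod l) m hm.pos hml)).map (C : ZMod l →+* (ZMod l)[X]),
      hd1, hd2⟩
  have hD1 : dsc (ι a1) (ι b1) ≠ 0 := by
    rw [chCore_dsc]; exact (map_ne_zero_iff ι hι.inj).2 hd1
  have hD2 : dsc (ι a2) (ι b2) ≠ 0 := by
    rw [chCore_dsc]; exact (map_ne_zero_iff ι hι.inj).2 hd2
  obtain ⟨s, -, hs⟩ := exists_sepa h2Ω hm (plane_tors h2Ω hD1 hmΩ) (plane_tors h2Ω hD2 hmΩ)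
    fun n h0 hn => hneΩ n h0 (hn.trans_lt hl10)
  obtain ⟨T, hT, hTc⟩ := exists_vals hP s
  obtain ⟨F, hF, hFT⟩ := exists_minF hP hT
  obtain ⟨n0, hn0, hn0T⟩ := exists_disc hP hT
  obtain ⟨b1', -, b3⟩ := deg_bounds hP natDegree natDegree_zero (fun x y => natDegree_mul)
    natDegree_add_le X natDegree_X ha1 hb1 ha2 hb2 hT
  have hdeg : F.natDegree = T.card := by
    rw [← natDegree_map_eq_of_injective hι.inj, hFT, natDegree_finsetProd_X_sub_C_eq_card]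
  obtain ⟨n1, n2⟩ := chCore_num h5 hTc hl
  let Pts : Finset (ZMod l × ZMod l) := Finset.univ.filter fun p =>
    F.evalEval p.1 p.2 = 0 ∧ (derivative F).evalEval p.1 p.2 ≠ 0
  have hcnt := cnt l (ρ := m * (m ^ 2 - 1) / 2) (by positivity) hF hdeg (b1' F hFT)
    (fun G hG hGF => ?_) n1 Pts fun p hp => (Finset.mem_filter.1 hp).2
  swap
  · by_contra hlt
    have hpos : G.natDegree ≠ 0 := by
      intro h0
      have hu := hF.isUnit_leadingCoeff_of_dvd hGF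
      apply hG.not_isUnit
      rw [eq_C_of_natDegree_eq_zero h0]
      rw [leadingCoeff, h0] at hu
      exact hu.map C
    obtain ⟨z, hz⟩ := IsAlgClosed.exists_root (G.map ι) (by
      rw [Ne, degree_map_eq_of_injective hι.inj]
      exact fun h => hpos (natDegree_eq_of_degree_eq_some h))
    have h1 := hz.dvd (Polynomial.map_dvd ι hGF)
    rw [hFT, IsRoot, eval_prod, Finset.prod_eq_zero_iff] at h1
    obtain ⟨t, ht, h1⟩ := h1
    obtain ⟨ψ, rfl⟩ := (hT t).1 ht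
    have e : z = tau m s ψ := by simpa [sub_eq_zero] using h1
    refine eval_tau_ne_zero hP hB hs hG.ne_zero (not_le.1 hlt) ψ ?_
    rw [eval₂_eq_eval_map, ← e]; exact hz
  have hPts : Pts.card ≤ 9 * m * l := chCore_rho h5 hTc hcnt
  have key : ∀ c ∈ S.filter fun c => n0.eval c ≠ 0,
      w ≤ 2 * (Pts.filter fun p => p.1 = c).card := by
    intro c hc
    obtain ⟨hc, hc0⟩ := Finset.mem_filter.1 hc
    obtain ⟨g1, g2, g3⟩ := hS c hc
    have G1 : dsc (up l (a1.eval c)) (up l (b1.eval c)) ≠ 0 := by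
      rw [chCore_dsc]; exact (_root_.map_ne_zero _).2 g1
    have G2 : dsc (up l (a2.eval c)) (up l (b2.eval c)) ≠ 0 := by
      rw [chCore_dsc]; exact (_root_.map_ne_zero _).2 g2
    have ev : ∀ x : (ZMod l)[X], (up l).comp (evalRingHom c) x = up l (x.eval c) := fun _ => rfl
    obtain ⟨s1, s2⟩ := spec_sepa hP ((up l).comp (evalRingHom c)) h2F (ev a1) (ev b1) (ev a2)
      (ev b2) G1 G2 hT hs hFT hn0T ((_root_.map_ne_zero (up l)).2 hc0)
    have s3 := spec_root hP ((up l).comp (evalRingHom c)) h2F (ev a1) (ev b1) (ev a2) (ev b2)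
      G1 G2 hT hFT
    have := finite_tors h2F G1 (hne (Fb l) m hm.pos hml)
    have hfix : ∀ x : ZMod l, frobenius (Fb l) l (up l x) = up l x := fun x => by
      rw [frobenius_def, ← map_pow, ZMod.pow_card]
    have hτ : ∀ ψ : {ψ : Tors m (up l (a1.eval c)) (up l (b1.eval c)) ≃+
          Tors m (up l (a2.eval c)) (up l (b2.eval c)) //
        Eqv (frobT l m (a1.eval c) (b1.eval c)) (frobT l m (a2.eval c) (b2.eval c)) ψ},
        ∃ τ : ZMod l, up l τ = tau m s ψ.1 := by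
      intro ψ
      have e := tau_gal s (frobenius (Fb l) l) ⟨hfix _, hfix _⟩ ⟨hfix _, hfix _⟩ ψ.1 ψ.1 ψ.2
      have e' : tau m s ψ.1 ∈ (⊥ : Subfield (Fb l)) :=
        (Subfield.mem_bot_iff_pow_eq_self (Fb l) l).2 e.symm
      rw [← ZMod.fieldRange_castHom_eq_bot l] at e'
      obtain ⟨τ, h⟩ := e'
      exact ⟨τ, by rw [← h, RingHom.ext_zmod (up l) (ZMod.castHom (dvd_refl l) (Fb l))]⟩
    choose τ hτ using hτ
    have hev : ∀ (G : (ZMod l)[X][X]) (t : ZMod l),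
        G.eval₂ ((up l).comp (evalRingHom c)) (up l t) = up l (G.evalEval c t) := fun G t => by
      rw [← hom_eval₂, eval₂_evalRingHom]
    refine g3.trans (chCore_two (fun ψ => (c, τ ψ)) _ (fun ψ => ?_) fun ψ0 ψ ψ' e e' h h' => ?_)
    · refine Finset.mem_filter.2 ⟨Finset.mem_filter.2 ⟨Finset.mem_univ _, ?_, ?_⟩, rfl⟩
      · have := s3 ψ.1
        rw [← hτ, hev] at this
        exact (_root_.map_eq_zero _).1 this
      · have := s2 ψ.1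
        rw [← hτ, hev] at this
        exact (_root_.map_ne_zero _).1 this
    · have a : ∀ φ, τ φ = τ ψ0 → φ ≠ ψ0 → ∀ v, φ.1 v = -ψ0.1 v := fun φ e h =>
        (s1 φ.1 ψ0.1 (by rw [← hτ, ← hτ, e])).resolve_left fun h1 =>
          h (Subtype.ext (AddEquiv.ext h1))
      exact Subtype.ext (AddEquiv.ext fun v =>
        (a ψ (congrArg Prod.snd e) h v).trans (a ψ' (congrArg Prod.snd e') h' v).symm)
  have k1 : w * (S.filter fun c => n0.eval c ≠ 0).card ≤ 2 * Pts.card := by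
    rw [mul_comm, ← smul_eq_mul, ← Finset.sum_const,
      Finset.card_eq_sum_card_fiberwise (f := Prod.fst) (t := Finset.univ)
        (fun _ _ => Finset.mem_univ _), Finset.mul_sum]
    exact (Finset.sum_le_sum key).trans (Finset.sum_le_sum_of_subset (Finset.subset_univ _))
  have k2 : (S.filter fun c => ¬ n0.eval c ≠ 0).card ≤ δ * m ^ 11 := by
    refine le_trans (card_le_degree_of_subset_roots (p := n0) fun c hc => ?_) ((b3 n0 hn0T).trans n2)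
    exact (mem_roots hn0).2 (not_not.1 (Finset.mem_filter.1 hc).2)
  rw [← Finset.card_filter_add_card_filter_not (s := S) (fun c => n0.eval c ≠ 0), mul_add]
  have := Nat.mul_le_mul_left w k2
  nlinarith

end Pool.Agent.P.MP_a60a76_nt.Fs
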