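import Pool.Agent.P.MP_a60a76_nt.Fs.Defs
import Pool.Agent.P.MP_a60a76_nt.Fs.Place

namespace Pool.Agent.P.MP_a60a76_nt.Fs

open Polynomial
open scoped NNReal

variable {k Ω : Type*} [Field k] [Field Ω] {ι : k[X] →+* Ω}

theorem gplace_split [IsAlgClosed k] (v : Valuation Ω ℝ≥0) (φ : k →+* Ω)
    (hc : ∀ c : k, c ≠ 0 → v (φ c) = 1) {q : k[X]} (hq : q ≠ 0) {z : Ω}
    (h : v (q.eval₂ φ z) < 1) : ∃ c : k, v (z - φ c) < 1 := by
  by_contra hn
  push Not at hn
  have key : ∀ s : Multiset k, 1 ≤ v (((s.map fun a => X - C a).prod).eval₂ φ z) := by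
    intro s
    induction s using Multiset.induction_on with
    | empty => simp
    | cons a s ih =>
      rw [Multiset.map_cons, Multiset.prod_cons, eval₂_mul, eval₂_sub, eval₂_X, eval₂_C, map_mul]
      exact one_le_mul (hn a) ih
  rw [(IsAlgClosed.splits q).eq_prod_roots, eval₂_mul, eval₂_C, map_mul,
    hc _ (leadingCoeff_ne_zero.2 hq), one_mul] at h
  exact absurd h (not_lt.2 (key _))

theorem gplace_res [IsAlgClosed k] (hι : Clos ι) (v : Valuation Ω ℝ≥0)
    (hc : ∀ c : k, c ≠ 0 → v (ι (C c)) = 1)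
    (hb : ∀ f g : k[X], f ≠ 0 → g ≠ 0 → v (ι f) ≤ v (ι g) →
      ∃ c : k, f - C c * g ≠ 0 → v (ι (f - C c * g)) < v (ι g))
    (z : Ω) (hz : v z ≤ 1) : ∃ c : k, v (z - ι (C c)) < 1 := by
  obtain ⟨p, hp, hpz⟩ := hι.alg z
  obtain ⟨i0, hi0, hmax⟩ := Finset.exists_max_image p.support (fun i => v (ι (p.coeff i)))
    (support_nonempty.2 hp)
  have hg : p.coeff i0 ≠ 0 := mem_support_iff.1 hi0
  have hV : v (ι (p.coeff i0)) ≠ 0 :=
    v.ne_zero_iff.2 fun h => hg (hι.inj (h.trans (map_zero ι).symm))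
  have hch : ∀ i, ∃ c : k, i ∈ p.support →
      v (ι (p.coeff i - C c * p.coeff i0)) < v (ι (p.coeff i0)) := fun i => by
    by_cases hi : i ∈ p.support
    · obtain ⟨c, h⟩ := hb _ _ (mem_support_iff.1 hi) hg (hmax i hi)
      refine ⟨c, fun _ => ?_⟩
      by_cases h0 : p.coeff i - C c * p.coeff i0 = 0
      · rw [h0, map_zero, map_zero]
        exact pos_iff_ne_zero.2 hV
      · exact h h0
    · exact ⟨0, fun h => absurd h hi⟩
  choose c hcc using hch
  have hc0 : c i0 ≠ 0 := fun h => by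
    have := hcc i0 hi0
    rw [h, map_zero, zero_mul, sub_zero] at this
    exact lt_irrefl _ this
  have hq : (∑ i ∈ p.support, monomial i (c i) : k[X]) ≠ 0 := fun h => by
    have := congrArg (fun q : k[X] => q.coeff i0) h
    simp only [finsetSum_coeff, coeff_monomial, coeff_zero, Finset.sum_ite_eq', hi0,
      if_true] at this
    exact hc0 this
  refine gplace_split v (ι.comp C) hc hq ?_
  have e : ι (p.coeff i0) * (∑ i ∈ p.support, monomial i (c i) : k[X]).eval₂ (ι.comp C) z =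
      -∑ i ∈ p.support, ι (p.coeff i - C (c i) * p.coeff i0) * z ^ i := by
    rw [eval₂_eq_sum, sum_def] at hpz
    rw [eval₂_finsetSum, Finset.mul_sum, eq_neg_iff_add_eq_zero, ← Finset.sum_add_distrib, ← hpz]
    refine Finset.sum_congr rfl fun i _ => ?_
    rw [eval₂_monomial, map_sub, map_mul, RingHom.comp_apply]
    ring
  have h1 : v (∑ i ∈ p.support, ι (p.coeff i - C (c i) * p.coeff i0) * z ^ i)
      < v (ι (p.coeff i0)) := by
    refine v.map_sum_lt hV fun i hi => ?_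
    rw [map_mul, map_pow]
    exact (mul_le_of_le_one_right' (pow_le_one' hz i)).trans_lt (hcc i hi)
  rw [← v.map_neg, ← e, map_mul] at h1
  by_contra hn
  exact absurd h1 (not_lt.2 (le_mul_of_one_le_right' (not_lt.1 hn)))

theorem exists_gloc_fin [IsAlgClosed k] (hι : Clos ι) (α : k) :
    ∃ L : GLoc ι, ∀ f, f ≠ 0 → L.v (ι f) = (1 / 2 : ℝ≥0) ^ rootMultiplicity α f := by
  have hle : ∀ {f : k[X]} {n : ℕ}, f ≠ 0 → (n ≤ rootMultiplicity α f ↔ (X - C α) ^ n ∣ f) :=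
    fun h => le_rootMultiplicity_iff h
  obtain ⟨L, hL⟩ := exists_loc hι (fun f => (rootMultiplicity α f : ℤ))
    (fun x y hx hy => by
      rw [rootMultiplicity_mul (mul_ne_zero hx hy), Nat.cast_add])
    (fun x y _ _ h => by exact_mod_cast rootMultiplicity_add α h)
    ⟨X - C α, X_sub_C_ne_zero α, by simp [rootMultiplicity_X_sub_C_self]⟩
  have hL' : ∀ f, f ≠ 0 → L.v (ι f) = (1 / 2 : ℝ≥0) ^ rootMultiplicity α f := fun f hf => by
    rw [hL f hf, zpow_natCast]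
  have hc : ∀ c : k, c ≠ 0 → L.v (ι (C c)) = 1 := fun c h => by
    rw [hL' _ (C_ne_zero.2 h), rootMultiplicity_C, pow_zero]
  have h0 : (0 : ℝ≥0) < 1 / 2 := by norm_num
  have h1 : (1 / 2 : ℝ≥0) < 1 := by norm_num
  refine ⟨⟨L, hc, gplace_res hι L.v hc fun f g hf hg h => ?_, ι (X - C α),
    fun σ hσ => L.le hσ _, ?_⟩, hL'⟩
  · rw [hL' f hf, hL' g hg, pow_le_pow_iff_right_of_lt_one₀ h0 h1] at h
    obtain ⟨g1, e1, hg1⟩ := exists_eq_pow_rootMultiplicity_mul_and_not_dvd g hg α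
    obtain ⟨f1, e2⟩ := (hle hf).1 h
    have hg2 : g1.eval α ≠ 0 := fun h => hg1 (dvd_iff_isRoot.2 h)
    refine ⟨f1.eval α / g1.eval α, fun hne => ?_⟩
    rw [hL' _ hne, hL' g hg, pow_lt_pow_iff_right_of_lt_one₀ h0 h1, Nat.lt_iff_add_one_le,
      hle hne, pow_succ]
    have e3 : f - C (f1.eval α / g1.eval α) * g =
        (X - C α) ^ rootMultiplicity α g * (f1 - C (f1.eval α / g1.eval α) * g1) := by
      linear_combination e2 - C (f1.eval α / g1.eval α) * e1
    rw [e3]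
    refine mul_dvd_mul_left _ (dvd_iff_isRoot.2 ?_)
    rw [IsRoot.def, eval_sub, eval_mul, eval_C, div_mul_cancel₀ _ hg2, sub_self]
  · rw [hL' _ (X_sub_C_ne_zero α), rootMultiplicity_X_sub_C_self, pow_one]

theorem exists_gloc_inf [IsAlgClosed k] (hι : Clos ι) :
    ∃ L : GLoc ι, ∀ f, f ≠ 0 → L.v (ι f) = (2 : ℝ≥0) ^ f.natDegree := by
  obtain ⟨L, hL⟩ := exists_loc hι (fun f => -(f.natDegree : ℤ))
    (fun x y hx hy => by
      rw [natDegree_mul hx hy, Nat.cast_add, neg_add])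
    (fun x y _ _ _ => by
      have := natDegree_add_le x y
      omega)
    ⟨X, X_ne_zero, by simp⟩
  have hL' : ∀ f, f ≠ 0 → L.v (ι f) = (2 : ℝ≥0) ^ f.natDegree := fun f hf => by
    rw [hL f hf, one_div, inv_zpow', neg_neg, zpow_natCast]
  have hc : ∀ c : k, c ≠ 0 → L.v (ι (C c)) = 1 := fun c h => by
    rw [hL' _ (C_ne_zero.2 h), natDegree_C, pow_zero]
  have h1 : (1 : ℝ≥0) < 2 := one_lt_two
  refine ⟨⟨L, hc, gplace_res hι L.v hc fun f g hf hg h => ?_, (ι X)⁻¹,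
    fun σ hσ => by rw [map_inv₀, L.le hσ], ?_⟩, hL'⟩
  · rw [hL' f hf, hL' g hg, pow_le_pow_iff_right₀ h1] at h
    refine ⟨f.coeff g.natDegree / g.leadingCoeff, fun hne => ?_⟩
    rw [hL' _ hne, hL' g hg, pow_lt_pow_iff_right₀ h1]
    refine lt_of_le_of_ne ((natDegree_sub_le _ _).trans (max_le h (natDegree_C_mul_le _ _)))
      fun e => leadingCoeff_ne_zero.2 hne ?_
    rw [leadingCoeff, e, coeff_sub, coeff_C_mul, coeff_natDegree,
      div_mul_cancel₀ _ (leadingCoeff_ne_zero.2 hg), sub_self]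
  · rw [map_inv₀, hL' _ X_ne_zero, natDegree_X, pow_one, one_div]

theorem gplace_uniq (L : GLoc ι) {z : Ω} {c c' : k} (h : L.v (z - ι (C c)) < 1)
    (h' : L.v (z - ι (C c')) < 1) : c = c' := by
  by_contra hne
  have h1 := L.const _ (sub_ne_zero.2 hne)
  have h2 := L.v.map_sub_lt h' h
  have e : z - ι (C c') - (z - ι (C c)) = ι (C (c - c')) := by
    rw [map_sub, map_sub]; ring
  rw [e, h1] at h2
  exact lt_irrefl _ h2

theorem exists_res (L : GLoc ι) :
    ∃ g : Spec Ω k, (∀ z, z ∈ g.S ↔ L.v z ≤ 1) ∧ (∀ c, g.f (ι (C c)) = c) ∧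
      (∀ z ∈ g.S, L.v (z - ι (C (g.f z))) < 1) ∧ (∀ z ∈ g.S, g.f z ≠ 0 ↔ L.v z = 1) ∧
      ∀ σ ∈ L.D, ∀ z ∈ g.S, g.f (σ z) = g.f z := by
  have hch : ∀ z, ∃ c : k, L.v z ≤ 1 → L.v (z - ι (C c)) < 1 := fun z => by
    by_cases h : L.v z ≤ 1
    · obtain ⟨c, hc⟩ := L.res z h
      exact ⟨c, fun _ => hc⟩
    · exact ⟨0, fun h' => absurd h' h⟩
  choose f hf using hch
  have hle : ∀ c : k, L.v (ι (C c)) ≤ 1 := fun c => by
    by_cases h : c = 0
    · simp [h]
    · exact (L.const c h).le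
  have hfc : ∀ c, f (ι (C c)) = c := fun c =>
    gplace_uniq L (hf _ (hle c)) (by simp)
  refine ⟨⟨L.v.integer, f, ?_, fun x hx y hy => ?_, fun x hx y hy => ?_⟩, fun z => Iff.rfl, hfc,
    hf, fun z hz => ⟨fun h => ?_, fun h h0 => ?_⟩, fun σ hσ z hz => ?_⟩
  · have := hfc 1
    rwa [map_one, map_one] at this
  · refine gplace_uniq L (hf _ (L.v.integer.add_mem hx hy)) ?_
    have e : x + y - ι (C (f x + f y)) = (x - ι (C (f x))) + (y - ι (C (f y))) := by
      rw [map_add, map_add]; ring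
    rw [e]
    exact L.v.map_add_lt (hf x hx) (hf y hy)
  · refine gplace_uniq L (hf _ (L.v.integer.mul_mem hx hy)) ?_
    have e : x * y - ι (C (f x * f y)) =
        (x - ι (C (f x))) * y + ι (C (f x)) * (y - ι (C (f y))) := by
      rw [map_mul, map_mul]; ring
    rw [e]
    refine L.v.map_add_lt ?_ ?_
    · rw [map_mul]
      exact (mul_le_of_le_one_right' hy).trans_lt (hf x hx)
    · rw [map_mul]
      exact (mul_le_of_le_one_left' (hle _)).trans_lt (hf y hy)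
  · have h1 := L.const _ h
    have h2 := L.v.map_add_eq_of_lt_left (x := ι (C (f z))) (y := z - ι (C (f z)))
      (h1.symm ▸ hf z hz)
    rwa [add_sub_cancel, h1] at h2
  · have h1 := hf z hz
    change f z = 0 at h0
    rw [h0, map_zero, map_zero, sub_zero, h] at h1
    exact lt_irrefl _ h1
  · refine gplace_uniq L (hf _ ((L.inv σ hσ z).trans_le hz)) ?_
    have h1 := L.inv σ hσ (z - ι (C (f z)))
    rw [map_sub, L.le hσ] at h1
    exact h1.trans_lt (hf z hz)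

end Pool.Agent.P.MP_a60a76_nt.Fs
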