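import Pool.Agent.P.MP_a60a76_nt.Fs.Defs
import Pool.Agent.P.MP_a60a76_nt.Fs.GPlace
import Pool.Agent.P.MP_a60a76_nt.Fs.Orbit
import Pool.Agent.P.MP_a60a76_nt.Fs.IntGood

namespace Pool.Agent.P.MP_a60a76_nt.Fs

open Polynomial
open scoped NNReal

variable {k Ω : Type*} [Field k] [IsAlgClosed k] [Field Ω] {ι : k[X] →+* Ω}

omit [IsAlgClosed k] in
theorem mon_dsc (a b : k[X]) : dsc (ι a) (ι b) = ι (dsc a b) := by
  simp [dsc, map_ofNat]

omit [IsAlgClosed k] in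
theorem mon_vnat (L : GLoc ι) {n : ℕ} (hn : (n : k) ≠ 0) : L.v (n : Ω) = 1 := by
  have := L.const _ hn
  rwa [map_natCast, map_natCast] at this

omit [IsAlgClosed k] in
theorem mon_cast (hι : Clos ι) {n : ℕ} (hn : (n : k) ≠ 0) : (n : Ω) ≠ 0 := by
  intro h
  apply hn
  have h1 : ι (C (n : k)) = ι 0 := by rw [map_natCast, map_natCast, h, map_zero]
  exact C_eq_zero.1 (hι.inj h1)

omit [IsAlgClosed k] in
theorem mon_ne (hι : Clos ι) {f : k[X]} (hf : f ≠ 0) : ι f ≠ 0 := by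
  intro h
  exact hf (hι.inj (by rw [h, map_zero]))

/-- The data at a place where the invariant has a pole. -/
theorem mon_mult {K : Type*} [Field K] (v : Valuation K ℝ≥0) {m : ℕ} {a b : K} (h2 : v 2 = 1)
    (h3 : v 3 = 1) (hm : v (m : K) = 1) (hd : dsc a b ≠ 0) (hlt : v (dsc a b) < v a ^ 3) :
    Mult v m a b ∧ v (eps a b) = v (dsc a b) / v a ^ 3 ∧ v (cc a b) ^ 6 = v a ^ 3 := by
  have h4 : v (4 * a ^ 3) = v a ^ 3 := by
    rw [show (4 : K) = 2 ^ 2 by norm_num, map_mul, map_pow, map_pow, h2, one_pow, one_mul]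
  have h27 : v (27 * b ^ 2) = v b ^ 2 := by
    rw [show (27 : K) = 3 ^ 3 by norm_num, map_mul, map_pow, map_pow, h3, one_pow, one_mul]
  have hb : v b ^ 2 = v a ^ 3 := by
    rw [← h27, ← h4, show 27 * b ^ 2 = -(4 * a ^ 3) + dsc a b by rw [dsc]; ring,
      Valuation.map_add_eq_of_lt_left, Valuation.map_neg]
    rwa [Valuation.map_neg, h4]
  have hA3 : v a ^ 3 ≠ 0 := (lt_of_le_of_lt zero_le hlt).ne'
  have hA : v a ≠ 0 := fun h => hA3 (by rw [h]; simp)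
  have hB : v b ≠ 0 := fun h => hA3 (by rw [← hb, h]; simp)
  have he : v (eps a b) = v (dsc a b) / v a ^ 3 := by
    rw [eps, map_div₀, h27, hb]
  refine ⟨⟨h2, h3, hm, ?_, ?_, hd, ?_⟩, he, ?_⟩
  · rintro rfl; exact hA (map_zero v)
  · rintro rfl; exact hB (map_zero v)
  · rw [he]; exact (div_lt_one (pos_iff_ne_zero.2 hA3)).2 hlt
  · have : v (cc a b) = v b / v a := by
      rw [cc, map_div₀, map_mul, map_mul, Valuation.map_neg, h3, h2, one_mul, one_mul]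
    rw [this, div_pow, show v b ^ 6 = (v b ^ 2) ^ 3 by ring, hb]
    field_simp

/-- The data at a place where the invariant is integral. -/
theorem mon_good {K : Type*} [Field K] [IsAlgClosed K] (v : Valuation K ℝ≥0) {m : ℕ} {a b : K}
    (h2 : v 2 = 1) (h3 : v 3 = 1) (hm : v (m : K) = 1) (hd : dsc a b ≠ 0)
    (hle : v a ^ 3 ≤ v (dsc a b)) {P Q : Pt a b} (hP : P ∈ Tors m a b) (hQ : Q ∈ Tors m a b)
    (hP0 : P ≠ 0) (hQ0 : Q ≠ 0) (h1 : P ≠ Q) (h1' : P ≠ -Q) :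
    v (xc P - xc Q) ^ 6 = v (dsc a b) := by
  obtain ⟨c, hc⟩ := IsAlgClosed.exists_pow_nat_eq (dsc a b) (n := 6) (by norm_num)
  have hc0 : c ≠ 0 := by
    rintro rfl
    exact hd (by rw [← hc]; simp)
  have hv : v (dsc a b) = v c ^ 6 := by rw [← hc, map_pow]
  have h4 : v (4 * a ^ 3) = v a ^ 3 := by
    rw [show (4 : K) = 2 ^ 2 by norm_num, map_mul, map_pow, map_pow, h2, one_pow, one_mul]
  have h27 : v (27 * b ^ 2) = v b ^ 2 := by
    rw [show (27 : K) = 3 ^ 3 by norm_num, map_mul, map_pow, map_pow, h3, one_pow, one_mul]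
  have ha : v a ≤ v c ^ 2 := by
    refine le_of_pow_le_pow_left₀ (n := 3) (by norm_num) zero_le ?_
    rw [← pow_mul, ← hv]; exact hle
  have hb : v b ≤ v c ^ 3 := by
    refine le_of_pow_le_pow_left₀ (n := 2) (by norm_num) zero_le ?_
    rw [← pow_mul, ← hv, ← h27, show 27 * b ^ 2 = dsc a b - 4 * a ^ 3 by rw [dsc]; ring]
    exact Valuation.map_sub_le v le_rfl (by rw [h4]; exact hle)
  rw [unit_diff v hc0 ha hb hv h2 hm hP hQ hP0 hQ0 h1 h1', hv]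

theorem mon_rho_eq_zero {K : Type*} [Field K] {m : ℕ} {a b : K} (σ : RingAut K)
    (P : Tors m a b) : rho m a b σ P = 0 ↔ P = 0 := by
  constructor
  · intro h
    have h1 : galP a b σ.toRingHom (P : Pt a b) = 0 := congrArg Subtype.val h
    exact Subtype.ext ((galP_eq_zero_iff _ _).1 h1)
  · rintro rfl
    exact map_zero _

theorem mon_rho_inj {K : Type*} [Field K] {m : ℕ} {a b : K} (σ : RingAut K) :
    Function.Injective (rho m a b σ) :=
  (injective_iff_map_eq_zero' (rho m a b σ)).2 (mon_rho_eq_zero σ)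

omit [IsAlgClosed k] in
/-- The points of a stable line avoid the node. -/
theorem mon_zz (hι : Clos ι) (L : Loc ι) {m : ℕ} {a b : k[X]} (h : Mult L.v m (ι a) (ι b))
    (hm : m.Prime) (h3 : 3 ≤ m) {N : ℕ} (hN : L.v (eps (ι a) (ι b)) = (1 / 2 : ℝ≥0) ^ N)
    (hmN : ¬ m ∣ N) (H : AddSubgroup (Tors m (ι a) (ι b))) (hH : Nat.card H = m)
    (hs : ∀ σ ∈ Aut ι, ∀ P ∈ H, rho m (ι a) (ι b) σ P ∈ H) {P : Tors m (ι a) (ι b)} (hP : P ∈ H)
    (hP0 : P ≠ 0) : L.v (zz (P : Pt (ι a) (ι b))) = 1 := by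
  refine le_antisymm (zz_le_one h P.2) (not_lt.1 fun hz => ?_)
  have hd := orbit_dvd hι L h hm h3 hN hmN P hP0 hz
  have hfin : (H : Set (Tors m (ι a) (ι b))).Finite :=
    Set.finite_coe_iff.1 (Nat.finite_of_card_ne_zero (by
      change Nat.card H ≠ 0
      rw [hH]; exact hm.ne_zero))
  have hsub : {Q | ∃ σ ∈ L.D, rho m (ι a) (ι b) σ P = Q} ⊂ (H : Set (Tors m (ι a) (ι b))) := by
    refine ⟨?_, fun hc => ?_⟩
    · rintro Q ⟨σ, hσ, rfl⟩
      exact hs σ (L.le hσ) P hP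
    · obtain ⟨σ, -, h0⟩ := hc H.zero_mem
      exact hP0 ((mon_rho_eq_zero σ P).1 h0)
  have hlt := Set.ncard_lt_ncard hsub hfin
  have hne : {Q | ∃ σ ∈ L.D, rho m (ι a) (ι b) σ P = Q}.Nonempty := ⟨_, 1, L.D.one_mem, rfl⟩
  have hpos := (Set.ncard_pos (hfin.subset hsub.1)).2 hne
  have e1 : (H : Set (Tors m (ι a) (ι b))).ncard = m := hH
  rw [e1] at hlt
  exact absurd (Nat.le_of_dvd hpos hd) (not_le.2 hlt)

theorem mon_poly {u w : k[X]} (hu : u ≠ 0) (hw : w ≠ 0)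
    (h : ∀ α, rootMultiplicity α u ≤ rootMultiplicity α w) (hd : w.natDegree ≤ u.natDegree) :
    ∃ c : k, c ≠ 0 ∧ w = u * C c := by
  classical
  have hdv : u ∣ w := by
    refine (IsAlgClosed.splits u).dvd_of_roots_le_roots hu ?_
    rw [Multiset.le_iff_count]
    intro α
    rw [count_roots, count_roots]
    exact h α
  obtain ⟨q, rfl⟩ := hdv
  have hq : q ≠ 0 := right_ne_zero_of_mul hw
  rw [natDegree_mul hu hq] at hd
  have hq0 : q.natDegree = 0 := by omega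
  refine ⟨q.coeff 0, fun h0 => hq ?_, ?_⟩
  · rw [eq_C_of_natDegree_eq_zero hq0, h0, map_zero]
  · rw [← eq_C_of_natDegree_eq_zero hq0]

omit [IsAlgClosed k] in
/-- The product of the differences of `x` coordinates over a stable line. -/
theorem mon_prod (hι : Clos ι) (h2 : (2 : k) ≠ 0) {m : ℕ} (hm : m.Prime)
    (h5 : 5 ≤ m) (hmk : (m : k) ≠ 0) {a b : k[X]} (hd : dsc a b ≠ 0)
    (H : AddSubgroup (Tors m (ι a) (ι b))) (hH : Nat.card H = m)
    (hs : ∀ σ ∈ Aut ι, ∀ P ∈ H, rho m (ι a) (ι b) σ P ∈ H) :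
    ∃ (n : ℕ) (r s : k[X]), 0 < n ∧ ∀ (v : Valuation Ω ℝ≥0) (t : ℝ≥0),
      (∀ P ∈ H, ∀ Q ∈ H, P ≠ 0 → Q ≠ 0 → P ≠ Q → P ≠ -Q →
        v (xc (P : Pt (ι a) (ι b)) - xc (Q : Pt (ι a) (ι b))) ^ 6 = t) →
      v (ι r / ι s) ^ 6 = t ^ n := by
  classical
  have hfin : (H : Set (Tors m (ι a) (ι b))).Finite :=
    Set.finite_coe_iff.1 (Nat.finite_of_card_ne_zero (by
      change Nat.card H ≠ 0
      rw [hH]; exact hm.ne_zero))
  set T := (hfin.toFinset ×ˢ hfin.toFinset).filter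
    (fun p => p.1 ≠ 0 ∧ p.2 ≠ 0 ∧ p.1 ≠ p.2 ∧ p.1 ≠ -p.2) with hT
  have hmem : ∀ p, p ∈ T ↔ (p.1 ∈ H ∧ p.2 ∈ H) ∧ p.1 ≠ 0 ∧ p.2 ≠ 0 ∧ p.1 ≠ p.2 ∧ p.1 ≠ -p.2 := by
    intro p
    simp only [hT, Finset.mem_filter, Finset.mem_product, Set.Finite.mem_toFinset,
      SetLike.mem_coe]
  set f : Ω := ∏ p ∈ T, (xc (p.1 : Pt (ι a) (ι b)) - xc (p.2 : Pt (ι a) (ι b))) with hf
  have h2' : (2 : Ω) ≠ 0 := by
    have := mon_cast hι (n := 2) (by exact_mod_cast h2)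
    exact_mod_cast this
  have hsep : f ∈ sepF ι :=
    Subfield.prod_mem _ fun p _ => Subfield.sub_mem _
      (tors_sep hι h2' hd (mon_cast hι hmk) p.1.2).1 (tors_sep hι h2' hd (mon_cast hι hmk) p.2.2).1
  have hfix : ∀ σ ∈ Aut ι, σ f = f := by
    intro σ hσ
    have hσ' : σ (ι a) = ι a ∧ σ (ι b) = ι b := ⟨hσ a, hσ b⟩
    have hinj : Function.Injective
        (Prod.map (rho m (ι a) (ι b) σ) (rho m (ι a) (ι b) σ)) :=
      (mon_rho_inj σ).prodMap (mon_rho_inj σ)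
    have him : T.image (Prod.map (rho m (ι a) (ι b) σ) (rho m (ι a) (ι b) σ)) = T := by
      refine Finset.eq_of_subset_of_card_le ?_ (Finset.card_image_of_injective _ hinj).ge
      intro q hq
      obtain ⟨p, hp, rfl⟩ := Finset.mem_image.1 hq
      obtain ⟨⟨p1, p2⟩, p3, p4, p5, p6⟩ := (hmem p).1 hp
      refine (hmem _).2 ⟨⟨hs σ hσ _ p1, hs σ hσ _ p2⟩, (mon_rho_eq_zero σ _).not.2 p3,
        (mon_rho_eq_zero σ _).not.2 p4, fun h => p5 (mon_rho_inj σ h), fun h => p6 ?_⟩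
      apply mon_rho_inj σ
      rw [map_neg]
      exact h
    rw [hf, map_prod]
    conv_rhs => rw [← him, Finset.prod_image fun x _ y _ h => hinj h]
    refine Finset.prod_congr rfl fun p _ => ?_
    rw [map_sub, Prod.map_fst, Prod.map_snd, xc_rho m hσ', xc_rho m hσ']
  obtain ⟨r, s, hrs⟩ := (mem_K0_iff f).1 (mem_K0_of_fixed hι hsep hfix)
  refine ⟨T.card, r, s, ?_, fun v t ht => ?_⟩
  · have hnt : H ≠ ⊥ := by
      rintro rfl
      rw [AddSubgroup.card_bot] at hH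
      omega
    obtain ⟨⟨P, hP⟩, hP0⟩ := AddSubgroup.ne_bot_iff_exists_ne_zero.1 hnt
    have hP0' : P ≠ 0 := fun h => hP0 (Subtype.ext h)
    have := Fact.mk hm
    have ho : addOrderOf P = m := addOrderOf_eq_prime (tors_smul P) hP0'
    have hn : ∀ j : ℕ, 0 < j → j < 5 → j • P ≠ 0 := by
      intro j j0 j5 hj
      have := Nat.le_of_dvd j0 (ho ▸ addOrderOf_dvd_of_nsmul_eq_zero hj)
      omega
    refine Finset.card_pos.2 ⟨(P, P + P), (hmem _).2 ⟨⟨hP, H.add_mem hP hP⟩, hP0', ?_, ?_, ?_⟩⟩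
    · have := hn 2 (by norm_num) (by norm_num)
      rwa [two_nsmul] at this
    · intro h
      exact hP0' (left_eq_add.1 h)
    · intro h
      apply hn 3 (by norm_num) (by norm_num)
      have h' : P = -(P + P) := h
      rw [three_nsmul]
      exact add_eq_zero_iff_eq_neg.2 h'
  · rw [← hrs, hf, map_prod, ← Finset.prod_pow, ← Finset.prod_const]
    refine Finset.prod_congr rfl fun p hp => ?_
    obtain ⟨⟨p1, p2⟩, p3, p4, p5, p6⟩ := (hmem p).1 hp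
    exact ht _ p1 _ p2 p3 p4 p5 p6

theorem mon_half {i j : ℕ} (h : (1 / 2 : ℝ≥0) ^ i < (1 / 2 : ℝ≥0) ^ j) : j < i :=
  (pow_lt_pow_iff_right_of_lt_one₀ (by norm_num) (by norm_num)).1 h

theorem mon_of_deg (hι : Clos ι) (h2 : (2 : k) ≠ 0) (h3 : (3 : k) ≠ 0) {m : ℕ} (hm : m.Prime)
    (h5 : 5 ≤ m) (hmk : (m : k) ≠ 0) {a b : k[X]} (h : JDeg m a b) : Mon ι m (ι a) (ι b) := by
  obtain ⟨ha, hb, hd, N, D, hco, hND, hpos, hlt⟩ := h
  have := hι.closed
  have hc : (6912 : k) ≠ 0 := by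
    rw [show (6912 : k) = 2 ^ 8 * 3 ^ 3 by norm_num]
    exact mul_ne_zero (pow_ne_zero _ h2) (pow_ne_zero _ h3)
  have hc' : (6912 : k[X]) = C 6912 := rfl
  have hD : D ≠ 0 := by
    rintro rfl
    have hN : N = 0 := by simpa [hd] using hND
    subst hN
    simp at hpos
  have hN : N ≠ 0 := by
    rintro rfl
    rw [zero_mul, hc'] at hND
    exact mul_ne_zero (mul_ne_zero (C_ne_zero.2 hc) (pow_ne_zero _ ha)) hD hND.symm
  have hd' : dsc (ι a) (ι b) ≠ 0 := by rw [mon_dsc]; exact mon_ne hι hd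
  have v2 : ∀ L : GLoc ι, L.v 2 = 1 := fun L => by
    have := mon_vnat L (n := 2) (by exact_mod_cast h2)
    exact_mod_cast this
  have v3 : ∀ L : GLoc ι, L.v 3 = 1 := fun L => by
    have := mon_vnat L (n := 3) (by exact_mod_cast h3)
    exact_mod_cast this
  have vne : ∀ (L : GLoc ι) {f : k[X]}, f ≠ 0 → L.v (ι f) ≠ 0 := fun L f hf =>
    (Valuation.ne_zero_iff _).2 (mon_ne hι hf)
  have key : ∀ L : GLoc ι,
      L.v (ι N) * L.v (dsc (ι a) (ι b)) = L.v (ι a) ^ 3 * L.v (ι D) := by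
    intro L
    have := congrArg (fun f => L.v (ι f)) hND
    simp only [hc', map_mul, map_pow, L.const _ hc, one_mul] at this
    rw [mon_dsc]; exact this
  have hiff : ∀ L : GLoc ι,
      L.v (dsc (ι a) (ι b)) < L.v (ι a) ^ 3 ↔ L.v (ι D) < L.v (ι N) := by
    intro L
    have p1 : 0 < L.v (ι D) := pos_iff_ne_zero.2 (vne L hD)
    have p2 : 0 < L.v (dsc (ι a) (ι b)) := pos_iff_ne_zero.2 ((Valuation.ne_zero_iff _).2 hd')
    rw [← mul_lt_mul_iff_left₀ p1, ← key, mul_comm, mul_lt_mul_iff_left₀ p2]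
  have heps : ∀ L : GLoc ι,
      L.v (dsc (ι a) (ι b)) / L.v (ι a) ^ 3 = L.v (ι D) / L.v (ι N) := by
    intro L
    rw [div_eq_div_iff (pow_ne_zero _ (vne L ha)) (vne L hN), mul_comm, key, mul_comm]
  -- places with a small order of pole
  let Ok : GLoc ι → Prop := fun L => L.v (ι D) < L.v (ι N) →
    ∃ j : ℕ, L.v (ι D) / L.v (ι N) = (1 / 2 : ℝ≥0) ^ j ∧ ¬ m ∣ j
  have hfin : ∀ α : k, ∃ L : GLoc ι, Ok L ∧
      ∀ f, f ≠ 0 → L.v (ι f) = (1 / 2 : ℝ≥0) ^ rootMultiplicity α f := by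
    intro α
    obtain ⟨L, hL⟩ := exists_gloc_fin hι α
    refine ⟨L, fun hp => ?_, hL⟩
    rw [hL D hD, hL N hN] at hp ⊢
    have h1 := mon_half hp
    have h4 : rootMultiplicity α D ≤ D.natDegree := by
      simpa using natDegree_le_of_dvd (pow_rootMultiplicity_dvd D α) hD
    refine ⟨rootMultiplicity α D - rootMultiplicity α N, ?_, fun hdv => ?_⟩
    · rw [pow_sub₀ _ (by norm_num) h1.le, div_eq_mul_inv]
    · have := Nat.le_of_dvd (by omega) hdv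
      omega
  have hinf : ∃ L : GLoc ι, Ok L ∧ ∀ f, f ≠ 0 → L.v (ι f) = (2 : ℝ≥0) ^ f.natDegree := by
    obtain ⟨L, hL⟩ := exists_gloc_inf hι
    refine ⟨L, fun hp => ?_, hL⟩
    rw [hL D hD, hL N hN] at hp ⊢
    have h1 : D.natDegree < N.natDegree := (pow_lt_pow_iff_right₀ (by norm_num)).1 hp
    refine ⟨N.natDegree - D.natDegree, ?_, fun hdv => ?_⟩
    · rw [one_div, inv_pow, pow_sub₀ _ (by norm_num) h1.le, mul_inv, inv_inv, div_eq_inv_mul]
    · have := Nat.le_of_dvd (by omega) hdv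
      omega
  have hpole : ∃ L : GLoc ι, Ok L ∧ L.v (ι D) < L.v (ι N) := by
    by_cases h0 : D.natDegree = 0
    · obtain ⟨L, h1, hL⟩ := hinf
      refine ⟨L, h1, ?_⟩
      rw [hL D hD, hL N hN]
      exact (pow_lt_pow_iff_right₀ (by norm_num)).2 (by omega)
    · obtain ⟨α, hα⟩ := IsAlgClosed.exists_root D (by
        rw [degree_eq_natDegree hD]; exact_mod_cast h0)
      obtain ⟨L, h1, hL⟩ := hfin α
      refine ⟨L, h1, ?_⟩
      rw [hL D hD, hL N hN]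
      have hNα : ¬ N.IsRoot α := by
        intro hr
        obtain ⟨u, w, huw⟩ := hco
        have := congrArg (eval α) huw
        rw [eval_add, eval_mul, eval_mul, hr.eq_zero, hα.eq_zero] at this
        simp at this
      rw [rootMultiplicity_eq_zero hNα]
      exact (pow_lt_pow_iff_right_of_lt_one₀ (by norm_num) (by norm_num)).2
        ((rootMultiplicity_pos hD).2 hα)
  have hmu : ∀ L : GLoc ι, Ok L → L.v (dsc (ι a) (ι b)) < L.v (ι a) ^ 3 →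
      Mult L.v m (ι a) (ι b) ∧ L.v (cc (ι a) (ι b)) ^ 6 = L.v (ι a) ^ 3 ∧
        ∃ j : ℕ, L.v (eps (ι a) (ι b)) = (1 / 2 : ℝ≥0) ^ j ∧ ¬ m ∣ j := by
    intro L ok hp
    obtain ⟨m1, m2, m3⟩ := mon_mult L.v (v2 L) (v3 L) (mon_vnat L hmk) hd' hp
    obtain ⟨j, j1, j2⟩ := ok ((hiff L).1 hp)
    exact ⟨m1, m3, j, by rw [m2, heps, j1], j2⟩
  obtain ⟨L0, ok0, hp0⟩ := hpole
  refine ⟨?_, fun H hH => ?_⟩
  · obtain ⟨m1, -, j, j1, j2⟩ := hmu L0 ok0 ((hiff L0).2 hp0)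
    obtain ⟨σ, s1, s2⟩ := exists_unip hι L0.toLoc m1 hm (by omega) j1 j2
    exact ⟨σ, L0.le s1, s2⟩
  by_contra hcon
  push Not at hcon
  obtain ⟨n, r, s, hn, hrs⟩ := mon_prod hι h2 hm h5 hmk hd H hH hcon
  have hval : ∀ L : GLoc ι, Ok L →
      L.v (ι r / ι s) ^ 6 = max (L.v (dsc (ι a) (ι b))) (L.v (ι a) ^ 3) ^ n := by
    intro L ok
    refine hrs L.v _ fun P hP Q hQ p0 q0 p1 p2 => ?_
    have p0' : (P : Pt (ι a) (ι b)) ≠ 0 := fun h => p0 (Subtype.ext h)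
    have q0' : (Q : Pt (ι a) (ι b)) ≠ 0 := fun h => q0 (Subtype.ext h)
    have p1' : (P : Pt (ι a) (ι b)) ≠ Q := fun h => p1 (Subtype.ext h)
    have p2' : (P : Pt (ι a) (ι b)) ≠ -Q := fun h => p2 (Subtype.ext h)
    rcases lt_or_ge (L.v (dsc (ι a) (ι b))) (L.v (ι a) ^ 3) with hp | hp
    · obtain ⟨m1, m2, j, j1, j2⟩ := hmu L ok hp
      rw [max_eq_right hp.le, ← m2, unit_diff_node m1 P.2 Q.2 p0' q0' p1' p2'
        (mon_zz hι L.toLoc m1 hm (by omega) j1 j2 H hH hcon hP p0)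
        (mon_zz hι L.toLoc m1 hm (by omega) j1 j2 H hH hcon hQ q0)]
    · rw [max_eq_left hp]
      exact mon_good L.v (v2 L) (v3 L) (mon_vnat L hmk) hd' hp P.2 Q.2 p0' q0' p1' p2'
  have hq0 : ι r / ι s ≠ 0 := by
    intro h0
    have h1 := hval L0 ok0
    rw [h0, map_zero, zero_pow (by norm_num), max_eq_right ((hiff L0).2 hp0).le] at h1
    exact pow_ne_zero _ (pow_ne_zero _ (vne L0 ha)) h1.symm
  have hr : r ≠ 0 := by
    rintro rfl
    simp at hq0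
  have hs : s ≠ 0 := by
    rintro rfl
    simp at hq0
  have hu : r ^ 6 ≠ 0 := pow_ne_zero _ hr
  have hw : s ^ 6 * dsc a b ^ n ≠ 0 := mul_ne_zero (pow_ne_zero _ hs) (pow_ne_zero _ hd)
  have hval' : ∀ L : GLoc ι, Ok L → L.v (ι (r ^ 6)) =
      L.v (ι s) ^ 6 * max (L.v (dsc (ι a) (ι b))) (L.v (ι a) ^ 3) ^ n := by
    intro L ok
    rw [← hval L ok, map_div₀, div_pow, map_pow, map_pow,
      mul_div_cancel₀ _ (pow_ne_zero _ (vne L hs))]
  have hw' : ∀ L : GLoc ι, L.v (ι (s ^ 6 * dsc a b ^ n)) =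
      L.v (ι s) ^ 6 * L.v (dsc (ι a) (ι b)) ^ n := by
    intro L
    simp only [map_mul, map_pow, mon_dsc]
  have hle : ∀ L : GLoc ι, Ok L → L.v (ι (s ^ 6 * dsc a b ^ n)) ≤ L.v (ι (r ^ 6)) := by
    intro L ok
    rw [hval' L ok, hw']
    gcongr
    exact le_max_left _ _
  obtain ⟨c, c0, hcw⟩ := mon_poly hu hw (fun α => by
    obtain ⟨L, ok, hL⟩ := hfin α
    have := hle L ok
    rw [hL _ hu, hL _ hw] at this
    exact (pow_le_pow_iff_right_of_lt_one₀ (by norm_num) (by norm_num)).1 this) (by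
    obtain ⟨L, ok, hL⟩ := hinf
    have := hle L ok
    rw [hL _ hu, hL _ hw] at this
    exact (pow_le_pow_iff_right₀ (by norm_num)).1 this)
  have h1 : L0.v (ι (s ^ 6 * dsc a b ^ n)) = L0.v (ι (r ^ 6)) := by
    rw [hcw, map_mul, map_mul, L0.const c c0, mul_one]
  rw [hval' L0 ok0, hw', max_eq_right ((hiff L0).2 hp0).le] at h1
  have h4 := mul_left_cancel₀ (pow_ne_zero _ (vne L0 hs)) h1
  exact absurd h4 (pow_lt_pow_left₀ ((hiff L0).2 hp0) zero_le hn.ne').ne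

end Pool.Agent.P.MP_a60a76_nt.Fs
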