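import Pool.Agent.P.MP_a60a76_nt.Fs.Defs
import Pool.Agent.P.MP_a60a76_nt.Fs.Frob
import Pool.Agent.P.MP_a60a76_nt.Fs.Count

namespace Pool.Agent.P.MP_a60a76_nt.Fs

open Polynomial
open scoped NNReal

theorem trace_kill {V : Type*} [AddCommGroup V] {q : ℕ} (hq : q.Prime) {d : ℤ} (hd : |d| < q)
    {R : V} (hR : R ≠ 0) (h1 : d • R = 0) (h2 : q • R = 0) : d = 0 := by
  by_cases h : (q : ℤ) ∣ d
  · exact Int.eq_zero_of_abs_lt_dvd h hd
  · obtain ⟨u, v, huv⟩ := (Nat.prime_iff_prime_int.1 hq).irreducible.coprime_iff_not_dvd.2 h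
    exfalso
    apply hR
    rw [← one_zsmul R, ← huv, add_zsmul, mul_zsmul, mul_zsmul, h1, natCast_zsmul, h2, zsmul_zero,
      zsmul_zero, add_zero]

theorem trace_sub {V : Type*} [AddCommGroup V] {A R C : V} {t t' : ℤ} (h : A - t • R + C = 0)
    (h' : A - t' • R + C = 0) : (t - t') • R = 0 := by
  have e : (t - t') • R = (A - t' • R + C) - (A - t • R + C) := by
    rw [sub_zsmul]; abel
  rw [e, h, h', sub_self]

theorem trace_cast_ne (l : ℕ) [Fact l.Prime] {q : ℕ} (hq : q.Prime) (hne : l ≠ q) :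
    (q : Fb l) ≠ 0 := fun h =>
  hne ((Nat.prime_dvd_prime_iff_eq Fact.out hq).1 ((CharP.cast_eq_zero_iff (Fb l) l q).1 h))

theorem trace_two_ne (l : ℕ) [Fact l.Prime] (hl : 5 ≤ l) : (2 : Fb l) ≠ 0 := by
  have h := trace_cast_ne l Nat.prime_two (by omega)
  exact_mod_cast h

theorem trace_exists (l : ℕ) [Fact l.Prime] (hl : 5 ≤ l) {a b : Fb l} (hd : dsc a b ≠ 0) {q : ℕ}
    (hq : q.Prime) (hne : l ≠ q) : ∃ P : Tors q a b, P ≠ 0 := by
  have h2 := trace_two_ne l hl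
  have hc := trace_cast_ne l hq hne
  have := finite_tors h2 hd hc
  have : Nontrivial (Tors q a b) := by
    rw [← Finite.one_lt_card_iff_nontrivial, card_tors h2 hd hc]
    exact Nat.one_lt_pow (by norm_num) hq.one_lt
  exact exists_ne 0

theorem trace_dsc (l : ℕ) [Fact l.Prime] {a b : ZMod l} (hd : dsc a b ≠ 0) :
    dsc (up l a) (up l b) ≠ 0 := by
  have e : dsc (up l a) (up l b) = up l (dsc a b) := by
    simp only [dsc, map_add, map_mul, map_pow, map_ofNat]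
  rw [e]
  exact (map_ne_zero_iff _ (up l).injective).2 hd

theorem trace_up_pow (l : ℕ) [Fact l.Prime] (a : ZMod l) : up l a ^ l = up l a := by
  rw [← map_pow, ZMod.pow_card]

theorem frobRel_unique (l : ℕ) [Fact l.Prime] (hl : 5 ≤ l) {a b : Fb l} (hd : dsc a b ≠ 0)
    {t t' : ℤ} (h : FrobRel l a b t) (h' : FrobRel l a b t') : t = t' := by
  obtain ⟨q, hq1, hq⟩ := Nat.exists_infinite_primes (l + (t - t').natAbs + 1)
  obtain ⟨P, hP⟩ := trace_exists l hl hd hq (by omega)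
  have hP' : (P : Pt a b) ≠ 0 := fun h0 => hP (Subtype.ext h0)
  refine sub_eq_zero.1 (trace_kill hq (R := frobP l a b P) ?_
    ((galP_eq_zero_iff _ _).not.2 hP') ?_ ?_)
  · rw [Int.abs_eq_natAbs]; omega
  · exact trace_sub (h P) (h' P)
  · rw [← map_nsmul, mem_tors.1 P.2, map_zero]

theorem tr_spec (l : ℕ) [Fact l.Prime] (hl : 5 ≤ l) {a b : ZMod l} (hd : dsc a b ≠ 0) :
    FrobRel l (up l a) (up l b) (tr l a b) ∧ |tr l a b| ≤ l + 1 := by
  obtain ⟨t, h1, h2⟩ := frob_rel l hl (trace_up_pow l a) (trace_up_pow l b) (trace_dsc l hd)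
  have hex : ∃ t, FrobRel l (up l a) (up l b) t := ⟨t, h2⟩
  have e : tr l a b = t := by
    unfold tr
    rw [dif_pos hex]
    exact frobRel_unique l hl (trace_dsc l hd) hex.choose_spec h2
  rw [e]
  exact ⟨h2, h1⟩

theorem trace_scale_aux (l : ℕ) [Fact l.Prime] {a b a' b' w : Fb l} (hw : w ≠ 0)
    (ha : a' = w ^ 4 * RingHom.id _ a) (hb : b' = w ^ 6 * RingHom.id _ b)
    (fa : a ^ l = a) (fb : b ^ l = b) (fa' : a' ^ l = a') (fb' : b' ^ l = b')
    (hwl : w ^ l = w ∨ w ^ l = -w) {t : ℤ} (h : FrobRel l a b t) :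
    FrobRel l a' b' t ∨ FrobRel l a' b' (-t) := by
  have hsurj : ∀ Q : Pt a' b', ∃ P : Pt a b, tw (RingHom.id _) w hw ha hb P = Q := by
    intro Q
    have ha2 : a = w⁻¹ ^ 4 * RingHom.id _ a' := by
      rw [ha]; simp only [RingHom.id_apply]; field_simp
    have hb2 : b = w⁻¹ ^ 6 * RingHom.id _ b' := by
      rw [hb]; simp only [RingHom.id_apply]; field_simp
    refine ⟨tw (RingHom.id _) w⁻¹ (inv_ne_zero hw) ha2 hb2 Q, ?_⟩
    by_cases hQ : Q = 0
    · simp [hQ]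
    · refine pt_ext ((tw_eq_zero_iff _ _ _ _ _ _).not.2 ((tw_eq_zero_iff _ _ _ _ _ _).not.2 hQ))
        hQ ?_ ?_
      · rw [xc_tw, xc_tw]; simp only [RingHom.id_apply]; field_simp
      · rw [yc_tw, yc_tw]; simp only [RingHom.id_apply]; field_simp
  have hne : ∀ P : Pt a b, P ≠ 0 → frobP l a' b' (tw (RingHom.id _) w hw ha hb P) ≠ 0 ∧
      tw (RingHom.id _) w hw ha hb (frobP l a b P) ≠ 0 := fun P hP =>
    ⟨(galP_eq_zero_iff _ _).not.2 ((tw_eq_zero_iff _ _ _ _ _ _).not.2 hP),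
      (tw_eq_zero_iff _ _ _ _ _ _).not.2 ((galP_eq_zero_iff _ _).not.2 hP)⟩
  have hx : ∀ P : Pt a b, xc (frobP l a' b' (tw (RingHom.id _) w hw ha hb P))
      = (w ^ l) ^ 2 * xc P ^ l := by
    intro P
    rw [frobP, xc_galP fa' fb', xc_tw, frobenius_def, RingHom.id_apply, mul_pow, ← pow_mul,
      ← pow_mul, mul_comm 2 l]
  have hy : ∀ P : Pt a b, yc (frobP l a' b' (tw (RingHom.id _) w hw ha hb P))
      = (w ^ l) ^ 3 * yc P ^ l := by
    intro P
    rw [frobP, yc_galP fa' fb', yc_tw, frobenius_def, RingHom.id_apply, mul_pow, ← pow_mul,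
      ← pow_mul, mul_comm 3 l]
  have hx' : ∀ P : Pt a b, xc (tw (RingHom.id _) w hw ha hb (frobP l a b P))
      = w ^ 2 * xc P ^ l := by
    intro P
    rw [xc_tw, frobP, xc_galP fa fb, frobenius_def, RingHom.id_apply]
  have hy' : ∀ P : Pt a b, yc (tw (RingHom.id _) w hw ha hb (frobP l a b P))
      = w ^ 3 * yc P ^ l := by
    intro P
    rw [yc_tw, frobP, yc_galP fa fb, frobenius_def, RingHom.id_apply]
  rcases hwl with hwl | hwl
  · left
    have key : ∀ P : Pt a b, frobP l a' b' (tw (RingHom.id _) w hw ha hb P)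
        = tw (RingHom.id _) w hw ha hb (frobP l a b P) := by
      intro P
      by_cases hP : P = 0
      · simp [hP]
      · exact pt_ext (hne P hP).1 (hne P hP).2 (by rw [hx, hx', hwl]) (by rw [hy, hy', hwl])
    intro Q
    obtain ⟨P, rfl⟩ := hsurj Q
    rw [key, key, ← map_zsmul, ← map_nsmul, ← map_sub, ← map_add, h P, map_zero]
  · right
    have key : ∀ P : Pt a b, frobP l a' b' (tw (RingHom.id _) w hw ha hb P)
        = -tw (RingHom.id _) w hw ha hb (frobP l a b P) := by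
      intro P
      by_cases hP : P = 0
      · simp [hP]
      · exact pt_ext (hne P hP).1 (neg_ne_zero.2 (hne P hP).2)
          (by rw [hx, xc_neg, hx', hwl]; ring) (by rw [hy, yc_neg, hy', hwl]; ring)
    intro Q
    obtain ⟨P, rfl⟩ := hsurj Q
    rw [key, map_neg, key, neg_neg, neg_zsmul, zsmul_neg, neg_neg, ← map_zsmul, ← map_nsmul,
      ← map_sub, ← map_add, h P, map_zero]

theorem tr_scale (l : ℕ) [Fact l.Prime] (hl : 5 ≤ l) {a b u : ZMod l} (hd : dsc a b ≠ 0)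
    (hu : u ≠ 0) : Mat l (u ^ 2 * a) (u ^ 3 * b) a b := by
  obtain ⟨w, hw⟩ := IsAlgClosed.exists_pow_nat_eq (up l u) (n := 2) (by norm_num)
  have hw0 : w ≠ 0 := by
    rintro rfl
    rw [zero_pow (by norm_num), eq_comm, map_eq_zero] at hw
    exact hu hw
  have hd' : dsc (u ^ 2 * a) (u ^ 3 * b) ≠ 0 := by
    have e : dsc (u ^ 2 * a) (u ^ 3 * b) = u ^ 6 * dsc a b := by simp only [dsc]; ring
    rw [e]
    exact mul_ne_zero (pow_ne_zero _ hu) hd
  have ha : up l (u ^ 2 * a) = w ^ 4 * RingHom.id _ (up l a) := by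
    rw [map_mul, map_pow, ← hw, RingHom.id_apply]; ring
  have hb : up l (u ^ 3 * b) = w ^ 6 * RingHom.id _ (up l b) := by
    rw [map_mul, map_pow, ← hw, RingHom.id_apply]; ring
  have hwl : w ^ l = w ∨ w ^ l = -w := by
    rw [← sq_eq_sq_iff_eq_or_eq_neg, ← pow_mul, mul_comm, pow_mul, hw, trace_up_pow]
  rcases trace_scale_aux l hw0 ha hb (trace_up_pow l _) (trace_up_pow l _) (trace_up_pow l _)
    (trace_up_pow l _) hwl (tr_spec l hl hd).1 with h | h
  · exact Or.inl (frobRel_unique l hl (trace_dsc l hd') (tr_spec l hl hd').1 h)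
  · exact Or.inr (frobRel_unique l hl (trace_dsc l hd') (tr_spec l hl hd').1 h)

theorem frobT_rel (l : ℕ) [Fact l.Prime] (hl : 5 ≤ l) (m : ℕ) {a b : ZMod l} (hd : dsc a b ≠ 0)
    (P : Tors m (up l a) (up l b)) :
    frobT l m a b (frobT l m a b P) - tr l a b • frobT l m a b P + l • P = 0 :=
  Subtype.ext ((tr_spec l hl hd).1 P)

theorem mat_of_eqv (l : ℕ) [Fact l.Prime] (hl : 5 ≤ l) {p : ℕ} (hp : p.Prime) (hlp : 2 * l + 2 < p)
    {a1 b1 a2 b2 : ZMod l} (hd1 : dsc a1 b1 ≠ 0) (hd2 : dsc a2 b2 ≠ 0)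
    (ψ : Tors p (up l a1) (up l b1) ≃+ Tors p (up l a2) (up l b2))
    (h : Eqv (frobT l p a1 b1) (frobT l p a2 b2) ψ) : Mat l a1 b1 a2 b2 := by
  obtain ⟨P, hP⟩ := trace_exists l hl (trace_dsc l hd1) hp (by omega)
  have hψ : ((ψ P : Tors p (up l a2) (up l b2)) : Pt (up l a2) (up l b2)) ≠ 0 := fun h0 =>
    hP (ψ.map_eq_zero_iff.1 (Subtype.ext h0))
  have hR : frobT l p a2 b2 (ψ P) ≠ 0 := fun h0 =>
    hψ ((galP_eq_zero_iff _ _).1 (congrArg Subtype.val h0))
  have h1 := congrArg ψ (frobT_rel l hl p hd1 P)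
  rw [map_add, map_sub, map_zsmul, map_nsmul, map_zero] at h1
  have h2 := frobT_rel l hl p hd2 (ψ P)
  have b1' := abs_le.1 (tr_spec l hl hd1).2
  have b2' := abs_le.1 (tr_spec l hl hd2).2
  rcases h with h | h
  · left
    rw [h, h] at h1
    refine sub_eq_zero.1 (trace_kill hp ?_ hR ?_ (tors_smul _))
    · rw [abs_lt]; constructor <;> omega
    · exact trace_sub h1 h2
  · right
    rw [h, h, map_neg, neg_neg] at h1
    refine eq_neg_of_add_eq_zero_left (trace_kill hp ?_ hR ?_ (tors_smul _))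
    · rw [abs_lt]; constructor <;> omega
    · rw [zsmul_neg, ← neg_zsmul] at h1
      have h3 := trace_sub h2 h1
      rwa [sub_neg_eq_add, add_comm] at h3

end Pool.Agent.P.MP_a60a76_nt.Fs
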