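import Pool.Agent.P.MP_a60a76_nt.Fs.Defs
import Pool.Agent.P.MP_a60a76_nt.Fs.ChCore
import Pool.Agent.P.MP_a60a76_nt.Fs.Mon
import Pool.Agent.P.MP_a60a76_nt.Fs.Tower
import Pool.Agent.P.MP_a60a76_nt.Fs.Trace

namespace Pool.Agent.P.MP_a60a76_nt.Fs

open Polynomial
open scoped NNReal

theorem chConst_ne (l : ℕ) (K : Type*) [Field K] [CharP K l] {n : ℕ} (h0 : 0 < n) (hn : n < l) :
    (n : K) ≠ 0 :=
  fun h => absurd (Nat.le_of_dvd h0 ((CharP.cast_eq_zero_iff K l n).1 h)) hn.not_ge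

theorem chConst_lt {l m δ : ℕ} (h5 : 5 ≤ m) (hδ : 0 < δ) (hl : δ ^ 2 * m ^ 21 < l) :
    m < l ∧ δ * m ^ 13 < l := by
  have h1 : δ * m ^ 13 ≤ δ ^ 2 * m ^ 21 :=
    Nat.mul_le_mul (Nat.le_self_pow two_ne_zero δ) (Nat.pow_le_pow_right (by omega) (by norm_num))
  have h2 : m ≤ δ * m ^ 13 :=
    (Nat.le_self_pow (by norm_num) m).trans (Nat.le_mul_of_pos_left _ hδ)
  omega

theorem chConst_plane (l : ℕ) [Fact l.Prime] {m : ℕ} (h5 : 5 ≤ m) (hml : m < l) {a b : ZMod l}
    (hd : dsc a b ≠ 0) : Plane m (Tors m (up l a) (up l b)) :=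
  plane_tors (by exact_mod_cast chConst_ne l (Fb l) two_pos (by omega))
    (by rw [chCore_dsc]; exact (_root_.map_ne_zero _).2 hd) (chConst_ne l (Fb l) (by omega) hml)

theorem chConst_core (l : ℕ) [Fact l.Prime] {m δ w : ℕ} (hm : m.Prime) (h5 : 5 ≤ m) (hδ : 0 < δ)
    (hl : δ ^ 2 * m ^ 21 < l) {a b : (ZMod l)[X]} (ha : a.natDegree ≤ 2 * δ)
    (hb : b.natDegree ≤ 3 * δ) (hJ : JDeg m a b) {a0 b0 : ZMod l} (hd0 : dsc a0 b0 ≠ 0)
    (S : Finset (ZMod l))
    (hS : ∀ c ∈ S, dsc (a.eval c) (b.eval c) ≠ 0 ∧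
      w ≤ Nat.card {ψ : Tors m (up l (a.eval c)) (up l (b.eval c)) ≃+ Tors m (up l a0) (up l b0) //
        Eqv (frobT l m (a.eval c) (b.eval c)) (frobT l m a0 b0) ψ}) :
    w * S.card ≤ 18 * m * l + w * (δ * m ^ 11) := by
  obtain ⟨hml, -⟩ := chConst_lt h5 hδ hl
  obtain ⟨ι0, hι0⟩ := exists_clos (Fb l)
  have hι := clos_comp (clos_Fb l) hι0
  have h2 : (2 : Fb l) ≠ 0 := by exact_mod_cast chConst_ne l (Fb l) two_pos (by omega)
  have h3 : (3 : Fb l) ≠ 0 := by exact_mod_cast chConst_ne l (Fb l) three_pos (by omega)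
  have hmk : (m : Fb l) ≠ 0 := chConst_ne l (Fb l) hm.pos hml
  have hJ' := jdeg_map (up l) hJ
  have hM := mon_of_deg hι0 h2 h3 hm h5 hmk hJ'
  have hd0' : dsc (up l a0) (up l b0) ≠ 0 := by
    rw [chCore_dsc]; exact (_root_.map_ne_zero _).2 hd0
  have hMis := mis_const hι0 h2 hm hmk hJ'.2.2.1 hM hd0'
  have := hι0.closed
  have : CharP (AlgebraicClosure (RatFunc (Fb l))) l := charP_of_injective_ringHom hι.inj l
  have hpl : Plane m (Tors m (ι0 (a.map (up l))) (ι0 (b.map (up l)))) :=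
    plane_tors (by exact_mod_cast chConst_ne l _ two_pos (by omega))
      (by rw [chCore_dsc]; exact (map_ne_zero_iff _ hι0.inj).2 hJ'.2.2.1)
      (chConst_ne l _ hm.pos hml)
  have hB := big_comp (mapRingHom (up l)) (big_of_mon hm h5 hpl hM hMis).1
  rw [← map_C (up l), ← map_C (up l)] at hB
  refine ch_core l hι hm h5 hδ hl ha hb (a2 := C a0) (b2 := C b0) (by simp) (by simp) hJ.2.2.1
    (by rw [chCore_dsc]; exact C_ne_zero.2 hd0) hB S fun c hc => ?_
  rw [eval_C, eval_C]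
  exact ⟨(hS c hc).1, hd0, (hS c hc).2⟩

theorem ch_scalar (l : ℕ) [Fact l.Prime] {m δ : ℕ} (hm : m.Prime) (h5 : 5 ≤ m) (hδ : 0 < δ)
    (hl : δ ^ 2 * m ^ 21 < l) {a b : (ZMod l)[X]} (ha : a.natDegree ≤ 2 * δ)
    (hb : b.natDegree ≤ 3 * δ) (hJ : JDeg m a b) (S : Finset (ZMod l))
    (hS : ∀ c ∈ S, dsc (a.eval c) (b.eval c) ≠ 0 ∧ Sc (frobT l m (a.eval c) (b.eval c))) :
    m * S.card ≤ 40 * l := by
  classical
  obtain ⟨hml, hl13⟩ := chConst_lt h5 hδ hl
  have hn : ∀ c, ∃ n : ℤ, c ∈ S → ∀ v, frobT l m (a.eval c) (b.eval c) v = n • v := fun c => by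
    by_cases hc : c ∈ S
    · obtain ⟨n, hn⟩ := (hS c hc).2
      exact ⟨n, fun _ => hn⟩
    · exact ⟨0, fun h => absurd h hc⟩
  choose n hn using hn
  have : NeZero m := ⟨hm.ne_zero⟩
  have key : ∀ r : ZMod m, m ^ 2 * (S.filter fun c => (n c : ZMod m) = r).card ≤ 19 * l := by
    intro r
    rcases (S.filter fun c => (n c : ZMod m) = r).eq_empty_or_nonempty with h | ⟨c0, hc0⟩
    · simp [h]
    obtain ⟨hc0, hr0⟩ := Finset.mem_filter.1 hc0
    have := chConst_core l (w := m ^ 3) hm h5 hδ hl ha hb hJ (hS c0 hc0).1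
      (S.filter fun c => (n c : ZMod m) = r) fun c hc => ?_
    · refine Nat.le_of_mul_le_mul_left ?_ hm.pos
      have e := Nat.mul_le_mul_left m hl13.le
      nlinarith
    obtain ⟨hc, hr⟩ := Finset.mem_filter.1 hc
    refine ⟨(hS c hc).1, ?_⟩
    have p0 := chConst_plane l h5 hml (hS c0 hc0).1
    refine le_trans ?_ (Nat.card_congr (Equiv.subtypeUnivEquiv fun ψ => Or.inl fun v => ?_)).ge
    · rw [card_iso hm (chConst_plane l h5 hml (hS c hc).1) p0]
      obtain ⟨k, rfl⟩ : ∃ k, m = k + 1 := ⟨m - 1, by omega⟩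
      have e1 : (k + 1) ^ 2 - 1 = k * (k + 2) := by
        rw [Nat.sub_eq_iff_eq_add (Nat.one_le_pow _ _ (by omega))]; ring
      have e2 : (k + 1) ^ 2 - (k + 1) = (k + 1) * k := by
        rw [Nat.sub_eq_iff_eq_add (by nlinarith)]; ring
      rw [e1, e2]
      have : (k + 1) ^ 2 ≤ k * (k + 2) * k := by nlinarith [Nat.mul_le_mul h5 h5]
      nlinarith
    · obtain ⟨q, hq⟩ := (ZMod.intCast_eq_intCast_iff_dvd_sub _ _ m).1 (hr.trans hr0.symm)
      rw [hn c hc, hn c0 hc0, map_zsmul, sub_eq_iff_eq_add.1 hq, add_smul, mul_comm, mul_smul,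
        natCast_zsmul, p0.2, smul_zero, zero_add]
  have h1 : m ^ 2 * S.card ≤ m * (19 * l) := by
    rw [Finset.card_eq_sum_card_fiberwise (f := fun c => (n c : ZMod m)) (t := Finset.univ)
      (fun _ _ => Finset.mem_univ _), Finset.mul_sum]
    refine (Finset.sum_le_sum fun r _ => key r).trans ?_
    simp
  have h2 : m * S.card ≤ 19 * l := Nat.le_of_mul_le_mul_left (by nlinarith) hm.pos
  omega

theorem ch_const (l : ℕ) [Fact l.Prime] {m δ : ℕ} (hm : m.Prime) (h5 : 5 ≤ m) (hδ : 0 < δ)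
    (hl : δ ^ 2 * m ^ 21 < l) {a b : (ZMod l)[X]} (ha : a.natDegree ≤ 2 * δ)
    (hb : b.natDegree ≤ 3 * δ) (hJ : JDeg m a b) (t : ℤ) (S : Finset (ZMod l))
    (hS : ∀ c ∈ S, dsc (a.eval c) (b.eval c) ≠ 0 ∧
      (tr l (a.eval c) (b.eval c) = t ∨ tr l (a.eval c) (b.eval c) = -t)) :
    m * S.card ≤ 100 * l := by
  classical
  obtain ⟨hml, hl13⟩ := chConst_lt h5 hδ hl
  have h1 := ch_scalar l hm h5 hδ hl ha hb hJ
    (S.filter fun c => Sc (frobT l m (a.eval c) (b.eval c))) fun c hc =>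
      ⟨(hS c (Finset.mem_filter.1 hc).1).1, (Finset.mem_filter.1 hc).2⟩
  have h2 : m * (S.filter fun c => ¬ Sc (frobT l m (a.eval c) (b.eval c))).card ≤ 60 * l := by
    rcases (S.filter fun c => ¬ Sc (frobT l m (a.eval c) (b.eval c))).eq_empty_or_nonempty
      with h | ⟨c0, hc0⟩
    · simp [h]
    obtain ⟨hc0, hs0⟩ := Finset.mem_filter.1 hc0
    have := chConst_core l (w := (m - 1) ^ 2) hm h5 hδ hl ha hb hJ (hS c0 hc0).1
      (S.filter fun c => ¬ Sc (frobT l m (a.eval c) (b.eval c))) fun c hc => ?_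
    · obtain ⟨k, rfl⟩ : ∃ k, m = k + 1 := ⟨m - 1, by omega⟩
      rw [Nat.add_sub_cancel] at this
      have hk : 0 < k ^ 2 := by have : 0 < k := by omega
                                positivity
      refine Nat.le_of_mul_le_mul_left ?_ hk
      have e0 : δ * (k + 1) ^ 12 ≤ l :=
        (Nat.mul_le_mul_left δ (Nat.pow_le_pow_right (by omega) (by norm_num))).trans hl13.le
      have e1 := Nat.mul_le_mul_left (k ^ 2) e0
      have e2 := Nat.mul_le_mul_left (k + 1) this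
      have e3 : (k + 1) ^ 2 * l ≤ 2 * k ^ 2 * l := Nat.mul_le_mul_right l (by nlinarith)
      nlinarith
    obtain ⟨hc, hs⟩ := Finset.mem_filter.1 hc
    refine ⟨(hS c hc).1, ?_⟩
    have p := chConst_plane l h5 hml (hS c hc).1
    have p0 := chConst_plane l h5 hml (hS c0 hc0).1
    have r := frobT_rel l (by omega) m (hS c hc).1
    have r0 := frobT_rel l (by omega) m (hS c0 hc0).1
    have : Finite (Tors m (up l (a.eval c)) (up l (b.eval c)) ≃+
        Tors m (up l (a.eval c0)) (up l (b.eval c0))) := by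
      refine Nat.finite_of_card_ne_zero ?_
      rw [card_iso hm p p0]
      have : m < m ^ 2 := by nlinarith
      exact mul_ne_zero (by omega) (by omega)
    have ht : tr l (a.eval c0) (b.eval c0) = tr l (a.eval c) (b.eval c) ∨
        tr l (a.eval c0) (b.eval c0) = -tr l (a.eval c) (b.eval c) := by
      rcases (hS c hc).2 with e | e <;> rcases (hS c0 hc0).2 with e' | e' <;> simp [e, e']
    rcases ht with ht | ht
    · refine (card_intertw hm p p0 _ _ (tr l (a.eval c) (b.eval c)) l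
        (fun v => by simpa using r v) (fun v => by simpa [ht] using r0 v) hs hs0).trans ?_
      exact Nat.card_le_card_of_injective (Subtype.map id fun ψ h => Or.inl h)
        (Subtype.map_injective _ Function.injective_id)
    · have en : ∀ v, (-frobT l m (a.eval c0) (b.eval c0)) v =
          -(frobT l m (a.eval c0) (b.eval c0) v) := fun _ => rfl
      refine (card_intertw hm p p0 _ (-frobT l m (a.eval c0) (b.eval c0))
        (tr l (a.eval c) (b.eval c)) l (fun v => by simpa using r v)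
        (fun v => by simpa [ht, en] using r0 v) hs ?_).trans ?_
      · rintro ⟨n, hn⟩
        exact hs0 ⟨-n, fun v => by rw [neg_smul, ← hn v, en, neg_neg]⟩
      · exact Nat.card_le_card_of_injective (Subtype.map id fun ψ h => Or.inr h)
          (Subtype.map_injective _ Function.injective_id)
  rw [← Finset.card_filter_add_card_filter_not (s := S)
    (fun c => Sc (frobT l m (a.eval c) (b.eval c))), mul_add]
  omega

theorem ch_surf (l : ℕ) [Fact l.Prime] {m : ℕ} (hm : m.Prime) (h5 : 5 ≤ m) (hl : m ^ 21 < l)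
    (t : ℤ) (S : Finset (ZMod l))
    (hS : ∀ c ∈ S, c ≠ 0 ∧ c ≠ 1728 ∧
      (tr l (ma c 1) (mb c 1) = t ∨ tr l (ma c 1) (mb c 1) = -t)) : m * S.card ≤ 100 * l := by
  have hml : m < l := (Nat.le_self_pow (by norm_num) m).trans_lt hl
  have h2 : (2 : ZMod l) ≠ 0 := by exact_mod_cast chConst_ne l (ZMod l) two_pos (by omega)
  have h3 : (3 : ZMod l) ≠ 0 := by exact_mod_cast chConst_ne l (ZMod l) three_pos (by omega)
  refine ch_const l (δ := 1) (a := ma X 1) (b := mb X 1) hm h5 one_pos (by simpa using hl) ?_ ?_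
    (jdeg_model h2 h3 isCoprime_one_right X_ne_zero one_ne_zero (fun h => ?_) (by simp)
      (by simp; omega)) t S fun c hc => ?_
  · unfold ma; compute_degree
  · unfold mb; compute_degree
  · have := congrArg (fun p => coeff p 1) h
    simp [coeff_X, ← map_ofNat (C : ZMod l →+* (ZMod l)[X]) 1728] at this
  · obtain ⟨c1, c2, c3⟩ := hS c hc
    have e1 : (ma X 1 : (ZMod l)[X]).eval c = ma c 1 := by simp [ma]
    have e2 : (mb X 1 : (ZMod l)[X]).eval c = mb c 1 := by simp [mb]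
    rw [e1, e2]
    refine ⟨?_, c3⟩
    have e : dsc (ma c 1) (mb c 1) = 2 ^ 8 * 3 ^ 6 * c ^ 2 * (1728 - c) ^ 3 := by
      simp only [dsc, ma, mb]; ring
    rw [e]
    exact mul_ne_zero (mul_ne_zero (mul_ne_zero (pow_ne_zero _ h2) (pow_ne_zero _ h3))
      (pow_ne_zero _ c1)) (pow_ne_zero _ (sub_ne_zero.2 c2.symm))

end Pool.Agent.P.MP_a60a76_nt.Fs
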