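import Pool.Agent.P.MP_a60a76_nt.Fs.Defs
import Pool.Agent.P.MP_a60a76_nt.Fs.GPlace
import Pool.Agent.P.MP_a60a76_nt.Fs.Red
import Pool.Agent.P.MP_a60a76_nt.Fs.Zeta
import Pool.Agent.P.MP_a60a76_nt.Fs.Inv

namespace Pool.Agent.P.MP_a60a76_nt.Fs

open Polynomial
open scoped NNReal

theorem good_spec_pow {K L : Type*} [Field K] [Field L] (g : Spec K L) {x : K} (hx : x ∈ g.S)
    (n : ℕ) : g.f (x ^ n) = g.f x ^ n :=
  map_pow g.hom ⟨x, hx⟩ n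

theorem good_spec_dsc {K L : Type*} [Field K] [Field L] (g : Spec K L) {x y : K} (hx : x ∈ g.S)
    (hy : y ∈ g.S) : g.f (dsc x y) = dsc (g.f x) (g.f y) := by
  have h : g.hom (4 * ⟨x, hx⟩ ^ 3 + 27 * ⟨y, hy⟩ ^ 2) =
      4 * g.hom ⟨x, hx⟩ ^ 3 + 27 * g.hom ⟨y, hy⟩ ^ 2 := by
    simp only [map_add, map_mul, map_pow, map_ofNat]
  exact h

theorem good_spec_geom {K L : Type*} [Field K] [Field L] (g : Spec K L) {x : K} (hx : x ∈ g.S)
    (h1 : g.f x ^ 2 = 1) (h0 : 1 + x ^ 2 + x ^ 4 + x ^ 6 + x ^ 8 + x ^ 10 = 0) : (6 : L) = 0 := by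
  have h : (1 + ⟨x, hx⟩ ^ 2 + ⟨x, hx⟩ ^ 4 + ⟨x, hx⟩ ^ 6 + ⟨x, hx⟩ ^ 8 + ⟨x, hx⟩ ^ 10 : g.S) = 0 :=
    Subtype.ext h0
  have h2 := congrArg g.hom h
  simp only [map_add, map_pow, map_one, map_zero] at h2
  have h3 : g.hom ⟨x, hx⟩ ^ 2 = 1 := h1
  generalize g.hom ⟨x, hx⟩ = e at h2 h3
  linear_combination h2 - (5 + 4 * e ^ 2 + 3 * e ^ 4 + 2 * e ^ 6 + e ^ 8) * h3

section pure

variable {V k : Type*} [AddCommGroup V] [Field k] {m : ℕ} {a b : k}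

theorem good_iter (e : V ≃+ Tors m a b) (f : AddMonoid.End V) (hf0 : ∀ P, f P = 0 → P = 0) {η : k}
    (hf : ∀ P, xc (e (f P) : Pt a b) = η ^ 2 * xc (e P : Pt a b) ∧
      yc (e (f P) : Pt a b) = η ^ 3 * yc (e P : Pt a b)) (n : ℕ) (P : V) :
    ((f ^ n) P = 0 → P = 0) ∧ xc (e ((f ^ n) P) : Pt a b) = η ^ (2 * n) * xc (e P : Pt a b) ∧
      yc (e ((f ^ n) P) : Pt a b) = η ^ (3 * n) * yc (e P : Pt a b) := by
  induction n with
  | zero => simp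
  | succ n ih =>
    have h : (f ^ (n + 1)) P = f ((f ^ n) P) := by rw [pow_succ']; rfl
    rw [h]
    refine ⟨fun h0 => ih.1 (hf0 _ h0), ?_, ?_⟩
    · rw [(hf _).1, ih.2.1]; ring
    · rw [(hf _).2, ih.2.2]; ring

theorem good_ne (e : V ≃+ Tors m a b) {P : V} (hP : P ≠ 0) : (e P : Pt a b) ≠ 0 := fun h =>
  hP (e.injective (by rw [map_zero]; exact Subtype.ext h))

theorem good_fix (e : V ≃+ Tors m a b) (f : AddMonoid.End V) (hf0 : ∀ P, f P = 0 → P = 0) {η : k}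
    (hf : ∀ P, xc (e (f P) : Pt a b) = η ^ 2 * xc (e P : Pt a b) ∧
      yc (e (f P) : Pt a b) = η ^ 3 * yc (e P : Pt a b)) {n : ℕ} (h2 : η ^ (2 * n) = 1)
    (h3 : η ^ (3 * n) = 1) (P : V) : (f ^ n) P = P := by
  by_cases hP : P = 0
  · rw [hP, map_zero]
  obtain ⟨h0, hx, hy⟩ := good_iter e f hf0 hf n P
  refine e.injective (Subtype.ext (pt_ext (good_ne e fun h => hP (h0 h)) (good_ne e hP) ?_ ?_))
  · rw [hx, h2, one_mul]
  · rw [hy, h3, one_mul]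

theorem good_pm (e : V ≃+ Tors m a b) (f : AddMonoid.End V) (hf0 : ∀ P, f P = 0 → P = 0) {η : k}
    (hf : ∀ P, xc (e (f P) : Pt a b) = η ^ 2 * xc (e P : Pt a b) ∧
      yc (e (f P) : Pt a b) = η ^ 3 * yc (e P : Pt a b)) {n : ℕ} (h2 : η ^ (2 * n) = 1) :
    PM (f ^ n) := by
  have h : (η ^ (3 * n) - 1) * (η ^ (3 * n) + 1) = 0 := by
    have : η ^ (3 * n) * η ^ (3 * n) = (η ^ (2 * n)) ^ 3 := by ring
    rw [h2] at this
    linear_combination this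
  rcases mul_eq_zero.1 h with h3 | h3
  · exact Or.inl (good_fix e f hf0 hf h2 (by linear_combination h3))
  · refine Or.inr fun P => ?_
    by_cases hP : P = 0
    · rw [hP, map_zero, neg_zero]
    obtain ⟨h0, hx, hy⟩ := good_iter e f hf0 hf n P
    refine e.injective (Subtype.ext (pt_ext (good_ne e fun h => hP (h0 h))
      (good_ne e (neg_ne_zero.2 hP)) ?_ ?_))
    · rw [hx, h2, one_mul, map_neg]
      exact (xc_neg _).symm
    · rw [hy, map_neg]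
      change _ = yc (-(e P : Pt a b))
      rw [yc_neg]
      linear_combination yc (e P : Pt a b) * h3

theorem good_sc [IsAlgClosed k] (e : V ≃+ Tors m a b) (f : AddMonoid.End V) {η : k}
    (hf : ∀ P, xc (e (f P) : Pt a b) = η ^ 2 * xc (e P : Pt a b) ∧
      yc (e (f P) : Pt a b) = η ^ 3 * yc (e P : Pt a b)) (h2 : (2 : k) ≠ 0)
    (hd : dsc a b ≠ 0) (hm : m.Prime) (h5 : 5 ≤ m) (hm0 : (m : k) ≠ 0)
    (hη : η ≠ 0) (ha : η ^ 4 * a = a) (hb : η ^ 6 * b = b) (h : Sc f) : η ^ 2 = 1 := by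
  let f' : AddMonoid.End (Tors m a b) :=
    (e.toAddMonoidHom.comp (f : V →+ V)).comp e.symm.toAddMonoidHom
  have hf' : ∀ P, f' P = e (f (e.symm P)) := fun _ => rfl
  refine zeta_scalar h2 hd hm h5 hm0 hη ha hb f' (fun P => ?_) ?_
  · have := hf (e.symm P)
    rw [e.apply_symm_apply] at this
    rw [hf']
    exact this
  · obtain ⟨n, hn⟩ := h
    exact ⟨n, fun P => by rw [hf', hn, map_zsmul, e.apply_symm_apply]⟩

end pure

theorem good_red {k Ω : Type*} [Field k] [IsAlgClosed k] [Field Ω] [IsAlgClosed Ω]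
    (v : Valuation Ω ℝ≥0) (g : Spec Ω k) (hS : ∀ z, z ∈ g.S ↔ v z ≤ 1)
    (hU : ∀ z ∈ g.S, g.f z ≠ 0 ↔ v z = 1) (h2 : (2 : k) ≠ 0) {m : ℕ} (hodd : Odd m)
    (hmk : (m : k) ≠ 0) (v2 : v 2 = 1) (vm : v (m : Ω) = 1) {A B u : Ω} (hu : u ≠ 0)
    (hd : u ^ 12 = dsc A B) (hA : v (A / u ^ 4) ≤ 1) (hB : v (B / u ^ 6) ≤ 1) :
    ∃ e : Tors m A B ≃+ Tors m (g.f (A / u ^ 4)) (g.f (B / u ^ 6)), ∀ P : Tors m A B,
      xc (P : Pt A B) / u ^ 2 ∈ g.S ∧ yc (P : Pt A B) / u ^ 3 ∈ g.S ∧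
      xc (e P).1 = g.f (xc (P : Pt A B) / u ^ 2) ∧
      yc (e P).1 = g.f (yc (P : Pt A B) / u ^ 3) := by
  have h2' : (2 : Ω) ≠ 0 := fun h => by rw [h, map_zero] at v2; exact zero_ne_one v2
  have hm' : (m : Ω) ≠ 0 := fun h => by rw [h, map_zero] at vm; exact zero_ne_one vm
  have hd0 : dsc A B ≠ 0 := hd ▸ pow_ne_zero _ hu
  have hd1 : dsc (A / u ^ 4) (B / u ^ 6) = 1 := by
    rw [dsc] at hd ⊢
    field_simp
    exact hd.symm
  obtain ⟨e1, he1⟩ := tw_equiv h2' hd0 hm' (RingHom.id Ω) u⁻¹ (inv_ne_zero hu)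
    (a' := A / u ^ 4) (b' := B / u ^ 6) (by simp [div_eq_inv_mul]) (by simp [div_eq_inv_mul])
  have hint : ∀ P : Tors m (A / u ^ 4) (B / u ^ 6),
      xc P.1 ∈ g.S ∧ yc P.1 ∈ g.S := fun P => by
    have hx := tors_int v h2' (c := 1) one_ne_zero (by simpa using hA) (by simpa using hB) P.2
    rw [map_mul, vm, one_mul, map_one] at hx
    refine ⟨(hS _).2 hx, (hS _).2 ?_⟩
    by_cases hP : (P : Pt (A / u ^ 4) (B / u ^ 6)) = 0
    · rw [hP, yc_zero, map_zero]; exact zero_le_one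
    have h1 : v (yc (P : Pt (A / u ^ 4) (B / u ^ 6))) ^ 2 ≤ 1 := by
      rw [← map_pow, eqn hP]
      refine v.map_add_le (v.map_add_le ?_ ?_) hB
      · rw [map_pow]; exact pow_le_one₀ zero_le hx
      · rw [map_mul]; exact mul_le_one' hA hx
    exact (pow_le_one_iff_of_nonneg zero_le two_ne_zero).1 h1
  obtain ⟨e2, he2⟩ := red_equiv g v (fun z hz => ⟨(hS z).1 hz, hU z hz⟩) ((hS _).2 hA)
    ((hS _).2 hB) rfl rfl h2 (by
      rw [← good_spec_dsc g ((hS _).2 hA) ((hS _).2 hB), hd1, g.map_one]; exact one_ne_zero)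
    hmk hodd hint
  refine ⟨e1.trans e2, fun P => ?_⟩
  obtain ⟨p1, p2, p3, p4⟩ := he2 (e1 P)
  have q1 : xc (e1 P).1 = xc (P : Pt A B) / u ^ 2 := by
    rw [(he1 P).1]; simp [div_eq_inv_mul]
  have q2 : yc (e1 P).1 = yc (P : Pt A B) / u ^ 3 := by
    rw [(he1 P).2]; simp [div_eq_inv_mul]
  rw [q1] at p1 p3
  rw [q2] at p2 p4
  exact ⟨p1, p2, p3, p4⟩

theorem good_place {k Ω : Type*} [Field k] [IsAlgClosed k] [Field Ω] {ι : k[X] →+* Ω}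
    (hι : Clos ι) (L : GLoc ι) (h2 : (2 : k) ≠ 0) (h3 : (3 : k) ≠ 0) {m : ℕ} (hm : m.Prime)
    (h5 : 5 ≤ m) (hmk : (m : k) ≠ 0) {a b : k[X]} (hd : dsc a b ≠ 0)
    (hg : L.v (ι a) ^ 3 ≤ L.v (ι (dsc a b))) :
    (∀ σ ∈ L.D, rho m (ι a) (ι b) σ ^ 12 = 1) ∧
    (L.v (ι a) ^ 3 = L.v (ι (dsc a b)) → ∀ σ ∈ L.D, PM (rho m (ι a) (ι b) σ ^ 2)) ∧
    (L.v (ι b) ^ 2 = L.v (ι (dsc a b)) → ∀ σ ∈ L.D, PM (rho m (ι a) (ι b) σ ^ 3)) ∧
    ((∃ n : ℤ, L.v (ι (dsc a b)) = (1 / 2 : ℝ≥0) ^ (6 * n)) →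
      ∀ σ ∈ L.D, PM (rho m (ι a) (ι b) σ)) ∧
    ((¬ ∃ n : ℤ, L.v (ι (dsc a b)) = (1 / 2 : ℝ≥0) ^ (6 * n)) →
      ∃ σ ∈ L.D, ¬ Sc (rho m (ι a) (ι b) σ)) := by
  have := hι.closed
  obtain ⟨g, hS, -, -, hU, hinv⟩ := exists_res L
  have vn : ∀ n : ℕ, (n : k) ≠ 0 → L.v (n : Ω) = 1 := fun n hn => by
    have := L.const _ hn
    rwa [map_natCast, map_natCast] at this
  have v2 : L.v 2 = 1 := by simpa using vn 2 (by simpa using h2)
  have v3 : L.v 3 = 1 := by simpa using vn 3 (by simpa using h3)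
  have vm := vn m hmk
  have h6 : (6 : k) ≠ 0 := by
    rw [show (6 : k) = 2 * 3 by norm_num]; exact mul_ne_zero h2 h3
  have h6' : ((6 : ℕ) : Ω) ≠ 0 := fun h => by
    have := vn 6 (by simpa using h6)
    rw [h, map_zero] at this
    exact zero_ne_one this
  have hdm : ι (dsc a b) = dsc (ι a) (ι b) := by simp only [dsc, map_add, map_mul, map_pow, map_ofNat]
  have hd0 : ι (dsc a b) ≠ 0 := fun h => hd (hι.inj (by rw [h, map_zero]))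
  obtain ⟨u, hu⟩ := IsAlgClosed.exists_pow_nat_eq (ι (dsc a b)) (by norm_num : 0 < 12)
  have hu0 : u ≠ 0 := fun h => hd0 (by rw [← hu, h]; norm_num)
  have vu0 : L.v u ≠ 0 := (L.v.ne_zero_iff).2 hu0
  have vd : L.v (ι (dsc a b)) = L.v u ^ 12 := by rw [← hu, map_pow]
  have vd0 : 0 < L.v u ^ 12 := pow_pos (pos_iff_ne_zero.2 vu0) _
  have eA : L.v (ι a / u ^ 4) ^ 3 = L.v (ι a) ^ 3 / L.v u ^ 12 := by
    rw [map_div₀, map_pow, div_pow, ← pow_mul]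
  have eB : L.v (ι b / u ^ 6) ^ 2 = L.v (ι b) ^ 2 / L.v u ^ 12 := by
    rw [map_div₀, map_pow, div_pow, ← pow_mul]
  have hA : L.v (ι a / u ^ 4) ≤ 1 := by
    refine (pow_le_one_iff_of_nonneg zero_le three_ne_zero).1 ?_
    rw [eA, div_le_one vd0, ← vd]
    exact hg
  have hB : L.v (ι b / u ^ 6) ≤ 1 := by
    refine (pow_le_one_iff_of_nonneg zero_le two_ne_zero).1 ?_
    rw [eB, div_le_one vd0, ← vd]
    have e1 : 3 ^ 3 * ι b ^ 2 = ι (dsc a b) - 2 ^ 2 * ι a ^ 3 := by rw [hdm, dsc]; ring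
    have e2 := congrArg L.v e1
    rw [map_mul, map_pow, v3, one_pow, one_mul, map_pow] at e2
    rw [e2]
    refine L.v.map_sub_le le_rfl ?_
    rw [map_mul, map_pow, v2, one_pow, one_mul, map_pow]
    exact hg
  have hodd : Odd m := hm.odd_of_ne_two (by omega)
  obtain ⟨e, he⟩ := good_red L.v g hS hU h2 hodd hmk v2 vm hu0 (hu.trans hdm) hA hB
  have hSσ : ∀ σ ∈ L.D, ∀ z ∈ g.S, σ z ∈ g.S := fun σ hσ z hz =>
    (hS _).2 (by rw [L.inv σ hσ]; exact (hS _).1 hz)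
  have hζS : ∀ σ ∈ L.D, σ u / u ∈ g.S := fun σ hσ =>
    (hS _).2 (by rw [map_div₀, L.inv σ hσ, div_self vu0])
  have hζ12 : ∀ σ ∈ L.D, (σ u / u) ^ 12 = 1 := fun σ hσ => by
    rw [div_pow, ← map_pow, hu, L.le hσ, div_self hd0]
  have hη12 : ∀ σ ∈ L.D, g.f (σ u / u) ^ 12 = 1 := fun σ hσ => by
    rw [← good_spec_pow g (hζS σ hσ), hζ12 σ hσ, g.map_one]
  have key : ∀ σ ∈ L.D, ∀ (z : Ω) (n : ℕ), z / u ^ n ∈ g.S →
      g.f (σ z / u ^ n) = g.f (σ u / u) ^ n * g.f (z / u ^ n) := fun σ hσ z n hz => by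
    have hσu : σ u ≠ 0 := (map_ne_zero σ).2 hu0
    have e1 : σ z / u ^ n = (σ u / u) ^ n * σ (z / u ^ n) := by
      rw [map_div₀, map_pow, div_pow]
      field_simp
    rw [e1, g.map_mul _ (g.S.pow_mem (hζS σ hσ) n) _ (hSσ σ hσ _ hz),
      good_spec_pow g (hζS σ hσ), hinv σ hσ _ hz]
  have hfix : ∀ σ ∈ L.D, σ (ι a) = ι a ∧ σ (ι b) = ι b := fun σ hσ => ⟨L.le hσ a, L.le hσ b⟩
  have hf : ∀ σ ∈ L.D, ∀ P : Tors m (ι a) (ι b),
      xc (e (rho m (ι a) (ι b) σ P)).1 = g.f (σ u / u) ^ 2 * xc (e P).1 ∧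
      yc (e (rho m (ι a) (ι b) σ P)).1 = g.f (σ u / u) ^ 3 * yc (e P).1 :=
    fun σ hσ P => by
      rw [(he _).2.2.1, (he _).2.2.2, (he _).2.2.1, (he _).2.2.2, xc_rho m (hfix σ hσ),
        yc_rho m (hfix σ hσ)]
      exact ⟨key σ hσ _ 2 (he P).1, key σ hσ _ 3 (he P).2.1⟩
  have hf0 : ∀ (σ : RingAut Ω) (P : Tors m (ι a) (ι b)), rho m (ι a) (ι b) σ P = 0 → P = 0 :=
    fun σ P h => Subtype.ext ((galP_eq_zero_iff σ.toRingHom _).1 (congrArg Subtype.val h))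
  have ha4 : ∀ σ ∈ L.D, g.f (σ u / u) ^ 4 * g.f (ι a / u ^ 4) = g.f (ι a / u ^ 4) :=
    fun σ hσ => by rw [← key σ hσ _ 4 ((hS _).2 hA), (hfix σ hσ).1]
  have hb6 : ∀ σ ∈ L.D, g.f (σ u / u) ^ 6 * g.f (ι b / u ^ 6) = g.f (ι b / u ^ 6) :=
    fun σ hσ => by rw [← key σ hσ _ 6 ((hS _).2 hB), (hfix σ hσ).2]
  refine ⟨fun σ hσ => ?_, fun h σ hσ => ?_, fun h σ hσ => ?_, fun h σ hσ => ?_, fun h => ?_⟩
  · ext P
    have := good_fix e _ (hf0 σ) (hf σ hσ) (n := 12)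
      (by rw [mul_comm, pow_mul, hη12 σ hσ, one_pow])
      (by rw [mul_comm, pow_mul, hη12 σ hσ, one_pow]) P
    exact congrArg Subtype.val this
  · have h1 : L.v (ι a / u ^ 4) = 1 := by
      refine (pow_eq_one_iff_of_nonneg zero_le three_ne_zero).1 ?_
      rw [eA, h, vd, div_self vd0.ne']
    have h4 := (hU _ ((hS _).2 hA)).2 h1
    exact good_pm e _ (hf0 σ) (hf σ hσ) (n := 2) (mul_right_cancel₀ h4 (by
      rw [one_mul]; exact ha4 σ hσ))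
  · have h1 : L.v (ι b / u ^ 6) = 1 := by
      refine (pow_eq_one_iff_of_nonneg zero_le two_ne_zero).1 ?_
      rw [eB, h, vd, div_self vd0.ne']
    have h4 := (hU _ ((hS _).2 hB)).2 h1
    exact good_pm e _ (hf0 σ) (hf σ hσ) (n := 3) (mul_right_cancel₀ h4 (by
      rw [one_mul]; exact hb6 σ hσ))
  · obtain ⟨n, hn⟩ := h
    obtain ⟨z, hz, vz⟩ := L.unif
    have h1 : L.v (z ^ n / u ^ 2) = 1 := by
      refine (pow_eq_one_iff_of_nonneg zero_le (by norm_num : 6 ≠ 0)).1 ?_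
      rw [map_div₀, map_pow, map_zpow₀, vz, div_pow, ← pow_mul, ← zpow_natCast, ← zpow_mul,
        mul_comm n, Nat.cast_ofNat, ← hn, vd]
      exact div_self vd0.ne'
    have h4 := (hS _).2 h1.le
    have h7 := key σ hσ _ 2 h4
    rw [map_zpow₀, hz σ hσ] at h7
    have h8 := good_pm e _ (hf0 σ) (hf σ hσ) (n := 1) (mul_right_cancel₀ ((hU _ h4).2 h1) (by
      rw [one_mul]; exact h7.symm))
    rwa [pow_one] at h8
  · by_contra hc
    push Not at hc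
    apply h
    have hdk : dsc (g.f (ι a / u ^ 4)) (g.f (ι b / u ^ 6)) ≠ 0 := by
      have hd1 : dsc (ι a / u ^ 4) (ι b / u ^ 6) = 1 := by
        have hu' := hu.trans hdm
        rw [dsc] at hu' ⊢
        field_simp
        exact hu'.symm
      rw [← good_spec_dsc g ((hS _).2 hA) ((hS _).2 hB), hd1, g.map_one]
      exact one_ne_zero
    have hfx : ∀ σ ∈ L.D, σ (u ^ 2) = u ^ 2 := fun σ hσ => by
      have hη0 : g.f (σ u / u) ≠ 0 := fun h0 => by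
        have := hη12 σ hσ
        rw [h0] at this
        norm_num at this
      have h1 := good_sc e _ (hf σ hσ) h2 hdk hm h5 hmk hη0 (ha4 σ hσ) (hb6 σ hσ) (hc σ hσ)
      have h4 : ((σ u / u) ^ 2 - 1) * (1 + (σ u / u) ^ 2 + (σ u / u) ^ 4 + (σ u / u) ^ 6 +
          (σ u / u) ^ 8 + (σ u / u) ^ 10) = 0 := by
        linear_combination hζ12 σ hσ
      rcases mul_eq_zero.1 h4 with h7 | h7
      · rw [sub_eq_zero, div_pow, div_eq_one_iff_eq (pow_ne_zero 2 hu0)] at h7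
        rw [map_pow, h7]
      · exact absurd (good_spec_geom g (hζS σ hσ) h1 h7) h6
    have hsep : u ^ 2 ∈ sepF ι := mem_sepF_of_pow h6' (by
      rw [← pow_mul, show 2 * 6 = 12 from rfl, hu]; exact range_mem_sepF _)
    obtain ⟨n, hn⟩ := L.fix _ hsep (pow_ne_zero 2 hu0) hfx
    refine ⟨n, ?_⟩
    rw [vd, show 12 = 2 * 6 from rfl, pow_mul, ← map_pow, hn, ← zpow_natCast, ← zpow_mul,
      mul_comm n, Nat.cast_ofNat]

end Pool.Agent.P.MP_a60a76_nt.Fs
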