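import Pool.Agent.P.MP_a60a76_nt.Fs.Defs

namespace Pool.Agent.P.MP_a60a76_nt.Fs

open Polynomial
open scoped NNReal

theorem masonA_rad {k : Type*} [Field k] [IsAlgClosed k] [DecidableEq k] {f : k[X]} (hf : f ≠ 0) :
    (UniqueFactorizationMonoid.radical f).natDegree ≤ f.roots.toFinset.card := by
  have hs : (UniqueFactorizationMonoid.radical f).Separable :=
    PerfectField.separable_iff_squarefree.2 UniqueFactorizationMonoid.squarefree_radical
  rw [← IsAlgClosed.card_roots_eq_natDegree, ← Multiset.toFinset_card_of_nodup (nodup_roots hs)]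
  refine Finset.card_le_card fun x hx => ?_
  rw [Multiset.mem_toFinset] at hx ⊢
  exact Multiset.mem_of_le (roots.le_of_dvd hf UniqueFactorizationMonoid.radical_dvd_self) hx

theorem masonA_sum {k : Type*} [Field k] [IsAlgClosed k] [DecidableEq k] (f : k[X]) :
    f.natDegree = ∑ α ∈ f.roots.toFinset, rootMultiplicity α f := by
  rw [← IsAlgClosed.card_roots_eq_natDegree, ← Multiset.toFinset_sum_count_eq]
  exact Finset.sum_congr rfl fun α _ => count_roots f

theorem masonA_all {k : Type*} [Field k] [IsAlgClosed k] [DecidableEq k] {f : k[X]} (hf : f ≠ 0)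
    {t : ℕ} (h : ∀ α, f.eval α = 0 → t ∣ rootMultiplicity α f) :
    t * f.roots.toFinset.card ≤ f.natDegree ∧ t ∣ f.natDegree := by
  have hr : ∀ α ∈ f.roots.toFinset, f.eval α = 0 := fun α hα =>
    (mem_roots hf).1 (Multiset.mem_toFinset.1 hα)
  rw [masonA_sum f]
  refine ⟨?_, Finset.dvd_sum fun α hα => h α (hr α hα)⟩
  rw [mul_comm, ← smul_eq_mul, ← Finset.sum_const]
  exact Finset.sum_le_sum fun α hα =>
    Nat.le_of_dvd ((rootMultiplicity_pos hf).2 (hr α hα)) (h α (hr α hα))

theorem masonA_der {k : Type*} [Field k] {f : k[X]} (h0 : 0 < f.natDegree)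
    (hn : (f.natDegree : k) ≠ 0) : derivative f ≠ 0 := by
  intro h
  have hf : f ≠ 0 := by rintro rfl; simp at h0
  have h1 := coeff_derivative f (f.natDegree - 1)
  have h2 : f.natDegree - 1 + 1 = f.natDegree := by omega
  rw [h, coeff_zero, h2, ← Nat.cast_add_one, h2] at h1
  exact mul_ne_zero (leadingCoeff_ne_zero.2 hf) hn h1.symm

theorem mason_deg {k : Type*} [Field k] [IsAlgClosed k] (h2 : (2 : k) ≠ 0) (h3 : (3 : k) ≠ 0)
    {A : k} (hA : A ≠ 0) {m : ℕ} (hm : 11 ≤ m) {N D : k[X]} (hc : IsCoprime N D) (hN : N ≠ 0)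
    (hD : D ≠ 0) (hM : 1728 * D - N ≠ 0)
    (hchar : ∀ n : ℕ, 0 < n → n ≤ max N.natDegree D.natDegree → (n : k) ≠ 0)
    (hfin : ∀ α : k, dsc A α ≠ 0 → 3 ∣ rootMultiplicity α N ∧
      2 ∣ rootMultiplicity α (1728 * D - N) ∧ m ∣ rootMultiplicity α D)
    (hroot : ∀ α : k, dsc A α = 0 → D.eval α = 0)
    (hinf : (N.natDegree < D.natDegree ∧ ¬ 3 ∣ D.natDegree - N.natDegree) ∨
      (D.natDegree < N.natDegree ∧ m ∣ N.natDegree - D.natDegree)) :
    (∀ α : k, D.eval α = 0 → dsc A α = 0) ∧
      ((D.natDegree = 2 ∧ N.natDegree = 0) ∨ (D.natDegree = 4 ∧ N.natDegree = 3)) := by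
  classical
  have _ := hA
  have h1728 : (1728 : k) ≠ 0 := by
    rw [show (1728 : k) = 2 ^ 6 * 3 ^ 3 by norm_num]
    exact mul_ne_zero (pow_ne_zero _ h2) (pow_ne_zero _ h3)
  have h27 : (27 : k) ≠ 0 := by
    rw [show (27 : k) = 3 ^ 3 by norm_num]
    exact pow_ne_zero _ h3
  have hC : (1728 : k[X]) = C (1728 : k) := rfl
  rw [hC] at hM hfin
  set M := C (1728 : k) * D - N with hMd
  have hnd : ∀ α, N.eval α = 0 → D.eval α ≠ 0 := by
    intro α h1 h2
    obtain ⟨u, v, huv⟩ := hc
    have := congrArg (eval α) huv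
    simp [h1, h2] at this
  have hNr := masonA_all hN (t := 3) fun α hα =>
    (hfin α fun h => hnd α hα (hroot α h)).1
  have hMr := masonA_all hM (t := 2) fun α hα => (hfin α fun h => by
    have hd := hroot α h
    rw [hMd, eval_sub, eval_mul, hd, mul_zero, zero_sub, neg_eq_zero] at hα
    exact hnd α hα hd).2.1
  set T := D.roots.toFinset.filter fun α => dsc A α = 0 with hT
  set K := D.roots.toFinset.filter fun α => ¬ dsc A α = 0 with hK
  have hTK : T.card + K.card = D.roots.toFinset.card := Finset.card_filter_add_card_filter_not _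
  have hr : ∀ α ∈ D.roots.toFinset, 0 < rootMultiplicity α D := fun α hα =>
    (rootMultiplicity_pos hD).2 ((mem_roots hD).1 (Multiset.mem_toFinset.1 hα))
  have hDd : T.card + 11 * K.card ≤ D.natDegree := by
    rw [masonA_sum D, ← Finset.sum_filter_add_sum_filter_not _ fun α => dsc A α = 0]
    refine add_le_add ?_ ?_
    · rw [Finset.card_eq_sum_ones]
      exact Finset.sum_le_sum fun α hα => hr α (Finset.mem_filter.1 hα).1
    · rw [mul_comm, ← smul_eq_mul, ← Finset.sum_const]
      exact Finset.sum_le_sum fun α hα => hm.trans (Nat.le_of_dvd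
        (hr α (Finset.mem_filter.1 hα).1) (hfin α (Finset.mem_filter.1 hα).2).2.2)
  have hT2 : T.card ≤ 2 := by
    have hq : (C (27 : k) * X ^ 2 + C (4 * A ^ 3)).natDegree = 2 := by
      rw [natDegree_add_C, natDegree_C_mul_X_pow _ _ h27]
    have hq0 : C (27 : k) * X ^ 2 + C (4 * A ^ 3) ≠ 0 := by
      intro h; rw [h] at hq; simp at hq
    calc T.card ≤ (C (27 : k) * X ^ 2 + C (4 * A ^ 3)).roots.toFinset.card := by
          refine Finset.card_le_card fun α hα => ?_
          have h := (Finset.mem_filter.1 hα).2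
          rw [Multiset.mem_toFinset, mem_roots hq0, IsRoot.def]
          simp only [eval_add, eval_mul, eval_C, eval_pow, eval_X]
          rw [← h, dsc]; ring
      _ ≤ _ := Multiset.toFinset_card_le _
      _ ≤ _ := card_roots' _
      _ = 2 := hq
  have hD' : -(C (1728 : k) * D) ≠ 0 := neg_ne_zero.2 (mul_ne_zero (C_ne_zero.2 h1728) hD)
  have hdeg : (C (1728 : k) * D).natDegree = D.natDegree := natDegree_C_mul h1728
  have hcop : IsCoprime N M := by
    have h1 : IsCoprime N (C (1728 : k) * D) :=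
      (isCoprime_mul_unit_left_right (isUnit_C.2 (IsUnit.mk0 _ h1728)) N D).2 hc
    have := h1.add_mul_left_right (-1)
    rwa [mul_neg_one, ← sub_eq_add_neg] at this
  have hrad : (UniqueFactorizationMonoid.radical (N * M * -(C (1728 : k) * D))).natDegree
      ≤ N.roots.toFinset.card + M.roots.toFinset.card + D.roots.toFinset.card := by
    have h0 : N * M ≠ 0 := mul_ne_zero hN hM
    refine (masonA_rad (mul_ne_zero h0 hD')).trans ?_
    rw [roots_mul (mul_ne_zero h0 hD'), roots_mul h0, roots_neg, roots_C_mul _ h1728,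
      Multiset.toFinset_add, Multiset.toFinset_add]
    exact (Finset.card_union_le _ _).trans (Nat.add_le_add_right (Finset.card_union_le _ _) _)
  have habc := Polynomial.abc hN hM hD' hcop (by rw [hMd]; ring)
  rw [natDegree_neg, hdeg] at habc
  have hfinal : K.card = 0 ∧
      ((D.natDegree = 2 ∧ N.natDegree = 0) ∨ (D.natDegree = 4 ∧ N.natDegree = 3)) := by
    rcases hinf with ⟨hlt, h3⟩ | ⟨hlt, hmd⟩
    · have hMdeg : M.natDegree = D.natDegree := by
        rw [hMd, natDegree_sub_eq_left_of_natDegree_lt (by rwa [hdeg]), hdeg]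
      rcases habc with ⟨-, -, h⟩ | ⟨-, -, h⟩
      · rw [hMdeg] at hMr
        omega
      · exfalso
        rw [derivative_neg, derivative_C_mul, neg_eq_zero, mul_eq_zero, C_eq_zero] at h
        exact masonA_der (by omega) (hchar _ (by omega) (le_max_right _ _))
          (h.resolve_left h1728)
    · exfalso
      have hMdeg : M.natDegree = N.natDegree := by
        rw [hMd, natDegree_sub_eq_right_of_natDegree_lt (by rwa [hdeg])]
      have hle := Nat.le_of_dvd (by omega) hmd
      rcases habc with ⟨h, -, -⟩ | ⟨h, -, -⟩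
      · rw [hMdeg] at hMr
        omega
      · exact masonA_der (by omega) (hchar _ (by omega) (le_max_left _ _)) h
  refine ⟨fun α hα => ?_, hfinal.2⟩
  by_contra h
  have : α ∈ K := Finset.mem_filter.2 ⟨Multiset.mem_toFinset.2 ((mem_roots hD).2 hα), h⟩
  rw [Finset.card_eq_zero.1 hfinal.1] at this
  simp at this

end Pool.Agent.P.MP_a60a76_nt.Fs
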