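import Pool.Agent.P.MP_a60a76_nt.Fs.Defs
import Pool.Agent.P.MP_a60a76_nt.Fs.Good
import Pool.Agent.P.MP_a60a76_nt.Fs.Orbit
import Pool.Agent.P.MP_a60a76_nt.Fs.MasonA
import Pool.Agent.P.MP_a60a76_nt.Fs.MasonB
import Pool.Agent.P.MP_a60a76_nt.Fs.GPlace
import Pool.Agent.P.MP_a60a76_nt.Fs.GrpA
import Pool.Agent.P.MP_a60a76_nt.Fs.Count

namespace Pool.Agent.P.MP_a60a76_nt.Fs

open Polynomial
open scoped NNReal

theorem dsc_model {R : Type*} [CommRing R] (n d : R) :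
    dsc (ma n d) (mb n d) = 186624 * n ^ 2 * (1728 * d - n) ^ 3 * d := by
  simp only [dsc, ma, mb]
  ring

section aux

variable {k Ω : Type*} [Field k] [Field Ω] {ι : k[X] →+* Ω}

theorem mis_rho_pow (m : ℕ) (a b : k[X]) {σ : RingAut Ω} (hσ : σ ∈ Aut ι) (n : ℕ) :
    rho m (ι a) (ι b) (σ ^ n) = rho m (ι a) (ι b) σ ^ n := by
  induction n with
  | zero => rw [pow_zero, pow_zero, rho_one]
  | succ n ih =>
    have h : σ ^ n ∈ Aut ι := (Aut ι).pow_mem hσ n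
    rw [pow_succ, pow_succ, rho_mul m ⟨h a, h b⟩ ⟨hσ a, hσ b⟩, ih]

theorem mis_dsc_map (a b : k[X]) : dsc (ι a) (ι b) = ι (dsc a b) := by
  simp [dsc, map_ofNat]

theorem mis_nat_ne (ι : k[X] →+* Ω) {n : ℕ} (hn : (n : k) ≠ 0) : (n : Ω) ≠ 0 := by
  have h : (ι.comp C) (n : k) ≠ 0 := (_root_.map_ne_zero _).2 hn
  rwa [map_natCast] at h

theorem mis_v_nat (L : GLoc ι) {n : ℕ} (hn : (n : k) ≠ 0) : L.v (n : Ω) = 1 := by
  have h := L.const _ hn
  rwa [map_natCast, map_natCast] at h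

theorem mis_pm_one {V : Type*} [AddCommGroup V] : PM (1 : AddMonoid.End V) :=
  Or.inl fun _ => rfl

theorem mis_plane (hι : Clos ι) (h2 : (2 : k) ≠ 0) {m : ℕ} (hmk : (m : k) ≠ 0) {a b : k[X]}
    (hd : dsc a b ≠ 0) : Plane m (Tors m (ι a) (ι b)) := by
  have := hι.closed
  refine plane_tors ?_ ?_ (mis_nat_ne ι hmk)
  · have := mis_nat_ne ι (n := 2) (by exact_mod_cast h2)
    exact_mod_cast this
  · rw [mis_dsc_map]
    exact (map_ne_zero_iff ι hι.inj).2 hd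

/-- A multiplicative place gives an automorphism which is not scalar, nor is its twelfth power. -/
theorem mis_unip (hι : Clos ι) (L : GLoc ι) (h2 : (2 : k) ≠ 0) (h3 : (3 : k) ≠ 0) {m : ℕ}
    (hm : m.Prime) (h5 : 5 ≤ m) (hmk : (m : k) ≠ 0) {a b : k[X]} (ha : a ≠ 0) (hb : b ≠ 0)
    (hd : dsc a b ≠ 0) {n : ℕ} (hn : ¬ m ∣ n)
    (hv : L.v (ι (dsc a b)) = L.v (ι b) ^ 2 * (1 / 2 : ℝ≥0) ^ n) :
    ∃ σ ∈ L.D, ¬ Sc (rho m (ι a) (ι b) σ) ∧ ¬ Sc (rho m (ι a) (ι b) (σ ^ 12)) := by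
  have hb' : ι b ≠ 0 := (map_ne_zero_iff ι hι.inj).2 hb
  have v2 : L.v (2 : Ω) = 1 := by
    have := mis_v_nat L (n := 2) (by exact_mod_cast h2)
    exact_mod_cast this
  have v3 : L.v (3 : Ω) = 1 := by
    have := mis_v_nat L (n := 3) (by exact_mod_cast h3)
    exact_mod_cast this
  have v27 : L.v (27 : Ω) = 1 := by
    rw [show (27 : Ω) = 3 ^ 3 by norm_num, map_pow, v3, one_pow]
  have hvb : L.v (ι b) ≠ 0 := (Valuation.ne_zero_iff _).2 hb'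
  have he : L.v (eps (ι a) (ι b)) = (1 / 2 : ℝ≥0) ^ n := by
    rw [eps, map_div₀, map_mul, map_pow, v27, one_mul, mis_dsc_map, hv]
    field_simp
  have hn0 : n ≠ 0 := by
    rintro rfl
    exact hn (dvd_zero m)
  have hM : Mult L.v m (ι a) (ι b) :=
    { two := v2
      three := v3
      vm := mis_v_nat L hmk
      a0 := (map_ne_zero_iff ι hι.inj).2 ha
      b0 := hb'
      d0 := by
        rw [mis_dsc_map]
        exact (map_ne_zero_iff ι hι.inj).2 hd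
      lt := by
        rw [he]
        exact pow_lt_one₀ (by positivity) (by norm_num) hn0 }
  obtain ⟨σ, hσ, h1, hu⟩ := exists_unip hι L.toLoc hM hm (by omega) he hn
  have hP := mis_plane hι h2 hmk hd
  have hc : Nat.Coprime 12 m := by
    have c2 : Nat.Coprime 2 m := (Nat.coprime_primes Nat.prime_two hm).2 (by omega)
    have c3 : Nat.Coprime 3 m := (Nat.coprime_primes Nat.prime_three hm).2 (by omega)
    exact (c2.mul_left c2).mul_left c3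
  obtain ⟨h1', hu'⟩ := unip_pow h1 hu hc
  refine ⟨σ, hσ, not_sc_of_unip hm hP h1 hu, ?_⟩
  rw [mis_rho_pow m a b (L.le hσ)]
  exact not_sc_of_unip hm hP h1' hu'

theorem mis_half_inj {i : ℕ} {j : ℤ} (h : (1 / 2 : ℝ≥0) ^ i = (1 / 2 : ℝ≥0) ^ j) :
    (i : ℤ) = j := by
  rw [← zpow_natCast] at h
  exact zpow_right_injective₀ (by norm_num) (by norm_num) h

theorem mis_two_half (i : ℕ) : (2 : ℝ≥0) ^ i = (1 / 2 : ℝ≥0) ^ (-(i : ℤ)) := by
  rw [one_div, inv_zpow', neg_neg, zpow_natCast]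

theorem mis_vals (L : GLoc ι) (h2 : (2 : k) ≠ 0) (h3 : (3 : k) ≠ 0) (N D : k[X]) :
    L.v (ι (ma N D)) = L.v (ι N) * L.v (ι (1728 * D - N)) ∧
    L.v (ι (mb N D)) = L.v (ι N) * L.v (ι (1728 * D - N)) ^ 2 ∧
    L.v (ι (dsc (ma N D) (mb N D))) =
      L.v (ι N) ^ 2 * L.v (ι (1728 * D - N)) ^ 3 * L.v (ι D) := by
  have v2 : L.v (ι 2) = 1 := by
    have := mis_v_nat L (n := 2) (by exact_mod_cast h2)
    rw [map_ofNat]
    exact_mod_cast this
  have v3 : L.v (ι 3) = 1 := by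
    have := mis_v_nat L (n := 3) (by exact_mod_cast h3)
    rw [map_ofNat]
    exact_mod_cast this
  refine ⟨?_, ?_, ?_⟩
  · rw [ma, map_mul, map_mul, map_mul, map_mul, v3, one_mul]
  · rw [mb, map_mul, map_mul, map_mul, map_mul, v2, one_mul, map_pow, map_pow]
  · rw [dsc_model, show (186624 : k[X]) = 2 ^ 8 * 3 ^ 6 by norm_num]
    simp only [map_mul, map_pow, v2, v3, one_pow, one_mul]

theorem mis_model_ne (h2 : (2 : k) ≠ 0) (h3 : (3 : k) ≠ 0) {N D : k[X]} (hN : N ≠ 0) (hD : D ≠ 0)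
    (hM : 1728 * D - N ≠ 0) :
    ma N D ≠ 0 ∧ mb N D ≠ 0 ∧ dsc (ma N D) (mb N D) ≠ 0 := by
  have c2 : (2 : k[X]) ≠ 0 := by
    rw [show (2 : k[X]) = C 2 from rfl]
    exact C_ne_zero.2 h2
  have c3 : (3 : k[X]) ≠ 0 := by
    rw [show (3 : k[X]) = C 3 from rfl]
    exact C_ne_zero.2 h3
  refine ⟨mul_ne_zero (mul_ne_zero c3 hN) hM, mul_ne_zero (mul_ne_zero c2 hN) (pow_ne_zero _ hM),
    ?_⟩
  rw [dsc_model, show (186624 : k[X]) = 2 ^ 8 * 3 ^ 6 by norm_num]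
  exact mul_ne_zero (mul_ne_zero (mul_ne_zero (mul_ne_zero (pow_ne_zero _ c2) (pow_ne_zero _ c3))
    (pow_ne_zero _ hN)) (pow_ne_zero _ hM)) hD

theorem mis_dsc_one (A : k) : dsc (C A) (X : k[X]) = C 27 * X ^ 2 + C (4 * A ^ 3) := by
  simp only [dsc, map_mul, map_pow, map_ofNat]
  ring

theorem mis_27 (h3 : (3 : k) ≠ 0) : (27 : k) ≠ 0 := by
  rw [show (27 : k) = 3 ^ 3 by norm_num]
  exact pow_ne_zero _ h3

theorem mis_dsc_one_deg (h3 : (3 : k) ≠ 0) (A : k) : (dsc (C A) (X : k[X])).natDegree = 2 := by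
  rw [mis_dsc_one, natDegree_add_C, natDegree_C_mul_X_pow _ _ (mis_27 h3)]

theorem mis_dsc_one_ne (h3 : (3 : k) ≠ 0) (A : k) : dsc (C A) (X : k[X]) ≠ 0 := by
  intro h
  have := mis_dsc_one_deg h3 A
  rw [h, natDegree_zero] at this
  omega

theorem mis_dsc_one_eval (A α : k) : (dsc (C A) (X : k[X])).eval α = dsc A α := by
  simp [dsc]

theorem mis_dsc_one_mult (h2 : (2 : k) ≠ 0) (h3 : (3 : k) ≠ 0) {A α : k} (hα : α ≠ 0)
    (h : dsc A α = 0) : rootMultiplicity α (dsc (C A) (X : k[X])) = 1 := by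
  have e : dsc (C A) (X : k[X]) = (X - C α) * (C 27 * (X + C α)) := by
    have h' : (4 * A ^ 3 : k) = -(27 * α ^ 2) := by
      rw [dsc] at h
      linear_combination h
    rw [mis_dsc_one, h']
    simp only [map_neg, map_mul, map_pow, map_ofNat]
    ring
  have hne := mis_dsc_one_ne h3 A
  rw [e] at hne ⊢
  rw [rootMultiplicity_mul hne, rootMultiplicity_X_sub_C_self, rootMultiplicity_eq_zero]
  simp only [IsRoot.def, eval_mul, eval_C, eval_add, eval_X]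
  refine mul_ne_zero (mis_27 h3) ?_
  rw [← two_mul]
  exact mul_ne_zero h2 hα

end aux

section places

variable {k Ω : Type*} [Field k] [IsAlgClosed k] [Field Ω] {ι : k[X] →+* Ω}

theorem mis_fin (hι : Clos ι) (h2 : (2 : k) ≠ 0) (h3 : (3 : k) ≠ 0) {m : ℕ} (hm : m.Prime)
    (h5 : 5 ≤ m) (hmk : (m : k) ≠ 0) {A : k} (hA : A ≠ 0) {N D : k[X]} (hc : IsCoprime N D)
    (hN : N ≠ 0) (hD : D ≠ 0) (hM : 1728 * D - N ≠ 0)
    (h21 : ¬ Mis ι m (ι (ma N D)) (ι (mb N D)) (ι (C A)) (ι X)) (α : k) (hα : dsc A α ≠ 0) :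
    3 ∣ rootMultiplicity α N ∧ 2 ∣ rootMultiplicity α (1728 * D - N) ∧
      m ∣ rootMultiplicity α D := by
  obtain ⟨L, hL⟩ := exists_gloc_fin hι α
  obtain ⟨ha2, hb2, hd2⟩ := mis_model_ne h2 h3 hN hD hM
  obtain ⟨va, vb, vd⟩ := mis_vals L h2 h3 N D
  have hd1 := mis_dsc_one_ne h3 A
  have vd1 : L.v (ι (dsc (C A) X)) = 1 := by
    rw [hL _ hd1, rootMultiplicity_eq_zero, pow_zero]
    rwa [IsRoot.def, mis_dsc_one_eval]
  have hPM := (good_place hι L h2 h3 hm h5 hmk hd1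
    (by rw [vd1, L.const A hA, one_pow])).2.2.2.1 ⟨0, by rw [vd1]; simp⟩
  have hSc : ∀ σ ∈ L.D, Sc (rho m (ι (ma N D)) (ι (mb N D)) σ) := fun σ hσ => by
    by_contra h
    exact h21 ⟨σ, L.le hσ, h, hPM σ hσ⟩
  rw [hL _ hN, hL _ hM] at va vb
  rw [hL _ hN, hL _ hM, hL _ hD] at vd
  by_cases hδ : D.IsRoot α
  · have hNα : ¬ N.IsRoot α := fun h => by
      obtain ⟨u, w, huw⟩ := hc
      have := congrArg (eval α) huw
      rw [eval_add, eval_mul, eval_mul, h, hδ] at this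
      simp at this
    have hMα : ¬ (1728 * D - N).IsRoot α := fun h => by
      rw [IsRoot.def, eval_sub, eval_mul, hδ, mul_zero, zero_sub, neg_eq_zero] at h
      exact hNα h
    rw [rootMultiplicity_eq_zero hNα, rootMultiplicity_eq_zero hMα] at *
    refine ⟨dvd_zero _, dvd_zero _, ?_⟩
    by_contra hn
    obtain ⟨σ, hσ, h, -⟩ := mis_unip hι L h2 h3 hm h5 hmk ha2 hb2 hd2 hn (by rw [vd, vb]; simp)
    exact h (hSc σ hσ)
  · rw [rootMultiplicity_eq_zero hδ] at *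
    set n := rootMultiplicity α N
    set μ := rootMultiplicity α (1728 * D - N)
    have vd' : L.v (ι (dsc (ma N D) (mb N D))) = (1 / 2 : ℝ≥0) ^ (2 * n + 3 * μ) := by
      rw [vd]; ring
    have hg : L.v (ι (ma N D)) ^ 3 ≤ L.v (ι (dsc (ma N D) (mb N D))) := by
      rw [vd', va, ← pow_add, ← pow_mul]
      exact pow_le_pow_of_le_one (by positivity) (by norm_num) (by omega)
    have h6 : ∃ j : ℤ, L.v (ι (dsc (ma N D) (mb N D))) = (1 / 2 : ℝ≥0) ^ (6 * j) := by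
      by_contra h
      obtain ⟨σ, hσ, h⟩ := (good_place hι L h2 h3 hm h5 hmk hd2 hg).2.2.2.2 h
      exact h (hSc σ hσ)
    obtain ⟨j, hj⟩ := h6
    have := mis_half_inj (vd'.symm.trans hj)
    push_cast at this
    exact ⟨by omega, by omega, dvd_zero _⟩

theorem mis_root (hι : Clos ι) (h2 : (2 : k) ≠ 0) (h3 : (3 : k) ≠ 0) {m : ℕ} (hm : m.Prime)
    (h5 : 5 ≤ m) (hmk : (m : k) ≠ 0) {A : k} (hA : A ≠ 0) {N D : k[X]}
    (hN : N ≠ 0) (hD : D ≠ 0) (hM : 1728 * D - N ≠ 0)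
    (h12 : ¬ Mis ι m (ι (C A)) (ι X) (ι (ma N D)) (ι (mb N D))) (α : k) (hα : dsc A α = 0) :
    D.eval α = 0 := by
  by_contra hδ
  obtain ⟨L, hL⟩ := exists_gloc_fin hι α
  obtain ⟨ha2, hb2, hd2⟩ := mis_model_ne h2 h3 hN hD hM
  obtain ⟨va, vb, vd⟩ := mis_vals L h2 h3 N D
  have hd1 := mis_dsc_one_ne h3 A
  have hα0 : α ≠ 0 := by
    rintro rfl
    apply hA
    have h4 : (4 : k) ≠ 0 := by
      rw [show (4 : k) = 2 ^ 2 by norm_num]
      exact pow_ne_zero _ h2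
    simpa [dsc, h4] using hα
  rw [hL _ hN, hL _ hM] at va
  rw [hL _ hN, hL _ hM, hL _ hD, rootMultiplicity_eq_zero (p := D) hδ] at vd
  have hg : L.v (ι (ma N D)) ^ 3 ≤ L.v (ι (dsc (ma N D) (mb N D))) := by
    rw [vd, va, ← pow_add, ← pow_mul, ← pow_mul, ← pow_mul, ← pow_add, ← pow_add]
    exact pow_le_pow_of_le_one (by positivity) (by norm_num) (by omega)
  have h12' := (good_place hι L h2 h3 hm h5 hmk hd2 hg).1
  have vX : L.v (ι X) = 1 := by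
    rw [hL _ X_ne_zero, rootMultiplicity_eq_zero, pow_zero]
    simpa using hα0
  obtain ⟨σ, hσ, -, h⟩ := mis_unip hι L h2 h3 hm h5 hmk (C_ne_zero.2 hA) X_ne_zero hd1 (n := 1)
    (fun h => by have := Nat.le_of_dvd one_pos h; omega)
    (by rw [vX, hL _ hd1, mis_dsc_one_mult h2 h3 hα0 hα, one_pow, one_mul])
  refine h12 ⟨σ ^ 12, (Aut ι).pow_mem (L.le hσ) _, h, ?_⟩
  rw [mis_rho_pow m _ _ (L.le hσ), h12' σ hσ]
  exact mis_pm_one

theorem mis_inf (hι : Clos ι) (h2 : (2 : k) ≠ 0) (h3 : (3 : k) ≠ 0) {m : ℕ} (hm : m.Prime)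
    (h5 : 5 ≤ m) (hmk : (m : k) ≠ 0) {A : k} (hA : A ≠ 0) {N D : k[X]}
    (hN : N ≠ 0) (hD : D ≠ 0) (hM : 1728 * D - N ≠ 0)
    (h12 : ¬ Mis ι m (ι (C A)) (ι X) (ι (ma N D)) (ι (mb N D)))
    (h21 : 0 < max N.natDegree D.natDegree →
      ¬ Mis ι m (ι (ma N D)) (ι (mb N D)) (ι (C A)) (ι X)) :
    (N.natDegree < D.natDegree ∧ ¬ 3 ∣ D.natDegree - N.natDegree) ∨
      (D.natDegree < N.natDegree ∧ m ∣ N.natDegree - D.natDegree) := by
  obtain ⟨L, hL⟩ := exists_gloc_inf hι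
  obtain ⟨ha2, hb2, hd2⟩ := mis_model_ne h2 h3 hN hD hM
  obtain ⟨va, vb, vd⟩ := mis_vals L h2 h3 N D
  have hd1 := mis_dsc_one_ne h3 A
  have vd1 : L.v (ι (dsc (C A) X)) = 2 ^ 2 := by rw [hL _ hd1, mis_dsc_one_deg h3]
  have vX : L.v (ι X) = 2 := by rw [hL _ X_ne_zero, natDegree_X, pow_one]
  obtain ⟨g12, -, g3, -, g5⟩ := good_place hι L h2 h3 hm h5 hmk hd1
    (by rw [vd1, L.const A hA]; norm_num)
  have g3' := g3 (by rw [vX, vd1])
  obtain ⟨σ0, hσ0, hs0⟩ := g5 (by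
    rintro ⟨j, hj⟩
    rw [vd1, mis_two_half] at hj
    have := zpow_right_injective₀ (by norm_num) (by norm_num) hj
    push_cast at this
    omega)
  have hs2 : ¬ Sc (rho m (ι (C A)) (ι X) σ0 ^ 2) := fun h =>
    hs0 (sc_of_pm_pow hm (mis_plane hι h2 hmk hd1) (by norm_num) (g3' σ0 hσ0) (by norm_num) h)
  have c1728 : (1728 : k) ≠ 0 := by
    rw [show (1728 : k) = 2 ^ 6 * 3 ^ 3 by norm_num]
    exact mul_ne_zero (pow_ne_zero _ h2) (pow_ne_zero _ h3)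
  have dD : (1728 * D).natDegree = D.natDegree := by
    rw [show (1728 : k[X]) = C 1728 from rfl, natDegree_C_mul c1728]
  rw [hL _ hN, hL _ hM] at va vb
  rw [hL _ hN, hL _ hM, hL _ hD] at vd
  rcases lt_trichotomy N.natDegree D.natDegree with hlt | heq | hgt
  · refine Or.inl ⟨hlt, fun ⟨t, ht⟩ => ?_⟩
    have dM : (1728 * D - N).natDegree = D.natDegree := by
      rw [natDegree_sub_eq_left_of_natDegree_lt (by rwa [dD]), dD]
    rw [dM] at va vd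
    have vd' : L.v (ι (dsc (ma N D) (mb N D))) = (2 : ℝ≥0) ^ (6 * (N.natDegree + 2 * t)) := by
      rw [vd, show D.natDegree = N.natDegree + 3 * t by omega]; ring
    have hg : L.v (ι (ma N D)) ^ 3 ≤ L.v (ι (dsc (ma N D) (mb N D))) := by
      rw [vd', va, ← pow_add, ← pow_mul]
      exact pow_le_pow_right₀ (by norm_num) (by omega)
    have := (good_place hι L h2 h3 hm h5 hmk hd2 hg).2.2.2.1
      ⟨-((N.natDegree + 2 * t : ℕ) : ℤ), by rw [vd', mis_two_half]; congr 1; push_cast; ring⟩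
    exact h12 ⟨σ0, L.le hσ0, hs0, this σ0 hσ0⟩
  · exfalso
    have hg : L.v (ι (ma N D)) ^ 3 = L.v (ι (dsc (ma N D) (mb N D))) := by
      rw [vd, va, heq]; ring
    have := (good_place hι L h2 h3 hm h5 hmk hd2 hg.le).2.1 hg σ0 hσ0
    refine h12 ⟨σ0 ^ 2, (Aut ι).pow_mem (L.le hσ0) _, ?_, ?_⟩
    · rwa [mis_rho_pow m _ _ (L.le hσ0)]
    · rwa [mis_rho_pow m _ _ (L.le hσ0)]
  · refine Or.inr ⟨hgt, ?_⟩
    by_contra hn
    have dM : (1728 * D - N).natDegree = N.natDegree :=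
      natDegree_sub_eq_right_of_natDegree_lt (by rwa [dD])
    rw [dM] at vb vd
    obtain ⟨t, ht⟩ : ∃ t, N.natDegree = D.natDegree + t := ⟨_, (Nat.add_sub_cancel' hgt.le).symm⟩
    rw [ht, Nat.add_sub_cancel_left] at hn
    obtain ⟨σ, hσ, -, h⟩ := mis_unip hι L h2 h3 hm h5 hmk ha2 hb2 hd2 hn (by
      rw [vd, vb, ht, one_div, inv_pow]
      field_simp
      ring)
    refine h21 (by omega) ⟨σ ^ 12, (Aut ι).pow_mem (L.le hσ) _, h, ?_⟩
    rw [mis_rho_pow m _ _ (L.le hσ), g12 σ hσ]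
    exact mis_pm_one

end places

theorem mis_or {k Ω : Type*} [Field k] [IsAlgClosed k] [Field Ω] {ι : k[X] →+* Ω} (hι : Clos ι)
    (h2 : (2 : k) ≠ 0) (h3 : (3 : k) ≠ 0) {m : ℕ} (hm : m.Prime) (h11 : 11 ≤ m)
    (hmk : (m : k) ≠ 0) {A : k} (hA : A ≠ 0) {N D : k[X]} (hc : IsCoprime N D) (hN : N ≠ 0)
    (hD : D ≠ 0) (hM : 1728 * D - N ≠ 0)
    (hchar : ∀ n : ℕ, 0 < n → n ≤ max N.natDegree D.natDegree → (n : k) ≠ 0)
    (h1 : N * dsc (C A) X ≠ C (6912 * A ^ 3) * D) (hexc : exc A N D ≠ 0) :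
    Mis ι m (ι (C A)) (ι X) (ι (ma N D)) (ι (mb N D)) ∨
      (0 < max N.natDegree D.natDegree ∧ Mis ι m (ι (ma N D)) (ι (mb N D)) (ι (C A)) (ι X)) := by
  by_contra hcon
  rw [not_or, not_and] at hcon
  obtain ⟨h12, h21⟩ := hcon
  have h5 : 5 ≤ m := by omega
  have hinf := mis_inf hι h2 h3 hm h5 hmk hA hN hD hM h12 h21
  have hpos : 0 < max N.natDegree D.natDegree := by omega
  have hfin := mis_fin hι h2 h3 hm h5 hmk hA hc hN hD hM (h21 hpos)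
  have hroot := mis_root hι h2 h3 hm h5 hmk hA hN hD hM h12
  obtain ⟨hr, hdeg⟩ := mason_deg h2 h3 hA h11 hc hN hD hM hchar hfin hroot hinf
  rcases mason_small h2 h3 hA hc hN hD (fun α hα => ⟨(hfin α hα).1, (hfin α hα).2.1⟩)
    (fun α => ⟨hroot α, hr α⟩) hdeg with h | h
  · exact h1 h
  · exact hexc h

end Pool.Agent.P.MP_a60a76_nt.Fs
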