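import Pool.Agent.P.MP_a60a76_nt.Fs.Defs
import Pool.Agent.P.MP_a60a76_nt.Fs.ChConst
import Pool.Agent.P.MP_a60a76_nt.Fs.Mis

namespace Pool.Agent.P.MP_a60a76_nt.Fs

open Polynomial
open scoped NNReal

theorem chGraph_cast (l : ℕ) [Fact l.Prime] {n : ℕ} (h0 : 0 < n) (h : n < l) :
    (n : ZMod l) ≠ 0 := by
  rw [Ne, ZMod.natCast_eq_zero_iff]
  exact Nat.not_dvd_of_pos_of_lt h0 h

theorem chGraph_castFb (l : ℕ) [Fact l.Prime] {n : ℕ} (h0 : 0 < n) (h : n < l) :
    (n : Fb l) ≠ 0 := by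
  have := (_root_.map_ne_zero (up l)).2 (chGraph_cast l h0 h)
  rwa [map_natCast] at this

theorem chGraph_map_dsc {R S : Type*} [CommRing R] [CommRing S] (φ : R →+* S) (a b : R) :
    φ (dsc a b) = dsc (φ a) (φ b) := by
  simp [dsc, map_ofNat]

theorem chGraph_map_ma {R S : Type*} [CommRing R] [CommRing S] (φ : R →+* S) (a b : R) :
    φ (ma a b) = ma (φ a) (φ b) := by
  simp [ma, map_ofNat]

theorem chGraph_map_mb {R S : Type*} [CommRing R] [CommRing S] (φ : R →+* S) (a b : R) :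
    φ (mb a b) = mb (φ a) (φ b) := by
  simp [mb, map_ofNat]

theorem chGraph_intertw (l : ℕ) [Fact l.Prime] (hl : 5 ≤ l) {m : ℕ} (hm : m.Prime) (hml : m < l)
    {a1 b1 a2 b2 : ZMod l} (hd1 : dsc a1 b1 ≠ 0) (hd2 : dsc a2 b2 ≠ 0) (h : Mat l a1 b1 a2 b2)
    (h1 : ¬ Sc (frobT l m a1 b1)) (h2 : ¬ Sc (frobT l m a2 b2)) :
    (m - 1) ^ 2 ≤ Nat.card {ψ : Tors m (up l a1) (up l b1) ≃+ Tors m (up l a2) (up l b2) //
      Eqv (frobT l m a1 b1) (frobT l m a2 b2) ψ} := by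
  have c2 : (2 : Fb l) ≠ 0 := by exact_mod_cast chGraph_castFb l (n := 2) (by omega) (by omega)
  have cm : (m : Fb l) ≠ 0 := chGraph_castFb l hm.pos hml
  have d1 : dsc (up l a1) (up l b1) ≠ 0 := by
    rw [← chGraph_map_dsc]; exact (_root_.map_ne_zero _).2 hd1
  have d2 : dsc (up l a2) (up l b2) ≠ 0 := by
    rw [← chGraph_map_dsc]; exact (_root_.map_ne_zero _).2 hd2
  have p1 := plane_tors c2 d1 cm
  have p2 := plane_tors c2 d2 cm
  have := finite_tors c2 d1 cm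
  have := finite_tors c2 d2 cm
  have : Finite (Tors m (up l a1) (up l b1) ≃+ Tors m (up l a2) (up l b2)) :=
    Finite.of_injective (fun ψ => (ψ : _ → _)) DFunLike.coe_injective
  have r1 := frobT_rel l hl m hd1
  have r2 := frobT_rel l hl m hd2
  rcases h with h | h
  · refine (card_intertw hm p1 p2 _ _ (tr l a1 b1) l (fun v => by simpa using r1 v)
      (fun v => by rw [h]; simpa using r2 v) h1 h2).trans ?_
    exact Nat.card_le_card_of_injective (fun ψ => ⟨ψ.1, Or.inl ψ.2⟩)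
      (fun ψ ψ' e => Subtype.ext (Subtype.mk.inj e))
  · refine (card_intertw hm p1 p2 _ (-frobT l m a2 b2) (tr l a1 b1) l
      (fun v => by simpa using r1 v) (fun v => ?_) h1 ?_).trans ?_
    · have := r2 v
      change -(frobT l m a2 b2 (-(frobT l m a2 b2 v))) - _ • (-(frobT l m a2 b2 v)) + _ = 0
      rw [h, map_neg, neg_neg, neg_smul_neg, natCast_zsmul]
      exact this
    · rintro ⟨n, hn⟩
      refine h2 ⟨-n, fun v => ?_⟩
      have : -(frobT l m a2 b2 v) = n • v := hn v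
      rw [neg_smul, ← this, neg_neg]
    · exact Nat.card_le_card_of_injective (fun ψ => ⟨ψ.1, Or.inr ψ.2⟩)
        (fun ψ ψ' e => Subtype.ext (Subtype.mk.inj e))

theorem chGraph_big (l : ℕ) [Fact l.Prime] {m : ℕ} (hm : m.Prime) (h11 : 11 ≤ m) (hml : m < l)
    {A : ZMod l} (hA : A ≠ 0) {N D : (ZMod l)[X]} (hc : IsCoprime N D) (hN : N ≠ 0) (hD : D ≠ 0)
    (hM : 1728 * D - N ≠ 0) (h0 : 0 < max N.natDegree D.natDegree)
    (hlt : max N.natDegree D.natDegree < m)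
    (h1 : N * dsc (C A) X ≠ C (6912 * A ^ 3) * D) (hexc : exc A N D ≠ 0) :
    ∃ ι : (ZMod l)[X] →+* AlgebraicClosure (RatFunc (Fb l)), Clos ι ∧
      Big ι m (ι (C A)) (ι X) (ι (ma N D)) (ι (mb N D)) (m * (m ^ 2 - 1) / 2) := by
  obtain ⟨ι0, hι0⟩ := exists_clos (Fb l)
  refine ⟨ι0.comp (mapRingHom (up l)), clos_comp (clos_Fb l) hι0, ?_⟩
  have c2 : (2 : Fb l) ≠ 0 := by exact_mod_cast chGraph_castFb l (n := 2) (by omega) (by omega)
  have c3 : (3 : Fb l) ≠ 0 := by exact_mod_cast chGraph_castFb l (n := 3) (by omega) (by omega)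
  have cm : (m : Fb l) ≠ 0 := chGraph_castFb l hm.pos hml
  have hinj : Function.Injective (mapRingHom (up l)) := map_injective _ (up l).injective
  set N' := N.map (up l) with hN'
  set D' := D.map (up l) with hD'
  have hA' : up l A ≠ 0 := (_root_.map_ne_zero _).2 hA
  have e1 : (ι0.comp (mapRingHom (up l))) (C A) = ι0 (C (up l A)) := by simp
  have e2 : (ι0.comp (mapRingHom (up l))) X = ι0 X := by simp
  have e3 : (ι0.comp (mapRingHom (up l))) (ma N D) = ι0 (ma N' D') := by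
    rw [RingHom.comp_apply, chGraph_map_ma]; rfl
  have e4 : (ι0.comp (mapRingHom (up l))) (mb N D) = ι0 (mb N' D') := by
    rw [RingHom.comp_apply, chGraph_map_mb]; rfl
  rw [e1, e2, e3, e4]
  apply big_comp
  have hc' : IsCoprime N' D' := hc.map (mapRingHom (up l))
  have hN0 : N' ≠ 0 := Polynomial.map_ne_zero hN
  have hD0 : D' ≠ 0 := Polynomial.map_ne_zero hD
  have hM0 : 1728 * D' - N' ≠ 0 := by
    have := Polynomial.map_ne_zero (f := up l) hM
    simpa [Polynomial.map_sub, Polynomial.map_mul] using this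
  have dN : N'.natDegree = N.natDegree := natDegree_map _
  have dD : D'.natDegree = D.natDegree := natDegree_map _
  have h1' : N' * dsc (C (up l A)) X ≠ C (6912 * up l A ^ 3) * D' := by
    intro h
    apply h1
    apply hinj
    rw [map_mul, map_mul, chGraph_map_dsc]
    simpa [map_ofNat] using h
  have hexc' : exc (up l A) N' D' ≠ 0 := by
    rw [hN', hD', ← exc_map]; exact Polynomial.map_ne_zero hexc
  have J1 : JDeg m (C (up l A)) (X : (Fb l)[X]) := jdeg_one c2 c3 (by omega) hA'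
  have J2 : JDeg m (ma N' D') (mb N' D') :=
    jdeg_model c2 c3 hc' hN0 hD0 hM0 (by rw [dN, dD]; exact h0) (by rw [dN, dD]; exact hlt)
  have := hι0.closed
  have c2' : (2 : AlgebraicClosure (RatFunc (Fb l))) ≠ 0 := by
    have := (_root_.map_ne_zero (ι0.comp C)).2 c2
    rwa [map_ofNat] at this
  have cm' : (m : AlgebraicClosure (RatFunc (Fb l))) ≠ 0 := by
    have := (_root_.map_ne_zero (ι0.comp C)).2 cm
    rwa [map_natCast] at this
  have pl : ∀ a b : (Fb l)[X], dsc a b ≠ 0 → Plane m (Tors m (ι0 a) (ι0 b)) := by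
    intro a b hd
    refine plane_tors c2' ?_ cm'
    rw [← chGraph_map_dsc]
    exact (map_ne_zero_iff _ hι0.inj).2 hd
  rcases mis_or hι0 c2 c3 hm h11 cm hA' hc' hN0 hD0 hM0
    (fun n hn hn' => chGraph_castFb l hn (by rw [dN, dD] at hn'; omega)) h1' hexc' with h | ⟨-, h⟩
  · exact (big_of_mon hm (by omega) (pl _ _ J1.2.2.1)
      (mon_of_deg hι0 c2 c3 hm (by omega) cm J1) h).1
  · exact (big_of_mon hm (by omega) (pl _ _ J2.2.2.1)
      (mon_of_deg hι0 c2 c3 hm (by omega) cm J2) h).2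

theorem chGraph_num {m l s : ℕ} (h11 : 11 ≤ m) (hl : m ^ 23 < l)
    (h : (m - 1) ^ 2 * s ≤ 18 * m * l + (m - 1) ^ 2 * (m * m ^ 11)) : m * s ≤ 30 * l := by
  obtain ⟨k, rfl⟩ : ∃ k, m = k + 1 := ⟨m - 1, by omega⟩
  simp only [Nat.add_sub_cancel] at h
  have hk : 10 ≤ k := by omega
  have h13 : (k + 1) * ((k + 1) * (k + 1) ^ 11) ≤ l := by
    have : (k + 1) * ((k + 1) * (k + 1) ^ 11) = (k + 1) ^ 13 := by ring
    rw [this]
    exact (Nat.pow_le_pow_right (by omega) (by omega)).trans hl.le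
  have h2 : 18 * (k + 1) * (k + 1) ≤ 29 * k ^ 2 := by nlinarith
  have h3 : k ^ 2 * ((k + 1) * s) ≤ k ^ 2 * (30 * l) := by
    calc k ^ 2 * ((k + 1) * s) = (k + 1) * (k ^ 2 * s) := by ring
      _ ≤ (k + 1) * (18 * (k + 1) * l + k ^ 2 * ((k + 1) * (k + 1) ^ 11)) :=
        Nat.mul_le_mul_left _ h
      _ = 18 * (k + 1) * (k + 1) * l + k ^ 2 * ((k + 1) * ((k + 1) * (k + 1) ^ 11)) := by ring
      _ ≤ 29 * k ^ 2 * l + k ^ 2 * l :=
        Nat.add_le_add (Nat.mul_le_mul_right _ h2) (Nat.mul_le_mul_left _ h13)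
      _ = k ^ 2 * (30 * l) := by ring
  exact Nat.le_of_mul_le_mul_left h3 (by positivity)

theorem chGraph_coprime (l : ℕ) [Fact l.Prime] {m : ℕ} (hm : m.Prime) (h11 : 11 ≤ m)
    (hl : m ^ 23 < l) {A : ZMod l} (hA : A ≠ 0) {N D : (ZMod l)[X]} (hc : IsCoprime N D)
    (hdN : N.natDegree < m) (hdD : D.natDegree < m) (hN : N ≠ 0) (hD : D ≠ 0)
    (hM : 1728 * D - N ≠ 0) (h1 : N * dsc (C A) X ≠ C (6912 * A ^ 3) * D) (hexc : exc A N D ≠ 0)
    (S : Finset (ZMod l))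
    (hS : ∀ x ∈ S, dsc A x ≠ 0 ∧ D.eval x ≠ 0 ∧ ∃ c, c * D.eval x = N.eval x ∧ c ≠ 0 ∧ c ≠ 1728 ∧
      Mat l A x (ma c 1) (mb c 1)) : m * S.card ≤ 300 * l := by
  classical
  have hml : m < l := lt_of_le_of_lt (Nat.le_self_pow (by omega) m) hl
  have hl5 : 5 ≤ l := by omega
  have c2 : (2 : ZMod l) ≠ 0 := by exact_mod_cast chGraph_cast l (n := 2) (by omega) (by omega)
  have c3 : (3 : ZMod l) ≠ 0 := by exact_mod_cast chGraph_cast l (n := 3) (by omega) (by omega)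
  have hl1 : 1 ^ 2 * m ^ 21 < l := by
    rw [one_pow, one_mul]
    exact lt_of_le_of_lt (Nat.pow_le_pow_right hm.pos (by omega)) hl
  have hl2 : m ^ 2 * m ^ 21 < l := by rw [← pow_add]; exact hl
  have J1 : JDeg m (C A) (X : (ZMod l)[X]) := jdeg_one c2 c3 (by omega) hA
  have hmod : ∀ c : ZMod l, c ≠ 0 → c ≠ 1728 → dsc (ma c 1) (mb c 1) ≠ 0 := by
    intro c h0 h1
    rw [dsc_model]
    have : (186624 : ZMod l) = 2 ^ 8 * 3 ^ 6 := by norm_num
    rw [this]
    have h2 : 1728 * 1 - c ≠ 0 := by rw [mul_one]; exact sub_ne_zero.2 h1.symm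
    simp only [ne_eq, mul_eq_zero, not_or]
    exact ⟨⟨⟨⟨pow_ne_zero _ c2, pow_ne_zero _ c3⟩, pow_ne_zero _ h0⟩, pow_ne_zero _ h2⟩,
      one_ne_zero⟩
  by_cases h0 : max N.natDegree D.natDegree = 0
  · have hN0 : N.natDegree = 0 := by omega
    have hD0 : D.natDegree = 0 := by omega
    obtain ⟨n0, rfl⟩ := natDegree_eq_zero.1 hN0
    obtain ⟨d0, rfl⟩ := natDegree_eq_zero.1 hD0
    refine (ch_const l hm (by omega) one_pos hl1 (by simp) (by simp) J1
      (tr l (ma (n0 / d0) 1) (mb (n0 / d0) 1)) S fun x hx => ?_).trans (by omega)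
    obtain ⟨h2, h3, c, h4, -, -, h5⟩ := hS x hx
    simp only [eval_C, eval_X] at h3 h4 ⊢
    have : c = n0 / d0 := by rw [← h4]; field_simp
    subst this
    exact ⟨h2, h5⟩
  have h0' : 0 < max N.natDegree D.natDegree := Nat.pos_of_ne_zero h0
  have hlt : max N.natDegree D.natDegree < m := max_lt hdN hdD
  have J2 : JDeg m (ma N D) (mb N D) := jdeg_model c2 c3 hc hN hD hM h0' hlt
  have dM : (1728 * D - N).natDegree ≤ m := by
    refine (natDegree_sub_le _ _).trans (max_le (natDegree_mul_le.trans ?_) hdN.le)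
    have : (1728 : (ZMod l)[X]).natDegree = 0 := natDegree_ofNat _
    omega
  have da : (ma N D).natDegree ≤ 2 * m := by
    unfold ma
    refine natDegree_mul_le.trans ((Nat.add_le_add natDegree_mul_le dM).trans ?_)
    have : (3 : (ZMod l)[X]).natDegree = 0 := natDegree_ofNat _
    omega
  have db : (mb N D).natDegree ≤ 3 * m := by
    unfold mb
    refine natDegree_mul_le.trans
      ((Nat.add_le_add natDegree_mul_le (natDegree_pow_le.trans (Nat.mul_le_mul_left _ dM))).trans ?_)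
    have : (2 : (ZMod l)[X]).natDegree = 0 := natDegree_ofNat _
    omega
  have key : ∀ x ∈ S, dsc ((C A).eval x) (X.eval x) ≠ 0 ∧
      dsc ((ma N D).eval x) ((mb N D).eval x) ≠ 0 ∧
      Mat l ((C A).eval x) (X.eval x) ((ma N D).eval x) ((mb N D).eval x) := by
    intro x hx
    obtain ⟨h2, h3, c, h4, h5, h6, h7⟩ := hS x hx
    have ea : (ma N D).eval x = D.eval x ^ 2 * ma c 1 := by
      simp only [ma, eval_mul, eval_sub, eval_ofNat, ← h4]; ring
    have eb : (mb N D).eval x = D.eval x ^ 3 * mb c 1 := by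
      simp only [mb, eval_mul, eval_sub, eval_pow, eval_ofNat, ← h4]; ring
    have hd := hmod c h5 h6
    have h8 := tr_scale l hl5 hd h3
    rw [eval_C, eval_X, ea, eb]
    refine ⟨h2, ?_, ?_⟩
    · rw [show dsc (D.eval x ^ 2 * ma c 1) (D.eval x ^ 3 * mb c 1) =
        D.eval x ^ 6 * dsc (ma c 1) (mb c 1) by unfold dsc; ring]
      exact mul_ne_zero (pow_ne_zero _ h3) hd
    · unfold Mat at *
      omega
  let S1 := S.filter fun x => Sc (frobT l m ((C A).eval x) (X.eval x))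
  let S2 := S.filter fun x => Sc (frobT l m ((ma N D).eval x) ((mb N D).eval x))
  let S3 := S.filter fun x => ¬ Sc (frobT l m ((C A).eval x) (X.eval x)) ∧
    ¬ Sc (frobT l m ((ma N D).eval x) ((mb N D).eval x))
  have b1 : m * S1.card ≤ 40 * l :=
    ch_scalar l hm (by omega) one_pos hl1 (by simp) (by simp) J1 S1 fun x hx =>
      ⟨(key x (Finset.mem_filter.1 hx).1).1, (Finset.mem_filter.1 hx).2⟩
  have b2 : m * S2.card ≤ 40 * l :=
    ch_scalar l hm (by omega) hm.pos hl2 da db J2 S2 fun x hx =>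
      ⟨(key x (Finset.mem_filter.1 hx).1).2.1, (Finset.mem_filter.1 hx).2⟩
  obtain ⟨ι, hι, hB⟩ := chGraph_big l hm h11 hml hA hc hN hD hM h0' hlt h1 hexc
  have b3 : m * S3.card ≤ 30 * l := by
    refine chGraph_num h11 hl (ch_core l hι hm (by omega) hm.pos hl2 (by simp)
      (by rw [natDegree_X]; omega) da db J1.2.2.1 J2.2.2.1 hB S3 fun x hx => ?_)
    obtain ⟨hx1, hx2, hx3⟩ := Finset.mem_filter.1 hx
    obtain ⟨k1, k2, k3⟩ := key x hx1
    exact ⟨k1, k2, chGraph_intertw l hl5 hm hml k1 k2 k3 hx2 hx3⟩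
  have hsub : S ⊆ S1 ∪ S2 ∪ S3 := by
    intro x hx
    simp only [S1, S2, S3, Finset.mem_union, Finset.mem_filter, hx, true_and]
    tauto
  have hcard : S.card ≤ S1.card + S2.card + S3.card :=
    (Finset.card_le_card hsub).trans ((Finset.card_union_le _ _).trans
      (Nat.add_le_add_right (Finset.card_union_le _ _) _))
  have := Nat.mul_le_mul_left m hcard
  rw [mul_add, mul_add] at this
  omega

theorem ch_graph (l : ℕ) [Fact l.Prime] {m : ℕ} (hm : m.Prime) (h11 : 11 ≤ m) (hl : m ^ 23 < l)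
    {A : ZMod l} (hA : A ≠ 0) {P Q : (ZMod l)[X]} (hdP : P.natDegree < m) (hdQ : Q.natDegree < m)
    (hP : P ≠ 0) (hQ : Q ≠ 0) (hM : 1728 * Q - P ≠ 0)
    (h1 : P * dsc (C A) X ≠ C (6912 * A ^ 3) * Q) (hexc : exc A P Q ≠ 0) (S : Finset (ZMod l))
    (hS : ∀ x ∈ S, dsc A x ≠ 0 ∧ Q.eval x ≠ 0 ∧ ∃ c, c * Q.eval x = P.eval x ∧ c ≠ 0 ∧ c ≠ 1728 ∧
      Mat l A x (ma c 1) (mb c 1)) : m * S.card ≤ 300 * l := by
  classical
  obtain ⟨N, D, g, hc, eP, eQ⟩ : ∃ N D g : (ZMod l)[X], IsCoprime N D ∧ P = g * N ∧ Q = g * D := by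
    obtain ⟨N, D, e1, e2, hu⟩ := extract_gcd P Q
    exact ⟨N, D, gcd P Q, (gcd_isUnit_iff N D).1 hu, e1, e2⟩
  subst eP eQ
  have hg : g ≠ 0 := left_ne_zero_of_mul hP
  have hN : N ≠ 0 := right_ne_zero_of_mul hP
  have hD : D ≠ 0 := right_ne_zero_of_mul hQ
  rw [natDegree_mul hg hN] at hdP
  rw [natDegree_mul hg hD] at hdQ
  refine chGraph_coprime l hm h11 hl hA hc (by omega) (by omega) hN hD ?_ ?_ ?_ S ?_
  · intro h
    apply hM
    linear_combination g * h
  · intro h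
    apply h1
    linear_combination g * h
  · intro h
    apply hexc
    rw [exc_mul, h, mul_zero]
  · intro x hx
    obtain ⟨h2, h3, c, h4, h5⟩ := hS x hx
    rw [eval_mul] at h3 h4
    rw [eval_mul] at h4
    refine ⟨h2, right_ne_zero_of_mul h3, c, ?_, h5⟩
    apply mul_left_cancel₀ (left_ne_zero_of_mul h3)
    linear_combination h4

end Pool.Agent.P.MP_a60a76_nt.Fs
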