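import Pool.Agent.P.MP_a60a76_nt.Fs.Defs

namespace Pool.Agent.P.MP_a60a76_nt.Fs

open Polynomial
open scoped NNReal

/-- Evaluation of an integer polynomial in two variables, as a ring homomorphism. -/
noncomputable def taylorHom (R : Type) [CommRing R] (x j : R) : ℤ[X][X] →+* R :=
  (evalEvalRingHom x j).comp (mapRingHom (mapRingHom (Int.castRingHom R)))

theorem taylorHom_apply (R : Type) [CommRing R] (x j : R) (θ : ℤ[X][X]) :
    taylorHom R x j θ = (θ.map (mapRingHom (Int.castRingHom R))).evalEval x j := rfl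

theorem taylor_ev3 (R : Type) [CommRing R] (x j t : R) (G : ℤ[X][X][X]) :
    ev3 (map3 (Int.castRingHom R) G) x j t = (G.map (taylorHom R x j)).eval t := by
  rw [ev3, map3, Polynomial.map_map]
  rfl

theorem taylorHom_CC (R : Type) [CommRing R] (x j : R) (u : ℤ) :
    taylorHom R x j (C (C u)) = u := by
  simp

theorem taylorHom_CX (R : Type) [CommRing R] (x j : R) :
    taylorHom R x j (C X) = x := by
  simp [taylorHom_apply, evalEval_C]

theorem taylorHom_X (R : Type) [CommRing R] (x j : R) :
    taylorHom R x j X = j := by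
  simp [taylorHom_apply]

theorem taylor_lift_succ (G : ℤ[X][X][X]) (u t0 : ℤ) (D : ℕ) :
    ∃ θ : ℤ[X][X], ∀ (R : Type) [CommRing R] (l x j t : R),
      (G.map (taylorHom R x j)).eval t = 0 →
      l ∣ u * (derivative (G.map (taylorHom R x j))).eval t - 1 → l ∣ t - t0 →
      l ^ (D + 1) ∣ t - taylorHom R x j θ := by
  induction D with
  | zero =>
    refine ⟨C (C t0), fun R _ l x j t _ _ h => ?_⟩
    rw [taylorHom_CC, zero_add, pow_one]
    exact h
  | succ D ih =>
    obtain ⟨θ, hθ⟩ := ih
    refine ⟨θ - C (C u) * G.eval θ, fun R _ l x j t h0 h1 h2 => ?_⟩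
    have h3 := hθ R l x j t h0 h1 h2
    have h4 : taylorHom R x j (G.eval θ) = (G.map (taylorHom R x j)).eval (taylorHom R x j θ) := by
      rw [eval_map, eval₂_hom]
    obtain ⟨k, hk⟩ := binomExpansion (G.map (taylorHom R x j)) t (taylorHom R x j θ - t)
    rw [add_sub_cancel, h0, zero_add] at hk
    rw [map_sub, map_mul, taylorHom_CC, h4, hk]
    have h5 : l ∣ t - taylorHom R x j θ := (dvd_pow_self l (Nat.succ_ne_zero D)).trans h3
    have h6 : t - (taylorHom R x j θ - (u : R) *
        ((derivative (G.map (taylorHom R x j))).eval t * (taylorHom R x j θ - t) +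
          k * (taylorHom R x j θ - t) ^ 2)) = (t - taylorHom R x j θ) *
        (-((u : R) * (derivative (G.map (taylorHom R x j))).eval t - 1) +
          (u * k) * (t - taylorHom R x j θ)) := by ring
    rw [h6, pow_succ]
    exact mul_dvd_mul h3 (dvd_add (dvd_neg.2 h1) (dvd_mul_of_dvd_right h5 _))

theorem taylor_lift (G : ℤ[X][X][X]) (u t0 : ℤ) (D : ℕ) :
    ∃ θ : ℤ[X][X], ∀ (R : Type) [CommRing R] (l x j t : R),
      ev3 (map3 (Int.castRingHom R) G) x j t = 0 →
      l ∣ u * ev3 (map3 (Int.castRingHom R) (derivative G)) x j t - 1 → l ∣ t - t0 →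
      l ^ D ∣ t - (θ.map (mapRingHom (Int.castRingHom R))).evalEval x j := by
  obtain ⟨θ, hθ⟩ := taylor_lift_succ G u t0 D
  refine ⟨θ, fun R _ l x j t h0 h1 h2 => ?_⟩
  rw [taylor_ev3] at h0 h1
  rw [← derivative_map] at h1
  exact (pow_dvd_pow l (Nat.le_succ D)).trans (hθ R l x j t h0 h1 h2)

theorem taylor_trunc (θ : ℤ[X][X]) (D : ℕ) (R : Type) [CommRing R] (l α β : R) :
    l ^ D ∣ taylorHom R (l * α) (l * β) θ -
      ∑ i ∈ Finset.range D, ∑ k ∈ Finset.range (D - i),
        l ^ (i + k) * (α ^ i * β ^ k) * (((θ.coeff k).coeff i : ℤ) : R) := by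
  induction θ using Polynomial.induction_on' with
  | add p q hp hq =>
    have h := dvd_add hp hq
    refine h.trans (dvd_of_eq ?_)
    simp only [map_add, coeff_add, Int.cast_add, mul_add, Finset.sum_add_distrib]
    ring
  | monomial n c =>
    induction c using Polynomial.induction_on' with
    | add p q hp hq =>
      have h := dvd_add hp hq
      refine h.trans (dvd_of_eq ?_)
      simp only [map_add, coeff_add, Int.cast_add, mul_add, Finset.sum_add_distrib]
      ring
    | monomial m a =>
      have e1 : taylorHom R (l * α) (l * β) (monomial n (monomial m a)) =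
          l ^ (m + n) * (α ^ m * β ^ n) * (a : R) := by
        rw [← C_mul_X_pow_eq_monomial, ← C_mul_X_pow_eq_monomial, map_mul, map_mul, map_mul,
          map_pow, map_pow, map_pow, taylorHom_CC, taylorHom_CX, taylorHom_X]
        ring
      have e2 : ∀ i k : ℕ, l ^ (i + k) * (α ^ i * β ^ k) *
          ((((monomial n (monomial m a) : ℤ[X][X]).coeff k).coeff i : ℤ) : R) =
          if m = i then (if n = k then l ^ (m + n) * (α ^ m * β ^ n) * (a : R) else 0) else 0 := by
        intro i k
        by_cases hk : n = k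
        · subst hk
          by_cases hi : m = i
          · subst hi
            simp
          · simp [coeff_monomial, hi]
        · simp [coeff_monomial, hk]
      simp only [e1, e2]
      have e3 : ∑ i ∈ Finset.range D, ∑ k ∈ Finset.range (D - i),
          (if m = i then (if n = k then l ^ (m + n) * (α ^ m * β ^ n) * (a : R) else 0) else 0) =
          if m + n < D then l ^ (m + n) * (α ^ m * β ^ n) * (a : R) else 0 := by
        simp only [Finset.sum_ite_irrel, Finset.sum_const_zero, Finset.sum_ite_eq,
          Finset.mem_range]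
        by_cases h1 : m < D
        · by_cases h2 : n < D - m
          · rw [if_pos h1, if_pos h2, if_pos (by omega)]
          · rw [if_pos h1, if_neg h2, if_neg (by omega)]
        · rw [if_neg h1, if_neg (by omega)]
      rw [e3]
      split_ifs with h
      · simp
      · rw [sub_zero, mul_assoc]
        exact dvd_mul_of_dvd_left (pow_dvd_pow l (by omega)) _

theorem taylor_expand (θ : ℤ[X][X]) (x0 j0 : ℤ) (D : ℕ) :
    ∃ w : ℕ → ℕ → ℤ, ∀ (R : Type) [CommRing R] (l α β : R),
      l ^ D ∣ (θ.map (mapRingHom (Int.castRingHom R))).evalEval (x0 + l * α) (j0 + l * β) -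
        ∑ i ∈ Finset.range D, ∑ k ∈ Finset.range (D - i),
          l ^ (i + k) * (α ^ i * β ^ k) * (w i k : R) := by
  let ψ : ℤ[X][X] →+* ℤ[X][X] := taylorHom ℤ[X][X] (C (C x0) + C X) (C (C j0) + X)
  refine ⟨fun i k => ((ψ θ).coeff k).coeff i, fun R _ l α β => ?_⟩
  have e : taylorHom R (x0 + l * α) (j0 + l * β) = (taylorHom R (l * α) (l * β)).comp ψ := by
    apply Polynomial.ringHom_ext'
    · apply Polynomial.ringHom_ext'
      · exact RingHom.ext_int _ _
      · simp only [RingHom.comp_apply, ψ, taylorHom_CX, map_add, taylorHom_CC]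
    · simp only [RingHom.comp_apply, ψ, taylorHom_X, map_add, taylorHom_CC]
  rw [← taylorHom_apply, e, RingHom.comp_apply]
  exact taylor_trunc (ψ θ) D R l α β

end Pool.Agent.P.MP_a60a76_nt.Fs
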