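import Pool.Agent.P.MP_a60a76_nt.Fs.Defs

namespace Pool.Agent.P.MP_a60a76_nt.Fs

open Polynomial
open scoped NNReal

theorem pow_dvd_det {R : Type*} [CommRing R] (l : R) {r D : ℕ} {ι : Type*} [Fintype ι] (e : ι → ℕ)
    (w : ι → Fin r → R) (M : Matrix (Fin r) (Fin r) R)
    (h : ∀ s, ∃ (c : ι → R) (z : Fin r → R), ∀ k,
      M s k = ∑ μ, l ^ e μ * c μ * w μ k + l ^ D * z k) :
    l ^ (r * D - ∑ μ, (D - e μ)) ∣ M.det := by
  classical
  choose c z hM using h
  let ex : Option ι → ℕ := fun o => o.elim D e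
  let a : Fin r → Option ι → R := fun s o => o.elim 1 (c s)
  let u : Fin r → Option ι → Fin r → R := fun s o => o.elim (z s) w
  have hM' : M = fun s => ∑ o : Option ι, (l ^ ex o * a s o) • u s o := by
    funext s k
    rw [hM, Fintype.sum_option, add_comm]
    simp [ex, a, u, Finset.sum_apply]
  have hdet : M.det = ∑ f : Fin r → Option ι,
      (Matrix.detRowAlternating : (Fin r → R) [⋀^Fin r]→ₗ[R] R)
        (fun s => (l ^ ex (f s) * a s (f s)) • u s (f s)) := by
    have := (Matrix.detRowAlternating : (Fin r → R) [⋀^Fin r]→ₗ[R] R).toMultilinearMap.map_sum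
      (fun s (o : Option ι) => (l ^ ex o * a s o) • u s o)
    rw [hM']
    exact this
  rw [hdet]
  refine Finset.dvd_sum fun f _ => ?_
  rw [AlternatingMap.map_smul_univ]
  by_cases hinj : ∀ s t μ, f s = some μ → f t = some μ → s = t
  · rw [smul_eq_mul, Finset.prod_mul_distrib, Finset.prod_pow_eq_pow_sum]
    refine Dvd.dvd.mul_right (Dvd.dvd.mul_right (pow_dvd_pow _ ?_) _) _
    have h1 : r * D ≤ ∑ s, ex (f s) + ∑ s, (D - ex (f s)) := by
      rw [← Finset.sum_add_distrib]
      calc r * D = ∑ _s : Fin r, D := by simp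
        _ ≤ _ := Finset.sum_le_sum fun s _ => by omega
    have h2 : ∑ s, (D - ex (f s)) ≤ ∑ μ, (D - e μ) := by
      have h3 : ∀ s, D - ex (f s) = ∑ μ, if f s = some μ then D - e μ else 0 := by
        intro s
        cases f s with
        | none => simp [ex]
        | some ν => simp [ex]
      simp_rw [h3]
      rw [Finset.sum_comm]
      refine Finset.sum_le_sum fun μ _ => ?_
      rw [← Finset.sum_filter, Finset.sum_const, smul_eq_mul]
      have : (Finset.univ.filter fun s => f s = some μ).card ≤ 1 := by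
        rw [Finset.card_le_one]
        intro s hs t ht
        exact hinj s t μ (Finset.mem_filter.1 hs).2 (Finset.mem_filter.1 ht).2
      nlinarith
    omega
  · push Not at hinj
    obtain ⟨s, t, μ, hs, ht, hne⟩ := hinj
    rw [AlternatingMap.map_eq_zero_of_eq _ _ (i := s) (j := t) (by simp [hs, ht, u]) hne, smul_zero]
    exact dvd_zero _

end Pool.Agent.P.MP_a60a76_nt.Fs
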