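import Pool.Agent.P.MP_a60a76_nt.Fs.Defs
import Pool.Agent.P.MP_a60a76_nt.Fs.Val
import Pool.Agent.P.MP_a60a76_nt.Fs.Taylor

namespace Pool.Agent.P.MP_a60a76_nt.Fs

open Polynomial
open scoped NNReal

theorem cls_ev3 {R S : Type*} [CommRing R] [CommRing S] (ψ : R →+* S) (G : ℤ[X][X][X])
    (x j t : R) : ψ (ev3 (map3 (Int.castRingHom R) G) x j t) =
      ev3 (map3 (Int.castRingHom S) G) (ψ x) (ψ j) (ψ t) := by
  have h : ψ.comp ((evalRingHom t).comp ((mapRingHom (evalEvalRingHom x j)).comp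
      (mapRingHom (mapRingHom (mapRingHom (Int.castRingHom R)))))) =
      (evalRingHom (ψ t)).comp ((mapRingHom (evalEvalRingHom (ψ x) (ψ j))).comp
        (mapRingHom (mapRingHom (mapRingHom (Int.castRingHom S))))) := by
    refine Polynomial.ringHom_ext' (Polynomial.ringHom_ext' (Polynomial.ringHom_ext'
      (RingHom.ext_int _ _) ?_) ?_) ?_ <;> simp
  exact congrArg (fun f : ℤ[X][X][X] →+* S => f G) h

theorem cls_lift {l : ℕ} [Fact l.Prime] (q : ℚ) (h : ¬ l ∣ q.den) :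
    ∃ z : ℤ_[l], (z : ℚ_[l]) = q ∧ PadicInt.toZMod z = redQ l q := by
  obtain ⟨z, hz⟩ : ∃ z : ℤ_[l], (z : ℚ_[l]) = q := ⟨⟨q, Padic.norm_rat_le_one h⟩, rfl⟩
  refine ⟨z, hz, ?_⟩
  have h1 : z * (q.den : ℤ_[l]) = (q.num : ℤ_[l]) := by
    apply Subtype.ext
    push_cast
    rw [hz]
    exact_mod_cast congrArg (Rat.cast : ℚ → ℚ_[l]) q.mul_den_eq_num
  have h2 := congrArg PadicInt.toZMod h1
  rw [map_mul, map_natCast, map_intCast] at h2
  have h3 : (q.den : ZMod l) ≠ 0 := (ZMod.natCast_eq_zero_iff _ _).not.2 h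
  rw [redQ, ← h2, mul_assoc, mul_inv_cancel₀ h3, mul_one]

theorem cls_ker {l : ℕ} [Fact l.Prime] {z : ℤ_[l]} (h : PadicInt.toZMod z = 0) :
    (l : ℤ_[l]) ∣ z := by
  rw [← Ideal.mem_span_singleton, ← PadicInt.maximalIdeal_eq_span_p, ← PadicInt.ker_toZMod]
  exact h

theorem cls_sum2 (n : ℕ) : ∑ k ∈ Finset.range n, (n - k) = (n + 1).choose 2 := by
  induction n with
  | zero => rfl
  | succ n ih =>
    rw [Finset.sum_range_succ']
    simp only [Nat.add_sub_add_right, ih, Nat.sub_zero]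
    rw [Nat.choose_succ_succ' (n + 1) 1, Nat.choose_one_right, add_comm]

theorem cls_sum3 (n : ℕ) : ∑ i ∈ Finset.range n, ∑ k ∈ Finset.range (n - i), (n - (i + k)) =
    (n + 2).choose 3 := by
  simp only [← Nat.sub_sub, cls_sum2]
  induction n with
  | zero => rfl
  | succ n ih =>
    rw [Finset.sum_range_succ']
    simp only [Nat.add_sub_add_right, ih, Nat.sub_zero]
    rw [Nat.choose_succ_succ' (n + 2) 2, add_comm]

theorem cls_dvd {l : ℕ} (hl : l.Prime) {G : ℤ[X][X][X]} {T : Finset (ℤ × ℚ × ℚ)}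
    (hT : IsCls l G T) {r : ℕ} (D : ℕ) (pts : Fin r → ℤ × ℚ × ℚ) (hp : ∀ s, pts s ∈ T)
    (e : Fin r → ℕ × ℕ × ℕ) (M : Matrix (Fin r) (Fin r) ℤ) (u : Fin r → ℤ)
    (hM : ∀ s k, (M s k : ℚ) =
      u s * (((pts s).1 : ℚ) ^ (e k).1 * (pts s).2.1 ^ (e k).2.1 * (pts s).2.2 ^ (e k).2.2)) :
    (l : ℤ) ^ (r * D - (D + 2).choose 3) ∣ M.det ∧
      ((∀ s, (pts s).2.1 = 0) → (l : ℤ) ^ (r * D - (D + 1).choose 2) ∣ M.det) := by
  have := Fact.mk hl
  obtain ⟨x0, j0, t0, hG, hT⟩ := hT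
  choose J hJ hJ' using fun s => cls_lift (l := l) (pts s).2.1 (hT _ (hp s)).1
  choose Z hZ hZ' using fun s => cls_lift (l := l) (pts s).2.2 (hT _ (hp s)).2.1
  obtain ⟨u0, hu0⟩ := ZMod.intCast_surjective
    (ev3 (map3 (Int.castRingHom (ZMod l)) (derivative G)) x0 j0 t0)⁻¹
  obtain ⟨θ, hθ⟩ := taylor_lift G u0 t0.val D
  choose w hw using fun k : Fin r =>
    taylor_expand (C X ^ (e k).1 * X ^ (e k).2.1 * θ ^ (e k).2.2) x0.val j0.val D
  have hα : ∀ s, ∃ α : ℤ_[l], ((pts s).1 : ℤ_[l]) = ((x0.val : ℤ) : ℤ_[l]) + l * α := fun s => by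
    obtain ⟨α, h⟩ := cls_ker (z := ((pts s).1 : ℤ_[l]) - ((x0.val : ℤ) : ℤ_[l]))
      (by simp [(hT _ (hp s)).2.2.1])
    exact ⟨α, by rw [← h]; ring⟩
  have hβ : ∀ s, ∃ β : ℤ_[l], J s = ((j0.val : ℤ) : ℤ_[l]) + l * β := fun s => by
    obtain ⟨β, h⟩ := cls_ker (z := J s - ((j0.val : ℤ) : ℤ_[l]))
      (by simp [hJ', (hT _ (hp s)).2.2.2.1])
    exact ⟨β, by rw [← h]; ring⟩
  choose α hα using hα
  choose β hβ using hβ
  have h1 : ∀ s, (l : ℤ_[l]) ^ D ∣ Z s -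
      (θ.map (mapRingHom (Int.castRingHom ℤ_[l]))).evalEval ((pts s).1 : ℤ_[l]) (J s) := by
    intro s
    obtain ⟨-, -, a1, a2, a3, a4⟩ := hT _ (hp s)
    refine hθ ℤ_[l] l _ _ _ ?_ (cls_ker ?_) (cls_ker ?_)
    · apply Subtype.ext
      have b1 := cls_ev3 PadicInt.Coe.ringHom G ((pts s).1 : ℤ_[l]) (J s) (Z s)
      have b2 := cls_ev3 (Rat.castHom ℚ_[l]) G (pts s).1 (pts s).2.1 (pts s).2.2
      rw [a4, map_zero, map_intCast] at b2
      rw [map_intCast] at b1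
      refine b1.trans (Eq.trans ?_ b2.symm)
      congr 1
      · exact hJ s
      · exact hZ s
    · rw [map_sub, map_mul, cls_ev3, map_intCast, map_intCast, hu0, a1, hJ', hZ', a2, a3,
        inv_mul_cancel₀ hG, map_one, sub_self]
    · simp [hZ', a3]
  have h2 : ∀ s k, (M s k : ℤ_[l]) =
      u s * (((pts s).1 : ℤ_[l]) ^ (e k).1 * J s ^ (e k).2.1 * Z s ^ (e k).2.2) := by
    intro s k
    apply Subtype.ext
    have b := congrArg (Rat.cast : ℚ → ℚ_[l]) (hM s k)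
    push_cast at b ⊢
    rw [hJ, hZ]
    exact b
  have h3 : ∀ s k, ∃ z : ℤ_[l], (M s k : ℤ_[l]) = ∑ i ∈ Finset.range D,
      ∑ i' ∈ Finset.range (D - i), (l : ℤ_[l]) ^ (i + i') * (u s * (α s ^ i * β s ^ i')) *
        (w k i i' : ℤ_[l]) + l ^ D * z := by
    intro s k
    obtain ⟨z1, b1⟩ := hw k ℤ_[l] l (α s) (β s)
    obtain ⟨z2, b2⟩ := (h1 s).trans (sub_dvd_pow_sub_pow _ _ (e k).2.2)
    rw [← hα, ← hβ] at b1
    simp only [Polynomial.map_mul, Polynomial.map_pow, map_C, map_X, coe_mapRingHom, evalEval_mul,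
      evalEval_pow, evalEval_C, evalEval_X, eval_X] at b1
    refine ⟨u s * (z1 + ((pts s).1 : ℤ_[l]) ^ (e k).1 * J s ^ (e k).2.1 * z2), ?_⟩
    have b3 : ∑ i ∈ Finset.range D, ∑ i' ∈ Finset.range (D - i),
        (l : ℤ_[l]) ^ (i + i') * (u s * (α s ^ i * β s ^ i')) * (w k i i' : ℤ_[l]) =
        u s * ∑ i ∈ Finset.range D, ∑ i' ∈ Finset.range (D - i),
          (l : ℤ_[l]) ^ (i + i') * (α s ^ i * β s ^ i') * (w k i i' : ℤ_[l]) := by
      simp only [Finset.mul_sum]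
      exact Finset.sum_congr rfl fun _ _ => Finset.sum_congr rfl fun _ _ => by ring
    rw [h2, b3]
    linear_combination u s * b1 + u s * (((pts s).1 : ℤ_[l]) ^ (e k).1 * J s ^ (e k).2.1) * b2
  choose z hz using h3
  have h4 : ∀ E : ℕ, (l : ℤ_[l]) ^ E ∣ (M.map (Int.cast : ℤ → ℤ_[l])).det → (l : ℤ) ^ E ∣ M.det :=
    fun E h => (PadicInt.pow_p_dvd_int_iff E M.det).1 (by rwa [Int.cast_det])
  refine ⟨h4 _ ?_, fun h0 => h4 _ ?_⟩
  · have b := pow_dvd_det (l : ℤ_[l]) (D := D)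
      (ι := ↥((Finset.range D).sigma fun i => Finset.range (D - i))) (fun μ => μ.1.1 + μ.1.2)
      (fun μ k => (w k μ.1.1 μ.1.2 : ℤ_[l])) (M.map (Int.cast : ℤ → ℤ_[l])) fun s =>
        ⟨fun μ => u s * (α s ^ μ.1.1 * β s ^ μ.1.2), z s, fun k => by
          rw [Matrix.map_apply, hz, Finset.sum_sigma', ← Finset.sum_coe_sort]⟩
    rwa [Finset.sum_coe_sort _ fun μ : (_ : ℕ) × ℕ => D - (μ.1 + μ.2), Finset.sum_sigma,
      cls_sum3] at b
  · have b0 : ∀ s, β s = 0 := fun s => by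
      have c1 : j0 = 0 := by rw [← (hT _ (hp s)).2.2.2.1, h0 s]; simp [redQ]
      have c2 : J s = 0 := Subtype.ext (by rw [hJ, h0 s]; simp)
      have c3 := hβ s
      rw [c1, c2] at c3
      simpa [hl.ne_zero] using c3
    have b := pow_dvd_det (l : ℤ_[l]) (D := D) (ι := Fin D) (fun μ => μ.1)
      (fun μ k => (w k μ.1 0 : ℤ_[l])) (M.map (Int.cast : ℤ → ℤ_[l])) fun s =>
        ⟨fun μ => u s * α s ^ μ.1, z s, fun k => by
          rw [Matrix.map_apply, hz, Finset.sum_range]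
          congr 1
          refine Finset.sum_congr rfl fun i _ => ?_
          rw [Finset.sum_eq_single_of_mem 0 (Finset.mem_range.2 (Nat.sub_pos_of_lt i.2))]
          · simp
          · intro c _ hc
            simp [b0, hc]⟩
    rwa [← Finset.sum_range fun i => D - i, cls_sum2] at b

end Pool.Agent.P.MP_a60a76_nt.Fs
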