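import Pool.Agent.P.MP_a60a76_nt.Fs.Defs

namespace Pool.Agent.P.MP_a60a76_nt.Fs

open Polynomial
open scoped NNReal

theorem primes_small : ∃ z0 : ℝ, 1 ≤ z0 ∧ ∀ z : ℝ, z0 ≤ z →
    Real.log 2 + Real.log (z + 2) + 2 * √z * Real.log z ≤ z / 12 := by
  have h1 : (fun z : ℝ => Real.log z) =o[Filter.atTop] fun z : ℝ => z ^ (1 / 2 : ℝ) :=
    isLittleO_log_rpow_atTop (by norm_num)
  have h2 := h1.bound (show (0 : ℝ) < 1 / 100 by norm_num)
  obtain ⟨z1, hz1⟩ := Filter.eventually_atTop.1 h2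
  refine ⟨max z1 100, le_trans (by norm_num) (le_max_right _ _), fun z hz => ?_⟩
  have hz0 : 100 ≤ z := le_trans (le_max_right _ _) hz
  have h3 := hz1 z (le_trans (le_max_left _ _) hz)
  rw [← Real.sqrt_eq_rpow, Real.norm_of_nonneg (Real.log_nonneg (by linarith)),
    Real.norm_of_nonneg (Real.sqrt_nonneg _)] at h3
  have h4 : √z * √z = z := Real.mul_self_sqrt (by linarith)
  have h5 : 1 ≤ √z := Real.one_le_sqrt.2 (by linarith)
  have h6 : Real.log (z + 2) ≤ Real.log 2 + Real.log z := by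
    rw [← Real.log_mul (by norm_num) (by linarith)]
    exact Real.log_le_log (by linarith) (by linarith)
  have h7 := Real.log_two_lt_d9
  have h8 : √z * Real.log z ≤ 1 / 100 * z := by nlinarith
  have h9 : √z ≤ z := by nlinarith
  nlinarith

theorem theta_window : ∃ z0 : ℝ, ∀ y z : ℝ, z0 ≤ z → 0 ≤ y → y ≤ z / 4 →
    ∃ P : Finset ℕ, (∀ p ∈ P, p.Prime ∧ y < p ∧ (p : ℝ) ≤ z) ∧ z / 4 ≤ ∑ p ∈ P, Real.log p := by
  obtain ⟨z0, h1, hz0⟩ := primes_small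
  refine ⟨z0, fun y z hz hy hyz => ?_⟩
  have hz1 : 1 ≤ z := h1.trans hz
  have hle : ⌊y⌋₊ ≤ ⌊z⌋₊ := Nat.floor_mono (by linarith)
  have hsub : (Finset.Ioc 0 ⌊y⌋₊).filter Nat.Prime ⊆ (Finset.Ioc 0 ⌊z⌋₊).filter Nat.Prime :=
    Finset.filter_subset_filter _ (Finset.Ioc_subset_Ioc_right hle)
  refine ⟨(Finset.Ioc 0 ⌊z⌋₊).filter Nat.Prime \ (Finset.Ioc 0 ⌊y⌋₊).filter Nat.Prime, ?_, ?_⟩
  · intro p hp
    simp only [Finset.mem_sdiff, Finset.mem_filter, Finset.mem_Ioc, not_and] at hp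
    obtain ⟨⟨⟨h0, h2⟩, h3⟩, h4⟩ := hp
    refine ⟨h3, ?_, (Nat.le_floor_iff (by linarith)).1 h2⟩
    by_contra hc
    exact h4 ⟨h0, (Nat.le_floor_iff hy).2 (not_lt.1 hc)⟩ h3
  · have e := Finset.sum_sdiff (f := fun p : ℕ => Real.log p) hsub
    have e1 : Chebyshev.theta z = ∑ p ∈ (Finset.Ioc 0 ⌊z⌋₊).filter Nat.Prime, Real.log p := rfl
    have e2 : Chebyshev.theta y = ∑ p ∈ (Finset.Ioc 0 ⌊y⌋₊).filter Nat.Prime, Real.log p := rfl
    rw [← e1, ← e2] at e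
    have h2 := Chebyshev.theta_ge' hz1
    have h3 := Chebyshev.theta_le_log4_mul_x hy
    have h4 : Real.log 4 = 2 * Real.log 2 := by
      rw [show (4 : ℝ) = 2 ^ 2 by norm_num, Real.log_pow]; norm_num
    have h5 := hz0 z hz
    have h6 := Real.log_two_gt_d9
    have h7 : Real.log 2 * y ≤ Real.log 2 * (z / 4) := mul_le_mul_of_nonneg_left hyz (by linarith)
    rw [h4] at h3
    nlinarith

theorem exists_primes : ∃ L0 : ℝ, 3 ≤ L0 ∧ ∀ L Λ : ℝ, L0 ≤ L → 0 ≤ Λ → Λ < L →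
    ∃ P : Finset ℕ, (∀ p ∈ P, p.Prime ∧ L < p ∧ (p : ℝ) ≤ 4 * L) ∧ Λ < ∑ p ∈ P, Real.log p ∧
      (P.card : ℝ) ≤ Λ + 1 := by
  classical
  obtain ⟨z0, hz0⟩ := theta_window
  refine ⟨max 3 z0, le_max_left _ _, fun L Λ hL h0 hΛ => ?_⟩
  have h3 : 3 ≤ L := (le_max_left _ _).trans hL
  have h4 : z0 ≤ L := (le_max_right _ _).trans hL
  obtain ⟨P0, hP0, hs⟩ := hz0 L (4 * L) (by linarith) (by linarith) (by linarith)
  have hex : ∃ n : ℕ, ∃ P : Finset ℕ, P.card = n ∧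
      (∀ p ∈ P, p.Prime ∧ L < p ∧ (p : ℝ) ≤ 4 * L) ∧ Λ < ∑ p ∈ P, Real.log p :=
    ⟨_, P0, rfl, hP0, by linarith⟩
  obtain ⟨P, hc, hP, hsum⟩ := Nat.find_spec hex
  refine ⟨P, hP, hsum, ?_⟩
  rcases P.eq_empty_or_nonempty with he | ⟨q, hq⟩
  · subst he
    simp only [Finset.card_empty, Nat.cast_zero]
    linarith
  have hpos : 0 < P.card := Finset.card_pos.2 ⟨q, hq⟩
  have hlt : (P.erase q).card < Nat.find hex := by
    rw [← hc]; exact Finset.card_erase_lt_of_mem hq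
  have hmin := Nat.find_min hex hlt
  have h5 : ∑ p ∈ P.erase q, Real.log p ≤ Λ := by
    by_contra hcon
    exact hmin ⟨_, rfl, fun p hp => hP p (Finset.mem_of_mem_erase hp), not_le.1 hcon⟩
  have h6 : ((P.erase q).card : ℝ) ≤ ∑ p ∈ P.erase q, Real.log p := by
    have := Finset.card_nsmul_le_sum (P.erase q) (fun p : ℕ => Real.log p) (1 : ℝ) (by
      intro p hp
      have h7 := (hP p (Finset.mem_of_mem_erase hp)).2.1
      rw [Real.le_log_iff_exp_le (by linarith)]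
      have := Real.exp_one_lt_d9
      linarith)
    simpa using this
  have h8 : (P.erase q).card + 1 = P.card := Finset.card_erase_add_one hq
  have h9 : ((P.erase q).card : ℝ) + 1 = P.card := by exact_mod_cast h8
  linarith

theorem sum_log_dvd_le (P : Finset ℕ) (hP : ∀ p ∈ P, p.Prime) {N : ℤ} (hN : N ≠ 0) :
    ∑ p ∈ P.filter (fun p : ℕ => (p : ℤ) ∣ N), Real.log p ≤ Real.log |(N : ℝ)| := by
  have h1 : ∀ p ∈ P.filter (fun p : ℕ => (p : ℤ) ∣ N), p.Prime :=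
    fun p hp => hP p (Finset.mem_filter.1 hp).1
  have h2 : ∏ p ∈ P.filter (fun p : ℕ => (p : ℤ) ∣ N), p ∣ N.natAbs :=
    Finset.prod_primes_dvd _ (fun p hp => (h1 p hp).prime)
      (fun p hp => Int.ofNat_dvd_left.1 (Finset.mem_filter.1 hp).2)
  have h3 := Nat.le_of_dvd (Int.natAbs_pos.2 hN) h2
  rw [← Real.log_prod (fun p hp => by exact_mod_cast (h1 p hp).ne_zero)]
  have h4 : (0 : ℝ) < ∏ p ∈ P.filter (fun p : ℕ => (p : ℤ) ∣ N), (p : ℝ) :=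
    Finset.prod_pos fun p hp => by exact_mod_cast (h1 p hp).pos
  refine Real.log_le_log h4 ?_
  rw [← Int.cast_abs, ← Int.natCast_natAbs, Int.cast_natCast, ← Nat.cast_prod]
  exact_mod_cast h3

theorem exists_not_dvd (P : Finset ℕ) (hP : ∀ p ∈ P, p.Prime) {N : ℤ} (hN : N ≠ 0)
    (h : Real.log |(N : ℝ)| < ∑ p ∈ P, Real.log p) : ∃ p ∈ P, ¬ (p : ℤ) ∣ N := by
  by_contra hc
  push Not at hc
  have h1 := sum_log_dvd_le P hP hN
  rw [Finset.filter_true_of_mem hc] at h1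
  linarith

theorem primes_int_opt (A0 γ : ℝ) (d : ℕ) (hA : 0 < A0) (hγ : 0 < γ)
    (h : 9 * A0 < 8 * d * γ ^ 2) : ∃ u v w : ℕ, 0 < u ∧ 0 < v ∧ 0 < w ∧
      (u * v * d : ℝ) * (u / 4 + A0 * v) < γ * (u * v * d * w - (w : ℝ) ^ 3 / 6) := by
  have hd : (0 : ℝ) < d := by
    by_contra hc
    have : (d : ℝ) = 0 := le_antisymm (not_lt.1 hc) (Nat.cast_nonneg d)
    rw [this] at h
    linarith
  let S : Set (ℝ × ℝ) := {x | 0 < x.1} ∩ ({x | 0 < x.2} ∩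
    {x | (x.1 * d) * (x.1 / 4 + A0) < γ * (x.1 * d * x.2 - x.2 ^ 3 / 6)})
  have hS : IsOpen S := by
    refine (isOpen_lt continuous_const continuous_fst).inter
      ((isOpen_lt continuous_const continuous_snd).inter (isOpen_lt ?_ ?_)) <;> fun_prop
  have hne : S.Nonempty := by
    have h0 : 0 < 8 * A0 * d := by positivity
    have h1 : √(8 * A0 * d) * √(8 * A0 * d) = 8 * A0 * d := Real.mul_self_sqrt h0.le
    have h2 : 0 < √(8 * A0 * d) := Real.sqrt_pos.2 h0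
    refine ⟨(4 * A0, √(8 * A0 * d)), by simpa using hA, h2, ?_⟩
    change (4 * A0 * d) * (4 * A0 / 4 + A0) <
      γ * (4 * A0 * d * √(8 * A0 * d) - √(8 * A0 * d) ^ 3 / 6)
    generalize √(8 * A0 * d) = w at h1 h2
    have h3 : 3 * A0 < γ * w := by
      apply lt_of_pow_lt_pow_left₀ 2 (by positivity)
      have : (γ * w) ^ 2 = A0 * (8 * d * γ ^ 2) := by
        rw [mul_pow, pow_two w, h1]; ring
      rw [this]
      nlinarith
    have h4 : w ^ 3 = 8 * A0 * d * w := by rw [← h1]; ring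
    rw [h4]
    have h5 : 0 < A0 * d := by positivity
    nlinarith
  have hD : DenseRange (Prod.map ((↑) : ℚ → ℝ) ((↑) : ℚ → ℝ)) :=
    Rat.denseRange_cast.prodMap Rat.denseRange_cast
  obtain ⟨⟨a, c⟩, ha, hc, hac⟩ := hD.exists_mem_open hS hne
  have ha' : (0 : ℝ) < a := ha
  have hc' : (0 : ℝ) < c := hc
  have hac' : ((a : ℝ) * d) * (a / 4 + A0) < γ * (a * d * c - (c : ℝ) ^ 3 / 6) := hac
  have ha1 : 0 < a.num := Rat.num_pos.2 (by exact_mod_cast ha')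
  have hc1 : 0 < c.num := Rat.num_pos.2 (by exact_mod_cast hc')
  have ea : ((a.num.toNat : ℕ) : ℝ) = a * a.den := by
    have e1 : ((a.num.toNat : ℕ) : ℤ) = a.num := Int.toNat_of_nonneg ha1.le
    have e2 : (a : ℝ) * a.den = a.num := by exact_mod_cast Rat.mul_den_eq_num a
    rw [e2, ← Int.cast_natCast, e1]
  have ec : ((c.num.toNat : ℕ) : ℝ) = c * c.den := by
    have e1 : ((c.num.toNat : ℕ) : ℤ) = c.num := Int.toNat_of_nonneg hc1.le
    have e2 : (c : ℝ) * c.den = c.num := by exact_mod_cast Rat.mul_den_eq_num c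
    rw [e2, ← Int.cast_natCast, e1]
  refine ⟨a.num.toNat * c.den, a.den * c.den, c.num.toNat * a.den,
    Nat.mul_pos (by omega) c.pos, Nat.mul_pos a.pos c.pos, Nat.mul_pos (by omega) a.pos, ?_⟩
  push_cast
  rw [ea, ec]
  have hN : (0 : ℝ) < ((a.den : ℝ) * c.den) ^ 3 := by
    have := a.pos
    have := c.pos
    positivity
  have := mul_lt_mul_of_pos_left hac' hN
  nlinarith

theorem primes_choose (D : ℕ) : (((D + 2).choose 3 : ℕ) : ℝ) = D ^ 3 / 6 + D ^ 2 / 2 + D / 3 := by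
  induction D with
  | zero => simp
  | succ D ih =>
    rw [show D + 1 + 2 = (D + 2) + 1 by ring, Nat.choose_succ_succ' (D + 2) 2, Nat.cast_add, ih,
      Nat.cast_choose_two]
    push_cast
    ring

theorem num_opt (A0 γ : ℝ) (d : ℕ) (hA : 0 < A0) (hγ : 0 < γ) (h : 9 * A0 < 8 * d * γ ^ 2) :
    ∃ K : ℕ, ∀ κ : ℕ, 1 ≤ κ → ∃ U V D : ℕ, 0 < U ∧ 0 < V ∧ U ≤ K * κ ∧ V ≤ K * κ ∧
      U * V * d ≤ U * V * d * D - (D + 2).choose 3 ∧
      (U * V * d : ℝ) * (U / 4 + A0 * V + κ * d) <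
        γ * ((U * V * d * D - (D + 2).choose 3 : ℕ) : ℝ) := by
  obtain ⟨u, v, w, hu, hv, hw, hF⟩ := primes_int_opt A0 γ d hA hγ h
  obtain ⟨G, hG⟩ : ∃ G : ℝ, G = u * v * d * w - (w : ℝ) ^ 3 / 6 := ⟨_, rfl⟩
  obtain ⟨r, hr⟩ : ∃ r : ℝ, r = u * v * d := ⟨_, rfl⟩
  obtain ⟨s, hs⟩ : ∃ s : ℝ, s = u / 4 + A0 * v := ⟨_, rfl⟩
  obtain ⟨c, hc⟩ : ∃ c : ℝ, c = (w : ℝ) ^ 2 / 2 + w / 3 := ⟨_, rfl⟩
  rw [← hG, ← hr, ← hs] at hF
  have hr0 : 0 ≤ r := by rw [hr]; positivity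
  have hs0 : 0 ≤ s := by rw [hs]; positivity
  have hc0 : 0 ≤ c := by rw [hc]; positivity
  have hG0 : 0 < G := by
    by_contra hcon
    have := mul_nonneg hr0 hs0
    nlinarith [not_lt.1 hcon]
  obtain ⟨K1, hK1⟩ := exists_nat_gt ((c + r) / G)
  obtain ⟨K2, hK2⟩ := exists_nat_gt ((γ * c + r * d) / (γ * G - r * s))
  rw [div_lt_iff₀ hG0] at hK1
  rw [div_lt_iff₀ (by linarith)] at hK2
  refine ⟨(u + v) * (K1 + K2 + 1), fun κ hκ => ?_⟩
  obtain ⟨W, hW⟩ : ∃ W : ℕ, W = (K1 + K2 + 1) * κ := ⟨_, rfl⟩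
  have hW0 : 0 < W := by rw [hW]; positivity
  have hκ1 : (1 : ℝ) ≤ κ := by exact_mod_cast hκ
  have hW1 : (1 : ℝ) ≤ W := by exact_mod_cast hW0
  have hWr : (W : ℝ) = (K1 + K2 + 1) * κ := by rw [hW]; push_cast; ring
  have hK10 : (0 : ℝ) ≤ K1 := Nat.cast_nonneg _
  have hK20 : (0 : ℝ) ≤ K2 := Nat.cast_nonneg _
  have hWK1 : (K1 : ℝ) ≤ W := by rw [hWr]; nlinarith
  have hWK2 : (K2 : ℝ) * κ ≤ W := by rw [hWr]; nlinarith
  have hE : (W : ℝ) ^ 2 * (G * W - c) ≤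
      ((u * W * (v * W) * d * (w * W) : ℕ) : ℝ) - ((w * W + 2).choose 3 : ℕ) := by
    rw [primes_choose, hG, hc]
    push_cast
    have h1 : (0 : ℝ) ≤ w * W * (W - 1) :=
      mul_nonneg (by positivity) (by linarith)
    nlinarith
  have hrW : ((u * W * (v * W) * d : ℕ) : ℝ) = W ^ 2 * r := by
    rw [hr]; push_cast; ring
  have hW2 : (0 : ℝ) < (W : ℝ) ^ 2 := by positivity
  have hA1 : r ≤ G * W - c := by nlinarith
  have hB : ((u * W * (v * W) * d : ℕ) : ℝ) ≤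
      ((u * W * (v * W) * d * (w * W) : ℕ) : ℝ) - ((w * W + 2).choose 3 : ℕ) := by
    rw [hrW]
    exact (mul_le_mul_of_nonneg_left hA1 hW2.le).trans hE
  have hB' : u * W * (v * W) * d + (w * W + 2).choose 3 ≤ u * W * (v * W) * d * (w * W) := by
    have : ((u * W * (v * W) * d : ℕ) : ℝ) + ((w * W + 2).choose 3 : ℕ) ≤
        ((u * W * (v * W) * d * (w * W) : ℕ) : ℝ) := by linarith
    exact_mod_cast this
  refine ⟨u * W, v * W, w * W, Nat.mul_pos hu hW0, Nat.mul_pos hv hW0, ?_, ?_, by omega, ?_⟩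
  · rw [mul_assoc, ← hW]
    exact Nat.mul_le_mul_right _ (Nat.le_add_right _ _)
  · rw [mul_assoc, ← hW]
    exact Nat.mul_le_mul_right _ (Nat.le_add_left _ _)
  · rw [Nat.cast_sub (by omega)]
    have e1 : (((u * W : ℕ) : ℝ) * ((v * W : ℕ) : ℝ) * d) *
        (((u * W : ℕ) : ℝ) / 4 + A0 * ((v * W : ℕ) : ℝ) + κ * d) =
        (W : ℝ) ^ 2 * (r * (s * W + κ * d)) := by
      rw [hr, hs]; push_cast; ring
    rw [e1]
    have h2 : r * (s * W + κ * d) < γ * (G * W - c) := by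
      have h3 : (γ * c + r * d) * κ < K2 * (γ * G - r * s) * κ :=
        mul_lt_mul_of_pos_right hK2 (by linarith)
      have h4 : (K2 : ℝ) * κ * (γ * G - r * s) ≤ W * (γ * G - r * s) :=
        mul_le_mul_of_nonneg_right hWK2 (by linarith)
      have h5 : γ * c ≤ γ * c * κ := le_mul_of_one_le_right (by positivity) hκ1
      nlinarith
    calc (W : ℝ) ^ 2 * (r * (s * W + κ * d)) < (W : ℝ) ^ 2 * (γ * (G * W - c)) :=
          mul_lt_mul_of_pos_left h2 hW2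
      _ = γ * ((W : ℝ) ^ 2 * (G * W - c)) := by ring
      _ ≤ _ := mul_le_mul_of_nonneg_left hE hγ.le

end Pool.Agent.P.MP_a60a76_nt.Fs
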