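import Pool.Agent.P.MP_a60a76_nt.Fs.Defs

namespace Pool.Agent.P.MP_a60a76_nt.Fs

open Polynomial
open scoped NNReal

theorem rank_row {ι : Type*} [Fintype ι] [DecidableEq ι] (M : Matrix ι ι ℤ) (i : ι) (u : ι → ℤ) :
    ∑ k, (M.updateRow i (Pi.single k 1)).det * u k = (M.updateRow i u).det := by
  simp only [← Matrix.cramer_transpose_apply]
  conv_rhs => rw [pi_eq_sum_univ' u, map_sum, Finset.sum_apply]
  refine Finset.sum_congr rfl fun k _ => ?_
  rw [map_smul, Pi.smul_apply, smul_eq_mul, mul_comm]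

theorem exists_small {S ι : Type*} [Fintype ι] [DecidableEq ι] (v : S → ι → ℤ) (K : ℕ)
    (hK : 1 ≤ K) (hv : ∀ s i, (v s i).natAbs ≤ K)
    (h : ∀ f : ι → S, (Matrix.of fun i k => v (f i) k).det = 0) :
    ∃ c : ι → ℤ, c ≠ 0 ∧ (∀ i, (c i).natAbs ≤ (Fintype.card ι).factorial * K ^ Fintype.card ι) ∧
      ∀ s, ∑ i, c i * v s i = 0 := by
  classical
  let w : S ⊕ ι → ι → ℤ := Sum.elim v fun j => Pi.single j 1
  let M : (ι → S ⊕ ι) → Matrix ι ι ℤ := fun g => Matrix.of fun i k => w (g i) k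
  let n : (ι → S ⊕ ι) → ℕ := fun g => (Finset.univ.filter fun i => (g i).isRight).card
  have hw : ∀ x k, (w x k).natAbs ≤ K := by
    rintro (s | j) k
    · exact hv s k
    · simp only [w, Sum.elim_inr, Pi.single_apply]
      split_ifs <;> simp [hK]
  have hup : ∀ g i x, M (Function.update g i x) = (M g).updateRow i (w x) := by
    intro g i x
    ext a k
    by_cases ha : a = i <;> simp [M, ha]
  have hex : ∃ m, ∃ g, (M g).det ≠ 0 ∧ n g = m := by
    refine ⟨_, Sum.inr, ?_, rfl⟩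
    have : M Sum.inr = 1 := by
      ext a k
      simp [M, w, Pi.single_apply, Matrix.one_apply, eq_comm]
    rw [this, Matrix.det_one]
    exact one_ne_zero
  obtain ⟨g, hg, hn⟩ := Nat.find_spec hex
  obtain ⟨i, j, hij⟩ : ∃ i j, g i = Sum.inr j := by
    by_contra hc
    push Not at hc
    have : ∀ i, ∃ s, g i = Sum.inl s := fun i => by
      rcases hi : g i with s | j
      · exact ⟨s, rfl⟩
      · exact (hc i j hi).elim
    choose f hf using this
    apply hg
    rw [← h f]
    congr 1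
    ext a k
    simp [M, w, hf]
  refine ⟨fun k => ((M g).updateRow i (Pi.single k 1)).det, fun h0 => hg ?_, fun k => ?_,
    fun s => ?_⟩
  · have := congrFun h0 j
    rwa [show Pi.single j 1 = w (g i) by rw [hij]; rfl, ← hup, Function.update_eq_self] at this
  · have := Matrix.det_le (A := M (Function.update g i (Sum.inr k))) (abv := AbsoluteValue.abs)
      (x := (K : ℤ)) fun a b => by
        rw [AbsoluteValue.abs_apply, Int.abs_eq_natAbs]
        exact_mod_cast hw _ _
    rw [hup, AbsoluteValue.abs_apply, Int.abs_eq_natAbs, nsmul_eq_mul] at this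
    exact_mod_cast this
  · rw [rank_row]
    by_contra hc
    have h1 := Nat.find_min' hex ⟨Function.update g i (Sum.inl s), by rw [hup]; exact hc, rfl⟩
    rw [← hn] at h1
    refine absurd h1 (not_le.2 (Finset.card_lt_card ⟨fun a ha => ?_, fun hs => ?_⟩))
    · by_cases e : a = i
      · simp [e] at ha
      · simpa [e] using ha
    · have := hs (show i ∈ _ by simp [hij])
      simp at this

theorem exists_small' {S ι : Type*} [Fintype ι] [DecidableEq ι] (v : S → ι → ℤ) (K : ℕ)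
    (hK : 1 ≤ K) (hv : ∀ s i, (v s i).natAbs ≤ K) (c0 : ι → ℚ) (h0 : c0 ≠ 0)
    (h : ∀ s, ∑ i, c0 i * v s i = 0) :
    ∃ c : ι → ℤ, c ≠ 0 ∧ (∀ i, (c i).natAbs ≤ (Fintype.card ι).factorial * K ^ Fintype.card ι) ∧
      ∀ s, ∑ i, c i * v s i = 0 := by
  refine exists_small v K hK hv fun f => ?_
  have h1 : (Matrix.of fun i k => (v (f i) k : ℚ)).det = 0 :=
    Matrix.exists_mulVec_eq_zero_iff.1 ⟨c0, h0, by
      funext i
      simpa [Matrix.mulVec, dotProduct, mul_comm] using h (f i)⟩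
  have h2 := (Int.castRingHom ℚ).map_det (Matrix.of fun i k => v (f i) k)
  exact Int.cast_eq_zero.1 (h2.trans h1)

theorem det_le {r : ℕ} (M : Matrix (Fin r) (Fin r) ℤ) (c : Fin r → ℝ)
    (h : ∀ s k, |(M s k : ℝ)| ≤ c k) : |(M.det : ℝ)| ≤ r.factorial * ∏ k, c k := by
  rw [Matrix.det_apply']
  push_cast
  refine (Finset.abs_sum_le_sum_abs _ _).trans ((Finset.sum_le_card_nsmul _ _ (∏ k, c k)
    fun σ _ => ?_).trans (by simp [Fintype.card_perm]))
  rw [abs_mul, Finset.abs_prod]
  have : |((Equiv.Perm.sign σ : ℤ) : ℝ)| = 1 := by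
    rcases Int.units_eq_one_or (Equiv.Perm.sign σ) with e | e <;> simp [e]
  rw [this, one_mul]
  exact Finset.prod_le_prod (fun k _ => abs_nonneg _) fun k _ => h _ _

end Pool.Agent.P.MP_a60a76_nt.Fs
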