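import Pool.Agent.P.MP_a60a76_nt.Fs.Defs
import Pool.Agent.P.MP_a60a76_nt.Fs.Rank

namespace Pool.Agent.P.MP_a60a76_nt.Fs

open Polynomial
open scoped NNReal

theorem small_coeff_swap {R : Type*} [CommRing R] (f : R[X][X]) (i j : ℕ) :
    ((Polynomial.Bivariate.swap f).coeff i).coeff j = (f.coeff j).coeff i := by
  induction f using Polynomial.induction_on' with
  | add p q hp hq => simp only [map_add, coeff_add, hp, hq]
  | monomial n g =>
    induction g using Polynomial.induction_on' with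
    | add p q hp hq => simp only [map_add, coeff_add, hp, hq]
    | monomial m r =>
      rw [Polynomial.Bivariate.swap_monomial_monomial]
      simp only [coeff_monomial]
      split_ifs with h1 h2 h2 <;> simp [coeff_monomial, *]

theorem small_dX_le_iff {R : Type*} [CommRing R] (f : R[X][X]) (n : ℕ) :
    dX f ≤ n ↔ ∀ i j, n < i → (f.coeff j).coeff i = 0 := by
  unfold dX
  rw [natDegree_le_iff_coeff_eq_zero]
  constructor
  · intro h i j hi
    rw [← small_coeff_swap, h i hi, coeff_zero]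
  · intro h i hi
    ext j
    rw [small_coeff_swap, h i j hi, coeff_zero]

theorem small_coeff_zero {R : Type*} [CommRing R] {n1 n2 n3 : ℕ} {F : R[X][X][X]}
    (h3 : F.natDegree ≤ n3) (h12 : DegB n1 n2 F) (i j k : ℕ) (h : n1 < i ∨ n2 < j ∨ n3 < k) :
    ((F.coeff k).coeff j).coeff i = 0 := by
  rcases h with h | h | h
  · exact (small_dX_le_iff _ _).1 (h12 k).1 i j h
  · rw [coeff_eq_zero_of_natDegree_lt (lt_of_le_of_lt (h12 k).2 h), coeff_zero]
  · rw [coeff_eq_zero_of_natDegree_lt (lt_of_le_of_lt h3 h), coeff_zero, coeff_zero]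

/-- The polynomial with a given array of coefficients. -/
noncomputable def smallMono {R : Type*} [CommRing R] {U V d : ℕ}
    (c : Fin U × Fin V × Fin d → R) : R[X][X][X] :=
  ∑ e : Fin U × Fin V × Fin d,
    monomial (e.2.2 : ℕ) (monomial (e.2.1 : ℕ) (monomial (e.1 : ℕ) (c e)))

theorem small_coeff_term {R : Type*} [CommRing R] (a b c i j k : ℕ) (r : R) :
    (((monomial c (monomial b (monomial a r)) : R[X][X][X]).coeff k).coeff j).coeff i =
      if a = i ∧ b = j ∧ c = k then r else 0 := by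
  by_cases h1 : c = k <;> by_cases h2 : b = j <;> by_cases h3 : a = i <;>
    simp [coeff_monomial, h1, h2, h3]

theorem small_mono_coeff {R : Type*} [CommRing R] {U V d : ℕ}
    (c : Fin U × Fin V × Fin d → R) (e : Fin U × Fin V × Fin d) :
    (((smallMono c).coeff e.2.2).coeff e.2.1).coeff e.1 = c e := by
  unfold smallMono
  simp only [finsetSum_coeff, small_coeff_term]
  rw [Finset.sum_eq_single e]
  · simp
  · intro e' _ hne
    rw [if_neg]
    rintro ⟨h1, h2, h3⟩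
    exact hne (Prod.ext (Fin.ext h1) (Prod.ext (Fin.ext h2) (Fin.ext h3)))
  · intro h
    exact absurd (Finset.mem_univ e) h

theorem small_mono_coeff_zero {R : Type*} [CommRing R] {U V d : ℕ}
    (c : Fin U × Fin V × Fin d → R) (i j k : ℕ) (h : U ≤ i ∨ V ≤ j ∨ d ≤ k) :
    (((smallMono c).coeff k).coeff j).coeff i = 0 := by
  unfold smallMono
  simp only [finsetSum_coeff, small_coeff_term]
  refine Finset.sum_eq_zero fun e _ => ?_
  rw [if_neg]
  rintro ⟨h1, h2, h3⟩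
  have := e.1.2
  have := e.2.1.2
  have := e.2.2.2
  omega

theorem small_ev3_mono {R S : Type*} [CommRing R] [CommRing S] (φ : R →+* S) {U V d : ℕ}
    (c : Fin U × Fin V × Fin d → R) (x j t : S) :
    ev3 (map3 φ (smallMono c)) x j t = ∑ e : Fin U × Fin V × Fin d,
      φ (c e) * (x ^ (e.1 : ℕ) * j ^ (e.2.1 : ℕ) * t ^ (e.2.2 : ℕ)) := by
  unfold ev3 map3 smallMono
  simp only [Polynomial.map_sum, eval_finsetSum, Polynomial.map_monomial, eval_monomial,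
    coe_mapRingHom, coe_evalEvalRingHom]
  refine Finset.sum_congr rfl fun e _ => ?_
  simp only [evalEval, eval_monomial, eval_mul, eval_pow, eval_C]
  ring

theorem small_map3_id {R : Type*} [CommRing R] (F : R[X][X][X]) : map3 (RingHom.id R) F = F := by
  unfold map3
  simp

theorem small_eq_mono {R : Type*} [CommRing R] {n1 n2 n3 : ℕ} {F : R[X][X][X]}
    (h3 : F.natDegree ≤ n3) (h12 : DegB n1 n2 F) :
    F = smallMono (fun e : Fin (n1 + 1) × Fin (n2 + 1) × Fin (n3 + 1) =>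
      ((F.coeff e.2.2).coeff e.2.1).coeff e.1) := by
  ext k j i
  by_cases h : n1 < i ∨ n2 < j ∨ n3 < k
  · rw [small_coeff_zero h3 h12 i j k h, small_mono_coeff_zero _ i j k (by omega)]
  · have h1 : i < n1 + 1 := by omega
    have h2 : j < n2 + 1 := by omega
    have h3' : k < n3 + 1 := by omega
    exact (small_mono_coeff (fun e : Fin (n1 + 1) × Fin (n2 + 1) × Fin (n3 + 1) =>
      ((F.coeff e.2.2).coeff e.2.1).coeff e.1) (⟨i, h1⟩, ⟨j, h2⟩, ⟨k, h3'⟩)).symm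

theorem small_ev3 {R S : Type*} [CommRing R] [CommRing S] (φ : R →+* S) {n1 n2 n3 : ℕ}
    {F : R[X][X][X]} (h3 : F.natDegree ≤ n3) (h12 : DegB n1 n2 F) (x j t : S) :
    ev3 (map3 φ F) x j t = ∑ e : Fin (n1 + 1) × Fin (n2 + 1) × Fin (n3 + 1),
      φ (((F.coeff e.2.2).coeff e.2.1).coeff e.1) *
        (x ^ (e.1 : ℕ) * j ^ (e.2.1 : ℕ) * t ^ (e.2.2 : ℕ)) := by
  conv_lhs => rw [small_eq_mono h3 h12]
  exact small_ev3_mono φ _ x j t

/-- The monomial with denominators cleared. -/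
def smallRow (n1 n2 n3 : ℕ) (x : ℤ) (j t : ℚ) (e : Fin (n1 + 1) × Fin (n2 + 1) × Fin (n3 + 1)) :
    ℤ :=
  x ^ (e.1 : ℕ) * (j.num ^ (e.2.1 : ℕ) * (j.den : ℤ) ^ (n2 - e.2.1)) *
    (t.num ^ (e.2.2 : ℕ) * (t.den : ℤ) ^ (n3 - e.2.2))

theorem small_row_cast {S : Type*} [CommRing S] (n1 n2 n3 : ℕ) (x : ℤ) (j t : ℚ) (j' t' : S)
    (hj : j' * (j.den : S) = (j.num : S)) (ht : t' * (t.den : S) = (t.num : S))
    (e : Fin (n1 + 1) × Fin (n2 + 1) × Fin (n3 + 1)) :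
    ((smallRow n1 n2 n3 x j t e : ℤ) : S) = (j.den : S) ^ n2 * (t.den : S) ^ n3 *
      ((x : S) ^ (e.1 : ℕ) * j' ^ (e.2.1 : ℕ) * t' ^ (e.2.2 : ℕ)) := by
  have h2 : (e.2.1 : ℕ) ≤ n2 := Nat.lt_succ_iff.1 e.2.1.2
  have h3 : (e.2.2 : ℕ) ≤ n3 := Nat.lt_succ_iff.1 e.2.2.2
  obtain ⟨p, hp⟩ := Nat.exists_eq_add_of_le h2
  obtain ⟨q, hq⟩ := Nat.exists_eq_add_of_le h3
  have hp' : n2 - e.2.1 = p := by omega
  have hq' : n3 - e.2.2 = q := by omega
  have e2 : (j.den : S) ^ n2 = (j.den : S) ^ (e.2.1 : ℕ) * (j.den : S) ^ p := by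
    rw [← pow_add, ← hp]
  have e3 : (t.den : S) ^ n3 = (t.den : S) ^ (e.2.2 : ℕ) * (t.den : S) ^ q := by
    rw [← pow_add, ← hq]
  unfold smallRow
  rw [hp', hq', e2, e3]
  push_cast
  rw [← hj, ← ht, mul_pow, mul_pow]
  ring

theorem small_row_le (n1 n2 n3 H : ℕ) (hH : 1 ≤ H) (x : ℤ) (j t : ℚ) (hx : x.natAbs ≤ H)
    (hj : hgt j ≤ H) (ht : hgt t ≤ H) (e : Fin (n1 + 1) × Fin (n2 + 1) × Fin (n3 + 1)) :
    (smallRow n1 n2 n3 x j t e).natAbs ≤ H ^ (n1 + n2 + n3) := by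
  have h1 : (e.1 : ℕ) ≤ n1 := Nat.lt_succ_iff.1 e.1.2
  have h2 : (e.2.1 : ℕ) ≤ n2 := Nat.lt_succ_iff.1 e.2.1.2
  have h3 : (e.2.2 : ℕ) ≤ n3 := Nat.lt_succ_iff.1 e.2.2.2
  have hj1 : j.num.natAbs ≤ H := le_trans (le_max_left _ _) hj
  have hj2 : j.den ≤ H := le_trans (le_max_right _ _) hj
  have ht1 : t.num.natAbs ≤ H := le_trans (le_max_left _ _) ht
  have ht2 : t.den ≤ H := le_trans (le_max_right _ _) ht
  unfold smallRow
  simp only [Int.natAbs_mul, Int.natAbs_pow, Int.natAbs_natCast]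
  calc x.natAbs ^ (e.1 : ℕ) * (j.num.natAbs ^ (e.2.1 : ℕ) * j.den ^ (n2 - e.2.1)) *
        (t.num.natAbs ^ (e.2.2 : ℕ) * t.den ^ (n3 - e.2.2))
      ≤ H ^ (e.1 : ℕ) * (H ^ (e.2.1 : ℕ) * H ^ (n2 - e.2.1)) *
        (H ^ (e.2.2 : ℕ) * H ^ (n3 - e.2.2)) := by gcongr
    _ = H ^ ((e.1 : ℕ) + n2 + n3) := by
      rw [← pow_add, ← pow_add, ← pow_add, ← pow_add]
      congr 1
      omega
    _ ≤ H ^ (n1 + n2 + n3) := Nat.pow_le_pow_right hH (by omega)

theorem small_sum_cast {S : Type*} [CommRing S] {n1 n2 n3 : ℕ} {G : ℤ[X][X][X]}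
    (h3 : G.natDegree ≤ n3) (h12 : DegB n1 n2 G) (x : ℤ) (j t : ℚ) (j' t' : S)
    (hj : j' * (j.den : S) = (j.num : S)) (ht : t' * (t.den : S) = (t.num : S)) :
    ((∑ e : Fin (n1 + 1) × Fin (n2 + 1) × Fin (n3 + 1),
      ((G.coeff e.2.2).coeff e.2.1).coeff e.1 * smallRow n1 n2 n3 x j t e : ℤ) : S) =
      (j.den : S) ^ n2 * (t.den : S) ^ n3 * ev3 (map3 (Int.castRingHom S) G) x j' t' := by
  rw [small_ev3 _ h3 h12, Finset.mul_sum, Int.cast_sum]
  refine Finset.sum_congr rfl fun e _ => ?_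
  rw [Int.cast_mul, small_row_cast n1 n2 n3 x j t j' t' hj ht e, eq_intCast]
  ring

theorem small_poly_of_coeffs {R : Type*} [CommRing R] (U V d : ℕ)
    (c : Fin U × Fin V × Fin d → R) (hc : c ≠ 0) :
    smallMono c ≠ 0 ∧ (smallMono c).natDegree < d ∧ DegB (U - 1) (V - 1) (smallMono c) := by
  obtain ⟨e, he⟩ := Function.ne_iff.1 hc
  have hU := e.1.2
  have hV := e.2.1.2
  have hd := e.2.2.2
  refine ⟨fun h0 => he ?_, ?_, fun k => ⟨?_, ?_⟩⟩
  · rw [← small_mono_coeff c e, h0]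
    simp
  · have : (smallMono c).natDegree ≤ d - 1 := by
      rw [natDegree_le_iff_coeff_eq_zero]
      intro k hk
      ext j i
      rw [small_mono_coeff_zero c i j k (by omega)]
      simp
    omega
  · rw [small_dX_le_iff]
    intro i j hi
    exact small_mono_coeff_zero c i j k (by omega)
  · rw [natDegree_le_iff_coeff_eq_zero]
    intro j hj
    ext i
    rw [small_mono_coeff_zero c i j k (by omega)]
    simp

/-- A polynomial vanishing on a set of points of small height can be chosen of small height. -/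
theorem small_poly (n1 n2 n3 H : ℕ) (hH : 1 ≤ H) (S : Finset (ℤ × ℚ × ℚ)) (F : ℚ[X][X][X])
    (hF : F ≠ 0) (h3 : F.natDegree ≤ n3) (h12 : DegB n1 n2 F)
    (hS : ∀ s ∈ S, s.1.natAbs ≤ H ∧ hgt s.2.1 ≤ H ∧ hgt s.2.2 ≤ H ∧ ev3 F s.1 s.2.1 s.2.2 = 0) :
    ∃ G : ℤ[X][X][X], G ≠ 0 ∧ G.natDegree ≤ n3 ∧ DegB n1 n2 G ∧
      (∀ i j k, (((G.coeff k).coeff j).coeff i).natAbs ≤
        ((n1 + 1) * (n2 + 1) * (n3 + 1)).factorial *
          (H ^ (n1 + n2 + n3)) ^ ((n1 + 1) * (n2 + 1) * (n3 + 1))) ∧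
      ∀ s ∈ S, ev3 (map3 (Int.castRingHom ℚ) G) s.1 s.2.1 s.2.2 = 0 := by
  have hc0 : (fun e : Fin (n1 + 1) × Fin (n2 + 1) × Fin (n3 + 1) =>
      ((F.coeff e.2.2).coeff e.2.1).coeff e.1) ≠ 0 := by
    intro h0
    apply hF
    rw [small_eq_mono h3 h12, h0]
    simp [smallMono]
  obtain ⟨c, hc, hle, hz⟩ := exists_small' (S := {s // s ∈ S})
    (fun s e => smallRow n1 n2 n3 s.1.1 s.1.2.1 s.1.2.2 e) (H ^ (n1 + n2 + n3))
    (Nat.one_le_pow _ _ hH)
    (fun s e => small_row_le n1 n2 n3 H hH _ _ _ (hS s.1 s.2).1 (hS s.1 s.2).2.1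
      (hS s.1 s.2).2.2.1 e) _ hc0 (by
      intro s
      have h0 := (hS s.1 s.2).2.2.2
      rw [← small_map3_id F, small_ev3 _ h3 h12] at h0
      have h1 := congrArg (fun z => (s.1.2.1.den : ℚ) ^ n2 * (s.1.2.2.den : ℚ) ^ n3 * z) h0
      simp only [mul_zero, Finset.mul_sum] at h1
      rw [← h1]
      refine Finset.sum_congr rfl fun e _ => ?_
      rw [small_row_cast n1 n2 n3 s.1.1 s.1.2.1 s.1.2.2 s.1.2.1 s.1.2.2 (Rat.mul_den_eq_num _)
        (Rat.mul_den_eq_num _) e, RingHom.id_apply]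
      ring)
  obtain ⟨g0, g3, g12⟩ := small_poly_of_coeffs _ _ _ c hc
  have g3' : (smallMono c).natDegree ≤ n3 := Nat.lt_succ_iff.1 g3
  have g12' : DegB n1 n2 (smallMono c) := g12
  have hcard : Fintype.card (Fin (n1 + 1) × Fin (n2 + 1) × Fin (n3 + 1)) =
      (n1 + 1) * (n2 + 1) * (n3 + 1) := by
    simp only [Fintype.card_prod, Fintype.card_fin]
    ring
  rw [hcard] at hle
  refine ⟨smallMono c, g0, g3', g12', fun i j k => ?_, fun s hs => ?_⟩
  · by_cases h : n1 < i ∨ n2 < j ∨ n3 < k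
    · rw [small_coeff_zero g3' g12' i j k h]
      exact Nat.zero_le _
    · have h1 : i < n1 + 1 := by omega
      have h2 : j < n2 + 1 := by omega
      have h3' : k < n3 + 1 := by omega
      have := small_mono_coeff c (⟨i, h1⟩, ⟨j, h2⟩, ⟨k, h3'⟩)
      simp only at this
      rw [this]
      exact hle _
  · have h1 := small_sum_cast (S := ℚ) g3' g12' s.1 s.2.1 s.2.2 s.2.1 s.2.2
      (Rat.mul_den_eq_num _) (Rat.mul_den_eq_num _)
    simp only [small_mono_coeff] at h1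
    have h2 := hz ⟨s, hs⟩
    simp only at h2
    rw [h2, Int.cast_zero] at h1
    have hd : (s.2.1.den : ℚ) ^ n2 * (s.2.2.den : ℚ) ^ n3 ≠ 0 :=
      mul_ne_zero (pow_ne_zero _ (Nat.cast_ne_zero.2 s.2.1.den_nz))
        (pow_ne_zero _ (Nat.cast_ne_zero.2 s.2.2.den_nz))
    exact (mul_eq_zero.1 h1.symm).resolve_left hd

/-- The polynomial with prescribed coefficients. -/
theorem poly_of_coeffs {R : Type*} [CommRing R] (U V d : ℕ) (c : Fin U × Fin V × Fin d → R)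
    (hc : c ≠ 0) :
    ∃ G : R[X][X][X], G ≠ 0 ∧ G.natDegree < d ∧ DegB (U - 1) (V - 1) G ∧
      (∀ e : Fin U × Fin V × Fin d, ((G.coeff e.2.2).coeff e.2.1).coeff e.1 = c e) ∧
      ∀ x j t : R, ev3 G x j t = ∑ e : Fin U × Fin V × Fin d,
        c e * (x ^ (e.1 : ℕ) * j ^ (e.2.1 : ℕ) * t ^ (e.2.2 : ℕ)) := by
  obtain ⟨g0, g3, g12⟩ := small_poly_of_coeffs U V d c hc
  refine ⟨smallMono c, g0, g3, g12, small_mono_coeff c, fun x j t => ?_⟩
  have := small_ev3_mono (RingHom.id R) c x j t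
  rwa [small_map3_id] at this

theorem small_redQ (l : ℕ) (hl : l.Prime) (j : ℚ) (h : ¬ l ∣ j.den) :
    redQ l j * (j.den : ZMod l) = (j.num : ZMod l) := by
  have := Fact.mk hl
  have h0 : (j.den : ZMod l) ≠ 0 := fun h0 => h ((ZMod.natCast_eq_zero_iff _ _).1 h0)
  unfold redQ
  rw [mul_assoc, inv_mul_cancel₀ h0, mul_one]

/-- Clearing denominators in a value. -/
theorem value_int (n1 n2 n3 H c : ℕ) (hH : 1 ≤ H) (G : ℤ[X][X][X]) (h3 : G.natDegree ≤ n3)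
    (h12 : DegB n1 n2 G) (hc : ∀ i j k, (((G.coeff k).coeff j).coeff i).natAbs ≤ c) (x : ℤ)
    (j t : ℚ) (hx : x.natAbs ≤ H) (hj : hgt j ≤ H) (ht : hgt t ≤ H) :
    ∃ N : ℤ, (N : ℚ) = (j.den : ℚ) ^ n2 * (t.den : ℚ) ^ n3 * ev3 (map3 (Int.castRingHom ℚ) G) x j t ∧
      N.natAbs ≤ (n1 + 1) * (n2 + 1) * (n3 + 1) * c * H ^ (n1 + n2 + n3) ∧
      ∀ l : ℕ, l.Prime → ¬ l ∣ j.den → ¬ l ∣ t.den →
        (N : ZMod l) = (j.den : ZMod l) ^ n2 * (t.den : ZMod l) ^ n3 *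
          ev3 (map3 (Int.castRingHom (ZMod l)) G) x (redQ l j) (redQ l t) := by
  refine ⟨∑ e : Fin (n1 + 1) × Fin (n2 + 1) × Fin (n3 + 1),
      ((G.coeff e.2.2).coeff e.2.1).coeff e.1 * smallRow n1 n2 n3 x j t e,
    small_sum_cast h3 h12 x j t j t (Rat.mul_den_eq_num _) (Rat.mul_den_eq_num _), ?_,
    fun l hl hlj hlt =>
      small_sum_cast h3 h12 x j t _ _ (small_redQ l hl j hlj) (small_redQ l hl t hlt)⟩
  refine (Int.natAbs_sum_le _ _).trans ?_
  refine (Finset.sum_le_card_nsmul _ _ (c * H ^ (n1 + n2 + n3)) fun e _ => ?_).trans ?_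
  · rw [Int.natAbs_mul]
    exact Nat.mul_le_mul (hc _ _ _) (small_row_le n1 n2 n3 H hH x j t hx hj ht e)
  · simp only [Finset.card_univ, Fintype.card_prod, Fintype.card_fin, smul_eq_mul]
    apply le_of_eq
    ring

end Pool.Agent.P.MP_a60a76_nt.Fs
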