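import Pool.Agent.P.MP_a60a76_nt.Fs.Defs
import Pool.Agent.P.MP_a60a76_nt.Fs.Small
import Pool.Agent.P.MP_a60a76_nt.Fs.Primes

namespace Pool.Agent.P.MP_a60a76_nt.Fs

open Polynomial
open scoped NNReal

theorem cover_coeff_swap {R : Type*} [CommRing R] (f : R[X][X]) (i j : ℕ) :
    ((Polynomial.Bivariate.swap f).coeff i).coeff j = (f.coeff j).coeff i := by
  induction f using Polynomial.induction_on' with
  | add p q hp hq => simp only [map_add, coeff_add, hp, hq]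
  | monomial n g =>
    rw [Polynomial.Bivariate.swap_monomial, coeff_mul_C, coeff_map, coeff_C_mul_X_pow,
      coeff_monomial]
    by_cases h : j = n
    · subst h; simp
    · rw [if_neg h, if_neg (fun h' => h h'.symm), coeff_zero]

theorem cover_dX_le_iff {R : Type*} [CommRing R] (f : R[X][X]) (n : ℕ) :
    dX f ≤ n ↔ ∀ j, (f.coeff j).natDegree ≤ n := by
  unfold dX
  rw [natDegree_le_iff_coeff_eq_zero]
  constructor
  · intro h j
    rw [natDegree_le_iff_coeff_eq_zero]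
    intro i hi
    rw [← cover_coeff_swap, h i hi, coeff_zero]
  · intro h i hi
    ext j
    rw [cover_coeff_swap, coeff_zero]
    exact coeff_eq_zero_of_natDegree_lt (lt_of_le_of_lt (h j) hi)

theorem cover_degB_iter {n1 n2 : ℕ} {G : ℤ[X][X][X]} (h : DegB n1 n2 G) (k : ℕ) :
    DegB n1 n2 (derivative^[k] G) := by
  intro i
  rw [coeff_iterate_derivative]
  refine ⟨?_, (natDegree_smul_le _ _).trans (h _).2⟩
  rw [cover_dX_le_iff]
  intro j
  rw [coeff_smul]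
  exact (natDegree_smul_le _ _).trans ((cover_dX_le_iff _ _).1 (h _).1 j)

theorem cover_coeff_iter {n c : ℕ} (hn : 1 ≤ n) {G : ℤ[X][X][X]} (hG : G.natDegree ≤ n)
    (hc : ∀ i j k, (((G.coeff k).coeff j).coeff i).natAbs ≤ c) (k : ℕ) (hk : k ≤ n) (i j m : ℕ) :
    ((((derivative^[k] G).coeff m).coeff j).coeff i).natAbs ≤ n ^ n * c := by
  rw [coeff_iterate_derivative, coeff_smul, coeff_smul]
  by_cases h : m + k ≤ n
  · rw [nsmul_eq_mul, Int.natAbs_mul, Int.natAbs_natCast]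
    refine Nat.mul_le_mul ?_ (hc _ _ _)
    calc (m + k).descFactorial k ≤ (m + k) ^ k := Nat.descFactorial_le_pow _ _
      _ ≤ n ^ k := Nat.pow_le_pow_left h _
      _ ≤ n ^ n := Nat.pow_le_pow_right hn hk
  · rw [coeff_eq_zero_of_natDegree_lt (lt_of_le_of_lt hG (not_le.1 h))]
    simp

theorem cover_ev3_iter {R : Type*} [CommRing R] (φ : ℤ →+* R) (G : ℤ[X][X][X]) (x j t : R)
    (k : ℕ) : ev3 (map3 φ (derivative^[k] G)) x j t =
      (derivative^[k] ((map3 φ G).map (evalEvalRingHom x j))).eval t := by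
  unfold ev3 map3
  rw [iterate_derivative_map, iterate_derivative_map]

theorem cover_exists_order {p : ℚ[X]} (hp : p ≠ 0) {t : ℚ} (ht : p.eval t = 0) :
    ∃ k, k < p.natDegree ∧ (derivative^[k] p).eval t = 0 ∧ (derivative^[k + 1] p).eval t ≠ 0 := by
  classical
  have hex : ∃ k, (derivative^[k] p).eval t ≠ 0 := by
    refine ⟨p.natDegree, ?_⟩
    have h1 : (derivative^[p.natDegree] p).natDegree = 0 := by
      have := natDegree_iterate_derivative p p.natDegree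
      omega
    rw [eq_C_of_natDegree_eq_zero h1, eval_C, coeff_iterate_derivative, zero_add,
      Nat.descFactorial_self, nsmul_eq_mul]
    exact mul_ne_zero (Nat.cast_ne_zero.2 (Nat.factorial_ne_zero _)) (leadingCoeff_ne_zero.2 hp)
  have h0 : Nat.find hex ≠ 0 := by
    intro h
    have := Nat.find_spec hex
    rw [h] at this
    exact this ht
  obtain ⟨k, hk⟩ := Nat.exists_eq_succ_of_ne_zero h0
  have hle : Nat.find hex ≤ p.natDegree := by
    by_contra hlt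
    have := Nat.find_spec hex
    rw [iterate_derivative_eq_zero (not_le.1 hlt), eval_zero] at this
    exact this rfl
  refine ⟨k, by omega, ?_, ?_⟩
  · have := Nat.find_min hex (m := k) (by omega)
    exact not_not.1 this
  · have := Nat.find_spec hex
    rwa [hk] at this

/-- The classes of one prime and one polynomial. -/
theorem cover_one (l n : ℕ) (G : ℤ[X][X][X]) (S : Finset (ℤ × ℚ × ℚ)) :
    ∃ 𝒞 : Finset (Finset (ℤ × ℚ × ℚ)), l.Prime → G.natDegree ≤ n →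
      (∀ T ∈ 𝒞, T ⊆ S ∧ IsCls l G T) ∧
      (∀ s ∈ S, ¬ l ∣ s.2.1.den → ¬ l ∣ s.2.2.den →
        ev3 (map3 (Int.castRingHom ℚ) G) s.1 s.2.1 s.2.2 = 0 →
        ev3 (map3 (Int.castRingHom (ZMod l)) G) s.1 (redQ l s.2.1) (redQ l s.2.2) = 0 →
        ev3 (map3 (Int.castRingHom (ZMod l)) (derivative G)) s.1 (redQ l s.2.1)
          (redQ l s.2.2) ≠ 0 → ∃ T ∈ 𝒞, s ∈ T) ∧
      𝒞.card ≤ n * l ^ 2 ∧ ((∀ s ∈ S, s.2.1 = 0) → 𝒞.card ≤ n * l) := by
  classical
  by_cases hl : l.Prime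
  swap
  · exact ⟨∅, fun h => absurd h hl⟩
  have : Fact l.Prime := ⟨hl⟩
  let φ := Int.castRingHom (ZMod l)
  let I : Finset (ZMod l × ZMod l × ZMod l) := Finset.univ.filter fun z =>
    ev3 (map3 φ G) z.1 z.2.1 z.2.2 = 0 ∧ ev3 (map3 φ (derivative G)) z.1 z.2.1 z.2.2 ≠ 0 ∧
      ∃ s ∈ S, redQ l s.2.1 = z.2.1
  let cl : ZMod l × ZMod l × ZMod l → Finset (ℤ × ℚ × ℚ) := fun z => S.filter fun s =>
    ¬ l ∣ s.2.1.den ∧ ¬ l ∣ s.2.2.den ∧ (s.1 : ZMod l) = z.1 ∧ redQ l s.2.1 = z.2.1 ∧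
      redQ l s.2.2 = z.2.2 ∧ ev3 (map3 (Int.castRingHom ℚ) G) s.1 s.2.1 s.2.2 = 0
  refine ⟨I.image cl, fun _ hG => ?_⟩
  have hfib : ∀ x0 j0 : ZMod l, (I.filter fun z => (z.1, z.2.1) = (x0, j0)).card ≤ n := by
    intro x0 j0
    let q : (ZMod l)[X] := (map3 φ G).map (evalEvalRingHom x0 j0)
    by_cases hq : q = 0
    · have : (I.filter fun z => (z.1, z.2.1) = (x0, j0)) = ∅ := by
        rw [Finset.filter_eq_empty_iff]
        intro z hz hz'
        obtain ⟨-, h2, -⟩ := (Finset.mem_filter.1 hz).2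
        obtain ⟨h3, h4⟩ := Prod.mk.inj hz'
        apply h2
        have := cover_ev3_iter φ G z.1 z.2.1 z.2.2 1
        rw [Function.iterate_one] at this
        rw [this, h3, h4]
        change (derivative q).eval _ = 0
        rw [hq, derivative_zero, eval_zero]
      rw [this]; simp
    · have hdeg : q.natDegree ≤ n :=
        (natDegree_map_le.trans natDegree_map_le).trans hG
      refine le_trans ?_ ((Multiset.toFinset_card_le q.roots).trans ((card_roots' q).trans hdeg))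
      refine Finset.card_le_card_of_injOn (fun z => z.2.2) ?_ ?_
      · intro z hz
        have hz1 := Finset.mem_filter.1 (Finset.mem_coe.1 hz)
        obtain ⟨h1, -, -⟩ := (Finset.mem_filter.1 hz1.1).2
        obtain ⟨h3, h4⟩ := Prod.mk.inj hz1.2
        rw [Finset.mem_coe, Multiset.mem_toFinset, mem_roots hq, IsRoot.def]
        rw [h3, h4] at h1
        exact h1
      · intro z hz z' hz' h
        have hz1 := Finset.mem_filter.1 (Finset.mem_coe.1 hz)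
        have hz2 := Finset.mem_filter.1 (Finset.mem_coe.1 hz')
        obtain ⟨h3, h4⟩ := Prod.mk.inj hz1.2
        obtain ⟨h5, h6⟩ := Prod.mk.inj hz2.2
        exact Prod.ext (h3.trans h5.symm) (Prod.ext (h4.trans h6.symm) h)
  refine ⟨?_, ?_, ?_, ?_⟩
  · intro T hT
    obtain ⟨z, hz, rfl⟩ := Finset.mem_image.1 hT
    obtain ⟨-, h2, -⟩ := (Finset.mem_filter.1 hz).2
    exact ⟨Finset.filter_subset _ _, z.1, z.2.1, z.2.2, h2, fun s hs => (Finset.mem_filter.1 hs).2⟩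
  · intro s hs h1 h2 h3 h4 h5
    refine ⟨cl (s.1, redQ l s.2.1, redQ l s.2.2), Finset.mem_image_of_mem _ ?_, ?_⟩
    · exact Finset.mem_filter.2 ⟨Finset.mem_univ _, h4, h5, s, hs, rfl⟩
    · exact Finset.mem_filter.2 ⟨hs, h1, h2, rfl, rfl, rfl, h3⟩
  · refine Finset.card_image_le.trans ?_
    have := Finset.card_le_mul_card_image_of_maps_to (s := I) (t := Finset.univ)
      (f := fun z : ZMod l × ZMod l × ZMod l => (z.1, z.2.1)) (fun _ _ => Finset.mem_univ _) n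
      (fun b _ => hfib b.1 b.2)
    rw [Finset.card_univ, Fintype.card_prod, ZMod.card] at this
    rw [pow_two]
    exact this
  · intro h0
    refine Finset.card_image_le.trans ?_
    have := Finset.card_le_mul_card_image_of_maps_to (s := I)
      (t := (Finset.univ : Finset (ZMod l)).image fun x => (x, redQ l 0))
      (f := fun z : ZMod l × ZMod l × ZMod l => (z.1, z.2.1)) (fun z hz => by
        obtain ⟨-, -, s, hs, h⟩ := (Finset.mem_filter.1 hz).2
        rw [h0 s hs] at h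
        exact Finset.mem_image.2 ⟨z.1, Finset.mem_univ _, by rw [h]⟩) n
      (fun b _ => hfib b.1 b.2)
    refine this.trans (Nat.mul_le_mul_left _ (Finset.card_image_le.trans ?_))
    rw [Finset.card_univ, ZMod.card]

theorem cover_size {n n2 H : ℕ} (hn : 1 ≤ n) (h2 : n2 ≤ n) (hH : 2 ≤ H) :
    H * H * ((n + 1) * (n2 + 1) * (n + 1) * (n ^ n * (((n + 1) * (n2 + 1) * (n + 1)).factorial *
      (H ^ (n + n2 + n)) ^ ((n + 1) * (n2 + 1) * (n + 1)))) * H ^ (n + n2 + n)) ≤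
      H ^ (102 * n ^ 6) := by
  set R := (n + 1) * (n2 + 1) * (n + 1) with hR
  have hpow : ∀ a : ℕ, a ≤ H ^ a := fun a =>
    (Nat.lt_two_pow_self.le).trans (Nat.pow_le_pow_left hH a)
  have hR8 : R ≤ 8 * n ^ 3 := by
    have h1 : n + 1 ≤ 2 * n := by omega
    have h3 : n2 + 1 ≤ 2 * n := by omega
    calc R ≤ (2 * n) * (2 * n) * (2 * n) := Nat.mul_le_mul (Nat.mul_le_mul h1 h3) h1
      _ = 8 * n ^ 3 := by ring
  have e1 : n ^ n ≤ H ^ (n * n) := by
    rw [pow_mul]; exact Nat.pow_le_pow_left (hpow n) n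
  have e2 : R.factorial ≤ H ^ (R * R) := by
    rw [pow_mul]; exact (Nat.factorial_le_pow R).trans (Nat.pow_le_pow_left (hpow R) R)
  have hp : ∀ k, k ≤ 6 → n ^ k ≤ n ^ 6 := fun k hk => Nat.pow_le_pow_right hn hk
  have a0 := hp 0 (by norm_num)
  have a1 := hp 1 (by norm_num)
  have a2 := hp 2 (by norm_num)
  have a3 := hp 3 (by norm_num)
  have a4 := hp 4 (by norm_num)
  have b1 : R * R ≤ 64 * n ^ 6 := by
    calc R * R ≤ (8 * n ^ 3) * (8 * n ^ 3) := Nat.mul_le_mul hR8 hR8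
      _ = 64 * n ^ 6 := by ring
  have b2 : (n + n2 + n) * R ≤ 24 * n ^ 4 := by
    calc (n + n2 + n) * R ≤ (3 * n) * (8 * n ^ 3) := Nat.mul_le_mul (by omega) hR8
      _ = 24 * n ^ 4 := by ring
  have b3 : n * n = n ^ 2 := by ring
  rw [pow_zero] at a0
  rw [pow_one] at a1
  calc H * H * (R * (n ^ n * (R.factorial * (H ^ (n + n2 + n)) ^ R)) * H ^ (n + n2 + n))
      ≤ H * H * (H ^ R * (H ^ (n * n) * (H ^ (R * R) * (H ^ (n + n2 + n)) ^ R)) *
          H ^ (n + n2 + n)) := by gcongr; exact hpow R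
    _ = H ^ (2 + R + n * n + R * R + (n + n2 + n) * R + (n + n2 + n)) := by
      rw [← pow_mul]; ring
    _ ≤ H ^ (102 * n ^ 6) := Nat.pow_le_pow_right (by omega) (by omega)

theorem cover : ∃ c : ℝ, 1 ≤ c ∧ ∀ (n n2 H : ℕ) (L : ℝ) (S : Finset (ℤ × ℚ × ℚ)) (F : ℚ[X][X][X]),
    1 ≤ n → n2 ≤ n → 2 ≤ H → c * n ^ 6 * Real.log H < L → F ≠ 0 → F.natDegree ≤ n → DegB n n2 F →
    (∀ s ∈ S, s.1.natAbs ≤ H ∧ hgt s.2.1 ≤ H ∧ hgt s.2.2 ≤ H ∧ ev3 F s.1 s.2.1 s.2.2 = 0) →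
    ∃ (F0 : ℚ[X][X]) (𝒢 : Finset ℤ[X][X][X]) (𝒞 : Finset (Finset (ℤ × ℚ × ℚ))),
      F0 ≠ 0 ∧ dX F0 ≤ n ∧ F0.natDegree ≤ n2 ∧ 𝒢.card ≤ n ∧
      (∀ G ∈ 𝒢, G ≠ 0 ∧ G.natDegree ≤ n ∧ DegB n n2 G) ∧
      (∀ T ∈ 𝒞, T ⊆ S ∧ ∃ l : ℕ, l.Prime ∧ L < l ∧ ∃ G ∈ 𝒢, IsCls l G T) ∧
      (∀ s ∈ S, F0.evalEval (s.1 : ℚ) s.2.1 = 0 ∨ ∃ T ∈ 𝒞, s ∈ T) ∧
      (𝒞.card : ℝ) ≤ c * n ^ 8 * Real.log H * L ^ 2 ∧
      ((∀ s ∈ S, s.2.1 = 0) → (𝒞.card : ℝ) ≤ c * n ^ 8 * Real.log H * L) := by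
  classical
  obtain ⟨L0, hL0, hprimes⟩ := exists_primes
  refine ⟨2 * L0 + 2000, by linarith, ?_⟩
  intro n n2 H L S F hn h2 hH hL hF hF3 hF12 hS
  obtain ⟨G0, hG0, hG3, hG12, hGc, hGS⟩ := small_poly n n2 n H (by omega) S F hF hF3 hF12 hS
  have hlog : (1 / 2 : ℝ) ≤ Real.log H := by
    have h1 : Real.log 2 ≤ Real.log H :=
      Real.log_le_log (by norm_num) (by exact_mod_cast hH)
    have := Real.log_two_gt_d9
    linarith
  have hn1 : (1 : ℝ) ≤ n := by exact_mod_cast hn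
  have hn6 : (1 : ℝ) ≤ (n : ℝ) ^ 6 := one_le_pow₀ hn1
  have hQ : (1 / 2 : ℝ) ≤ (n : ℝ) ^ 6 * Real.log H := by nlinarith
  have hL' : (2 * L0 + 2000) * ((n : ℝ) ^ 6 * Real.log H) < L := by rw [← mul_assoc]; exact hL
  obtain ⟨P, hP, hPs, hPc⟩ := hprimes L (102 * ((n : ℝ) ^ 6 * Real.log H)) (by nlinarith)
    (by positivity) (by nlinarith)
  have hLpos : 0 < L := by nlinarith
  let 𝒢 : Finset ℤ[X][X][X] :=
    ((Finset.range n).image fun k => derivative^[k] G0).filter fun G => G ≠ 0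
  have h𝒢c : 𝒢.card ≤ n :=
    (Finset.card_filter_le _ _).trans (Finset.card_image_le.trans (Finset.card_range n).le)
  have h𝒢 : ∀ G ∈ 𝒢, G ≠ 0 ∧ G.natDegree ≤ n ∧ DegB n n2 G := by
    intro G hG
    obtain ⟨h1, h3⟩ := Finset.mem_filter.1 hG
    obtain ⟨k, -, rfl⟩ := Finset.mem_image.1 h1
    exact ⟨h3, ((natDegree_iterate_derivative _ _).trans (Nat.sub_le _ _)).trans hG3,
      cover_degB_iter hG12 k⟩
  choose C1 hC1 using fun (l : ℕ) (G : ℤ[X][X][X]) => cover_one l n G S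
  have hcard : ∀ B : ℝ, 0 ≤ B → (∀ l ∈ P, ∀ G ∈ 𝒢, ((C1 l G).card : ℝ) ≤ n * (16 * B)) →
      (((P ×ˢ 𝒢).biUnion fun a => C1 a.1 a.2).card : ℝ) ≤
        (2 * L0 + 2000) * n ^ 8 * Real.log H * B := by
    intro B hB h
    have h1 : (((P ×ˢ 𝒢).biUnion fun a => C1 a.1 a.2).card : ℝ) ≤
        ∑ a ∈ P ×ˢ 𝒢, ((C1 a.1 a.2).card : ℝ) := by
      exact_mod_cast Finset.card_biUnion_le
    have h3 : ∑ a ∈ P ×ˢ 𝒢, ((C1 a.1 a.2).card : ℝ) ≤ (P ×ˢ 𝒢).card • (n * (16 * B)) :=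
      Finset.sum_le_card_nsmul _ _ _ fun a ha =>
        h _ (Finset.mem_product.1 ha).1 _ (Finset.mem_product.1 ha).2
    rw [Finset.card_product, nsmul_eq_mul, Nat.cast_mul] at h3
    have h4 : (𝒢.card : ℝ) ≤ n := by exact_mod_cast h𝒢c
    have h5 : (P.card : ℝ) ≤ 104 * ((n : ℝ) ^ 6 * Real.log H) := by linarith
    have h6 : (P.card : ℝ) * 𝒢.card * (n * (16 * B)) ≤
        104 * ((n : ℝ) ^ 6 * Real.log H) * n * (n * (16 * B)) := by gcongr
    have h7 : 0 ≤ (n : ℝ) ^ 8 * Real.log H * B := by positivity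
    calc _ ≤ _ := h1
      _ ≤ _ := h3
      _ ≤ _ := h6
      _ = 1664 * ((n : ℝ) ^ 8 * Real.log H * B) := by ring
      _ ≤ (2 * L0 + 2000) * ((n : ℝ) ^ 8 * Real.log H * B) := by gcongr; linarith
      _ = _ := by ring
  refine ⟨G0.leadingCoeff.map (mapRingHom (Int.castRingHom ℚ)), 𝒢,
    (P ×ˢ 𝒢).biUnion fun a => C1 a.1 a.2, ?_, ?_, ?_, h𝒢c, h𝒢, ?_, ?_, ?_, ?_⟩
  · rw [Ne, Polynomial.map_eq_zero_iff]
    · exact leadingCoeff_ne_zero.2 hG0
    · exact map_injective _ (RingHom.injective_int _)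
  · rw [cover_dX_le_iff]
    intro j
    rw [coeff_map]
    exact natDegree_map_le.trans ((cover_dX_le_iff _ _).1 (hG12 _).1 j)
  · exact natDegree_map_le.trans (hG12 _).2
  · intro T hT
    obtain ⟨a, ha, hT⟩ := Finset.mem_biUnion.1 hT
    obtain ⟨ha1, ha2⟩ := Finset.mem_product.1 ha
    obtain ⟨h1, h3⟩ := (hC1 a.1 a.2 (hP _ ha1).1 (h𝒢 _ ha2).2.1).1 T hT
    exact ⟨h1, a.1, (hP _ ha1).1, (hP _ ha1).2.1, a.2, ha2, h3⟩
  · intro s hs
    by_cases h0 : (G0.leadingCoeff.map (mapRingHom (Int.castRingHom ℚ))).evalEval (s.1 : ℚ)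
      s.2.1 = 0
    · exact Or.inl h0
    right
    obtain ⟨hx, hj, ht, -⟩ := hS s hs
    let p : ℚ[X] := (map3 (Int.castRingHom ℚ) G0).map (evalEvalRingHom (s.1 : ℚ) s.2.1)
    have hp : p ≠ 0 := by
      intro hp
      apply h0
      have : p.coeff G0.natDegree = 0 := by rw [hp, coeff_zero]
      simp only [p, map3, coeff_map] at this
      exact this
    have hpd : p.natDegree ≤ n := (natDegree_map_le.trans natDegree_map_le).trans hG3
    obtain ⟨k, hk, hk0, hk1⟩ := cover_exists_order hp (t := s.2.2) (hGS s hs)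
    rw [← cover_ev3_iter] at hk0 hk1
    have hdeg : ∀ k, (derivative^[k] G0).natDegree ≤ n := fun k =>
      ((natDegree_iterate_derivative _ _).trans (Nat.sub_le _ _)).trans hG3
    obtain ⟨N, hN, hNs, hNl⟩ := value_int n n2 n H _ (by omega) (derivative^[k + 1] G0) (hdeg _)
      (cover_degB_iter hG12 _) (cover_coeff_iter hn hG3 hGc (k + 1) (by omega)) s.1 s.2.1 s.2.2
      hx hj ht
    obtain ⟨N', hN', -, hNl'⟩ := value_int n n2 n H _ (by omega) (derivative^[k] G0) (hdeg _)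
      (cover_degB_iter hG12 _) (cover_coeff_iter hn hG3 hGc k (by omega)) s.1 s.2.1 s.2.2
      hx hj ht
    have hN0 : N ≠ 0 := by
      intro h
      rw [h, Int.cast_zero] at hN
      exact mul_ne_zero (mul_ne_zero (pow_ne_zero _ (Nat.cast_ne_zero.2 s.2.1.den_ne_zero))
        (pow_ne_zero _ (Nat.cast_ne_zero.2 s.2.2.den_ne_zero))) hk1 hN.symm
    have hN'0 : N' = 0 := by
      rw [hk0, mul_zero] at hN'
      exact_mod_cast hN'
    have hM0 : (s.2.1.den : ℤ) * s.2.2.den * N ≠ 0 :=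
      mul_ne_zero (mul_ne_zero (Nat.cast_ne_zero.2 s.2.1.den_ne_zero)
        (Nat.cast_ne_zero.2 s.2.2.den_ne_zero)) hN0
    have hMs : ((s.2.1.den : ℤ) * s.2.2.den * N).natAbs ≤ H ^ (102 * n ^ 6) := by
      refine le_trans ?_ (cover_size hn h2 hH)
      rw [Int.natAbs_mul, Int.natAbs_mul, Int.natAbs_natCast, Int.natAbs_natCast]
      exact Nat.mul_le_mul (Nat.mul_le_mul ((le_max_right _ _).trans hj)
        ((le_max_right _ _).trans ht)) hNs
    obtain ⟨l, hlP, hl⟩ := exists_not_dvd P (fun p hp => (hP p hp).1) hM0 (by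
      refine lt_of_le_of_lt ?_ hPs
      have h1 : |(((s.2.1.den : ℤ) * s.2.2.den * N : ℤ) : ℝ)| ≤ (H : ℝ) ^ (102 * n ^ 6) := by
        rw [← Int.cast_abs, ← Int.natCast_natAbs, Int.cast_natCast]
        exact_mod_cast hMs
      refine (Real.log_le_log (abs_pos.2 (Int.cast_ne_zero.2 hM0)) h1).trans ?_
      rw [Real.log_pow]
      push_cast
      exact le_of_eq (by ring))
    have hlp := (hP l hlP).1
    have : Fact l.Prime := ⟨hlp⟩
    have hl1 : ¬ l ∣ s.2.1.den := fun h =>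
      hl (((Int.natCast_dvd_natCast.2 h).mul_right _).mul_right _)
    have hl2 : ¬ l ∣ s.2.2.den := fun h =>
      hl (((Int.natCast_dvd_natCast.2 h).mul_left _).mul_right _)
    have hl3 : (N : ZMod l) ≠ 0 := fun h =>
      hl (((ZMod.intCast_zmod_eq_zero_iff_dvd N l).1 h).mul_left _)
    have hmem : derivative^[k] G0 ∈ 𝒢 := by
      refine Finset.mem_filter.2 ⟨Finset.mem_image.2 ⟨k, Finset.mem_range.2 (by omega), rfl⟩, ?_⟩
      intro h
      apply hk1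
      rw [Function.iterate_succ_apply', h]
      simp [ev3, map3]
    have hd1 : ((s.2.1.den : ZMod l)) ≠ 0 := fun h => hl1 ((ZMod.natCast_eq_zero_iff _ _).1 h)
    have hd2 : ((s.2.2.den : ZMod l)) ≠ 0 := fun h => hl2 ((ZMod.natCast_eq_zero_iff _ _).1 h)
    obtain ⟨T, hT, hsT⟩ := (hC1 l _ hlp (hdeg k)).2.1 s hs hl1 hl2 hk0 (by
      have := hNl' l hlp hl1 hl2
      rw [hN'0, Int.cast_zero] at this
      exact (mul_eq_zero.1 this.symm).resolve_left
        (mul_ne_zero (pow_ne_zero _ hd1) (pow_ne_zero _ hd2))) (by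
      intro h
      apply hl3
      rw [hNl l hlp hl1 hl2, Function.iterate_succ_apply', h, mul_zero])
    exact ⟨T, Finset.mem_biUnion.2 ⟨(l, derivative^[k] G0), Finset.mem_product.2 ⟨hlP, hmem⟩, hT⟩,
      hsT⟩
  · refine hcard _ (by positivity) fun l hl G hG => ?_
    have h1 : ((C1 l G).card : ℝ) ≤ n * (l : ℝ) ^ 2 := by
      exact_mod_cast (hC1 l G (hP l hl).1 (h𝒢 G hG).2.1).2.2.1
    have h3 := (hP l hl).2.2
    calc _ ≤ _ := h1
      _ ≤ n * (4 * L) ^ 2 := by gcongr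
      _ = _ := by ring
  · intro h0
    refine hcard _ hLpos.le fun l hl G hG => ?_
    have h1 : ((C1 l G).card : ℝ) ≤ n * (l : ℝ) := by
      exact_mod_cast (hC1 l G (hP l hl).1 (h𝒢 G hG).2.1).2.2.2 h0
    have h3 := (hP l hl).2.2
    calc _ ≤ _ := h1
      _ ≤ n * (16 * L) := by gcongr; linarith

end Pool.Agent.P.MP_a60a76_nt.Fs
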