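import Pool.Agent.P.MP_a60a76_nt.Fs.Defs

namespace Pool.Agent.P.MP_a60a76_nt.Fs

open Polynomial
open scoped NNReal

theorem graphs_coeff_swap (g : ℚ[X][X]) (i j : ℕ) :
    ((Polynomial.Bivariate.swap g).coeff j).coeff i = (g.coeff i).coeff j := by
  induction g using Polynomial.induction_on' with
  | add p q hp hq => simp only [map_add, coeff_add, hp, hq]
  | monomial n f =>
    rw [Polynomial.Bivariate.swap_monomial, coeff_mul_C, coeff_map, coeff_C_mul, coeff_X_pow,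
      coeff_monomial]
    by_cases h : n = i
    · subst h; simp
    · have h' : ¬ i = n := fun e => h e.symm
      simp [h, h']

theorem graphs_coeff_le (G : ℚ[X][X]) (i : ℕ) : (G.coeff i).natDegree ≤ dX G := by
  rw [natDegree_le_iff_coeff_eq_zero]
  intro N hN
  rw [← graphs_coeff_swap, coeff_eq_zero_of_natDegree_lt hN, coeff_zero]

/-- The numerator of `G (x, P / Q)`. -/
noncomputable def graphsNum (n : ℕ) (G : ℚ[X][X]) (P Q : ℚ[X]) : ℚ[X] :=
  ∑ i ∈ Finset.range (n + 1), G.coeff i * P ^ i * Q ^ (n - i)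

theorem graphsNum_map {A : Type*} [CommRing A] (f : ℚ[X] →+* A) {n : ℕ} {G : ℚ[X][X]}
    (hn : G.natDegree ≤ n) (P Q : ℚ[X]) (y : A) (hy : y * f Q = f P) :
    f (graphsNum n G P Q) = f Q ^ n * G.eval₂ f y := by
  rw [eval₂_eq_sum_range' f (Nat.lt_succ_of_le hn), graphsNum, map_sum, Finset.mul_sum]
  refine Finset.sum_congr rfl fun i hi => ?_
  have hi' : i ≤ n := Nat.lt_succ_iff.1 (Finset.mem_range.1 hi)
  obtain ⟨k, rfl⟩ := Nat.exists_eq_add_of_le hi'
  rw [map_mul, map_mul, map_pow, map_pow, ← hy, Nat.add_sub_cancel_left]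
  ring

theorem graphsNum_deg {n U : ℕ} {G : ℚ[X][X]} (hx : dX G ≤ n) {P Q : ℚ[X]}
    (hP : P.natDegree ≤ U) (hQ : Q.natDegree ≤ U) :
    (graphsNum n G P Q).natDegree ≤ n + n * U := by
  refine natDegree_sum_le_of_forall_le _ _ fun i hi => ?_
  have hi' : i ≤ n := Nat.lt_succ_iff.1 (Finset.mem_range.1 hi)
  obtain ⟨k, rfl⟩ := Nat.exists_eq_add_of_le hi'
  rw [Nat.add_sub_cancel_left]
  have h1 := (graphs_coeff_le G i).trans hx
  have h2 : (P ^ i).natDegree ≤ i * U := natDegree_pow_le.trans (Nat.mul_le_mul_left _ hP)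
  have h3 : (Q ^ k).natDegree ≤ k * U := natDegree_pow_le.trans (Nat.mul_le_mul_left _ hQ)
  have h4 : (G.coeff i * P ^ i * Q ^ k).natDegree ≤
      (G.coeff i).natDegree + (P ^ i).natDegree + (Q ^ k).natDegree :=
    natDegree_mul_le.trans (Nat.add_le_add_right natDegree_mul_le _)
  rw [add_mul]
  omega

/-- A nonzero polynomial has few graphs as components and meets other graphs in few points. -/
theorem graph_or (G : ℚ[X][X]) (hG : G ≠ 0) {n U : ℕ} (hn : G.natDegree ≤ n) (hx : dX G ≤ n)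
    (Φ : Finset (ℤ[X] × ℤ[X])) (hΦ : ∀ φ ∈ Φ, φ.2 ≠ 0 ∧ φ.1.natDegree ≤ U ∧ φ.2.natDegree ≤ U) :
    ∃ Ψ ⊆ Φ, Ψ.card ≤ n ∧ ∀ φ ∈ Φ, (∃ ψ ∈ Ψ, φ.1 * ψ.2 = ψ.1 * φ.2) ∨
      ∀ S : Finset (ℤ × ℚ), Set.InjOn Prod.fst (S : Set (ℤ × ℚ)) →
        (∀ s ∈ S, G.evalEval (s.1 : ℚ) s.2 = 0 ∧ s.2 * (φ.2.eval s.1 : ℤ) = (φ.1.eval s.1 : ℤ)) →
        S.card ≤ n + n * U + U := by
  classical
  let c : ℤ[X] →+* ℚ[X] := mapRingHom (Int.castRingHom ℚ)
  let ι : ℚ[X] →+* RatFunc ℚ := algebraMap ℚ[X] (RatFunc ℚ)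
  have hc : Function.Injective c := map_injective _ (RingHom.injective_int _)
  have hι : Function.Injective ι := IsFractionRing.injective _ _
  let j : ℤ[X] →+* RatFunc ℚ := ι.comp c
  have hj : Function.Injective j := hι.comp hc
  let r : ℤ[X] × ℤ[X] → RatFunc ℚ := fun φ => j φ.1 / j φ.2
  have hj2 : ∀ φ ∈ Φ, j φ.2 ≠ 0 := fun φ hφ => (map_ne_zero_iff j hj).2 (hΦ φ hφ).1
  have hG' : G.map ι ≠ 0 := (Polynomial.map_ne_zero_iff hι).2 hG
  let Φ0 := Φ.filter fun φ => G.eval₂ ι (r φ) = 0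
  obtain ⟨Ψ, h1, h2, h3⟩ := Finset.exists_subset_injOn_image_eq_of_surjOn (f := r)
    (Φ0 : Set (ℤ[X] × ℤ[X])) (Φ0.image r) (by
      rw [Finset.coe_image]
      exact Set.surjOn_image _ _)
  have h1' : Ψ ⊆ Φ0 := Finset.coe_subset.1 h1
  refine ⟨Ψ, h1'.trans (Finset.filter_subset _ _), ?_, ?_⟩
  · rw [← Finset.card_image_of_injOn h2, h3]
    have h4 : Φ0.image r ⊆ (G.map ι).roots.toFinset := by
      intro t ht
      obtain ⟨φ, hφ, rfl⟩ := Finset.mem_image.1 ht
      rw [Multiset.mem_toFinset, mem_roots hG', IsRoot.def, eval_map]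
      exact (Finset.mem_filter.1 hφ).2
    calc (Φ0.image r).card ≤ (G.map ι).roots.toFinset.card := Finset.card_le_card h4
      _ ≤ (G.map ι).roots.card := Multiset.toFinset_card_le _
      _ ≤ (G.map ι).natDegree := card_roots' _
      _ ≤ n := natDegree_map_le.trans hn
  · intro φ hφ
    by_cases h0 : G.eval₂ ι (r φ) = 0
    · left
      have h4 : r φ ∈ Ψ.image r := by
        rw [h3]
        exact Finset.mem_image_of_mem _ (Finset.mem_filter.2 ⟨hφ, h0⟩)
      obtain ⟨ψ, hψ, e⟩ := Finset.mem_image.1 h4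
      refine ⟨ψ, hψ, hj ?_⟩
      have hψ' : ψ ∈ Φ := (Finset.mem_filter.1 (h1' hψ)).1
      rw [map_mul, map_mul]
      exact ((div_eq_div_iff (hj2 φ hφ) (hj2 ψ hψ')).1 e.symm)
    · right
      intro S hS hs
      set g := graphsNum n G (c φ.1) (c φ.2) with hg
      have hg0 : g ≠ 0 := by
        intro e
        have h4 := graphsNum_map ι hn (c φ.1) (c φ.2) (r φ) (div_mul_cancel₀ _ (hj2 φ hφ))
        rw [← hg, e, map_zero] at h4
        exact mul_ne_zero (pow_ne_zero n (hj2 φ hφ)) h0 h4.symm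
      have hdeg : g.natDegree ≤ n + n * U :=
        graphsNum_deg hx (natDegree_map_le.trans (hΦ φ hφ).2.1)
          (natDegree_map_le.trans (hΦ φ hφ).2.2)
      have hev : ∀ (p : ℤ[X]) (x : ℤ), evalRingHom (x : ℚ) (c p) = ((p.eval x : ℤ) : ℚ) := by
        intro p x
        change (p.map (Int.castRingHom ℚ)).eval (x : ℚ) = _
        exact eval_intCast_map (Int.castRingHom ℚ) p x
      have h5 : ∀ s ∈ S, ((s.1 : ℤ) : ℚ) ∈ g.roots.toFinset := by
        intro s hs'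
        obtain ⟨e1, e2⟩ := hs s hs'
        rw [Multiset.mem_toFinset, mem_roots hg0, IsRoot.def]
        have h6 := graphsNum_map (evalRingHom (s.1 : ℚ)) hn (c φ.1) (c φ.2) s.2
          (by rw [hev, hev]; exact e2)
        rw [eval₂_evalRingHom, e1, mul_zero] at h6
        exact h6
      have h7 : S.card ≤ g.roots.toFinset.card := by
        refine Finset.card_le_card_of_injOn (fun s => ((s.1 : ℤ) : ℚ)) h5 ?_
        intro s hs1 t ht1 e
        exact hS hs1 ht1 (Int.cast_injective e)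
      have h8 : g.roots.toFinset.card ≤ g.natDegree :=
        (Multiset.toFinset_card_le _).trans (card_roots' _)
      omega

end Pool.Agent.P.MP_a60a76_nt.Fs
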