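import Pool.Agent.P.MP_a60a76_nt.Fs.Defs
import Pool.Agent.P.MP_a60a76_nt.Fs.Cls
import Pool.Agent.P.MP_a60a76_nt.Fs.Small

namespace Pool.Agent.P.MP_a60a76_nt.Fs

open Polynomial
open scoped NNReal

theorem surfCls_dvd {l : ℕ} (hl : l.Prime) {G : ℤ[X][X][X]} {T : Finset (ℤ × ℚ × ℚ)}
    (hT : IsCls l G T) {ι : Type} [Fintype ι] [DecidableEq ι] {r : ℕ} (hr : Fintype.card ι = r)
    (D : ℕ) (e : ι → ℕ × ℕ × ℕ) (v : T → ι → ℤ) (u : T → ℤ)
    (hv : ∀ s k, (v s k : ℚ) =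
      u s * ((s.1.1 : ℚ) ^ (e k).1 * s.1.2.1 ^ (e k).2.1 * s.1.2.2 ^ (e k).2.2)) (f : ι → T) :
    (l : ℤ) ^ (r * D - (D + 2).choose 3) ∣ (Matrix.of fun i k => v (f i) k).det ∧
      ((∀ s ∈ T, s.2.1 = 0) →
        (l : ℤ) ^ (r * D - (D + 1).choose 2) ∣ (Matrix.of fun i k => v (f i) k).det) := by
  let q : Fin r ≃ ι := (Fintype.equivFinOfCardEq hr).symm
  have h := cls_dvd hl hT D (fun i => (f (q i)).1) (fun i => (f (q i)).2) (fun k => e (q k))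
    ((Matrix.of fun i k => v (f i) k).submatrix q q) (fun i => u (f (q i)))
    (fun i k => hv (f (q i)) (q k))
  rw [Matrix.det_submatrix_equiv_self] at h
  exact ⟨h.1, fun h0 => h.2 fun i => h0 _ (f (q i)).2⟩

theorem surfCls_zero {ι : Type} [Fintype ι] [DecidableEq ι] {r : ℕ} (hr : Fintype.card ι = r)
    (h0 : 0 < r) (M : Matrix ι ι ℤ) (w : ι → ℝ) {X γ : ℝ} (hX : 1 < X) {l E : ℕ}
    (hM : ∀ s k, |(M s k : ℝ)| ≤ X ^ w k) (hE : r ≤ E) (hw : ∑ k, w k < γ * E)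
    (hL : (r : ℝ) * X ^ γ ≤ l) (hd : (l : ℤ) ^ E ∣ M.det) : M.det = 0 := by
  let q : Fin r ≃ ι := (Fintype.equivFinOfCardEq hr).symm
  have hX0 : 0 < X := by linarith
  have h1 := det_le (M.submatrix q q) (fun k => X ^ w (q k)) fun s k => hM (q s) (q k)
  rw [Matrix.det_submatrix_equiv_self, ← Real.rpow_sum_of_pos hX0,
    q.sum_comp] at h1
  have h2 : (r.factorial : ℝ) ≤ (r : ℝ) ^ E := by
    exact_mod_cast (Nat.factorial_le_pow r).trans (Nat.pow_le_pow_right h0 hE)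
  have h3 : X ^ (∑ k, w k) < (X ^ γ) ^ E := by
    rw [← Real.rpow_natCast, ← Real.rpow_mul hX0.le]
    exact Real.rpow_lt_rpow_of_exponent_lt hX hw
  have hr0 : (0 : ℝ) < (r : ℝ) ^ E := pow_pos (by exact_mod_cast h0) E
  have h4 : |(M.det : ℝ)| < (l : ℝ) ^ E :=
    calc |(M.det : ℝ)| ≤ (r : ℝ) ^ E * X ^ (∑ k, w k) :=
          h1.trans (mul_le_mul_of_nonneg_right h2 (by positivity))
      _ < (r : ℝ) ^ E * (X ^ γ) ^ E := mul_lt_mul_of_pos_left h3 hr0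
      _ = ((r : ℝ) * X ^ γ) ^ E := (mul_pow _ _ _).symm
      _ ≤ (l : ℝ) ^ E := pow_le_pow_left₀ (by positivity) hL E
  refine Int.eq_zero_of_abs_lt_dvd hd ?_
  exact_mod_cast h4

theorem surfCls_row (t : ℚ) {b n : ℕ} (hb : b ≤ n) :
    ((t.num ^ b * (t.den : ℤ) ^ (n - b) : ℤ) : ℚ) = (((t.den : ℤ) ^ n : ℤ) : ℚ) * t ^ b := by
  obtain ⟨c, rfl⟩ := Nat.exists_eq_add_of_le hb
  have h : (t.num : ℚ) = t.den * t := by rw [mul_comm]; exact (Rat.mul_den_eq_num t).symm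
  push_cast
  rw [Nat.add_sub_cancel_left, h]
  ring

theorem surfCls_bd (t : ℚ) {b n : ℕ} (hb : b ≤ n) {H : ℝ} (h : (hgt t : ℝ) ≤ H) :
    |((t.num ^ b * (t.den : ℤ) ^ (n - b) : ℤ) : ℝ)| ≤ H ^ n := by
  obtain ⟨c, rfl⟩ := Nat.exists_eq_add_of_le hb
  have h1 : |(t.num : ℝ)| ≤ H := by
    refine le_trans ?_ h
    rw [← Int.cast_abs, ← Nat.cast_natAbs]
    exact_mod_cast le_max_left _ _
  have h2 : |(t.den : ℝ)| ≤ H := by
    refine le_trans ?_ h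
    rw [Nat.abs_cast]
    exact_mod_cast le_max_right _ _
  push_cast
  rw [Nat.add_sub_cancel_left, abs_mul, abs_pow, abs_pow, pow_add]
  have h0 : 0 ≤ H := (abs_nonneg _).trans h1
  gcongr

theorem surfCls_x {x : ℤ} {X : ℝ} (hX : 0 ≤ X) (h : |(x : ℝ)| ≤ √X) (a : ℕ) :
    |((x ^ a : ℤ) : ℝ)| ≤ X ^ ((a : ℝ) / 2) := by
  push_cast
  rw [abs_pow, show (a : ℝ) / 2 = 1 / 2 * a by ring, Real.rpow_mul hX, Real.rpow_natCast,
    ← Real.sqrt_eq_rpow]
  exact pow_le_pow_left₀ (abs_nonneg _) h a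

theorem surfCls_sum (U : ℕ) : ∑ a : Fin U, ((a : ℕ) : ℝ) = U * (U - 1) / 2 := by
  induction U with
  | zero => simp
  | succ U ih =>
    rw [Fin.sum_univ_castSucc]
    simp only [Fin.val_castSucc, Fin.val_last, ih]
    push_cast
    ring

/-- One class lies on an auxiliary hypersurface. -/
theorem surf_cls {l : ℕ} (hl : l.Prime) {G : ℤ[X][X][X]} {T : Finset (ℤ × ℚ × ℚ)}
    (hT : IsCls l G T) (X A0 γ : ℝ) (U V d D κ : ℕ) (hX : 2 ≤ X) (hA : 0 ≤ A0) (hγ : 0 < γ)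
    (hU : 0 < U) (hV : 0 < V) (hd : 0 < d)
    (hS : ∀ s ∈ T, |(s.1 : ℝ)| ≤ √X ∧ (hgt s.2.1 : ℝ) ≤ X ^ A0 ∧ (hgt s.2.2 : ℝ) ≤ X ^ κ)
    (h1 : U * V * d ≤ U * V * d * D - (D + 2).choose 3)
    (h2 : (U * V * d : ℝ) * (U / 4 + A0 * V + κ * d) <
      γ * ((U * V * d * D - (D + 2).choose 3 : ℕ) : ℝ))
    (hL : (U * V * d : ℝ) * X ^ γ ≤ l) :
    ∃ F : ℚ[X][X][X], F ≠ 0 ∧ F.natDegree < d ∧ DegB U V F ∧
      ∀ s ∈ T, ev3 F s.1 s.2.1 s.2.2 = 0 := by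
  have _ := hγ
  have hX0 : 0 < X := by linarith
  have hX1 : 1 ≤ X := by linarith
  have hr : Fintype.card (Fin U × Fin V × Fin d) = U * V * d := by simp [mul_assoc]
  let v : T → Fin U × Fin V × Fin d → ℤ := fun s k =>
    s.1.1 ^ (k.1 : ℕ) * (s.1.2.1.num ^ (k.2.1 : ℕ) * (s.1.2.1.den : ℤ) ^ (V - (k.2.1 : ℕ))) *
      (s.1.2.2.num ^ (k.2.2 : ℕ) * (s.1.2.2.den : ℤ) ^ (d - (k.2.2 : ℕ)))
  let u : T → ℤ := fun s => (s.1.2.1.den : ℤ) ^ V * (s.1.2.2.den : ℤ) ^ d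
  have hv : ∀ (s : T) (k : Fin U × Fin V × Fin d), (v s k : ℚ) =
      u s * ((s.1.1 : ℚ) ^ (k.1 : ℕ) * s.1.2.1 ^ (k.2.1 : ℕ) * s.1.2.2 ^ (k.2.2 : ℕ)) := by
    intro s k
    simp only [v, u]
    rw [Int.cast_mul, Int.cast_mul, surfCls_row _ k.2.1.2.le, surfCls_row _ k.2.2.2.le]
    push_cast
    ring
  have hdet : ∀ f : Fin U × Fin V × Fin d → T, (Matrix.of fun i k => v (f i) k).det = 0 := by
    intro f
    refine surfCls_zero hr (by positivity) _ (fun k => ((k.1 : ℕ) : ℝ) / 2 + A0 * V + κ * d)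
      (X := X) (γ := γ) (by linarith) (fun s k => ?_) h1 ?_ (by exact_mod_cast hL)
      (surfCls_dvd hl hT hr D (fun k => (k.1, k.2.1, k.2.2)) v u hv f).1
    · obtain ⟨a1, a2, a3⟩ := hS _ (f s).2
      have b1 := surfCls_x hX0.le a1 k.1
      have b2 := surfCls_bd _ k.2.1.2.le a2
      have b3 := surfCls_bd _ k.2.2.2.le a3
      rw [Real.rpow_add hX0, Real.rpow_add hX0, Real.rpow_mul hX0.le, Real.rpow_mul hX0.le,
        Real.rpow_natCast, Real.rpow_natCast, Real.rpow_natCast]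
      simp only [Matrix.of_apply, v]
      rw [Int.cast_mul, Int.cast_mul, abs_mul, abs_mul]
      gcongr
    · refine lt_of_le_of_lt ?_ h2
      rw [Fintype.sum_prod_type]
      simp only [Finset.sum_const, Finset.card_univ, Fintype.card_prod, Fintype.card_fin,
        nsmul_eq_mul, ← Finset.mul_sum, Finset.sum_add_distrib, ← Finset.sum_div, surfCls_sum]
      push_cast
      have : (0 : ℝ) ≤ U * V * d := by positivity
      nlinarith
  obtain ⟨c, hc, -, hcv⟩ := exists_small v (1 + ∑ s, ∑ k, (v s k).natAbs) (by omega)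
    (fun s k => by
      have a1 : (v s k).natAbs ≤ ∑ k, (v s k).natAbs :=
        Finset.single_le_sum (f := fun k => (v s k).natAbs) (fun _ _ => Nat.zero_le _)
          (Finset.mem_univ k)
      have a2 : ∑ k, (v s k).natAbs ≤ ∑ s, ∑ k, (v s k).natAbs :=
        Finset.single_le_sum (f := fun s => ∑ k, (v s k).natAbs) (fun _ _ => Nat.zero_le _)
          (Finset.mem_univ s)
      omega) hdet
  obtain ⟨F, hF0, hFd, hFB, -, hFe⟩ := poly_of_coeffs U V d (fun k => (c k : ℚ)) (by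
    intro h
    apply hc
    funext k
    have h' : (c k : ℚ) = 0 := congrFun h k
    exact_mod_cast h')
  refine ⟨F, hF0, hFd, fun i => ⟨(hFB i).1.trans (Nat.sub_le _ _),
    (hFB i).2.trans (Nat.sub_le _ _)⟩, fun s hs => ?_⟩
  have hu : (u ⟨s, hs⟩ : ℚ) ≠ 0 := by
    simp only [u]
    push_cast
    exact mul_ne_zero (pow_ne_zero _ (Nat.cast_ne_zero.2 s.2.1.den_nz))
      (pow_ne_zero _ (Nat.cast_ne_zero.2 s.2.2.den_nz))
  apply mul_left_cancel₀ hu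
  have h := congrArg (Int.cast : ℤ → ℚ) (hcv ⟨s, hs⟩)
  rw [Int.cast_sum, Int.cast_zero] at h
  rw [hFe, mul_zero, Finset.mul_sum, ← h]
  refine Finset.sum_congr rfl fun k _ => ?_
  rw [Int.cast_mul (c k), hv]
  ring

/-- One class lies on a graph. -/
theorem curve_cls {l : ℕ} (hl : l.Prime) {G : ℤ[X][X][X]} {T : Finset (ℤ × ℚ × ℚ)}
    (hT : IsCls l G T) (X ε : ℝ) (U κ : ℕ) (hX : 2 ≤ X) (hε : 0 < ε) (hκ : 1 ≤ κ)
    (hS : ∀ s ∈ T, |(s.1 : ℝ)| ≤ √X ∧ s.2.1 = 0 ∧ (hgt s.2.2 : ℝ) ≤ X ^ κ)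
    (hU : (κ : ℝ) ≤ ε * U) (hL : (2 * U + 2 : ℝ) * X ^ (1 / 4 + ε) ≤ l) :
    ∃ P Q : ℤ[X], (P ≠ 0 ∨ Q ≠ 0) ∧ P.natDegree ≤ U ∧ Q.natDegree ≤ U ∧
      (∀ i, (|P.coeff i| : ℝ) ≤ X ^ ((2 * U + 2) * (3 * U + κ + 2)) ∧
        (|Q.coeff i| : ℝ) ≤ X ^ ((2 * U + 2) * (3 * U + κ + 2))) ∧
      ∀ s ∈ T, s.2.2 * (Q.eval s.1 : ℤ) = (P.eval s.1 : ℤ) := by
  have hX0 : 0 < X := by linarith
  have hX1 : 1 ≤ X := by linarith
  have hU0 : 0 < U := by
    rcases Nat.eq_zero_or_pos U with rfl | h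
    · have : (1 : ℝ) ≤ κ := by exact_mod_cast hκ
      simp only [Nat.cast_zero, mul_zero] at hU
      linarith
    · exact h
  have hr : Fintype.card (Fin (U + 1) × Fin 2) = 2 * U + 2 := by simp; ring
  let v : T → Fin (U + 1) × Fin 2 → ℤ := fun s k =>
    s.1.1 ^ (k.1 : ℕ) * (s.1.2.2.num ^ (k.2 : ℕ) * (s.1.2.2.den : ℤ) ^ (1 - (k.2 : ℕ)))
  let u : T → ℤ := fun s => (s.1.2.2.den : ℤ) ^ 1
  have hv : ∀ (s : T) (k : Fin (U + 1) × Fin 2), (v s k : ℚ) =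
      u s * ((s.1.1 : ℚ) ^ (k.1 : ℕ) * s.1.2.1 ^ 0 * s.1.2.2 ^ (k.2 : ℕ)) := by
    intro s k
    simp only [v, u]
    rw [Int.cast_mul, surfCls_row _ (Nat.le_of_lt_succ k.2.2)]
    push_cast
    ring
  have hb : ∀ (s : T) (k : Fin (U + 1) × Fin 2),
      |(v s k : ℝ)| ≤ X ^ (((k.1 : ℕ) : ℝ) / 2 + κ) := by
    intro s k
    obtain ⟨a1, -, a3⟩ := hS _ s.2
    have b1 := surfCls_x hX0.le a1 k.1
    have b3 := surfCls_bd _ (Nat.le_of_lt_succ k.2.2) a3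
    rw [pow_one] at b3
    rw [Real.rpow_add hX0, Real.rpow_natCast]
    simp only [v]
    rw [Int.cast_mul, abs_mul]
    gcongr
  have hE : (2 * U + 2) * (2 * U + 2) - (2 * U + 2 + 1).choose 2 = (U + 1) * (2 * U + 1) := by
    rw [Nat.choose_two_right, show (2 * U + 2 + 1) * (2 * U + 2 + 1 - 1)
      = 2 * ((2 * U + 3) * (U + 1)) by rw [Nat.add_sub_cancel]; ring,
      Nat.mul_div_cancel_left _ two_pos]
    exact Nat.sub_eq_of_eq_add (by ring)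
  have hdet : ∀ f : Fin (U + 1) × Fin 2 → T, (Matrix.of fun i k => v (f i) k).det = 0 := by
    intro f
    have hd := (surfCls_dvd hl hT hr (2 * U + 2) (fun k => (k.1, 0, k.2)) v u hv f).2
      fun s hs => (hS s hs).2.1
    rw [hE] at hd
    refine surfCls_zero hr (by positivity) _ (fun k => ((k.1 : ℕ) : ℝ) / 2 + κ)
      (X := X) (γ := 1 / 4 + ε) (by linarith) (fun s k => hb (f s) k) (by nlinarith) ?_
      (by exact_mod_cast hL) hd
    rw [Fintype.sum_prod_type]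
    simp only [Finset.sum_const, Finset.card_univ, Fintype.card_fin,
      nsmul_eq_mul, ← Finset.mul_sum, Finset.sum_add_distrib, ← Finset.sum_div, surfCls_sum]
    push_cast
    have a1 : (0 : ℝ) ≤ U := by positivity
    have a2 : (U + 1 : ℝ) * κ ≤ (U + 1) * (ε * U) := by gcongr
    have a3 : (0 : ℝ) ≤ (U + 1) * ε := by positivity
    nlinarith
  have hK : (⌊X ^ (U + κ)⌋₊ : ℝ) ≤ X ^ (U + κ) := Nat.floor_le (by positivity)
  obtain ⟨c, hc, hcb, hcv⟩ := exists_small v ⌊X ^ (U + κ)⌋₊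
    (Nat.le_floor (by simpa using one_le_pow₀ hX1))
    (fun s k => by
      refine Nat.le_floor ?_
      rw [Nat.cast_natAbs, Int.cast_abs]
      refine (hb s k).trans ?_
      rw [← Real.rpow_natCast]
      refine Real.rpow_le_rpow_of_exponent_le hX1 ?_
      have a1 : ((k.1 : ℕ) : ℝ) ≤ U := by exact_mod_cast Nat.le_of_lt_succ k.1.2
      have a2 : (0 : ℝ) ≤ ((k.1 : ℕ) : ℝ) := by positivity
      push_cast
      linarith) hdet
  rw [hr] at hcb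
  have hcb' : ∀ k, |(c k : ℝ)| ≤ X ^ ((2 * U + 2) * (3 * U + κ + 2)) := by
    intro k
    have a1 : |(c k : ℝ)| ≤ ((2 * U + 2).factorial : ℝ) * (⌊X ^ (U + κ)⌋₊ : ℝ) ^ (2 * U + 2) := by
      rw [← Int.cast_abs, ← Nat.cast_natAbs]
      exact_mod_cast hcb k
    have a2 : ((2 * U + 2).factorial : ℝ) ≤ (X ^ (2 * U + 2)) ^ (2 * U + 2) := by
      have b1 : ((2 * U + 2).factorial : ℝ) ≤ ((2 : ℝ) ^ (2 * U + 2)) ^ (2 * U + 2) := by
        exact_mod_cast (Nat.factorial_le_pow _).trans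
          (Nat.pow_le_pow_left (Nat.lt_two_pow_self).le _)
      refine b1.trans ?_
      gcongr
    calc |(c k : ℝ)| ≤ (X ^ (2 * U + 2)) ^ (2 * U + 2) * (X ^ (U + κ)) ^ (2 * U + 2) := by
          refine a1.trans ?_
          gcongr
      _ = _ := by rw [← mul_pow, ← pow_add, ← pow_mul]; congr 1; ring
  have hco : ∀ (y : Fin (U + 1) → ℤ) (a : Fin (U + 1)),
      (∑ b : Fin (U + 1), monomial (b : ℕ) (y b)).coeff a = y a := by
    intro y a
    rw [finsetSum_coeff, Finset.sum_eq_single a]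
    · simp
    · intro b _ hb
      rw [coeff_monomial, if_neg fun h => hb (Fin.ext h)]
    · simp
  have hdeg : ∀ y : Fin (U + 1) → ℤ,
      (∑ b : Fin (U + 1), monomial (b : ℕ) (y b)).natDegree ≤ U := fun y =>
    natDegree_sum_le_of_forall_le _ _ fun b _ =>
      (natDegree_monomial_le _).trans (Nat.le_of_lt_succ b.2)
  have hbd : ∀ y : Fin (U + 1) → ℤ, (∀ a, |(y a : ℝ)| ≤ X ^ ((2 * U + 2) * (3 * U + κ + 2))) →
      ∀ i, |(((∑ b : Fin (U + 1), monomial (b : ℕ) (y b)).coeff i : ℤ) : ℝ)|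
        ≤ X ^ ((2 * U + 2) * (3 * U + κ + 2)) := by
    intro y hy i
    by_cases hi : i < U + 1
    · have := hco y ⟨i, hi⟩
      simp only at this
      rw [this]
      exact hy _
    · rw [coeff_eq_zero_of_natDegree_lt (lt_of_le_of_lt (hdeg y) (by omega))]
      simp only [Int.cast_zero, abs_zero]
      positivity
  refine ⟨∑ b : Fin (U + 1), monomial (b : ℕ) (-c (b, 0)),
    ∑ b : Fin (U + 1), monomial (b : ℕ) (c (b, 1)), ?_, hdeg _, hdeg _, fun i =>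
      ⟨hbd _ (fun a => by simpa using hcb' (a, 0)) i, hbd _ (fun a => hcb' (a, 1)) i⟩,
      fun s hs => ?_⟩
  · by_contra h
    rw [not_or, not_not, not_not] at h
    apply hc
    funext k
    obtain ⟨a, k⟩ := k
    have a0 := hco (fun b => -c (b, 0)) a
    have a1 := hco (fun b => c (b, 1)) a
    rw [h.1, coeff_zero] at a0
    rw [h.2, coeff_zero] at a1
    fin_cases k
    · simpa using a0
    · simpa using a1.symm
  · have hu : (u ⟨s, hs⟩ : ℚ) ≠ 0 := by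
      simp only [u]
      push_cast
      exact pow_ne_zero _ (Nat.cast_ne_zero.2 s.2.2.den_nz)
    have h := congrArg (Int.cast : ℤ → ℚ) (hcv ⟨s, hs⟩)
    rw [Int.cast_sum, Int.cast_zero, Fintype.sum_prod_type] at h
    simp only [Int.cast_mul, hv, Fin.sum_univ_two] at h
    rw [← sub_eq_zero]
    apply mul_left_cancel₀ hu
    rw [mul_zero, ← h]
    simp only [eval_finsetSum, eval_monomial, Int.cast_sum, Finset.mul_sum,
      ← Finset.sum_sub_distrib]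
    refine Finset.sum_congr rfl fun a _ => ?_
    push_cast
    simp only [Fin.val_zero, Fin.val_one]
    ring

end Pool.Agent.P.MP_a60a76_nt.Fs
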