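import Pool.Agent.P.MP_a60a76_nt.Fs.Defs
import Pool.Agent.P.MP_a60a76_nt.Fs.Cover
import Pool.Agent.P.MP_a60a76_nt.Fs.SurfCls
import Pool.Agent.P.MP_a60a76_nt.Fs.Graphs

namespace Pool.Agent.P.MP_a60a76_nt.Fs

open Polynomial
open scoped NNReal

theorem curve_coeff_swap {R : Type*} [CommRing R] (f : R[X][X]) (i j : ℕ) :
    ((Polynomial.Bivariate.swap f).coeff i).coeff j = (f.coeff j).coeff i := by
  induction f using Polynomial.induction_on' with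
  | add p q hp hq => simp only [map_add, coeff_add, hp, hq]
  | monomial n a =>
    induction a using Polynomial.induction_on' with
    | add p q hp hq => simp only [map_add, coeff_add, hp, hq]
    | monomial m r =>
      rw [Polynomial.Bivariate.swap_monomial_monomial]
      simp only [coeff_monomial]
      by_cases h1 : m = i <;> by_cases h2 : n = j <;> simp [h1, h2, coeff_monomial]

theorem curve_dX_le_iff {R : Type*} [CommRing R] (f : R[X][X]) (n : ℕ) :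
    dX f ≤ n ↔ ∀ j, (f.coeff j).natDegree ≤ n := by
  unfold dX
  constructor
  · intro h j
    rw [natDegree_le_iff_coeff_eq_zero] at h ⊢
    intro N hN
    rw [← curve_coeff_swap, h N hN, coeff_zero]
  · intro h
    rw [natDegree_le_iff_coeff_eq_zero]
    intro N hN
    ext j
    rw [curve_coeff_swap, coeff_zero]
    exact coeff_eq_zero_of_natDegree_lt (lt_of_le_of_lt (h j) hN)

/-- Points with distinct first coordinates that are roots of a polynomial. -/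
theorem curve_roots (f : ℚ[X]) (hf : f ≠ 0) (S : Finset (ℤ × ℚ))
    (hi : Set.InjOn Prod.fst (S : Set (ℤ × ℚ))) (h : ∀ s ∈ S, f.eval (s.1 : ℚ) = 0) :
    S.card ≤ f.natDegree := by
  classical
  refine le_trans ?_ ((Multiset.toFinset_card_le f.roots).trans (card_roots' f))
  refine Finset.card_le_card_of_injOn (fun s => (s.1 : ℚ)) ?_ ?_
  · intro s hs
    simp only [Finset.mem_coe, Multiset.mem_toFinset]
    exact (mem_roots hf).2 (h s hs)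
  · intro s hs t ht hst
    exact hi hs ht (Int.cast_injective hst)

theorem curve_rootsZ (f : ℤ[X]) (hf : f ≠ 0) (S : Finset (ℤ × ℚ))
    (hi : Set.InjOn Prod.fst (S : Set (ℤ × ℚ))) (h : ∀ s ∈ S, f.eval s.1 = 0) :
    S.card ≤ f.natDegree := by
  classical
  refine le_trans ?_ ((Multiset.toFinset_card_le f.roots).trans (card_roots' f))
  refine Finset.card_le_card_of_injOn (fun s => s.1) ?_ hi
  intro s hs
  simp only [Finset.mem_coe, Multiset.mem_toFinset]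
  exact (mem_roots hf).2 (h s hs)

/-- The middle variable set to zero. -/
noncomputable def curveG (G : ℤ[X][X][X]) : ℚ[X][X] :=
  (map3 (Int.castRingHom ℚ) G).map (evalRingHom 0)

theorem curveG_coeff (G : ℤ[X][X][X]) (i : ℕ) :
    (curveG G).coeff i = ((G.coeff i).coeff 0).map (Int.castRingHom ℚ) := by
  simp [curveG, map3, coeff_map, ← coeff_zero_eq_eval_zero]

theorem curveG_eval (G : ℤ[X][X][X]) (x t : ℚ) :
    (curveG G).evalEval x t = ev3 (map3 (Int.castRingHom ℚ) G) x 0 t := by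
  rw [← map_evalRingHom_eval, curveG, Polynomial.map_map, ev3]
  congr 2
  ext <;> simp

theorem curveG_spec (G : ℤ[X][X][X]) (n : ℕ) (h0 : G ≠ 0) (h1 : G.natDegree ≤ n)
    (h2 : DegB n 0 G) : curveG G ≠ 0 ∧ (curveG G).natDegree ≤ n ∧ dX (curveG G) ≤ n := by
  refine ⟨?_, ?_, ?_⟩
  · intro h
    apply h0
    ext i : 1
    have h3 := curveG_coeff G i
    rw [h, coeff_zero] at h3
    have h4 : (G.coeff i).coeff 0 = 0 :=
      Polynomial.map_injective _ (Int.castRingHom ℚ).injective_int (by rw [← h3]; simp)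
    rw [eq_C_of_natDegree_le_zero (h2 i).2, h4]
    simp
  · exact natDegree_map_le.trans (natDegree_map_le.trans h1)
  · rw [curve_dX_le_iff]
    intro j
    rw [curveG_coeff]
    exact natDegree_map_le.trans ((curve_dX_le_iff _ _).1 (h2 j).1 0)

/-- The combinatorial part. -/
theorem curve_comb (n U : ℕ) (S : Finset (ℤ × ℚ)) (hi : Set.InjOn Prod.fst (S : Set (ℤ × ℚ)))
    (f0 : ℚ[X]) (hf0 : f0 ≠ 0) (hfn : f0.natDegree ≤ n)
    (𝒢 : Finset ℤ[X][X][X]) (𝒞 : Finset (Finset (ℤ × ℚ × ℚ))) (hG : 𝒢.card ≤ n)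
    (hG' : ∀ G ∈ 𝒢, G ≠ 0 ∧ G.natDegree ≤ n ∧ DegB n 0 G) (Good : ℤ[X] → Prop)
    (hC : ∀ T ∈ 𝒞, ∃ G ∈ 𝒢, ∃ P Q : ℤ[X], (P ≠ 0 ∨ Q ≠ 0) ∧ P.natDegree ≤ U ∧ Q.natDegree ≤ U ∧
      Good P ∧ Good Q ∧ ∀ s ∈ T, s.2.2 * (Q.eval s.1 : ℤ) = (P.eval s.1 : ℤ) ∧
        ev3 (map3 (Int.castRingHom ℚ) G) s.1 s.2.1 s.2.2 = 0)
    (hS : ∀ s ∈ S, f0.eval (s.1 : ℚ) = 0 ∨ ∃ T ∈ 𝒞, (s.1, (0 : ℚ), s.2) ∈ T) :
    ∃ (Φ : Finset (ℤ[X] × ℤ[X])) (S0 : Finset (ℤ × ℚ)), Φ.card ≤ n ^ 2 ∧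
      (∀ φ ∈ Φ, φ.2 ≠ 0 ∧ φ.1.natDegree ≤ U ∧ φ.2.natDegree ≤ U ∧ Good φ.1 ∧ Good φ.2) ∧
      S0.card ≤ n + 𝒞.card * (n + n * U + 2 * U) ∧
      ∀ s ∈ S, s ∈ S0 ∨
        ∃ φ ∈ Φ, φ.2.eval s.1 ≠ 0 ∧ s.2 * (φ.2.eval s.1 : ℤ) = (φ.1.eval s.1 : ℤ) := by
  classical
  choose! g hg P Q h0 hP hQ gP gQ hT using hC
  have key : ∀ G ∈ 𝒢, ∃ Ψ ⊆ (𝒞.filter fun T => g T = G ∧ Q T ≠ 0).image fun T => (P T, Q T),
      Ψ.card ≤ n ∧ ∀ φ ∈ (𝒞.filter fun T => g T = G ∧ Q T ≠ 0).image fun T => (P T, Q T),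
        (∃ ψ ∈ Ψ, φ.1 * ψ.2 = ψ.1 * φ.2) ∨
        ∀ S : Finset (ℤ × ℚ), Set.InjOn Prod.fst (S : Set (ℤ × ℚ)) →
          (∀ s ∈ S, (curveG G).evalEval (s.1 : ℚ) s.2 = 0 ∧
            s.2 * (φ.2.eval s.1 : ℤ) = (φ.1.eval s.1 : ℤ)) → S.card ≤ n + n * U + U := by
    intro G hGm
    obtain ⟨a1, a2, a3⟩ := hG' G hGm
    obtain ⟨b1, b2, b3⟩ := curveG_spec G n a1 a2 a3
    refine graph_or (curveG G) b1 b2 b3 _ ?_
    intro φ hφ
    obtain ⟨T, hTm, rfl⟩ := Finset.mem_image.1 hφ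
    obtain ⟨c1, -, c3⟩ := Finset.mem_filter.1 hTm
    exact ⟨c3, hP T c1, hQ T c1⟩
  choose! Ψ hΨ1 hΨ2 hΨ3 using key
  have hΦ : ∀ φ ∈ 𝒢.biUnion Ψ,
      φ.2 ≠ 0 ∧ φ.1.natDegree ≤ U ∧ φ.2.natDegree ≤ U ∧ Good φ.1 ∧ Good φ.2 := by
    intro φ hφ
    obtain ⟨G, hGm, hφ⟩ := Finset.mem_biUnion.1 hφ
    obtain ⟨T, hTm, rfl⟩ := Finset.mem_image.1 (hΨ1 G hGm hφ)
    obtain ⟨c1, -, c3⟩ := Finset.mem_filter.1 hTm
    exact ⟨c3, hP T c1, hQ T c1, gP T c1, gQ T c1⟩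
  set S0 := S.filter fun s : ℤ × ℚ => ¬ ∃ φ ∈ 𝒢.biUnion Ψ,
    φ.2.eval s.1 ≠ 0 ∧ s.2 * (φ.2.eval s.1 : ℤ) = (φ.1.eval s.1 : ℤ) with hS0
  have hsub : S0 ⊆ S := Finset.filter_subset _ _
  refine ⟨𝒢.biUnion Ψ, S0, ?_, hΦ, ?_, ?_⟩
  · refine (Finset.card_biUnion_le_card_mul _ _ n hΨ2).trans ?_
    rw [sq]
    exact Nat.mul_le_mul_right _ hG
  · have hcov : S0 ⊆ (S0.filter fun s => f0.eval (s.1 : ℚ) = 0) ∪
        𝒞.biUnion fun T => S0.filter fun s => (s.1, (0 : ℚ), s.2) ∈ T := by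
      intro s hs
      rcases hS s (hsub hs) with h | ⟨T, h1, h2⟩
      · exact Finset.mem_union_left _ (Finset.mem_filter.2 ⟨hs, h⟩)
      · exact Finset.mem_union_right _
          (Finset.mem_biUnion.2 ⟨T, h1, Finset.mem_filter.2 ⟨hs, h2⟩⟩)
    have hinj : ∀ p : ℤ × ℚ → Prop, ∀ [DecidablePred p],
        Set.InjOn Prod.fst ((S0.filter p : Finset (ℤ × ℚ)) : Set (ℤ × ℚ)) := by
      intro p _
      exact hi.mono (Finset.coe_subset.2 ((Finset.filter_subset _ _).trans hsub))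
    refine (Finset.card_le_card hcov).trans ((Finset.card_union_le _ _).trans ?_)
    refine Nat.add_le_add ?_ (Finset.card_biUnion_le_card_mul _ _ _ ?_)
    · exact (curve_roots f0 hf0 _ (hinj _) fun s hs => (Finset.mem_filter.1 hs).2).trans hfn
    intro T hTm
    have hpt : ∀ s ∈ S0.filter fun s => (s.1, (0 : ℚ), s.2) ∈ T,
        s.2 * ((Q T).eval s.1 : ℤ) = ((P T).eval s.1 : ℤ) ∧
          (curveG (g T)).evalEval (s.1 : ℚ) s.2 = 0 := by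
      intro s hs
      have := hT T hTm _ (Finset.mem_filter.1 hs).2
      rw [curveG_eval]
      exact this
    by_cases hQ0 : Q T = 0
    · have hP0 : P T ≠ 0 := (h0 T hTm).resolve_right (not_not.2 hQ0)
      have : (S0.filter fun s => (s.1, (0 : ℚ), s.2) ∈ T).card ≤ U := by
        refine (curve_rootsZ (P T) hP0 _ (hinj _) ?_).trans (hP T hTm)
        intro s hs
        have h1 := (hpt s hs).1
        rw [hQ0, eval_zero, Int.cast_zero, mul_zero] at h1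
        exact_mod_cast h1.symm
      omega
    have hmem : (P T, Q T) ∈
        (𝒞.filter fun T' => g T' = g T ∧ Q T' ≠ 0).image fun T => (P T, Q T) :=
      Finset.mem_image.2 ⟨T, Finset.mem_filter.2 ⟨hTm, rfl, hQ0⟩, rfl⟩
    rcases hΨ3 (g T) (hg T hTm) _ hmem with ⟨ψ, hψ, he⟩ | h
    · have hψm : ψ ∈ 𝒢.biUnion Ψ := Finset.mem_biUnion.2 ⟨g T, hg T hTm, hψ⟩
      obtain ⟨d1, -, d3, -⟩ := hΦ ψ hψm
      have : (S0.filter fun s => (s.1, (0 : ℚ), s.2) ∈ T).card ≤ 2 * U := by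
        refine (curve_rootsZ (Q T * ψ.2) (mul_ne_zero hQ0 d1) _ (hinj _) ?_).trans ?_
        · intro s hs
          by_contra hne
          rw [eval_mul] at hne
          have e1 := left_ne_zero_of_mul hne
          have e2 := right_ne_zero_of_mul hne
          apply (Finset.mem_filter.1 (Finset.mem_filter.1 hs).1).2
          refine ⟨ψ, hψm, e2, ?_⟩
          have e3 := (hpt s hs).1
          have e4 := congrArg (fun f : ℤ[X] => ((f.eval s.1 : ℤ) : ℚ)) he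
          simp only [eval_mul, Int.cast_mul] at e4
          have e5 : (((Q T).eval s.1 : ℤ) : ℚ) ≠ 0 := Int.cast_ne_zero.2 e1
          apply mul_left_cancel₀ e5
          linear_combination (((ψ.2).eval s.1 : ℤ) : ℚ) * e3 + e4
        · have := hQ T hTm
          have := natDegree_mul_le (p := Q T) (q := ψ.2)
          omega
      omega
    · have := h _ (hinj _) fun s hs => ⟨(hpt s hs).2, (hpt s hs).1⟩
      omega
  · intro s hs
    by_cases h : ∃ φ ∈ 𝒢.biUnion Ψ,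
        φ.2.eval s.1 ≠ 0 ∧ s.2 * (φ.2.eval s.1 : ℤ) = (φ.1.eval s.1 : ℤ)
    · exact Or.inr h
    · exact Or.inl (Finset.mem_filter.2 ⟨hs, h⟩)

/-- The numerical part. -/
theorem curve_num (ε c0 X lH L N : ℝ) (K1 n κ : ℕ) (hε : 0 < ε) (hc : 1 ≤ c0) (hX : 2 ≤ X)
    (hn : 1 ≤ n) (hκ : 1 ≤ κ) (h0 : 0 ≤ lH) (hl : lH ≤ 2 * κ * Real.log X)
    (hL : L = (2 * ((K1 * κ : ℕ) : ℝ) + 2) * X ^ (1 / 4 + ε / 2) + c0 * n ^ 6 * lH)
    (hN : N ≤ c0 * n ^ 8 * lH * L) :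
    (n : ℝ) + N * (n + n * ((K1 * κ : ℕ) : ℝ) + 2 * ((K1 * κ : ℕ) : ℝ)) ≤
      (1 + c0 * (4 / ε) * (2 * K1 + 2 + 8 * c0) * (1 + 3 * K1)) * (n * κ : ℝ) ^ (3 * K1 + 15) *
        X ^ (1 / 4 + ε) := by
  have hX1 : (1 : ℝ) ≤ X := by linarith
  have hX0 : (0 : ℝ) < X := by linarith
  have hn' : (1 : ℝ) ≤ n := by exact_mod_cast hn
  have hκ' : (1 : ℝ) ≤ κ := by exact_mod_cast hκ
  have hK : (0 : ℝ) ≤ K1 := Nat.cast_nonneg _
  set Y := X ^ (1 / 4 + ε / 2) with hY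
  set Z := X ^ (ε / 2) with hZ
  have hYZ : X ^ (1 / 4 + ε) = Z * Y := by
    rw [hY, hZ, ← Real.rpow_add hX0]; congr 1; ring
  have hY1 : 1 ≤ Y := Real.one_le_rpow hX1 (by positivity)
  have hZ1 : 1 ≤ Z := Real.one_le_rpow hX1 (by positivity)
  have l1 : Real.log X ≤ 4 * Y := by
    have h1 := Real.log_le_rpow_div hX0.le (show (0 : ℝ) < 1 / 4 by norm_num)
    have h2 : X ^ (1 / 4 : ℝ) ≤ Y := Real.rpow_le_rpow_of_exponent_le hX1 (by linarith)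
    linarith
  have l2 : Real.log X ≤ 2 / ε * Z := by
    have h1 := Real.log_le_rpow_div hX0.le (show (0 : ℝ) < ε / 2 by positivity)
    refine h1.trans (le_of_eq ?_)
    rw [← hZ]; field_simp
  have a1 : lH ≤ 4 / ε * κ * Z := by
    refine hl.trans ?_
    have := mul_le_mul_of_nonneg_left l2 (show (0 : ℝ) ≤ 2 * κ by positivity)
    refine this.trans (le_of_eq ?_)
    ring
  have a1' : lH ≤ 8 * κ * Y := by
    refine hl.trans ?_
    have := mul_le_mul_of_nonneg_left l1 (show (0 : ℝ) ≤ 2 * κ by positivity)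
    refine this.trans (le_of_eq ?_)
    ring
  have hn6 : (1 : ℝ) ≤ n ^ 6 := one_le_pow₀ hn'
  have a2 : L ≤ (2 * K1 + 2 + 8 * c0) * n ^ 6 * κ * Y := by
    rw [hL, Nat.cast_mul]
    have b1 : (2 * ((K1 : ℝ) * κ) + 2) ≤ (2 * K1 + 2) * n ^ 6 * κ := by
      have : (2 * ((K1 : ℝ) * κ) + 2) ≤ (2 * K1 + 2) * 1 * κ := by nlinarith
      refine this.trans ?_
      gcongr
    have b2 : c0 * n ^ 6 * lH ≤ c0 * n ^ 6 * (8 * κ * Y) := by gcongr
    have b3 := mul_le_mul_of_nonneg_right b1 (show 0 ≤ Y by linarith)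
    nlinarith
  have hL0 : 0 ≤ L := by rw [hL]; positivity
  have a3 : (n + n * ((K1 * κ : ℕ) : ℝ) + 2 * ((K1 * κ : ℕ) : ℝ)) ≤ (1 + 3 * K1) * (n * κ) := by
    rw [Nat.cast_mul]
    have b1 : (n : ℝ) ≤ n * κ := by nlinarith
    have b2 : (K1 : ℝ) * κ ≤ K1 * (n * κ) := by
      have : (κ : ℝ) ≤ n * κ := by nlinarith
      gcongr
    nlinarith
  have hnk : (1 : ℝ) ≤ n * κ := by nlinarith
  have a4 : (n : ℝ) ^ 15 * κ ^ 3 ≤ (n * κ : ℝ) ^ (3 * K1 + 15) := by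
    refine le_trans ?_ (pow_le_pow_right₀ hnk (Nat.le_add_left 15 (3 * K1)))
    rw [mul_pow]
    exact mul_le_mul_of_nonneg_left (pow_le_pow_right₀ hκ' (by norm_num)) (by positivity)
  have a5 : (n : ℝ) ≤ (n * κ : ℝ) ^ (3 * K1 + 15) * (Z * Y) := by
    have b1 : (n : ℝ) ≤ n * κ := by nlinarith
    have b2 : (n * κ : ℝ) ≤ (n * κ : ℝ) ^ (3 * K1 + 15) := le_self_pow₀ hnk (by omega)
    have b3 : (1 : ℝ) ≤ Z * Y := by nlinarith
    nlinarith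
  have a6 : N * (n + n * ((K1 * κ : ℕ) : ℝ) + 2 * ((K1 * κ : ℕ) : ℝ)) ≤
      c0 * n ^ 8 * (4 / ε * κ * Z) * ((2 * K1 + 2 + 8 * c0) * n ^ 6 * κ * Y) *
        ((1 + 3 * K1) * (n * κ)) := by
    refine (mul_le_mul_of_nonneg_right hN (by positivity)).trans ?_
    gcongr
  have a7 : c0 * n ^ 8 * (4 / ε * κ * Z) * ((2 * K1 + 2 + 8 * c0) * n ^ 6 * κ * Y) *
        ((1 + 3 * K1) * (n * κ)) =
      c0 * (4 / ε) * (2 * K1 + 2 + 8 * c0) * (1 + 3 * K1) * ((n : ℝ) ^ 15 * κ ^ 3) * (Z * Y) := by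
    ring
  have a8 : c0 * (4 / ε) * (2 * K1 + 2 + 8 * c0) * (1 + 3 * K1) * ((n : ℝ) ^ 15 * κ ^ 3) *
      (Z * Y) ≤ c0 * (4 / ε) * (2 * K1 + 2 + 8 * c0) * (1 + 3 * K1) *
        (n * κ : ℝ) ^ (3 * K1 + 15) * (Z * Y) := by
    gcongr
  rw [hYZ]
  nlinarith

theorem curve (ε : ℝ) (hε : 0 < ε) :
    ∃ (c : ℝ) (K : ℕ), ∀ (X : ℝ) (n κ : ℕ) (S : Finset (ℤ × ℚ)) (F : ℚ[X][X]),
      2 ≤ X → 1 ≤ n → 1 ≤ κ → F ≠ 0 → F.natDegree ≤ n → dX F ≤ n →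
      Set.InjOn Prod.fst (S : Set (ℤ × ℚ)) →
      (∀ s ∈ S, |(s.1 : ℝ)| ≤ √X ∧ (hgt s.2 : ℝ) ≤ X ^ κ ∧ F.evalEval (s.1 : ℚ) s.2 = 0) →
      ∃ (Φ : Finset (ℤ[X] × ℤ[X])) (S0 : Finset (ℤ × ℚ)), Φ.card ≤ n ^ 2 ∧
        (∀ φ ∈ Φ, φ.2 ≠ 0 ∧ φ.1.natDegree ≤ K * κ ∧ φ.2.natDegree ≤ K * κ ∧
          ∀ i, (|φ.1.coeff i| : ℝ) ≤ X ^ ((K * κ) ^ 2) ∧ (|φ.2.coeff i| : ℝ) ≤ X ^ ((K * κ) ^ 2)) ∧
        (S0.card : ℝ) ≤ c * (n * κ : ℝ) ^ K * X ^ (1 / 4 + ε) ∧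
        ∀ s ∈ S, s ∈ S0 ∨
          ∃ φ ∈ Φ, φ.2.eval s.1 ≠ 0 ∧ s.2 * (φ.2.eval s.1 : ℤ) = (φ.1.eval s.1 : ℤ) := by
  classical
  obtain ⟨c0, hc0, hcov⟩ := cover
  set K1 : ℕ := ⌈2 / ε⌉₊ with hK1
  refine ⟨1 + c0 * (4 / ε) * (2 * K1 + 2 + 8 * c0) * (1 + 3 * K1), 3 * K1 + 15, ?_⟩
  intro X n κ S F hX hn hκ hF hFn hFx hi hS
  have hX1 : (1 : ℝ) ≤ X := by linarith
  have hX0 : (0 : ℝ) < X := by linarith
  have hXκ : X ≤ X ^ κ := le_self_pow₀ hX1 (by omega)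
  set H : ℕ := ⌈X ^ κ⌉₊ with hH
  have hH1 : X ^ κ ≤ H := Nat.le_ceil _
  have hH2 : 2 ≤ H := by
    have : (2 : ℝ) ≤ H := by linarith
    exact_mod_cast this
  have hH3 : (H : ℝ) ≤ X ^ (2 * κ) := by
    have h1 : (H : ℝ) < X ^ κ + 1 := Nat.ceil_lt_add_one (by positivity)
    rw [two_mul, pow_add]
    nlinarith
  have hlH : Real.log H ≤ 2 * κ * Real.log X := by
    have h1 : (0 : ℝ) < H := by linarith
    have := Real.log_le_log h1 hH3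
    rw [Real.log_pow] at this
    exact_mod_cast this
  have hlH0 : 0 ≤ Real.log H := Real.log_natCast_nonneg _
  have hsq : √X ≤ X := by
    rw [Real.sqrt_le_left hX0.le]
    nlinarith
  set L : ℝ := (2 * ((K1 * κ : ℕ) : ℝ) + 2) * X ^ (1 / 4 + ε / 2) + c0 * n ^ 6 * Real.log H
    with hL
  have hpos : 0 < (2 * ((K1 * κ : ℕ) : ℝ) + 2) * X ^ (1 / 4 + ε / 2) := by positivity
  set S' : Finset (ℤ × ℚ × ℚ) := S.image fun s => (s.1, (0 : ℚ), s.2) with hS'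
  have hev : ∀ x j t : ℚ, ev3 (F.map C) x j t = F.evalEval x t := by
    intro x j t
    rw [← map_evalRingHom_eval, ev3, Polynomial.map_map]
    congr 2
    ext <;> simp
  obtain ⟨F0, 𝒢, 𝒞, f1, f2, f3, f4, f5, f6, f7, -, f8⟩ := hcov n 0 H L S' (F.map C) hn
    (Nat.zero_le _) hH2 (by linarith) ((Polynomial.map_ne_zero_iff C_injective).2 hF)
    (natDegree_map_le.trans hFn)
    (by
      intro i
      rw [coeff_map]
      refine ⟨?_, by simp⟩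
      rw [curve_dX_le_iff]
      intro j
      rw [coeff_C]
      split_ifs
      · exact (curve_dX_le_iff _ _).1 hFx i
      · simp)
    (by
      intro s0 hs0
      obtain ⟨s, hs, rfl⟩ := Finset.mem_image.1 hs0
      obtain ⟨a1, a2, a3⟩ := hS s hs
      refine ⟨?_, ?_, ?_, by rw [hev]; exact a3⟩
      · have : ((s.1.natAbs : ℕ) : ℝ) ≤ H := by
          rw [Nat.cast_natAbs, Int.cast_abs]
          linarith
        exact_mod_cast this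
      · simp only [hgt]
        simp
        omega
      · have : ((hgt s.2 : ℕ) : ℝ) ≤ H := by linarith
        exact_mod_cast this)
  have hz : ∀ s ∈ S', s.2.1 = 0 := by
    intro s hs
    obtain ⟨s, hs, rfl⟩ := Finset.mem_image.1 hs
    rfl
  have hF0 : F0 = C (F0.coeff 0) := eq_C_of_natDegree_le_zero f3
  have hU : (κ : ℝ) ≤ ε / 2 * ((K1 * κ : ℕ) : ℝ) := by
    have h1 : 2 / ε ≤ K1 := Nat.le_ceil _
    have h2 : 1 ≤ ε / 2 * K1 := by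
      rw [div_le_iff₀ hε] at h1
      linarith
    have h3 : (0 : ℝ) ≤ κ := Nat.cast_nonneg _
    rw [Nat.cast_mul]
    nlinarith
  have hexp : (2 * (K1 * κ) + 2) * (3 * (K1 * κ) + κ + 2) ≤ ((3 * K1 + 15) * κ) ^ 2 := by
    rw [sq]
    refine Nat.mul_le_mul ?_ ?_ <;> nlinarith
  obtain ⟨Φ, S0, g1, g2, g3, g4⟩ := curve_comb n (K1 * κ) S hi (F0.coeff 0)
    (fun h => f1 (by rw [hF0, h, map_zero])) ((curve_dX_le_iff _ _).1 f2 0) 𝒢 𝒞 f4 f5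
    (fun P => ∀ i, (|P.coeff i| : ℝ) ≤ X ^ (((3 * K1 + 15) * κ) ^ 2))
    (by
      intro T hT
      obtain ⟨h1, l, hl, hLl, G, hG, hcl⟩ := f6 T hT
      obtain ⟨P, Q, p1, p2, p3, p4, p5⟩ := curve_cls hl hcl X (ε / 2) (K1 * κ) κ hX
        (by positivity) hκ
        (by
          intro s0 hs0
          obtain ⟨s, hs, rfl⟩ := Finset.mem_image.1 (h1 hs0)
          exact ⟨(hS s hs).1, rfl, (hS s hs).2.1⟩) hU
        (by
          have : 0 ≤ c0 * n ^ 6 * Real.log H := by positivity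
          linarith)
      refine ⟨G, hG, P, Q, p1, p2, p3, fun i => (p4 i).1.trans (pow_le_pow_right₀ hX1 hexp),
        fun i => (p4 i).2.trans (pow_le_pow_right₀ hX1 hexp), fun s hs => ⟨p5 s hs, ?_⟩⟩
      obtain ⟨x0, j0, t0, -, q⟩ := hcl
      exact (q s hs).2.2.2.2.2)
    (by
      intro s hs
      rcases f7 (s.1, 0, s.2) (Finset.mem_image.2 ⟨s, hs, rfl⟩) with h | h
      · left
        rw [hF0, evalEval_C] at h
        exact h
      · exact Or.inr h)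
  have hle : K1 * κ ≤ (3 * K1 + 15) * κ := Nat.mul_le_mul_right _ (by omega)
  refine ⟨Φ, S0, g1, ?_, ?_, g4⟩
  · intro φ hφ
    obtain ⟨a1, a2, a3, a4, a5⟩ := g2 φ hφ
    exact ⟨a1, a2.trans hle, a3.trans hle, fun i => ⟨a4 i, a5 i⟩⟩
  · refine le_trans ?_ (curve_num ε c0 X (Real.log H) L 𝒞.card K1 n κ hε hc0 hX hn hκ hlH0 hlH
      hL (f8 hz))
    exact_mod_cast g3

end Pool.Agent.P.MP_a60a76_nt.Fs
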