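import Pool.Agent.P.MP_a60a76_nt.Fs.Defs

/-! Definitions for the local analysis over the rationals. -/

namespace Pool.Agent.P.MP_a60a76_nt.Fs

open Polynomial
open scoped NNReal

noncomputable section

section od

variable {K : Type*} [Field K]

/-- The additive form of a real valuation. -/
def od (v : Valuation K ℝ≥0) (z : K) : ℝ := -Real.logb 2 (v z)

variable (v : Valuation K ℝ≥0)

theorem od_pos_val {x : K} (hx : x ≠ 0) : (0 : ℝ) < v x := by
  exact_mod_cast pos_iff_ne_zero.2 ((Valuation.ne_zero_iff v).2 hx)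

@[simp] theorem od_one : od v 1 = 0 := by simp [od]

theorem od_mul {x y : K} (hx : x ≠ 0) (hy : y ≠ 0) : od v (x * y) = od v x + od v y := by
  unfold od
  rw [map_mul, NNReal.coe_mul, Real.logb_mul (od_pos_val v hx).ne' (od_pos_val v hy).ne']
  ring

theorem od_inv (x : K) : od v x⁻¹ = -od v x := by
  unfold od
  rw [map_inv₀, NNReal.coe_inv, Real.logb_inv]

theorem od_div {x y : K} (hx : x ≠ 0) (hy : y ≠ 0) : od v (x / y) = od v x - od v y := by
  rw [div_eq_mul_inv, od_mul v hx (inv_ne_zero hy), od_inv]; ring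

theorem od_pow (x : K) (n : ℕ) : od v (x ^ n) = n * od v x := by
  unfold od
  rw [map_pow, NNReal.coe_pow, Real.logb_pow]
  ring

theorem od_neg (x : K) : od v (-x) = od v x := by simp [od]

theorem od_le_iff {x y : K} (hx : x ≠ 0) (hy : y ≠ 0) : od v x ≤ od v y ↔ v y ≤ v x := by
  unfold od
  rw [neg_le_neg_iff, Real.logb_le_logb (by norm_num) (od_pos_val v hy) (od_pos_val v hx),
    NNReal.coe_le_coe]

theorem od_lt_iff {x y : K} (hx : x ≠ 0) (hy : y ≠ 0) : od v x < od v y ↔ v y < v x := by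
  rw [← not_le, ← not_le, od_le_iff v hy hx]

theorem od_eq_iff {x y : K} (hx : x ≠ 0) (hy : y ≠ 0) : od v x = od v y ↔ v x = v y := by
  rw [le_antisymm_iff, le_antisymm_iff, od_le_iff v hx hy, od_le_iff v hy hx, and_comm]

theorem od_congr {x y : K} (h : v x = v y) : od v x = od v y := by simp [od, h]

theorem od_pos_iff {x : K} (hx : x ≠ 0) : 0 < od v x ↔ v x < 1 := by
  simpa using od_lt_iff v one_ne_zero hx

theorem od_nonneg_iff {x : K} (hx : x ≠ 0) : 0 ≤ od v x ↔ v x ≤ 1 := by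
  simpa using od_le_iff v one_ne_zero hx

theorem od_eq_zero_iff {x : K} (hx : x ≠ 0) : od v x = 0 ↔ v x = 1 := by
  simpa using od_eq_iff v hx one_ne_zero

theorem od_of_eq_zpow {x : K} {n : ℤ} (h : v x = (1 / 2 : ℝ≥0) ^ n) : od v x = n := by
  unfold od
  rw [h, NNReal.coe_zpow, ← Real.rpow_intCast, Real.logb_rpow_eq_mul_logb_of_pos (by norm_num)]
  have : Real.logb 2 ((1 / 2 : ℝ≥0) : ℝ) = -1 := by
    rw [show ((1 / 2 : ℝ≥0) : ℝ) = (2 : ℝ)⁻¹ by norm_num, Real.logb_inv,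
      Real.logb_self_eq_one (by norm_num)]
  rw [this]; ring

theorem od_eq_int_iff {x : K} (hx : x ≠ 0) (n : ℤ) : od v x = n ↔ v x = (1 / 2 : ℝ≥0) ^ n := by
  refine ⟨fun h => ?_, od_of_eq_zpow v⟩
  have h1 : Real.logb 2 (v x) = -n := by unfold od at h; linarith
  rw [Real.logb_eq_iff_rpow_eq (by norm_num) (by norm_num) (od_pos_val v hx)] at h1
  apply NNReal.coe_injective
  rw [← h1, NNReal.coe_zpow, show ((1 / 2 : ℝ≥0) : ℝ) = (2 : ℝ)⁻¹ by norm_num, inv_zpow',
    ← Real.rpow_intCast]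
  simp

theorem od_prod {ι : Type*} (s : Finset ι) (f : ι → K) (h : ∀ i ∈ s, f i ≠ 0) :
    od v (∏ i ∈ s, f i) = ∑ i ∈ s, od v (f i) := by
  classical
  induction s using Finset.induction_on with
  | empty => simp
  | insert a s ha ih =>
    rw [Finset.prod_insert ha, Finset.sum_insert ha, od_mul v (h a (by simp))
      (Finset.prod_ne_zero_iff.2 fun i hi => h i (by simp [hi])), ih fun i hi => h i (by simp [hi])]

end od

section loc

variable {K : Type*} [Field K]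

/-- The coordinate `c / x`, zero at infinity. -/
def ww (c : K) {a b : K} (P : Pt a b) : K := c * zp P / xp P

@[simp] theorem ww_zero (c : K) {a b : K} : ww c (0 : Pt a b) = 0 := by simp [ww]

theorem ww_of_ne (c : K) {a b : K} {P : Pt a b} (h : P ≠ 0) : ww c P = c / xc P := by
  simp [ww, xp_of_ne h, zp_of_ne h]

/-- The point lies in the kernel of reduction for the scale `c`. -/
def InK (v : Valuation K ℝ≥0) (c : K) {a b : K} (P : Pt a b) : Prop := P = 0 ∨ v c < v (xc P)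

/-- The model scaled by `c` is integral. -/
structure Scale (v : Valuation K ℝ≥0) (c a b : K) : Prop where
  c0 : c ≠ 0
  two : v 2 = 1
  ha : v a ≤ v c ^ 2
  hb : v b ≤ v c ^ 3

/-- The model scaled by `c` has good reduction. -/
structure GoodS (v : Valuation K ℝ≥0) (c a b : K) : Prop extends Scale v c a b where
  hd : v (dsc a b) = v c ^ 6

/-- A place of multiplicative reduction. -/
structure Nod (v : Valuation K ℝ≥0) (a b : K) : Prop where
  two : v 2 = 1
  three : v 3 = 1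
  a0 : a ≠ 0
  b0 : b ≠ 0
  d0 : dsc a b ≠ 0
  lt : v (eps a b) < 1

/-- The component of an arbitrary point at a place of multiplicative reduction. -/
def dl2 (v : Valuation K ℝ≥0) {a b : K} (P : Pt a b) : ℝ≥0 := min 1 (dl v P)

end loc

/-- A place of the algebraic numbers above `q` with its inertia group. -/
structure ILoc (q : ℕ) [Fact q.Prime] extends Loc (algebraMap ℚ Qb) where
  g : Spec Qb (Fb q)
  mem : ∀ z, z ∈ g.S ↔ v z ≤ 1
  ne : ∀ z ∈ g.S, g.f z ≠ 0 ↔ v z = 1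
  triv : ∀ σ ∈ D, ∀ z ∈ g.S, g.f (σ z) = g.f z
  val : ∀ r : ℚ, r ≠ 0 → v (r : Qb) = (1 / 2 : ℝ≥0) ^ padicValRat q r
  fx : ∀ z, z ≠ 0 → (∀ σ ∈ D, σ z = z) → ∃ n : ℤ, v z = (1 / 2 : ℝ≥0) ^ n
  clo : ∀ σ : RingAut Qb, (∀ z, (∀ τ ∈ D, τ z = z) → σ z = z) → σ ∈ D

/-- The tame character attached to an element. -/
def ILoc.chi {q : ℕ} [Fact q.Prime] (L : ILoc q) (σ : RingAut Qb) (y : Qb) : Fb q :=
  L.g.f (σ y / y)

/-- Ordinary shape of the `p`-torsion at `p`. -/
def CaseA {p : ℕ} [Fact p.Prime] (L : ILoc p) (a b : Qb) : Prop :=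
  (∃ P1 : Tors p a b, P1 ≠ 0 ∧ ∀ P : Tors p a b, InK L.v 1 (P : Pt a b) ↔ ∃ k : ℤ, P = k • P1) ∧
    (∀ P : Tors p a b, P ≠ 0 → InK L.v 1 (P : Pt a b) →
      od L.v (xc (P : Pt a b)) = -2 / (p - 1)) ∧
    ∀ σ ∈ L.D, ∀ P : Tors p a b, InK L.v 1 ((rho p a b σ P - P : Tors p a b) : Pt a b)

/-- Supersingular shape of the `p`-torsion at `p`. -/
def CaseB {p : ℕ} [Fact p.Prime] (L : ILoc p) (a b : Qb) : Prop :=
  ∀ P : Tors p a b, P ≠ 0 → od L.v (xc (P : Pt a b)) = -2 / (p ^ 2 - 1)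

/-- Two curves congruent up to sign under inertia at `p`, the first with good reduction. -/
structure PSit {p : ℕ} [Fact p.Prime] (L : ILoc p) (a1 b1 a2 b2 : Qb)
    (ψ : Tors p a1 b1 ≃+ Tors p a2 b2) : Prop where
  big : 17 ≤ p
  g1 : GoodS L.v 1 a1 b1
  f1 : ∀ σ ∈ L.D, σ a1 = a1 ∧ σ b1 = b1
  f2 : ∀ σ ∈ L.D, σ a2 = a2 ∧ σ b2 = b2
  d2 : dsc a2 b2 ≠ 0
  eqv : ∀ σ ∈ L.D, Eqv (rho p a1 b1 σ) (rho p a2 b2 σ) ψ

open Classical in
/-- The product of the primes at which the invariant forces bad reduction of all twists. -/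
def radJ (j : ℚ) : ℕ :=
  ∏ q ∈ (j.den * j.num.natAbs * (j - 1728).num.natAbs).primeFactors with
    (padicValRat q j < 0 ∨ ¬ 3 ∣ padicValRat q j ∨ ¬ 2 ∣ padicValRat q (j - 1728)), q

end

end Pool.Agent.P.MP_a60a76_nt.Fs
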