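import Pool.Agent.P.MP_a60a76_nt.Fs.Defs

namespace Pool.Agent.P.MP_a60a76_nt.Fs

open Polynomial
open scoped NNReal

theorem densA_class {Q : ℕ} (hQ : 0 < Q) {Y : ℝ} (U : Finset ℤ)
    (hU : ∀ u ∈ U, |(u : ℝ)| ≤ Y) (hc : ∀ u ∈ U, ∀ v ∈ U, (Q : ℤ) ∣ u - v) :
    U.card ≤ ⌊2 * Y / Q⌋₊ + 1 := by
  rcases U.eq_empty_or_nonempty with rfl | hne
  · simp
  have hQ' : (0 : ℤ) < Q := by exact_mod_cast hQ
  have hQR : (0 : ℝ) < Q := by exact_mod_cast hQ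
  have h0 := U.min'_mem hne
  set u0 := U.min' hne with hu0
  rw [← Finset.card_range (⌊2 * Y / Q⌋₊ + 1)]
  have key : ∀ u ∈ U, u = u0 + Q * (((u - u0) / Q).toNat : ℤ) := by
    intro u hu
    have h1 : u0 ≤ u := U.min'_le u hu
    rw [Int.toNat_of_nonneg (Int.ediv_nonneg (by linarith) hQ'.le),
      Int.mul_ediv_cancel' (hc u hu u0 h0)]
    ring
  refine Finset.card_le_card_of_injOn (fun u => ((u - u0) / Q).toNat) ?_ ?_
  · intro u hu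
    have hu' : u ∈ U := hu
    have e1 := key u hu'
    have e2 : (u : ℝ) = u0 + Q * ((((u - u0) / Q).toNat : ℕ) : ℝ) := by exact_mod_cast e1
    have e3 := abs_le.1 (hU u hu')
    have e4 := abs_le.1 (hU u0 h0)
    simp only [Finset.coe_range, Set.mem_Iio]
    refine Nat.lt_succ_of_le (Nat.le_floor ?_)
    rw [le_div_iff₀ hQR]
    linarith [e3.2, e4.1]
  · intro u hu v hv huv
    have huv' : ((u - u0) / Q).toNat = ((v - u0) / Q).toNat := huv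
    rw [key u hu, key v hv, huv']

theorem periodic_count {ι : Type*} (I : Finset ι) (q : ι → ℕ) (hq : ∀ i ∈ I, 0 < q i)
    (hc : (I : Set ι).Pairwise fun i k => Nat.Coprime (q i) (q k)) (ρ : ι → ℝ)
    (T : ∀ i, Finset (ZMod (q i) × ZMod (q i)))
    (hT : ∀ i ∈ I, ((T i).card : ℝ) ≤ ρ i * (q i : ℝ) ^ 2) (Y1 Y2 : ℝ) (h1 : 0 ≤ Y1) (h2 : 0 ≤ Y2)
    (S : Finset (ℤ × ℤ))
    (hS : ∀ c ∈ S, |(c.1 : ℝ)| ≤ Y1 ∧ |(c.2 : ℝ)| ≤ Y2 ∧
      ∀ i ∈ I, ((c.1 : ZMod (q i)), (c.2 : ZMod (q i))) ∈ T i) :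
    (S.card : ℝ) ≤ (∏ i ∈ I, ρ i) * (2 * Y1 + 1 + ∏ i ∈ I, (q i : ℝ)) *
      (2 * Y2 + 1 + ∏ i ∈ I, (q i : ℝ)) := by
  classical
  set Q : ℕ := ∏ i ∈ I, q i with hQdef
  have hQ : 0 < Q := Finset.prod_pos hq
  have hQR : (0 : ℝ) < Q := by exact_mod_cast hQ
  have hQe : (∏ i ∈ I, (q i : ℝ)) = Q := by rw [hQdef, Nat.cast_prod]
  have hdvd : ∀ a b : ℤ, (∀ i ∈ I, (a : ZMod (q i)) = (b : ZMod (q i))) → (Q : ℤ) ∣ b - a := by
    intro a b h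
    rw [hQdef, Nat.cast_prod]
    refine Finset.prod_dvd_of_coprime ?_ ?_
    · intro i hi k hk hik
      exact Nat.isCoprime_iff_coprime.2 (hc hi hk hik)
    · intro i hi
      exact (ZMod.intCast_eq_intCast_iff_dvd_sub a b (q i)).1 (h i hi)
  let f : ℤ × ℤ → ∀ i : I, ZMod (q i) × ZMod (q i) :=
    fun c i => ((c.1 : ZMod (q i)), (c.2 : ZMod (q i)))
  have hmain : S.card ≤ ((⌊2 * Y1 / Q⌋₊ + 1) * (⌊2 * Y2 / Q⌋₊ + 1)) *
      (Fintype.piFinset fun i : I => T i).card := by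
    refine Finset.card_le_mul_card_image_of_maps_to (f := f) ?_ _ ?_
    · intro c hc'
      exact Fintype.mem_piFinset.2 fun i => (hS c hc').2.2 i i.2
    · intro y _
      set F := S.filter fun c => f c = y with hF
      have hF1 : ∀ c ∈ F, ∀ d ∈ F, ∀ i ∈ I, (c.1 : ZMod (q i)) = (d.1 : ZMod (q i)) ∧
          (c.2 : ZMod (q i)) = (d.2 : ZMod (q i)) := by
        intro c hc' d hd i hi
        have e := ((Finset.mem_filter.1 hc').2).trans ((Finset.mem_filter.1 hd).2).symm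
        exact Prod.ext_iff.1 (congrFun e ⟨i, hi⟩)
      calc F.card ≤ (F.image Prod.fst ×ˢ F.image Prod.snd).card :=
            Finset.card_le_card Finset.subset_product
        _ = (F.image Prod.fst).card * (F.image Prod.snd).card := Finset.card_product _ _
        _ ≤ (⌊2 * Y1 / Q⌋₊ + 1) * (⌊2 * Y2 / Q⌋₊ + 1) := by
            refine Nat.mul_le_mul (densA_class hQ _ ?_ ?_) (densA_class hQ _ ?_ ?_)
            · intro u hu
              obtain ⟨c, hc', rfl⟩ := Finset.mem_image.1 hu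
              exact (hS c (Finset.mem_filter.1 hc').1).1
            · intro u hu v hv
              obtain ⟨c, hc', rfl⟩ := Finset.mem_image.1 hu
              obtain ⟨d, hd, rfl⟩ := Finset.mem_image.1 hv
              exact hdvd _ _ fun i hi => (hF1 d hd c hc' i hi).1
            · intro u hu
              obtain ⟨c, hc', rfl⟩ := Finset.mem_image.1 hu
              exact (hS c (Finset.mem_filter.1 hc').1).2.1
            · intro u hu v hv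
              obtain ⟨c, hc', rfl⟩ := Finset.mem_image.1 hu
              obtain ⟨d, hd, rfl⟩ := Finset.mem_image.1 hv
              exact hdvd _ _ fun i hi => (hF1 d hd c hc' i hi).2
  have hρ : 0 ≤ ∏ i ∈ I, ρ i := by
    refine Finset.prod_nonneg fun i hi => ?_
    have e1 : (0 : ℝ) < (q i : ℝ) ^ 2 := by
      have := hq i hi
      positivity
    exact le_of_mul_le_mul_right (by
      rw [zero_mul]; exact (Nat.cast_nonneg _).trans (hT i hi)) e1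
  have hpi : ((Fintype.piFinset fun i : I => T i).card : ℝ) ≤ (∏ i ∈ I, ρ i) * (Q : ℝ) ^ 2 := by
    rw [Fintype.card_piFinset, Nat.cast_prod,
      Finset.prod_coe_sort I (fun i => ((T i).card : ℝ)), ← hQe, ← Finset.prod_pow,
      ← Finset.prod_mul_distrib]
    exact Finset.prod_le_prod (fun i _ => Nat.cast_nonneg _) hT
  have hfl : ∀ Y : ℝ, 0 ≤ Y → (((⌊2 * Y / Q⌋₊ + 1 : ℕ) : ℝ)) * Q ≤ 2 * Y + 1 + Q := by
    intro Y hY
    have e1 : (⌊2 * Y / Q⌋₊ : ℝ) ≤ 2 * Y / Q := Nat.floor_le (by positivity)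
    rw [le_div_iff₀ hQR] at e1
    push_cast
    linarith
  rw [hQe]
  calc (S.card : ℝ) ≤ (((⌊2 * Y1 / Q⌋₊ + 1 : ℕ) : ℝ) * ((⌊2 * Y2 / Q⌋₊ + 1 : ℕ) : ℝ)) *
        ((Fintype.piFinset fun i : I => T i).card : ℝ) := by exact_mod_cast hmain
    _ ≤ (((⌊2 * Y1 / Q⌋₊ + 1 : ℕ) : ℝ) * ((⌊2 * Y2 / Q⌋₊ + 1 : ℕ) : ℝ)) *
        ((∏ i ∈ I, ρ i) * (Q : ℝ) ^ 2) := by gcongr
    _ = (∏ i ∈ I, ρ i) * (((⌊2 * Y1 / Q⌋₊ + 1 : ℕ) : ℝ) * Q) *
        (((⌊2 * Y2 / Q⌋₊ + 1 : ℕ) : ℝ) * Q) := by ring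
    _ ≤ (∏ i ∈ I, ρ i) * (2 * Y1 + 1 + Q) * (2 * Y2 + 1 + Q) := by
        have e1 := hfl Y1 h1
        have e2 := hfl Y2 h2
        gcongr

theorem densA_eq {q a b : ℕ} (ha : a < q) (hb : b < q) (h : (q : ℤ) ∣ (b : ℤ) - a) : a = b := by
  have := Int.eq_zero_of_abs_lt_dvd h (by rw [abs_lt]; constructor <;> omega)
  omega

theorem densA_ndvd {q t : ℕ} (h0 : 0 < t) (ht : t < q) : ¬ (q : ℤ) ∣ t := fun h =>
  absurd (Nat.le_of_dvd h0 (by exact_mod_cast h)) (by omega)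

theorem densA_ne {q w : ℤ} (h : ¬ q ∣ w) : w ≠ 0 := by
  rintro rfl
  exact h (dvd_zero _)

theorem local_count (q : ℕ) (hq : q.Prime) (h5 : 5 ≤ q) :
    ∃ T : Finset (ZMod (q ^ 2) × ZMod (q ^ 2)),
      (T.card : ℝ) ≤ (1 - 1 / (2 * q)) * ((q ^ 2 : ℕ) : ℝ) ^ 2 ∧
      ∀ A B : ℤ, padicValInt q (dsc A B) ≠ 1 → ((A : ZMod (q ^ 2)), (B : ZMod (q ^ 2))) ∈ T := by
  classical
  have : Fact q.Prime := ⟨hq⟩
  have : NeZero (q ^ 2) := ⟨pow_ne_zero 2 hq.ne_zero⟩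
  have hp : Prime (q : ℤ) := Nat.prime_iff_prime_int.1 hq
  have hq0 : (q : ℤ) ≠ 0 := hp.ne_zero
  have h2 : ¬ (q : ℤ) ∣ 2 := densA_ndvd (t := 2) (by norm_num) (by omega)
  have h3 : ¬ (q : ℤ) ∣ 3 := densA_ndvd (t := 3) (by norm_num) (by omega)
  let g : ℕ × ℕ × ℕ → ZMod (q ^ 2) × ZMod (q ^ 2) := fun x =>
    (((-3 * (x.1 : ℤ) ^ 2 + q * x.2.1 : ℤ) : ZMod (q ^ 2)),
      ((2 * (x.1 : ℤ) ^ 3 + q * (x.2.2 - x.1 * x.2.1) : ℤ) : ZMod (q ^ 2)))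
  let D : Finset (ℕ × ℕ × ℕ) := Finset.Ico 1 q ×ˢ Finset.range q ×ˢ Finset.Ico 1 q
  have hD : ∀ x ∈ D, (0 < x.1 ∧ x.1 < q) ∧ x.2.1 < q ∧ 0 < x.2.2 ∧ x.2.2 < q := by
    intro x hx
    simp only [D, Finset.mem_product, Finset.mem_Ico, Finset.mem_range] at hx
    omega
  have hinj : Set.InjOn g D := by
    rintro ⟨t, a, u⟩ hx ⟨t', a', u'⟩ hy hxy
    obtain ⟨⟨x1, x2⟩, x3, x4, x5⟩ := hD _ hx
    obtain ⟨⟨y1, y2⟩, y3, y4, y5⟩ := hD _ hy
    dsimp only at x1 x2 x3 x4 x5 y1 y2 y3 y4 y5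
    obtain ⟨e1, e2⟩ := Prod.ext_iff.1 hxy
    obtain ⟨k1, e1'⟩ := (ZMod.intCast_eq_intCast_iff_dvd_sub _ _ _).1 e1
    obtain ⟨k2, e2'⟩ := (ZMod.intCast_eq_intCast_iff_dvd_sub _ _ _).1 e2
    dsimp only at e1' e2'
    push_cast at e1' e2'
    have d1 : (q : ℤ) ∣ (t' : ℤ) ^ 2 - (t : ℤ) ^ 2 := by
      refine (hp.dvd_or_dvd (a := 3) ⟨a' - a - q * k1, ?_⟩).resolve_left h3
      linear_combination -e1'
    have d2 : (q : ℤ) ∣ (t' : ℤ) ^ 3 - (t : ℤ) ^ 3 := by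
      refine (hp.dvd_or_dvd (a := 2) ⟨q * k2 - (u' - t' * a') + (u - t * a), ?_⟩).resolve_left h2
      linear_combination e2'
    have d3 : (q : ℤ) ∣ (t : ℤ) ^ 2 * ((t' : ℤ) - t) := by
      have := dvd_sub d2 (d1.mul_left t')
      rwa [show (t' : ℤ) ^ 3 - (t : ℤ) ^ 3 - t' * ((t' : ℤ) ^ 2 - (t : ℤ) ^ 2) =
        (t : ℤ) ^ 2 * ((t' : ℤ) - t) by ring] at this
    have d4 : t = t' := densA_eq x2 y2 ((hp.dvd_or_dvd d3).resolve_left fun h =>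
      densA_ndvd x1 x2 (hp.dvd_of_dvd_pow h))
    subst d4
    have d5 : a = a' := densA_eq x3 y3 ⟨k1, mul_left_cancel₀ hq0 (by linear_combination e1')⟩
    subst d5
    have d6 : u = u' := densA_eq x5 y5 ⟨k2, mul_left_cancel₀ hq0 (by linear_combination e2')⟩
    subst d6
    rfl
  refine ⟨Finset.univ \ D.image g, ?_, ?_⟩
  · rw [Finset.card_univ_sdiff, Finset.card_image_of_injOn hinj, Fintype.card_prod, ZMod.card]
    have hc : D.card = (q - 1) * (q * (q - 1)) := by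
      simp only [D, Finset.card_product, Nat.card_Ico, Finset.card_range]
    have hle : D.card ≤ q ^ 2 * q ^ 2 := by
      rw [← Finset.card_image_of_injOn hinj]
      refine (Finset.card_le_univ _).trans ?_
      rw [Fintype.card_prod, ZMod.card]
    rw [Nat.cast_sub hle, hc]
    have hq1 : 1 ≤ q := by omega
    have hq5 : (5 : ℝ) ≤ q := by exact_mod_cast h5
    have hqR : (q : ℝ) ≠ 0 := by positivity
    push_cast [Nat.cast_sub hq1]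
    have e : (1 - 1 / (2 * (q : ℝ))) * ((q : ℝ) ^ 2) ^ 2 = (q : ℝ) ^ 2 * q ^ 2 - q ^ 3 / 2 := by
      field_simp
    rw [e]
    have e1 : (0 : ℝ) ≤ q * (q * (q - 5)) := by
      have : (0 : ℝ) ≤ q - 5 := by linarith
      positivity
    have e2 : (0 : ℝ) ≤ (q : ℝ) ^ 2 := by positivity
    nlinarith only [e1, e2, hq5]
  · intro A B hAB
    refine Finset.mem_sdiff.2 ⟨Finset.mem_univ _, fun hmem => hAB ?_⟩
    obtain ⟨⟨t, a, u⟩, hx, hxy⟩ := Finset.mem_image.1 hmem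
    obtain ⟨⟨x1, x2⟩, x3, x4, x5⟩ := hD _ hx
    dsimp only at x1 x2 x3 x4 x5
    obtain ⟨e1, e2⟩ := Prod.ext_iff.1 hxy
    obtain ⟨k1, e1'⟩ := (ZMod.intCast_eq_intCast_iff_dvd_sub _ _ _).1 e1
    obtain ⟨k2, e2'⟩ := (ZMod.intCast_eq_intCast_iff_dvd_sub _ _ _).1 e2
    dsimp only at e1' e2'
    push_cast at e1' e2'
    have hA : A = -3 * (t : ℤ) ^ 2 + q * (a + q * k1) := by linear_combination e1'
    have hB : B = 2 * (t : ℤ) ^ 3 + q * (u - t * a + q * k2) := by linear_combination e2'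
    have hd : dsc A B = q * (108 * (t : ℤ) ^ 3 * u + q * (108 * (t : ℤ) ^ 4 * k1 +
        108 * (t : ℤ) ^ 3 * k2 - 36 * (t : ℤ) ^ 2 * (a + q * k1) ^ 2 + 4 * q * (a + q * k1) ^ 3 +
        27 * (u - t * a + q * k2) ^ 2)) := by
      rw [hA, hB, dsc]; ring
    have hn : ¬ (q : ℤ) ∣ 108 * (t : ℤ) ^ 3 * u + q * (108 * (t : ℤ) ^ 4 * k1 +
        108 * (t : ℤ) ^ 3 * k2 - 36 * (t : ℤ) ^ 2 * (a + q * k1) ^ 2 + 4 * q * (a + q * k1) ^ 3 +
        27 * (u - t * a + q * k2) ^ 2) := by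
      intro h
      have h' := (dvd_add_left (dvd_mul_right _ _)).1 h
      rcases hp.dvd_or_dvd h' with h4 | h4
      · rcases hp.dvd_or_dvd h4 with h6 | h6
        · rw [show (108 : ℤ) = 2 ^ 2 * 3 ^ 3 by norm_num] at h6
          rcases hp.dvd_or_dvd h6 with h7 | h7
          · exact h2 (hp.dvd_of_dvd_pow h7)
          · exact h3 (hp.dvd_of_dvd_pow h7)
        · exact densA_ndvd x1 x2 (hp.dvd_of_dvd_pow h6)
      · exact densA_ndvd x4 x5 h4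
    rw [hd, padicValInt.mul hq0 (densA_ne hn), padicValInt_self,
      padicValInt.eq_zero_of_not_dvd hn]

end Pool.Agent.P.MP_a60a76_nt.Fs
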