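import Pool.Agent.P.MP_a60a76_nt.Fs.Defs
import Pool.Agent.P.MP_a60a76_nt.Fs.DensA

namespace Pool.Agent.P.MP_a60a76_nt.Fs

open Polynomial
open scoped NNReal

theorem box_finite (X : ℝ) : (box X).Finite := by
  refine ((Set.finite_Icc (-⌈X⌉) ⌈X⌉).prod (Set.finite_Icc (-⌈X⌉) ⌈X⌉)).subset ?_
  rintro ⟨A, B⟩ ⟨h1, h2⟩
  have h3 : 4 * |A| ^ 3 ≤ ⌈X⌉ := by exact_mod_cast h1.trans (Int.le_ceil X)
  have h4 : 27 * B ^ 2 ≤ ⌈X⌉ := by exact_mod_cast h2.trans (Int.le_ceil X)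
  have h5 : |A| ≤ |A| ^ 3 := by
    rcases (abs_nonneg A).eq_or_lt with h | h
    · rw [← h]; norm_num
    · exact le_self_pow₀ h (by norm_num)
  have h6 : |B| ≤ B ^ 2 := by
    rw [← sq_abs]
    exact Int.le_self_sq _
  refine ⟨abs_le.1 ?_, abs_le.1 ?_⟩
  · change |A| ≤ _
    linarith [abs_nonneg A]
  · change |B| ≤ _
    linarith [abs_nonneg B]

theorem densB_root (M : ℝ) : ∀ᶠ X : ℝ in Filter.atTop, ∃ Z : ℝ, M ≤ Z ∧ 1 ≤ Z ∧
    X ^ (5 / 6 : ℝ) = Z ^ 5 ∧ ∀ c ∈ box X, |(c.1 : ℝ)| ≤ Z ^ 2 ∧ |(c.2 : ℝ)| ≤ Z ^ 3 := by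
  have h := tendsto_rpow_atTop (y := 1 / 6) (by norm_num)
  filter_upwards [h.eventually_ge_atTop M, h.eventually_ge_atTop 1,
    Filter.eventually_ge_atTop (0 : ℝ)] with X h1 h2 h3
  refine ⟨_, h1, h2, ?_, fun c hc => ?_⟩
  · rw [← Real.rpow_natCast, ← Real.rpow_mul h3]
    norm_num
  · have h4 : (X ^ (1 / 6 : ℝ)) ^ 6 = X := by
      rw [← Real.rpow_natCast, ← Real.rpow_mul h3]
      norm_num
    obtain ⟨h5, h6⟩ := hc
    generalize X ^ (1 / 6 : ℝ) = Z at *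
    have h7 : 0 ≤ Z := by linarith
    constructor
    · refine le_of_pow_le_pow_left₀ (n := 3) (by norm_num) (by positivity) ?_
      have : 0 ≤ |(c.1 : ℝ)| ^ 3 := by positivity
      nlinarith
    · refine le_of_pow_le_pow_left₀ (n := 2) (by norm_num) (by positivity) ?_
      rw [sq_abs]
      nlinarith [sq_nonneg (c.2 : ℝ)]

theorem densB_primes (N : ℕ) {η : ℝ} (hη : 0 < η) : ∃ I : Finset ℕ,
    (∀ q ∈ I, q.Prime ∧ N ≤ q) ∧ ∏ q ∈ I, (1 - 1 / (2 * (q : ℝ))) ≤ η := by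
  classical
  have key : ∀ c : ℝ, ∃ I : Finset ℕ, (∀ q ∈ I, q.Prime ∧ N ≤ q) ∧ c < ∑ q ∈ I, 1 / (q : ℝ) := by
    intro c
    by_contra h
    push Not at h
    refine not_summable_one_div_on_primes (summable_of_sum_le (c := N + c)
      (fun n => Set.indicator_nonneg (fun _ _ => by positivity) n) fun u => ?_)
    rw [← Finset.sum_filter_add_sum_filter_not u fun q => q < N]
    refine add_le_add ?_ ?_
    · refine (Finset.sum_le_card_nsmul _ _ 1 fun q _ => ?_).trans ?_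
      · refine Set.indicator_le' (fun q hq => ?_) (fun _ _ => zero_le_one) q
        exact (div_le_one (by exact_mod_cast Nat.Prime.pos hq)).2
          (by exact_mod_cast Nat.Prime.pos hq)
      · rw [nsmul_eq_mul, mul_one, Nat.cast_le]
        refine (Finset.card_le_card (t := Finset.range N) fun q hq => ?_).trans
          (Finset.card_range N).le
        exact Finset.mem_range.2 (Finset.mem_filter.1 hq).2
    · refine le_trans (le_of_eq ?_) (h ((u.filter fun q => ¬ q < N).filter Nat.Prime) fun q hq =>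
        ⟨(Finset.mem_filter.1 hq).2, not_lt.1 (Finset.mem_filter.1 (Finset.mem_filter.1 hq).1).2⟩)
      rw [Finset.sum_filter (p := Nat.Prime)]
      exact Finset.sum_congr rfl fun q _ => by simp [Set.indicator_apply]
  obtain ⟨I, h1, h2⟩ := key (-2 * Real.log η)
  refine ⟨I, h1, ?_⟩
  calc ∏ q ∈ I, (1 - 1 / (2 * (q : ℝ))) ≤ ∏ q ∈ I, Real.exp (-(1 / (2 * (q : ℝ)))) := by
        refine Finset.prod_le_prod (fun q hq => ?_) fun q _ => Real.one_sub_le_exp_neg _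
        have : (1 : ℝ) ≤ q := by exact_mod_cast (h1 q hq).1.pos
        rw [sub_nonneg, div_le_one (by linarith)]
        linarith
    _ = Real.exp (-(1 / 2) * ∑ q ∈ I, 1 / (q : ℝ)) := by
        rw [← Real.exp_sum, Finset.mul_sum]
        congr 1
        exact Finset.sum_congr rfl fun q _ => by ring
    _ ≤ Real.exp (Real.log η) := Real.exp_le_exp.2 (by linarith)
    _ = η := Real.exp_log hη

theorem densB_one {I : Finset ℕ} (hI : ∀ q ∈ I, q.Prime ∧ 5 ≤ q) {η : ℝ} (hη : 0 < η)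
    (h : ∏ q ∈ I, (1 - 1 / (2 * (q : ℝ))) ≤ η) : ∀ᶠ X : ℝ in Filter.atTop,
    (({c ∈ box X | ∀ q ∈ I, padicValInt q (dsc c.1 c.2) ≠ 1} : Set (ℤ × ℤ)).ncard : ℝ) ≤
      9 * η * X ^ (5 / 6 : ℝ) := by
  have hT : ∀ q : ℕ, ∃ T : Finset (ZMod (q ^ 2) × ZMod (q ^ 2)), q ∈ I →
      (T.card : ℝ) ≤ (1 - 1 / (2 * q)) * ((q ^ 2 : ℕ) : ℝ) ^ 2 ∧
      ∀ A B : ℤ, padicValInt q (dsc A B) ≠ 1 → ((A : ZMod (q ^ 2)), (B : ZMod (q ^ 2))) ∈ T := by
    intro q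
    by_cases hq : q ∈ I
    · obtain ⟨T, hT⟩ := local_count q (hI q hq).1 (hI q hq).2
      exact ⟨T, fun _ => hT⟩
    · exact ⟨∅, fun h => absurd h hq⟩
  choose T hT using hT
  filter_upwards [densB_root (1 + ∏ q ∈ I, ((q ^ 2 : ℕ) : ℝ))] with X ⟨Z, h1, h2, h3, h4⟩
  have hf : ({c ∈ box X | ∀ q ∈ I, padicValInt q (dsc c.1 c.2) ≠ 1} : Set (ℤ × ℤ)).Finite :=
    (box_finite X).subset fun _ hc => hc.1
  have h5 := periodic_count I (fun q => q ^ 2) (fun q hq => pow_pos (hI q hq).1.pos 2)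
    (fun q hq k hk hne => Nat.Coprime.pow 2 2
      ((Nat.coprime_primes (hI q hq).1 (hI k hk).1).2 hne))
    (fun q => 1 - 1 / (2 * (q : ℝ))) T (fun q hq => (hT q hq).1) (Z ^ 2) (Z ^ 3) (by positivity)
    (by positivity) hf.toFinset fun c hc => by
      rw [Set.Finite.mem_toFinset] at hc
      exact ⟨(h4 c hc.1).1, (h4 c hc.1).2, fun q hq => (hT q hq).2 _ _ (hc.2 q hq)⟩
  rw [Set.ncard_eq_toFinset_card _ hf, h3]
  refine h5.trans ?_
  have h6 : Z ≤ Z ^ 2 := le_self_pow₀ h2 (by norm_num)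
  have h7 : Z ≤ Z ^ 3 := le_self_pow₀ h2 (by norm_num)
  have h8 : 0 ≤ ∏ q ∈ I, ((q ^ 2 : ℕ) : ℝ) := by positivity
  calc _ ≤ η * (3 * Z ^ 2) * (3 * Z ^ 3) :=
        mul_le_mul (mul_le_mul h (by linarith) (by positivity) hη.le) (by linarith)
          (by positivity) (by positivity)
    _ = _ := by ring

theorem good0_density (η : ℝ) (hη : 0 < η) : ∀ᶠ X : ℝ in Filter.atTop,
    (Nat.card {c ∈ box X | ¬ Good0 c.1 c.2} : ℝ) ≤ η * X ^ (5 / 6 : ℝ) := by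
  have h0 : 0 < η / 18 := by positivity
  obtain ⟨I, h1, h2⟩ := densB_primes 5 h0
  obtain ⟨J, h3, h4⟩ := densB_primes (I.sup id + 5) h0
  filter_upwards [densB_one h1 h0 h2,
    densB_one (fun q hq => ⟨(h3 q hq).1, le_of_add_le_right (h3 q hq).2⟩) h0 h4] with X h5 h6
  have h7 := Set.ncard_le_ncard (s := {c ∈ box X | ¬ Good0 c.1 c.2})
    (t := {c ∈ box X | ∀ q ∈ I, padicValInt q (dsc c.1 c.2) ≠ 1} ∪
      {c ∈ box X | ∀ q ∈ J, padicValInt q (dsc c.1 c.2) ≠ 1}) (fun c hc => by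
      by_contra h
      simp only [Set.mem_union, Set.mem_sep_iff, hc.1, true_and, not_or, not_forall,
        not_not] at h
      obtain ⟨⟨q, hq, e1⟩, k, hk, e2⟩ := h
      have l1 : q ≤ I.sup id := Finset.le_sup (f := id) hq
      have l2 := (h3 k hk).2
      exact hc.2 ⟨q, k, (h1 q hq).1, (h3 k hk).1, (h1 q hq).2, by omega, by omega, e1, e2⟩)
    (((box_finite X).subset fun _ hc => hc.1).union ((box_finite X).subset fun _ hc => hc.1))
  have h8 := h7.trans (Set.ncard_union_le _ _)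
  rw [Nat.card_coe_set_eq]
  refine le_trans (by exact_mod_cast h8) ((add_le_add h5 h6).trans (le_of_eq (by ring)))

theorem square_small (η : ℝ) (hη : 0 < η) : ∀ᶠ X : ℝ in Filter.atTop,
    (Nat.card {c ∈ box X | IsSquare (-3 * c.1)} : ℝ) ≤ η * X ^ (5 / 6 : ℝ) := by
  classical
  filter_upwards [densB_root (15 / η)] with X ⟨Z, h1, h2, h3, h4⟩
  have key : ∀ Y : ℝ, 0 ≤ Y → ((Finset.Icc (-⌊Y⌋) ⌊Y⌋).card : ℝ) ≤ 2 * Y + 1 := fun Y hY => by
    have h5 : 0 ≤ ⌊Y⌋ := Int.floor_nonneg.2 hY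
    have h6 : (((Finset.Icc (-⌊Y⌋) ⌊Y⌋).card : ℤ) : ℝ) = ((⌊Y⌋ + 1 - -⌊Y⌋ : ℤ) : ℝ) := by
      rw [Int.card_Icc_of_le _ _ (by omega)]
    push_cast at h6
    linarith [Int.floor_le Y]
  have mem : ∀ (Y : ℝ) (n : ℤ), |(n : ℝ)| ≤ Y → n ∈ Finset.Icc (-⌊Y⌋) ⌊Y⌋ := fun Y n h => by
    rw [Finset.mem_Icc, ← abs_le, Int.le_floor, Int.cast_abs]
    exact h
  have h7 := Set.ncard_le_ncard (s := {c ∈ box X | IsSquare (-3 * c.1)})
    (t := ((Finset.Icc (-⌊2 * Z⌋) ⌊2 * Z⌋ ×ˢ Finset.Icc (-⌊Z ^ 3⌋) ⌊Z ^ 3⌋).image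
      fun p : ℤ × ℤ => (-(p.1 * p.1) / 3, p.2) : Finset (ℤ × ℤ))) (fun c hc => by
      obtain ⟨hb, r, hr⟩ := hc
      obtain ⟨l1, l2⟩ := h4 c hb
      refine Finset.mem_coe.2 (Finset.mem_image.2 ⟨(r, c.2),
        Finset.mem_product.2 ⟨mem _ _ ?_, mem _ _ l2⟩, Prod.ext ?_ rfl⟩)
      · refine abs_le_of_sq_le_sq' ?_ (by linarith) |> abs_le.2
        have : (-3 * c.1 : ℝ) = r * r := by exact_mod_cast hr
        nlinarith [neg_abs_le (c.1 : ℝ), sq_nonneg Z]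
      · change -(r * r) / 3 = c.1
        omega) (Finset.finite_toSet _)
  rw [Set.ncard_coe_finset] at h7
  have h8 := h7.trans Finset.card_image_le
  rw [Finset.card_product] at h8
  have h9 : Z ≤ Z ^ 3 := le_self_pow₀ h2 (by norm_num)
  rw [div_le_iff₀ hη] at h1
  rw [Nat.card_coe_set_eq, h3]
  calc _ ≤ ((Finset.Icc (-⌊2 * Z⌋) ⌊2 * Z⌋).card : ℝ) *
        (Finset.Icc (-⌊Z ^ 3⌋) ⌊Z ^ 3⌋).card := by exact_mod_cast h8
    _ ≤ (5 * Z) * (3 * Z ^ 3) :=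
        mul_le_mul ((key _ (by linarith)).trans (by linarith))
          ((key _ (by linarith)).trans (by linarith)) (by positivity) (by linarith)
    _ = 15 * Z ^ 4 := by ring
    _ ≤ (Z * η) * Z ^ 4 := mul_le_mul_of_nonneg_right h1 (by positivity)
    _ = _ := by ring

end Pool.Agent.P.MP_a60a76_nt.Fs
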