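import Pool.Agent.P.MP_a60a76_nt.Fs.Defs

namespace Pool.Agent.P.MP_a60a76_nt.Fs

open Polynomial
open scoped NNReal

/-- The ring of algebraic integers. -/
abbrev FrobElS : Type := integralClosure ℤ Qb

theorem FrobEl_alg : Algebra.IsAlgebraic ℚ Qb := AlgebraicClosure.isAlgebraic ℚ

theorem FrobEl_gal : IsGalois ℚ Qb := by
  have := FrobEl_alg
  have : IsAlgClosure ℚ Qb := ⟨inferInstance, this⟩
  exact IsAlgClosure.isGalois ℚ Qb

theorem FrobEl_integral {x : Qb} (h : ∀ V : ValuationSubring Qb, x ∈ V) : IsIntegral ℤ x := by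
  have h1 : x ∈ (integralClosure (Subring.closure (∅ : Set Qb)) Qb).toSubring := by
    rw [← iInf_valuationSubring_superset, Subring.mem_iInf]
    intro V
    exact h V.1
  have h2 : IsIntegral (Subring.closure (∅ : Set Qb)) x := h1
  have : Algebra.IsIntegral ℤ (Subring.closure (∅ : Set Qb)) := ⟨by
    rintro ⟨y, hy⟩
    rw [Subring.closure_empty, Subring.mem_bot] at hy
    obtain ⟨n, rfl⟩ := hy
    exact (isIntegral_algebraMap (R := ℤ) (A := Subring.closure (∅ : Set Qb)) (x := n))⟩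
  exact isIntegral_trans x h2

theorem FrobEl_mem (V : ValuationSubring Qb) {x : Qb} (h : IsIntegral ℤ x) : x ∈ V := by
  have h1 : IsIntegral V x := h.tower_top
  obtain ⟨y, hy⟩ := (IsIntegrallyClosed.isIntegral_iff (R := V) (K := Qb)).1 h1
  rw [← hy]
  exact y.2

theorem FrobEl_aeval_mem (V : ValuationSubring Qb) {z : Qb} (hz : z ∈ V) (q : ℤ[X]) :
    aeval z q ∈ V := by
  rw [aeval_eq_sum_range]
  refine sum_mem fun i _ => ?_
  exact zsmul_mem (pow_mem hz i) _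

theorem FrobEl_poly (l : ℕ) [Fact l.Prime] (z : Qb) :
    ∃ p : ℤ[X], aeval z p = 0 ∧ p.map (Int.castRingHom (ZMod l)) ≠ 0 := by
  have h1 : IsAlgebraic ℤ z :=
    (IsFractionRing.isAlgebraic_iff ℤ ℚ Qb).2 (FrobEl_alg.isAlgebraic z)
  obtain ⟨p, hp, hz⟩ := h1
  refine ⟨p.primPart, ?_, ?_⟩
  · rw [p.eq_C_content_mul_primPart, map_mul, aeval_C] at hz
    refine (mul_eq_zero.1 hz).resolve_left ?_
    simpa using content_eq_zero_iff.not.2 hp
  · intro h0
    have h2 : C (l : ℤ) ∣ p.primPart := by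
      rw [C_dvd_iff_dvd_coeff]
      intro i
      have := congrArg (fun q => coeff q i) h0
      simp only [coeff_map, eq_intCast, coeff_zero] at this
      exact (ZMod.intCast_zmod_eq_zero_iff_dvd _ _).1 this
    have h3 := p.isPrimitive_primPart _ h2
    rw [Int.isUnit_iff_natAbs_eq, Int.natAbs_natCast] at h3
    exact (Fact.out : l.Prime).ne_one h3

theorem FrobEl_div {z : Qb} {p : ℤ[X]} (hp : aeval z p = 0) (k : ℕ) :
    IsIntegral ℤ (aeval z (p /ₘ X ^ k)) ∧ IsIntegral ℤ (z * aeval z (p /ₘ X ^ k)) := by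
  have hm : (X ^ k : ℤ[X]).Monic := monic_X_pow k
  have key : ∀ V : ValuationSubring Qb,
      aeval z (p /ₘ X ^ k) ∈ V ∧ z * aeval z (p /ₘ X ^ k) ∈ V := by
    intro V
    by_cases hz : z ∈ V
    · exact ⟨FrobEl_aeval_mem V hz _, mul_mem hz (FrobEl_aeval_mem V hz _)⟩
    have hz' : z⁻¹ ∈ V := (V.mem_or_inv_mem z).resolve_left hz
    have hz0 : z ≠ 0 := fun h => hz (h ▸ zero_mem V)
    have h1 : z * aeval z (p /ₘ X ^ k) ∈ V := by
      have h2 : aeval z (p %ₘ X ^ k) + z ^ k * aeval z (p /ₘ X ^ k) = 0 := by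
        have := congrArg (aeval z) (modByMonic_add_div p (X ^ k))
        rwa [map_add, map_mul, map_pow, aeval_X, hp] at this
      have h3 : z * aeval z (p /ₘ X ^ k) = -(aeval z (p %ₘ X ^ k) * (z * z⁻¹ ^ k)) := by
        have h4 : z ^ k * z⁻¹ ^ k = 1 := by rw [← mul_pow, mul_inv_cancel₀ hz0, one_pow]
        linear_combination (z * z⁻¹ ^ k) * h2 - (z * aeval z (p /ₘ X ^ k)) * h4
      rw [h3]
      refine neg_mem ?_
      rw [aeval_def, eval₂_eq_sum, Polynomial.sum, Finset.sum_mul]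
      refine sum_mem fun i hi => ?_
      have hik : i < k := by
        have h5 := degree_modByMonic_lt p hm
        rw [degree_X_pow] at h5
        exact Nat.cast_lt.1 ((le_degree_of_mem_supp i hi).trans_lt h5)
      obtain ⟨j, rfl⟩ := Nat.exists_eq_add_of_lt hik
      have h6 : z ^ i * (z * z⁻¹ ^ (i + j + 1)) = z⁻¹ ^ j := by
        have h4 : z ^ (i + 1) * z⁻¹ ^ (i + 1) = 1 := by
          rw [← mul_pow, mul_inv_cancel₀ hz0, one_pow]
        linear_combination (z⁻¹ ^ j) * h4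
      rw [mul_assoc, h6]
      exact mul_mem (intCast_mem V _) (pow_mem hz' j)
    refine ⟨?_, h1⟩
    have h7 : aeval z (p /ₘ X ^ k) = z⁻¹ * (z * aeval z (p /ₘ X ^ k)) := by
      rw [← mul_assoc, inv_mul_cancel₀ hz0, one_mul]
    rw [h7]
    exact mul_mem hz' h1
  exact ⟨FrobEl_integral fun V => (key V).1, FrobEl_integral fun V => (key V).2⟩

theorem FrobEl_lift (l : ℕ) [Fact l.Prime] (Q : Ideal FrobElS) [Q.IsPrime]
    (hl : (l : FrobElS) ∈ Q) :
    ∃ σ : Qb ≃ₐ[ℚ] Qb, ∀ s : FrobElS, σ • s - s ^ l ∈ Q := by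
  have := FrobEl_gal
  let : TopologicalSpace FrobElS := ⊥
  have : DiscreteTopology FrobElS := ⟨rfl⟩
  have : ContinuousSMul (Qb ≃ₐ[ℚ] Qb) FrobElS := by
    rw [continuousSMul_iff_stabilizer_isOpen]
    intro s
    have h1 := stabilizer_isOpen_of_isIntegral (K := ℚ) (s : Qb)
    have h2 : MulAction.stabilizer (Qb ≃ₐ[ℚ] Qb) s = MulAction.stabilizer (Qb ≃ₐ[ℚ] Qb) (s : Qb) := by
      ext σ
      simp only [MulAction.mem_stabilizer_iff]
      exact Subtype.ext_iff
    rw [h2]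
    exact h1
  have : Algebra.IsInvariant ℤ FrobElS (Qb ≃ₐ[ℚ] Qb) := ⟨by
    intro s hs
    obtain ⟨q, hq⟩ := (InfiniteGalois.mem_range_algebraMap_iff_fixed (k := ℚ) (s : Qb)).2
      fun σ => congrArg Subtype.val (hs σ)
    have h1 : IsIntegral ℤ q := by
      have h2 : IsIntegral ℤ (algebraMap ℚ Qb q) := hq ▸ s.2
      exact (isIntegral_algebraMap_iff (algebraMap ℚ Qb).injective).1 h2
    obtain ⟨n, hn⟩ := (IsIntegrallyClosed.isIntegral_iff (R := ℤ) (K := ℚ)).1 h1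
    refine ⟨n, Subtype.ext ?_⟩
    rw [← hq, ← hn]
    simp⟩
  have : CharP (FrobElS ⧸ Q) l := by
    refine (CharP.charP_iff_prime_eq_zero (Fact.out : l.Prime)).2 ?_
    rw [← map_natCast (Ideal.Quotient.mk Q), Ideal.Quotient.eq_zero_iff_mem]
    exact hl
  let φ : (FrobElS ⧸ Q) →ₐ[ℤ ⧸ Q.under ℤ] (FrobElS ⧸ Q) :=
    { frobenius (FrobElS ⧸ Q) l with
      commutes' := by
        intro r
        obtain ⟨n, rfl⟩ := Ideal.Quotient.mk_surjective r
        simp }
  have hφ : ∀ x, φ x = x ^ l := fun x => rfl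
  have hb : Function.Bijective φ := by
    refine ⟨frobenius_inj (FrobElS ⧸ Q) l, ?_⟩
    intro y
    obtain ⟨s, rfl⟩ := Ideal.Quotient.mk_surjective y
    obtain ⟨t, ht⟩ := IsAlgClosed.exists_pow_nat_eq (s : Qb) (Fact.out : l.Prime).pos
    have h1 : IsIntegral ℤ t := by
      refine IsIntegral.of_pow (Fact.out : l.Prime).pos ?_
      rw [ht]
      exact s.2
    refine ⟨Ideal.Quotient.mk Q ⟨t, h1⟩, ?_⟩
    rw [hφ, ← map_pow]
    exact congrArg _ (Subtype.ext ht)
  obtain ⟨σ, hσ⟩ := Ideal.Quotient.stabilizerHom_surjective_of_profinite (G := Qb ≃ₐ[ℚ] Qb)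
    (Q.under ℤ) Q (AlgEquiv.ofBijective φ hb)
  refine ⟨σ, fun s => ?_⟩
  rw [← Ideal.Quotient.eq, map_pow, ← hφ]
  exact DFunLike.congr_fun hσ (Ideal.Quotient.mk Q s)

theorem exists_frob (l : ℕ) [Fact l.Prime] :
    ∃ (g : Spec Qb (Fb l)) (O : ValuationSubring Qb) (σ : RingAut Qb), (∀ z, z ∈ g.S ↔ z ∈ O) ∧
      (∀ z ∈ g.S, g.f z ≠ 0 ↔ O.valuation z = 1) ∧
      ∀ z ∈ g.S, σ z ∈ g.S ∧ g.f (σ z) = g.f z ^ l := by
  have hl : l.Prime := Fact.out
  have hI : (Ideal.span {(l : (⊥ : Subring Qb))} : Ideal (⊥ : Subring Qb)) ≠ ⊤ := by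
    rw [Ne, Ideal.span_singleton_eq_top, isUnit_iff_exists_inv]
    rintro ⟨⟨y, hy⟩, h⟩
    rw [Subring.mem_bot] at hy
    obtain ⟨n, rfl⟩ := hy
    have h1 : ((l : ℤ) : Qb) * n = 1 := by simpa using congrArg Subtype.val h
    have h2 : (l : ℤ) * n = 1 := by exact_mod_cast h1
    have h3 := Int.isUnit_iff_natAbs_eq.1 (IsUnit.of_mul_eq_one n h2)
    rw [Int.natAbs_natCast] at h3
    exact hl.ne_one h3
  obtain ⟨O, -, hO⟩ := Ideal.image_subset_nonunits_valuationSubring _ hI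
  have hlO : (l : O) ∈ IsLocalRing.maximalIdeal O := by
    have h1 : (l : Qb) ∈ O.nonunits := hO ⟨_, Ideal.subset_span rfl, by simp⟩
    rw [← ValuationSubring.coe_mem_nonunits_iff]
    simpa using h1
  have : CharP (IsLocalRing.ResidueField O) l := by
    refine (CharP.charP_iff_prime_eq_zero hl).2 ?_
    rw [← map_natCast (IsLocalRing.residue O), IsLocalRing.residue_eq_zero_iff]
    exact hlO
  let : Algebra (ZMod l) (IsLocalRing.ResidueField O) := ZMod.algebra _ l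
  have hres : ∀ (z : O) (q : ℤ[X]),
      IsLocalRing.residue O ⟨aeval (z : Qb) q, FrobEl_aeval_mem O z.2 q⟩ =
        aeval (IsLocalRing.residue O z) (q.map (Int.castRingHom (ZMod l))) := by
    intro z q
    have h1 : (⟨aeval (z : Qb) q, FrobEl_aeval_mem O z.2 q⟩ : O) = aeval z q :=
      Subtype.ext (aeval_algHom_apply (O.subtype.toIntAlgHom) z q)
    rw [h1]
    have h2 := aeval_algHom_apply (IsLocalRing.residue O).toIntAlgHom z q
    rw [RingHom.toIntAlgHom_apply, RingHom.toIntAlgHom_apply] at h2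
    rw [← h2, aeval_def, aeval_def, eval₂_map]
    congr 1
    exact RingHom.ext_int _ _
  have : Algebra.IsAlgebraic (ZMod l) (IsLocalRing.ResidueField O) := ⟨by
    intro x
    obtain ⟨z, rfl⟩ := IsLocalRing.residue_surjective x
    obtain ⟨p, hp, hp'⟩ := FrobEl_poly l (z : Qb)
    refine ⟨_, hp', ?_⟩
    rw [← hres]
    simp only [hp]
    exact map_zero _⟩
  let e : IsLocalRing.ResidueField O →ₐ[ZMod l] Fb l := IsAlgClosed.lift
  let ψ : O →+* Fb l := e.toRingHom.comp (IsLocalRing.residue O)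
  have hψ : ∀ z : O, ψ z = 0 ↔ z ∈ IsLocalRing.maximalIdeal O := by
    intro z
    rw [← IsLocalRing.residue_eq_zero_iff]
    exact map_eq_zero_iff e.toRingHom e.toRingHom.injective
  let ι : FrobElS →+* O :=
    (integralClosure ℤ Qb).val.toRingHom.codRestrict O fun s => FrobEl_mem O s.2
  obtain ⟨σ, hσ⟩ := FrobEl_lift l ((IsLocalRing.maximalIdeal O).comap ι) (by
    rw [Ideal.mem_comap, map_natCast]
    exact hlO)
  have hσ' : ∀ s : FrobElS, ψ (ι (σ • s)) = ψ (ι s) ^ l := by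
    intro s
    have h1 := (hψ _).2 (Ideal.mem_comap.1 (hσ s))
    rwa [map_sub, map_sub, map_pow, map_pow, sub_eq_zero] at h1
  have hfrac : ∀ z : O, ∃ s t : FrobElS, ψ (ι t) ≠ 0 ∧ z * ι t = ι s := by
    intro z
    obtain ⟨p, hp, hp'⟩ := FrobEl_poly l (z : Qb)
    obtain ⟨h1, h2⟩ := FrobEl_div hp (p.map (Int.castRingHom (ZMod l))).natDegree
    refine ⟨⟨_, h2⟩, ⟨_, h1⟩, ?_, rfl⟩
    intro h0
    rw [hψ, ← IsLocalRing.residue_eq_zero_iff] at h0
    have h3 := (hres z (p /ₘ X ^ (p.map (Int.castRingHom (ZMod l))).natDegree)).symm.trans h0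
    rw [map_divByMonic _ (monic_X_pow _), Polynomial.map_pow, map_X] at h3
    generalize p.map (Int.castRingHom (ZMod l)) = P at hp' h3
    have h4 : (P /ₘ X ^ P.natDegree).natDegree = 0 := by
      rw [natDegree_divByMonic _ (monic_X_pow _), natDegree_X_pow, Nat.sub_self]
    rw [eq_C_of_natDegree_eq_zero h4, aeval_C, map_eq_zero] at h3
    have h5 : P /ₘ X ^ P.natDegree = 0 := by
      rw [eq_C_of_natDegree_eq_zero h4, h3, C_0]
    rw [divByMonic_eq_zero_iff (monic_X_pow _), degree_X_pow, degree_eq_natDegree hp'] at h5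
    exact lt_irrefl _ h5
  have hg : ∀ (z : Qb) (hz : z ∈ O), (Spec.ofHom O.toSubring ψ).f z = ψ ⟨z, hz⟩ :=
    fun z hz => dif_pos hz
  refine ⟨Spec.ofHom O.toSubring ψ, O, σ.toRingEquiv, fun z => Iff.rfl, ?_, ?_⟩
  · intro z hz
    rw [hg z hz, Ne, hψ, ← ValuationSubring.valuation_eq_one_iff O ⟨z, hz⟩,
      IsLocalRing.mem_maximalIdeal, mem_nonunits_iff, not_not]
  · intro z hz
    obtain ⟨s, t, ht, hst⟩ := hfrac ⟨z, hz⟩
    have h1 : ψ (ι (σ • t)) ≠ 0 := by
      rw [hσ']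
      exact pow_ne_zero _ ht
    have h2 : IsUnit (ι (σ • t)) := by
      rwa [Ne, hψ, IsLocalRing.mem_maximalIdeal, mem_nonunits_iff, not_not] at h1
    obtain ⟨u, hu⟩ := h2.exists_right_inv
    have h3 : σ z * (ι (σ • t) : Qb) = ι (σ • s) := by
      have h4 : z * (t : Qb) = s := congrArg Subtype.val hst
      change σ z * σ t = σ s
      rw [← map_mul, h4]
    have h5 : σ z = ((ι (σ • s) * u : O) : Qb) := by
      have h6 : (ι (σ • t) : Qb) * u = 1 := congrArg Subtype.val hu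
      rw [MulMemClass.coe_mul, ← h3, mul_assoc, h6, mul_one]
    have h7 : σ z ∈ O := by
      rw [h5]
      exact Subtype.property _
    refine ⟨h7, ?_⟩
    change (Spec.ofHom O.toSubring ψ).f (σ z) = _
    rw [hg _ h7, hg z hz]
    have h8 : (⟨σ z, h7⟩ : O) * ι (σ • t) = ι (σ • s) := Subtype.ext h3
    have h9 := congrArg ψ h8
    rw [map_mul, hσ', hσ', ← hst, map_mul, mul_pow] at h9
    exact mul_right_cancel₀ (pow_ne_zero _ ht) h9

end Pool.Agent.P.MP_a60a76_nt.Fs
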