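import Pool.Agent.P.MP_a60a76_nt.Fs.Defs
import Pool.Agent.P.MP_a60a76_nt.Fs.FrobEl
import Pool.Agent.P.MP_a60a76_nt.Fs.Red
import Pool.Agent.P.MP_a60a76_nt.Fs.Trace

namespace Pool.Agent.P.MP_a60a76_nt.Fs

open Polynomial
open scoped NNReal

theorem frobArith_ma {R S : Type*} [CommRing R] [CommRing S] (φ : R →+* S) (n : R) :
    φ (ma n 1) = ma (φ n) 1 ∧ φ (mb n 1) = mb (φ n) 1 := by
  simp [ma, mb, map_ofNat]

theorem frobArith_dsc {R S : Type*} [CommRing R] [CommRing S] (φ : R →+* S) (a b : R) :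
    φ (dsc a b) = dsc (φ a) (φ b) := by
  simp [dsc, map_ofNat]

theorem frobArith_nat {l : ℕ} [Fact l.Prime] (hl : 5 ≤ l) {i k : ℕ} :
    ((2 ^ i * 3 ^ k : ℕ) : ZMod l) ≠ 0 := by
  have hp : l.Prime := Fact.out
  rw [Ne, ZMod.natCast_eq_zero_iff, hp.dvd_mul]
  rintro (h | h)
  · have := Nat.le_of_dvd (by norm_num) (hp.dvd_of_dvd_pow h)
    omega
  · have := Nat.le_of_dvd (by norm_num) (hp.dvd_of_dvd_pow h)
    omega

section

variable {l : ℕ} [Fact l.Prime] {g : Spec Qb (Fb l)} {O : ValuationSubring Qb} {σ : RingAut Qb}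

theorem frobArith_int (g : Spec Qb (Fb l)) (n : ℤ) : g.f (n : Qb) = up l (n : ZMod l) := by
  have := map_intCast g.hom n
  rw [map_intCast]
  exact this

theorem frobArith_rat (h1 : ∀ z, z ∈ g.S ↔ z ∈ O) (h2 : ∀ z ∈ g.S, g.f z ≠ 0 ↔ O.valuation z = 1)
    {q : ℚ} (hq : (q.den : ZMod l) ≠ 0) : (q : Qb) ∈ g.S ∧ g.f (q : Qb) = up l (redQ l q) := by
  have e : (q : Qb) * (q.den : Qb) = (q.num : Qb) := by
    exact_mod_cast congrArg (Rat.cast : ℚ → Qb) q.mul_den_eq_num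
  have d1 : g.f (q.den : Qb) = up l (q.den : ZMod l) := by rw [red_nat, map_natCast]
  have d2 : up l (q.den : ZMod l) ≠ 0 := (map_ne_zero (up l)).2 hq
  have d3 : O.valuation (q.den : Qb) = 1 := (h2 _ (natCast_mem _ _)).1 (d1 ▸ d2)
  have m : (q : Qb) ∈ g.S := by
    rw [h1, ← O.valuation_le_one_iff, ← mul_one (O.valuation _), ← d3, ← map_mul, e,
      d3, O.valuation_le_one_iff]
    exact intCast_mem _ _
  refine ⟨m, mul_right_cancel₀ d2 ?_⟩
  rw [← d1, ← g.map_mul _ m _ (natCast_mem _ _), e, frobArith_int, d1, ← map_mul, redQ, mul_assoc,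
    inv_mul_cancel₀ hq, mul_one]

theorem frobArith_red (hl : 5 ≤ l) (h1 : ∀ z, z ∈ g.S ↔ z ∈ O)
    (h2 : ∀ z ∈ g.S, g.f z ≠ 0 ↔ O.valuation z = 1)
    (h3 : ∀ z ∈ g.S, σ z ∈ g.S ∧ g.f (σ z) = g.f z ^ l) {p : ℕ} (hp : (p : ZMod l) ≠ 0)
    (hodd : Odd p) {a b : ℚ} {a' b' : ZMod l} (ha : (a : Qb) ∈ g.S) (hb : (b : Qb) ∈ g.S)
    (ha' : g.f a = up l a') (hb' : g.f b = up l b') (hd : dsc a' b' ≠ 0) :
    ∃ f : Tors p (a : Qb) (b : Qb) ≃+ Tors p (up l a') (up l b'),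
      ∀ P, f (rho p (a : Qb) (b : Qb) σ P) = frobT l p a' b' (f P) := by
  have le : ∀ z, z ∈ g.S ↔ O.valuation z ≤ 1 := fun z => by rw [h1, O.valuation_le_one_iff]
  have p0 : (p : Fb l) ≠ 0 := by
    rw [← map_natCast (up l)]
    exact (map_ne_zero (up l)).2 hp
  have p1 : O.valuation (p : Qb) = 1 := (h2 _ (natCast_mem _ _)).1 (by rwa [red_nat])
  have two : (2 : Fb l) ≠ 0 := by
    have := (map_ne_zero (up l)).2 (frobArith_nat hl (i := 1) (k := 0))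
    rw [map_natCast] at this
    simpa using this
  have hS : ∀ P : Tors p (a : Qb) (b : Qb),
      xc (P : Pt (a : Qb) (b : Qb)) ∈ g.S ∧ yc (P : Pt (a : Qb) (b : Qb)) ∈ g.S := by
    intro P
    have hx : xc (P : Pt (a : Qb) (b : Qb)) ∈ g.S := by
      have := tors_int O.valuation two_ne_zero (c := 1) one_ne_zero
        (by simpa using (le _).1 ha) (by simpa using (le _).1 hb) P.2
      rw [map_mul, p1, one_mul, map_one] at this
      exact (le _).2 this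
    refine ⟨hx, ?_⟩
    by_cases h0 : (P : Pt (a : Qb) (b : Qb)) = 0
    · rw [h0, yc_zero]
      exact zero_mem _
    · have : yc (P : Pt (a : Qb) (b : Qb)) ^ 2 ∈ g.S := by
        rw [eqn h0]
        exact add_mem (add_mem (pow_mem hx 3) (mul_mem ha hx)) hb
      rw [le, map_pow, pow_le_one_iff two_ne_zero] at this
      exact (le _).2 this
  obtain ⟨f, hf⟩ := red_equiv g O.valuation (fun z hz => ⟨(le z).1 hz, h2 z hz⟩) ha hb ha' hb' two
    (by rw [← frobArith_dsc]; exact (map_ne_zero (up l)).2 hd) p0 hodd hS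
  refine ⟨f, fun P => ?_⟩
  by_cases h0 : P = 0
  · rw [h0, map_zero, map_zero, map_zero]
  have hσ : σ (a : Qb) = a ∧ σ (b : Qb) = b := ⟨map_ratCast _ _, map_ratCast _ _⟩
  have hF : ∀ c : ZMod l, frobenius (Fb l) l (up l c) = up l c := fun c => by
    rw [frobenius_def, ← map_pow, ZMod.pow_card]
  have n1 : rho p (a : Qb) (b : Qb) σ P ≠ 0 := fun h => h0 (Subtype.ext
    ((galP_eq_zero_iff σ.toRingHom _).1 (congrArg Subtype.val h)))
  have n2 : ∀ Q, Q ≠ 0 → (f Q : Pt (up l a') (up l b')) ≠ 0 := fun Q hQ h =>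
    hQ (f.map_eq_zero_iff.1 (Subtype.ext h))
  refine Subtype.ext (pt_ext (n2 _ n1) ((galP_eq_zero_iff _ _).not.2 (n2 _ h0)) ?_ ?_)
  · rw [(hf _).2.2.1, xc_rho p hσ, (h3 _ (hS P).1).2, ← (hf P).2.2.1]
    exact (xc_galP (hF _) (hF _) _).symm
  · rw [(hf _).2.2.2, yc_rho p hσ, (h3 _ (hS P).2).2, ← (hf P).2.2.2]
    exact (yc_galP (hF _) (hF _) _).symm

end

theorem mat_of_pmc {p l : ℕ} [Fact l.Prime] (hp : p.Prime) (hl : 5 ≤ l) (hlp : 2 * l + 2 < p)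
    {A B : ℤ} {j : ℚ} (h : PMC p A B (ma j 1) (mb j 1))
    (hd : ¬ (l : ℤ) ∣ dsc A B * j.den * j.num * (1728 * j.den - j.num)) :
    redQ l j ≠ 0 ∧ redQ l j ≠ 1728 ∧
      Mat l (A : ZMod l) (B : ZMod l) (ma (redQ l j) 1) (mb (redQ l j) 1) := by
  have hl' : l.Prime := Fact.out
  rw [← ZMod.intCast_zmod_eq_zero_iff_dvd] at hd
  push_cast at hd
  simp only [mul_eq_zero, not_or] at hd
  obtain ⟨⟨⟨d1, d2⟩, d3⟩, d4⟩ := hd
  have d1' : dsc (A : ZMod l) (B : ZMod l) ≠ 0 := by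
    have := frobArith_dsc (Int.castRingHom (ZMod l)) A B
    simp only [eq_intCast] at this
    rwa [← this]
  have j0 : redQ l j ≠ 0 := mul_ne_zero d3 (inv_ne_zero d2)
  have j1 : redQ l j ≠ 1728 := fun e => d4 (by
    rw [← e, redQ, mul_assoc, inv_mul_cancel₀ d2, mul_one, sub_self])
  have d2' : dsc (ma (redQ l j) 1) (mb (redQ l j) 1) ≠ 0 := by
    have e : dsc (ma (redQ l j) 1) (mb (redQ l j) 1) =
        ((2 ^ 8 * 3 ^ 6 : ℕ) : ZMod l) * redQ l j ^ 2 * (1728 - redQ l j) ^ 3 := by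
      simp only [dsc, ma, mb]
      push_cast
      ring
    rw [e]
    exact mul_ne_zero (mul_ne_zero (frobArith_nat hl) (pow_ne_zero _ j0))
      (pow_ne_zero _ (sub_ne_zero.2 j1.symm))
  have p0 : (p : ZMod l) ≠ 0 := by
    rw [Ne, ZMod.natCast_eq_zero_iff, Nat.prime_dvd_prime_iff_eq hl' hp]
    omega
  have hodd : Odd p := hp.odd_of_ne_two (by omega)
  obtain ⟨g, O, σ, h1, h2, h3⟩ := exists_frob l
  obtain ⟨m, e⟩ := frobArith_rat h1 h2 d2
  have c := frobArith_ma g.S.subtype ⟨j, m⟩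
  have c' := frobArith_ma (Rat.castHom Qb) j
  have c1 : ((ma j 1 : ℚ) : Qb) = (ma (⟨j, m⟩ : g.S) 1 : g.S) := c'.1.trans c.1.symm
  have c2 : ((mb j 1 : ℚ) : Qb) = (mb (⟨j, m⟩ : g.S) 1 : g.S) := c'.2.trans c.2.symm
  have c3 := frobArith_ma g.hom ⟨j, m⟩
  have c4 := frobArith_ma (up l) (redQ l j)
  rw [← e] at c4
  obtain ⟨f1, hf1⟩ := frobArith_red hl h1 h2 h3 p0 hodd (a := A) (b := B)
    (by rw [Rat.cast_intCast]; exact intCast_mem _ _)
    (by rw [Rat.cast_intCast]; exact intCast_mem _ _)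
    (by rw [Rat.cast_intCast, frobArith_int]) (by rw [Rat.cast_intCast, frobArith_int]) d1'
  obtain ⟨f2, hf2⟩ := frobArith_red hl h1 h2 h3 p0 hodd (a := ma j 1) (b := mb j 1)
    (c1 ▸ Subtype.prop _) (c2 ▸ Subtype.prop _)
    (by rw [c1, c4.1]; exact c3.1) (by rw [c2, c4.2]; exact c3.2) d2'
  obtain ⟨ψ, hψ⟩ := h
  refine ⟨j0, j1, mat_of_eqv l hl hp hlp d1' d2' ((f1.symm.trans ψ).trans f2) ?_⟩
  refine (hψ σ).imp (fun k v => ?_) fun k v => ?_
  · obtain ⟨P, rfl⟩ := f1.surjective v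
    simp only [AddEquiv.trans_apply, ← hf1, f1.symm_apply_apply, k, hf2]
  · obtain ⟨P, rfl⟩ := f1.surjective v
    simp only [AddEquiv.trans_apply, ← hf1, f1.symm_apply_apply, k, map_neg, hf2]

end Pool.Agent.P.MP_a60a76_nt.Fs
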