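import Pool.Agent.P.MP_a60a76_nt.Fs.Defs2
import Pool.Agent.P.MP_a60a76_nt.Fs.Good

namespace Pool.Agent.P.MP_a60a76_nt.Fs

open Polynomial
open scoped NNReal

variable {q : ℕ} [hq : Fact q.Prime]

theorem ILoc.val_nat (L : ILoc q) {n : ℕ} (hn : ¬ q ∣ n) : L.v (n : Qb) = 1 := by
  have h0 : n ≠ 0 := fun h => hn (h ▸ dvd_zero q)
  have := L.val (n : ℚ) (by exact_mod_cast h0)
  rw [padicValRat.of_nat, padicValNat.eq_zero_of_not_dvd hn] at this
  simpa using this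

theorem ILoc.val_small (L : ILoc q) {n : ℕ} (h0 : 0 < n) (hn : n < q) : L.v (n : Qb) = 1 :=
  L.val_nat fun h => (Nat.le_of_dvd h0 h).not_gt hn

theorem ILoc.val_self (L : ILoc q) : L.v (q : Qb) = 1 / 2 := by
  have := L.val (q : ℚ) (by exact_mod_cast hq.out.ne_zero)
  rw [padicValRat.self hq.out.one_lt] at this
  simpa using this



theorem Fb_nat_ne {n : ℕ} (hn : ¬ q ∣ n) : (n : Fb q) ≠ 0 :=
  fun h => hn ((CharP.cast_eq_zero_iff (Fb q) q n).1 h)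

theorem good2 (L : ILoc q) (hq5 : 5 ≤ q) {m : ℕ} (hm : m.Prime) (h5 : 5 ≤ m) (hqm : q ≠ m)
    {a b : Qb} (hfix : ∀ σ ∈ L.D, σ a = a ∧ σ b = b) (hd0 : dsc a b ≠ 0)
    (hg : L.v a ^ 3 ≤ L.v (dsc a b)) :
    ((∃ n : ℤ, L.v (dsc a b) = (1 / 2 : ℝ≥0) ^ (6 * n)) → ∀ σ ∈ L.D, PM (rho m a b σ)) ∧
    ((¬ ∃ n : ℤ, L.v (dsc a b) = (1 / 2 : ℝ≥0) ^ (6 * n)) →
      ∃ σ ∈ L.D, ¬ Sc (rho m a b σ)) ∧
    ((∃ n : ℤ, L.v (dsc a b) = (1 / 2 : ℝ≥0) ^ (12 * n)) ↔
      ∀ σ ∈ L.D, ∀ P, rho m a b σ P = P) := by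
  have hS := L.mem
  have hU := L.ne
  have hinv := L.triv
  set g := L.g
  have hqm' : ¬ q ∣ m := fun h => hqm ((Nat.prime_dvd_prime_iff_eq hq.out hm).1 h)
  have v2 : L.v 2 = 1 := by simpa using L.val_small (n := 2) (by norm_num) (by omega)
  have v3 : L.v 3 = 1 := by simpa using L.val_small (n := 3) (by norm_num) (by omega)
  have vm := L.val_nat hqm'
  have hmk : (m : Fb q) ≠ 0 := Fb_nat_ne hqm'
  have h2 : (2 : Fb q) ≠ 0 := by
    simpa using Fb_nat_ne (q := q) (n := 2) fun h => by have := Nat.le_of_dvd two_pos h; omega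
  have h3 : (3 : Fb q) ≠ 0 := by
    simpa using Fb_nat_ne (q := q) (n := 3) fun h => by have := Nat.le_of_dvd three_pos h; omega
  have h6 : (6 : Fb q) ≠ 0 := by
    rw [show (6 : Fb q) = 2 * 3 by norm_num]; exact mul_ne_zero h2 h3
  have hdf : ∀ σ ∈ L.D, σ (dsc a b) = dsc a b := fun σ hσ => by
    simp only [dsc, map_add, map_mul, map_pow, map_ofNat, (hfix σ hσ).1, (hfix σ hσ).2]
  obtain ⟨u, hu⟩ := IsAlgClosed.exists_pow_nat_eq (dsc a b) (by norm_num : 0 < 12)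
  have hu0 : u ≠ 0 := fun h => hd0 (by rw [← hu, h]; norm_num)
  have vu0 : L.v u ≠ 0 := (L.v.ne_zero_iff).2 hu0
  have vd : L.v (dsc a b) = L.v u ^ 12 := by rw [← hu, map_pow]
  have vd0 : 0 < L.v u ^ 12 := pow_pos (pos_iff_ne_zero.2 vu0) _
  have eA : L.v (a / u ^ 4) ^ 3 = L.v a ^ 3 / L.v u ^ 12 := by
    rw [map_div₀, map_pow, div_pow, ← pow_mul]
  have eB : L.v (b / u ^ 6) ^ 2 = L.v b ^ 2 / L.v u ^ 12 := by
    rw [map_div₀, map_pow, div_pow, ← pow_mul]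
  have hA : L.v (a / u ^ 4) ≤ 1 := by
    refine (pow_le_one_iff_of_nonneg zero_le three_ne_zero).1 ?_
    rw [eA, div_le_one vd0, ← vd]
    exact hg
  have hB : L.v (b / u ^ 6) ≤ 1 := by
    refine (pow_le_one_iff_of_nonneg zero_le two_ne_zero).1 ?_
    rw [eB, div_le_one vd0, ← vd]
    have e1 : 3 ^ 3 * b ^ 2 = dsc a b - 2 ^ 2 * a ^ 3 := by rw [dsc]; ring
    have e2 := congrArg L.v e1
    rw [map_mul, map_pow, v3, one_pow, one_mul, map_pow] at e2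
    rw [e2]
    refine L.v.map_sub_le le_rfl ?_
    rw [map_mul, map_pow, v2, one_pow, one_mul, map_pow]
    exact hg
  have hodd : Odd m := hm.odd_of_ne_two (by omega)
  obtain ⟨e, he⟩ := good_red L.v g hS hU h2 hodd hmk v2 vm hu0 hu hA hB
  have hSσ : ∀ σ ∈ L.D, ∀ z ∈ g.S, σ z ∈ g.S := fun σ hσ z hz =>
    (hS _).2 (by rw [L.inv σ hσ]; exact (hS _).1 hz)
  have hζS : ∀ σ ∈ L.D, σ u / u ∈ g.S := fun σ hσ =>
    (hS _).2 (by rw [map_div₀, L.inv σ hσ, div_self vu0])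
  have hζ12 : ∀ σ ∈ L.D, (σ u / u) ^ 12 = 1 := fun σ hσ => by
    rw [div_pow, ← map_pow, hu, hdf σ hσ, div_self hd0]
  have hη12 : ∀ σ ∈ L.D, g.f (σ u / u) ^ 12 = 1 := fun σ hσ => by
    rw [← good_spec_pow g (hζS σ hσ), hζ12 σ hσ, g.map_one]
  have key : ∀ σ ∈ L.D, ∀ (z : Qb) (n : ℕ), z / u ^ n ∈ g.S →
      g.f (σ z / u ^ n) = g.f (σ u / u) ^ n * g.f (z / u ^ n) := fun σ hσ z n hz => by
    have hσu : σ u ≠ 0 := (map_ne_zero σ).2 hu0
    have e1 : σ z / u ^ n = (σ u / u) ^ n * σ (z / u ^ n) := by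
      rw [map_div₀, map_pow, div_pow]
      field_simp
    rw [e1, g.map_mul _ (g.S.pow_mem (hζS σ hσ) n) _ (hSσ σ hσ _ hz),
      good_spec_pow g (hζS σ hσ), hinv σ hσ _ hz]
  have hf : ∀ σ ∈ L.D, ∀ P : Tors m a b,
      xc (e (rho m a b σ P)).1 = g.f (σ u / u) ^ 2 * xc (e P).1 ∧
      yc (e (rho m a b σ P)).1 = g.f (σ u / u) ^ 3 * yc (e P).1 :=
    fun σ hσ P => by
      rw [(he _).2.2.1, (he _).2.2.2, (he _).2.2.1, (he _).2.2.2, xc_rho m (hfix σ hσ),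
        yc_rho m (hfix σ hσ)]
      exact ⟨key σ hσ _ 2 (he P).1, key σ hσ _ 3 (he P).2.1⟩
  have hf0 : ∀ (σ : RingAut Qb) (P : Tors m a b), rho m a b σ P = 0 → P = 0 :=
    fun σ P h => Subtype.ext ((galP_eq_zero_iff σ.toRingHom _).1 (congrArg Subtype.val h))
  have ha4 : ∀ σ ∈ L.D, g.f (σ u / u) ^ 4 * g.f (a / u ^ 4) = g.f (a / u ^ 4) :=
    fun σ hσ => by rw [← key σ hσ _ 4 ((hS _).2 hA), (hfix σ hσ).1]
  have hb6 : ∀ σ ∈ L.D, g.f (σ u / u) ^ 6 * g.f (b / u ^ 6) = g.f (b / u ^ 6) :=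
    fun σ hσ => by rw [← key σ hσ _ 6 ((hS _).2 hB), (hfix σ hσ).2]
  have hdk : dsc (g.f (a / u ^ 4)) (g.f (b / u ^ 6)) ≠ 0 := by
    have hd1 : dsc (a / u ^ 4) (b / u ^ 6) = 1 := by
      have hu' := hu
      rw [dsc] at hu' ⊢
      field_simp
      exact hu'.symm
    rw [← good_spec_dsc g ((hS _).2 hA) ((hS _).2 hB), hd1, g.map_one]
    exact one_ne_zero
  have hsq : ∀ σ ∈ L.D, Sc (rho m a b σ) → g.f (σ u / u) ^ 2 = 1 ∧ (σ u / u) ^ 2 = 1 :=
    fun σ hσ hc => by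
      have hη0 : g.f (σ u / u) ≠ 0 := fun h0 => by
        have := hη12 σ hσ
        rw [h0] at this
        norm_num at this
      have h1 := good_sc e _ (hf σ hσ) h2 hdk hm h5 hmk hη0 (ha4 σ hσ) (hb6 σ hσ) hc
      have h4 : ((σ u / u) ^ 2 - 1) * (1 + (σ u / u) ^ 2 + (σ u / u) ^ 4 + (σ u / u) ^ 6 +
          (σ u / u) ^ 8 + (σ u / u) ^ 10) = 0 := by
        linear_combination hζ12 σ hσ
      rcases mul_eq_zero.1 h4 with h7 | h7
      · exact ⟨h1, sub_eq_zero.1 h7⟩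
      · exact absurd (good_spec_geom g (hζS σ hσ) h1 h7) h6
  refine ⟨fun h σ hσ => ?_, fun h => ?_, fun h σ hσ P => ?_, fun h => ?_⟩
  · obtain ⟨n, hn⟩ := h
    have h1 : L.v ((q : Qb) ^ n / u ^ 2) = 1 := by
      refine (pow_eq_one_iff_of_nonneg zero_le (by norm_num : 6 ≠ 0)).1 ?_
      rw [map_div₀, map_pow, map_zpow₀, L.val_self, div_pow, ← pow_mul, ← zpow_natCast,
        ← zpow_mul, mul_comm n, Nat.cast_ofNat, ← hn, vd]
      exact div_self vd0.ne'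
    have h4 := (hS _).2 h1.le
    have h7 := key σ hσ _ 2 h4
    rw [map_zpow₀, map_natCast] at h7
    have h8 := good_pm e _ (hf0 σ) (hf σ hσ) (n := 1) (mul_right_cancel₀ ((hU _ h4).2 h1) (by
      rw [one_mul]; exact h7.symm))
    rwa [pow_one] at h8
  · by_contra hc
    push Not at hc
    apply h
    have hfx : ∀ σ ∈ L.D, σ (u ^ 2) = u ^ 2 := fun σ hσ => by
      have h7 := (hsq σ hσ (hc σ hσ)).2
      rw [div_pow, div_eq_one_iff_eq (pow_ne_zero 2 hu0)] at h7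
      rw [map_pow, h7]
    obtain ⟨n, hn⟩ := L.fx _ (pow_ne_zero 2 hu0) hfx
    refine ⟨n, ?_⟩
    rw [vd, show 12 = 2 * 6 from rfl, pow_mul, ← map_pow, hn, ← zpow_natCast, ← zpow_mul,
      mul_comm n, Nat.cast_ofNat]
  · obtain ⟨n, hn⟩ := h
    have h1 : L.v ((q : Qb) ^ n / u ^ 1) = 1 := by
      refine (pow_eq_one_iff_of_nonneg zero_le (by norm_num : 12 ≠ 0)).1 ?_
      rw [map_div₀, map_pow, map_zpow₀, L.val_self, div_pow, ← pow_mul, ← zpow_natCast,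
        ← zpow_mul, mul_comm n, Nat.cast_ofNat, ← hn, vd]
      exact div_self vd0.ne'
    have h4 := (hS _).2 h1.le
    have h7 := key σ hσ _ 1 h4
    rw [map_zpow₀, map_natCast] at h7
    have h8 : g.f (σ u / u) = 1 := by
      have := mul_right_cancel₀ ((hU _ h4).2 h1) (h7.symm.trans (one_mul _).symm)
      rwa [pow_one] at this
    have h9 := good_fix e _ (hf0 σ) (hf σ hσ) (n := 1) (by rw [h8, one_pow]) (by rw [h8, one_pow]) P
    rwa [pow_one] at h9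
  · have hfx : ∀ σ ∈ L.D, σ u = u := fun σ hσ => by
      obtain ⟨k1, k2⟩ := hsq σ hσ ⟨1, fun P => by rw [h σ hσ, one_smul]⟩
      have hcard := card_tors (K := Qb) two_ne_zero hd0 (m := m) (by exact_mod_cast hm.ne_zero)
      have hnt : Nontrivial (Tors m a b) := by
        have : Finite (Tors m a b) := Nat.finite_of_card_ne_zero (by
          rw [hcard]; exact pow_ne_zero _ hm.ne_zero)
        rw [← Finite.one_lt_card_iff_nontrivial, hcard]
        exact Nat.one_lt_pow two_ne_zero hm.one_lt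
      obtain ⟨P, hP⟩ := exists_ne (0 : Tors m a b)
      have hy : yc (e P).1 ≠ 0 := by
        intro h0
        have k3 := (add_self_eq_zero_iff (good_ne e hP)).2 (by rw [h0, mul_zero])
        obtain ⟨k, hk⟩ := hodd
        have k4 : (2 * k + 1) • (e P).1 = 0 := hk ▸ (e P).2
        rw [add_smul, mul_comm, mul_smul, two_smul, k3, smul_zero, zero_add, one_smul] at k4
        exact good_ne e hP k4
      have k5 := (hf σ hσ P).2
      rw [h σ hσ] at k5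
      have k6 : g.f (σ u / u) = 1 := by
        have := mul_right_cancel₀ hy (k5.symm.trans (one_mul _).symm)
        linear_combination this - g.f (σ u / u) * k1
      rcases sq_eq_sq_iff_eq_or_eq_neg.1 (k2.trans (one_pow 2).symm) with k7 | k7
      · exact (div_eq_one_iff_eq hu0).1 k7
      · rw [k7, red_neg g g.S.one_mem, g.map_one] at k6
        exact absurd (by linear_combination -k6) h2
    obtain ⟨n, hn⟩ := L.fx _ hu0 hfx
    refine ⟨n, ?_⟩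
    rw [vd, hn, ← zpow_natCast, ← zpow_mul, mul_comm n, Nat.cast_ofNat]

end Pool.Agent.P.MP_a60a76_nt.Fs
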