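import Pool.Agent.P.MP_a60a76_nt.Fs.Defs
import Pool.Agent.P.MP_a60a76_nt.Fs.Norm
import Pool.Agent.P.MP_a60a76_nt.Fs.Special
import Pool.Agent.P.MP_a60a76_nt.Fs.DegBound
import Pool.Agent.P.MP_a60a76_nt.Fs.Big
import Pool.Agent.P.MP_a60a76_nt.Fs.Mis
import Pool.Agent.P.MP_a60a76_nt.Fs.Tower
import Pool.Agent.P.MP_a60a76_nt.Fs.Arith

namespace Pool.Agent.P.MP_a60a76_nt.Fs

open Polynomial
open scoped NNReal

theorem graphArith_dX {R : Type*} [CommRing R] {f : R[X][X]} {M : ℕ}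
    (h : ∀ i, (f.coeff i).natDegree ≤ M) : dX f ≤ M := by
  unfold dX
  rw [f.as_sum_support, map_sum]
  refine natDegree_sum_le_of_forall_le _ _ fun i _ => ?_
  rw [Bivariate.swap_monomial]
  refine natDegree_mul_le.trans ?_
  rw [natDegree_C, add_zero]
  exact natDegree_map_le.trans (h i)

theorem graphArith_dsc {R S : Type*} [CommRing R] [CommRing S] (φ : R →+* S) (a b : R) :
    φ (dsc a b) = dsc (φ a) (φ b) := by
  simp [dsc, map_ofNat]

theorem graphArith_ma {R S : Type*} [CommRing R] [CommRing S] (φ : R →+* S) (a b : R) :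
    φ (ma a b) = ma (φ a) (φ b) := by
  simp [ma, map_ofNat]

theorem graphArith_mb {R S : Type*} [CommRing R] [CommRing S] (φ : R →+* S) (a b : R) :
    φ (mb a b) = mb (φ a) (φ b) := by
  simp [mb, map_ofNat]

theorem graphArith_red {A : ℤ} (hA : ¬ IsSquare (-3 * A)) {P Q : ℤ[X]} {e : ℕ}
    (hP : P.natDegree ≤ e) (hQ : Q.natDegree ≤ e) (P0 : P ≠ 0) (Q0 : Q ≠ 0)
    (h1 : 1728 * Q - P ≠ 0) (h2 : P * dsc (C A) X ≠ C (6912 * A ^ 3) * Q) :
    ∃ N D : ℚ[X], IsCoprime N D ∧ N ≠ 0 ∧ D ≠ 0 ∧ N.natDegree ≤ e ∧ D.natDegree ≤ e ∧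
      1728 * D - N ≠ 0 ∧ N * dsc (C (A : ℚ)) X ≠ C (6912 * (A : ℚ) ^ 3) * D ∧
      exc (A : ℚ) N D ≠ 0 ∧
      ∀ (B : ℤ) (j : ℚ), Q.eval B ≠ 0 → j * (Q.eval B : ℤ) = (P.eval B : ℤ) →
        D.eval (B : ℚ) ≠ 0 ∧ N.eval (B : ℚ) = D.eval (B : ℚ) * j := by
  classical
  have inj : Function.Injective (Int.castRingHom ℚ) := Int.cast_injective
  have minj := Polynomial.map_injective _ inj
  set P' := P.map (Int.castRingHom ℚ) with hP'
  set Q' := Q.map (Int.castRingHom ℚ) with hQ'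
  have P0' : P' ≠ 0 := (Polynomial.map_ne_zero_iff inj).2 P0
  have Q0' : Q' ≠ 0 := (Polynomial.map_ne_zero_iff inj).2 Q0
  set g := GCDMonoid.gcd P' Q' with hg
  have g0 : g ≠ 0 := fun h => Q0' ((gcd_eq_zero_iff _ _).1 h).2
  have eP : g * (P' / g) = P' := EuclideanDomain.mul_div_cancel' g0 (gcd_dvd_left _ _)
  have eQ : g * (Q' / g) = Q' := EuclideanDomain.mul_div_cancel' g0 (gcd_dvd_right _ _)
  have hc : IsCoprime (P' / g) (Q' / g) := isCoprime_div_gcd_div_gcd Q0'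
  generalize P' / g = N at eP hc
  generalize Q' / g = D at eQ hc
  refine ⟨N, D, hc, ?_, ?_, ?_, ?_, ?_, ?_, ?_, ?_⟩
  · rintro rfl
    exact P0' (by rw [← eP, mul_zero])
  · rintro rfl
    exact Q0' (by rw [← eQ, mul_zero])
  · exact (natDegree_le_of_dvd (Dvd.intro_left g eP) P0').trans (natDegree_map_le.trans hP)
  · exact (natDegree_le_of_dvd (Dvd.intro_left g eQ) Q0').trans (natDegree_map_le.trans hQ)
  · intro h
    apply h1
    apply minj
    have : (1728 * Q - P).map (Int.castRingHom ℚ) = 1728 * Q' - P' := by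
      simp [hP', hQ']
    rw [this, Polynomial.map_zero, ← eP, ← eQ]
    linear_combination g * h
  · intro h
    apply h2
    apply minj
    have e1 : (P * dsc (C A) X).map (Int.castRingHom ℚ) = P' * dsc (C (A : ℚ)) X := by
      simp [hP', dsc, map_ofNat]
    have e2 : (C (6912 * A ^ 3) * Q).map (Int.castRingHom ℚ) = C (6912 * (A : ℚ) ^ 3) * Q' := by
      simp [hQ', map_ofNat]
    rw [e1, e2, ← eP, ← eQ]
    linear_combination g * h
  · intro h
    apply exc_ne_zero hA P Q Q0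
    apply minj
    rw [exc_map, Polynomial.map_zero, ← hP', ← hQ', ← eP, ← eQ, exc_mul]
    change g ^ 2 * exc (A : ℚ) N D = 0
    rw [h, mul_zero]
  · intro B j hB hj
    have e1 : g.eval (B : ℚ) * N.eval (B : ℚ) = ((P.eval B : ℤ) : ℚ) := by
      rw [← eval_mul, eP, hP', eval_intCast_map]; rfl
    have e2 : g.eval (B : ℚ) * D.eval (B : ℚ) = ((Q.eval B : ℤ) : ℚ) := by
      rw [← eval_mul, eQ, hQ', eval_intCast_map]; rfl
    have hB' : ((Q.eval B : ℤ) : ℚ) ≠ 0 := by exact_mod_cast hB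
    rw [← e2] at hB'
    refine ⟨right_ne_zero_of_mul hB', ?_⟩
    apply mul_left_cancel₀ (left_ne_zero_of_mul hB')
    rw [e1, ← hj, ← e2]
    ring

theorem graphArith_pair {p : ℕ} (hp : p.Prime) (h11 : 11 ≤ p) {A : ℚ} (A0 : A ≠ 0) {N D : ℚ[X]}
    (hc : IsCoprime N D) (N0 : N ≠ 0) (D0 : D ≠ 0) (hM : 1728 * D - N ≠ 0)
    (h1 : N * dsc (C A) X ≠ C (6912 * A ^ 3) * D) (hexc : exc A N D ≠ 0) :
    ∃ ι : ℚ[X] →+* AlgebraicClosure (RatFunc Qb), Pair ι p (C A) X (ma N D) (mb N D) ∧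
      Big ι p (ι (C A)) (ι X) (ι (ma N D)) (ι (mb N D)) 2 := by
  obtain ⟨ι0, h0⟩ := exists_clos Qb
  set φ := algebraMap ℚ Qb with hφ
  have inj : Function.Injective φ := φ.injective
  have minj := Polynomial.map_injective _ inj
  have hp0 : (p : ℚ) ≠ 0 := by exact_mod_cast hp.ne_zero
  refine ⟨ι0.comp (mapRingHom φ), ⟨clos_comp clos_rat h0, two_ne_zero, hp, by omega, ?_, ?_, ?_⟩, ?_⟩
  · rw [← map_natCast (C : ℚ →+* ℚ[X])]
    exact isUnit_C.2 (IsUnit.mk0 _ hp0)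
  · intro h
    have := congrArg (eval 0) h
    simp [dsc, A0] at this
  · rw [dsc_model]
    refine mul_ne_zero (mul_ne_zero (mul_ne_zero ?_ (pow_ne_zero _ N0)) (pow_ne_zero _ hM)) D0
    norm_num
  · have hm := mis_or h0 two_ne_zero three_ne_zero hp h11 (by exact_mod_cast hp.ne_zero)
      (A := φ A) ((_root_.map_ne_zero φ).2 A0) (N := N.map φ) (D := D.map φ)
      (hc.map (mapRingHom φ)) ((Polynomial.map_ne_zero_iff inj).2 N0)
      ((Polynomial.map_ne_zero_iff inj).2 D0)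
      (by
        intro h
        apply hM
        apply minj
        rw [Polynomial.map_zero, ← h]
        simp)
      (fun n hn _ => by exact_mod_cast hn.ne')
      (by
        intro h
        apply h1
        apply minj
        have e1 : (N * dsc (C A) X).map φ = N.map φ * dsc (C (φ A)) X := by
          simp [dsc, map_ofNat]
        have e2 : (C (6912 * A ^ 3) * D).map φ = C (6912 * φ A ^ 3) * D.map φ := by
          simp [map_ofNat]
        rw [e1, e2, h])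
      (by
        rw [← exc_map]
        exact (Polynomial.map_ne_zero_iff inj).2 hexc)
    have hb : Big ι0 p (ι0 (C (φ A))) (ι0 X) (ι0 (ma (N.map φ) (D.map φ)))
        (ι0 (mb (N.map φ) (D.map φ))) 2 := by
      rcases hm with hm | ⟨-, hm⟩
      · exact (big_two hm).1
      · exact (big_two hm).2
    have e1 : (ι0.comp (mapRingHom φ)) (C A) = ι0 (C (φ A)) := by simp
    have e2 : (ι0.comp (mapRingHom φ)) X = ι0 X := by simp
    have e3 : (ι0.comp (mapRingHom φ)) (ma N D) = ι0 (ma (N.map φ) (D.map φ)) := by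
      rw [RingHom.comp_apply, graphArith_ma]; rfl
    have e4 : (ι0.comp (mapRingHom φ)) (mb N D) = ι0 (mb (N.map φ) (D.map φ)) := by
      rw [RingHom.comp_apply, graphArith_mb]; rfl
    rw [e1, e2, e3, e4]
    exact big_comp _ hb

theorem graphArith_at {p : ℕ} (hp : p ≠ 0) (s : ℕ) {a b j u n : ℚ} (hd : dsc a b ≠ 0) (j0 : j ≠ 0)
    (j1 : j ≠ 1728) (hu : u ≠ 0) (hn : n = u * j)
    (ψ : Tors p (a : Qb) (b : Qb) ≃+ Tors p ((ma j 1 : ℚ) : Qb) ((mb j 1 : ℚ) : Qb)) :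
    dsc (a : Qb) (b : Qb) ≠ 0 ∧ dsc ((ma n u : ℚ) : Qb) ((mb n u : ℚ) : Qb) ≠ 0 ∧
      ∃ ψ' : Tors p (a : Qb) (b : Qb) ≃+ Tors p ((ma n u : ℚ) : Qb) ((mb n u : ℚ) : Qb),
        tau p s ψ' = (u : Qb) * tau p s ψ := by
  have cst : ∀ x y : ℚ, dsc x y ≠ 0 → dsc (x : Qb) (y : Qb) ≠ 0 := fun x y h => by
    have := (_root_.map_ne_zero (algebraMap ℚ Qb)).2 h
    rwa [graphArith_dsc] at this
  have j2 : (1728 : ℚ) - j ≠ 0 := sub_ne_zero.2 j1.symm
  have hd1 : dsc (ma j 1) (mb j 1) ≠ 0 := by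
    rw [dsc_model]
    simp only [mul_one]
    exact mul_ne_zero (mul_ne_zero (by norm_num) (pow_ne_zero _ j0)) (pow_ne_zero _ j2)
  have hd2 : dsc (ma n u) (mb n u) ≠ 0 := by
    rw [dsc_model, hn]
    have : 1728 * u - u * j = u * (1728 - j) := by ring
    rw [this]
    exact mul_ne_zero (mul_ne_zero (mul_ne_zero (by norm_num) (pow_ne_zero _ (mul_ne_zero hu j0)))
      (pow_ne_zero _ (mul_ne_zero hu j2))) hu
  refine ⟨cst _ _ hd, cst _ _ hd2, ?_⟩
  obtain ⟨e, w, -, he, -⟩ := scale_eqv (a' := ma n u) (b' := mb n u) hp hd1 hu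
    (by rw [hn]; unfold ma; ring) (by rw [hn]; unfold mb; ring)
  have := finite_tors (K := Qb) two_ne_zero (cst _ _ hd) (m := p) (by exact_mod_cast hp)
  exact ⟨ψ.trans e, tau_scale s ψ e _ he⟩

theorem graphArith_ev (B τ : ℚ) (F : ℚ[X][X]) :
    F.eval₂ ((algebraMap ℚ Qb).comp (evalRingHom B)) (τ : Qb) =
      algebraMap ℚ Qb (F.evalEval B τ) := by
  rw [← eval₂_evalRingHom, hom_eval₂]
  rfl

theorem graph_poly : ∃ K : ℕ, ∀ p : ℕ, p.Prime → 11 ≤ p → ∀ A : ℤ, ¬ IsSquare (-3 * A) →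
    ∀ (P Q : ℤ[X]) (e : ℕ), 1 ≤ e → P.natDegree ≤ e → Q.natDegree ≤ e → P ≠ 0 → Q ≠ 0 →
    1728 * Q - P ≠ 0 → P * dsc (C A) X ≠ C (6912 * A ^ 3) * Q →
    ∃ s ≤ p ^ 10, ∃ F : ℚ[X][X], F ≠ 0 ∧ F.natDegree ≤ p ^ K ∧ dX F ≤ e * p ^ K ∧
      (∀ (B : ℤ) (j τ : ℚ)
        (ψ : Tors p ((A : ℚ) : Qb) ((B : ℚ) : Qb) ≃+ Tors p ((ma j 1 : ℚ) : Qb) ((mb j 1 : ℚ) : Qb)),
        dsc A B ≠ 0 → j ≠ 0 → j ≠ 1728 → Q.eval B ≠ 0 → j * (Q.eval B : ℤ) = (P.eval B : ℤ) →
        (τ : Qb) = tau p s ψ → F.evalEval (B : ℚ) τ = 0) ∧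
      ∀ (n : ℕ) (P1 Q1 : ℤ[X]), Q1 ≠ 0 → P1.natDegree ≤ n → Q1.natDegree ≤ n →
        ∃ N : ℚ[X], N ≠ 0 ∧ N.natDegree ≤ (n + e) * p ^ K ∧
          ∀ (B : ℤ) (j τ : ℚ)
            (ψ : Tors p ((A : ℚ) : Qb) ((B : ℚ) : Qb) ≃+
              Tors p ((ma j 1 : ℚ) : Qb) ((mb j 1 : ℚ) : Qb)),
            dsc A B ≠ 0 → j ≠ 0 → j ≠ 1728 → Q.eval B ≠ 0 → j * (Q.eval B : ℤ) = (P.eval B : ℤ) →
            (τ : Qb) = tau p s ψ → τ * (Q1.eval B : ℤ) = (P1.eval B : ℤ) → N.eval (B : ℚ) = 0 := by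
  refine ⟨8, fun p hp h11 A hA P Q e he hP hQ P0 Q0 h1 h2 => ?_⟩
  have A0 : A ≠ 0 := fun h => hA (by rw [h]; exact ⟨0, rfl⟩)
  obtain ⟨N, D, hc, N0, D0, hN, hD, hM, h3, hexc, hat⟩ := graphArith_red hA hP hQ P0 Q0 h1 h2
  obtain ⟨ι, hpr, hbig⟩ := graphArith_pair hp h11 (A := (A : ℚ)) (by exact_mod_cast A0) hc N0 D0 hM
    h3 hexc
  have hpΩ : (p : AlgebraicClosure (RatFunc Qb)) ≠ 0 := by exact_mod_cast hp.ne_zero
  have hdι : ∀ a b : ℚ[X], dsc a b ≠ 0 → dsc (ι a) (ι b) ≠ 0 := fun a b h => by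
    rw [← graphArith_dsc]
    exact (map_ne_zero_iff ι hpr.clos.inj).2 h
  obtain ⟨s, hs, hsep⟩ := exists_sepa two_ne_zero hp
    (plane_tors two_ne_zero (hdι _ _ hpr.d1) hpΩ) (plane_tors two_ne_zero (hdι _ _ hpr.d2) hpΩ)
    (fun n hn _ => by exact_mod_cast hn.ne')
  obtain ⟨T, hT, hcard⟩ := exists_vals hpr s
  obtain ⟨F0, hmon, hF0⟩ := exists_minF hpr hT
  have hT4 : T.card ≤ p ^ 4 := by
    have : (p ^ 2 - 1) * (p ^ 2 - p) ≤ p ^ 2 * p ^ 2 :=
      Nat.mul_le_mul (Nat.sub_le _ _) (Nat.sub_le _ _)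
    have e4 : p ^ 2 * p ^ 2 = p ^ 4 := by ring
    omega
  have hp3 : p ^ 2 + 2 ≤ p ^ 3 := by
    have : p ^ 3 = p * p ^ 2 := by ring
    have h5 : 1 ≤ p ^ 2 := Nat.one_le_pow _ _ hp.pos
    nlinarith
  have hp78 : p ^ 7 ≤ p ^ 8 := Nat.pow_le_pow_right hp.pos (by norm_num)
  have hM' : (1728 * D - N).natDegree ≤ e := by
    refine (natDegree_sub_le _ _).trans (max_le (natDegree_mul_le.trans ?_) hN)
    simpa using hD
  obtain ⟨b1, b2, -⟩ := deg_bounds hpr natDegree natDegree_zero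
    (fun x y hx hy => natDegree_mul hx hy) (fun x y => natDegree_add_le x y) X natDegree_X
    (δ := e) (by simp) (by rw [natDegree_X]; omega)
    (by
      unfold ma
      refine natDegree_mul_le.trans ?_
      have : (3 * N).natDegree ≤ e := natDegree_mul_le.trans (by simpa using hN)
      omega)
    (by
      unfold mb
      refine natDegree_mul_le.trans ?_
      have : (2 * N).natDegree ≤ e := natDegree_mul_le.trans (by simpa using hN)
      have h5 : ((1728 * D - N) ^ 2).natDegree ≤ 2 * e :=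
        natDegree_pow_le.trans (Nat.mul_le_mul_left 2 hM')
      omega) hT
  have hdeg : F0.natDegree = T.card := by
    rw [← hmon.natDegree_map ι, hF0, natDegree_prod_of_monic _ _ fun t _ => monic_X_sub_C t]
    simp
  have pt : ∀ (B : ℤ) (j τ : ℚ)
      (ψ : Tors p ((A : ℚ) : Qb) ((B : ℚ) : Qb) ≃+ Tors p ((ma j 1 : ℚ) : Qb) ((mb j 1 : ℚ) : Qb)),
      dsc A B ≠ 0 → j ≠ 0 → j ≠ 1728 → Q.eval B ≠ 0 → j * (Q.eval B : ℤ) = (P.eval B : ℤ) →
      (τ : Qb) = tau p s ψ → F0.evalEval (B : ℚ) (D.eval (B : ℚ) * τ) = 0 ∧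
        ∀ (G : ℚ[X][X]) (n : ℚ[X]), ι n = ∏ t ∈ T, G.eval₂ ι t →
          G.evalEval (B : ℚ) (D.eval (B : ℚ) * τ) = 0 → n.eval (B : ℚ) = 0 := by
    intro B j τ ψ hd j0 j1 hB hj hτ
    obtain ⟨u0, hn⟩ := hat B j hB hj
    have hd' : dsc (A : ℚ) (B : ℚ) ≠ 0 := by
      have := (map_ne_zero_iff (Int.castRingHom ℚ) Int.cast_injective).2 hd
      rwa [graphArith_dsc] at this
    obtain ⟨d1, d2, ψ', hψ'⟩ := graphArith_at hp.ne_zero s hd' j0 j1 u0 hn ψ
    have ht : tau p s ψ' = ((D.eval (B : ℚ) * τ : ℚ) : Qb) := by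
      rw [hψ', ← hτ]; push_cast; rfl
    set ev := (algebraMap ℚ Qb).comp (evalRingHom (B : ℚ)) with hev
    have e1 : ev (C (A : ℚ)) = ((A : ℚ) : Qb) := by simp [hev]
    have e2 : ev X = ((B : ℚ) : Qb) := by simp [hev]
    have e3 : ev (ma N D) = ((ma (N.eval (B : ℚ)) (D.eval (B : ℚ)) : ℚ) : Qb) := by
      rw [hev, RingHom.comp_apply, graphArith_ma]; rfl
    have e4 : ev (mb N D) = ((mb (N.eval (B : ℚ)) (D.eval (B : ℚ)) : ℚ) : Qb) := by
      rw [hev, RingHom.comp_apply, graphArith_mb]; rfl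
    refine ⟨?_, fun G n hn h0 => ?_⟩
    · have := spec_root hpr ev two_ne_zero e1 e2 e3 e4 d1 d2 hT hF0 ψ'
      rw [ht, hev, graphArith_ev] at this
      exact (_root_.map_eq_zero _).1 this
    · have := spec_norm hpr ev two_ne_zero e1 e2 e3 e4 d1 d2 hT hn ψ'
        (by rw [ht, hev, graphArith_ev, h0, map_zero])
      exact (_root_.map_eq_zero (algebraMap ℚ Qb)).1 this
  refine ⟨s, hs, F0.comp (C D * X), ?_, ?_, ?_, ?_, ?_⟩
  · intro h
    have := congrArg (fun f : ℚ[X][X] => f.coeff F0.natDegree) h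
    simp only [comp_C_mul_X_coeff, coeff_natDegree, hmon.leadingCoeff, one_mul, coeff_zero] at this
    exact pow_ne_zero _ D0 this
  · refine natDegree_comp_le.trans ?_
    have : (C D * X).natDegree ≤ 1 := natDegree_mul_le.trans (by simp)
    calc F0.natDegree * (C D * X).natDegree ≤ p ^ 4 * 1 := Nat.mul_le_mul (hdeg ▸ hT4) this
      _ = p ^ 4 := mul_one _
      _ ≤ p ^ 8 := Nat.pow_le_pow_right hp.pos (by norm_num)
  · refine graphArith_dX fun i => ?_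
    rw [comp_C_mul_X_coeff]
    by_cases hi : F0.coeff i = 0
    · simp [hi]
    · have h5 := b1 F0 hF0 i hi
      have h6 : (D ^ i).natDegree ≤ e * (p ^ 2 + 1) * i := by
        refine natDegree_pow_le.trans ?_
        rw [mul_comm]
        exact Nat.mul_le_mul_right _ (hD.trans (Nat.le_mul_of_pos_right _ (by omega)))
      refine natDegree_mul_le.trans ((Nat.add_le_add_left h6 _).trans (h5.trans ?_))
      rw [mul_assoc]
      refine Nat.mul_le_mul_left _ ?_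
      calc (p ^ 2 + 1) * T.card ≤ p ^ 3 * p ^ 4 := Nat.mul_le_mul (by omega) hT4
        _ = p ^ 7 := by ring
        _ ≤ p ^ 8 := hp78
  · intro B j τ ψ hd j0 j1 hB hj hτ
    have := (pt B j τ ψ hd j0 j1 hB hj hτ).1
    rw [← this, ← eval₂_evalRingHom, eval₂_comp]
    simp
  · intro n P1 Q1 Q10 hP1 hQ1
    have inj : Function.Injective (Int.castRingHom ℚ) := Int.cast_injective
    set P' := P1.map (Int.castRingHom ℚ) with hP'
    set Q' := Q1.map (Int.castRingHom ℚ) with hQ'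
    have Q0' : Q' ≠ 0 := (Polynomial.map_ne_zero_iff inj).2 Q10
    set G : ℚ[X][X] := C Q' * X + C (-(D * P')) with hG
    have hG1 : G.natDegree = 1 := natDegree_linear Q0'
    have G0 : G ≠ 0 := by
      intro h
      rw [h] at hG1
      simp at hG1
    obtain ⟨nn, hnn⟩ := exists_norm hpr hT G
    refine ⟨nn, ?_, ?_, ?_⟩
    · intro h
      rw [h, map_zero] at hnn
      obtain ⟨t, ht, h0⟩ := Finset.prod_eq_zero_iff.1 hnn.symm
      obtain ⟨ψ, rfl⟩ := (hT t).1 ht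
      exact eval_tau_ne_zero hpr hbig hsep G0 (by omega) ψ h0
    · have h5 := b2 G nn (n + e) (fun i => ?_) hnn
      · rw [hG1] at h5
        refine h5.trans ?_
        calc T.card * (n + e + e * (p ^ 2 + 1) * 1) ≤ p ^ 4 * ((n + e) * p ^ 3) := by
              refine Nat.mul_le_mul hT4 ?_
              calc n + e + e * (p ^ 2 + 1) * 1 ≤ (n + e) * (p ^ 2 + 2) := by nlinarith
                _ ≤ (n + e) * p ^ 3 := Nat.mul_le_mul_left _ hp3
          _ = (n + e) * p ^ 7 := by ring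
          _ ≤ (n + e) * p ^ 8 := Nat.mul_le_mul_left _ hp78
      · have hq : Q'.natDegree ≤ n := natDegree_map_le.trans hQ1
        have hq' : P'.natDegree ≤ n := natDegree_map_le.trans hP1
        have hq2 : (D * P').natDegree ≤ n + e := natDegree_mul_le.trans (by omega)
        rw [hG, coeff_add, coeff_C_mul, coeff_X, coeff_C]
        rcases i with _ | _ | i
        · simpa using hq2
        · simpa using hq.trans (Nat.le_add_right _ _)
        · simp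
    · intro B j τ ψ hd j0 j1 hB hj hτ h7
      refine (pt B j τ ψ hd j0 j1 hB hj hτ).2 G nn hnn ?_
      have e1 : P'.eval (B : ℚ) = ((P1.eval B : ℤ) : ℚ) := by
        rw [hP', eval_intCast_map]; rfl
      have e2 : Q'.eval (B : ℚ) = ((Q1.eval B : ℤ) : ℚ) := by
        rw [hQ', eval_intCast_map]; rfl
      rw [hG, evalEval_add, evalEval_mul, evalEval_C, evalEval_C, evalEval_X, eval_neg, eval_mul,
        e1, e2, ← h7]
      ring

end Pool.Agent.P.MP_a60a76_nt.Fs
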