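import Pool.Agent.P.MP_a60a76_nt.Fs.Defs
import Pool.Agent.P.MP_a60a76_nt.Fs.Arch
import Pool.Agent.P.MP_a60a76_nt.Fs.Seq
import Pool.Agent.P.MP_a60a76_nt.Fs.Tau
import Pool.Agent.P.MP_a60a76_nt.Fs.Inv
import Pool.Agent.P.MP_a60a76_nt.Fs.Tower

namespace Pool.Agent.P.MP_a60a76_nt.Fs

open Polynomial
open scoped NNReal

theorem height_alg : Algebra.IsAlgebraic ℚ Qb := AlgebraicClosure.isAlgebraic ℚ

theorem height_rat {p s : ℕ} {a1 b1 a2 b2 : ℚ} [Finite (Tors p (a1 : Qb) (b1 : Qb))]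
    (ψ : Tors p (a1 : Qb) (b1 : Qb) ≃+ Tors p (a2 : Qb) (b2 : Qb))
    (h : ∀ σ : RingAut Qb, Eqv (rho p _ _ σ) (rho p _ _ σ) ψ) :
    ∃ τ : ℚ, (τ : Qb) = tau p s ψ := by
  have := height_alg
  have : IsAlgClosure ℚ Qb := ⟨inferInstance, inferInstance⟩
  have : IsGalois ℚ Qb := ⟨⟩
  have h1 : tau p s ψ ∈ Set.range (algebraMap ℚ Qb) := by
    rw [InfiniteGalois.mem_range_algebraMap_iff_fixed]
    intro f
    exact (tau_gal s (f.toRingEquiv : RingAut Qb).toRingHom ⟨map_ratCast _ _, map_ratCast _ _⟩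
      ⟨map_ratCast _ _, map_ratCast _ _⟩ ψ ψ (h f.toRingEquiv)).symm
  obtain ⟨τ, hτ⟩ := h1
  exact ⟨τ, hτ⟩

theorem height_x {K : Type*} [Field K] (h2 : (2 : K) ≠ 0) (V : ValuationSubring K) {a b d : K}
    (hd : d ≠ 0) (ha : a * d ^ 2 ∈ V) (hb : b * d ^ 3 ∈ V) {p : ℕ} (P : Tors p a b) :
    d * ((p : K) * xc (P : Pt a b)) ∈ V := by
  rw [← V.valuation_le_one_iff] at ha hb ⊢
  have ea : a = a * d ^ 2 * d⁻¹ ^ 2 := by field_simp
  have eb : b = b * d ^ 3 * d⁻¹ ^ 3 := by field_simp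
  have ha' : V.valuation a ≤ V.valuation d⁻¹ ^ 2 := by
    calc V.valuation a = V.valuation (a * d ^ 2) * V.valuation d⁻¹ ^ 2 := by
          rw [← map_pow, ← map_mul, ← ea]
      _ ≤ _ := mul_le_of_le_one_left' ha
  have hb' : V.valuation b ≤ V.valuation d⁻¹ ^ 3 := by
    calc V.valuation b = V.valuation (b * d ^ 3) * V.valuation d⁻¹ ^ 3 := by
          rw [← map_pow, ← map_mul, ← eb]
      _ ≤ _ := mul_le_of_le_one_left' hb
  have h := tors_int V.valuation h2 (inv_ne_zero hd) ha' hb' P.2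
  calc V.valuation (d * ((p : K) * xc (P : Pt a b)))
      = V.valuation d * V.valuation ((p : K) * xc (P : Pt a b)) := map_mul _ _ _
    _ ≤ V.valuation d * V.valuation d⁻¹ := mul_le_mul_right h _
    _ = 1 := by rw [← map_mul, mul_inv_cancel₀ hd, map_one]

theorem height_mem {K : Type*} [Field K] (h2 : (2 : K) ≠ 0) (V : ValuationSubring K)
    {a1 b1 a2 b2 d : K} (hd : d ≠ 0) (ha1 : a1 ∈ V) (hb1 : b1 ∈ V) (ha : a2 * d ^ 2 ∈ V)
    (hb : b2 * d ^ 3 ∈ V) {p s : ℕ} [Finite (Tors p a1 b1)] (ψ : Tors p a1 b1 ≃+ Tors p a2 b2) :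
    (p : K) ^ (p ^ 2) * d * tau p s ψ ∈ V := by
  have hx1 : ∀ P : Tors p a1 b1, (p : K) * xc (P : Pt a1 b1) ∈ V := by
    intro P
    simpa using height_x h2 V one_ne_zero (by simpa using ha1) (by simpa using hb1) P
  have hx2 := height_x h2 V hd ha hb (p := p)
  have := Fintype.ofFinite (Tors p a1 b1)
  rw [tau, finsum_eq_sum_of_fintype, Finset.mul_sum]
  refine V.toSubring.sum_mem (fun P _ => ?_)
  rw [Finset.sum_mul, Finset.mul_sum]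
  refine V.toSubring.sum_mem (fun i hi => ?_)
  obtain ⟨k, hk⟩ := Nat.exists_eq_add_of_lt (Finset.mem_range.1 hi)
  have e : (p : K) ^ (p ^ 2) * d * (((s : K) * xc (P : Pt a1 b1)) ^ i * xc (ψ P : Pt a2 b2)) =
      (p : K) ^ k * ((s : K) * ((p : K) * xc (P : Pt a1 b1))) ^ i *
        (d * ((p : K) * xc (ψ P : Pt a2 b2))) := by
    rw [hk]; ring
  rw [e]
  exact mul_mem (mul_mem (pow_mem (natCast_mem V.toSubring p) k)
    (pow_mem (mul_mem (natCast_mem V.toSubring s) (hx1 P)) i)) (hx2 (ψ P))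

theorem height_int {p s : ℕ} {A B : ℤ} {j : ℚ} [Finite (Tors p ((A : ℚ) : Qb) ((B : ℚ) : Qb))]
    (ψ : Tors p ((A : ℚ) : Qb) ((B : ℚ) : Qb) ≃+ Tors p ((ma j 1 : ℚ) : Qb) ((mb j 1 : ℚ) : Qb))
    {τ : ℚ} (hτ : (τ : Qb) = tau p s ψ) :
    ∃ z : ℤ, (z : ℚ) = ((p ^ (p ^ 2) * j.den : ℕ) : ℚ) * τ := by
  have hd : (j.den : Qb) ≠ 0 := Nat.cast_ne_zero.2 j.den_ne_zero
  have hj : j * j.den = j.num := Rat.mul_den_eq_num j
  have ea : ((ma j 1 : ℚ) : Qb) * (j.den : Qb) ^ 2 =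
      ((3 * j.num * (1728 * j.den - j.num) : ℤ) : Qb) := by
    have e : ma j 1 * (j.den : ℚ) ^ 2 = ((3 * j.num * (1728 * j.den - j.num) : ℤ) : ℚ) := by
      simp only [ma]; push_cast; rw [← hj]; ring
    rw [← Rat.cast_intCast, ← e, Rat.cast_mul, Rat.cast_pow, Rat.cast_natCast]
  have eb : ((mb j 1 : ℚ) : Qb) * (j.den : Qb) ^ 3 =
      ((2 * j.num * (1728 * j.den - j.num) ^ 2 : ℤ) : Qb) := by
    have e : mb j 1 * (j.den : ℚ) ^ 3 = ((2 * j.num * (1728 * j.den - j.num) ^ 2 : ℤ) : ℚ) := by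
      simp only [mb]; push_cast; rw [← hj]; ring
    rw [← Rat.cast_intCast, ← e, Rat.cast_mul, Rat.cast_pow, Rat.cast_natCast]
  have hI : (Int.castRingHom Qb).IsIntegralElem
      (((((p ^ (p ^ 2) * j.den : ℕ) : ℚ) * τ : ℚ) : Qb)) := by
    refine seq_integral_of_val _ _ (fun V _ => ?_)
    have hZ : ∀ r : ℤ, (r : Qb) ∈ V := fun r => intCast_mem V.toSubring r
    rw [Rat.cast_mul, hτ, Rat.cast_natCast, Nat.cast_mul, Nat.cast_pow]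
    refine height_mem two_ne_zero V hd ?_ ?_ ?_ ?_ ψ
    · rw [Rat.cast_intCast]; exact hZ A
    · rw [Rat.cast_intCast]; exact hZ B
    · rw [ea]; exact hZ _
    · rw [eb]; exact hZ _
  have hI2 : IsIntegral ℤ (algebraMap ℚ Qb (((p ^ (p ^ 2) * j.den : ℕ) : ℚ) * τ)) := hI
  have hI3 : IsIntegral ℤ (((p ^ (p ^ 2) * j.den : ℕ) : ℚ) * τ) :=
    (isIntegral_algebraMap_iff (algebraMap ℚ Qb).injective).1 hI2
  obtain ⟨z, hz⟩ := IsIntegrallyClosed.isIntegral_iff.1 hI3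
  exact ⟨z, hz⟩

theorem height_le {τ : ℚ} {D : ℕ} (hD : 0 < D) {z : ℤ} (hz : (z : ℚ) = (D : ℚ) * τ) {T : ℝ}
    (hT : 1 ≤ T) (hτ : |(τ : ℝ)| ≤ T) : (hgt τ : ℝ) ≤ D * T := by
  have hD' : (D : ℚ) ≠ 0 := Nat.cast_ne_zero.2 hD.ne'
  have e : τ = (z : ℚ) / ((D : ℤ) : ℚ) := by
    rw [hz]; push_cast; field_simp
  have h1 : (τ.den : ℤ) ∣ (D : ℤ) := by
    rw [e, ← Rat.divInt_eq_div]; exact Rat.den_dvd _ _
  have h2 : τ.den ≤ D := Nat.le_of_dvd hD (Int.natCast_dvd_natCast.1 h1)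
  have h2' : (τ.den : ℝ) ≤ D := by exact_mod_cast h2
  have hD0 : (0 : ℝ) ≤ D := Nat.cast_nonneg D
  rw [hgt, Nat.cast_max, max_le_iff]
  constructor
  · have h3 : (τ.num : ℝ) = τ * τ.den := by exact_mod_cast (Rat.mul_den_eq_num τ).symm
    rw [Nat.cast_natAbs, Int.cast_abs, h3, abs_mul, Nat.abs_cast, mul_comm]
    exact mul_le_mul h2' hτ (abs_nonneg _) hD0
  · nlinarith

theorem height_emb (φ : Qb →+* ℂ) {c : ℝ}
    (hc : ∀ (m : ℕ) (a b : ℂ) (M : ℝ), 0 < m → 0 < M → ‖a‖ ≤ M ^ 2 →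
      ‖b‖ ≤ M ^ 3 → ∀ P : Pt a b, P ∈ Tors m a b → ‖xc P‖ ≤ c ^ m * M)
    {p : ℕ} (hp : 0 < p) {a b : ℚ} {M : ℝ} (hM : 0 < M) (ha : |(a : ℝ)| ≤ M ^ 2)
    (hb : |(b : ℝ)| ≤ M ^ 3) (P : Tors p (a : Qb) (b : Qb)) :
    ‖φ (xc (P : Pt (a : Qb) (b : Qb)))‖ ≤ c ^ p * M := by
  have ea : (a : ℂ) = 1 ^ 4 * φ (a : Qb) := by simp
  have eb : (b : ℂ) = 1 ^ 6 * φ (b : Qb) := by simp
  have h := hc p a b M hp hM (by simpa using ha) (by simpa using hb)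
    (tw φ 1 one_ne_zero ea eb (P : Pt (a : Qb) (b : Qb)))
    (by rw [mem_tors, ← map_nsmul, mem_tors.1 P.2, map_zero])
  rw [xc_tw] at h
  simpa using h

theorem tau_height : ∃ c : ℕ, ∀ (p s M : ℕ) (A B : ℤ) (j : ℚ), p.Prime → 5 ≤ p → s ≤ p ^ 10 →
    2 ≤ M → A.natAbs ≤ M → B.natAbs ≤ M → hgt j ≤ M → dsc A B ≠ 0 →
    ∀ ψ : Tors p ((A : ℚ) : Qb) ((B : ℚ) : Qb) ≃+ Tors p ((ma j 1 : ℚ) : Qb) ((mb j 1 : ℚ) : Qb),
      (∀ σ : RingAut Qb, Eqv (rho p _ _ σ) (rho p _ _ σ) ψ) →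
      ∃ τ : ℚ, (τ : Qb) = tau p s ψ ∧ hgt τ ≤ M ^ (c * p ^ 3) := by
  obtain ⟨c, hc1, hc⟩ := arch
  obtain ⟨k, hk⟩ := pow_unbounded_of_one_lt c (one_lt_two : (1 : ℝ) < 2)
  refine ⟨2 * k + 30, ?_⟩
  intro p s M A B j hp h5 hs hM hA hB hj hd ψ hψ
  have hd' : dsc ((A : ℚ) : Qb) ((B : ℚ) : Qb) ≠ 0 := by
    have e : dsc ((A : ℚ) : Qb) ((B : ℚ) : Qb) = ((dsc A B : ℤ) : Qb) := by
      simp [dsc]
    rw [e]; exact_mod_cast hd
  have hp0 : (p : Qb) ≠ 0 := Nat.cast_ne_zero.2 hp.ne_zero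
  have hfin := finite_tors two_ne_zero hd' hp0
  have hcard := card_tors two_ne_zero hd' hp0
  obtain ⟨τ, hτ⟩ := height_rat (s := s) ψ hψ
  refine ⟨τ, hτ, ?_⟩
  obtain ⟨z, hz⟩ := height_int ψ hτ
  have := height_alg
  let φ : Qb →+* ℂ := (IsAlgClosed.lift : Qb →ₐ[ℚ] ℂ).toRingHom
  have hm2 : (2 : ℝ) ≤ M := by exact_mod_cast hM
  have hm1 : (1 : ℝ) ≤ M := by linarith
  have hA' : |((A : ℚ) : ℝ)| ≤ M := by
    rw [Rat.cast_intCast, ← Int.cast_abs, ← Nat.cast_natAbs]; exact_mod_cast hA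
  have hB' : |((B : ℚ) : ℝ)| ≤ M := by
    rw [Rat.cast_intCast, ← Int.cast_abs, ← Nat.cast_natAbs]; exact_mod_cast hB
  have hden : j.den ≤ M := (le_max_right _ _).trans hj
  have hj' : |(j : ℝ)| ≤ M := by
    have h1 : (j.num.natAbs : ℝ) ≤ M := by exact_mod_cast (le_max_left _ _).trans hj
    have h2 : (1 : ℝ) ≤ j.den := by exact_mod_cast j.pos
    rw [Nat.cast_natAbs, Int.cast_abs] at h1
    rw [Rat.cast_def, abs_div, Nat.abs_cast]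
    exact (div_le_self (abs_nonneg _) h2).trans h1
  have hj2 : |1728 - (j : ℝ)| ≤ 865 * M := by
    have := abs_sub (1728 : ℝ) j
    rw [abs_of_pos (by norm_num : (0 : ℝ) < 1728)] at this
    linarith
  have hma : |((ma j 1 : ℚ) : ℝ)| ≤ (182 * M) ^ 2 := by
    simp only [ma]; push_cast
    rw [mul_one, abs_mul, abs_mul, abs_of_pos (by norm_num : (0 : ℝ) < 3)]
    calc 3 * |(j : ℝ)| * |1728 - (j : ℝ)| ≤ 3 * M * (865 * M) := by gcongr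
      _ ≤ (182 * M) ^ 2 := by nlinarith
  have hmb : |((mb j 1 : ℚ) : ℝ)| ≤ (182 * M) ^ 3 := by
    simp only [mb]; push_cast
    rw [mul_one, abs_mul, abs_mul, abs_of_pos (by norm_num : (0 : ℝ) < 2), abs_pow]
    have h3 : (0 : ℝ) ≤ (M : ℝ) ^ 3 := by positivity
    calc 2 * |(j : ℝ)| * |1728 - (j : ℝ)| ^ 2 ≤ 2 * (M : ℝ) * (865 * (M : ℝ)) ^ 2 := by gcongr
      _ ≤ (182 * (M : ℝ)) ^ 3 := by nlinarith
  have hx1 := height_emb φ hc hp.pos (a := A) (b := B) (M := M) (by linarith)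
    (hA'.trans (le_self_pow₀ hm1 two_ne_zero)) (hB'.trans (le_self_pow₀ hm1 three_ne_zero))
  have hx2 := height_emb φ hc hp.pos (a := ma j 1) (b := mb j 1) (M := 182 * M) (by linarith)
    hma hmb
  have hpM : (p : ℝ) ≤ (M : ℝ) ^ p := by
    have h1 : (p : ℝ) ≤ 2 ^ p := by exact_mod_cast Nat.lt_two_pow_self.le
    exact h1.trans (pow_le_pow_left₀ zero_le_two hm2 p)
  have hcM : c ^ p ≤ (M : ℝ) ^ (k * p) := by
    rw [pow_mul]
    exact pow_le_pow_left₀ (by linarith) (hk.le.trans (pow_le_pow_left₀ zero_le_two hm2 k)) p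
  have hsM : (s : ℝ) ≤ (M : ℝ) ^ (p * 10) := by
    rw [pow_mul]
    have h1 : (s : ℝ) ≤ (p : ℝ) ^ 10 := by exact_mod_cast hs
    exact h1.trans (pow_le_pow_left₀ (Nat.cast_nonneg p) hpM 10)
  have hU : ∀ P : Tors p ((A : ℚ) : Qb) ((B : ℚ) : Qb),
      ‖φ ((s : Qb) * xc (P : Pt ((A : ℚ) : Qb) ((B : ℚ) : Qb)))‖ ≤
        (M : ℝ) ^ (p * 10 + k * p + 1) := by
    intro P
    rw [map_mul, map_natCast, norm_mul, Complex.norm_natCast, pow_succ, pow_add, mul_assoc]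
    refine mul_le_mul hsM ((hx1 P).trans ?_) (norm_nonneg _) (by positivity)
    gcongr
  have hW : ∀ Q : Tors p ((ma j 1 : ℚ) : Qb) ((mb j 1 : ℚ) : Qb),
      ‖φ (xc (Q : Pt ((ma j 1 : ℚ) : Qb) ((mb j 1 : ℚ) : Qb)))‖ ≤ (M : ℝ) ^ (k * p + 9) := by
    intro Q
    refine (hx2 Q).trans ?_
    rw [pow_add]
    have h1 : (182 : ℝ) ≤ (M : ℝ) ^ 8 :=
      le_trans (by norm_num) (pow_le_pow_left₀ zero_le_two hm2 8)
    have h2 : 182 * (M : ℝ) ≤ (M : ℝ) ^ 9 := by rw [pow_succ]; gcongr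
    gcongr
  have hp2 : ((p ^ 2 : ℕ) : ℝ) ≤ (M : ℝ) ^ (p * 2) := by
    rw [pow_mul]; push_cast
    exact pow_le_pow_left₀ (Nat.cast_nonneg p) hpM 2
  have hT : |(τ : ℝ)| ≤ (M : ℝ) ^ (p * 2 + (p * 2 + (p * 10 + k * p + 1) * p ^ 2 + (k * p + 9))) := by
    have e : |(τ : ℝ)| = ‖φ (tau p s ψ)‖ := by
      rw [← hτ, map_ratCast, Complex.norm_ratCast]
    have := Fintype.ofFinite (Tors p ((A : ℚ) : Qb) ((B : ℚ) : Qb))
    rw [e, tau, finsum_eq_sum_of_fintype, map_sum]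
    refine (norm_sum_le _ _).trans ?_
    refine (Finset.sum_le_card_nsmul _ _
      ((M : ℝ) ^ (p * 2 + (p * 10 + k * p + 1) * p ^ 2 + (k * p + 9))) (fun P _ => ?_)).trans ?_
    · rw [map_mul, norm_mul, pow_add]
      refine mul_le_mul ?_ (hW _) (norm_nonneg _) (by positivity)
      rw [map_sum]
      refine (norm_sum_le _ _).trans ?_
      refine (Finset.sum_le_card_nsmul _ _
        ((M : ℝ) ^ ((p * 10 + k * p + 1) * p ^ 2)) (fun i hi => ?_)).trans ?_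
      · rw [map_pow, norm_pow, pow_mul]
        exact (pow_le_pow_left₀ (norm_nonneg _) (hU P) i).trans
          (pow_le_pow_right₀ (one_le_pow₀ hm1) (Finset.mem_range.1 hi).le)
      · rw [Finset.card_range, nsmul_eq_mul, pow_add]
        gcongr
    · rw [Finset.card_univ, ← Nat.card_eq_fintype_card, hcard, nsmul_eq_mul,
        pow_add (M : ℝ) (p * 2)]
      gcongr
  have hD : ((p ^ (p ^ 2) * j.den : ℕ) : ℝ) ≤ (M : ℝ) ^ (p * p ^ 2 + 1) := by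
    push_cast
    rw [pow_succ (M : ℝ), pow_mul]
    have h1 : (j.den : ℝ) ≤ M := by exact_mod_cast hden
    gcongr
  have hH := height_le (Nat.mul_pos (pow_pos hp.pos _) j.pos) hz (one_le_pow₀ hm1) hT
  have hexp : p * p ^ 2 + 1 + (p * 2 + (p * 2 + (p * 10 + k * p + 1) * p ^ 2 + (k * p + 9))) ≤
      (2 * k + 30) * p ^ 3 := by
    have h1 : 1 ≤ p := hp.pos
    have h2 : p ≤ p ^ 3 := Nat.le_self_pow three_ne_zero p
    have h3 : p ^ 2 ≤ p ^ 3 := Nat.pow_le_pow_right h1 (by norm_num)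
    have h4 : k * p ≤ k * p ^ 3 := Nat.mul_le_mul_left k h2
    have e : p * p ^ 2 + 1 + (p * 2 + (p * 2 + (p * 10 + k * p + 1) * p ^ 2 + (k * p + 9))) =
        11 * p ^ 3 + k * p ^ 3 + p ^ 2 + 4 * p + k * p + 10 := by ring
    rw [e]
    have e2 : (2 * k + 30) * p ^ 3 = 30 * p ^ 3 + k * p ^ 3 + k * p ^ 3 := by ring
    rw [e2]
    omega
  have hfinal : (hgt τ : ℝ) ≤ (M : ℝ) ^ ((2 * k + 30) * p ^ 3) := by
    refine hH.trans ((mul_le_mul_of_nonneg_right hD (by positivity)).trans ?_)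
    rw [← pow_add]
    exact pow_le_pow_right₀ hm1 hexp
  exact_mod_cast hfinal

end Pool.Agent.P.MP_a60a76_nt.Fs
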