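import Pool.Agent.P.MP_a60a76_nt.Fs.Defs2
import Pool.Agent.P.MP_a60a76_nt.Fs.Place
import Pool.Agent.P.MP_a60a76_nt.Fs.Tower
import Pool.Agent.P.MP_a60a76_nt.Fs.Inv
import Pool.Agent.P.MP_a60a76_nt.Fs.FrobEl
import Pool.Agent.P.MP_a60a76_nt.Fs.Red

namespace Pool.Agent.P.MP_a60a76_nt.Fs

open Polynomial
open scoped NNReal

theorem mem_sepF_Qb {R : Type*} [CommRing R] {ι : R →+* Qb} (hι : Clos ι) (z : Qb) :
    z ∈ sepF ι := by
  have := inv_isAlgebraic hι
  exact mem_separableClosure_iff.2 (Algebra.IsSeparable.isSeparable (K0 ι) z)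

theorem clos_sub (E : Subfield Qb) : Clos E.subtype := by
  refine ⟨inferInstance, Subtype.val_injective, fun z => ?_⟩
  obtain ⟨p, hp, hz⟩ := clos_rat.alg z
  let φ : ℚ →+* E := (algebraMap ℚ Qb).codRestrict E (fun r => by simp)
  refine ⟨p.map φ, (Polynomial.map_ne_zero_iff φ.injective).2 hp, ?_⟩
  rw [eval₂_map]
  exact hz

/-- Galois theory: an element fixed by all automorphisms over `E` lies in `E`. -/
theorem mem_of_fixed (E : Subfield Qb) {z : Qb}
    (h : ∀ σ : RingAut Qb, (∀ y ∈ E, σ y = y) → σ z = z) : z ∈ E := by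
  have h1 := mem_K0_of_fixed (clos_sub E) (mem_sepF_Qb (clos_sub E) z)
    (fun σ hσ => h σ fun y hy => hσ ⟨y, hy⟩)
  refine (Subfield.closure_le (t := E)).2 ?_ h1
  rintro _ ⟨y, rfl⟩
  exact y.2

/-- An automorphism fixing the fixed field of `G` moves `z` inside the orbit of `z`. -/
theorem orbit_closure (G : Subgroup (RingAut Qb)) (σ : RingAut Qb)
    (h : ∀ y, (∀ τ ∈ G, τ y = y) → σ y = y) (z : Qb) : ∃ τ ∈ G, τ z = σ z := by
  classical
  obtain ⟨p, hp, hz⟩ := clos_rat.alg z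
  have hp' : p.map (algebraMap ℚ Qb) ≠ 0 :=
    (Polynomial.map_ne_zero_iff (algebraMap ℚ Qb).injective).2 hp
  have hfin : {y | ∃ τ ∈ G, τ z = y}.Finite := by
    refine (p.map (algebraMap ℚ Qb)).roots.finite_toSet.subset ?_
    rintro _ ⟨τ, -, rfl⟩
    refine (mem_roots hp').2 ?_
    have := congrArg τ hz
    rw [map_zero] at this
    rw [IsRoot, eval_map, ← this]
    have e := hom_eval₂ p (algebraMap ℚ Qb) τ.toRingHom z
    rw [RingHom.ext_rat (τ.toRingHom.comp (algebraMap ℚ Qb)) (algebraMap ℚ Qb)] at e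
    exact e.symm
  set O := hfin.toFinset with hO
  have hmem : ∀ y, y ∈ O ↔ ∃ τ ∈ G, τ z = y := fun y => by simp [hO]
  set f : Qb[X] := ∏ y ∈ O, (X - C y) with hf
  have h1 : ∀ τ ∈ G, f.map τ.toRingHom = f := by
    intro τ hτ
    rw [hf, Polynomial.map_prod]
    simp only [Polynomial.map_sub, map_X, map_C]
    refine Finset.prod_bij (fun y _ => τ y) ?_ (fun _ _ _ _ h => τ.injective h) ?_ fun _ _ => rfl
    · intro y hy
      obtain ⟨ρ, hρ, rfl⟩ := (hmem y).1 hy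
      exact (hmem _).2 ⟨τ * ρ, G.mul_mem hτ hρ, rfl⟩
    · intro y hy
      obtain ⟨ρ, hρ, rfl⟩ := (hmem y).1 hy
      exact ⟨(τ⁻¹ * ρ) z, (hmem _).2 ⟨τ⁻¹ * ρ, G.mul_mem (G.inv_mem hτ) hρ, rfl⟩,
        τ.apply_symm_apply _⟩
  have h2 : f.map σ.toRingHom = f := by
    ext i
    rw [coeff_map]
    refine h _ fun τ hτ => ?_
    have := congrArg (fun g => coeff g i) (h1 τ hτ)
    simpa using this
  have h3 : f.eval z = 0 := by
    rw [hf, eval_prod]
    exact Finset.prod_eq_zero ((hmem z).2 ⟨1, G.one_mem, rfl⟩) (by simp)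
  have h4 : f.eval (σ z) = 0 := by
    have e := hom_eval₂ f (RingHom.id Qb) σ.toRingHom z
    rw [eval₂_id, h3, map_zero, RingHom.comp_id, ← eval_map, h2] at e
    exact e.symm
  rw [hf, eval_prod, Finset.prod_eq_zero_iff] at h4
  obtain ⟨y, hy, h5⟩ := h4
  obtain ⟨τ, hτ, rfl⟩ := (hmem y).1 hy
  refine ⟨τ, hτ, ?_⟩
  simp only [eval_sub, eval_X, eval_C] at h5
  exact (sub_eq_zero.1 h5).symm

theorem iloc_res (q : ℕ) [hq : Fact q.Prime] (v : Valuation Qb ℝ≥0) (hv : v q < 1) :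
    ∃ g : Spec Qb (Fb q), (∀ z, z ∈ g.S ↔ v z ≤ 1) ∧ ∀ z ∈ g.S, g.f z ≠ 0 ↔ v z = 1 := by
  classical
  let O := v.valuationSubring
  let κ := IsLocalRing.ResidueField O
  have hO : ∀ z, z ∈ O ↔ v z ≤ 1 := fun z => Iff.rfl
  have hu : ∀ z : O, IsLocalRing.residue O z ≠ 0 ↔ v z = 1 := by
    intro z
    rw [IsLocalRing.residue_ne_zero_iff_isUnit]
    exact (Valuation.valuationSubring.integers v).isUnit_iff_valuation_eq_one
  have h0 : (q : κ) = 0 := by
    by_contra h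
    have := (hu (q : O)).1 (by simpa using h)
    exact hv.ne (by simpa using this)
  have : CharP κ q := (CharP.charP_iff_prime_eq_zero hq.out).2 h0
  let _ : Algebra (ZMod q) κ := ZMod.algebra κ q
  have : Algebra.IsAlgebraic (ZMod q) κ := ⟨fun x => by
    obtain ⟨z, rfl⟩ := IsLocalRing.residue_surjective x
    obtain ⟨p, h1, h2⟩ := FrobEl_poly q (z : Qb)
    refine ⟨_, h2, ?_⟩
    have h3 : p.eval₂ (Int.castRingHom O) z = 0 := by
      apply O.subtype_injective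
      rw [hom_eval₂, map_zero, RingHom.ext_int (O.subtype.comp _) (algebraMap ℤ Qb)]
      exact h1
    rw [aeval_def, eval₂_map,
      RingHom.ext_int (RingHom.comp _ _) ((IsLocalRing.residue O).comp (Int.castRingHom O)),
      ← hom_eval₂, h3, map_zero]⟩
  let φ : κ →ₐ[ZMod q] Fb q := IsAlgClosed.lift
  refine ⟨Spec.ofHom O.toSubring (φ.toRingHom.comp (IsLocalRing.residue O)), hO, fun z hz => ?_⟩
  have hz' : z ∈ O.toSubring := hz
  change (if h : z ∈ O.toSubring then _ else _) ≠ 0 ↔ _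
  rw [dif_pos hz', ← hu ⟨z, hz⟩]
  exact map_ne_zero φ.toRingHom

theorem iloc_order (q : ℕ) [hq : Fact q.Prime] {x : Fb q} (hx : x ≠ 0) :
    ∃ n : ℕ, 0 < n ∧ ¬ q ∣ n ∧ x ^ n = 1 := by
  have hi : IsIntegral (ZMod q) x := Algebra.IsIntegral.isIntegral x
  have := IntermediateField.adjoin.finiteDimensional hi
  let K := IntermediateField.adjoin (ZMod q) {x}
  have : Finite K := Module.finite_of_finite (ZMod q)
  let _ := Fintype.ofFinite K
  have : CharP K q := (algebraMap K (Fb q)).charP (algebraMap K (Fb q)).injective q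
  obtain ⟨k, -, hk⟩ := FiniteField.card K q
  let y : K := ⟨x, IntermediateField.mem_adjoin_simple_self _ x⟩
  have hy : y ≠ 0 := fun h => hx (congrArg Subtype.val h)
  have h1 : 1 < q ^ (k : ℕ) := Nat.one_lt_pow k.ne_zero hq.out.one_lt
  refine ⟨Fintype.card K - 1, by omega, fun h => ?_, ?_⟩
  · rw [hk] at h
    have h2 : q ∣ q ^ (k : ℕ) := dvd_pow_self q k.ne_zero
    have h3 := (Nat.dvd_sub_iff_right h1.le h2).1 h
    exact hq.out.one_lt.ne' (Nat.dvd_one.1 h3)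
  · exact congrArg Subtype.val (FiniteField.pow_card_sub_one_eq_one y hy)

theorem exists_prim_Qb {n : ℕ} (hn : 0 < n) : ∃ ζ : Qb, IsPrimitiveRoot ζ n := by
  have : NeZero n := ⟨hn.ne'⟩
  exact HasEnoughRootsOfUnity.exists_primitiveRoot Qb n

section res

variable {q : ℕ} [hq : Fact q.Prime] {v : Valuation Qb ℝ≥0} {g : Spec Qb (Fb q)}
  (hS : ∀ z, z ∈ g.S ↔ v z ≤ 1) (hU : ∀ z ∈ g.S, g.f z ≠ 0 ↔ v z = 1)

theorem iloc_root_val (v : Valuation Qb ℝ≥0) {ζ : Qb} {n : ℕ} (hn : 0 < n) (h : ζ ^ n = 1) :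
    v ζ = 1 :=
  (pow_eq_one_iff_of_nonneg zero_le hn.ne').1 (by rw [← map_pow, h, map_one])

include hS hU in
theorem iloc_eq_iff {x y : Qb} (hx : x ∈ g.S) (hy : y ∈ g.S) : g.f x = g.f y ↔ v (x - y) < 1 := by
  rw [← sub_eq_zero, ← red_sub g hx hy, ← not_ne_iff, hU _ (g.S.sub_mem hx hy), lt_iff_le_and_ne]
  exact ⟨fun h => ⟨(hS _).1 (g.S.sub_mem hx hy), h⟩, fun h => h.2⟩

include hS hU in
theorem iloc_root_inj {ζ ξ : Qb} {n : ℕ} (hn : 0 < n) (hqn : ¬ q ∣ n) (h1 : ζ ^ n = 1)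
    (h2 : ξ ^ n = 1) (h : g.f ζ = g.f ξ) : ζ = ξ := by
  by_contra hne
  have s1 := (hS _).2 (iloc_root_val v hn h1).le
  have s2 := (hS _).2 (iloc_root_val v hn h2).le
  have e1 : (∑ i ∈ Finset.range n, (⟨ζ, s1⟩ : g.S) ^ i * ⟨ξ, s2⟩ ^ (n - 1 - i)) = 0 := by
    apply Subtype.ext
    have := Commute.geom_sum₂_mul (Commute.all ζ ξ) n
    rw [h1, h2, sub_self] at this
    simpa using (mul_eq_zero.1 this).resolve_right (sub_ne_zero.2 hne)
  have e2 := congrArg g.hom e1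
  have e3 : g.hom ⟨ζ, s1⟩ = g.hom ⟨ξ, s2⟩ := h
  simp only [map_sum, map_mul, map_pow, map_zero, e3] at e2
  rw [geom_sum₂_self] at e2
  rcases mul_eq_zero.1 e2 with h3 | h3
  · exact hqn ((CharP.cast_eq_zero_iff (Fb q) q n).1 h3)
  · exact (hU _ s2).2 (iloc_root_val v hn h2) (pow_eq_zero_iff'.1 h3).1

include hS hU in
theorem iloc_teich {z : Qb} (hz : z ∈ g.S) (h0 : g.f z ≠ 0) :
    ∃ (ζ : Qb) (n : ℕ), 0 < n ∧ ¬ q ∣ n ∧ ζ ^ n = 1 ∧ v (z - ζ) < 1 := by
  classical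
  obtain ⟨n, hn, hqn, h1⟩ := iloc_order q h0
  obtain ⟨ξ, hξ⟩ := exists_prim_Qb hn
  have h2 := congrArg (eval z) (X_pow_sub_one_eq_prod hn hξ)
  simp only [eval_sub, eval_pow, eval_X, eval_one, eval_prod, eval_C] at h2
  have h3 : v (z ^ n - 1) < 1 := by
    rw [← iloc_eq_iff hS hU (g.S.pow_mem hz n) g.S.one_mem, g.map_one, ← h1]
    exact map_pow g.hom ⟨z, hz⟩ n
  by_contra hc
  push Not at hc
  rw [h2, map_prod] at h3
  exact h3.not_ge (Finset.one_le_prod' fun ζ hζ =>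
    hc ζ n hn hqn ((Polynomial.mem_nthRootsFinset hn 1).1 hζ))

include hS hU in
theorem iloc_poly_val {F : Subfield Qb} (hF : ∀ σ : RingAut Qb, (∀ y ∈ F, σ y = y) →
    ∀ z, v (σ z) = v z) {ζ : Qb} {n : ℕ} (hn : 0 < n) (hqn : ¬ q ∣ n) (h1 : ζ ^ n = 1) {f : F[X]}
    (hf0 : f ≠ 0) (hf : f.natDegree < (minpoly F ζ).natDegree) :
    ∃ c : F, c ≠ 0 ∧ v (aeval ζ f) = v c := by
  classical
  obtain ⟨k, hk, hmax⟩ := Finset.exists_max_image f.support (fun i => v (f.coeff i : Qb))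
    (nonempty_support_iff.2 hf0)
  have hc : f.coeff k ≠ 0 := mem_support_iff.1 hk
  have hc' : (f.coeff k : Qb) ≠ 0 := fun h => hc (Subtype.ext h)
  have vc : 0 < v (f.coeff k : Qb) := pos_iff_ne_zero.2 ((Valuation.ne_zero_iff v).2 hc')
  refine ⟨_, hc, ?_⟩
  set f0 : Qb[X] := (f * C (f.coeff k)⁻¹).map (algebraMap F Qb) with hf0'
  have hco : ∀ i, f0.coeff i = (f.coeff i : Qb) / f.coeff k := fun i => by
    rw [hf0', coeff_map, coeff_mul_C, div_eq_mul_inv, map_mul, map_inv₀]; rfl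
  have hint : ∀ i, f0.coeff i ∈ g.S := fun i => by
    rw [hS, hco, map_div₀, div_le_one vc]
    by_cases hi : i ∈ f.support
    · exact hmax i hi
    · rw [notMem_support_iff.1 hi]; simp
  have hl : f0 ∈ lifts g.S.subtype := (lifts_iff_coeff_lifts f0).2 fun i => ⟨⟨_, hint i⟩, rfl⟩
  obtain ⟨h, hh, hd⟩ := exists_degree_eq_of_mem_lifts hl
  have hev : ∀ x : g.S, ((h.eval x : g.S) : Qb) = aeval (x : Qb) f / f.coeff k := fun x => by
    have e := hom_eval₂ h (RingHom.id _) g.S.subtype x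
    rw [eval₂_id, RingHom.comp_id, ← eval_map, hh, hf0', eval_map, ← aeval_def, map_mul,
      aeval_C, map_inv₀] at e
    rw [div_eq_mul_inv]
    exact e
  have sζ := (hS _).2 (iloc_root_val v hn h1).le
  by_contra hne
  have hlt : v (aeval ζ f / f.coeff k) < 1 := by
    refine lt_of_le_of_ne ?_ fun h => hne ?_
    · rw [← hS, ← hev ⟨ζ, sζ⟩]
      exact Subtype.coe_prop _
    · rwa [map_div₀, div_eq_one_iff_eq vc.ne'] at h
  have hal : Algebra.IsAlgebraic F Qb := ⟨fun z => by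
    obtain ⟨p, hp, hz⟩ := (clos_sub F).alg z
    exact ⟨p, hp, hz⟩⟩
  have : IsAlgClosure F Qb := ⟨inferInstance, hal⟩
  have ha : IsAlgebraic F ζ := hal.isAlgebraic ζ
  set Z := ((minpoly F ζ).aroots Qb).toFinset with hZ
  have hcard : Z.card = (minpoly F ζ).natDegree := by
    have hs : (minpoly F ζ).Separable := Algebra.IsSeparable.isSeparable F ζ
    rw [hZ, Multiset.toFinset_card_of_nodup (nodup_roots (hs.map (f := algebraMap F Qb))),
      ← (IsAlgClosed.splits _).natDegree_eq_card_roots, natDegree_map]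
  have hroot : ∀ ξ ∈ Z, ξ ^ n = 1 ∧ (h.map g.hom).eval (g.f ξ) = 0 := by
    intro ξ hξ
    obtain ⟨σ, rfl⟩ := minpoly.exists_algEquiv_of_root' ha
      (mem_aroots.1 (Multiset.mem_toFinset.1 hξ)).2
    have h2 : σ ζ ^ n = 1 := by rw [← map_pow, h1, map_one]
    have s2 := (hS _).2 (iloc_root_val v hn h2).le
    refine ⟨h2, ?_⟩
    have e := hom_eval₂ h (RingHom.id _) g.hom ⟨σ ζ, s2⟩
    rw [eval₂_id, RingHom.comp_id, ← eval_map] at e
    refine e.symm.trans ?_
    by_contra h3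
    have h4 := (hU _ (Subtype.coe_prop _)).1 h3
    rw [hev] at h4
    have h5 := hF σ.toRingEquiv (fun y hy => σ.commutes ⟨y, hy⟩) (aeval ζ f / f.coeff k)
    have h6 : σ.toRingEquiv (aeval ζ f / f.coeff k) = aeval (σ ζ) f / f.coeff k := by
      rw [map_div₀, aeval_algHom_apply]
      congr 1
      exact σ.commutes (f.coeff k)
    rw [h6] at h5
    exact hlt.ne (h5 ▸ h4)
  have hne0 : h.map g.hom ≠ 0 := by
    intro h0
    have h2 := congrArg (fun p => coeff p k) h0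
    have h3 : h.coeff k = 1 := by
      apply Subtype.ext
      have := congrArg (fun p => coeff p k) hh
      simp only [coeff_map] at this
      rw [hco, div_self hc'] at this
      exact this
    simp [h3] at h2
  have h7 : (Z.image g.f).card ≤ (h.map g.hom).natDegree := by
    refine card_le_degree_of_subset_roots fun x hx => ?_
    obtain ⟨ξ, hξ, rfl⟩ := Finset.mem_image.1 hx
    exact (mem_roots hne0).2 (hroot ξ hξ).2
  rw [Finset.card_image_of_injOn fun ξ hξ ξ' hξ' e =>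
    iloc_root_inj hS hU hn hqn (hroot ξ hξ).1 (hroot ξ' hξ').1 e] at h7
  have h8 : h.natDegree ≤ f.natDegree := by
    rw [natDegree_eq_of_degree_eq hd, hf0']
    exact natDegree_map_le.trans (natDegree_mul_C_le _ _)
  have h9 := natDegree_map_le (p := h) (f := g.hom)
  omega

end res

theorem exists_iloc (q : ℕ) [hq : Fact q.Prime] : Nonempty (ILoc q) := by
  classical
  obtain ⟨L, hL⟩ := exists_loc clos_rat (padicValRat q)
    (fun x y hx hy => padicValRat.mul hx hy)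
    (fun x y _ _ hxy => padicValRat.min_le_padicValRat_add hxy)
    ⟨q, by exact_mod_cast hq.out.ne_zero, by rw [padicValRat.self hq.out.one_lt]; norm_num⟩
  have hv : L.v q < 1 := by
    have := hL q (by exact_mod_cast hq.out.ne_zero)
    rw [padicValRat.self hq.out.one_lt, map_natCast] at this
    rw [this]; norm_num
  obtain ⟨g, hS, hU⟩ := iloc_res q L.v hv
  let Ds : Subgroup (RingAut Qb) :=
    { carrier := {σ | ∀ z, L.v (σ z) = L.v z}
      mul_mem' := fun {σ τ} h1 h2 z => (h1 (τ z)).trans (h2 z)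
      one_mem' := fun _ => rfl
      inv_mem' := fun {σ} h z => by
        have := h (σ⁻¹ z)
        rw [show σ (σ⁻¹ z) = z from σ.apply_symm_apply z] at this
        exact this.symm }
  let I : Subgroup (RingAut Qb) :=
    { carrier := {σ | σ ∈ Ds ∧ ∀ z, L.v z ≤ 1 → L.v (σ z - z) < 1}
      mul_mem' := fun {σ τ} h1 h2 => ⟨Ds.mul_mem h1.1 h2.1, fun z hz => by
        have e : (σ * τ) z - z = (σ (τ z) - τ z) + (τ z - z) := by
          change σ (τ z) - z = _
          ring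
        rw [e]
        exact L.v.map_add_lt (h1.2 _ (by rw [h2.1]; exact hz)) (h2.2 z hz)⟩
      one_mem' := ⟨Ds.one_mem, fun z _ => by simp⟩
      inv_mem' := fun {σ} h => ⟨Ds.inv_mem h.1, fun z hz => by
        have := h.2 (σ⁻¹ z) (by rw [Ds.inv_mem h.1 z]; exact hz)
        rw [show σ (σ⁻¹ z) = z from σ.apply_symm_apply z] at this
        rwa [Valuation.map_sub_swap]⟩ }
  let F : Subfield Qb :=
    { carrier := {z | ∀ σ ∈ Ds, σ z = z}
      mul_mem' := fun h1 h2 σ hσ => by rw [map_mul, h1 σ hσ, h2 σ hσ]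
      one_mem' := fun σ _ => map_one σ
      add_mem' := fun h1 h2 σ hσ => by rw [map_add, h1 σ hσ, h2 σ hσ]
      zero_mem' := fun σ _ => map_zero σ
      neg_mem' := fun h σ hσ => by rw [map_neg, h σ hσ]
      inv_mem' := fun _ h σ hσ => by rw [map_inv₀, h σ hσ] }
  have hF : ∀ σ : RingAut Qb, (∀ y ∈ F, σ y = y) → ∀ z, L.v (σ z) = L.v z := by
    intro σ hσ z
    obtain ⟨τ, hτ, e⟩ := orbit_closure Ds σ hσ z
    rw [← e]
    exact hτ z
  let μ : Set Qb := {ζ | ∃ n : ℕ, 0 < n ∧ ¬ q ∣ n ∧ ζ ^ n = 1}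
  have hfx : ∀ z, z ≠ 0 → (∀ σ ∈ I, σ z = z) → ∃ n : ℤ, L.v z = (1 / 2 : ℝ≥0) ^ n := by
    intro z hz hI
    have h1 : z ∈ (IntermediateField.adjoin F μ).toSubfield := by
      refine mem_of_fixed _ fun σ hσ => hI σ ?_
      have hD : σ ∈ Ds := hF σ fun y hy =>
        hσ y ((IntermediateField.adjoin F μ).algebraMap_mem ⟨y, hy⟩)
      refine ⟨hD, fun y hy => ?_⟩
      by_cases h0 : g.f y = 0
      · have h2 : L.v y < 1 := lt_of_le_of_ne hy fun h => (hU y ((hS y).2 hy)).2 h h0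
        exact L.v.map_sub_lt (by rw [hD]; exact h2) h2
      · obtain ⟨ζ, n, hn, hqn, h2, h3⟩ := iloc_teich hS hU ((hS y).2 hy) h0
        have h4 : σ ζ = ζ := hσ ζ (IntermediateField.subset_adjoin F μ ⟨n, hn, hqn, h2⟩)
        have e : σ y - y = σ (y - ζ) - (y - ζ) := by rw [map_sub, h4]; ring
        rw [e]
        exact L.v.map_sub_lt (by rw [hD]; exact h3) h3
    obtain ⟨T, hT, h2⟩ := IntermediateField.exists_finset_of_mem_adjoin h1
    obtain ⟨n, hn, hqn, h3⟩ : ∃ n : ℕ, 0 < n ∧ ¬ q ∣ n ∧ ∀ t ∈ T, t ^ n = 1 := by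
      choose! N hN using fun t (ht : t ∈ T) => hT ht
      refine ⟨∏ t ∈ T, N t, Finset.prod_pos fun t ht => (hN t ht).1, fun h => ?_, fun t ht => ?_⟩
      · obtain ⟨t, ht, h4⟩ := (Prime.dvd_finsetProd_iff hq.out.prime _).1 h
        exact (hN t ht).2.1 h4
      · obtain ⟨k, hk⟩ := Finset.dvd_prod_of_mem N ht
        rw [hk, pow_mul, (hN t ht).2.2, one_pow]
    obtain ⟨ζ, hζ⟩ := exists_prim_Qb hn
    have : NeZero n := ⟨hn.ne'⟩
    have h4 : z ∈ IntermediateField.adjoin F {ζ} := by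
      refine IntermediateField.adjoin_le_iff.2 (fun t ht => ?_) h2
      obtain ⟨i, -, rfl⟩ := hζ.eq_pow_of_pow_eq_one (h3 t ht)
      exact pow_mem (IntermediateField.mem_adjoin_simple_self F ζ) i
    have hi : IsIntegral F ζ := by
      obtain ⟨p, hp, hz⟩ := (clos_sub F).alg ζ
      exact IsAlgebraic.isIntegral ⟨p, hp, hz⟩
    obtain ⟨f, hf, h5⟩ := (IntermediateField.adjoin.powerBasis hi).exists_eq_aeval ⟨z, h4⟩
    have h6 : z = aeval ζ f := by
      have := congrArg (IntermediateField.adjoin F {ζ}).val h5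
      rw [← aeval_algHom_apply] at this
      exact this
    have hf0 : f ≠ 0 := by
      rintro rfl
      exact hz (by simpa using h6)
    obtain ⟨c, hc, h7⟩ := iloc_poly_val hS hU hF hn hqn hζ.pow_eq_one hf0 hf
    rw [h6, h7]
    exact L.fix _ (mem_sepF_Qb clos_rat _) (fun h => hc (Subtype.ext h))
      fun σ hσ => c.2 σ (L.inv σ hσ)
  refine ⟨
    { v := L.v
      D := I
      le := fun σ _ r => by simp
      inv := fun σ hσ => hσ.1
      fix := fun z _ => hfx z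
      g := g
      mem := hS
      ne := hU
      triv := fun σ hσ z hz => (iloc_eq_iff hS hU ((hS _).2 (by
        rw [hσ.1]; exact (hS _).1 hz)) hz).2 (hσ.2 z ((hS _).1 hz))
      val := fun r hr => by simpa using hL r hr
      fx := hfx
      clo := fun σ hσ => ⟨fun z => ?_, fun z hz => ?_⟩ }⟩
  · obtain ⟨τ, hτ, e⟩ := orbit_closure I σ hσ z
    rw [← e]
    exact hτ.1 z
  · obtain ⟨τ, hτ, e⟩ := orbit_closure I σ hσ z
    rw [← e]
    exact hτ.2 z hz

end Pool.Agent.P.MP_a60a76_nt.Fs
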