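import Pool.Agent.P.MP_a60a76_nt.Fs.Good2
import Pool.Agent.P.MP_a60a76_nt.Fs.ILocEx
import Pool.Agent.P.MP_a60a76_nt.Fs.Orbit
import Pool.Agent.P.MP_a60a76_nt.Fs.GrpA
import Pool.Agent.P.MP_a60a76_nt.Fs.Count

namespace Pool.Agent.P.MP_a60a76_nt.Fs

open Polynomial
open scoped NNReal

theorem sc_of_eqv_pm {V W : Type*} [AddCommGroup V] [AddCommGroup W] {f : AddMonoid.End V}
    {g : AddMonoid.End W} {ψ : V ≃+ W} (h : Eqv f g ψ) (hf : PM f) : Sc g := by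
  rcases h with h | h <;> rcases hf with hf | hf
  · exact ⟨1, fun w => by obtain ⟨v, rfl⟩ := ψ.surjective w; rw [← h, hf, one_smul]⟩
  · exact ⟨-1, fun w => by obtain ⟨v, rfl⟩ := ψ.surjective w; rw [← h, hf]; simp⟩
  · exact ⟨-1, fun w => by
      obtain ⟨v, rfl⟩ := ψ.surjective w
      have := h v
      rw [hf] at this
      rw [neg_one_smul]
      exact neg_eq_iff_eq_neg.1 this.symm⟩
  · exact ⟨1, fun w => by
      obtain ⟨v, rfl⟩ := ψ.surjective w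
      have := h v
      rw [hf, map_neg, neg_inj] at this
      rw [one_smul, ← this]⟩

theorem half_zpow_le {m n : ℤ} : (1 / 2 : ℝ≥0) ^ m ≤ (1 / 2 : ℝ≥0) ^ n ↔ n ≤ m :=
  zpow_le_zpow_iff_right_of_lt_one₀ (by norm_num) (by norm_num)

theorem half_zpow_inj {m n : ℤ} (h : (1 / 2 : ℝ≥0) ^ m = (1 / 2 : ℝ≥0) ^ n) : m = n :=
  le_antisymm (half_zpow_le.1 h.ge) (half_zpow_le.1 h.le)

/-- Values of the model with invariant `j`. -/
theorem model_vals {q : ℕ} [hq : Fact q.Prime] (L : ILoc q) (hq5 : 5 ≤ q) {j : ℚ} (h0 : j ≠ 0)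
    (h1 : j ≠ 1728) :
    L.v ((ma j 1 : ℚ) : Qb) = (1 / 2 : ℝ≥0) ^ (padicValRat q j + padicValRat q (j - 1728)) ∧
    L.v ((mb j 1 : ℚ) : Qb) = (1 / 2 : ℝ≥0) ^ (padicValRat q j + 2 * padicValRat q (j - 1728)) ∧
    L.v (dsc ((ma j 1 : ℚ) : Qb) ((mb j 1 : ℚ) : Qb)) =
      (1 / 2 : ℝ≥0) ^ (2 * padicValRat q j + 3 * padicValRat q (j - 1728)) ∧
    (padicValRat q j < 0 → padicValRat q (j - 1728) = padicValRat q j) := by
  have v2 : L.v 2 = 1 := by simpa using L.val_small (n := 2) (by norm_num) (by omega)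
  have v3 : L.v 3 = 1 := by simpa using L.val_small (n := 3) (by norm_num) (by omega)
  have e1 := L.val j h0
  have e2 := L.val (j - 1728) (sub_ne_zero.2 h1)
  have hz : (1 / 2 : ℝ≥0) ≠ 0 := by norm_num
  refine ⟨?_, ?_, ?_, fun h => ?_⟩
  · rw [show ((ma j 1 : ℚ) : Qb) = -(3 * (j : Qb) * ((j - 1728 : ℚ) : Qb)) by
      simp only [ma]; push_cast; ring, Valuation.map_neg, map_mul, map_mul, v3, e1, e2,
      zpow_add₀ hz, one_mul]
  · rw [show ((mb j 1 : ℚ) : Qb) = 2 * (j : Qb) * ((j - 1728 : ℚ) : Qb) ^ 2 by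
      simp only [mb]; push_cast; ring, map_mul, map_mul, map_pow, v2, e1, e2,
      zpow_add₀ hz, one_mul, ← zpow_natCast, ← zpow_mul, mul_comm _ ((2 : ℕ) : ℤ)]
    rfl
  · rw [show dsc ((ma j 1 : ℚ) : Qb) ((mb j 1 : ℚ) : Qb) =
      -(2 ^ 8 * 3 ^ 6 * (j : Qb) ^ 2 * ((j - 1728 : ℚ) : Qb) ^ 3) by
      simp only [dsc, ma, mb]; push_cast; ring, Valuation.map_neg]
    simp only [map_mul, map_pow, v2, v3, e1, e2, one_pow, one_mul]
    rw [zpow_add₀ hz, ← zpow_natCast, ← zpow_natCast, ← zpow_mul, ← zpow_mul,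
      mul_comm _ ((2 : ℕ) : ℤ), mul_comm _ ((3 : ℕ) : ℤ)]
    rfl
  · have e3 : L.v (1728 : Qb) = 1 := by
      rw [show (1728 : Qb) = 2 ^ 6 * 3 ^ 3 by norm_num, map_mul, map_pow, map_pow, v2, v3]
      simp
    have e4 : L.v (1728 : Qb) < L.v j := by
      rw [e3, e1]
      exact one_lt_zpow_of_neg₀ (by norm_num) (by norm_num) h
    apply half_zpow_inj
    rw [← e1, ← e2]
    push_cast
    exact Valuation.map_sub_eq_of_lt_left _ e4

theorem model_eps {q : ℕ} [hq : Fact q.Prime] (L : ILoc q) (hq5 : 5 ≤ q) {j : ℚ} (h0 : j ≠ 0)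
    (h1 : j ≠ 1728) (h : padicValRat q j < 0) :
    L.v (eps ((ma j 1 : ℚ) : Qb) ((mb j 1 : ℚ) : Qb)) =
      (1 / 2 : ℝ≥0) ^ (-padicValRat q j).toNat := by
  obtain ⟨-, e2, e3, e4⟩ := model_vals L hq5 h0 h1
  have v3 : L.v 3 = 1 := by simpa using L.val_small (n := 3) (by norm_num) (by omega)
  have hz : (1 / 2 : ℝ≥0) ≠ 0 := by norm_num
  rw [eps, map_div₀, map_mul, map_pow, e2, e3, e4 h, show (27 : Qb) = 3 ^ 3 by norm_num,
    map_pow, v3, one_pow, one_mul, ← zpow_natCast, ← zpow_mul, ← zpow_sub₀ hz, ← zpow_natCast,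
    Int.toNat_of_nonneg (by omega)]
  congr 1
  push_cast
  ring

theorem model_ne {j : ℚ} (h0 : j ≠ 0) (h1 : j ≠ 1728) :
    ((ma j 1 : ℚ) : Qb) ≠ 0 ∧ ((mb j 1 : ℚ) : Qb) ≠ 0 ∧
      dsc ((ma j 1 : ℚ) : Qb) ((mb j 1 : ℚ) : Qb) ≠ 0 := by
  have h2 : (1728 : ℚ) * 1 - j ≠ 0 := by rw [mul_one]; exact sub_ne_zero.2 h1.symm
  refine ⟨?_, ?_, ?_⟩
  · rw [Rat.cast_ne_zero, ma]; positivity
  · rw [Rat.cast_ne_zero, mb]; positivity
  · rw [show dsc ((ma j 1 : ℚ) : Qb) ((mb j 1 : ℚ) : Qb) =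
      ((186624 * j ^ 2 * (1728 * 1 - j) ^ 3 : ℚ) : Qb) by
      simp only [dsc, ma, mb]; push_cast; ring, Rat.cast_ne_zero]
    positivity

theorem int_vals {q : ℕ} [hq : Fact q.Prime] (L : ILoc q) (n : ℤ) :
    L.v ((n : ℚ) : Qb) ≤ 1 ∧ (¬ (q : ℤ) ∣ n → L.v ((n : ℚ) : Qb) = 1) := by
  constructor
  · rw [← L.mem]
    simp
  · intro h
    rw [L.val n (by rintro h0; exact h (by rw [Int.cast_eq_zero.1 h0]; simp)), padicValRat.of_int,
      padicValInt.eq_zero_of_not_dvd h]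
    simp

theorem loc_q {p q : ℕ} (hp : p.Prime) (h5 : 5 ≤ p) (hq : q.Prime) (hq5 : 5 ≤ q) (hqp : q ≠ p)
    {A B : ℤ} (hd : ¬ (q : ℤ) ∣ dsc A B) {j : ℚ} (h : Par p A B j) :
    (padicValRat q j < 0 → (p : ℤ) ∣ padicValRat q j) ∧
      (0 ≤ padicValRat q j → 3 ∣ padicValRat q j ∧ 2 ∣ padicValRat q (j - 1728)) := by
  have := Fact.mk hq
  obtain ⟨L⟩ := exists_iloc q
  obtain ⟨hd0, h0, h1, -, ψ, hψ⟩ := h
  have ed : dsc ((A : ℚ) : Qb) ((B : ℚ) : Qb) = (((dsc A B : ℤ) : ℚ) : Qb) := by simp [dsc]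
  have v1 : L.v (dsc ((A : ℚ) : Qb) ((B : ℚ) : Qb)) = 1 := by
    rw [ed]; exact (int_vals L _).2 hd
  have hpm := (good2 L hq5 hp h5 hqp (a := ((A : ℚ) : Qb)) (b := ((B : ℚ) : Qb))
    (fun σ _ => ⟨map_ratCast σ _, map_ratCast σ _⟩) (by rw [ed]; simpa using hd0)
    (by rw [v1]; exact pow_le_one₀ zero_le (int_vals L A).1)).1 ⟨0, by rw [v1]; simp⟩
  have hsc : ∀ σ ∈ L.D, Sc (rho p ((ma j 1 : ℚ) : Qb) ((mb j 1 : ℚ) : Qb) σ) :=
    fun σ hσ => sc_of_eqv_pm (hψ σ) (hpm σ hσ)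
  obtain ⟨n1, n2, n3⟩ := model_ne h0 h1
  obtain ⟨e1, -, e3, -⟩ := model_vals L hq5 h0 h1
  have v2 : L.v 2 = 1 := by simpa using L.val_small (n := 2) (by norm_num) (by omega)
  have v3 : L.v 3 = 1 := by simpa using L.val_small (n := 3) (by norm_num) (by omega)
  refine ⟨fun hs => ?_, fun hs => ?_⟩
  · by_contra hn
    have ve := model_eps L hq5 h0 h1 hs
    have hM : Mult L.v p ((ma j 1 : ℚ) : Qb) ((mb j 1 : ℚ) : Qb) :=
      { two := v2
        three := v3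
        vm := L.val_nat fun h => hqp ((Nat.prime_dvd_prime_iff_eq hq hp).1 h)
        a0 := n1
        b0 := n2
        d0 := n3
        lt := by
          rw [ve]
          exact pow_lt_one₀ zero_le (by norm_num) (by omega) }
    obtain ⟨σ, hσ, k1, k2⟩ := exists_unip clos_rat L.toLoc (a := ma j 1) (b := mb j 1) hM hp
      (by omega) ve (fun hh => hn (by
        have := Int.natCast_dvd_natCast.2 hh
        rw [Int.toNat_of_nonneg (by omega)] at this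
        exact (dvd_neg).1 this))
    exact not_sc_of_unip hp (plane_tors two_ne_zero n3 (by exact_mod_cast hp.ne_zero)) k1 k2
      (hsc σ hσ)
  · have hg := (good2 L hq5 hp h5 hqp (a := ((ma j 1 : ℚ) : Qb)) (b := ((mb j 1 : ℚ) : Qb))
      (fun σ _ => ⟨map_ratCast σ _, map_ratCast σ _⟩) n3 (by
        rw [e1, e3, ← zpow_natCast, ← zpow_mul, half_zpow_le]
        push_cast
        omega)).2.1
    by_contra hn
    obtain ⟨σ, hσ, k⟩ := hg (by
      rintro ⟨n, hn'⟩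
      rw [e3] at hn'
      have := half_zpow_inj hn'
      omega)
    exact k (hsc σ hσ)

end Pool.Agent.P.MP_a60a76_nt.Fs
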