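import Pool.Agent.P.MP_a60a76_nt.Fs.Defs
import Pool.Agent.P.MP_a60a76_nt.Fs.GraphArith
import Pool.Agent.P.MP_a60a76_nt.Fs.Curve
import Pool.Agent.P.MP_a60a76_nt.Fs.Height

namespace Pool.Agent.P.MP_a60a76_nt.Fs

open Polynomial
open scoped NNReal

/-- The rational invariants attached to points of bounded height. -/
theorem oneGraph_tau (A0 : ℝ) : ∃ b : ℕ, 1 ≤ b ∧ ∀ X : ℝ, 2 ≤ X → ∀ p s : ℕ, p.Prime → 5 ≤ p →
    s ≤ p ^ 10 → ∀ A : ℤ, |(A : ℝ)| ≤ X → ∀ (B : ℤ) (j : ℚ), |(B : ℝ)| ≤ √X →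
    (hgt j : ℝ) ≤ X ^ A0 → Par p A B j →
    ∃ (τ : ℚ) (ψ : Tors p ((A : ℚ) : Qb) ((B : ℚ) : Qb) ≃+
      Tors p ((ma j 1 : ℚ) : Qb) ((mb j 1 : ℚ) : Qb)),
      (τ : Qb) = tau p s ψ ∧ (hgt τ : ℝ) ≤ X ^ (b * p ^ 3) := by
  obtain ⟨c0, hc0⟩ := tau_height
  set a : ℕ := ⌈|A0|⌉₊ + 1 with ha
  refine ⟨(a + 1) * (c0 + 1), Nat.one_le_iff_ne_zero.mpr (by positivity),
    fun X hX p s hp h5 hs A hA B j hB hj hP => ?_⟩
  have hX1 : (1 : ℝ) ≤ X := by linarith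
  have hXa : X ≤ X ^ a := le_self_pow₀ hX1 (by omega)
  have hM : X ^ a ≤ (⌈X ^ a⌉₊ : ℝ) := Nat.le_ceil _
  have hsq : √X ≤ X := by
    rw [Real.sqrt_le_left (by linarith)]
    nlinarith
  obtain ⟨hd, -, -, -, ψ, hψ⟩ := hP
  obtain ⟨τ, hτ, hτ'⟩ := hc0 p s ⌈X ^ a⌉₊ A B j hp h5 hs
    (by exact_mod_cast (hX.trans hXa).trans hM)
    (by
      have : ((A.natAbs : ℕ) : ℝ) ≤ ⌈X ^ a⌉₊ := by
        rw [Nat.cast_natAbs, Int.cast_abs]
        linarith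
      exact_mod_cast this)
    (by
      have : ((B.natAbs : ℕ) : ℝ) ≤ ⌈X ^ a⌉₊ := by
        rw [Nat.cast_natAbs, Int.cast_abs]
        linarith
      exact_mod_cast this)
    (by
      have h1 : X ^ A0 ≤ X ^ (a : ℝ) := by
        refine Real.rpow_le_rpow_of_exponent_le hX1 ?_
        have := Nat.le_ceil |A0|
        have := le_abs_self A0
        rw [ha]
        push_cast
        linarith
      rw [Real.rpow_natCast] at h1
      have : (hgt j : ℝ) ≤ ⌈X ^ a⌉₊ := by linarith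
      exact_mod_cast this) hd ψ hψ
  refine ⟨τ, ψ, hτ, ?_⟩
  have h1 : (⌈X ^ a⌉₊ : ℝ) ≤ X ^ (a + 1) := by
    have := Nat.ceil_lt_add_one (show 0 ≤ X ^ a by positivity)
    have h2 : X ^ (a + 1) = X ^ a * X := pow_succ X a
    nlinarith
  calc (hgt τ : ℝ) ≤ (⌈X ^ a⌉₊ : ℝ) ^ (c0 * p ^ 3) := by exact_mod_cast hτ'
    _ ≤ (X ^ (a + 1)) ^ (c0 * p ^ 3) := pow_le_pow_left₀ (Nat.cast_nonneg _) h1 _
    _ = X ^ ((a + 1) * c0 * p ^ 3) := by rw [← pow_mul, mul_assoc]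
    _ ≤ _ := pow_le_pow_right₀ hX1 (by gcongr; omega)

theorem oneGraph_roots (N : ℚ[X]) (hN : N ≠ 0) (S : Finset (ℤ × ℚ))
    (hS : Set.InjOn Prod.fst (S : Set (ℤ × ℚ))) (h : ∀ s ∈ S, N.eval (s.1 : ℚ) = 0) :
    S.card ≤ N.natDegree := by
  classical
  refine le_trans (Finset.card_le_card_of_injOn (t := N.roots.toFinset) (fun s => (s.1 : ℚ))
    ?_ ?_) ((Multiset.toFinset_card_le _).trans (card_roots' _))
  · intro s hs
    rw [Finset.mem_coe, Multiset.mem_toFinset, mem_roots hN]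
    exact h s hs
  · intro s hs t ht hst
    exact hS hs ht (Int.cast_injective (α := ℚ) hst)

theorem one_graph (A0 ε : ℝ) (hε : 0 < ε) : ∃ (c : ℝ) (K : ℕ), ∀ X : ℝ, 2 ≤ X → ∀ p : ℕ, p.Prime →
    11 ≤ p → ∀ A : ℤ, ¬ IsSquare (-3 * A) → |(A : ℝ)| ≤ X → ∀ (P Q : ℤ[X]) (e : ℕ), 1 ≤ e →
    P.natDegree ≤ e → Q.natDegree ≤ e → ∀ S : Finset (ℤ × ℚ),
    Set.InjOn Prod.fst (S : Set (ℤ × ℚ)) →
    (∀ s ∈ S, |(s.1 : ℝ)| ≤ √X ∧ (hgt s.2 : ℝ) ≤ X ^ A0 ∧ Par p A s.1 s.2 ∧ Q.eval s.1 ≠ 0 ∧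
      s.2 * (Q.eval s.1 : ℤ) = (P.eval s.1 : ℤ)) →
    (S.card : ℝ) ≤ c * (e * p : ℝ) ^ K * X ^ (1 / 4 + ε) := by
  classical
  obtain ⟨K1, hK1⟩ := graph_poly
  obtain ⟨b, hb, hτ⟩ := oneGraph_tau A0
  obtain ⟨c1, K2, hc1⟩ := curve ε hε
  refine ⟨|c1| * b ^ K2 + (K2 * b + 1), (K1 + 4) * K2 + (3 * K1 + 5),
    fun X hX p hp h11 A hA hAX P Q e he hP hQ S hS h => ?_⟩
  have hX0 : (0 : ℝ) < X := by linarith
  rcases S.eq_empty_or_nonempty with rfl | ⟨s0, hs0⟩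
  · simp only [Finset.card_empty, Nat.cast_zero]
    positivity
  obtain ⟨-, -, ⟨-, hj0, hj1, hj2, -⟩, hQ0, hPQ⟩ := h s0 hs0
  have hQ0' : ((Q.eval s0.1 : ℤ) : ℚ) ≠ 0 := by exact_mod_cast hQ0
  obtain ⟨s, hs, F, hF0, hF1, hF2, hF3, hF4⟩ := hK1 p hp h11 A hA P Q e he hP hQ
    (by
      rintro rfl
      simp only [eval_zero, Int.cast_zero] at hPQ
      exact mul_ne_zero hj0 hQ0' hPQ)
    (by
      rintro rfl
      simp at hQ0)
    (by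
      intro h0
      have h1 := congrArg (fun f : ℤ[X] => ((f.eval s0.1 : ℤ) : ℚ)) h0
      simp only [eval_sub, eval_mul, eval_ofNat, eval_zero] at h1
      push_cast at h1
      apply hj1
      apply mul_right_cancel₀ hQ0'
      rw [hPQ]
      linarith)
    (by
      intro h0
      have h1 := congrArg (fun f : ℤ[X] => ((f.eval s0.1 : ℤ) : ℚ)) h0
      simp only [dsc, eval_mul, eval_add, eval_pow, eval_C, eval_X, eval_ofNat] at h1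
      apply hj2
      apply mul_right_cancel₀ hQ0'
      simp only [dsc]
      push_cast at h1 ⊢
      rw [← hPQ] at h1
      linear_combination h1)
  have hex : ∀ t : ℤ × ℚ, ∃ τ : ℚ, t ∈ S →
      ∃ ψ : Tors p ((A : ℚ) : Qb) ((t.1 : ℚ) : Qb) ≃+
        Tors p ((ma t.2 1 : ℚ) : Qb) ((mb t.2 1 : ℚ) : Qb),
      (τ : Qb) = tau p s ψ ∧ (hgt τ : ℝ) ≤ X ^ (b * p ^ 3) := by
    intro t
    by_cases ht : t ∈ S
    · obtain ⟨τ, ψ, h1⟩ := hτ X hX p s hp (by omega) hs A hAX t.1 t.2 (h t ht).1 (h t ht).2.1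
        (h t ht).2.2.1
      exact ⟨τ, fun _ => ⟨ψ, h1⟩⟩
    · exact ⟨0, fun h => absurd h ht⟩
  choose τ hτ' using hex
  have hp0 : 0 < p := hp.pos
  have hn : 1 ≤ e * p ^ K1 := Nat.one_le_iff_ne_zero.mpr (by positivity)
  have hκ : 1 ≤ b * p ^ 3 := Nat.one_le_iff_ne_zero.mpr (by positivity)
  obtain ⟨Φ, S0, hΦ, hΦ', hS0, hcov⟩ := hc1 X (e * p ^ K1) (b * p ^ 3)
    (S.image fun t => (t.1, τ t)) F hX hn hκ hF0
    (hF1.trans (Nat.le_mul_of_pos_left _ he)) hF2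
    (by
      intro x hx y hy hxy
      obtain ⟨t, ht, rfl⟩ := Finset.mem_image.mp hx
      obtain ⟨u, hu, rfl⟩ := Finset.mem_image.mp hy
      rw [hS ht hu hxy])
    (by
      intro x hx
      obtain ⟨t, ht, rfl⟩ := Finset.mem_image.mp hx
      obtain ⟨ψ, h1, h2⟩ := hτ' t ht
      obtain ⟨a1, -, ⟨a2, a3, a4, -⟩, a5, a6⟩ := h t ht
      exact ⟨a1, h2, hF3 t.1 t.2 (τ t) ψ a2 a3 a4 a5 a6 h1⟩)
  have hcard : S.card ≤ S0.card + Φ.card * ((K2 * (b * p ^ 3) + e) * p ^ K1) := by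
    have e1 : S ⊆ S.filter (fun t => (t.1, τ t) ∈ S0) ∪ Φ.biUnion fun φ =>
        S.filter fun t => τ t * (φ.2.eval t.1 : ℤ) = (φ.1.eval t.1 : ℤ) := by
      intro t ht
      rcases hcov _ (Finset.mem_image_of_mem _ ht) with h1 | ⟨φ, hφ, -, h1⟩
      · exact Finset.mem_union_left _ (Finset.mem_filter.mpr ⟨ht, h1⟩)
      · exact Finset.mem_union_right _
          (Finset.mem_biUnion.mpr ⟨φ, hφ, Finset.mem_filter.mpr ⟨ht, h1⟩⟩)
    refine (Finset.card_le_card e1).trans ((Finset.card_union_le _ _).trans (add_le_add ?_ ?_))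
    · refine Finset.card_le_card_of_injOn (fun t => (t.1, τ t))
        (fun t ht => (Finset.mem_filter.mp ht).2) ?_
      intro t ht u hu htu
      exact hS (Finset.mem_filter.mp ht).1 (Finset.mem_filter.mp hu).1 (Prod.ext_iff.mp htu).1
    · refine Finset.card_biUnion_le_card_mul _ _ _ fun φ hφ => ?_
      obtain ⟨b1, b2, b3, -⟩ := hΦ' φ hφ
      obtain ⟨N, hN0, hN1, hN2⟩ := hF4 _ φ.1 φ.2 b1 b2 b3
      refine (oneGraph_roots N hN0 _ (hS.mono (Finset.coe_subset.mpr (Finset.filter_subset _ _)))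
        fun t ht => ?_).trans hN1
      obtain ⟨ht, ht'⟩ := Finset.mem_filter.mp ht
      obtain ⟨ψ, h1, -⟩ := hτ' t ht
      obtain ⟨-, -, ⟨a2, a3, a4, -⟩, a5, a6⟩ := h t ht
      exact hN2 t.1 t.2 (τ t) ψ a2 a3 a4 a5 a6 h1 ht'
  set w := e * p with hw
  have hw1 : 1 ≤ w := Nat.one_le_iff_ne_zero.mpr (by positivity)
  have hew : e ≤ w := Nat.le_mul_of_pos_right _ hp0
  have hpw : p ≤ w := Nat.le_mul_of_pos_left _ he
  have f1 : e * p ^ K1 ≤ w ^ (K1 + 1) := by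
    rw [pow_succ']
    gcongr
  have f2 : (e * p ^ K1 * (b * p ^ 3)) ^ K2 ≤ b ^ K2 * w ^ ((K1 + 4) * K2 + (3 * K1 + 5)) := by
    calc _ ≤ (w ^ (K1 + 1) * (b * w ^ 3)) ^ K2 := by gcongr
      _ = b ^ K2 * w ^ ((K1 + 4) * K2) := by ring
      _ ≤ _ := Nat.mul_le_mul_left _ (Nat.pow_le_pow_right hw1 (Nat.le_add_right _ _))
  have f3 : Φ.card * ((K2 * (b * p ^ 3) + e) * p ^ K1) ≤
      (K2 * b + 1) * w ^ ((K1 + 4) * K2 + (3 * K1 + 5)) := by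
    have : e ≤ w ^ 3 := hew.trans (Nat.le_self_pow (by norm_num) _)
    calc _ ≤ (w ^ (K1 + 1)) ^ 2 * ((K2 * (b * w ^ 3) + w ^ 3) * w ^ K1) := by
          gcongr
          exact hΦ.trans (by gcongr)
      _ = (K2 * b + 1) * w ^ (3 * K1 + 5) := by ring
      _ ≤ _ := Nat.mul_le_mul_left _ (Nat.pow_le_pow_right hw1 (Nat.le_add_left _ _))
  have hone : (1 : ℝ) ≤ X ^ (1 / 4 + ε) := Real.one_le_rpow (by linarith) (by positivity)
  have g1 : (S0.card : ℝ) ≤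
      |c1| * b ^ K2 * (w : ℝ) ^ ((K1 + 4) * K2 + (3 * K1 + 5)) * X ^ (1 / 4 + ε) := by
    refine hS0.trans (mul_le_mul_of_nonneg_right ?_ (by positivity))
    rw [mul_assoc]
    refine mul_le_mul (le_abs_self _) (by exact_mod_cast f2) (by positivity) (abs_nonneg _)
  have g2 : (S.card : ℝ) ≤ S0.card +
      (K2 * b + 1) * (w : ℝ) ^ ((K1 + 4) * K2 + (3 * K1 + 5)) := by
    exact_mod_cast hcard.trans (Nat.add_le_add_left f3 _)
  have g3 : (K2 * b + 1) * (w : ℝ) ^ ((K1 + 4) * K2 + (3 * K1 + 5)) ≤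
      (K2 * b + 1) * (w : ℝ) ^ ((K1 + 4) * K2 + (3 * K1 + 5)) * X ^ (1 / 4 + ε) :=
    le_mul_of_one_le_right (by positivity) hone
  have hw' : (e * p : ℝ) = (w : ℝ) := by rw [hw]; push_cast; ring
  rw [hw']
  linarith [add_mul (|c1| * b ^ K2) (K2 * b + 1)
    ((w : ℝ) ^ ((K1 + 4) * K2 + (3 * K1 + 5)) * X ^ (1 / 4 + ε))]

end Pool.Agent.P.MP_a60a76_nt.Fs
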