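import Pool.Agent.P.MP_a60a76_nt.Fs.Defs
import Pool.Agent.P.MP_a60a76_nt.Fs.Cover
import Pool.Agent.P.MP_a60a76_nt.Fs.SurfCls

namespace Pool.Agent.P.MP_a60a76_nt.Fs

open Polynomial
open scoped NNReal

theorem surf_gamma (A0 γ : ℝ) (d : ℕ) (hγ : 0 < γ) (h : 9 * A0 < 8 * d * γ ^ 2) :
    ∃ γ' : ℝ, 0 < γ' ∧ γ' < γ ∧ 9 * A0 < 8 * d * γ' ^ 2 := by
  have h1 : ∀ᶠ t in nhds γ, 9 * A0 < 8 * d * t ^ 2 :=
    ContinuousAt.eventually_lt continuousAt_const (by fun_prop) h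
  have h2 : ∀ᶠ t in nhds γ, 0 < t := lt_mem_nhds hγ
  have h3 : ∀ᶠ t in nhdsWithin γ (Set.Iio γ), t < γ := self_mem_nhdsWithin
  obtain ⟨t, ht⟩ := (((h1.and h2).filter_mono nhdsWithin_le_nhds).and h3).exists
  exact ⟨t, ht.1.2, ht.2, ht.1.1⟩

theorem surf_degB {R : Type*} [CommRing R] {n1 n2 m1 m2 : ℕ} {F : R[X][X][X]} (h : DegB n1 n2 F)
    (h1 : n1 ≤ m1) (h2 : n2 ≤ m2) : DegB m1 m2 F := fun i => ⟨(h i).1.trans h1, (h i).2.trans h2⟩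

theorem surf_bound {c0 a k γ δ X w n r lg : ℝ} (hc : 1 ≤ c0) (ha : 0 ≤ a) (hk : 0 ≤ k)
    (hγ : 0 < γ) (hδ : 0 < δ) (hX : 2 ≤ X) (hw : 1 ≤ w) (hn0 : 0 ≤ n) (hn : n ≤ w) (hr0 : 0 ≤ r)
    (hr : r ≤ k * w ^ 2) (hl0 : 0 ≤ lg) (hl : lg ≤ a * w * Real.log X) :
    c0 * n ^ 8 * lg * (max (r * X ^ γ) (c0 * n ^ 6 * lg + 1)) ^ 2 + 1 ≤
      (c0 * (a / (2 * δ)) * (k + c0 * (a / γ) + 1) ^ 2 + 1) * w ^ 23 * X ^ (2 * (γ + δ)) := by
  have hX0 : 0 < X := by linarith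
  have hw0 : 0 ≤ w := by linarith
  have e1 : 1 ≤ X ^ γ := Real.one_le_rpow (by linarith) hγ.le
  have e2 : lg ≤ a / γ * w * X ^ γ := by
    have := Real.log_le_rpow_div hX0.le hγ
    calc lg ≤ a * w * Real.log X := hl
      _ ≤ a * w * (X ^ γ / γ) := by gcongr
      _ = _ := by ring
  have e3 : lg ≤ a / (2 * δ) * w * X ^ (2 * δ) := by
    have := Real.log_le_rpow_div hX0.le (by positivity : 0 < 2 * δ)
    calc lg ≤ a * w * Real.log X := hl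
      _ ≤ a * w * (X ^ (2 * δ) / (2 * δ)) := by gcongr
      _ = _ := by ring
  have e4 : 1 ≤ w ^ 7 := one_le_pow₀ hw
  have e5 : w ^ 2 ≤ w ^ 7 := pow_le_pow_right₀ hw (by norm_num)
  have e6 : max (r * X ^ γ) (c0 * n ^ 6 * lg + 1) ≤ (k + c0 * (a / γ) + 1) * w ^ 7 * X ^ γ := by
    have f1 : r * X ^ γ ≤ k * w ^ 7 * X ^ γ := by
      gcongr
      exact hr.trans (by gcongr)
    have f2 : c0 * n ^ 6 * lg ≤ c0 * (a / γ) * w ^ 7 * X ^ γ :=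
      calc c0 * n ^ 6 * lg ≤ c0 * w ^ 6 * (a / γ * w * X ^ γ) := by gcongr
        _ = _ := by ring
    have f3 : 1 ≤ w ^ 7 * X ^ γ := one_le_mul_of_one_le_of_one_le e4 e1
    have f4 : 0 ≤ r * X ^ γ := by positivity
    have f5 : 0 ≤ c0 * n ^ 6 * lg := by positivity
    apply max_le <;> nlinarith
  have e7 : X ^ (2 * (γ + δ)) = X ^ (2 * δ) * (X ^ γ) ^ 2 := by
    rw [← Real.rpow_natCast, ← Real.rpow_mul hX0.le, ← Real.rpow_add hX0]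
    congr 1; push_cast; ring
  have e8 : 1 ≤ w ^ 23 * X ^ (2 * (γ + δ)) :=
    one_le_mul_of_one_le_of_one_le (one_le_pow₀ hw) (Real.one_le_rpow (by linarith) (by positivity))
  have e9 : c0 * n ^ 8 * lg * (max (r * X ^ γ) (c0 * n ^ 6 * lg + 1)) ^ 2 ≤
      c0 * w ^ 8 * (a / (2 * δ) * w * X ^ (2 * δ)) *
        ((k + c0 * (a / γ) + 1) * w ^ 7 * X ^ γ) ^ 2 := by
    have : 0 ≤ max (r * X ^ γ) (c0 * n ^ 6 * lg + 1) := le_max_of_le_left (by positivity)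
    gcongr
  have e10 : c0 * w ^ 8 * (a / (2 * δ) * w * X ^ (2 * δ)) *
        ((k + c0 * (a / γ) + 1) * w ^ 7 * X ^ γ) ^ 2
      = c0 * (a / (2 * δ)) * (k + c0 * (a / γ) + 1) ^ 2 * w ^ 23 * X ^ (2 * (γ + δ)) := by
    rw [e7]; ring
  rw [e10] at e9
  linarith

theorem surf (A0 γ : ℝ) (d : ℕ) (hA : 0 < A0) (hγ : 0 < γ) (h : 9 * A0 < 8 * d * γ ^ 2) :
    ∃ (c : ℝ) (K : ℕ), ∀ (X : ℝ) (n κ : ℕ) (S : Finset (ℤ × ℚ × ℚ)) (F : ℚ[X][X][X]),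
      2 ≤ X → 1 ≤ n → 1 ≤ κ → F ≠ 0 → F.natDegree ≤ n → DegB n n F →
      (∀ s ∈ S, |(s.1 : ℝ)| ≤ √X ∧ (hgt s.2.1 : ℝ) ≤ X ^ A0 ∧ (hgt s.2.2 : ℝ) ≤ X ^ κ ∧
        ev3 F s.1 s.2.1 s.2.2 = 0) →
      ∃ 𝒜 : Finset ℚ[X][X][X], (𝒜.card : ℝ) ≤ c * (n * κ : ℝ) ^ K * X ^ (2 * γ) ∧
        (∀ G ∈ 𝒜, G ≠ 0 ∧ G.natDegree < d ∧ DegB (K * n * κ) (K * n * κ) G) ∧
        ∀ s ∈ S, ∃ G ∈ 𝒜, ev3 G s.1 s.2.1 s.2.2 = 0 := by
  classical
  have hd : 0 < d := by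
    rcases Nat.eq_zero_or_pos d with rfl | hd
    · simp at h; linarith
    · exact hd
  obtain ⟨γ', hγ0, hγ1, h'⟩ := surf_gamma A0 γ d hγ h
  obtain ⟨K0, hK0⟩ := num_opt A0 γ' d hA hγ0 h'
  obtain ⟨c0, hc0, hcov⟩ := cover
  set a : ℝ := (⌈A0⌉₊ : ℝ) + 2 with ha
  have ha0 : 0 ≤ a := by positivity
  refine ⟨c0 * (a / (2 * (γ - γ'))) * ((K0 : ℝ) ^ 2 * d + c0 * (a / γ') + 1) ^ 2 + 1, K0 + 23,
    fun X n κ S F hX hn hκ hF hFn hFd hS => ?_⟩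
  obtain ⟨U, V, D, hU, hV, hUK, hVK, h1, h2⟩ := hK0 κ hκ
  have hX1 : 1 ≤ X := by linarith
  set m : ℕ := (⌈A0⌉₊ + 1) * κ with hm
  have hm1 : κ ≤ m := Nat.le_mul_of_pos_left _ (Nat.succ_pos _)
  have hm2 : A0 ≤ m := by
    have h3 : ⌈A0⌉₊ + 1 ≤ m := Nat.le_mul_of_pos_right _ hκ
    have h4 : ((⌈A0⌉₊ + 1 : ℕ) : ℝ) ≤ m := by exact_mod_cast h3
    have h5 := Nat.le_ceil A0
    push_cast at h4
    linarith
  have hXm : X ≤ X ^ m := le_self_pow₀ hX1 (by omega)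
  set H : ℕ := ⌈X ^ m⌉₊ with hH
  have hH1 : X ^ m ≤ H := Nat.le_ceil _
  have hH2 : (H : ℝ) ≤ X ^ (m + 1) := by
    have := Nat.ceil_lt_add_one (by positivity : 0 ≤ X ^ m)
    rw [pow_succ]
    nlinarith
  have hH3 : (2 : ℝ) ≤ H := hX.trans (hXm.trans hH1)
  have hn' : (1 : ℝ) ≤ n := by exact_mod_cast hn
  have hκ' : (1 : ℝ) ≤ κ := by exact_mod_cast hκ
  have hw : (1 : ℝ) ≤ n * κ := one_le_mul_of_one_le_of_one_le hn' hκ'
  have hκw : (κ : ℝ) ≤ n * κ := le_mul_of_one_le_left (by positivity) hn'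
  have hnw : (n : ℝ) ≤ n * κ := le_mul_of_one_le_right (by positivity) hκ'
  have hlog : Real.log H ≤ a * (n * κ) * Real.log X := by
    have h3 : Real.log H ≤ Real.log (X ^ (m + 1)) := Real.log_le_log (by linarith) hH2
    rw [Real.log_pow] at h3
    refine h3.trans (mul_le_mul_of_nonneg_right ?_ (Real.log_nonneg hX1))
    have h4 : a * κ ≤ a * (n * κ) := by gcongr
    refine le_trans ?_ h4
    rw [hm, ha]
    push_cast
    nlinarith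
  obtain ⟨F0, 𝒢, 𝒞, hF0, hF1, hF2, -, -, hC, hcover, hcard, -⟩ :=
    hcov n n H (max ((U * V * d : ℝ) * X ^ γ') (c0 * n ^ 6 * Real.log H + 1)) S F hn le_rfl
      (by exact_mod_cast hH3) (lt_max_of_lt_right (lt_add_one _)) hF hFn hFd fun s hs => by
        obtain ⟨p1, p2, p3, p4⟩ := hS s hs
        refine ⟨?_, ?_, ?_, p4⟩
        · have h3 : √X ≤ X := Real.sqrt_le_self_iff.mpr (Or.inr hX1)
          have h4 : ((s.1.natAbs : ℕ) : ℝ) ≤ H := by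
            rw [Nat.cast_natAbs, Int.cast_abs]
            linarith
          exact_mod_cast h4
        · have h3 : X ^ A0 ≤ X ^ m := by
            rw [← Real.rpow_natCast]
            exact Real.rpow_le_rpow_of_exponent_le hX1 hm2
          exact_mod_cast p2.trans (h3.trans hH1)
        · exact_mod_cast p3.trans ((pow_le_pow_right₀ hX1 hm1).trans hH1)
  have hg : ∀ T ∈ 𝒞, ∃ G : ℚ[X][X][X], G ≠ 0 ∧ G.natDegree < d ∧ DegB U V G ∧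
      ∀ s ∈ T, ev3 G s.1 s.2.1 s.2.2 = 0 := by
    intro T hT
    obtain ⟨hTS, l, hl, hL, G, -, hG⟩ := hC T hT
    exact surf_cls hl hG X A0 γ' U V d D κ hX hA.le hγ0 hU hV hd
      (fun s hs => ⟨(hS s (hTS hs)).1, (hS s (hTS hs)).2.1, (hS s (hTS hs)).2.2.1⟩) h1 h2
      ((le_max_left _ _).trans hL.le)
  choose! g hg using hg
  have hKκ : K0 * κ ≤ (K0 + 23) * n * κ :=
    Nat.mul_le_mul_right _ ((Nat.le_add_right _ _).trans (Nat.le_mul_of_pos_right _ hn))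
  have hnK : n ≤ (K0 + 23) * n * κ :=
    (Nat.le_mul_of_pos_left _ (by omega)).trans (Nat.le_mul_of_pos_right _ hκ)
  refine ⟨insert (C F0) (𝒞.image g), ?_, fun G hG => ?_, fun s hs => ?_⟩
  · have h3 : ((insert (C F0) (𝒞.image g)).card : ℝ) ≤ 𝒞.card + 1 := by
      exact_mod_cast (Finset.card_insert_le _ _).trans
        (Nat.add_le_add_right Finset.card_image_le 1)
    have h4 : (U * V * d : ℝ) ≤ (K0 : ℝ) ^ 2 * d * (n * κ) ^ 2 := by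
      have h5 : (U : ℝ) ≤ K0 * (n * κ) := by
        have : (U : ℝ) ≤ K0 * κ := by exact_mod_cast hUK
        exact this.trans (by gcongr)
      have h6 : (V : ℝ) ≤ K0 * (n * κ) := by
        have : (V : ℝ) ≤ K0 * κ := by exact_mod_cast hVK
        exact this.trans (by gcongr)
      calc (U * V * d : ℝ) ≤ K0 * (n * κ) * (K0 * (n * κ)) * d := by gcongr
        _ = _ := by ring
    have h5 := surf_bound hc0 ha0 (by positivity : 0 ≤ (K0 : ℝ) ^ 2 * d) hγ0 (sub_pos.2 hγ1) hX hw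
      (by positivity) hnw (by positivity) h4 (Real.log_nonneg (by linarith)) hlog
    rw [add_sub_cancel] at h5
    refine (h3.trans ((add_le_add_left hcard 1).trans h5)).trans ?_
    have h6 : ((n : ℝ) * κ) ^ 23 ≤ (n * κ) ^ (K0 + 23) := pow_le_pow_right₀ hw (by omega)
    have h7 : 0 < γ - γ' := sub_pos.2 hγ1
    gcongr
  · rcases Finset.mem_insert.1 hG with rfl | hG
    · refine ⟨C_ne_zero.2 hF0, by rw [natDegree_C]; exact hd, fun i => ?_⟩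
      rw [coeff_C]
      split_ifs
      · exact ⟨hF1.trans hnK, hF2.trans hnK⟩
      · simp [dX]
    · obtain ⟨T, hT, rfl⟩ := Finset.mem_image.1 hG
      exact ⟨(hg T hT).1, (hg T hT).2.1,
        surf_degB (hg T hT).2.2.1 (hUK.trans hKκ) (hVK.trans hKκ)⟩
  · rcases hcover s hs with h3 | ⟨T, hT, hsT⟩
    · refine ⟨C F0, Finset.mem_insert_self _ _, ?_⟩
      rw [ev3, map_C, eval_C]
      exact h3
    · exact ⟨g T, Finset.mem_insert_of_mem (Finset.mem_image_of_mem g hT), (hg T hT).2.2.2 s hsT⟩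

end Pool.Agent.P.MP_a60a76_nt.Fs
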