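import Pool.Agent.P.MP_a60a76_nt.Fs.Defs
import Pool.Agent.P.MP_a60a76_nt.Fs.Norm
import Pool.Agent.P.MP_a60a76_nt.Fs.Special
import Pool.Agent.P.MP_a60a76_nt.Fs.DegBound
import Pool.Agent.P.MP_a60a76_nt.Fs.Big
import Pool.Agent.P.MP_a60a76_nt.Fs.Mon
import Pool.Agent.P.MP_a60a76_nt.Fs.Tower

namespace Pool.Agent.P.MP_a60a76_nt.Fs

open Polynomial
open scoped NNReal

theorem surfArith_dsc {R : Type*} [CommRing R] (n d : R) :
    dsc (ma n d) (mb n d) = 186624 * n ^ 2 * (1728 * d - n) ^ 3 * d := by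
  simp only [dsc, ma, mb]; ring

theorem surfArith_map_ma {R S : Type*} [CommRing R] [CommRing S] (f : R →+* S) (n d : R) :
    f (ma n d) = ma (f n) (f d) := by
  simp [ma, map_ofNat]

theorem surfArith_map_mb {R S : Type*} [CommRing R] [CommRing S] (f : R →+* S) (n d : R) :
    f (mb n d) = mb (f n) (f d) := by
  simp [mb, map_ofNat]

theorem surfArith_map_dsc {R S : Type*} [CommRing R] [CommRing S] (f : R →+* S) (a b : R) :
    f (dsc a b) = dsc (f a) (f b) := by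
  simp [dsc, map_ofNat]

theorem surfArith_sub_ne {k : Type*} [CommRing k] [Nontrivial k] :
    (1728 * 1 - X : k[X]) ≠ 0 := by
  intro h
  have := congrArg (fun f : k[X] => f.coeff 1) h
  simp [coeff_X, ← map_ofNat C 1728] at this

theorem surfArith_model_ne {k : Type*} [CommRing k] [IsDomain k] [CharZero k] :
    dsc (ma (X : k[X]) 1) (mb X 1) ≠ 0 := by
  rw [surfArith_dsc]
  refine mul_ne_zero (mul_ne_zero (mul_ne_zero ?_ (pow_ne_zero _ X_ne_zero))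
    (pow_ne_zero _ surfArith_sub_ne)) one_ne_zero
  exact_mod_cast (by norm_num : (186624 : ℕ) ≠ 0)

theorem surfArith_one_ne {A : ℚ} : dsc (C A) (X : ℚ[X]) ≠ 0 := by
  intro h
  have e : dsc (C A) (X : ℚ[X]) = C (4 * A ^ 3) + C 27 * X ^ 2 := by
    simp [dsc, map_ofNat]
  rw [e] at h
  have := congrArg (fun f : ℚ[X] => f.coeff 2) h
  simp only [coeff_add, coeff_C, coeff_C_mul, coeff_X_pow, coeff_zero] at this
  norm_num at this

theorem surfArith_dX_C (f : ℚ[X]) : dX (C f : ℚ[X][X]) = f.natDegree := by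
  rw [dX, Polynomial.Bivariate.swap_C]
  exact natDegree_map_eq_of_injective C_injective f

theorem surfArith_dX_ma : dX (ma (X : ℚ[X][X]) 1) = 0 := by
  have e : Polynomial.Bivariate.swap (ma (X : ℚ[X][X]) 1) = C (ma X 1) := by
    rw [surfArith_map_ma C]
    simp only [ma, map_mul, map_sub, map_ofNat, map_one, Polynomial.Bivariate.swap_Y]
  rw [dX, e, natDegree_C]

theorem surfArith_dX_mb : dX (mb (X : ℚ[X][X]) 1) = 0 := by
  have e : Polynomial.Bivariate.swap (mb (X : ℚ[X][X]) 1) = C (mb X 1) := by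
    rw [surfArith_map_mb C]
    simp only [mb, map_mul, map_sub, map_pow, map_ofNat, map_one, Polynomial.Bivariate.swap_Y]
  rw [dX, e, natDegree_C]

theorem surfArith_deg_ma : (ma (X : ℚ[X][X]) 1).natDegree ≤ 2 * 1 := by
  unfold ma; compute_degree

theorem surfArith_deg_mb : (mb (X : ℚ[X][X]) 1).natDegree ≤ 3 * 1 := by
  unfold mb; compute_degree

theorem surfArith_generic (p : ℕ) (hp : p.Prime) (h5 : 5 ≤ p) (A : ℚ) :
    ∃ (Ω : Type) (_ : Field Ω) (ι : ℚ[X][X] →+* Ω),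
      Pair ι p (C (C A)) (C X) (ma X 1) (mb X 1) ∧
      Big ι p (ι (C (C A))) (ι (C X)) (ι (ma X 1)) (ι (mb X 1)) (p * (p ^ 2 - 1) / 2) ∧
      ∃ s ≤ p ^ 10, Sepa p s (ι (C (C A))) (ι (C X)) (ι (ma X 1)) (ι (mb X 1)) := by
  obtain ⟨φ, hφ⟩ := exists_clos ℚ
  set k := AlgebraicClosure (RatFunc ℚ) with hk
  obtain ⟨ι0, hι0⟩ := exists_clos k
  set Ω := AlgebraicClosure (RatFunc k) with hΩ
  have hι := clos_comp hφ hι0
  set ι := ι0.comp (mapRingHom φ) with hιdef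
  have : CharZero k := charZero_of_injective_ringHom hφ.inj
  have : CharZero Ω := charZero_of_injective_ringHom hι.inj
  have : IsAlgClosed Ω := hι.closed
  have hp0 : p ≠ 0 := hp.ne_zero
  have d1 : dsc (C (C A)) (C X : ℚ[X][X]) ≠ 0 := by
    rw [← surfArith_map_dsc C]
    exact C_ne_zero.2 surfArith_one_ne
  have d2 : dsc (ma (X : ℚ[X][X]) 1) (mb X 1) ≠ 0 := surfArith_model_ne
  have hpair : Pair ι p (C (C A)) (C X) (ma X 1) (mb X 1) :=
    { clos := hι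
      two := two_ne_zero
      prime := hp
      five := h5
      unit := by
        have : IsUnit (p : ℚ) := IsUnit.mk0 _ (by exact_mod_cast hp0)
        simpa using (this.map (C : ℚ →+* ℚ[X])).map (C : ℚ[X] →+* ℚ[X][X])
      d1 := d1
      d2 := d2 }
  have d1' : dsc (ι (C (C A))) (ι (C X)) ≠ 0 := by
    rw [← surfArith_map_dsc]
    exact (map_ne_zero_iff ι hι.inj).2 d1
  have d2' : dsc (ι (ma X 1)) (ι (mb X 1)) ≠ 0 := by
    rw [← surfArith_map_dsc]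
    exact (map_ne_zero_iff ι hι.inj).2 d2
  have hpΩ : (p : Ω) ≠ 0 := by exact_mod_cast hp0
  have hpk : (p : k) ≠ 0 := by exact_mod_cast hp0
  have e1 : ι (C (C A)) = ι0 (C (φ (C A))) := by simp [hιdef]
  have e2 : ι (C X) = ι0 (C (φ X)) := by simp [hιdef]
  have e3 : ι (ma X 1) = ι0 (ma X 1) := by
    rw [hιdef, RingHom.comp_apply, surfArith_map_ma]; simp
  have e4 : ι (mb X 1) = ι0 (mb X 1) := by
    rw [hιdef, RingHom.comp_apply, surfArith_map_mb]; simp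
  have hJ : JDeg p (ma (X : k[X]) 1) (mb X 1) :=
    jdeg_model two_ne_zero three_ne_zero isCoprime_one_right X_ne_zero one_ne_zero
      surfArith_sub_ne (by simp) (by simp; omega)
  have hM := mon_of_deg hι0 two_ne_zero three_ne_zero hp h5 hpk hJ
  have hd0 : dsc (φ (C A)) (φ X) ≠ 0 := by
    rw [← surfArith_map_dsc]
    exact (map_ne_zero_iff φ hφ.inj).2 surfArith_one_ne
  have hmis := mis_const hι0 two_ne_zero hp hpk surfArith_model_ne hM hd0
  have hpl2 : Plane p (Tors p (ι (ma X 1)) (ι (mb X 1))) := plane_tors two_ne_zero d2' hpΩ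
  have hpl1 : Plane p (Tors p (ι (C (C A))) (ι (C X))) := plane_tors two_ne_zero d1' hpΩ
  have hpl2' : Plane p (Tors p (ι0 (ma X 1)) (ι0 (mb X 1))) := by
    rw [← e3, ← e4]; exact hpl2
  have hbig := (big_of_mon hp h5 hpl2' hM hmis).2
  refine ⟨Ω, inferInstance, ι, hpair, ?_, exists_sepa two_ne_zero hp hpl1 hpl2 ?_⟩
  · rw [e1, e2, e3, e4]
    exact big_comp (mapRingHom φ) hbig
  · intro n hn _
    exact_mod_cast hn.ne'

theorem surfArith_ev (B j τ : ℚ) (F : ℚ[X][X][X]) :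
    F.eval₂ ((algebraMap ℚ Qb).comp (evalEvalRingHom B j)) (τ : Qb) =
      algebraMap ℚ Qb (ev3 F B j τ) := by
  rw [ev3, ← eval₂_eq_eval_map, hom_eval₂, eq_ratCast]

theorem surf_poly : ∃ K : ℕ, ∀ p : ℕ, p.Prime → 5 ≤ p → ∀ A : ℤ, A ≠ 0 →
    ∃ s ≤ p ^ 10, ∃ F : ℚ[X][X][X], F ≠ 0 ∧ F.natDegree ≤ p ^ K ∧ DegB (p ^ K) (p ^ K) F ∧
      (∀ (B : ℤ) (j τ : ℚ)
        (ψ : Tors p ((A : ℚ) : Qb) ((B : ℚ) : Qb) ≃+ Tors p ((ma j 1 : ℚ) : Qb) ((mb j 1 : ℚ) : Qb)),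
        dsc A B ≠ 0 → j ≠ 0 → j ≠ 1728 → (τ : Qb) = tau p s ψ → ev3 F B j τ = 0) ∧
      ∀ (n : ℕ) (G : ℚ[X][X][X]), G ≠ 0 → G.natDegree < p * (p ^ 2 - 1) / 2 → DegB n n G →
        ∃ N : ℚ[X][X], N ≠ 0 ∧ N.natDegree ≤ (n + 1) * p ^ K ∧ dX N ≤ (n + 1) * p ^ K ∧
          ∀ (B : ℤ) (j τ : ℚ)
            (ψ : Tors p ((A : ℚ) : Qb) ((B : ℚ) : Qb) ≃+
              Tors p ((ma j 1 : ℚ) : Qb) ((mb j 1 : ℚ) : Qb)),
            dsc A B ≠ 0 → j ≠ 0 → j ≠ 1728 → (τ : Qb) = tau p s ψ → ev3 G B j τ = 0 →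
            N.evalEval (B : ℚ) j = 0 := by
  refine ⟨10, fun p hp h5 A _ => ?_⟩
  obtain ⟨Ω, _, ι, hpair, hbig, s, hs, hsep⟩ :=
    surfArith_generic p hp h5 (A : ℚ)
  obtain ⟨T, hT, hTc⟩ := exists_vals hpair s
  obtain ⟨F, hFm, hF⟩ := exists_minF hpair hT
  have hp1 : 1 ≤ p := hp.one_le
  have hT4 : T.card ≤ p ^ 4 := by
    have : (p ^ 2 - 1) * (p ^ 2 - p) ≤ p ^ 2 * p ^ 2 :=
      Nat.mul_le_mul (Nat.sub_le _ _) (Nat.sub_le _ _)
    calc T.card ≤ 2 * T.card := by omega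
      _ ≤ p ^ 2 * p ^ 2 := hTc.trans this
      _ = p ^ 4 := by ring
  have hp3 : 1 * (p ^ 2 + 1) ≤ p ^ 3 := by
    have : 1 ≤ p ^ 2 := Nat.one_le_pow _ _ hp1
    calc 1 * (p ^ 2 + 1) ≤ 2 * p ^ 2 := by omega
      _ ≤ p * p ^ 2 := Nat.mul_le_mul_right _ (by omega)
      _ = p ^ 3 := by ring
  have hp7 : 1 * (p ^ 2 + 1) * T.card ≤ p ^ 10 :=
    calc 1 * (p ^ 2 + 1) * T.card ≤ p ^ 3 * p ^ 4 := Nat.mul_le_mul hp3 hT4
      _ = p ^ 7 := by ring
      _ ≤ p ^ 10 := Nat.pow_le_pow_right hp1 (by norm_num)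
  obtain ⟨u1, u2, -⟩ := deg_bounds hpair natDegree natDegree_zero
    (fun x y hx hy => natDegree_mul hx hy) natDegree_add_le X natDegree_X (δ := 1)
    (by simp) (by simp) surfArith_deg_ma surfArith_deg_mb hT
  obtain ⟨w1, w2, -⟩ := deg_bounds hpair dX dX_zero dX_mul dX_add (C X)
    (by rw [surfArith_dX_C, natDegree_X]) (δ := 1)
    (by rw [surfArith_dX_C]; simp) (by rw [surfArith_dX_C]; simp)
    (by rw [surfArith_dX_ma]; simp) (by rw [surfArith_dX_mb]; simp) hT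
  have hFdeg : F.natDegree = T.card := by
    rw [← natDegree_map_eq_of_injective hpair.clos.inj F, hF,
      natDegree_prod_of_monic _ _ (fun t _ => monic_X_sub_C t)]
    simp
  have hspec : ∀ (B : ℤ) (j : ℚ), dsc A B ≠ 0 → j ≠ 0 → j ≠ 1728 →
      ((algebraMap ℚ Qb).comp (evalEvalRingHom (B : ℚ) j)) (C (C (A : ℚ))) = ((A : ℚ) : Qb) ∧
      ((algebraMap ℚ Qb).comp (evalEvalRingHom (B : ℚ) j)) (C X) = ((B : ℚ) : Qb) ∧
      ((algebraMap ℚ Qb).comp (evalEvalRingHom (B : ℚ) j)) (ma X 1) = ((ma j 1 : ℚ) : Qb) ∧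
      ((algebraMap ℚ Qb).comp (evalEvalRingHom (B : ℚ) j)) (mb X 1) = ((mb j 1 : ℚ) : Qb) ∧
      dsc ((A : ℚ) : Qb) ((B : ℚ) : Qb) ≠ 0 ∧
      dsc ((ma j 1 : ℚ) : Qb) ((mb j 1 : ℚ) : Qb) ≠ 0 := by
    intro B j hd hj hj'
    refine ⟨by simp, by simp, ?_, ?_, ?_, ?_⟩
    · rw [RingHom.comp_apply, surfArith_map_ma, eq_ratCast]; simp
    · rw [RingHom.comp_apply, surfArith_map_mb, eq_ratCast]; simp
    · have := surfArith_map_dsc (Int.castRingHom Qb) A B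
      simp only [eq_intCast] at this
      rw [Rat.cast_intCast, Rat.cast_intCast, ← this]
      exact_mod_cast hd
    · have := surfArith_map_dsc (algebraMap ℚ Qb) (ma j 1) (mb j 1)
      simp only [eq_ratCast] at this
      rw [← this, surfArith_dsc]
      have h1 : (1728 * 1 - j : ℚ) ≠ 0 := by
        intro h; apply hj'; linarith
      have : (186624 * j ^ 2 * (1728 * 1 - j) ^ 3 * 1 : ℚ) ≠ 0 := by positivity
      exact_mod_cast this
  refine ⟨s, hs, F, hFm.ne_zero, ?_, ?_, ?_, ?_⟩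
  · rw [hFdeg]
    exact hT4.trans (Nat.pow_le_pow_right hp1 (by norm_num))
  · intro i
    by_cases h0 : F.coeff i = 0
    · rw [h0, dX_zero, natDegree_zero]; simp
    · exact ⟨(Nat.le_add_right _ _).trans ((w1 F hF i h0).trans hp7),
        (Nat.le_add_right _ _).trans ((u1 F hF i h0).trans hp7)⟩
  · intro B j τ ψ hd hj hj' hτ
    obtain ⟨e1, e2, e3, e4, d1, d2⟩ := hspec B j hd hj hj'
    have := spec_root hpair _ two_ne_zero e1 e2 e3 e4 d1 d2 hT hF ψ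
    rw [← hτ, surfArith_ev] at this
    exact (map_eq_zero _).1 this
  · intro n G hG hGd hGb
    obtain ⟨N, hN⟩ := exists_norm hpair hT G
    have hG3 : G.natDegree ≤ p ^ 3 := by
      have h1 : p * (p ^ 2 - 1) / 2 ≤ p * (p ^ 2 - 1) := Nat.div_le_self _ _
      have h2 : p * (p ^ 2 - 1) ≤ p * p ^ 2 := Nat.mul_le_mul_left _ (Nat.sub_le _ _)
      have h3 : p * p ^ 2 = p ^ 3 := by ring
      omega
    have hb : T.card * (n + 1 * (p ^ 2 + 1) * G.natDegree) ≤ (n + 1) * p ^ 10 := by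
      have h4 : p ^ 4 ≤ p ^ 10 := Nat.pow_le_pow_right hp1 (by norm_num)
      calc T.card * (n + 1 * (p ^ 2 + 1) * G.natDegree) ≤ p ^ 4 * (n + p ^ 3 * p ^ 3) :=
            Nat.mul_le_mul hT4 (Nat.add_le_add_left (Nat.mul_le_mul hp3 hG3) _)
        _ = n * p ^ 4 + p ^ 10 := by ring
        _ ≤ n * p ^ 10 + p ^ 10 := Nat.add_le_add_right (Nat.mul_le_mul_left _ h4) _
        _ = (n + 1) * p ^ 10 := by ring
    refine ⟨N, ?_, (u2 G N n (fun i => (hGb i).2) hN).trans hb,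
      (w2 G N n (fun i => (hGb i).1) hN).trans hb, ?_⟩
    · intro h0
      rw [h0, map_zero] at hN
      obtain ⟨t, ht, ht0⟩ := Finset.prod_eq_zero_iff.1 hN.symm
      obtain ⟨ψ, rfl⟩ := (hT t).1 ht
      exact eval_tau_ne_zero hpair hbig hsep hG hGd ψ ht0
    · intro B j τ ψ hd hj hj' hτ hG0
      obtain ⟨e1, e2, e3, e4, d1, d2⟩ := hspec B j hd hj hj'
      have := spec_norm hpair _ two_ne_zero e1 e2 e3 e4 d1 d2 hT hN ψ
        (by rw [← hτ, surfArith_ev, hG0, map_zero])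
      rw [RingHom.comp_apply] at this
      exact (map_eq_zero _).1 this

end Pool.Agent.P.MP_a60a76_nt.Fs
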