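import Pool.Agent.P.MP_a60a76_nt.Fs.Defs
import Pool.Agent.P.MP_a60a76_nt.Fs.SurfArith
import Pool.Agent.P.MP_a60a76_nt.Fs.Surf
import Pool.Agent.P.MP_a60a76_nt.Fs.OneGraph

namespace Pool.Agent.P.MP_a60a76_nt.Fs

open Polynomial
open scoped NNReal

/-- Points on one plane curve. -/
theorem regOne_curve (A0 ε : ℝ) (hε : 0 < ε) : ∃ (c : ℝ) (K : ℕ), 0 ≤ c ∧ ∀ X : ℝ, 2 ≤ X →
    ∀ p : ℕ, p.Prime → 11 ≤ p → ∀ A : ℤ, ¬ IsSquare (-3 * A) → |(A : ℝ)| ≤ X →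
    ∀ (n : ℕ) (N : ℚ[X][X]), 1 ≤ n → N ≠ 0 → N.natDegree ≤ n → dX N ≤ n →
    ∀ S : Finset (ℤ × ℚ), Set.InjOn Prod.fst (S : Set (ℤ × ℚ)) →
    (∀ s ∈ S, |(s.1 : ℝ)| ≤ √X ∧ (hgt s.2 : ℝ) ≤ X ^ A0 ∧ Par p A s.1 s.2 ∧
      N.evalEval (s.1 : ℚ) s.2 = 0) →
    (S.card : ℝ) ≤ c * (n * p : ℝ) ^ K * X ^ (1 / 4 + ε) := by
  classical
  obtain ⟨c3, K3, h3⟩ := curve ε hε
  obtain ⟨c4, K4, h4⟩ := one_graph A0 ε hε
  set κ : ℕ := ⌈A0⌉₊ + 1 with hκ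
  set e : ℕ := K3 * κ + 1 with he
  refine ⟨|c3| * κ ^ K3 + |c4| * e ^ K4, K3 + (K4 + 2), by positivity,
    fun X hX p hp h11 A hA hAX n N hn hN0 hN1 hN2 S hS h => ?_⟩
  have hX1 : (1 : ℝ) ≤ X := by linarith
  obtain ⟨Φ, S0, hΦ, hΦ', hS0, hcov⟩ := h3 X n κ S N hX hn (by omega) hN0 hN1 hN2 hS (by
    intro s hs
    refine ⟨(h s hs).1, (h s hs).2.1.trans ?_, (h s hs).2.2.2⟩
    rw [← Real.rpow_natCast]
    refine Real.rpow_le_rpow_of_exponent_le hX1 ?_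
    have := Nat.le_ceil A0
    rw [hκ]
    push_cast
    linarith)
  have hcard : S.card ≤ S0.card + ∑ φ ∈ Φ, (S.filter fun t : ℤ × ℚ => φ.2.eval t.1 ≠ 0 ∧
      t.2 * (φ.2.eval t.1 : ℤ) = (φ.1.eval t.1 : ℤ)).card := by
    refine le_trans (Finset.card_le_card ?_) ((Finset.card_union_le _ _).trans
      (Nat.add_le_add_left Finset.card_biUnion_le _))
    intro t ht
    rcases hcov _ ht with h1 | ⟨φ, hφ, h1⟩
    · exact Finset.mem_union_left _ h1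
    · exact Finset.mem_union_right _
        (Finset.mem_biUnion.mpr ⟨φ, hφ, Finset.mem_filter.mpr ⟨ht, h1⟩⟩)
  have hn' : (1 : ℝ) ≤ n := by exact_mod_cast hn
  have hp' : (1 : ℝ) ≤ p := by exact_mod_cast hp.one_le
  have hw1 : (1 : ℝ) ≤ n * p := one_le_mul_of_one_le_of_one_le hn' hp'
  have hnw : (n : ℝ) ≤ n * p := le_mul_of_one_le_right (by linarith) hp'
  have hpw : (p : ℝ) ≤ n * p := le_mul_of_one_le_left (by linarith) hn'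
  have g1 : (S0.card : ℝ) ≤ |c3| * κ ^ K3 * (n * p : ℝ) ^ (K3 + (K4 + 2)) * X ^ (1 / 4 + ε) := by
    refine hS0.trans (mul_le_mul_of_nonneg_right ?_ (by positivity))
    rw [mul_assoc, mul_pow, mul_comm ((n : ℝ) ^ K3)]
    refine mul_le_mul (le_abs_self _) (mul_le_mul_of_nonneg_left ?_ (by positivity))
      (by positivity) (abs_nonneg _)
    exact (pow_le_pow_left₀ (by linarith) hnw _).trans (pow_le_pow_right₀ hw1 (by omega))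
  have g2 : ∀ φ ∈ Φ, ((S.filter fun t : ℤ × ℚ => φ.2.eval t.1 ≠ 0 ∧
      t.2 * (φ.2.eval t.1 : ℤ) = (φ.1.eval t.1 : ℤ)).card : ℝ) ≤
      |c4| * e ^ K4 * (n * p : ℝ) ^ K4 * X ^ (1 / 4 + ε) := by
    intro φ hφ
    obtain ⟨-, b2, b3, -⟩ := hΦ' φ hφ
    refine (h4 X hX p hp h11 A hA hAX φ.1 φ.2 e (by omega) (by omega) (by omega) _
      (hS.mono (Finset.coe_subset.mpr (Finset.filter_subset _ _))) fun t ht => ?_).trans ?_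
    · obtain ⟨ht, ht'⟩ := Finset.mem_filter.mp ht
      exact ⟨(h t ht).1, (h t ht).2.1, (h t ht).2.2.1, ht'⟩
    · refine mul_le_mul_of_nonneg_right ?_ (by positivity)
      rw [mul_assoc, mul_pow]
      refine mul_le_mul (le_abs_self _) (mul_le_mul_of_nonneg_left ?_ (by positivity))
        (by positivity) (abs_nonneg _)
      exact pow_le_pow_left₀ (by linarith) hpw _
  have g3 := Finset.sum_le_sum g2
  rw [Finset.sum_const, nsmul_eq_mul] at g3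
  have g4 : (Φ.card : ℝ) ≤ (n * p : ℝ) ^ (K3 + 2) := by
    have : (Φ.card : ℝ) ≤ (n : ℝ) ^ 2 := by exact_mod_cast hΦ
    exact this.trans ((pow_le_pow_left₀ (by linarith) hnw _).trans
      (pow_le_pow_right₀ hw1 (by omega)))
  have g5 : (S.card : ℝ) ≤ S0.card + ∑ φ ∈ Φ, ((S.filter fun t : ℤ × ℚ => φ.2.eval t.1 ≠ 0 ∧
      t.2 * (φ.2.eval t.1 : ℤ) = (φ.1.eval t.1 : ℤ)).card : ℝ) := by exact_mod_cast hcard
  have g6 := mul_le_mul_of_nonneg_right g4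
    (show 0 ≤ |c4| * e ^ K4 * (n * p : ℝ) ^ K4 * X ^ (1 / 4 + ε) by positivity)
  calc _ ≤ |c3| * κ ^ K3 * (n * p : ℝ) ^ (K3 + (K4 + 2)) * X ^ (1 / 4 + ε) +
        (n * p : ℝ) ^ (K3 + 2) * (|c4| * e ^ K4 * (n * p : ℝ) ^ K4 * X ^ (1 / 4 + ε)) := by
        linarith
    _ = _ := by ring

theorem reg_one (P0 : ℕ) (A0 γ ε : ℝ) (hP : 11 ≤ P0) (hA : 0 < A0) (hγ : 0 < γ) (hε : 0 < ε)
    (h : 9 * A0 < 8 * (P0 * (P0 ^ 2 - 1) / 2 : ℕ) * γ ^ 2) :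
    ∃ (c : ℝ) (K : ℕ), ∀ X : ℝ, 2 ≤ X → ∀ p : ℕ, p.Prime → P0 ≤ p → ∀ A : ℤ,
      ¬ IsSquare (-3 * A) → |(A : ℝ)| ≤ X → ∀ S : Finset (ℤ × ℚ),
      Set.InjOn Prod.fst (S : Set (ℤ × ℚ)) →
      (∀ s ∈ S, |(s.1 : ℝ)| ≤ √X ∧ (hgt s.2 : ℝ) ≤ X ^ A0 ∧ Par p A s.1 s.2) →
      (S.card : ℝ) ≤ c * (p : ℝ) ^ K * X ^ (1 / 4 + 2 * γ + ε) := by
  classical
  obtain ⟨K1, hK1⟩ := surf_poly
  obtain ⟨b, hb, hτ⟩ := oneGraph_tau A0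
  obtain ⟨c2, K2, h2⟩ := surf A0 γ _ hA hγ h
  obtain ⟨c3, K3, hc3, h3⟩ := regOne_curve A0 ε hε
  refine ⟨|c2| * b ^ K2 * (c3 * (K2 * b + 1) ^ K3), (K1 + 3) * K2 + (2 * K1 + 4) * K3,
    fun X hX p hp hPp A hA3 hAX S hS hs => ?_⟩
  have hX0 : (0 : ℝ) < X := by linarith
  have hA0 : A ≠ 0 := by
    rintro rfl
    exact hA3 (by simp)
  obtain ⟨s, hs10, F, hF0, hF1, hF2, hF3, hF4⟩ := hK1 p hp (by omega) A hA0
  have hex : ∀ t : ℤ × ℚ, ∃ τ : ℚ, t ∈ S →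
      ∃ ψ : Tors p ((A : ℚ) : Qb) ((t.1 : ℚ) : Qb) ≃+
        Tors p ((ma t.2 1 : ℚ) : Qb) ((mb t.2 1 : ℚ) : Qb),
      (τ : Qb) = tau p s ψ ∧ (hgt τ : ℝ) ≤ X ^ (b * p ^ 3) := by
    intro t
    by_cases ht : t ∈ S
    · obtain ⟨τ, ψ, h1⟩ := hτ X hX p s hp (by omega) hs10 A hAX t.1 t.2 (hs t ht).1 (hs t ht).2.1
        (hs t ht).2.2
      exact ⟨τ, fun _ => ⟨ψ, h1⟩⟩
    · exact ⟨0, fun h => absurd h ht⟩
  choose τ hτ' using hex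
  have hp0 : 0 < p := hp.pos
  have hn : 1 ≤ p ^ K1 := Nat.one_le_iff_ne_zero.mpr (by positivity)
  have hκ : 1 ≤ b * p ^ 3 := Nat.one_le_iff_ne_zero.mpr (by positivity)
  obtain ⟨𝒜, h𝒜, h𝒜', hcov⟩ := h2 X (p ^ K1) (b * p ^ 3)
    (S.image fun t => (t.1, t.2, τ t)) F hX hn hκ hF0 hF1 hF2 (by
      intro x hx
      obtain ⟨t, ht, rfl⟩ := Finset.mem_image.mp hx
      obtain ⟨ψ, h1, h2⟩ := hτ' t ht
      obtain ⟨a1, a0, a2, a3, a4, -⟩ := hs t ht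
      exact ⟨a1, a0, h2, hF3 t.1 t.2 (τ t) ψ a2 a3 a4 h1⟩)
  have hcard : S.card ≤ ∑ G ∈ 𝒜, (S.filter fun t => ev3 G t.1 t.2 (τ t) = 0).card := by
    refine le_trans (Finset.card_le_card ?_) Finset.card_biUnion_le
    intro t ht
    obtain ⟨G, hG, h1⟩ := hcov _ (Finset.mem_image_of_mem _ ht)
    exact Finset.mem_biUnion.mpr ⟨G, hG, Finset.mem_filter.mpr ⟨ht, h1⟩⟩
  have hd : P0 * (P0 ^ 2 - 1) / 2 ≤ p * (p ^ 2 - 1) / 2 := by gcongr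
  have g2 : ∀ G ∈ 𝒜, ((S.filter fun t => ev3 G t.1 t.2 (τ t) = 0).card : ℝ) ≤
      c3 * (K2 * b + 1) ^ K3 * (p : ℝ) ^ ((2 * K1 + 4) * K3) * X ^ (1 / 4 + ε) := by
    intro G hG
    obtain ⟨b1, b2, b3⟩ := h𝒜' G hG
    obtain ⟨N, hN0, hN1, hN2, hN3⟩ := hF4 _ G b1 (b2.trans_le hd) b3
    refine (h3 X hX p hp (by omega) A hA3 hAX _ N (Nat.one_le_iff_ne_zero.mpr (by positivity))
      hN0 hN1 hN2 _ (hS.mono (Finset.coe_subset.mpr (Finset.filter_subset _ _)))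
      fun t ht => ?_).trans ?_
    · obtain ⟨ht, ht'⟩ := Finset.mem_filter.mp ht
      obtain ⟨ψ, h1, -⟩ := hτ' t ht
      obtain ⟨a1, a0, a5⟩ := hs t ht
      exact ⟨a1, a0, a5, hN3 t.1 t.2 (τ t) ψ a5.1 a5.2.1 a5.2.2.1 h1 ht'⟩
    · refine mul_le_mul_of_nonneg_right ?_ (by positivity)
      rw [mul_assoc c3]
      refine mul_le_mul_of_nonneg_left ?_ hc3
      have f1 : ((K2 * p ^ K1 * (b * p ^ 3) + 1) * p ^ K1 * p) ^ K3 ≤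
          (K2 * b + 1) ^ K3 * p ^ ((2 * K1 + 4) * K3) := by
        have : 1 ≤ p ^ K1 * p ^ 3 := Nat.one_le_iff_ne_zero.mpr (by positivity)
        calc _ ≤ ((K2 * p ^ K1 * (b * p ^ 3) + p ^ K1 * p ^ 3) * p ^ K1 * p) ^ K3 := by gcongr
          _ = ((K2 * b + 1) * p ^ (2 * K1 + 4)) ^ K3 := by congr 1; ring
          _ = _ := by rw [mul_pow, ← pow_mul]
      exact_mod_cast f1
  have g3 := Finset.sum_le_sum g2
  rw [Finset.sum_const, nsmul_eq_mul] at g3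
  have g4 : (𝒜.card : ℝ) ≤ |c2| * b ^ K2 * (p : ℝ) ^ ((K1 + 3) * K2) * X ^ (2 * γ) := by
    refine h𝒜.trans (mul_le_mul_of_nonneg_right ?_ (by positivity))
    rw [mul_assoc]
    refine mul_le_mul (le_abs_self _) (le_of_eq ?_) (by positivity) (abs_nonneg _)
    push_cast
    rw [pow_mul, ← mul_pow]
    congr 1
    ring
  have g5 : (S.card : ℝ) ≤
      ∑ G ∈ 𝒜, ((S.filter fun t => ev3 G t.1 t.2 (τ t) = 0).card : ℝ) := by exact_mod_cast hcard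
  calc _ ≤ _ := g5.trans g3
    _ ≤ |c2| * b ^ K2 * (p : ℝ) ^ ((K1 + 3) * K2) * X ^ (2 * γ) *
        (c3 * (K2 * b + 1) ^ K3 * (p : ℝ) ^ ((2 * K1 + 4) * K3) * X ^ (1 / 4 + ε)) :=
      mul_le_mul_of_nonneg_right g4 (by positivity)
    _ = _ := by
      rw [show 1 / 4 + 2 * γ + ε = 2 * γ + (1 / 4 + ε) by ring, Real.rpow_add hX0 (2 * γ),
        pow_add]
      ring

end Pool.Agent.P.MP_a60a76_nt.Fs
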