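import Pool.Agent.P.MP_a60a76_nt.Fs.Defs
import Pool.Agent.P.MP_a60a76_nt.Fs.Val
import Pool.Agent.P.MP_a60a76_nt.Fs.Small
import Pool.Agent.P.MP_a60a76_nt.Fs.Primes

namespace Pool.Agent.P.MP_a60a76_nt.Fs

open Polynomial
open scoped NNReal

theorem sieve_dvd {r : ℕ} (M : Matrix (Fin r) (Fin r) ℤ) (l : ℕ) {α : Type*} (C : Finset α)
    (w : α → Fin r → ℤ) (B : Finset (Fin r))
    (h : ∀ i, i ∉ B → ∃ a ∈ C, ∃ c : ℤ, ∀ k, (l : ℤ) ∣ M i k - c * w a k) :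
    (l : ℤ) ^ (r - (C.card + B.card)) ∣ M.det := by
  classical
  have key := pow_dvd_det (l : ℤ) (D := 1) (ι := C ⊕ B) (fun _ => 0)
    (Sum.elim (fun a => w a) fun i => M i) M (fun i => by
      by_cases hi : i ∈ B
      · refine ⟨Pi.single (Sum.inr ⟨i, hi⟩) 1, 0, fun k => ?_⟩
        rw [Finset.sum_eq_single (Sum.inr ⟨i, hi⟩) (fun μ _ hμ => by simp [Pi.single_eq_of_ne hμ])
          (fun hμ => absurd (Finset.mem_univ _) hμ)]
        simp
      · obtain ⟨a, ha, c, hc⟩ := h i hi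
        choose z hz using hc
        refine ⟨Pi.single (Sum.inl ⟨a, ha⟩) c, z, fun k => ?_⟩
        rw [Finset.sum_eq_single (Sum.inl ⟨a, ha⟩) (fun μ _ hμ => by simp [Pi.single_eq_of_ne hμ])
          (fun hμ => absurd (Finset.mem_univ _) hμ)]
        simp only [pow_zero, one_mul, Pi.single_eq_same, Sum.elim_inl, pow_one]
        linear_combination hz k)
  simpa using key

theorem sieve_log (P : Finset ℕ) (hP : ∀ l ∈ P, l.Prime) (E : ℕ → ℕ) {d : ℤ} (hd : d ≠ 0)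
    (h : ∀ l ∈ P, (l : ℤ) ^ E l ∣ d) : ∑ l ∈ P, E l * Real.log l ≤ Real.log |(d : ℝ)| := by
  have h1 : ∏ l ∈ P, (l : ℤ) ^ E l ∣ d := by
    refine Finset.prod_dvd_of_coprime (fun l hl l' hl' hne => ?_) h
    exact (Nat.isCoprime_iff_coprime.2 ((Nat.coprime_primes (hP l hl) (hP l' hl')).2 hne)).pow
  have h2 : ∏ l ∈ P, (l : ℤ) ^ E l ≤ |d| := Int.le_of_dvd (abs_pos.2 hd) ((dvd_abs _ _).2 h1)
  have h3 : ∏ l ∈ P, (l : ℝ) ^ E l ≤ |(d : ℝ)| := by exact_mod_cast h2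
  have h4 : ∀ l ∈ P, (0 : ℝ) < (l : ℝ) ^ E l := fun l hl =>
    pow_pos (by exact_mod_cast (hP l hl).pos) _
  refine le_trans (le_of_eq ?_) (Real.log_le_log (Finset.prod_pos h4) h3)
  rw [Real.log_prod fun l hl => (h4 l hl).ne']
  exact Finset.sum_congr rfl fun l _ => (Real.log_pow _ _).symm

theorem sieve_core {r ν : ℕ} (M : Matrix (Fin r) (Fin r) ℤ) (P : Finset ℕ)
    (hP : ∀ l ∈ P, l.Prime) (N : Fin r → ℤ) (Λ K : ℝ) (hK : 1 ≤ K)
    (hN : ∀ i, N i ≠ 0 ∧ Real.log |(N i : ℝ)| ≤ Λ) (hM : ∀ i k, |(M i k : ℝ)| ≤ K)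
    (hd : ∀ l ∈ P,
      (l : ℤ) ^ (r - (ν + (Finset.univ.filter fun i => (l : ℤ) ∣ N i).card)) ∣ M.det)
    (h : (r : ℝ) * (Λ + Real.log r + Real.log K) < ((r : ℝ) - ν) * ∑ l ∈ P, Real.log l) :
    M.det = 0 := by
  by_contra h0
  have a1 := sieve_log P hP _ h0 hd
  have a2 : Real.log |(M.det : ℝ)| ≤ r * Real.log r + r * Real.log K := by
    have b1 := det_le M (fun _ => K) hM
    rw [Finset.prod_const, Finset.card_univ, Fintype.card_fin] at b1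
    have b2 : (r.factorial : ℝ) ≤ (r : ℝ) ^ r := by exact_mod_cast Nat.factorial_le_pow r
    have b3 : (0 : ℝ) < r.factorial := by exact_mod_cast r.factorial_pos
    have b4 : (0 : ℝ) < K ^ r := by positivity
    have b5 : (0 : ℝ) < |(M.det : ℝ)| := abs_pos.2 (by exact_mod_cast h0)
    refine (Real.log_le_log b5 b1).trans ?_
    rw [Real.log_mul b3.ne' b4.ne', Real.log_pow, ← Real.log_pow (r : ℝ) r]
    exact add_le_add_left (Real.log_le_log b3 b2) _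
  have a3 : ∑ l ∈ P, ((Finset.univ.filter fun i => (l : ℤ) ∣ N i).card : ℝ) * Real.log l
      ≤ r * Λ := by
    have b1 : ∑ l ∈ P, ((Finset.univ.filter fun i => (l : ℤ) ∣ N i).card : ℝ) * Real.log l
        = ∑ i, ∑ l ∈ P.filter (fun l : ℕ => (l : ℤ) ∣ N i), Real.log l := by
      simp only [Finset.card_filter, Finset.sum_filter, Nat.cast_sum, Finset.sum_mul]
      rw [Finset.sum_comm]
      refine Finset.sum_congr rfl fun i _ => Finset.sum_congr rfl fun l _ => ?_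
      split_ifs <;> simp
    rw [b1]
    refine (Finset.sum_le_sum fun i _ => (sum_log_dvd_le P hP (hN i).1).trans (hN i).2).trans ?_
    simp
  have a4 : ((r : ℝ) - ν) * ∑ l ∈ P, Real.log l ≤
      ∑ l ∈ P, ((r - (ν + (Finset.univ.filter fun i => (l : ℤ) ∣ N i).card) : ℕ) : ℝ) * Real.log l
      + ∑ l ∈ P, ((Finset.univ.filter fun i => (l : ℤ) ∣ N i).card : ℝ) * Real.log l := by
    rw [Finset.mul_sum, ← Finset.sum_add_distrib]
    refine Finset.sum_le_sum fun l _ => ?_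
    rw [← add_mul]
    refine mul_le_mul_of_nonneg_right ?_ (Real.log_natCast_nonneg l)
    generalize (Finset.univ.filter fun i => (l : ℤ) ∣ N i).card = b
    have : r ≤ r - (ν + b) + b + ν := by omega
    have : (r : ℝ) ≤ ((r - (ν + b) : ℕ) : ℝ) + b + ν := by exact_mod_cast this
    linarith
  linarith

theorem sieve_row {l : ℕ} (hl : l.Prime) (x : ℤ) (j : ℚ) (hj : ¬ (l : ℤ) ∣ j.den) (a b c : ℕ) :
    (l : ℤ) ∣ x ^ a * j.num ^ b * (j.den : ℤ) ^ c -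
      (j.den : ℤ) ^ (b + c) * ((((x : ZMod l).cast : ℤ)) ^ a * ((redQ l j).cast : ℤ) ^ b) := by
  have := Fact.mk hl
  have h0 : (j.den : ZMod l) ≠ 0 := fun h => hj (by
    exact_mod_cast (ZMod.natCast_eq_zero_iff _ _).1 h)
  rw [← ZMod.intCast_zmod_eq_zero_iff_dvd]
  push_cast
  simp only [redQ, mul_pow, inv_pow]
  field_simp
  ring

theorem sieve_bd {H : ℝ} (hH : 1 ≤ H) (x : ℤ) (j : ℚ) (hx : |(x : ℝ)| ≤ H) (hj : (hgt j : ℝ) ≤ H)
    (a b c n : ℕ) (hn : a + b + c ≤ n) :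
    |((x ^ a * j.num ^ b * (j.den : ℤ) ^ c : ℤ) : ℝ)| ≤ H ^ n := by
  have h1 : |(j.num : ℝ)| ≤ H := by
    refine le_trans ?_ hj
    rw [← Int.cast_abs, ← Nat.cast_natAbs]
    exact_mod_cast le_max_left _ _
  have h2 : |(j.den : ℝ)| ≤ H := by
    refine le_trans ?_ hj
    rw [Nat.abs_cast]
    exact_mod_cast le_max_right _ _
  push_cast
  rw [abs_mul, abs_mul, abs_pow, abs_pow, abs_pow]
  refine le_trans ?_ (pow_le_pow_right₀ hH hn)
  rw [pow_add, pow_add]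
  gcongr

theorem sieve_det (S : Finset (ℤ × ℚ)) (U V ν : ℕ) (P : Finset ℕ) (hP : ∀ l ∈ P, l.Prime)
    (𝒞 : ∀ l : ℕ, Finset (ZMod l × ZMod l)) (hν : ∀ l ∈ P, (𝒞 l).card ≤ ν) (N : ℤ × ℚ → ℤ)
    (H Λ : ℝ) (hH : 1 ≤ H) (hΛ : 0 ≤ Λ)
    (hS : ∀ s ∈ S, N s ≠ 0 ∧ Real.log |(N s : ℝ)| ≤ Λ ∧ (s.2.den : ℤ) ∣ N s ∧ |(s.1 : ℝ)| ≤ H ∧
      (hgt s.2 : ℝ) ≤ H ∧ ∀ l ∈ P, ¬ (l : ℤ) ∣ N s → ((s.1 : ZMod l), redQ l s.2) ∈ 𝒞 l)
    (hU : 0 < U) (hV : 0 < V)
    (h : (U * V : ℝ) * (Λ + Real.log (U * V) + (U + V) * Real.log H) <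
      ((U * V : ℝ) - ν) * ∑ l ∈ P, Real.log l) :
    ∃ F : ℚ[X][X], F ≠ 0 ∧ F.natDegree < V ∧ dX F < U ∧ ∀ s ∈ S, F.evalEval (s.1 : ℚ) s.2 = 0 := by
  classical
  let v : S → Fin U × Fin V × Fin 1 → ℤ := fun s e =>
    s.1.1 ^ (e.1 : ℕ) * s.1.2.num ^ (e.2.1 : ℕ) * (s.1.2.den : ℤ) ^ (V - 1 - e.2.1)
  have hv : ∀ s e, |(v s e : ℝ)| ≤ H ^ (U + V) := fun s e =>
    sieve_bd hH _ _ (hS s s.2).2.2.2.1 (hS s s.2).2.2.2.2.1 _ _ _ _ (by
      have := e.1.2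
      have := e.2.1.2
      omega)
  have hK : 1 ≤ H ^ (U + V) := one_le_pow₀ hH
  have hr : Fintype.card (Fin U × Fin V × Fin 1) = U * V := by simp
  let σ : Fin (U * V) ≃ Fin U × Fin V × Fin 1 := (Fintype.equivFinOfCardEq hr).symm
  obtain ⟨c, hc0, -, hc⟩ := exists_small v ⌈H ^ (U + V)⌉₊ (Nat.one_le_ceil_iff.2 (by linarith))
    (fun s e => by
      have h1 := (hv s e).trans (Nat.le_ceil _)
      rw [← Int.cast_abs, ← Nat.cast_natAbs] at h1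
      exact_mod_cast h1)
    (fun f => by
      rw [← Matrix.det_submatrix_equiv_self σ]
      refine sieve_core (ν := ν) _ P hP (fun i => N (f (σ i))) Λ _ hK
        (fun i => ⟨(hS _ (f (σ i)).2).1, (hS _ (f (σ i)).2).2.1⟩) (fun i k => hv _ _)
        (fun l hl => ?_) ?_
      · refine dvd_trans (pow_dvd_pow _ ?_) (sieve_dvd _ l (𝒞 l)
          (fun a k => (a.1.cast : ℤ) ^ ((σ k).1 : ℕ) * (a.2.cast : ℤ) ^ ((σ k).2.1 : ℕ))
          (Finset.univ.filter fun i => (l : ℤ) ∣ N (f (σ i))) fun i hi => ?_)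
        · have := hν l hl
          omega
        · have hi' : ¬ (l : ℤ) ∣ N (f (σ i)) := by simpa using hi
          obtain ⟨-, -, s3, -, -, s6⟩ := hS _ (f (σ i)).2
          refine ⟨_, s6 l hl hi', ((f (σ i)).1.2.den : ℤ) ^ (V - 1), fun k => ?_⟩
          have := sieve_row (hP l hl) (f (σ i)).1.1 (f (σ i)).1.2 (fun h => hi' (h.trans s3))
            (σ k).1 (σ k).2.1 (V - 1 - (σ k).2.1)
          rw [show ((σ k).2.1 : ℕ) + (V - 1 - (σ k).2.1) = V - 1 by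
            have := (σ k).2.1.2
            omega] at this
          exact this
      · rw [Real.log_pow]
        push_cast
        exact h)
  obtain ⟨G, hG0, hG1, hG2, -, hG⟩ := poly_of_coeffs U V 1 (fun e => (c e : ℚ)) (fun h0 =>
    hc0 (funext fun e => Int.cast_eq_zero.1 (congrFun h0 e)))
  have hGC : G = C (G.coeff 0) := eq_C_of_natDegree_eq_zero (by omega)
  refine ⟨G.coeff 0, fun h0 => hG0 (by rw [hGC, h0, map_zero]), ?_, ?_, fun s hs => ?_⟩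
  · have := (hG2 0).2
    omega
  · have := (hG2 0).1
    omega
  · have e1 : ev3 G (s.1 : ℚ) s.2 0 = (G.coeff 0).evalEval (s.1 : ℚ) s.2 := by
      conv_lhs => rw [hGC]
      simp [ev3]
    have d0 : (s.2.den : ℚ) ≠ 0 := by exact_mod_cast s.2.den_nz
    have e2 : ((∑ e, c e * v ⟨s, hs⟩ e : ℤ) : ℚ) = 0 := by rw [hc]; rfl
    rw [← e1, hG]
    refine mul_left_cancel₀ (pow_ne_zero (V - 1) d0) ?_
    rw [mul_zero, ← e2, Finset.mul_sum]
    push_cast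
    refine Finset.sum_congr rfl fun e _ => ?_
    have e3 : V - 1 = e.2.1 + (V - 1 - e.2.1) := by
      have := e.2.1.2
      omega
    have e4 : (e.2.2 : ℕ) = 0 := by
      have := e.2.2.2
      omega
    have e5 : (s.2.num : ℚ) = s.2 * s.2.den := (Rat.mul_den_eq_num s.2).symm
    simp only [v]
    push_cast
    rw [e4, e5]
    conv_lhs => rw [e3]
    ring

end Pool.Agent.P.MP_a60a76_nt.Fs
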