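import Pool.Agent.P.MP_a60a76_nt.Fs.Defs
import Pool.Agent.P.MP_a60a76_nt.Fs.Sieve
import Pool.Agent.P.MP_a60a76_nt.Fs.ChGraph
import Pool.Agent.P.MP_a60a76_nt.Fs.FrobArith
import Pool.Agent.P.MP_a60a76_nt.Fs.BadInt

namespace Pool.Agent.P.MP_a60a76_nt.Fs

open Polynomial
open scoped NNReal

theorem regGraph_params (c : ℕ) : ∀ᶠ L : ℝ in Filter.atTop, ∃ m : ℕ, m.Prime ∧ 11 ≤ m ∧ c < m ∧
    c * L < m ∧ (m : ℝ) ≤ L ^ 3 ∧ ∃ P : Finset ℕ,
      (∀ l ∈ P, l.Prime ∧ m ^ 23 < l ∧ l ≤ 4 * m ^ 23) ∧ (m : ℝ) ^ 23 ≤ ∑ l ∈ P, Real.log l := by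
  obtain ⟨z0, hz⟩ := theta_window
  filter_upwards [Filter.eventually_ge_atTop (11 : ℝ), Filter.eventually_ge_atTop (c : ℝ),
    Filter.eventually_ge_atTop z0] with L h1 h2 h3
  have hn : (L ^ 2 : ℝ) ≤ ⌈L ^ 2⌉₊ := Nat.le_ceil _
  have hn' : (⌈L ^ 2⌉₊ : ℝ) < L ^ 2 + 1 := Nat.ceil_lt_add_one (by positivity)
  obtain ⟨m, hm, hm1, hm2⟩ := Nat.exists_prime_lt_and_le_two_mul ⌈L ^ 2⌉₊
    (by
      intro h
      rw [h] at hn
      push_cast at hn
      nlinarith)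
  have hm1' : L ^ 2 < m := hn.trans_lt (by exact_mod_cast hm1)
  have hm2' : (m : ℝ) ≤ 2 * ⌈L ^ 2⌉₊ := by exact_mod_cast hm2
  have hL : L < m := by nlinarith
  have hm3 : (1 : ℝ) ≤ m := by linarith
  have hm4 : (m : ℝ) ≤ m ^ 23 := le_self_pow₀ hm3 (by norm_num)
  obtain ⟨P, hP, hP'⟩ := hz (m ^ 23) (4 * m ^ 23) (by linarith) (by positivity) (by linarith)
  refine ⟨m, hm, ?_, ?_, by nlinarith, by nlinarith, P, fun l hl => ?_, by linarith⟩
  · exact_mod_cast h1.trans hL.le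
  · exact_mod_cast h2.trans_lt hL
  · obtain ⟨a1, a2, a3⟩ := hP l hl
    exact ⟨a1, by exact_mod_cast a2, by exact_mod_cast a3⟩

theorem regGraph_eval {e κ : ℕ} {X : ℝ} (hX : (e + 1 : ℝ) ≤ X) {Q : ℤ[X]} (hQ : Q.natDegree ≤ e)
    (hc : ∀ i, (|Q.coeff i| : ℝ) ≤ X ^ κ) {B : ℤ} (hB : |(B : ℝ)| ≤ X) :
    |((Q.eval B : ℤ) : ℝ)| ≤ X ^ (κ + e + 1) := by
  have h0 : (0 : ℝ) ≤ e := Nat.cast_nonneg e
  have h1 : 1 ≤ X := by linarith
  rw [eval_eq_sum_range' (Nat.lt_succ_of_le hQ)]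
  push_cast
  refine (Finset.abs_sum_le_sum_abs _ _).trans ?_
  calc ∑ i ∈ Finset.range (e + 1), |(Q.coeff i : ℝ) * (B : ℝ) ^ i|
      ≤ ∑ _i ∈ Finset.range (e + 1), X ^ κ * X ^ e := by
        refine Finset.sum_le_sum fun i hi => ?_
        rw [abs_mul, abs_pow]
        refine mul_le_mul (hc i) ?_ (by positivity) (by positivity)
        exact (pow_le_pow_left₀ (abs_nonneg _) hB i).trans
          (pow_le_pow_right₀ h1 (Nat.lt_succ_iff.1 (Finset.mem_range.1 hi)))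
    _ = (e + 1) * (X ^ κ * X ^ e) := by simp
    _ ≤ X * (X ^ κ * X ^ e) := mul_le_mul_of_nonneg_right hX (by positivity)
    _ = X ^ (κ + e + 1) := by ring

theorem regGraph_base {a : ℕ} {X : ℝ} (hX : 1729 ≤ X) {A B : ℤ} {j : ℚ} (hA : |(A : ℝ)| ≤ X)
    (hB : |(B : ℝ)| ≤ X) (hj : (hgt j : ℝ) ≤ X ^ a) :
    |((dsc A B * j.den * j.num * (1728 * j.den - j.num) : ℤ) : ℝ)| ≤ X ^ (3 * a + 5) := by
  have h1 : 1 ≤ X := by linarith
  have hd : |((j.den : ℤ) : ℝ)| ≤ X ^ a := by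
    refine le_trans ?_ hj
    rw [Int.cast_natCast, Nat.abs_cast]
    exact_mod_cast le_max_right _ _
  have hn : |(j.num : ℝ)| ≤ X ^ a := by
    refine le_trans ?_ hj
    rw [← Int.cast_abs, ← Int.natCast_natAbs, Int.cast_natCast]
    exact_mod_cast le_max_left _ _
  have h3 : |((dsc A B : ℤ) : ℝ)| ≤ X ^ 4 := by
    have e1 : |(A : ℝ)| ^ 3 ≤ X ^ 3 := pow_le_pow_left₀ (abs_nonneg _) hA 3
    have e2 : |(B : ℝ)| ^ 2 ≤ X ^ 3 :=
      (pow_le_pow_left₀ (abs_nonneg _) hB 2).trans (pow_le_pow_right₀ h1 (by norm_num))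
    have e3 : (0 : ℝ) < X ^ 3 := by positivity
    unfold dsc
    push_cast
    refine (abs_add_le _ _).trans ?_
    rw [abs_mul, abs_mul, abs_pow, abs_pow, abs_of_pos (by norm_num : (0 : ℝ) < 4),
      abs_of_pos (by norm_num : (0 : ℝ) < 27)]
    nlinarith
  have h4 : |(1728 * ((j.den : ℤ) : ℝ) - j.num)| ≤ X ^ (a + 1) := by
    have e3 : (0 : ℝ) < X ^ a := by positivity
    refine (abs_sub _ _).trans ?_
    rw [abs_mul, abs_of_pos (by norm_num : (0 : ℝ) < 1728), pow_succ]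
    nlinarith
  rw [Int.cast_mul, Int.cast_mul, Int.cast_mul, Int.cast_sub, Int.cast_mul, Int.cast_ofNat,
    abs_mul, abs_mul, abs_mul, show X ^ (3 * a + 5) = X ^ 4 * X ^ a * X ^ a * X ^ (a + 1) by ring]
  gcongr

theorem regGraph_ineq {c m : ℕ} {L T : ℝ} (hc : 1 ≤ c) (hL : 1 ≤ L) (hm : 19200 * c * L < m)
    (hT : (m : ℝ) ^ 23 ≤ T) :
    ((2400 * m ^ 22 : ℕ) * (1 : ℕ) : ℝ) * (c * L + Real.log ((2400 * m ^ 22 : ℕ) * (1 : ℕ)) +
      ((2400 * m ^ 22 : ℕ) + (1 : ℕ)) * (c * L)) <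
      (((2400 * m ^ 22 : ℕ) * (1 : ℕ) : ℝ) - (1200 * m ^ 22 : ℕ)) * T := by
  have hc' : (1 : ℝ) ≤ c := by exact_mod_cast hc
  have h1 : 1 ≤ c * L := one_le_mul_of_one_le_of_one_le hc' hL
  have hm1 : (1 : ℝ) ≤ m := by nlinarith
  have h2 : (1 : ℝ) ≤ m ^ 22 := one_le_pow₀ hm1
  have h3 : Real.log (2400 * m ^ 22) ≤ 2400 * m ^ 22 :=
    (Real.log_le_sub_one_of_pos (by positivity)).trans (by linarith)
  push_cast
  rw [mul_one]
  rw [pow_succ] at hT
  generalize (m : ℝ) ^ 22 = u at *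
  generalize Real.log (2400 * u) = w at *
  have h4 : c * L + w + (2400 * u + 1) * (c * L) ≤ 9600 * u * (c * L) := by nlinarith
  have h5 : 9600 * u * (c * L) < T / 2 := by nlinarith
  nlinarith

theorem reg_three_graph (A0 : ℝ) (e κ : ℕ) : ∃ K : ℕ, ∀ᶠ X : ℝ in Filter.atTop, ∀ A : ℤ,
    ¬ IsSquare (-3 * A) → |(A : ℝ)| ≤ X → ∀ P Q : ℤ[X], P.natDegree ≤ e → Q.natDegree ≤ e →
    (∀ i, (|P.coeff i| : ℝ) ≤ X ^ κ ∧ (|Q.coeff i| : ℝ) ≤ X ^ κ) → ∀ S : Finset (ℤ × ℚ),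
    Set.InjOn Prod.fst (S : Set (ℤ × ℚ)) →
    (∀ s ∈ S, |(s.1 : ℝ)| ≤ √X ∧ (hgt s.2 : ℝ) ≤ X ^ A0 ∧ Q.eval s.1 ≠ 0 ∧
      s.2 * (Q.eval s.1 : ℤ) = (P.eval s.1 : ℤ) ∧
      ∃ p : ℕ, p.Prime ∧ Real.log X ^ K < p ∧ Par p A s.1 s.2) →
    (S.card : ℝ) ≤ Real.log X ^ K := by
  classical
  obtain ⟨K0, hK0⟩ := exists_bad e
  obtain ⟨a, ha⟩ : ∃ a : ℕ, A0 ≤ a := exists_nat_ge A0
  obtain ⟨c, hc⟩ : ∃ c : ℕ, c = 3 * a + 5 + (κ + e + 1) + (κ + 1) * K0 := ⟨_, rfl⟩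
  refine ⟨78, ?_⟩
  filter_upwards [Real.tendsto_log_atTop.eventually (regGraph_params (19200 * c)),
    Filter.eventually_ge_atTop (1729 : ℝ), Filter.eventually_ge_atTop (e + 1 : ℝ),
    Real.tendsto_log_atTop.eventually_ge_atTop 1] with X hpar hX hXe hL
  intro A hsq hA P Q hP hQ hco S hinj hS
  obtain ⟨m, hm, h11, hcm, hcL, hmL, Pr, hPr, hsum⟩ := hpar
  have hX1 : 1 ≤ X := by linarith
  have hsX : √X ≤ X := Real.sqrt_le_self_iff.2 (Or.inr hX1)
  have hB : ∀ s ∈ S, |(s.1 : ℝ)| ≤ X := fun s hs => (hS s hs).1.trans hsX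
  have hj : ∀ s ∈ S, (hgt s.2 : ℝ) ≤ X ^ a := fun s hs => (hS s hs).2.1.trans (by
    rw [← Real.rpow_natCast]
    exact Real.rpow_le_rpow_of_exponent_le hX1 ha)
  have hpow : (m : ℝ) ^ 26 ≤ Real.log X ^ 78 := by
    rw [show 78 = 3 * 26 by norm_num, pow_mul]
    exact pow_le_pow_left₀ (Nat.cast_nonneg m) hmL 26
  have hm4 : 2400 ≤ m ^ 4 := le_trans (by norm_num) (Nat.pow_le_pow_left h11 4)
  have hm22 : 0 < m ^ 22 := pow_pos hm.pos 22
  rcases S.eq_empty_or_nonempty with rfl | ⟨s0, hs0⟩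
  · simp only [Finset.card_empty, Nat.cast_zero]
    positivity
  obtain ⟨R, hR0, hRb, hR⟩ := hK0 A P Q (X ^ (κ + 1))
    (le_trans (by linarith) (le_self_pow₀ hX1 (Nat.succ_ne_zero κ)))
    (hA.trans (le_self_pow₀ hX1 (Nat.succ_ne_zero κ))) hsq hP hQ
    (fun i => ⟨(hco i).1.trans (pow_le_pow_right₀ hX1 (Nat.le_succ κ)),
      (hco i).2.trans (pow_le_pow_right₀ hX1 (Nat.le_succ κ))⟩)
    (by
      obtain ⟨-, -, q0, q1, p, -, -, -, q2, -⟩ := hS s0 hs0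
      rintro rfl
      rw [eval_zero, Int.cast_zero] at q1
      exact mul_ne_zero q2 (Int.cast_ne_zero.2 q0) q1)
    (by
      obtain ⟨-, -, q0, -⟩ := hS s0 hs0
      rintro rfl
      exact q0 eval_zero)
    (by
      obtain ⟨-, -, q0, q1, p, -, -, -, -, q2, -⟩ := hS s0 hs0
      intro h
      have h' := congrArg (fun f : ℤ[X] => ((f.eval s0.1 : ℤ) : ℚ)) h
      simp only [eval_sub, eval_mul, eval_ofNat, eval_zero] at h'
      push_cast at h'
      rw [← q1, ← sub_mul] at h'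
      exact mul_ne_zero (sub_ne_zero.2 q2.symm) (Int.cast_ne_zero.2 q0) h')
    (by
      obtain ⟨-, -, q0, q1, p, -, -, -, -, -, q2, -⟩ := hS s0 hs0
      intro h
      have h' := congrArg (fun f : ℤ[X] => ((f.eval s0.1 : ℤ) : ℚ)) h
      simp only [dsc, eval_add, eval_mul, eval_ofNat, eval_pow, eval_C, eval_X] at h'
      push_cast at h'
      rw [← q1] at h'
      apply q2
      apply mul_right_cancel₀ (Int.cast_ne_zero.2 q0 : ((Q.eval s0.1 : ℤ) : ℚ) ≠ 0)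
      simp only [dsc]
      push_cast
      linear_combination h')
  obtain ⟨N, hN⟩ : ∃ N : ℤ × ℚ → ℤ, ∀ s, N s =
      dsc A s.1 * s.2.den * s.2.num * (1728 * s.2.den - s.2.num) * Q.eval s.1 * R :=
    ⟨_, fun _ => rfl⟩
  have hN0 : ∀ s ∈ S, N s ≠ 0 := fun s hs => by
    obtain ⟨-, -, q0, -, p, -, -, q1, q2, q3, -⟩ := hS s hs
    rw [hN]
    refine mul_ne_zero (mul_ne_zero (mul_ne_zero (mul_ne_zero (mul_ne_zero q1 ?_) ?_) ?_) q0) hR0
    · exact_mod_cast s.2.den_ne_zero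
    · exact Rat.num_ne_zero.2 q2
    · intro h
      apply q3
      have h' : (s.2.num : ℚ) = 1728 * s.2.den := by exact_mod_cast (sub_eq_zero.1 h).symm
      rw [← Rat.num_div_den s.2, h', mul_div_cancel_right₀]
      exact_mod_cast s.2.den_ne_zero
  have hNb : ∀ s ∈ S, |(N s : ℝ)| ≤ X ^ c := fun s hs => by
    rw [hN, Int.cast_mul, Int.cast_mul, abs_mul, abs_mul, hc, pow_add, pow_add _ _ (κ + e + 1),
      pow_mul _ (κ + 1)]
    have e1 := regGraph_base hX hA (hB s hs) (hj s hs)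
    have e2 := regGraph_eval hXe hQ (fun i => (hco i).2) (hB s hs)
    gcongr
  have hc1 : 1 ≤ c := by omega
  obtain ⟨F, hF0, hF1, hF2, hF⟩ := sieve_det S (2400 * m ^ 22) 1 (1200 * m ^ 22) Pr
    (fun l hl => (hPr l hl).1)
    (fun l => (S.filter fun s => ¬ (l : ℤ) ∣ N s).image fun s => ((s.1 : ZMod l), redQ l s.2))
    (fun l hl => by
      obtain ⟨l1, l2, l3⟩ := hPr l hl
      have : Fact l.Prime := ⟨l1⟩
      set T := (S.filter fun s => ¬ (l : ℤ) ∣ N s).image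
        fun s => ((s.1 : ZMod l), redQ l s.2) with hT
      rcases T.eq_empty_or_nonempty with h | ⟨t0, ht0⟩
      · rw [h]
        exact Nat.zero_le _
      obtain ⟨s1, hs1, -⟩ := Finset.mem_image.1 ht0
      have hlR : ¬ (l : ℤ) ∣ R := fun h => (Finset.mem_filter.1 hs1).2 (hN s1 ▸ h.mul_left _)
      obtain ⟨r1, r2, r3, r4, r5, r6⟩ := hR l hlR
      have key : ∀ t ∈ T, dsc (A : ZMod l) t.1 ≠ 0 ∧
          (Q.map (Int.castRingHom (ZMod l))).eval t.1 ≠ 0 ∧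
          t.2 * (Q.map (Int.castRingHom (ZMod l))).eval t.1 =
            (P.map (Int.castRingHom (ZMod l))).eval t.1 ∧ t.2 ≠ 0 ∧ t.2 ≠ 1728 ∧
          Mat l A t.1 (ma t.2 1) (mb t.2 1) := by
        intro t ht
        obtain ⟨s, hs, rfl⟩ := Finset.mem_image.1 ht
        obtain ⟨hs, hl'⟩ := Finset.mem_filter.1 hs
        obtain ⟨-, -, -, q1, p, p1, p2, -, -, -, -, p3⟩ := hS s hs
        rw [hN] at hl'
        have b1 : ¬ (l : ℤ) ∣ dsc A s.1 * s.2.den * s.2.num * (1728 * s.2.den - s.2.num) :=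
          fun h => hl' ((h.mul_right _).mul_right _)
        have b2 : ¬ (l : ℤ) ∣ Q.eval s.1 := fun h => hl' ((h.mul_left _).mul_right _)
        have b3 : ¬ (l : ℤ) ∣ dsc A s.1 :=
          fun h => b1 (((h.mul_right _).mul_right _).mul_right _)
        have b4 : ¬ (l : ℤ) ∣ s.2.den := fun h => b1 (((h.mul_left _).mul_right _).mul_right _)
        have b5 : m ^ 26 < p := by exact_mod_cast hpow.trans_lt p2
        have b6 : 11 * m ^ 23 ≤ m ^ 26 := by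
          rw [show m ^ 26 = m ^ 3 * m ^ 23 by ring]
          exact Nat.mul_le_mul_right _ (le_trans (by norm_num) (Nat.pow_le_pow_left h11 3))
        have b7 : 11 ≤ m ^ 23 := h11.trans (Nat.le_self_pow (by norm_num) m)
        obtain ⟨c1, c2, c3⟩ := mat_of_pmc (l := l) p1 (by omega) (by omega) p3 b1
        have b8 : ∀ f : ℤ[X], (f.map (Int.castRingHom (ZMod l))).eval (s.1 : ZMod l) =
            ((f.eval s.1 : ℤ) : ZMod l) := fun f => eval_intCast_map _ f s.1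
        refine ⟨?_, ?_, ?_, c1, c2, c3⟩
        · intro h
          apply b3
          rw [← ZMod.intCast_zmod_eq_zero_iff_dvd, ← h]
          simp [dsc]
        · rw [b8]
          exact fun h => b2 ((ZMod.intCast_zmod_eq_zero_iff_dvd _ _).1 h)
        · have d1 : ((s.2.den : ℤ) : ZMod l) ≠ 0 :=
            fun h => b4 ((ZMod.intCast_zmod_eq_zero_iff_dvd _ _).1 h)
          have d2 : s.2.num * Q.eval s.1 = P.eval s.1 * s.2.den := by
            have d3 : (s.2.num : ℚ) * (Q.eval s.1 : ℤ) = (P.eval s.1 : ℤ) * s.2.den := by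
              rw [← q1, mul_right_comm, Rat.mul_den_eq_num]
            exact_mod_cast d3
          have d4 := congrArg (fun z : ℤ => (z : ZMod l)) d2
          simp only [Int.cast_mul] at d4
          rw [Int.cast_natCast] at d1 d4
          simp only [b8, redQ]
          field_simp
          exact d4.trans (mul_comm _ _)
      have hi : Set.InjOn Prod.fst (T : Set (ZMod l × ZMod l)) := fun t ht t' ht' h => by
        obtain ⟨-, a1, a2, -⟩ := key t ht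
        obtain ⟨-, -, a3, -⟩ := key t' ht'
        rw [← h, ← a2] at a3
        exact Prod.ext h (mul_right_cancel₀ a1 a3).symm
      have hem : e < m := by omega
      have hg := ch_graph l hm h11 l2 r1 (natDegree_map_le.trans_lt (hP.trans_lt hem))
        (natDegree_map_le.trans_lt (hQ.trans_lt hem)) r2 r3 r4 r5 r6 (T.image Prod.fst)
        (fun x hx => by
          obtain ⟨t, ht, rfl⟩ := Finset.mem_image.1 hx
          obtain ⟨a1, a2, a3⟩ := key t ht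
          exact ⟨a1, a2, t.2, a3⟩)
      rw [Finset.card_image_of_injOn hi] at hg
      refine Nat.le_of_mul_le_mul_left (hg.trans ?_) hm.pos
      rw [show m * (1200 * m ^ 22) = 300 * (4 * m ^ 23) by ring]
      exact Nat.mul_le_mul_left _ l3)
    N (X ^ c) (c * Real.log X) (one_le_pow₀ hX1) (by positivity)
    (fun s hs => ⟨hN0 s hs, by
      rw [← Real.log_pow]
      exact Real.log_le_log (abs_pos.2 (Int.cast_ne_zero.2 (hN0 s hs))) (hNb s hs), by
      rw [hN]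
      exact (((((dvd_refl _).mul_left _).mul_right _).mul_right _).mul_right _).mul_right _,
      (hB s hs).trans (le_self_pow₀ hX1 (by omega)),
      (hj s hs).trans (pow_le_pow_right₀ hX1 (by omega)),
      fun l _ hl => Finset.mem_image.2 ⟨s, Finset.mem_filter.2 ⟨hs, hl⟩, rfl⟩⟩)
    (by omega) one_pos
    (by
      rw [Real.log_pow]
      exact regGraph_ineq hc1 hL (by exact_mod_cast hcL) hsum)
  rw [eq_C_of_natDegree_eq_zero (Nat.lt_one_iff.1 hF1)] at hF0 hF2 hF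
  generalize F.coeff 0 = f at hF0 hF2 hF
  have hf : f ≠ 0 := fun h => hF0 (by rw [h, C_0])
  rw [dX, Bivariate.swap_C, natDegree_map] at hF2
  have hcard : S.card ≤ f.natDegree := by
    refine le_trans ?_ ((Multiset.toFinset_card_le f.roots).trans (card_roots' f))
    refine Finset.card_le_card_of_injOn (fun s => (s.1 : ℚ)) (fun s hs => ?_)
      fun s hs t ht h => hinj hs ht (Int.cast_injective h)
    have h := hF s hs
    rw [evalEval_C] at h
    exact Finset.mem_coe.2 (Multiset.mem_toFinset.2 ((mem_roots hf).2 h))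
  refine le_trans ?_ hpow
  have h26 : 2400 * m ^ 22 ≤ m ^ 26 := by
    rw [show m ^ 26 = m ^ 4 * m ^ 22 by ring]
    exact Nat.mul_le_mul_right _ hm4
  exact_mod_cast (hcard.trans hF2.le).trans h26

end Pool.Agent.P.MP_a60a76_nt.Fs
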