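import Pool.Agent.P.MP_a60a76_nt.Fs.Defs
import Pool.Agent.P.MP_a60a76_nt.Fs.Sieve
import Pool.Agent.P.MP_a60a76_nt.Fs.ChConst
import Pool.Agent.P.MP_a60a76_nt.Fs.FrobArith

namespace Pool.Agent.P.MP_a60a76_nt.Fs

open Polynomial
open scoped NNReal

theorem regSurf_card (l : ℕ) [Fact l.Prime] {m : ℕ} (hm : m.Prime) (h5 : 5 ≤ m)
    (hl : m ^ 21 < l) (a : ZMod l) (T : Finset (ZMod l × ZMod l))
    (hT : ∀ s ∈ T, s.2 ≠ 0 ∧ s.2 ≠ 1728 ∧ Mat l a s.1 (ma s.2 1) (mb s.2 1)) :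
    m * T.card ≤ 100 * l ^ 2 := by
  classical
  have h1 : T.card = ∑ x : ZMod l, (T.filter fun s => s.1 = x).card :=
    Finset.card_eq_sum_card_fiberwise (fun _ _ => Finset.mem_coe.2 (Finset.mem_univ _))
  have h2 : ∀ x : ZMod l, m * (T.filter fun s => s.1 = x).card ≤ 100 * l := by
    intro x
    have h3 : ((T.filter fun s => s.1 = x).image Prod.snd).card =
        (T.filter fun s => s.1 = x).card := by
      apply Finset.card_image_of_injOn
      intro s hs t ht hst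
      have hs' := (Finset.mem_filter.1 (Finset.mem_coe.1 hs)).2
      have ht' := (Finset.mem_filter.1 (Finset.mem_coe.1 ht)).2
      exact Prod.ext (hs'.trans ht'.symm) hst
    rw [← h3]
    refine ch_surf l hm h5 hl (tr l a x) _ ?_
    intro c hc
    obtain ⟨s, hs, rfl⟩ := Finset.mem_image.1 hc
    obtain ⟨hs1, hs2⟩ := Finset.mem_filter.1 hs
    obtain ⟨e1, e2, e3⟩ := hT s hs1
    refine ⟨e1, e2, ?_⟩
    rw [hs2] at e3
    rcases e3 with e3 | e3
    · exact Or.inl e3.symm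
    · right
      rw [e3, neg_neg]
  rw [h1, Finset.mul_sum]
  calc ∑ x : ZMod l, m * (T.filter fun s => s.1 = x).card ≤ ∑ _x : ZMod l, 100 * l :=
        Finset.sum_le_sum fun x _ => h2 x
    _ = 100 * l ^ 2 := by
        rw [Finset.sum_const, Finset.card_univ, ZMod.card, smul_eq_mul]; ring

open Classical in
/-- The residue pairs with matching traces. -/
noncomputable def regSurfSet (A : ℤ) (l : ℕ) : Finset (ZMod l × ZMod l) :=
  if h : l.Prime then
    haveI : Fact l.Prime := ⟨h⟩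
    Finset.univ.filter fun s : ZMod l × ZMod l =>
      s.2 ≠ 0 ∧ s.2 ≠ 1728 ∧ Mat l (A : ZMod l) s.1 (ma s.2 1) (mb s.2 1)
  else ∅

theorem regSurf_mem (A : ℤ) (l : ℕ) [h : Fact l.Prime] (s : ZMod l × ZMod l) :
    s ∈ regSurfSet A l ↔
      s.2 ≠ 0 ∧ s.2 ≠ 1728 ∧ Mat l (A : ZMod l) s.1 (ma s.2 1) (mb s.2 1) := by
  unfold regSurfSet
  rw [dif_pos h.out]
  simp only [Finset.mem_filter, Finset.mem_univ, true_and]

theorem regSurf_size {A B : ℤ} {j : ℚ} {H : ℝ} (hH : 53599 ≤ H) (hA : |(A : ℝ)| ≤ H)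
    (hB : (B : ℝ) ^ 2 ≤ H) (hj : (hgt j : ℝ) ≤ H) :
    |((dsc A B * j.den * j.num * (1728 * j.den - j.num) : ℤ) : ℝ)| ≤ H ^ 7 := by
  have hH1 : (1 : ℝ) ≤ H := by linarith
  have hH0 : (0 : ℝ) ≤ H := by linarith
  have hden : |(j.den : ℝ)| ≤ H := by
    rw [abs_of_nonneg (Nat.cast_nonneg _)]
    refine le_trans ?_ hj
    exact_mod_cast le_max_right _ _
  have hnum : |(j.num : ℝ)| ≤ H := by
    refine le_trans ?_ hj
    rw [← Int.cast_abs, ← Nat.cast_natAbs]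
    exact_mod_cast le_max_left _ _
  have h3 : H ≤ H ^ 3 := le_self_pow₀ hH1 (by norm_num)
  have hd : |4 * (A : ℝ) ^ 3 + 27 * (B : ℝ) ^ 2| ≤ 31 * H ^ 3 := by
    have e1 : |(A : ℝ) ^ 3| ≤ H ^ 3 := by
      rw [abs_pow]; exact pow_le_pow_left₀ (abs_nonneg _) hA 3
    have e2 := abs_le.1 e1
    have e3 := sq_nonneg (B : ℝ)
    rw [abs_le]
    constructor <;> linarith [e2.1, e2.2]
  have hl : |1728 * (j.den : ℝ) - j.num| ≤ 1729 * H := by
    have e1 := abs_le.1 hden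
    have e2 := abs_le.1 hnum
    rw [abs_le]
    constructor <;> linarith [e1.1, e1.2, e2.1, e2.2]
  have e : ((dsc A B * j.den * j.num * (1728 * j.den - j.num) : ℤ) : ℝ) =
      (4 * (A : ℝ) ^ 3 + 27 * (B : ℝ) ^ 2) * j.den * j.num * (1728 * (j.den : ℝ) - j.num) := by
    simp only [dsc]; push_cast; ring
  rw [e, abs_mul, abs_mul, abs_mul]
  calc |4 * (A : ℝ) ^ 3 + 27 * (B : ℝ) ^ 2| * |(j.den : ℝ)| * |(j.num : ℝ)| *
        |1728 * (j.den : ℝ) - j.num| ≤ 31 * H ^ 3 * H * H * (1729 * H) := by gcongr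
    _ = 53599 * H ^ 6 := by ring
    _ ≤ H * H ^ 6 := by gcongr
    _ = H ^ 7 := by ring

theorem regSurf_ineq {c L n m U s : ℝ} (hc : 1 ≤ c) (hL : 1 ≤ L) (hLn : L ≤ n)
    (hn : 2640 * c < n) (hm : n ^ 4 < m) (hm2 : m ≤ 2 * n ^ 4) (hU : U = 120 * m ^ 20 * n ^ 2)
    (hs : m ^ 21 ≤ s) :
    U * U * (7 * (c * L) + Real.log (U * U) + (U + U) * (c * L)) <
      (U * U - 1600 * m ^ 41) * s := by
  have hn1 : 1 ≤ n := hL.trans hLn
  have hn0 : 0 < n := by linarith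
  have hm1 : 1 ≤ m := (one_le_pow₀ hn1).trans hm.le
  have hm0 : 0 < m := by linarith
  have hw : 1 ≤ m ^ 20 := one_le_pow₀ hm1
  have hw0 : 0 < m ^ 20 := by positivity
  have hn2 : 1 ≤ n ^ 2 := one_le_pow₀ hn1
  have hU1 : 1 ≤ U := by
    have := one_le_mul_of_one_le_of_one_le hw hn2
    rw [hU, mul_assoc]; linarith
  have hU0 : 0 < U := by linarith
  have hcL : 1 ≤ c * L := one_le_mul_of_one_le_of_one_le hc hL
  have hlog : Real.log (U * U) ≤ 2 * U := by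
    rw [Real.log_mul hU0.ne' hU0.ne']
    have := Real.log_le_sub_one_of_pos hU0
    linarith
  have hUU : 2 * (1600 * m ^ 41) ≤ U * U := by
    calc 2 * (1600 * m ^ 41) = 3200 * (m ^ 20) ^ 2 * m := by ring
      _ ≤ 3200 * (m ^ 20) ^ 2 * (2 * n ^ 4) := by gcongr
      _ = 6400 * ((m ^ 20) ^ 2 * n ^ 4) := by ring
      _ ≤ 14400 * ((m ^ 20) ^ 2 * n ^ 4) := by gcongr; norm_num
      _ = U * U := by rw [hU]; ring
  have h1 : 7 * (c * L) + Real.log (U * U) + (U + U) * (c * L) ≤ 11 * (U * (c * L)) := by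
    have e1 : c * L ≤ U * (c * L) := le_mul_of_one_le_left (by linarith) hU1
    have e2 : U ≤ U * (c * L) := le_mul_of_one_le_right hU0.le hcL
    have e3 : (U + U) * (c * L) = 2 * (U * (c * L)) := by ring
    linarith
  have h2 : 11 * (U * (c * L)) < m ^ 21 / 2 := by
    calc 11 * (U * (c * L)) ≤ 11 * (U * (c * n)) := by gcongr
      _ = m ^ 20 * n ^ 3 * (2640 * c) / 2 := by rw [hU]; ring
      _ < m ^ 20 * n ^ 3 * n / 2 := by gcongr
      _ = m ^ 20 * n ^ 4 / 2 := by ring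
      _ ≤ m ^ 20 * m / 2 := by gcongr
      _ = m ^ 21 / 2 := by ring
  have hUU0 : 0 < U * U := mul_pos hU0 hU0
  calc U * U * (7 * (c * L) + Real.log (U * U) + (U + U) * (c * L))
      < U * U * (m ^ 21 / 2) := mul_lt_mul_of_pos_left (h1.trans_lt h2) hUU0
    _ = U * U / 2 * m ^ 21 := by ring
    _ ≤ (U * U - 1600 * m ^ 41) * s := by
        refine mul_le_mul (by linarith) hs (by positivity) (by linarith)

theorem reg_three_surf (A0 : ℝ) : ∃ K : ℕ, ∀ᶠ X : ℝ in Filter.atTop, ∀ A : ℤ, |(A : ℝ)| ≤ X →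
    ∀ S : Finset (ℤ × ℚ),
    (∀ s ∈ S, |(s.1 : ℝ)| ≤ √X ∧ (hgt s.2 : ℝ) ≤ X ^ A0 ∧
      ∃ p : ℕ, p.Prime ∧ Real.log X ^ K < p ∧ Par p A s.1 s.2) →
    ∃ F : ℚ[X][X], F ≠ 0 ∧ (F.natDegree : ℝ) ≤ Real.log X ^ K ∧ (dX F : ℝ) ≤ Real.log X ^ K ∧
      ∀ s ∈ S, F.evalEval (s.1 : ℚ) s.2 = 0 := by
  obtain ⟨z0, hz0⟩ := theta_window
  refine ⟨85, ?_⟩
  set c : ℝ := |A0| + 1 with hc
  have hc1 : 1 ≤ c := by have := abs_nonneg A0; linarith
  filter_upwards [Filter.eventually_ge_atTop (53599 : ℝ),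
    Real.tendsto_log_atTop.eventually_ge_atTop z0,
    Real.tendsto_log_atTop.eventually_ge_atTop ((2 : ℝ) ^ 109),
    Real.tendsto_log_atTop.eventually_gt_atTop (2640 * c)] with X hX hLz hL2 hLc A hA S hS
  set L := Real.log X with hLdef
  have hX1 : (1 : ℝ) ≤ X := by linarith
  have hX0 : (0 : ℝ) < X := by linarith
  have hL1 : 1 ≤ L := by linarith
  set n : ℕ := ⌈L⌉₊ with hndef
  have hLn : L ≤ n := Nat.le_ceil L
  have hnL : (n : ℝ) ≤ 2 * L := by
    have := Nat.ceil_lt_add_one (show (0 : ℝ) ≤ L by linarith)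
    linarith
  have hn11 : 11 ≤ n := by
    have : (11 : ℝ) ≤ n := by linarith
    exact_mod_cast this
  obtain ⟨m, hm, hm1, hm2⟩ := Nat.exists_prime_lt_and_le_two_mul (n ^ 4) (by positivity)
  have hn4 : n ≤ n ^ 4 := Nat.le_self_pow (by norm_num) n
  have hm5 : 5 ≤ m := by omega
  have hm21 : m ≤ m ^ 21 := Nat.le_self_pow (by norm_num) m
  have hmR1 : (n : ℝ) ^ 4 < m := by exact_mod_cast hm1
  have hmR2 : (m : ℝ) ≤ 2 * (n : ℝ) ^ 4 := by exact_mod_cast hm2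
  have hw1 : (1 : ℝ) ≤ (m : ℝ) ^ 21 := one_le_pow₀ (by exact_mod_cast hm.one_le)
  have hbig : 10 * (m : ℝ) ^ 21 ≤ L ^ 85 := by
    calc 10 * (m : ℝ) ^ 21 ≤ 16 * (2 * (2 * L) ^ 4) ^ 21 := by
          have : (m : ℝ) ≤ 2 * (2 * L) ^ 4 := hmR2.trans (by gcongr)
          gcongr
          norm_num
      _ = 2 ^ 109 * L ^ 84 := by ring
      _ ≤ L * L ^ 84 := by gcongr
      _ = L ^ 85 := by ring
  obtain ⟨P, hP, hPs⟩ := hz0 ((m : ℝ) ^ 21) (4 * (m : ℝ) ^ 21) (by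
      have : (n : ℝ) ≤ (m : ℝ) ^ 21 := by exact_mod_cast (by omega : n ≤ m ^ 21)
      linarith) (by positivity) (by linarith)
  have hXH : X ≤ X ^ c := by
    calc X = X ^ (1 : ℝ) := (Real.rpow_one X).symm
      _ ≤ X ^ c := Real.rpow_le_rpow_of_exponent_le hX1 hc1
  have hAH : X ^ A0 ≤ X ^ c :=
    Real.rpow_le_rpow_of_exponent_le hX1 (by have := le_abs_self A0; linarith)
  have hlogH : Real.log (X ^ c) = c * L := Real.log_rpow hX0 c
  have hsq : √X ≤ X := by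
    rw [Real.sqrt_le_left hX0.le]
    nlinarith only [hX1]
  have hU0 : 0 < 120 * m ^ 20 * n ^ 2 := by
    have := hm.pos
    have : 0 < n := by omega
    positivity
  have hUle : 120 * m ^ 20 * n ^ 2 ≤ m ^ 21 := by
    have e1 : 120 ≤ n ^ 2 := by nlinarith only [hn11]
    calc 120 * m ^ 20 * n ^ 2 ≤ n ^ 2 * m ^ 20 * n ^ 2 := by gcongr
      _ = m ^ 20 * n ^ 4 := by ring
      _ ≤ m ^ 20 * m := by gcongr
      _ = m ^ 21 := by ring
  obtain ⟨F, hF0, hF1, hF2, hF3⟩ := sieve_det S (120 * m ^ 20 * n ^ 2) (120 * m ^ 20 * n ^ 2)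
    (1600 * m ^ 41) P (fun l hl => (hP l hl).1) (regSurfSet A) (by
      intro l hl
      obtain ⟨h1, h2, h3⟩ := hP l hl
      haveI : Fact l.Prime := ⟨h1⟩
      have h2' : m ^ 21 < l := by exact_mod_cast h2
      have h3' : l ≤ 4 * m ^ 21 := by exact_mod_cast h3
      have h4 := regSurf_card l hm hm5 h2' (A : ZMod l) (regSurfSet A l)
        (fun s hs => (regSurf_mem A l s).1 hs)
      refine Nat.le_of_mul_le_mul_left (h4.trans ?_) hm.pos
      calc 100 * l ^ 2 ≤ 100 * (4 * m ^ 21) ^ 2 := by gcongr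
        _ = m * (1600 * m ^ 41) := by ring)
    (fun s => dsc A s.1 * s.2.den * s.2.num * (1728 * s.2.den - s.2.num)) (X ^ c) (7 * (c * L))
    (by linarith) (by positivity) (by
      intro s hs
      obtain ⟨h1, h2, p, hp, hpL, hd, hj0, hj1, -, hpmc⟩ := hS s hs
      have hN : dsc A s.1 * s.2.den * s.2.num * (1728 * s.2.den - s.2.num) ≠ 0 := by
        refine mul_ne_zero (mul_ne_zero (mul_ne_zero hd ?_) (Rat.num_ne_zero.2 hj0)) ?_
        · exact_mod_cast s.2.den_nz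
        · intro h
          apply hj1
          have e1 : (s.2.num : ℚ) = 1728 * s.2.den := by
            exact_mod_cast (sub_eq_zero.1 h).symm
          have e2 : (s.2.den : ℚ) ≠ 0 := by exact_mod_cast s.2.den_nz
          rw [← Rat.num_div_den s.2, e1, mul_div_assoc, div_self e2, mul_one]
      refine ⟨hN, ?_, ?_, by linarith, by linarith, ?_⟩
      · have hB : ((s.1 : ℤ) : ℝ) ^ 2 ≤ X ^ c := by
          have e1 : |((s.1 : ℤ) : ℝ)| ^ 2 ≤ √X ^ 2 := pow_le_pow_left₀ (abs_nonneg _) h1 2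
          rw [sq_abs, Real.sq_sqrt hX0.le] at e1
          linarith
        have e1 := regSurf_size (A := A) (B := s.1) (j := s.2) (H := X ^ c) (by linarith)
          (by linarith) hB (by linarith)
        have e2 := Real.log_le_log (abs_pos.2 (Int.cast_ne_zero.2 hN)) e1
        rw [Real.log_pow, hlogH] at e2
        exact_mod_cast e2
      · exact Dvd.dvd.mul_right (Dvd.dvd.mul_right (Dvd.intro_left _ rfl) _) _
      · intro l hl hlN
        obtain ⟨e1, e2, e3⟩ := hP l hl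
        haveI : Fact l.Prime := ⟨e1⟩
        have e2' : m ^ 21 < l := by exact_mod_cast e2
        have e4 : 2 * l + 2 < p := by
          have : (2 * l + 2 : ℝ) < p := by linarith
          exact_mod_cast this
        exact (regSurf_mem A l _).2 (mat_of_pmc hp (by omega) e4 hpmc hlN))
    hU0 hU0 (by
      rw [hlogH]
      have := regSurf_ineq (U := ((120 * m ^ 20 * n ^ 2 : ℕ) : ℝ)) (s := ∑ l ∈ P, Real.log l)
        hc1 hL1 hLn (by linarith) hmR1 hmR2 (by push_cast; ring) (by linarith)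
      have e : ((1600 * m ^ 41 : ℕ) : ℝ) = 1600 * (m : ℝ) ^ 41 := by push_cast; ring
      rw [e]
      exact this)
  have hfin : ∀ k : ℕ, k < 120 * m ^ 20 * n ^ 2 → (k : ℝ) ≤ L ^ 85 := by
    intro k hk
    have : (k : ℝ) ≤ (m : ℝ) ^ 21 := by exact_mod_cast (by omega : k ≤ m ^ 21)
    linarith
  exact ⟨F, hF0, hfin _ hF1, hfin _ hF2, hF3⟩

end Pool.Agent.P.MP_a60a76_nt.Fs
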