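import Pool.Agent.P.MP_a60a76_nt.Fs.Defs
import Pool.Agent.P.MP_a60a76_nt.Fs.RegSurf
import Pool.Agent.P.MP_a60a76_nt.Fs.RegGraph
import Pool.Agent.P.MP_a60a76_nt.Fs.Curve

namespace Pool.Agent.P.MP_a60a76_nt.Fs

open Polynomial
open scoped NNReal

theorem regThree_log (c δ : ℝ) (k : ℕ) (hδ : 0 < δ) :
    ∀ᶠ X : ℝ in Filter.atTop, c * Real.log X ^ k ≤ X ^ δ / 2 := by
  have h := (isLittleO_log_rpow_rpow_atTop (k : ℝ) hδ).bound
    (c := 1 / (2 * (|c| + 1))) (by positivity)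
  filter_upwards [h, Filter.eventually_ge_atTop (1 : ℝ)] with X hX h1
  have hL : 0 ≤ Real.log X := Real.log_nonneg h1
  have hp : 0 ≤ X ^ δ := Real.rpow_nonneg (by linarith) _
  rw [Real.rpow_natCast, Real.norm_of_nonneg (pow_nonneg hL _), Real.norm_of_nonneg hp] at hX
  have hc : 0 < |c| + 1 := by positivity
  calc c * Real.log X ^ k ≤ (|c| + 1) * Real.log X ^ k := by
        apply mul_le_mul_of_nonneg_right _ (pow_nonneg hL _)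
        linarith [le_abs_self c]
    _ ≤ (|c| + 1) * (1 / (2 * (|c| + 1)) * X ^ δ) := mul_le_mul_of_nonneg_left hX hc.le
    _ = X ^ δ / 2 := by field_simp

theorem reg_three (A0 ε : ℝ) (hε : 0 < ε) : ∃ K : ℕ, ∀ᶠ X : ℝ in Filter.atTop, ∀ A : ℤ,
    ¬ IsSquare (-3 * A) → |(A : ℝ)| ≤ X → ∀ S : Finset (ℤ × ℚ),
    Set.InjOn Prod.fst (S : Set (ℤ × ℚ)) →
    (∀ s ∈ S, |(s.1 : ℝ)| ≤ √X ∧ (hgt s.2 : ℝ) ≤ X ^ A0 ∧
      ∃ p : ℕ, p.Prime ∧ Real.log X ^ K < p ∧ Par p A s.1 s.2) →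
    (S.card : ℝ) ≤ X ^ (1 / 4 + ε) := by
  classical
  obtain ⟨K1, h1⟩ := reg_three_surf A0
  obtain ⟨c, K2, h2⟩ := curve (ε / 2) (by positivity)
  set κ : ℕ := ⌈|A0|⌉₊ + 1 with hκ
  obtain ⟨K3, h3⟩ := reg_three_graph A0 (K2 * κ) ((K2 * κ) ^ 2)
  refine ⟨max K1 K3, ?_⟩
  filter_upwards [h1, h3, Filter.eventually_ge_atTop (3 : ℝ),
    regThree_log (|c| * (κ : ℝ) ^ K2) (ε / 2) (K1 * K2) (by positivity),
    regThree_log 1 (1 / 4 + ε) (K1 * 2 + K3) (by positivity)] with X h1 h3 hX3 hb1 hb2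
  intro A hsq hA S hinj hS
  have hX0 : 0 < X := by linarith
  have hL : 1 ≤ Real.log X := by
    rw [Real.le_log_iff_exp_le hX0]
    linarith [Real.exp_one_lt_d9]
  have hm1 : Real.log X ^ K1 ≤ Real.log X ^ max K1 K3 := pow_le_pow_right₀ hL (le_max_left _ _)
  have hm3 : Real.log X ^ K3 ≤ Real.log X ^ max K1 K3 := pow_le_pow_right₀ hL (le_max_right _ _)
  obtain ⟨F, hF0, hFd, hFx, hFv⟩ := h1 A hA S (fun s hs => by
    obtain ⟨a1, a2, p, a3, a4, a5⟩ := hS s hs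
    exact ⟨a1, a2, p, a3, lt_of_le_of_lt hm1 a4, a5⟩)
  have hL1 : 1 ≤ Real.log X ^ K1 := one_le_pow₀ hL
  set n : ℕ := ⌊Real.log X ^ K1⌋₊ with hn
  have hn1 : 1 ≤ n := Nat.le_floor (by simpa using hL1)
  have hnle : (n : ℝ) ≤ Real.log X ^ K1 := Nat.floor_le (by linarith)
  have hAκ : X ^ A0 ≤ X ^ κ := by
    rw [← Real.rpow_natCast]
    apply Real.rpow_le_rpow_of_exponent_le (by linarith)
    have := Nat.le_ceil |A0|
    have h' := le_abs_self A0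
    rw [hκ]; push_cast; linarith
  obtain ⟨Φ, S0, hΦ, hφ, hS0, hcov⟩ := h2 X n κ S F (by linarith) hn1 (by omega) hF0
    (Nat.le_floor hFd) (Nat.le_floor hFx) hinj
    (fun s hs => ⟨(hS s hs).1, (hS s hs).2.1.trans hAκ, hFv s hs⟩)
  let T : ℤ[X] × ℤ[X] → Finset (ℤ × ℚ) := fun φ =>
    S.filter fun s => φ.2.eval s.1 ≠ 0 ∧ s.2 * (φ.2.eval s.1 : ℤ) = (φ.1.eval s.1 : ℤ)
  have hT : ∀ φ ∈ Φ, ((T φ).card : ℝ) ≤ Real.log X ^ K3 := by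
    intro φ hφ'
    obtain ⟨-, b2, b3, b4⟩ := hφ φ hφ'
    refine h3 A hsq hA φ.1 φ.2 b2 b3 b4 (T φ)
      (hinj.mono (by intro s hs; exact (Finset.mem_filter.1 hs).1)) ?_
    intro s hs
    obtain ⟨hs1, hs2, hs3⟩ := Finset.mem_filter.1 hs
    obtain ⟨a1, a2, p, a3, a4, a5⟩ := hS s hs1
    exact ⟨a1, a2, hs2, hs3, p, a3, lt_of_le_of_lt hm3 a4, a5⟩
  have hsub : S ⊆ S0 ∪ Φ.biUnion T := by
    intro s hs
    rcases hcov s hs with h | ⟨φ, h4, h5⟩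
    · exact Finset.mem_union_left _ h
    · exact Finset.mem_union_right _
        (Finset.mem_biUnion.2 ⟨φ, h4, Finset.mem_filter.2 ⟨hs, h5⟩⟩)
  have hc1 : S.card ≤ S0.card + ∑ φ ∈ Φ, (T φ).card :=
    (Finset.card_le_card hsub).trans
      ((Finset.card_union_le _ _).trans (Nat.add_le_add_left Finset.card_biUnion_le _))
  have hc2 : (S.card : ℝ) ≤ S0.card + ∑ φ ∈ Φ, ((T φ).card : ℝ) := by exact_mod_cast hc1
  have hc3 : ∑ φ ∈ Φ, ((T φ).card : ℝ) ≤ Φ.card * Real.log X ^ K3 := by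
    have := Finset.sum_le_card_nsmul Φ (fun φ => ((T φ).card : ℝ)) _ hT
    simpa using this
  have hΦ' : (Φ.card : ℝ) ≤ (Real.log X ^ K1) ^ 2 := by
    have : (Φ.card : ℝ) ≤ (n : ℝ) ^ 2 := by exact_mod_cast hΦ
    exact this.trans (pow_le_pow_left₀ (Nat.cast_nonneg _) hnle 2)
  have hc4 : (Φ.card : ℝ) * Real.log X ^ K3 ≤ X ^ (1 / 4 + ε) / 2 := by
    refine le_trans ?_ hb2
    rw [one_mul, pow_add, pow_mul]
    exact mul_le_mul_of_nonneg_right hΦ' (by positivity)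
  have hc5 : (S0.card : ℝ) ≤ X ^ (1 / 4 + ε) / 2 := by
    have e1 : X ^ (1 / 4 + ε) = X ^ (ε / 2) * X ^ (1 / 4 + ε / 2) := by
      rw [← Real.rpow_add hX0]; congr 1; ring
    have e2 : c * ((n : ℝ) * κ) ^ K2 ≤ X ^ (ε / 2) / 2 := by
      refine le_trans ?_ hb1
      calc c * ((n : ℝ) * κ) ^ K2 ≤ |c| * ((n : ℝ) * κ) ^ K2 :=
            mul_le_mul_of_nonneg_right (le_abs_self c) (by positivity)
        _ ≤ |c| * (Real.log X ^ K1 * κ) ^ K2 := by gcongr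
        _ = |c| * (κ : ℝ) ^ K2 * Real.log X ^ (K1 * K2) := by rw [mul_pow, pow_mul]; ring
    have e3 : 0 ≤ X ^ (1 / 4 + ε / 2) := Real.rpow_nonneg hX0.le _
    calc (S0.card : ℝ) ≤ c * ((n : ℝ) * κ) ^ K2 * X ^ (1 / 4 + ε / 2) := hS0
      _ ≤ X ^ (ε / 2) / 2 * X ^ (1 / 4 + ε / 2) := mul_le_mul_of_nonneg_right e2 e3
      _ = X ^ (1 / 4 + ε) / 2 := by rw [e1]; ring
  linarith

end Pool.Agent.P.MP_a60a76_nt.Fs
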