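import Pool.Agent.P.MP_a60a76_nt.Fs.Defs
import Pool.Agent.P.MP_a60a76_nt.Fs.RegOne
import Pool.Agent.P.MP_a60a76_nt.Fs.RegThree
import Pool.Agent.P.MP_a60a76_nt.Fs.DensB

namespace Pool.Agent.P.MP_a60a76_nt.Fs

open Polynomial
open scoped NNReal

theorem main_fib {α β : Type*} [DecidableEq β] (s : Finset α) (f : α → β) {b n : ℝ} (hb : 0 ≤ b)
    (h : ∀ a ∈ s, ((s.filter fun x => f x = f a).card : ℝ) ≤ b)
    (hn : ((s.image f).card : ℝ) ≤ n) : (s.card : ℝ) ≤ n * b := by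
  rw [Finset.card_eq_sum_card_image f s, Nat.cast_sum]
  refine (Finset.sum_le_card_nsmul _ _ b fun y hy => ?_).trans ?_
  · obtain ⟨a, ha, rfl⟩ := Finset.mem_image.1 hy
    exact h a ha
  · rw [nsmul_eq_mul]
    exact mul_le_mul_of_nonneg_right hn hb

theorem main_img {A : ℤ} {b : ℝ} {Q : ℤ × ℚ → Prop}
    (h : ∀ S : Finset (ℤ × ℚ), Set.InjOn Prod.fst (S : Set (ℤ × ℚ)) → (∀ s ∈ S, Q s) →
      (S.card : ℝ) ≤ b) (j : ℤ × ℤ → ℚ) (G : Finset (ℤ × ℤ))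
    (hG : ∀ c ∈ G, c.1 = A ∧ Q (c.2, j c)) : (G.card : ℝ) ≤ b := by
  have h1 : ∀ c ∈ G, ∀ c' ∈ G, c.2 = c'.2 → c = c' := fun c hc c' hc' h2 =>
    Prod.ext ((hG c hc).1.trans (hG c' hc').1.symm) h2
  rw [← Finset.card_image_of_injOn (f := fun c : ℤ × ℤ => (c.2, j c))
    fun c hc c' hc' h2 => h1 c hc c' hc' (congrArg Prod.fst h2)]
  refine h _ (fun s hs s' hs' h2 => ?_) fun s hs => ?_
  · obtain ⟨c, hc, rfl⟩ := Finset.mem_image.1 (Finset.mem_coe.1 hs)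
    obtain ⟨c', hc', rfl⟩ := Finset.mem_image.1 (Finset.mem_coe.1 hs')
    rw [h1 c hc c' hc' h2]
  · obtain ⟨c, hc, rfl⟩ := Finset.mem_image.1 hs
    exact (hG c hc).2

theorem main_gamma (P0 : ℕ) (A0 : ℝ) (hP : 11 ≤ P0) (hA : 144 * A0 < P0 * ((P0 : ℝ) ^ 2 - 1)) :
    ∃ γ : ℝ, 0 < γ ∧ γ < 1 / 8 ∧ 9 * max A0 1 < 8 * (P0 * (P0 ^ 2 - 1) / 2 : ℕ) * γ ^ 2 := by
  obtain ⟨k, rfl⟩ : ∃ k, P0 = k + 1 := ⟨P0 - 1, by omega⟩
  obtain ⟨e, he⟩ := Nat.even_mul_succ_self k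
  have h1 : (k + 1) * ((k + 1) ^ 2 - 1) / 2 = e * (k + 2) := by
    rw [show (k + 1) ^ 2 - 1 = k * (k + 2) from Nat.sub_eq_of_eq_add (by ring),
      show (k + 1) * (k * (k + 2)) = k * (k + 1) * (k + 2) by ring, he,
      show (e + e) * (k + 2) = 2 * (e * (k + 2)) by ring]
    exact Nat.mul_div_cancel_left _ two_pos
  rw [h1]
  set d : ℝ := ((e * (k + 2) : ℕ) : ℝ) with hd
  have hk : (10 : ℝ) ≤ k := by exact_mod_cast (by omega : 10 ≤ k)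
  have he' : (k : ℝ) * (k + 1) = e + e := by exact_mod_cast he
  have h2 : 2 * d = ((k + 1 : ℕ) : ℝ) * (((k + 1 : ℕ) : ℝ) ^ 2 - 1) := by
    rw [hd]; push_cast; linear_combination -((k : ℝ) + 2) * he'
  have h3 : 72 < d := by
    rw [hd]; push_cast; nlinarith
  have h4 : 72 * max A0 1 < d := by
    rcases le_total A0 1 with h | h
    · rw [max_eq_right h]; linarith
    · rw [max_eq_left h]; linarith
  have h5 : (1 : ℝ) ≤ max A0 1 := le_max_right _ _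
  have h6 : 9 * max A0 1 / (8 * d) < (1 / 8) ^ 2 := by
    rw [div_lt_iff₀ (by linarith)]; linarith
  obtain ⟨y, y1, y2⟩ := exists_between h6
  have y0 : 0 < y := lt_trans (by positivity) y1
  refine ⟨√y, Real.sqrt_pos.2 y0, (Real.sqrt_lt' (by norm_num)).2 y2, ?_⟩
  rw [Real.sq_sqrt y0.le]
  rw [div_lt_iff₀ (by linarith)] at y1
  linarith

theorem main_short (P0 : ℕ) (A0 : ℝ) (hP : 11 ≤ P0) (hA : 144 * A0 < P0 * ((P0 : ℝ) ^ 2 - 1))
    (η : ℝ) (hη : 0 < η) : ∀ᶠ X : ℝ in Filter.atTop,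
    (Nat.card {c ∈ box X | ¬ IsSquare (-3 * c.1) ∧ ∃ (p : ℕ) (j : ℚ), p.Prime ∧ P0 ≤ p ∧
      (hgt j : ℝ) ≤ X ^ A0 ∧ Par p c.1 c.2 j} : ℝ) ≤ η * X ^ (5 / 6 : ℝ) := by
  classical
  obtain ⟨γ, g0, g1, g2⟩ := main_gamma P0 A0 hP hA
  obtain ⟨ε, e0, e1⟩ : ∃ ε : ℝ, 0 < ε ∧ 2 * γ + 2 * ε = 1 / 4 := ⟨1 / 8 - γ, by linarith, by ring⟩
  obtain ⟨c, K', h1⟩ := reg_one P0 (max A0 1) γ ε hP (lt_of_lt_of_le one_pos (le_max_right _ _))
    g0 e0 g2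
  obtain ⟨K, h3⟩ := reg_three A0 ε e0
  have hc : 0 < 3 * (1 + |c|) := by positivity
  filter_upwards [h3, Filter.eventually_ge_atTop 2,
    Real.tendsto_log_atTop.eventually_ge_atTop 1,
    (isLittleO_log_rpow_rpow_atTop ((K * (K' + 1) : ℕ) : ℝ) e0).bound (div_pos hη hc)]
    with X h3 hX hL hB
  have X0 : 0 < X := by linarith
  have X1 : 1 ≤ X := by linarith
  rw [Real.rpow_natCast, Real.norm_of_nonneg (by positivity),
    Real.norm_of_nonneg (by positivity), div_mul_eq_mul_div, le_div_iff₀ hc] at hB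
  set L := Real.log X with hLd
  rcases Set.finite_or_infinite {c ∈ box X | ¬ IsSquare (-3 * c.1) ∧ ∃ (p : ℕ) (j : ℚ),
    p.Prime ∧ P0 ≤ p ∧ (hgt j : ℝ) ≤ X ^ A0 ∧ Par p c.1 c.2 j} with hT | hT
  swap
  · rw [hT.card_eq_zero, Nat.cast_zero]; positivity
  rw [Nat.card_eq_card_finite_toFinset hT]
  set F := hT.toFinset
  have hF : ∀ c ∈ F, ∃ (p : ℕ) (j : ℚ), c ∈ box X ∧ ¬ IsSquare (-3 * c.1) ∧ p.Prime ∧ P0 ≤ p ∧
      (hgt j : ℝ) ≤ X ^ A0 ∧ Par p c.1 c.2 j := fun c hc => by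
    obtain ⟨a1, a2, p, j, a3⟩ := hT.mem_toFinset.1 hc
    exact ⟨p, j, a1, a2, a3⟩
  choose! p j b1 b2 b3 b4 b5 b6 using hF
  have t1 : 1 ≤ X ^ (1 / 3 : ℝ) := Real.one_le_rpow X1 (by norm_num)
  have c1 : ∀ c ∈ F, |(c.1 : ℝ)| ≤ X ^ (1 / 3 : ℝ) := fun c hc => by
    refine le_of_pow_le_pow_left₀ three_ne_zero (by positivity) ?_
    rw [← Real.rpow_natCast (X ^ (1 / 3 : ℝ)), ← Real.rpow_mul X0.le]
    have := (b1 c hc).1
    have := pow_nonneg (abs_nonneg (c.1 : ℝ)) 3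
    norm_num
    linarith
  have c2 : ∀ c ∈ F, |(c.1 : ℝ)| ≤ X := fun c hc => (c1 c hc).trans
    ((Real.rpow_le_rpow_of_exponent_le X1 (by norm_num)).trans_eq (Real.rpow_one X))
  have c3 : ∀ c ∈ F, |(c.2 : ℝ)| ≤ √X := fun c hc => Real.abs_le_sqrt (by
    have := (b1 c hc).2
    have := sq_nonneg (c.2 : ℝ)
    linarith)
  have c4 : ((F.image Prod.fst).card : ℝ) ≤ 3 * X ^ (1 / 3 : ℝ) := by
    have d1 : F.image Prod.fst ⊆ Finset.Icc (-(⌊X ^ (1 / 3 : ℝ)⌋₊ : ℤ)) ⌊X ^ (1 / 3 : ℝ)⌋₊ := by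
      intro A hA
      obtain ⟨c, hc, rfl⟩ := Finset.mem_image.1 hA
      rw [Finset.mem_Icc, ← abs_le, ← Int.natCast_natAbs, Nat.cast_le]
      refine Nat.le_floor ?_
      rw [Nat.cast_natAbs, Int.cast_abs]
      exact c1 c hc
    have d2 := Finset.card_le_card d1
    rw [Int.card_Icc, show (⌊X ^ (1 / 3 : ℝ)⌋₊ : ℤ) + 1 - -(⌊X ^ (1 / 3 : ℝ)⌋₊ : ℤ)
      = ((2 * ⌊X ^ (1 / 3 : ℝ)⌋₊ + 1 : ℕ) : ℤ) by push_cast; ring, Int.toNat_natCast] at d2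
    have d3 : ((F.image Prod.fst).card : ℝ) ≤ 2 * ⌊X ^ (1 / 3 : ℝ)⌋₊ + 1 := by exact_mod_cast d2
    have d4 := Nat.floor_le (show 0 ≤ X ^ (1 / 3 : ℝ) by positivity)
    linarith
  have L1 : 1 ≤ L ^ (K * (K' + 1)) := one_le_pow₀ hL
  refine (main_fib F Prod.fst (b := (1 + |c|) * L ^ (K * (K' + 1)) * X ^ (1 / 4 + 2 * γ + ε))
    (by positivity) (fun a ha => ?_) c4).trans ?_
  · set G := F.filter fun x => x.1 = a.1
    have hG : ∀ x ∈ G, x ∈ F ∧ x.1 = a.1 := fun x hx => Finset.mem_filter.1 hx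
    have d1 : ((G.filter fun x => L ^ K < p x).card : ℝ) ≤ X ^ (1 / 4 + ε) :=
      main_img (h3 a.1 (b2 a ha) (c2 a ha)) j _ fun x hx => by
        obtain ⟨x1, x2⟩ := Finset.mem_filter.1 hx
        obtain ⟨x3, x4⟩ := hG x x1
        exact ⟨x4, c3 x x3, b5 x x3, p x, b3 x x3, x2, x4 ▸ b6 x x3⟩
    have d2 : ((G.filter fun x => ¬ L ^ K < p x).card : ℝ)
        ≤ L ^ K * (|c| * (L ^ K) ^ K' * X ^ (1 / 4 + 2 * γ + ε)) := by
      refine main_fib _ p (by positivity) (fun y hy => ?_) ?_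
      · obtain ⟨y1, y2⟩ := Finset.mem_filter.1 hy
        obtain ⟨y3, -⟩ := hG y y1
        refine (main_img (A := a.1) (h1 X hX (p y) (b3 y y3) (b4 y y3) a.1 (b2 a ha) (c2 a ha))
          j _ fun x hx => ?_).trans ?_
        · obtain ⟨x1, x2⟩ := Finset.mem_filter.1 hx
          obtain ⟨x3, x4⟩ := hG x (Finset.mem_filter.1 x1).1
          exact ⟨x4, c3 x x3,
            (b5 x x3).trans (Real.rpow_le_rpow_of_exponent_le X1 (le_max_left _ _)),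
            x4 ▸ x2 ▸ b6 x x3⟩
        · have := not_lt.1 y2
          have := le_abs_self c
          gcongr
      · have d3 : (G.filter fun x => ¬ L ^ K < p x).image p ⊆ Finset.Icc 1 ⌊L ^ K⌋₊ := by
          intro q hq
          obtain ⟨x, hx, rfl⟩ := Finset.mem_image.1 hq
          obtain ⟨x1, x2⟩ := Finset.mem_filter.1 hx
          exact Finset.mem_Icc.2 ⟨(b3 x (hG x x1).1).one_le, Nat.le_floor (not_lt.1 x2)⟩
        have d4 := Finset.card_le_card d3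
        rw [Nat.card_Icc, Nat.add_sub_cancel] at d4
        exact (Nat.cast_le.2 d4).trans (Nat.floor_le (by positivity))
    have d3 : X ^ (1 / 4 + ε) ≤ L ^ (K * (K' + 1)) * X ^ (1 / 4 + 2 * γ + ε) :=
      (Real.rpow_le_rpow_of_exponent_le X1 (by linarith)).trans
        (le_mul_of_one_le_left (by positivity) L1)
    rw [← Finset.card_filter_add_card_filter_not (s := G) fun x => L ^ K < p x, Nat.cast_add]
    calc _ ≤ _ := add_le_add (d1.trans d3) d2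
      _ = _ := by rw [pow_mul]; ring
  · have d1 : X ^ (5 / 6 : ℝ) = X ^ ε * (X ^ (1 / 3 : ℝ) * X ^ (1 / 4 + 2 * γ + ε)) := by
      rw [← Real.rpow_add X0, ← Real.rpow_add X0]
      congr 1
      linarith
    rw [d1, ← mul_assoc η]
    calc _ = L ^ (K * (K' + 1)) * (3 * (1 + |c|)) * (X ^ (1 / 3 : ℝ) * X ^ (1 / 4 + 2 * γ + ε)) := by
          ring
      _ ≤ _ := mul_le_mul_of_nonneg_right hB (by positivity)

end Pool.Agent.P.MP_a60a76_nt.Fs
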