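import Pool.Agent.P.MP_a60a76_nt.Fs.LocQ

namespace Pool.Agent.P.MP_a60a76_nt.Fs

open Polynomial
open scoped NNReal

theorem int_val_lt {q : ℕ} [hq : Fact q.Prime] (L : ILoc q) {n : ℤ} (h : (q : ℤ) ∣ n) :
    L.v ((n : ℚ) : Qb) < 1 := by
  obtain ⟨k, rfl⟩ := h
  have := (int_vals L k).1
  push_cast at this ⊢
  rw [map_mul, L.val_self]
  calc 1 / 2 * L.v (k : Qb) ≤ 1 / 2 * 1 := by gcongr
    _ < 1 := by norm_num

theorem den_not_dvd {q : ℕ} [hq : Fact q.Prime] (L : ILoc q) {r : ℚ} (h : L.v (r : Qb) ≤ 1) :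
    ¬ (q : ℤ) ∣ r.den := by
  intro hd
  have h1 : L.v (((r.num : ℤ) : ℚ) : Qb) < 1 := by
    rw [← Rat.mul_den_eq_num, Rat.cast_mul, map_mul]
    exact mul_lt_one_of_nonneg_of_lt_one_right h zero_le (by simpa using int_val_lt L hd)
  have h2 : (q : ℤ) ∣ r.num := by
    by_contra h3
    exact h1.ne ((int_vals L _).2 h3)
  have h3 : q ∣ Nat.gcd r.num.natAbs r.den :=
    Nat.dvd_gcd (Int.natCast_dvd.1 h2) (Int.natCast_dvd_natCast.1 hd)
  rw [r.reduced] at h3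
  exact hq.out.one_lt.ne' (Nat.dvd_one.1 h3)

/-- A rational model whose discriminant has value divisible by twelve has a good integral model. -/
theorem good_of_val {q : ℕ} [hq : Fact q.Prime] (L : ILoc q) (hq5 : 5 ≤ q) {a b : ℚ} {n : ℤ}
    (hg : L.v (a : Qb) ^ 3 ≤ L.v (dsc (a : Qb) (b : Qb)))
    (hn : L.v (dsc (a : Qb) (b : Qb)) = (1 / 2 : ℝ≥0) ^ (12 * n)) :
    ∃ (A' B' : ℤ) (u : ℚ), u ≠ 0 ∧ (A' : ℚ) = u ^ 4 * a ∧ (B' : ℚ) = u ^ 6 * b ∧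
      ¬ (q : ℤ) ∣ dsc A' B' := by
  have v2 : L.v 2 = 1 := by simpa using L.val_small (n := 2) (by norm_num) (by omega)
  have v3 : L.v 3 = 1 := by simpa using L.val_small (n := 3) (by norm_num) (by omega)
  have hq0 : (q : ℚ) ≠ 0 := by exact_mod_cast hq.out.ne_zero
  set t : ℚ := (q : ℚ) ^ (-n) with ht
  have ht0 : t ≠ 0 := zpow_ne_zero _ hq0
  have vt : L.v (t : Qb) ^ 12 * L.v (dsc (a : Qb) (b : Qb)) = 1 := by
    rw [ht, Rat.cast_zpow, Rat.cast_natCast, map_zpow₀, L.val_self, hn, ← zpow_natCast, ← zpow_mul,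
      ← zpow_add₀ (by norm_num)]
    rw [show -n * ((12 : ℕ) : ℤ) + 12 * n = 0 by push_cast; ring, zpow_zero]
  have hb : L.v (b : Qb) ^ 2 ≤ L.v (dsc (a : Qb) (b : Qb)) := by
    have e1 : 3 ^ 3 * (b : Qb) ^ 2 = dsc (a : Qb) (b : Qb) - 2 ^ 2 * (a : Qb) ^ 3 := by
      rw [dsc]; ring
    have e2 := congrArg L.v e1
    rw [map_mul, map_pow, v3, one_pow, one_mul, map_pow] at e2
    rw [e2]
    refine L.v.map_sub_le le_rfl ?_
    rw [map_mul, map_pow, v2, one_pow, one_mul, map_pow]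
    exact hg
  have ha1 : L.v ((t ^ 4 * a : ℚ) : Qb) ≤ 1 := by
    refine (pow_le_one_iff_of_nonneg zero_le three_ne_zero).1 ?_
    push_cast
    rw [map_mul, map_pow, mul_pow, ← pow_mul, ← vt]
    gcongr
  have hb1 : L.v ((t ^ 6 * b : ℚ) : Qb) ≤ 1 := by
    refine (pow_le_one_iff_of_nonneg zero_le two_ne_zero).1 ?_
    push_cast
    rw [map_mul, map_pow, mul_pow, ← pow_mul, ← vt]
    gcongr
  have d1 := (int_vals L _).2 (den_not_dvd L ha1)
  have d2 := (int_vals L _).2 (den_not_dvd L hb1)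
  set a1 := t ^ 4 * a with ha1'
  set b1 := t ^ 6 * b with hb1'
  have e1 : ((a1.num * a1.den ^ 3 * b1.den ^ 4 : ℤ) : ℚ) = (a1.den * b1.den * t) ^ 4 * a := by
    push_cast
    rw [← Rat.mul_den_eq_num a1]
    linear_combination (a1.den * b1.den : ℚ) ^ 4 * ha1'
  have e2 : ((b1.num * b1.den ^ 5 * a1.den ^ 6 : ℤ) : ℚ) = (a1.den * b1.den * t) ^ 6 * b := by
    push_cast
    rw [← Rat.mul_den_eq_num b1]
    linear_combination (a1.den * b1.den : ℚ) ^ 6 * hb1'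
  refine ⟨_, _, _, by positivity, e1, e2, fun h => (int_val_lt L h).ne ?_⟩
  have e3 : (((dsc (a1.num * a1.den ^ 3 * b1.den ^ 4) (b1.num * b1.den ^ 5 * a1.den ^ 6) : ℤ) : ℚ)
      : Qb) = (((a1.den : ℤ) : ℚ) : Qb) ^ 12 * (((b1.den : ℤ) : ℚ) : Qb) ^ 12 *
        ((t : Qb) ^ 12 * dsc (a : Qb) (b : Qb)) := by
    rw [dsc, Int.cast_add, Int.cast_mul, Int.cast_mul, Int.cast_pow, Int.cast_pow, e1, e2, dsc]
    push_cast
    ring
  rw [e3, map_mul, map_mul, map_mul, map_pow, map_pow, map_pow, d1, d2, vt]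
  simp

theorem val_j {q : ℕ} [hq : Fact q.Prime] (L : ILoc q) (hq5 : 5 ≤ q) {a b : ℚ}
    (hd : dsc a b ≠ 0) (hj : 0 ≤ padicValRat q (6912 * a ^ 3 / dsc a b)) :
    L.v (a : Qb) ^ 3 ≤ L.v (dsc (a : Qb) (b : Qb)) := by
  have v2 : L.v 2 = 1 := by simpa using L.val_small (n := 2) (by norm_num) (by omega)
  have v3 : L.v 3 = 1 := by simpa using L.val_small (n := 3) (by norm_num) (by omega)
  have ed : dsc (a : Qb) (b : Qb) = ((dsc a b : ℚ) : Qb) := by simp [dsc]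
  by_cases ha : a = 0
  · simp [ha]
  have h1 := L.val (6912 * a ^ 3 / dsc a b) (by positivity)
  have h2 : (1 / 2 : ℝ≥0) ^ padicValRat q (6912 * a ^ 3 / dsc a b) ≤ 1 :=
    zpow_le_one₀ (by norm_num) (by norm_num) hj
  rw [← h1] at h2
  push_cast at h2
  rw [← ed, map_div₀, map_mul, show (6912 : Qb) = 2 ^ 8 * 3 ^ 3 by norm_num, map_mul, map_pow,
    map_pow, map_pow, v2, v3, div_le_one (pos_iff_ne_zero.2 ((Valuation.ne_zero_iff _).2 (by
      rw [ed]; exact_mod_cast hd)))] at h2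
  simpa using h2

theorem good_model {p q : ℕ} (hp : p.Prime) (h5 : 5 ≤ p) (hq : q.Prime) (hq5 : 5 ≤ q)
    (hqp : q ≠ p) {A B : ℤ} (hd : ¬ (q : ℤ) ∣ dsc A B) {a b : ℚ} (hd2 : dsc a b ≠ 0)
    (h : Cong p A B a b) (hj : 0 ≤ padicValRat q (6912 * a ^ 3 / dsc a b)) :
    ∃ (A' B' : ℤ) (u : ℚ), u ≠ 0 ∧ (A' : ℚ) = u ^ 4 * a ∧ (B' : ℚ) = u ^ 6 * b ∧
      ¬ (q : ℤ) ∣ dsc A' B' := by
  have := Fact.mk hq
  obtain ⟨L⟩ := exists_iloc q
  obtain ⟨ψ, hψ⟩ := h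
  have hd0 : dsc A B ≠ 0 := fun h => hd (h ▸ dvd_zero _)
  have ed : dsc ((A : ℚ) : Qb) ((B : ℚ) : Qb) = (((dsc A B : ℤ) : ℚ) : Qb) := by simp [dsc]
  have v1 : L.v (dsc ((A : ℚ) : Qb) ((B : ℚ) : Qb)) = 1 := by
    rw [ed]; exact (int_vals L _).2 hd
  have h1 := (good2 L hq5 hp h5 hqp (a := ((A : ℚ) : Qb)) (b := ((B : ℚ) : Qb))
    (fun σ _ => ⟨map_ratCast σ _, map_ratCast σ _⟩) (by rw [ed]; simpa using hd0)
    (by rw [v1]; exact pow_le_one₀ zero_le (int_vals L A).1)).2.2.1 ⟨0, by rw [v1]; simp⟩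
  have hg := val_j L hq5 hd2 hj
  obtain ⟨n, hn⟩ := (good2 L hq5 hp h5 hqp (a := (a : Qb)) (b := (b : Qb))
    (fun σ _ => ⟨map_ratCast σ _, map_ratCast σ _⟩) (by
      rw [show dsc (a : Qb) (b : Qb) = ((dsc a b : ℚ) : Qb) by simp [dsc]]
      exact_mod_cast hd2) hg).2.2.2 fun σ hσ P => by
    obtain ⟨P, rfl⟩ := ψ.surjective P
    rw [← hψ, h1 σ hσ]
  exact good_of_val L hq5 hg hn

theorem rad_le {p : ℕ} (S : Finset ℕ) {d : ℤ} (hd : d ≠ 0) {j : ℚ}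
    (hS : ∀ q ∈ S, q.Prime ∧
      ((q : ℤ) ∣ d ∨ (padicValRat q j < 0 ∧ (p : ℤ) ∣ padicValRat q j))) :
    (∏ q ∈ S, q) ^ p ≤ d.natAbs ^ p * j.den := by
  classical
  rw [← Finset.prod_filter_mul_prod_filter_not S (fun q => (q : ℤ) ∣ d), mul_pow]
  refine Nat.mul_le_mul (Nat.pow_le_pow_left ?_ p) ?_
  · refine Nat.le_of_dvd (Int.natAbs_pos.2 hd) (Finset.prod_primes_dvd _ ?_ ?_)
    · exact fun q hq => (hS q (Finset.mem_filter.1 hq).1).1.prime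
    · exact fun q hq => Int.natCast_dvd.1 (Finset.mem_filter.1 hq).2
  · rw [← Finset.prod_pow]
    refine Nat.le_of_dvd j.den_pos (Finset.prod_dvd_of_isRelPrime ?_ ?_)
    · intro q hq r hr hne
      have h1 := (hS q (Finset.mem_filter.1 hq).1).1
      have h2 := (hS r (Finset.mem_filter.1 hr).1).1
      exact Nat.coprime_iff_isRelPrime.1 (Nat.coprime_pow_primes p p h1 h2 hne)
    · intro q hq
      obtain ⟨h1, h2⟩ := Finset.mem_filter.1 hq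
      have := Fact.mk (hS q h1).1
      obtain ⟨h3, h4⟩ := (hS q h1).2.resolve_left h2
      have h5 := Int.le_of_dvd (neg_pos.2 h3) ((dvd_neg).2 h4)
      rw [padicValNat_dvd_iff_le j.den_nz]
      rw [padicValRat_def] at h5
      omega

theorem hgt_le {P : ℕ} {α σ A0 : ℝ} (hP : 0 < P) (h0 : 0 ≤ σ) (h1 : σ < P)
    (h2 : (α + σ) * P < A0 * (P - σ)) : ∀ᶠ X : ℝ in Filter.atTop, ∀ p R H D : ℕ, P ≤ p → 1 ≤ H →
      1 ≤ R → (D : ℝ) ≤ 12 * X → R ^ p ≤ D ^ p * H → (H : ℝ) ≤ X ^ α * (R : ℝ) ^ σ →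
      (H : ℝ) ≤ X ^ A0 := by
  have hδ : 0 < A0 * (P - σ) - (α + σ) * P := sub_pos.2 h2
  filter_upwards [Filter.eventually_gt_atTop (0 : ℝ), Real.tendsto_log_atTop.eventually_ge_atTop
    (P * σ * Real.log 12 / (A0 * (P - σ) - (α + σ) * P))] with X hX hL p R H D hp hH hR hD k1 k2
  rw [div_le_iff₀ hδ] at hL
  have hH' : (0 : ℝ) < H := by exact_mod_cast hH
  have hR' : (0 : ℝ) < R := by exact_mod_cast hR
  have hP' : (0 : ℝ) < P := by exact_mod_cast hP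
  have hp' : (P : ℝ) ≤ p := by exact_mod_cast hp
  have hh : 0 ≤ Real.log H := Real.log_natCast_nonneg H
  have e1 : (R : ℝ) ^ p ≤ (12 * X) ^ p * H := by
    calc (R : ℝ) ^ p ≤ (D : ℝ) ^ p * H := by exact_mod_cast k1
      _ ≤ _ := by gcongr
  have e2 := Real.log_le_log (by positivity) e1
  rw [Real.log_mul (by positivity) hH'.ne', Real.log_pow, Real.log_pow,
    Real.log_mul (by norm_num) hX.ne'] at e2
  have e3 := Real.log_le_log hH' k2
  rw [Real.log_mul (by positivity) (by positivity), Real.log_rpow hX, Real.log_rpow hR'] at e3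
  rw [← Real.log_le_log_iff hH' (by positivity), Real.log_rpow hX]
  have e4 : P * (Real.log R - Real.log 12 - Real.log X) ≤ Real.log H := by
    by_cases hs : 0 ≤ Real.log R - Real.log 12 - Real.log X
    · calc _ ≤ p * (Real.log R - Real.log 12 - Real.log X) := by gcongr
        _ ≤ _ := by linarith
    · nlinarith
  have e5 := mul_le_mul_of_nonneg_left e4 h0
  have e6 := mul_le_mul_of_nonneg_left e3 hP'.le
  refine le_of_mul_le_mul_right ?_ (sub_pos.2 h1)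
  nlinarith

end Pool.Agent.P.MP_a60a76_nt.Fs
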