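import Pool.Agent.P.MP_a60a76_nt.Fs.Defs

namespace Pool.Agent.P.MP_a60a76_nt.Fs

open Polynomial
open scoped NNReal

section aux

open WeierstrassCurve WeierstrassCurve.Affine

variable {K : Type*} [Field K] {W W' : Affine K} {r s t : K}

/-- `W'` arises from `W` by a translation. -/
structure VarChRel (W W' : Affine K) (r s t : K) : Prop where
  h1 : W'.a₁ = W.a₁ + 2 * s
  h2 : W'.a₂ = W.a₂ - s * W.a₁ + 3 * r - s ^ 2
  h3 : W'.a₃ = W.a₃ + r * W.a₁ + 2 * t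
  h4 : W'.a₄ = W.a₄ - s * W.a₃ + 2 * r * W.a₂ - (t + r * s) * W.a₁ + 3 * r ^ 2 - 2 * s * t
  h6 : W'.a₆ = W.a₆ + r * W.a₄ + r ^ 2 * W.a₂ + r ^ 3 - t * W.a₃ - t ^ 2 - r * t * W.a₁

theorem VarChRel.nonsing (h : VarChRel W W' r s t) (x y : K) :
    W'.Nonsingular (x - r) (y - s * (x - r) - t) ↔ W.Nonsingular x y := by
  have e1 : 2 * (y - s * (x - r) - t) + W'.a₁ * (x - r) + W'.a₃ = 2 * y + W.a₁ * x + W.a₃ := by
    rw [h.h1, h.h3]; ring
  have e2 : W'.a₁ * (y - s * (x - r) - t) - (3 * (x - r) ^ 2 + 2 * W'.a₂ * (x - r) + W'.a₄) =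
      W.a₁ * y - (3 * x ^ 2 + 2 * W.a₂ * x + W.a₄) + s * (2 * y + W.a₁ * x + W.a₃) := by
    rw [h.h1, h.h2, h.h4]; ring
  rw [nonsingular_iff', nonsingular_iff', equation_iff', equation_iff', e1, e2]
  refine and_congr (by rw [h.h1, h.h2, h.h3, h.h4, h.h6]; congr! 1; ring) ?_
  by_cases h0 : 2 * y + W.a₁ * x + W.a₃ = 0
  · rw [h0, mul_zero, add_zero]
  · simp only [ne_eq, h0, not_false_eq_true, or_true]

theorem VarChRel.negY (h : VarChRel W W' r s t) (x y : K) :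
    W'.negY (x - r) (y - s * (x - r) - t) = W.negY x y - s * (x - r) - t := by
  rw [Affine.negY, Affine.negY, h.h1, h.h3]; ring

theorem VarChRel.addX (h : VarChRel W W' r s t) (x₁ x₂ l : K) :
    W'.addX (x₁ - r) (x₂ - r) (l - s) = W.addX x₁ x₂ l - r := by
  rw [Affine.addX, Affine.addX, h.h1, h.h2]; ring

theorem VarChRel.addY (h : VarChRel W W' r s t) (x₁ x₂ y₁ l : K) :
    W'.addY (x₁ - r) (x₂ - r) (y₁ - s * (x₁ - r) - t) (l - s) =
      W.addY x₁ x₂ y₁ l - s * (W.addX x₁ x₂ l - r) - t := by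
  rw [Affine.addY, Affine.addY, negAddY, negAddY, h.addX, ← h.negY]
  congr 1
  ring

theorem VarChRel.cond (h : VarChRel W W' r s t) (x₁ x₂ y₁ y₂ : K) :
    (x₁ - r = x₂ - r ∧ y₁ - s * (x₁ - r) - t = W'.negY (x₂ - r) (y₂ - s * (x₂ - r) - t)) ↔
      (x₁ = x₂ ∧ y₁ = W.negY x₂ y₂) := by
  rw [h.negY, sub_left_inj]
  refine and_congr_right fun e => ?_
  rw [e, sub_left_inj, sub_left_inj]

variable [DecidableEq K]

theorem VarChRel.slope (h : VarChRel W W' r s t) {x₁ x₂ y₁ y₂ : K} (h₁ : W.Equation x₁ y₁)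
    (h₂ : W.Equation x₂ y₂) (hxy : ¬ (x₁ = x₂ ∧ y₁ = W.negY x₂ y₂)) :
    W'.slope (x₁ - r) (x₂ - r) (y₁ - s * (x₁ - r) - t) (y₂ - s * (x₂ - r) - t) =
      W.slope x₁ x₂ y₁ y₂ - s := by
  by_cases hx : x₁ = x₂
  · have hy : y₁ ≠ W.negY x₂ y₂ := fun e => hxy ⟨hx, e⟩
    have hy' := Y_eq_of_Y_ne h₁ h₂ hx hy
    subst hx hy'
    have h0 : y₁ - W.negY x₁ y₁ ≠ 0 := sub_ne_zero.2 hy
    rw [slope_of_Y_ne rfl hy, slope_of_Y_ne rfl fun e => hxy ((h.cond _ _ _ _).1 ⟨rfl, e⟩), h.negY,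
      show y₁ - s * (x₁ - r) - t - (W.negY x₁ y₁ - s * (x₁ - r) - t) = y₁ - W.negY x₁ y₁ by ring,
      div_sub' h0]
    congr 1
    rw [Affine.negY, h.h1, h.h2, h.h4]
    ring
  · have h0 : x₁ - x₂ ≠ 0 := sub_ne_zero.2 hx
    rw [slope_of_X_ne hx, slope_of_X_ne fun e => hx (sub_left_inj.1 e),
      sub_sub_sub_cancel_right x₁ x₂ r, div_sub' h0]
    congr 1
    ring

/-- The translation on points. -/
def VarChRel.hom (h : VarChRel W W' r s t) : W.Point →+ W'.Point where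
  toFun P := match P with
    | .zero => 0
    | .some x y h' => .some _ _ ((h.nonsing x y).2 h')
  map_zero' := rfl
  map_add' := by
    rintro (_ | ⟨x₁, y₁, h₁⟩) (_ | ⟨x₂, y₂, h₂⟩)
    any_goals rfl
    by_cases hxy : x₁ = x₂ ∧ y₁ = W.negY x₂ y₂
    · have e := (h.cond x₁ x₂ y₁ y₂).2 hxy
      rw [Point.add_of_Y_eq hxy.1 hxy.2]
      exact (Point.add_of_Y_eq e.1 e.2).symm
    · have e := (h.cond x₁ x₂ y₁ y₂).not.2 hxy
      rw [Point.add_some hxy]
      refine Eq.trans ?_ (Point.add_some e).symm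
      simp only [h.slope h₁.1 h₂.1 hxy, h.addX, h.addY]

theorem VarChRel.bij (h : VarChRel W W' r s t) : Function.Bijective h.hom := by
  refine ⟨(injective_iff_map_eq_zero _).2 ?_, ?_⟩
  · rintro (_ | ⟨x, y, h'⟩) e
    · rfl
    · exact absurd e (Point.some_ne_zero _)
  · rintro (_ | ⟨x, y, h'⟩)
    · exact ⟨0, rfl⟩
    · have e1 : x + r - r = x := by ring
      have e2 : y + s * x + t - s * (x + r - r) - t = y := by ring
      refine ⟨.some (x + r) (y + s * x + t) ((h.nonsing _ _).1 (by rwa [e2, e1])), ?_⟩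
      change Point.some _ _ _ = _
      simp only [Point.some.injEq, e1, true_and]
      ring

end aux

open WeierstrassCurve in
open Classical in
theorem model_equiv (E : WeierstrassCurve ℚ) (C : VariableChange ℚ) (hu : C.u = 1) (a b : ℚ)
    (h : C • E = wc a b) :
    ∃ e : (E.baseChange Qb).toAffine.Point ≃+ Pt (a : Qb) (b : Qb),
      ∀ (σ : Qb ≃ₐ[ℚ] Qb) (P : (E.baseChange Qb).toAffine.Point),
        e (Affine.Point.map (W' := E.toAffine) σ.toAlgHom P) =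
          galP (a : Qb) (b : Qb) σ.toRingEquiv.toRingHom (e P) := by
  have h1 := congrArg (fun W => ((W.a₁ : ℚ) : Qb)) h
  have h2 := congrArg (fun W => ((W.a₂ : ℚ) : Qb)) h
  have h3 := congrArg (fun W => ((W.a₃ : ℚ) : Qb)) h
  have h4 := congrArg (fun W => ((W.a₄ : ℚ) : Qb)) h
  have h6 := congrArg (fun W => ((W.a₆ : ℚ) : Qb)) h
  simp only [variableChange_def, hu, inv_one, Units.val_one, one_pow, one_mul, wc] at h1 h2 h3 h4 h6
  push_cast at h1 h2 h3 h4 h6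
  have H : VarChRel (E.baseChange Qb).toAffine (wc (a : Qb) (b : Qb)).toAffine C.r C.s C.t :=
    ⟨h1.symm, h2.symm, h3.symm, h4.symm, h6.symm⟩
  refine ⟨AddEquiv.ofBijective H.hom H.bij, fun σ P => ?_⟩
  rcases P with _ | ⟨x, y, h'⟩
  · exact (map_zero (galP (a : Qb) (b : Qb) σ.toRingEquiv.toRingHom)).symm
  · have ha : σ.toRingEquiv.toRingHom (a : Qb) = a := map_ratCast _ a
    have hb : σ.toRingEquiv.toRingHom (b : Qb) = b := map_ratCast _ b
    refine pt_ext (Affine.Point.some_ne_zero _)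
      ((galP_eq_zero_iff _ _).not.2 (Affine.Point.some_ne_zero _)) ?_ ?_
    · rw [xc_galP ha hb]
      change σ x - C.r = σ (x - C.r)
      rw [map_sub, map_ratCast]
    · rw [yc_galP ha hb]
      change σ y - C.s * (σ x - C.r) - C.t = σ (y - C.s * (x - C.r) - C.t)
      simp only [map_sub, map_mul, map_ratCast]

open WeierstrassCurve in
theorem short_model (E : WeierstrassCurve ℚ) [E.IsElliptic] :
    ∃ (a b : ℚ) (C : VariableChange ℚ), C.u = 1 ∧ C • E = wc a b ∧ dsc a b ≠ 0 ∧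
      E.j = 6912 * a ^ 3 / dsc a b := by
  obtain ⟨C, hu, hr, hs, ht⟩ : ∃ C : VariableChange ℚ, C.u = 1 ∧ C.r = -E.b₂ / 12 ∧
      C.s = -E.a₁ / 2 ∧ C.t = -(E.a₃ + C.r * E.a₁) / 2 :=
    ⟨⟨1, -E.b₂ / 12, -E.a₁ / 2, -(E.a₃ + -E.b₂ / 12 * E.a₁) / 2⟩, rfl, rfl, rfl, rfl⟩
  obtain ⟨a, b, h⟩ : ∃ a b, C • E = wc a b := by
    refine ⟨(C • E).a₄, (C • E).a₆, ?_⟩
    ext
    · rw [variableChange_a₁, hs]; simp only [wc]; ring
    · rw [variableChange_a₂, hs, hr, b₂]; simp only [wc]; ring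
    · rw [variableChange_a₃, ht]; simp only [wc]; ring
    · rfl
    · rfl
  have h1 : E.Δ = -16 * dsc a b := by
    have := variableChange_Δ E C
    rw [h, hu] at this
    simp only [inv_one, Units.val_one, one_pow, one_mul] at this
    rw [← this]
    simp only [wc, Δ, b₂, b₄, b₆, b₈, dsc]
    ring
  have h2 : E.c₄ = -48 * a := by
    have := variableChange_c₄ E C
    rw [h, hu] at this
    simp only [inv_one, Units.val_one, one_pow, one_mul] at this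
    rw [← this]
    simp only [wc, c₄, b₂, b₄]
    ring
  have h3 : dsc a b ≠ 0 := fun h0 => E.isUnit_Δ.ne_zero (by rw [h1, h0, mul_zero])
  refine ⟨a, b, C, hu, h, h3, ?_⟩
  rw [j, Units.val_inv_eq_inv_val, coe_Δ', h1, h2]
  field_simp
  ring

open WeierstrassCurve in
theorem iso_of_scale {a b a' b' u : ℚ} (hu : u ≠ 0) (ha : a' = u ^ 4 * a) (hb : b' = u ^ 6 * b) :
    ∃ C : VariableChange ℚ, C • wc a b = wc a' b' := by
  refine ⟨⟨(Units.mk0 u hu)⁻¹, 0, 0, 0⟩, ?_⟩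
  simp [variableChange_def, wc, ha, hb]

end Pool.Agent.P.MP_a60a76_nt.Fs
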